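import Mathlib
import Pool.Agent.Lib.MP_9177b7_ag.J.DefsE

/-!
Measures invariant under the diagonal group of `SL_N(ℚ_p)`: definitions and statements.
-/

open MeasureTheory ProbabilityTheory Filter Topology Set
open scoped ENNReal

noncomputable section

namespace Pool.Agent.Lib.MP_9177b7_ag.B

/-- `κ` is the family of conditional measures of `ν` along the orbits of the subgroup `U`. -/
structure IsCond {G X : Type} [Group G] [MeasurableSpace G] [MeasurableSpace X] [MulAction G X]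
    (U : Subgroup G) (ν : Measure X) (κ : Kernel X G) : Prop where
  markov : IsMarkovKernel κ
  supp : ∀ x, κ x (U : Set G)ᶜ = 0
  equi : ∀ c ∈ U, ∀ x, κ (c • x) = (κ x).map (· * c⁻¹)
  dis : ∀ f : X → ℝ≥0∞, Measurable f → ∫⁻ x, ∫⁻ c, f (c • x) ∂κ x ∂ν = ∫⁻ x, f x ∂ν

/-- Existence and uniqueness of conditional measures along a compact group. -/
def CondStmt : Prop :=
  ∀ (G X : Type) [Group G] [TopologicalSpace G] [IsTopologicalGroup G] [PolishSpace G]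
    [MeasurableSpace G] [BorelSpace G] [TopologicalSpace X] [PolishSpace X] [MeasurableSpace X]
    [BorelSpace X] [MulAction G X] [ContinuousSMul G X] (ν : Measure X) [IsFiniteMeasure ν]
    (U : Subgroup G), IsCompact (U : Set G) →
    (∃ κ, IsCond U ν κ) ∧ ∀ κ κ', IsCond U ν κ → IsCond U ν κ' → ∀ᵐ x ∂ν, κ x = κ' x

/-- The tower property and the behaviour under conjugation. -/
def TowerStmt : Prop :=
  ∀ (G X : Type) [Group G] [TopologicalSpace G] [IsTopologicalGroup G] [PolishSpace G]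
    [MeasurableSpace G] [BorelSpace G] [TopologicalSpace X] [PolishSpace X] [MeasurableSpace X]
    [BorelSpace X] [MulAction G X] [ContinuousSMul G X] (ν : Measure X) [IsFiniteMeasure ν]
    (U B : Subgroup G) (κ lam : Kernel X G), IsCompact (U : Set G) → IsCompact (B : Set G) →
    IsCond U ν κ → IsCond B ν lam →
    (B ≤ U → ∀ᵐ x ∂ν,
      (∀ f : G → ℝ≥0∞, Measurable f →
        ∫⁻ c, ∫⁻ b, f (b * c) ∂lam (c • x) ∂κ x = ∫⁻ c, f c ∂κ x) ∧
      ∀ b₀ ∈ B, (κ x).map (b₀ * ·) = κ x →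
        ∀ᵐ c ∂κ x, (lam (c • x)).map (b₀ * ·) = lam (c • x)) ∧
    ∀ T : G, ν.map (T • ·) = ν → (∀ g, g ∈ B ↔ T⁻¹ * g * T ∈ U) →
      ∀ᵐ x ∂ν, lam (T • x) = (κ x).map fun g => T * g * T⁻¹

/-- The Hopf argument. -/
def HopfStmt : Prop :=
  ∀ (G X : Type) [Group G] [TopologicalSpace G] [IsTopologicalGroup G] [TopologicalSpace X]
    [PolishSpace X] [LocallyCompactSpace X] [MeasurableSpace X] [BorelSpace X] [MulAction G X] [ContinuousSMul G X]
    (ν : Measure X) [IsFiniteMeasure ν] (T : G) (V : Set G) (F : X → ℝ),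
    ν.map (T • ·) = ν → Measurable F → (∀ x, |F x| ≤ 1) → (∀ᵐ x ∂ν, F (T • x) = F x) →
    (∀ O ∈ 𝓝 (1 : G), ∀ᶠ n : ℕ in atTop, ∀ w ∈ V, T ^ n * w * (T ^ n)⁻¹ ∈ O) →
    ∃ X' : Set X, MeasurableSet X' ∧ (∀ᵐ x ∂ν, x ∈ X') ∧
      ∀ w ∈ V, ∀ x ∈ X', w • x ∈ X' → F (w • x) = F x

/-- The product lemma: conditional measures are constant along contracted directions. -/
def ProdStmt : Prop :=
  ∀ (G X : Type) [Group G] [TopologicalSpace G] [IsTopologicalGroup G] [PolishSpace G]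
    [MeasurableSpace G] [BorelSpace G] [TopologicalSpace X] [PolishSpace X] [LocallyCompactSpace X]
    [MeasurableSpace X] [BorelSpace X] [MulAction G X] [ContinuousSMul G X] (ν : Measure X)
    [IsFiniteMeasure ν] (U : Subgroup G) (κ : Kernel X G) (T : G) (V : Set G),
    IsCompact (U : Set G) → IsCond U ν κ → ν.map (T • ·) = ν → (∀ u ∈ U, T * u = u * T) →
    (∀ u ∈ U, ∀ w ∈ V, u * w * u⁻¹ ∈ V) →
    (∀ O ∈ 𝓝 (1 : G), ∀ᶠ n : ℕ in atTop, ∀ w ∈ V, T ^ n * w * (T ^ n)⁻¹ ∈ O) →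
    ∃ X' : Set X, MeasurableSet X' ∧ (∀ᵐ x ∂ν, x ∈ X') ∧ (∀ u ∈ U, ∀ x ∈ X', u • x ∈ X') ∧
      ∀ w ∈ V, ∀ x ∈ X', w • x ∈ X' → κ (w • x) = κ x

/-- All levels of a contracted compact group carry the same information. -/
def LevStmt : Prop :=
  ∀ (G X : Type) [Group G] [TopologicalSpace G] [IsTopologicalGroup G] [PolishSpace G]
    [MeasurableSpace G] [BorelSpace G] [TopologicalSpace X] [PolishSpace X] [MeasurableSpace X]
    [BorelSpace X] [MulAction G X] [ContinuousSMul G X] (ν : Measure X) [IsFiniteMeasure ν]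
    (U : Subgroup G) (κ : Kernel X G), IsCompact (U : Set G) → IsCond U ν κ →
    MeasurableSet {x | κ x = Measure.dirac 1} ∧
    MeasurableSet {x | ∀ u ∈ U, (κ x).map (u * ·) = κ x} ∧
    (∀ᵐ x ∂ν, (∃ g, κ x = Measure.dirac g) → κ x = Measure.dirac 1) ∧
    ((∀ᵐ x ∂ν, ∀ u ∈ U, (κ x).map (u * ·) = κ x) → ∀ u ∈ U, ν.map (u • ·) = ν) ∧
    ∀ T : G, ν.map (T • ·) = ν → (∀ u ∈ U, T * u * T⁻¹ ∈ U) →
      (∀ᵐ x ∂ν, κ (T • x) = Measure.dirac 1 ↔ κ x = Measure.dirac 1) ∧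
      ∀ᵐ x ∂ν, ∀ j : ℕ, (∀ u ∈ U, (κ x).map ((T ^ j * u * (T ^ j)⁻¹) * ·) = κ x) →
        ∀ u ∈ U, (κ x).map (u * ·) = κ x

/-- Two product structures on the Heisenberg group give invariance under a central element. -/
def HeisStmt : Prop :=
  ∀ (p : ℕ) [Fact p.Prime] (m : Measure (ℚ_[p] × ℚ_[p] × ℚ_[p])) (ω ω' : Measure ℚ_[p]),
    IsProbabilityMeasure m → IsProbabilityMeasure ω → IsProbabilityMeasure ω' →
    (∀ᵐ y ∂m, ‖y.1‖ ≤ 1 ∧ ‖y.2.1‖ ≤ 1 ∧ ‖y.2.2‖ ≤ 1) →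
    (∀ f : ℚ_[p] × ℚ_[p] × ℚ_[p] → ℝ≥0∞, Measurable f →
      ∫⁻ y, ∫⁻ r, f (r, y.2.1, y.2.2 - y.1 * y.2.1 + r * y.2.1) ∂ω ∂m = ∫⁻ y, f y ∂m) →
    (∀ f : ℚ_[p] × ℚ_[p] × ℚ_[p] → ℝ≥0∞, Measurable f →
      ∫⁻ y, ∫⁻ s, f (y.1, s, y.2.2) ∂ω' ∂m = ∫⁻ y, f y ∂m) →
    (∀ r, ω ≠ Measure.dirac r) → (∀ s, ω' ≠ Measure.dirac s) →
    ∃ q : ℚ_[p], q ≠ 0 ∧ ‖q‖ ≤ 1 ∧ m.map (fun y => (y.1, y.2.1, y.2.2 + q)) = m

/-- The covering argument: no invariant measure has both trivial conditional measures and small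
Bowen balls. -/
def CovStmt : Prop :=
  ∀ (H C X : Type) [Group H] [TopologicalSpace H] [IsTopologicalGroup H] [Group C]
    [TopologicalSpace C] [IsTopologicalGroup C] [TopologicalSpace X] [PolishSpace X]
    [MeasurableSpace X] [BorelSpace X] [MulAction (H × C) X] [ContinuousSMul (H × C) X]
    (ν : Measure X) [IsFiniteMeasure ν] (T : H) (Z : Set X) (W : ℕ) (ρ : ℝ),
    (∀ x : X, IsOpenMap fun g : H × C => g • x) → ν.map (((T, 1) : H × C) • ·) = ν →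
    MeasurableSet Z → (∀ᵐ x ∂ν, x ∈ Z) → 0 < ρ → ρ < 1 →
    (∀ Q : Set X, IsCompact Q → Q ⊆ Z → ∃ (B : ℕ → Subgroup H) (O : Set C) (C₀ : ℝ),
      O ∈ 𝓝 (1 : C) ∧ IsOpen (B 0 : Set H) ∧
      (∀ l, ∃ s : Finset H, s.card ≤ W ∧ ∀ h ∈ B l, ∃ g ∈ s, h * g⁻¹ ∈ B (l + 1)) ∧
      (∀ l, ∀ h ∈ B l, ∀ c ∈ O, ∀ y : X, (((T ^ l)⁻¹, 1) : H × C) • y ∈ Q →
        (((T ^ l)⁻¹, 1) : H × C) • ((h, c) : H × C) • y ∈ Q → h ∈ B (l + 1)) ∧
      ∀ (M : ℕ) (y : X), ν {z | ∃ h ∈ B M, ∃ c ∈ O, z = ((h, c) : H × C) • y} ≤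
        ENNReal.ofReal (C₀ * ρ ^ M)) →
    ν = 0

/-- The special linear group over a field is generated by transvections. -/
def GenStmt : Prop :=
  ∀ (ι F : Type) [Fintype ι] [DecidableEq ι] [Field F]
    (S : Subgroup (Matrix.SpecialLinearGroup ι F)),
    (∀ (a b : ι) (h : a ≠ b) (s : F), Matrix.SpecialLinearGroup.transvection h s ∈ S) → S = ⊤

section conc

variable (n p : ℕ) [Fact p.Prime]

/-- The group `SL_N(ℚ_p)`, `N = n + 3`. -/
abbrev HP : Type := Matrix.SpecialLinearGroup (Fin (n + 3)) ℚ_[p]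

instance slMeasN (F : Type) [CommRing F] [TopologicalSpace F] :
    MeasurableSpace (Matrix.SpecialLinearGroup (Fin (n + 3)) F) := borel _

instance slBorelN (F : Type) [CommRing F] [TopologicalSpace F] :
    BorelSpace (Matrix.SpecialLinearGroup (Fin (n + 3)) F) := ⟨rfl⟩

instance slPolishN (F : Type) [NormedField F] [ProperSpace F] :
    PolishSpace (Matrix.SpecialLinearGroup (Fin (n + 3)) F) :=
  haveI : PolishSpace (Matrix (Fin (n + 3)) (Fin (n + 3)) F) :=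
    inferInstanceAs (PolishSpace (Fin (n + 3) → Fin (n + 3) → F))
  Matrix.SpecialLinearGroup.isClosedEmbedding_val.polishSpace

instance slLCN (F : Type) [NormedField F] [ProperSpace F] :
    LocallyCompactSpace (Matrix.SpecialLinearGroup (Fin (n + 3)) F) :=
  haveI : LocallyCompactSpace (Matrix (Fin (n + 3)) (Fin (n + 3)) F) :=
    inferInstanceAs (LocallyCompactSpace (Fin (n + 3) → Fin (n + 3) → F))
  Matrix.SpecialLinearGroup.isClosedEmbedding_val.locallyCompactSpace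

variable {n}

/-- The integral points of a root group. -/
def Ur {a b : Fin (n + 3)} (h : a ≠ b) : Subgroup (HP n p) where
  carrier := {u | ∃ s : ℚ_[p], ‖s‖ ≤ 1 ∧ u = Matrix.SpecialLinearGroup.transvection h s}
  one_mem' := ⟨0, by simp, (Matrix.SpecialLinearGroup.transvection_coeff_zero h).symm⟩
  mul_mem' := by
    rintro _ _ ⟨s, hs, rfl⟩ ⟨t, ht, rfl⟩
    exact ⟨s + t, (IsUltrametricDist.norm_add_le_max s t).trans (max_le hs ht),
      (Matrix.SpecialLinearGroup.transvection_add h s t).symm⟩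
  inv_mem' := by
    rintro _ ⟨s, hs, rfl⟩
    exact ⟨-s, by rwa [norm_neg], Matrix.SpecialLinearGroup.transvection_inv h s⟩

/-- The diagonal matrix with entries `p ^ k i`. -/
def dgp (k : Fin (n + 3) → ℤ) (hk : ∑ i, k i = 0) : HP n p :=
  ⟨Matrix.diagonal fun i => (p : ℚ_[p]) ^ k i, by
    have hp : (p : ℚ_[p]) ≠ 0 := Nat.cast_ne_zero.2 (Fact.out : p.Prime).ne_zero
    have e : ∀ s : Finset (Fin (n + 3)), ∏ i ∈ s, (p : ℚ_[p]) ^ k i = (p : ℚ_[p]) ^ ∑ i ∈ s, k i :=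
      fun s => by
        induction s using Finset.induction_on with
        | empty => simp
        | insert a s ha ih => rw [Finset.prod_insert ha, Finset.sum_insert ha, ih, zpow_add₀ hp]
    rw [Matrix.det_diagonal, e, hk, zpow_zero]⟩

/-- Integral matrices which are block diagonal modulo `p ^ k`. -/
def KI (I : Finset (Fin (n + 3))) (k : ℕ) : Set (HP n p) :=
  {h | (∀ i j, ‖h i j‖ ≤ 1) ∧ ∀ i j, ¬ (i ∈ I ↔ j ∈ I) → ‖h i j‖ ≤ ((p : ℝ) ^ k)⁻¹}

/-- The integral points of the unipotent radical attached to `I`. -/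
def UI (I : Finset (Fin (n + 3))) : Set (HP n p) :=
  {h | (∀ i j, ‖h i j‖ ≤ 1) ∧ ∀ i j, ¬ (i ∈ I ∧ j ∉ I) →
    h i j = (1 : Matrix (Fin (n + 3)) (Fin (n + 3)) ℚ_[p]) i j}

variable (n)

/-- A space with an action of `SL_N(ℚ_p) × C` whose orbits are open. -/
structure Sp where
  C : Type
  X : Type
  [gC : Group C]
  [tC : TopologicalSpace C]
  [tgC : IsTopologicalGroup C]
  [pC : PolishSpace C]
  [tX : TopologicalSpace X]
  [pX : PolishSpace X]
  [lX : LocallyCompactSpace X]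
  [mX : MeasurableSpace X]
  [bX : BorelSpace X]
  [ac : MulAction (HP n p × C) X]
  [cs : ContinuousSMul (HP n p × C) X]
  opn : ∀ x : X, IsOpenMap fun g : HP n p × C => g • x

attribute [instance] Sp.gC Sp.tC Sp.tgC Sp.pC Sp.tX Sp.pX Sp.lX Sp.mX Sp.bX Sp.ac Sp.cs

namespace Sp

variable {n p} (S : Sp n p)

instance : MulAction (HP n p) S.X := MulAction.compHom S.X (MonoidHom.inl (HP n p) S.C)

theorem smul_def (h : HP n p) (x : S.X) : h • x = ((h, 1) : HP n p × S.C) • x := rfl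

instance : ContinuousSMul (HP n p) S.X :=
  ⟨show Continuous fun q : HP n p × S.X => ((q.1, 1) : HP n p × S.C) • q.2 by fun_prop⟩

/-- Invariance under the diagonal group. -/
def AInv (ν : Measure S.X) : Prop :=
  ∀ (k : Fin (n + 3) → ℤ) (hk : ∑ i, k i = 0), ν.map (dgp p k hk • ·) = ν

/-- Tubes around the Levi subgroups have small measure. -/
def Tube (ν : Measure S.X) : Prop :=
  ∃ O ∈ 𝓝 (1 : S.C), ∃ C₀ κ : ℝ, 0 < κ ∧ ∀ I : Finset (Fin (n + 3)), I.Nonempty →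
    I ≠ Finset.univ → ∀ (k : ℕ) (x : S.X),
      ν {y | ∃ h ∈ KI p I k, ∃ c ∈ O, y = ((h, c) : HP n p × S.C) • x} ≤
        ENNReal.ofReal (C₀ * (p : ℝ) ^ (-(κ * k)))

end Sp

end conc

/-- The high entropy step. -/
def EKStmt : Prop :=
  ∀ (n p : ℕ) [Fact p.Prime] (S : Sp n p) (ν : Measure S.X) [IsProbabilityMeasure ν]
    (a b c : Fin (n + 3)) (hab : a ≠ b) (hbc : b ≠ c) (hac : a ≠ c)
    (κ₁ κ₂ κ₃ : Kernel S.X (HP n p)), S.AInv ν → IsCond (Ur p hab) ν κ₁ → IsCond (Ur p hbc) ν κ₂ →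
    IsCond (Ur p hac) ν κ₃ → ∀ᵐ x ∂ν, κ₁ x ≠ Measure.dirac 1 → κ₂ x ≠ Measure.dirac 1 →
      ∀ u ∈ Ur p hac, (κ₃ x).map (u * ·) = κ₃ x

/-- Where all root conditional measures are trivial there is a section for the unipotent radical. -/
def SecStmt : Prop :=
  ∀ (n p : ℕ) [Fact p.Prime] (S : Sp n p) (ν : Measure S.X) [IsProbabilityMeasure ν]
    (κ : ∀ a b : Fin (n + 3), a ≠ b → Kernel S.X (HP n p)) (I : Finset (Fin (n + 3))),
    S.AInv ν → (∀ a b h, IsCond (Ur p h) ν (κ a b h)) →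
    ∃ Z : Set S.X, MeasurableSet Z ∧
      (∀ᵐ x ∂ν, (∀ a b h, a ∈ I → b ∉ I → κ a b h x = Measure.dirac 1) → x ∈ Z) ∧
      ∀ u ∈ UI p I, ∀ x ∈ Z, u • x ∈ Z → u = 1

/-- A finite measure with a conull section and small tubes, invariant under the element that
defines the tubes, vanishes. -/
def BowStmt : Prop :=
  ∀ (n p : ℕ) [Fact p.Prime] (S : Sp n p) (ν : Measure S.X) [IsFiniteMeasure ν]
    (I : Finset (Fin (n + 3))) (Z : Set S.X) (k : Fin (n + 3) → ℤ) (hk : ∑ i, k i = 0),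
    I.Nonempty → I ≠ Finset.univ →
    (∀ i, k i = if i ∈ I then ((n + 3 : ℕ) : ℤ) - I.card else -(I.card : ℤ)) →
    ν.map (dgp p k hk • ·) = ν → S.Tube ν → MeasurableSet Z → (∀ᵐ x ∂ν, x ∈ Z) →
    (∀ u ∈ UI p I, ∀ x ∈ Z, u • x ∈ Z → u = 1) → ν = 0

/-- The measure classification. -/
def DynStmt : Prop :=
  ∀ (n p : ℕ) [Fact p.Prime] (S : Sp n p) (ν : Measure S.X) [IsProbabilityMeasure ν],
    S.AInv ν → S.Tube ν → ∀ h : HP n p, ν.map (h • ·) = ν

end Pool.Agent.Lib.MP_9177b7_ag.B
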