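import Mathlib
import Pool.Agent.Lib.MP_9177b7_ag.B.StA

/-!
Bowen balls of the diagonal element attached to a proper subset of the index set.
-/

open MeasureTheory ProbabilityTheory Filter Topology Set Matrix
open scoped ENNReal

noncomputable section

namespace Pool.Agent.Lib.MP_9177b7_ag.B

namespace Bow

variable {ι : Type} [Fintype ι] [DecidableEq ι] {p : ℕ} [Fact p.Prime]

/-- The underlying matrix. -/
def vv : SpecialLinearGroup ι ℚ_[p] →* Matrix ι ι ℚ_[p] where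
  toFun h := h.1
  map_one' := rfl
  map_mul' _ _ := rfl

/-- The entries of `h - 1`. -/
def dd (h : SpecialLinearGroup ι ℚ_[p]) (i j : ι) : ℚ_[p] := (vv h - 1) i j

/-- The matrices `h` such that the entries of `h - 1` are bounded by `r`. -/
def GG (p : ℕ) [Fact p.Prime] (r : ι → ι → ℝ) : Set (SpecialLinearGroup ι ℚ_[p]) :=
  {h | ∀ i j, ‖dd h i j‖ ≤ r i j}

theorem cont (i j : ι) : Continuous fun h : SpecialLinearGroup ι ℚ_[p] => dd h i j :=
  (continuous_subtype_val.sub continuous_const).matrix_elem i j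

theorem cpt (r : ι → ι → ℝ) : IsCompact (GG p r) := by
  have := SpecialLinearGroup.isClosedEmbedding_val.isCompact_preimage
    (isCompact_univ_pi fun i => isCompact_univ_pi fun j =>
      isCompact_closedBall ((1 : Matrix ι ι ℚ_[p]) i j) (r i j))
  refine (congrArg IsCompact (Set.ext fun h => ?_)).mp this
  exact ⟨fun a i j => mem_closedBall_iff_norm.1 (a i trivial j trivial),
    fun a i _ j _ => mem_closedBall_iff_norm.2 (a i j)⟩

theorem opn {r : ι → ι → ℝ} (hr : ∀ i j, 0 < r i j) : IsOpen (GG p r) := by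
  simp only [GG, ofPred_forall]
  refine isOpen_iInter_of_finite fun i => isOpen_iInter_of_finite fun j => ?_
  simpa [preimage] using
    (IsUltrametricDist.isOpen_closedBall (0 : ℚ_[p]) (hr i j).ne').preimage (cont i j)

theorem dd_mul (h g : SpecialLinearGroup ι ℚ_[p]) (i j : ι) :
    dd (h * g) i j = dd h i j + dd g i j + ∑ k, dd h i k * dd g k j := by
  have : vv (h * g) - 1 = (vv h - 1) + (vv g - 1) + (vv h - 1) * (vv g - 1) := by
    rw [map_mul]
    noncomm_ring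
  rw [dd, this]
  rfl

theorem dd_div (h g : SpecialLinearGroup ι ℚ_[p]) (i j : ι) :
    dd (h * g⁻¹) i j = (dd h i j - dd g i j) + ∑ k, (dd h i k - dd g i k) * dd g⁻¹ k j := by
  have e : vv g * vv g⁻¹ = 1 := by rw [← map_mul, mul_inv_cancel, map_one]
  have : vv (h * g⁻¹) - 1 =
      ((vv h - 1) - (vv g - 1)) + ((vv h - 1) - (vv g - 1)) * (vv g⁻¹ - 1) := by
    rw [map_mul, sub_sub_sub_cancel_right, mul_sub, sub_mul, e, mul_one]
    abel
  rw [dd, this]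
  rfl

theorem add_le {x y : ℚ_[p]} {r : ℝ} (hx : ‖x‖ ≤ r) (hy : ‖y‖ ≤ r) : ‖x + y‖ ≤ r :=
  (IsUltrametricDist.norm_add_le_max x y).trans (max_le hx hy)

theorem sub_le {x y : ℚ_[p]} {r : ℝ} (hx : ‖x‖ ≤ r) (hy : ‖y‖ ≤ r) : ‖x - y‖ ≤ r := by
  rw [sub_eq_add_neg]
  exact add_le hx (by rwa [norm_neg])

theorem int_le {h : SpecialLinearGroup ι ℚ_[p]} {i j : ι} (e : ‖dd h i j‖ ≤ 1) : ‖h i j‖ ≤ 1 := by
  have : h i j = dd h i j + (1 : Matrix ι ι ℚ_[p]) i j := (sub_add_cancel _ _).symm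
  rw [this]
  refine add_le e ?_
  rw [Matrix.one_apply]
  split_ifs <;> simp

theorem sub_ex {r : ι → ι → ℝ} (h0 : ∀ i j, 0 ≤ r i j) (h1 : ∀ i k j, r i k * r k j ≤ r i j) :
    ∃ B : Subgroup (SpecialLinearGroup ι ℚ_[p]), (B : Set _) = GG p r := by
  have hm : ∀ {h g}, h ∈ GG p r → g ∈ GG p r → h * g ∈ GG p r := fun {h g} a b i j => by
    rw [dd_mul]
    refine add_le (add_le (a i j) (b i j))
      (IsUltrametricDist.norm_sum_le_of_forall_le_of_nonneg (h0 i j) fun k _ => ?_)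
    rw [norm_mul]
    exact (mul_le_mul (a i k) (b k j) (norm_nonneg _) (h0 i k)).trans (h1 i k j)
  have ho : 1 ∈ GG p r := fun i j => by simpa [dd] using h0 i j
  refine ⟨⟨⟨⟨GG p r, hm⟩, ho⟩, fun {h} a => ?_⟩, rfl⟩
  obtain ⟨_, ⟨g, b, rfl⟩, e⟩ := exists_idempotent_in_compact_subsemigroup
    (fun r => continuous_mul_const r) ((h * ·) '' GG p r) ⟨_, 1, ho, rfl⟩
    ((cpt r).image (continuous_const_mul h)) (by
      rintro _ ⟨x, hx, rfl⟩ _ ⟨y, hy, rfl⟩
      exact ⟨x * (h * y), hm hx (hm a hy), (mul_assoc _ _ _).symm⟩)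
  have : h⁻¹ = g := inv_eq_of_mul_eq_one_right (mul_eq_left.1 e)
  rwa [this]

/-- The radii. -/
def rr (I : Finset ι) (s e : ℝ) (i j : ι) : ℝ := if i ∈ I ∧ j ∉ I then s else e

theorem rr_sub (I : Finset ι) {s e : ℝ} (s0 : 0 ≤ s) (s1 : s ≤ 1) (e0 : 0 ≤ e) (e1 : e ≤ 1) :
    ∃ B : Subgroup (SpecialLinearGroup ι ℚ_[p]), (B : Set _) = GG p (rr I s e) := by
  refine sub_ex (fun i j => ?_) fun i k j => ?_
  · rw [rr]
    split_ifs <;> assumption
  · by_cases a : i ∈ I <;> by_cases b : k ∈ I <;> by_cases c : j ∈ I <;>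
      simp only [rr, a, b, c, not_true, not_false_iff, and_true, and_false, if_true, if_false] <;>
      nlinarith

omit [Fintype ι] in
theorem rr_up {I : Finset ι} {s e : ℝ} {i j : ι} (a : i ∈ I ∧ j ∉ I) : rr I s e i j = s := if_pos a

omit [Fintype ι] in
theorem rr_no {I : Finset ι} {s e : ℝ} {i j : ι} (a : ¬ (i ∈ I ∧ j ∉ I)) : rr I s e i j = e :=
  if_neg a

theorem conj {I : Finset ι} {T : SpecialLinearGroup ι ℚ_[p]} {c P : ℚ_[p]} (c0 : c ≠ 0)
    (P0 : P ≠ 0) (hT : vv T = diagonal fun i => if i ∈ I then c * P else c) (l : ℕ)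
    (h : SpecialLinearGroup ι ℚ_[p]) (i j : ι) :
    (i ∈ I → j ∉ I → ‖P‖ ^ l * ‖dd ((T ^ l)⁻¹ * h * T ^ l) i j‖ = ‖dd h i j‖) ∧
    (i ∉ I → j ∈ I → ‖dd ((T ^ l)⁻¹ * h * T ^ l) i j‖ = ‖P‖ ^ l * ‖dd h i j‖) ∧
    ((i ∈ I ↔ j ∈ I) → ‖dd ((T ^ l)⁻¹ * h * T ^ l) i j‖ = ‖dd h i j‖) := by
  have e : vv (T ^ l) * (vv ((T ^ l)⁻¹ * h * T ^ l) - 1) = (vv h - 1) * vv (T ^ l) := by
    rw [mul_sub, sub_mul, ← map_mul, ← map_mul, mul_one, one_mul, mul_assoc, mul_inv_cancel_left]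
  have f : vv (T ^ l) = diagonal fun i => (if i ∈ I then c * P else c) ^ l := by
    rw [map_pow, hT, diagonal_pow]
    rfl
  rw [f] at e
  have g := congrArg norm (congrFun (congrFun e i) j)
  rw [diagonal_mul, mul_diagonal, norm_mul, norm_mul, norm_pow, norm_pow] at g
  change _ * ‖dd _ i j‖ = ‖dd h i j‖ * _ at g
  have c1 : ‖c‖ ^ l ≠ 0 := pow_ne_zero _ (norm_ne_zero_iff.2 c0)
  have P1 : ‖P‖ ^ l ≠ 0 := pow_ne_zero _ (norm_ne_zero_iff.2 P0)
  refine ⟨fun a b => ?_, fun a b => ?_, fun a => ?_⟩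
  · rw [if_pos a, if_neg b, norm_mul, mul_pow] at g
    exact mul_left_cancel₀ c1 (by linear_combination g)
  · rw [if_neg a, if_pos b, norm_mul, mul_pow] at g
    exact mul_left_cancel₀ c1 (by linear_combination g)
  · by_cases b : j ∈ I
    · rw [if_pos (a.2 b), if_pos b, norm_mul, mul_pow] at g
      exact mul_left_cancel₀ (mul_ne_zero c1 P1) (by linear_combination g)
    · rw [if_neg (mt a.1 b), if_neg b] at g
      exact mul_left_cancel₀ c1 (by linear_combination g)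

theorem cls {t : ℝ} (ht : 0 < t) : ∃ (W : ℕ) (ψ : ℚ_[p] → Fin W), ∀ x y, ‖x‖ ≤ 1 → ‖y‖ ≤ 1 →
    ψ x = ψ y → ‖x - y‖ ≤ t := by
  obtain ⟨F, -, hF, hc⟩ := finite_cover_balls_of_compact (isCompact_closedBall (0 : ℚ_[p]) 1) ht
  have h1 : ∀ x : ℚ_[p], ‖x‖ ≤ 1 → ∃ f : F, ‖x - f‖ ≤ t := fun x hx => by
    obtain ⟨f, a, b⟩ := mem_iUnion₂.1 (hc (mem_closedBall_zero_iff.2 hx))
    exact ⟨⟨f, a⟩, (mem_ball_iff_norm.1 b).le⟩
  have h2 : ∀ x : ℚ_[p], ∃ f : F, ‖x‖ ≤ 1 → ‖x - f‖ ≤ t := fun x => by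
    by_cases hx : ‖x‖ ≤ 1
    · exact (h1 x hx).imp fun _ h _ => h
    · exact (h1 0 (by simp)).imp fun _ _ h => absurd h hx
  choose ψ hψ using h2
  have := hF.fintype
  refine ⟨_, Fintype.equivFin F ∘ ψ, fun x y hx hy e => ?_⟩
  have := sub_le (hψ x hx) (hψ y hy)
  rwa [(Fintype.equivFin F).injective e, sub_sub_sub_cancel_right] at this

theorem index (I : Finset ι) {P : ℚ_[p]} (P0 : P ≠ 0) (P1 : ‖P‖ ≤ 1) : ∃ W : ℕ, ∀ (e : ℝ)
    (B : ℕ → Subgroup (SpecialLinearGroup ι ℚ_[p])), e ≤ ‖P‖ →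
    (∀ l, (B l : Set _) = GG p (rr I (‖P‖ ^ l) e)) →
    ∀ l, ∃ s : Finset (SpecialLinearGroup ι ℚ_[p]), s.card ≤ W ∧
      ∀ h ∈ B l, ∃ g ∈ s, h * g⁻¹ ∈ B (l + 1) := by
  classical
  have t0 := norm_pos_iff.2 P0
  obtain ⟨W, ψ, hψ⟩ := cls (p := p) t0
  refine ⟨Fintype.card (ι → ι → Fin W), fun e B he hB l => ?_⟩
  have mem : ∀ l h, h ∈ B l ↔ h ∈ GG p (rr I (‖P‖ ^ l) e) := fun l h => by
    rw [← hB, SetLike.mem_coe]
  let φ : SpecialLinearGroup ι ℚ_[p] → ι → ι → Fin W := fun h i j => ψ (dd h i j / P ^ l)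
  refine ⟨Finset.univ.image (Function.invFunOn φ (B l)), Finset.card_image_le,
    fun h hh => ⟨_, Finset.mem_image_of_mem _ (Finset.mem_univ (φ h)), ?_⟩⟩
  have a : Function.invFunOn φ (B l) (φ h) ∈ B l :=
    Function.invFunOn_apply_mem (f := φ) (s := (B l : Set _)) hh
  have b := Function.invFunOn_apply_eq (f := φ) (s := (B l : Set _)) hh
  generalize Function.invFunOn φ (B l) (φ h) = g at a b
  have c := (mem _ _).1 (mul_mem hh (inv_mem a))
  have d := (mem _ _).1 (inv_mem a)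
  rw [mem] at a hh ⊢
  have tl : 0 < ‖P‖ ^ l := pow_pos t0 l
  have up : ∀ i j, i ∈ I ∧ j ∉ I → ‖dd h i j - dd g i j‖ ≤ ‖P‖ ^ (l + 1) := fun i j u => by
    have n1 : ∀ x, x ∈ GG p (rr I (‖P‖ ^ l) e) → ‖dd x i j / P ^ l‖ ≤ 1 := fun x hx => by
      rw [norm_div, norm_pow, div_le_one tl]
      exact (hx i j).trans_eq (rr_up u)
    have := hψ _ _ (n1 h hh) (n1 g a) (congrFun (congrFun b i) j).symm
    rwa [← sub_div, norm_div, norm_pow, div_le_iff₀ tl, ← pow_succ'] at this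
  intro i j
  by_cases u : i ∈ I ∧ j ∉ I
  · rw [rr_up u, dd_div]
    refine add_le (up i j u) (IsUltrametricDist.norm_sum_le_of_forall_le_of_nonneg
      (by positivity) fun k _ => ?_)
    rw [norm_mul]
    by_cases v : k ∈ I
    · have w : ¬ (i ∈ I ∧ k ∉ I) := fun w => w.2 v
      rw [pow_succ']
      exact mul_le_mul ((sub_le ((hh i k).trans_eq (rr_no w)) ((a i k).trans_eq (rr_no w))).trans
        he) ((d k j).trans_eq (rr_up ⟨v, u.2⟩)) (norm_nonneg _) t0.le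
    · exact (mul_le_of_le_one_right (norm_nonneg _) (((d k j).trans_eq
        (rr_no fun w => v w.1)).trans (he.trans P1))).trans (up i k ⟨u.1, v⟩)
  · exact (c i j).trans_eq ((rr_no u).trans (rr_no u).symm)

end Bow

open Bow

theorem bow : CovStmt → BowStmt := by
  intro hC n p _ S ν _ I Z k hk I0 I1 hI hν ⟨O, hO, C₀, κ, κ0, hTu⟩ mZ aZ sZ
  have p1 : (1 : ℝ) < p := Nat.one_lt_cast.2 (Fact.out : p.Prime).one_lt
  have p0 : (p : ℚ_[p]) ≠ 0 := Nat.cast_ne_zero.2 (Fact.out : p.Prime).ne_zero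
  set T := dgp p k hk with hT'
  obtain ⟨P, hP⟩ : ∃ P, P = (p : ℚ_[p]) ^ (n + 3) := ⟨_, rfl⟩
  have P0 : P ≠ 0 := hP ▸ pow_ne_zero _ p0
  have nP : ‖P‖ = ((p : ℝ) ^ (n + 3))⁻¹ := by rw [hP, norm_pow, Padic.norm_p, inv_pow]
  have t0 := norm_pos_iff.2 P0
  have P1 : ‖P‖ ≤ 1 := nP ▸ inv_le_one_of_one_le₀ (one_le_pow₀ p1.le)
  have hT : vv T = diagonal fun i => if i ∈ I then (p : ℚ_[p]) ^ (-(I.card : ℤ)) * P
      else (p : ℚ_[p]) ^ (-(I.card : ℤ)) := by
    refine congrArg diagonal (funext fun i => ?_)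
    rw [hI]
    split_ifs
    · rw [hP, ← zpow_natCast, ← zpow_add₀ p0, neg_add_eq_sub]
    · rfl
  have cj := conj (zpow_ne_zero _ p0) P0 hT
  obtain ⟨W, hW⟩ := index I P0 P1
  obtain ⟨ρ, hρ⟩ : ∃ ρ : ℝ, ρ = (p : ℝ) ^ (-(κ * (n + 3 : ℕ)) / 2) := ⟨_, rfl⟩
  have ρ0 : 0 < ρ := hρ ▸ Real.rpow_pos_of_pos (by linarith) _
  have ρ1 : ρ < 1 := hρ ▸ Real.rpow_lt_one_of_one_lt_of_neg p1 (by
    have : 0 < κ * (n + 3 : ℕ) := by positivity
    linarith)
  have inv : ∀ (r : ℕ) (A : Set S.X), ν ((T ^ r • ·) ⁻¹' A) = ν A := fun r => by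
    induction r with
    | zero => simp
    | succ r ih =>
      intro A
      refine Eq.trans (congrArg ν (Set.ext fun x => ?_))
        (((Homeomorph.smul T).measurableEmbedding.map_apply ν _).symm.trans
          ((congrFun (congrArg DFunLike.coe hν) _).trans (ih A)))
      change _ ↔ T ^ r • T • x ∈ A
      simp only [mem_preimage, pow_succ, mul_smul]
  refine hC (HP n p) S.C S.X ν T Z W ρ S.opn hν mZ aZ ρ0 ρ1 fun Q cQ QZ => ?_
  let K : ℕ → Set (HP n p) := fun m => GG p (rr I 1 (‖P‖ / (m + 1))) \ GG p (rr I ‖P‖ 1)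
  have cK : ∀ m, IsCompact (K m) := fun m => (cpt _).diff (opn fun i j => by
    rw [rr]
    split_ifs
    exacts [t0, one_pos])
  have le1 : ∀ m : ℕ, ‖P‖ / (m + 1) ≤ ‖P‖ := fun m =>
    div_le_self t0.le (by linarith [Nat.cast_nonneg (α := ℝ) m])
  have h1 : (⋂ m, K m) ×ˢ {1} ⊆ interior {g : HP n p × S.C | ∀ y ∈ Q, g • y ∉ Q} := by
    rintro ⟨u, c⟩ ⟨hu, rfl⟩
    have hu := mem_iInter.1 hu
    have uI : u ∈ UI p I := by
      refine ⟨fun i j => int_le (((hu 0).1 i j).trans ?_), fun i j h => ?_⟩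
      · rw [rr]
        split_ifs
        exacts [le_rfl, (le1 0).trans P1]
      · refine sub_eq_zero.1 (norm_le_zero_iff.1 (ge_of_tendsto'
          (tendsto_const_div_atTop_nhds_zero_nat ‖P‖ |>.comp (tendsto_add_atTop_nat 1)) fun m => ?_))
        exact ((hu m).1 i j).trans_eq ((rr_no h).trans (by simp))
    refine mem_interior_iff_mem_nhds.2 (cQ.eventually_forall_of_forall_eventually
      (P := fun (g : HP n p × S.C) y => g • y ∉ Q) fun y hy => ?_)
    refine (cQ.isClosed.isOpen_compl.preimage continuous_smul).mem_nhds fun h => (hu 0).2 ?_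
    rw [sZ u uI y (QZ hy) (QZ h)]
    intro i j
    have : 0 ≤ rr I ‖P‖ 1 i j := by
      rw [rr]
      split_ifs
      exacts [t0.le, zero_le_one]
    simpa [dd] using this
  obtain ⟨U, V, oU, oV, hU, hV, hUV⟩ := generalized_tube_lemma
    ((cK 0).of_isClosed_subset (isClosed_iInter fun m => (cK m).isClosed) (iInter_subset K 0))
    isCompact_singleton isOpen_interior h1
  obtain ⟨m, hm⟩ := exists_subset_nhds_of_isCompact' (V := K) (U := U)
    (Antitone.directed_ge fun a b hab h hh => ⟨fun i j => (hh.1 i j).trans (by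
      rw [rr, rr]
      split_ifs
      · exact le_rfl
      · gcongr), hh.2⟩) cK (fun m => (cK m).isClosed) fun x hx => oU.mem_nhds (hU hx)
  set e := ‖P‖ / (m + 1) with he
  have e0 : 0 < e := by positivity
  have e1 : e ≤ 1 := (le1 m).trans P1
  choose B hB using fun l : ℕ =>
    rr_sub (p := p) I (pow_nonneg t0.le l) (pow_le_one₀ t0.le P1) e0.le e1
  have mem : ∀ l h, h ∈ B l ↔ h ∈ GG p (rr I (‖P‖ ^ l) e) := fun l h => by
    rw [← hB, SetLike.mem_coe]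
  have act : ∀ (g h : HP n p) (c : S.C) (y : S.X), ((g⁻¹ * h * g, c) : HP n p × S.C) • g⁻¹ • y =
      g⁻¹ • ((h, c) : HP n p × S.C) • y := fun g h c y => by
    simp only [Sp.smul_def, ← mul_smul, Prod.mk_mul_mk, mul_inv_cancel_right, mul_one, one_mul]
  refine ⟨B, O ∩ V, |C₀| / ρ, inter_mem hO (oV.mem_nhds (hV rfl)), ?_, hW e B (le1 m) hB,
    fun l h hh c hc y hy hy' => ?_, fun M y => ?_⟩
  · rw [hB]
    refine opn fun i j => ?_
    rw [rr]
    split_ifs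
    exacts [pow_pos t0 0, e0]
  · rw [mem] at hh ⊢
    have tl : 0 < ‖P‖ ^ l := pow_pos t0 l
    have h2 : (T ^ l)⁻¹ * h * T ^ l ∈ GG p (rr I ‖P‖ 1) := by
      by_contra h3
      refine interior_subset (hUV (mk_mem_prod (hm ⟨fun i j => ?_, h3⟩) hc.2)) _ hy
        ((act _ h c y).symm ▸ hy')
      have a := hh i j
      by_cases u : i ∈ I ∧ j ∉ I
      · rw [rr_up u, ← (cj l h i j).1 u.1 u.2] at a
        rw [rr_up u]
        exact (mul_le_iff_le_one_right tl).1 a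
      · rw [rr_no u] at a ⊢
        by_cases v : i ∈ I ↔ j ∈ I
        · rwa [(cj l h i j).2.2 v]
        · rw [(cj l h i j).2.1 (by tauto) (by tauto)]
          exact (mul_le_of_le_one_left (norm_nonneg _) (pow_le_one₀ t0.le P1)).trans a
    intro i j
    by_cases u : i ∈ I ∧ j ∉ I
    · rw [rr_up u, ← (cj l h i j).1 u.1 u.2, pow_succ]
      exact mul_le_mul_of_nonneg_left ((h2 i j).trans_eq (rr_up u)) tl.le
    · exact (hh i j).trans_eq ((rr_no u).trans (rr_no u).symm)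
  · obtain ⟨r, r1, r2⟩ : ∃ r, r + r ≤ M ∧ M ≤ r + r + 1 := ⟨M / 2, by omega, by omega⟩
    have tr : 0 < ‖P‖ ^ r := pow_pos t0 r
    have tr1 : ‖P‖ ^ r ≤ 1 := pow_le_one₀ t0.le P1
    rw [← inv r]
    refine ((measure_mono ?_).trans (hTu I I0 I1 ((n + 3) * r) ((T ^ r)⁻¹ • y))).trans
      (ENNReal.ofReal_le_ofReal ?_)
    · rintro z ⟨h, hh, c, hc, hz⟩
      rw [mem] at hh
      have h2 : ∀ i j, ¬ (i ∈ I ↔ j ∈ I) → ‖dd ((T ^ r)⁻¹ * h * T ^ r) i j‖ ≤ ‖P‖ ^ r :=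
        fun i j v => by
        have a := hh i j
        by_cases u : i ∈ I ∧ j ∉ I
        · rw [rr_up u, ← (cj r h i j).1 u.1 u.2] at a
          refine le_of_mul_le_mul_left (a.trans ?_) tr
          rw [← pow_add]
          exact pow_le_pow_of_le_one t0.le P1 r1
        · rw [rr_no u] at a
          rw [(cj r h i j).2.1 (by tauto) (by tauto)]
          exact mul_le_of_le_one_right tr.le (a.trans e1)
      refine ⟨(T ^ r)⁻¹ * h * T ^ r, ⟨fun i j => int_le ?_, fun i j v => ?_⟩, c, hc.1, ?_⟩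
      · by_cases v : i ∈ I ↔ j ∈ I
        · rw [(cj r h i j).2.2 v]
          exact ((hh i j).trans_eq (rr_no (by tauto))).trans e1
        · exact (h2 i j v).trans tr1
      · have a := h2 i j v
        rw [dd, Matrix.sub_apply, Matrix.one_apply_ne (fun w => v (by rw [w])), sub_zero, nP,
          inv_pow, ← pow_mul] at a
        exact a
      · rw [act, ← hz, inv_smul_smul]
    · have a : (p : ℝ) ^ (-(κ * ((n + 3) * r : ℕ))) = ρ ^ (r + r) := by
        rw [hρ, ← Real.rpow_natCast, ← Real.rpow_mul (by linarith)]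
        congr 1
        push_cast
        ring
      have b : ρ ^ (r + r + 1) ≤ ρ ^ M := pow_le_pow_of_le_one ρ0.le ρ1.le r2
      rw [a, div_mul_eq_mul_div, le_div_iff₀ ρ0, mul_assoc, ← pow_succ]
      exact mul_le_mul (le_abs_self _) b (by positivity) (abs_nonneg _)

end Pool.Agent.Lib.MP_9177b7_ag.B
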