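import Pool.Agent.Lib.MP_9177b7_ag.B.St

/-!
The class number formula for a CM field and its real subfield; the discriminants.
-/

open NumberField NumberField.Units NumberField.InfinitePlace
open scoped nonZeroDivisors

noncomputable section

namespace Pool.Agent.Lib.MP_9177b7_ag.B

namespace CNF

variable (L : Type) [Field L] [NumberField L] [IsCMField L]

theorem trace_eq (x : L) : algebraMap (maximalRealSubfield L) L
    (Algebra.trace (maximalRealSubfield L) L x) = x + IsCMField.complexConj L x := by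
  classical
  have h : (Finset.univ : Finset (L ≃ₐ[maximalRealSubfield L] L)) =
      {1, IsCMField.complexConj L} := by
    refine (Finset.eq_univ_of_card _ ?_).symm
    rw [Finset.card_pair (IsCMField.complexConj_ne_one L).symm, ← Nat.card_eq_fintype_card,
      IsGalois.card_aut_eq_finrank, Algebra.IsQuadraticExtension.finrank_eq_two]
  rw [trace_eq_sum_automorphisms, h, Finset.sum_pair (IsCMField.complexConj_ne_one L).symm]
  rfl

theorem mem_diff (d : 𝓞 L) (hd : IsCMField.complexConj L d = -d) :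
    2 * d ∈ differentIdeal (𝓞 (maximalRealSubfield L)) (𝓞 L) := by
  have h : algebraMap (𝓞 L) L (2 * d) ∈ ((differentIdeal (𝓞 (maximalRealSubfield L)) (𝓞 L) :
      Ideal (𝓞 L)) : FractionalIdeal (𝓞 L)⁰ L) := by
    rw [coeIdeal_differentIdeal _ (maximalRealSubfield L) L, FractionalIdeal.mem_inv_iff
      (FractionalIdeal.dual_ne_zero _ _ (one_ne_zero' (FractionalIdeal (𝓞 L)⁰ L)))]
    intro t ht
    rw [FractionalIdeal.mem_dual (one_ne_zero' (FractionalIdeal (𝓞 L)⁰ L))] at ht
    obtain ⟨y, hy⟩ := ht 1 (FractionalIdeal.one_mem_one _)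
    obtain ⟨z, hz⟩ := ht _ (FractionalIdeal.coe_mem_one _ d)
    have hy' := congrArg (algebraMap _ L) hy
    have hz' := congrArg (algebraMap _ L) hz
    rw [Algebra.traceForm_apply, trace_eq, ← IsScalarTower.algebraMap_apply,
      IsScalarTower.algebraMap_apply _ (𝓞 L) L] at hy' hz'
    refine (FractionalIdeal.mem_one_iff _).2 ⟨d * algebraMap _ _ y + algebraMap _ _ z, ?_⟩
    have hd' : IsCMField.complexConj L (algebraMap (𝓞 L) L d) = -algebraMap (𝓞 L) L d := hd
    rw [map_add, map_mul, hy', hz', map_mul, map_mul, map_mul, hd', map_one, map_ofNat]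
    ring
  obtain ⟨x, hx, e⟩ := (FractionalIdeal.mem_coeIdeal _).1 h
  rwa [← IsFractionRing.injective (𝓞 L) L e]

omit [IsCMField L] in
theorem tors : torsionOrder (maximalRealSubfield L) ≤ torsionOrder L :=
  Nat.card_le_card_of_injective
    (fun ζ : torsion (maximalRealSubfield L) => (⟨Units.map
      (algebraMap (𝓞 (maximalRealSubfield L)) (𝓞 L)).toMonoidHom ζ.1,
      MonoidHom.isOfFinOrder _ ζ.2⟩ : torsion L))
    fun _ _ e => Subtype.ext (Units.ext
      (FaithfulSMul.algebraMap_injective _ (𝓞 L) (congrArg (fun x : torsion L => x.1.1) e)))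

end CNF

open CNF in
theorem cnf (hF : FrameStmt) : CNFStmt := by
  intro n p _ c
  have hm : c.m0 ≠ 0 := by
    rw [Ctx.m0, Ne, Ideal.absNorm_eq_zero_iff, Ideal.span_singleton_eq_bot]
    exact mul_ne_zero two_ne_zero c.δ_ne
  have hm1 : (1 : ℝ) ≤ (c.m0 : ℝ) ^ (n + 3) :=
    one_le_pow₀ (by exact_mod_cast Nat.one_le_iff_ne_zero.2 hm)
  have hπ : (1 : ℝ) ≤ (2 * Real.pi) ^ (n + 3) := one_le_pow₀ (by linarith [Real.pi_gt_three])
  refine ⟨(c.m0 : ℝ) ^ (n + 3) * (2 * Real.pi) ^ (n + 3), one_le_mul_of_one_le_of_one_le hm1 hπ,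
    fun D => ?_⟩
  obtain ⟨f1, -, -, -, -, -, -, f8, f9, -⟩ := hF n p c D
  have hd := natAbs_discr_eq_absNorm_differentIdeal_mul_natAbs_discr_pow D.F (𝓞 D.F) D.L (𝓞 D.L)
  rw [Algebra.IsQuadraticExtension.finrank_eq_two] at hd
  set M := Ideal.absNorm (differentIdeal (𝓞 D.F) (𝓞 D.L)) with hM
  have hd' : |(discr D.L : ℝ)| = M * |(discr D.F : ℝ)| ^ 2 := by
    have := congrArg (Nat.cast : ℕ → ℝ) hd
    simpa [Nat.cast_natAbs] using this
  have hdvd : M ∣ c.m0 ^ (n + 3) := by
    have h1 := mem_diff D.L (algebraMap (𝓞 c.K) (𝓞 D.L) c.δ) (by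
      change D.bar (algebraMap c.K D.L c.δ) = -algebraMap c.K D.L c.δ
      rw [f1, c.δ_cj, map_neg])
    have h2 := Ideal.absNorm_algebraMap (𝓞 c.K) (𝓞 D.L) (Ideal.span {2 * c.δ})
    rw [← IsFractionRing.finrank_eq (𝓞 c.K) c.K (𝓞 D.L) D.L, D.sp.dim, Ideal.map_span,
      Set.image_singleton, map_mul, map_ofNat] at h2
    rw [Ctx.m0, ← h2]
    exact Ideal.absNorm_dvd_absNorm_of_le ((Ideal.span_singleton_le_iff_mem _).2 h1)
  have hM1 : (1 : ℝ) ≤ M := by
    exact_mod_cast Nat.pos_of_dvd_of_pos hdvd (pow_pos (Nat.pos_of_ne_zero hm) _)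
  have hM2 : (M : ℝ) ≤ (c.m0 : ℝ) ^ (n + 3) := by
    exact_mod_cast Nat.le_of_dvd (pow_pos (Nat.pos_of_ne_zero hm) _) hdvd
  have hF0 : 0 < |(discr D.F : ℝ)| := abs_pos.2 (Int.cast_ne_zero.2 (discr_ne_zero _))
  have h2 : |(discr D.F : ℝ)| ^ 2 ≤ |(discr D.L : ℝ)| := by
    rw [hd']; exact le_mul_of_one_le_left (by positivity) hM1
  refine ⟨?_, h2, ?_⟩
  · have r1 : nrRealPlaces D.F = n + 3 := by rw [← IsTotallyReal.finrank, f8]
    have r2 : nrComplexPlaces D.L = n + 3 := by
      have := IsTotallyComplex.finrank D.L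
      omega
    have r3 : rank D.L ≤ n + 3 := by
      rw [rank, card_eq_nrRealPlaces_add_nrComplexPlaces, r2,
        IsTotallyComplex.nrRealPlaces_eq_zero]
      omega
    have hR : regulator D.L ≤ 2 ^ (n + 3) * regulator D.F := by
      rw [← div_le_iff₀ (regulator_pos _),
        IsCMField.regulator_div_regulator_eq_two_pow_mul_indexRealUnits_inv]
      have : ((IsCMField.indexRealUnits D.L : ℕ) : ℝ)⁻¹ ≤ 1 := by
        rcases IsCMField.indexRealUnits_eq_one_or_two D.L with h | h <;> rw [h] <;> norm_num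
      calc _ ≤ (2 : ℝ) ^ (n + 3) * 1 := by gcongr; norm_num
        _ = _ := mul_one _
    have hw : (torsionOrder D.F : ℝ) ≤ torsionOrder D.L := by exact_mod_cast tors D.L
    have hw0 : (0 : ℝ) < torsionOrder D.F := by exact_mod_cast torsionOrder_pos _
    have hs : 0 < √|(discr D.F : ℝ)| := Real.sqrt_pos.2 hF0
    have hs2 : √|(discr D.F : ℝ)| * √|(discr D.F : ℝ)| ≤ √|(discr D.L : ℝ)| := by
      rw [Real.mul_self_sqrt hF0.le]
      exact Real.le_sqrt_of_sq_le h2
    have hR0 := regulator_pos D.F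
    rw [dedekindZeta_residue_def, dedekindZeta_residue_def, r1, r2,
      IsTotallyComplex.nrRealPlaces_eq_zero, IsTotallyReal.nrComplexPlaces_eq_zero]
    calc _ ≤ classNumber D.F * √|(discr D.F : ℝ)| *
          (2 ^ 0 * (2 * Real.pi) ^ (n + 3) * (2 ^ (n + 3) * regulator D.F) * classNumber D.L /
            (torsionOrder D.F * (√|(discr D.F : ℝ)| * √|(discr D.F : ℝ)|))) := by gcongr
      _ = 1 * (2 * Real.pi) ^ (n + 3) * classNumber D.L *
          (2 ^ (n + 3) * (2 * Real.pi) ^ 0 * regulator D.F * classNumber D.F /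
            (torsionOrder D.F * √|(discr D.F : ℝ)|)) := by field_simp
      _ ≤ _ := by gcongr
  · rw [hd']
    gcongr
    exact hM2.trans (le_mul_of_one_le_right (by positivity) hπ)

end Pool.Agent.Lib.MP_9177b7_ag.B
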