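import Pool.Agent.Lib.MP_9177b7_ag.B.StA

/-!
Existence and uniqueness of conditional measures along the orbits of a compact group.
-/

open MeasureTheory ProbabilityTheory Filter Topology Set
open scoped ENNReal

noncomputable section

namespace Pool.Agent.Lib.MP_9177b7_ag.B

namespace Cond

/-- A right invariant probability measure carried by a compact subgroup. -/
theorem exists_haar {G : Type} [Group G] [TopologicalSpace G] [IsTopologicalGroup G]
    [PolishSpace G] [MeasurableSpace G] [BorelSpace G] (U : Subgroup G)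
    (hU : IsCompact (U : Set G)) :
    ∃ μ : Measure G, IsProbabilityMeasure μ ∧ (∀ᵐ g ∂μ, g ∈ U) ∧
      ∀ u ∈ U, ∀ f : G → ℝ≥0∞, Measurable f → ∫⁻ g, f (g * u) ∂μ = ∫⁻ g, f g ∂μ := by
  have : CompactSpace U := isCompact_iff_compactSpace.1 hU
  let m : Measure U := Measure.haarMeasure ⊤
  have : IsProbabilityMeasure m := ⟨by
    have := Measure.haarMeasure_self (G := U) (K₀ := ⊤)
    simpa using this⟩
  have hm : Measurable fun v : U => (v : G)⁻¹ := measurable_subtype_coe.inv
  refine ⟨m.map fun v : U => (v : G)⁻¹, Measure.isProbabilityMeasure_map hm.aemeasurable, ?_, ?_⟩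
  · exact (ae_map_iff hm.aemeasurable (p := fun g => g ∈ U) hU.isClosed.measurableSet).2
      (Eventually.of_forall fun v => U.inv_mem v.2)
  · intro u hu f hf
    rw [lintegral_map (f := fun g => f (g * u)) (hf.comp (measurable_mul_const u)) hm,
      lintegral_map hf hm,
      ← lintegral_mul_left_eq_self (μ := m) (fun v : U => f (v : G)⁻¹) (⟨u, hu⟩ : U)⁻¹]
    refine lintegral_congr fun v => ?_
    simp

section main

variable {G X : Type} [Group G] [MeasurableSpace G] [MeasurableMul₂ G] [MeasurableInv G]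
  [MeasurableSpace X] [MulAction G X] [MeasurableSMul₂ G X]

omit [MeasurableMul₂ G] [MeasurableInv G] in
theorem meas_act : Measurable fun p : X × G => p.2 • p.1 := measurable_snd.smul measurable_fst

omit [MeasurableMul₂ G] in
theorem meas_pair : Measurable fun p : X × G => (p.2 • p.1, p.2⁻¹) :=
  meas_act.prodMk measurable_snd.inv

omit [MeasurableMul₂ G] [MeasurableInv G] in
theorem lint_act (ν : Measure X) (μ : Measure G) [SFinite μ] {Φ : X → ℝ≥0∞} (hΦ : Measurable Φ) :
    ∫⁻ y, Φ y ∂((ν.prod μ).map fun p : X × G => p.2 • p.1) = ∫⁻ x, ∫⁻ b, Φ (b • x) ∂μ ∂ν :=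
  (lintegral_map hΦ meas_act).trans (lintegral_prod _ (hΦ.comp meas_act).aemeasurable)

omit [MeasurableMul₂ G] in
theorem lint_pair (ν : Measure X) (μ : Measure G) [SFinite μ] {F : X × G → ℝ≥0∞}
    (hF : Measurable F) :
    ∫⁻ q, F q ∂((ν.prod μ).map fun p : X × G => (p.2 • p.1, p.2⁻¹)) =
      ∫⁻ x, ∫⁻ b, F (b • x, b⁻¹) ∂μ ∂ν :=
  (lintegral_map hF meas_pair).trans (lintegral_prod _ (hF.comp meas_pair).aemeasurable)

/-- Every family of conditional measures disintegrates the law of `(c • x, c⁻¹)`. -/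
theorem compProd_eq {ν : Measure X} [IsFiniteMeasure ν] {U : Subgroup G} {μ : Measure G}
    [IsProbabilityMeasure μ] (h1 : ∀ᵐ g ∂μ, g ∈ U)
    (h2 : ∀ u ∈ U, ∀ f : G → ℝ≥0∞, Measurable f → ∫⁻ g, f (g * u) ∂μ = ∫⁻ g, f g ∂μ)
    {κ : Kernel X G} (hκ : IsCond U ν κ) :
    ((ν.prod μ).map fun p : X × G => p.2 • p.1) ⊗ₘ κ =
      (ν.prod μ).map fun p : X × G => (p.2 • p.1, p.2⁻¹) := by
  have := hκ.markov
  refine Measure.ext_of_lintegral _ fun F hF => ?_
  have hΨ : Measurable fun z : X => ∫⁻ c, F (c • z, c⁻¹) ∂μ :=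
    (hF.comp meas_pair).lintegral_prod_right'
  have hΦ : Measurable fun y : X => ∫⁻ d, F (y, d) ∂κ y := hF.lintegral_kernel_prod_right'
  rw [Measure.lintegral_compProd hF, lint_act ν μ hΦ, lint_pair ν μ hF, ← hκ.dis _ hΨ]
  refine lintegral_congr fun x => ?_
  have hG : Measurable fun q : G × G => F (q.1 • x, q.2 * q.1⁻¹) :=
    hF.comp ((measurable_fst.smul_const x).prodMk (measurable_snd.mul measurable_fst.inv))
  calc ∫⁻ b, ∫⁻ d, F (b • x, d) ∂κ (b • x) ∂μ
      = ∫⁻ b, ∫⁻ d, F (b • x, d * b⁻¹) ∂κ x ∂μ := by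
        refine lintegral_congr_ae ?_
        filter_upwards [h1] with b hb
        rw [hκ.equi b hb x]
        exact lintegral_map (hF.comp measurable_prodMk_left) (measurable_mul_const _)
    _ = ∫⁻ d, ∫⁻ b, F (b • x, d * b⁻¹) ∂μ ∂κ x := lintegral_lintegral_swap hG.aemeasurable
    _ = ∫⁻ d, ∫⁻ c, F (c • d • x, c⁻¹) ∂μ ∂κ x := by
        refine lintegral_congr_ae ?_
        have hs : ∀ᵐ d ∂κ x, d ∈ U := hκ.supp x
        filter_upwards [hs] with d hd
        rw [← h2 d hd (fun b => F (b • x, d * b⁻¹)) (hG.comp measurable_prodMk_right)]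
        refine lintegral_congr fun c => ?_
        simp [mul_smul]

theorem uniq [MeasurableSpace.CountablyGenerated G] {ν : Measure X} [IsFiniteMeasure ν]
    {U : Subgroup G} {μ : Measure G} [IsProbabilityMeasure μ] (h1 : ∀ᵐ g ∂μ, g ∈ U)
    (h2 : ∀ u ∈ U, ∀ f : G → ℝ≥0∞, Measurable f → ∫⁻ g, f (g * u) ∂μ = ∫⁻ g, f g ∂μ)
    {κ κ' : Kernel X G} (hκ : IsCond U ν κ) (hκ' : IsCond U ν κ') : ∀ᵐ x ∂ν, κ x = κ' x := by
  have := hκ.markov
  have := hκ'.markov
  have h3 := Kernel.ae_eq_of_compProd_eq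
    ((compProd_eq h1 h2 hκ).trans (compProd_eq h1 h2 hκ').symm)
  have h4 := Measure.ae_ae_of_ae_prod (ae_of_ae_map meas_act.aemeasurable h3)
  filter_upwards [h4] with x hx
  obtain ⟨b, hb, hbU⟩ := (hx.and h1).exists
  have e1 := hκ.equi b⁻¹ (U.inv_mem hbU) (b • x)
  have e2 := hκ'.equi b⁻¹ (U.inv_mem hbU) (b • x)
  rw [inv_smul_smul] at e1 e2
  rw [e1, e2, hb]

theorem ex [StandardBorelSpace G] {ν : Measure X} [IsFiniteMeasure ν]
    {U : Subgroup G} (hU : MeasurableSet (U : Set G)) {μ : Measure G} [IsProbabilityMeasure μ]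
    (h1 : ∀ᵐ g ∂μ, g ∈ U)
    (h2 : ∀ u ∈ U, ∀ f : G → ℝ≥0∞, Measurable f → ∫⁻ g, f (g * u) ∂μ = ∫⁻ g, f g ∂μ) :
    ∃ κ, IsCond U ν κ := by
  classical
  set ρ : Measure (X × G) := (ν.prod μ).map fun p : X × G => (p.2 • p.1, p.2⁻¹) with hρ
  have hfst : ρ.fst = (ν.prod μ).map fun p : X × G => p.2 • p.1 := by
    rw [hρ, Measure.fst, Measure.map_map measurable_fst meas_pair]
    rfl
  have hdis : ρ.fst ⊗ₘ ρ.condKernel = ρ := ρ.disintegrate ρ.condKernel
  have hS : MeasurableSet {y : X | ρ.condKernel y (U : Set G)ᶜ = 0} :=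
    (ρ.condKernel.measurable_coe hU.compl) (measurableSet_singleton 0)
  set lam : Kernel X G := Kernel.piecewise hS ρ.condKernel (Kernel.const X (Measure.dirac 1))
    with hlam
  have hsupp : ∀ y, lam y (U : Set G)ᶜ = 0 := fun y => by
    rw [hlam, Kernel.piecewise_apply]
    split_ifs with h
    · exact h
    · rw [Kernel.const_apply, Measure.dirac_apply' _ hU.compl]
      simp
  have hae : ∀ᵐ y ∂ρ.fst, lam y = ρ.condKernel y := by
    have h3 : ∀ᵐ q ∂ρ, q.2 ∈ U := by
      exact (ae_map_iff meas_pair.aemeasurable (p := fun q : X × G => q.2 ∈ U)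
        (measurable_snd hU)).2
        ((Measure.quasiMeasurePreserving_snd.ae h1).mono fun q hq => U.inv_mem hq)
    rw [← hdis] at h3
    filter_upwards [Measure.ae_ae_of_ae_compProd h3] with y hy
    rw [hlam, Kernel.piecewise_apply, if_pos]
    exact hy
  have hdis' : ρ.fst ⊗ₘ lam = ρ := (Measure.compProd_congr hae).trans hdis
  have hmul : Measurable fun q : G × G => q.2 * q.1 := measurable_snd.mul measurable_fst
  set κ : Kernel X G :=
    (Kernel.const X μ ⊗ₖ lam.comap (fun p : X × G => p.2 • p.1) meas_act).map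
      fun q : G × G => q.2 * q.1 with hκ
  have hint : ∀ (y : X) (f : G → ℝ≥0∞), Measurable f →
      ∫⁻ g, f g ∂κ y = ∫⁻ b, ∫⁻ d, f (d * b) ∂lam (b • y) ∂μ := fun y f hf => by
    rw [hκ, Kernel.lintegral_map _ hmul _ hf]
    exact Kernel.lintegral_compProd _ _ _ (hf.comp hmul)
  refine ⟨κ, Kernel.IsMarkovKernel.map _ hmul, fun y => ?_, fun c hc y => ?_, fun f hf => ?_⟩
  · rw [← lintegral_indicator_one hU.compl, hint y _ (measurable_one.indicator hU.compl)]
    refine (lintegral_congr_ae ?_).trans lintegral_zero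
    filter_upwards [h1] with b hb
    refine (lintegral_congr_ae ?_).trans lintegral_zero
    have hs : ∀ᵐ d ∂lam (b • y), d ∈ U := hsupp _
    filter_upwards [hs] with d hd
    exact indicator_of_notMem (not_not.2 (U.mul_mem hd hb)) _
  · refine Measure.ext_of_lintegral _ fun f hf => ?_
    have hm : Measurable fun b : G => ∫⁻ d, f (d * b * c⁻¹) ∂lam (b • y) :=
      Measurable.lintegral_kernel_prod_right'
        (κ := lam.comap (fun b : G => b • y) (measurable_id.smul_const y))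
        (f := fun q : G × G => f (q.2 * q.1 * c⁻¹)) (hf.comp (hmul.mul_const _))
    rw [lintegral_map hf (measurable_mul_const _), hint _ f hf,
      hint y (fun g => f (g * c⁻¹)) (hf.comp (measurable_mul_const _)), ← h2 c hc _ hm]
    refine lintegral_congr fun b => ?_
    simp [mul_smul, mul_assoc]
  · have hF : Measurable fun q : X × G => f (q.2 • q.1) := hf.comp meas_act
    have hΦ : Measurable fun y : X => ∫⁻ d, f (d • y) ∂lam y := hF.lintegral_kernel_prod_right'
    calc ∫⁻ x, ∫⁻ c, f (c • x) ∂κ x ∂ν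
        = ∫⁻ x, ∫⁻ b, ∫⁻ d, f (d • b • x) ∂lam (b • x) ∂μ ∂ν := by
          refine lintegral_congr fun x => ?_
          rw [hint x (fun c => f (c • x)) (hf.comp (measurable_id.smul_const x))]
          simp only [mul_smul]
      _ = ∫⁻ y, ∫⁻ d, f (d • y) ∂lam y ∂ρ.fst := by
          rw [hfst, lint_act ν μ hΦ]
      _ = ∫⁻ q, f (q.2 • q.1) ∂ρ := by
          rw [← Measure.lintegral_compProd hF, hdis']
      _ = ∫⁻ x, f x ∂ν := by
          rw [hρ, lint_pair ν μ hF]
          simp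

end main

end Cond

theorem cond : CondStmt := by
  intro G X _ _ _ _ _ _ _ _ _ _ _ _ ν _ U hU
  obtain ⟨μ, hμ, h1, h2⟩ := Cond.exists_haar U hU
  exact ⟨Cond.ex hU.isClosed.measurableSet h1 h2, fun κ κ' hκ hκ' => Cond.uniq h1 h2 hκ hκ'⟩

end Pool.Agent.Lib.MP_9177b7_ag.B
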