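import Mathlib
import Pool.Agent.Shared.PrimeZeta
import Pool.Agent.Lib.MP_ca56d1_nt.Theta

/-!
Zeros of Dedekind zeta functions near `1`: statements.
-/

open NumberField Pool.Agent.Shared.PrimeZeta Pool.Agent.Stark

noncomputable section

namespace Pool.Agent.Lib.MP_9177b7_ag.B

/-- Packing bounds for a lattice without short vectors and for its dual. -/
def PackStmt : Prop :=
  ∀ d : ℕ, ∃ C : ℝ, 1 ≤ C ∧ ∀ (ι : Type) [Fintype ι] [DecidableEq ι] (B : Matrix ι ι ℝ)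
    (a : ι → ℝ) (μ : ℝ), Fintype.card ι = d → B.det ≠ 0 → 0 < μ → μ ≤ 1 →
    (∀ k : ι → ℤ, k ≠ 0 → μ ≤ ∑ i, Real.exp (2 * a i) * lpt B k i ^ 2) →
    (∀ τ : ℝ, 0 ≤ τ → ThetaAux.th B (fun i => a i + τ) ≤
      C * μ⁻¹ ^ d * Real.exp (-(μ * Real.exp (2 * τ)))) ∧
    (∑ i, a i = 0 → |B.det| ≤ μ⁻¹ → μ ^ d ≤ C * B.det ^ 2 ∧
      ∀ k : ι → ℤ, k ≠ 0 →
        μ ^ (d + 1) ≤ C * ∑ i, Real.exp (2 * -a i) * lpt (B⁻¹).transpose k i ^ 2)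

/-- Uniform bounds for the Mellin transform of the averaged theta series. -/
def ThetaStmt : Prop :=
  ∀ d : ℕ, 0 < d → ∃ (C : ℝ) (A : ℕ), 1 ≤ C ∧ ∀ (ι κ : Type) [Fintype ι] [DecidableEq ι] (r : ℕ)
    (B : Matrix ι ι ℝ) (pl : ι → κ) (l : Fin r → κ → ℝ) (μ : ℝ), Fintype.card ι = d → B.det ≠ 0 →
    (∀ j, ∑ i, l j (pl i) = 0) → 0 < μ → μ ≤ 1 → |B.det| ≤ μ⁻¹ →
    (∀ (t : Fin r → ℝ) (k : ι → ℤ), k ≠ 0 →
      μ ≤ ∑ i, Real.exp (2 * ∑ j, t j * l j (pl i)) * lpt B k i ^ 2) →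
    (∃ Φ : ℂ → ℂ, Differentiable ℂ Φ ∧ (∀ s : ℂ, ‖s‖ ≤ 4 → ‖Φ s‖ ≤ C * μ⁻¹ ^ A) ∧
      ∀ s : ℂ, 1 < s.re → Φ s = s * (s - 1) *
        ∫ τ : ℝ, (fth B pl l τ : ℂ) * Complex.exp ((Fintype.card ι : ℂ) * s * τ)) ∧
    μ ^ 2 ≤ 2 * d * ‖∫ τ : ℝ, (fth B pl l τ : ℂ) * Complex.exp ((Fintype.card ι : ℂ) * 2 * τ)‖

/-- A polynomial bound for the Dedekind zeta function in a disc containing `1`. -/
def ZetaBdStmt : Prop :=
  ∀ d : ℕ, ∃ (C : ℝ) (A : ℕ), 1 ≤ C ∧ ∀ (M : Type) [Field M] [NumberField M],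
    Module.finrank ℚ M ≤ d → ∃ f : ℂ → ℂ, DifferentiableOn ℂ f (Metric.ball 2 (8 / 5)) ∧
      (∀ s ∈ Metric.ball (2 : ℂ) (8 / 5), ‖f s‖ ≤ C * |(discr M : ℝ)| ^ A) ∧
      ∀ s ∈ Metric.ball (2 : ℂ) (8 / 5), 1 < s.re → f s = (s - 1) * dedekindZeta M s

variable (M : Type) [Field M] [NumberField M]

/-- The logarithm of the discriminant, plus one. -/
def LL : ℝ := Real.log |(discr M : ℝ)| + 1

/-- The function `a ζ (1 + a)` of a real variable `a ≥ 0`. -/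
def Fz (a : ℝ) : ℝ :=
  if a = 0 then dedekindZeta_residue M else a * ∑' q : ℕ, (nI M q : ℝ) * (q : ℝ) ^ (-(1 + a))

/-- The prime zeta function of the primes of degree one. -/
def Pz (a : ℝ) : ℝ := psum (fun q => nI M q) (1 + a)

/-- The contribution of the zeros. -/
def FacStmt : Prop :=
  ∀ d : ℕ, ∃ A : ℝ, 0 < A ∧ ∀ (M : Type) [Field M] [NumberField M], Module.finrank ℚ M ≤ d →
    ∃ (m : ℕ) (z : Fin m → ℂ), (∀ j, (z j).re ≤ 1 ∧ z j ≠ 1) ∧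
      ∀ a b : ℝ, 0 ≤ a → a ≤ b → b ≤ 1 / 4 →
        |Real.log (Fz M b) - Real.log (Fz M a) -
          ∑ j, (Real.log ‖1 + (b : ℂ) - z j‖ - Real.log ‖1 + (a : ℂ) - z j‖)| ≤ A * LL M * (b - a)

/-- At most one zero is close to `1`; it decides the growth of the prime sum. -/
def ZeroStmt : Prop :=
  ∀ d : ℕ, ∃ c B : ℝ, 0 < c ∧ c ≤ 1 ∧ ∀ (M : Type) [Field M] [NumberField M],
    Module.finrank ℚ M ≤ d → ∀ L : ℝ, LL M ≤ L → ∃ ρ : ℝ, 0 < ρ ∧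
      ∀ a b : ℝ, 0 < a → a ≤ b → b ≤ c / L →
        (ρ ≤ a → |Pz M a - Pz M b| ≤ B) ∧
        (b ≤ ρ → |Pz M a - Pz M b - Real.log (b / a)| ≤ B ∧
          Real.log b + Pz M b ≤ Real.log (dedekindZeta_residue M) + B) ∧
        Real.log (dedekindZeta_residue M) ≤ Real.log b + Pz M b + B

/-- The number of conjugates of `φ` in `H`, with multiplicity. -/
def cnt {G : Type} [Group G] (H : Subgroup G) (φ : G) : ℕ := Nat.card {g : G // g⁻¹ * φ * g ∈ H}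

/-- Effective form of the relation between Frobenius elements and primes of degree one. -/
def FrobStmt : Prop :=
  ∀ (E : Type) [Field E] [NumberField E] [IsGalois ℚ E] (Θ : 𝓞 E) (X : ℝ), 1 ≤ X →
    (∀ σ : E ≃ₐ[ℚ] E, σ Θ = Θ → σ = 1) → (∀ φ : E →+* ℂ, ‖φ Θ‖ ≤ X) →
    ∃ Δ : ℕ, Δ ≠ 0 ∧ (Δ : ℝ) ≤ (2 * X) ^ (Module.finrank ℚ E ^ 2) ∧ (discr E).natAbs ≤ Δ ∧
      ∀ q : ℕ, q.Prime → ¬ q ∣ Δ → ∃ φ : E ≃ₐ[ℚ] E, ∀ H : Subgroup (E ≃ₐ[ℚ] E),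
        cnt H φ = Nat.card H * nI (IntermediateField.fixedField H) q

open Classical in
/-- The group theoretic substitute for the argument with Heilbronn characters. -/
def GrpStmt : Prop :=
  ∀ (G X : Type) [Group G] [Finite G] [Fintype X] (G₀ H₀ : Subgroup G) (ρ : G₀ ≃* Equiv.Perm X)
    (x₀ : X) (f : Subgroup G → Prop), 3 ≤ Fintype.card X →
    (∀ g, g ∈ H₀ ↔ ∃ h : g ∈ G₀, ρ ⟨g, h⟩ x₀ = x₀) →
    (∀ s t : Multiset (Subgroup G), s.card + t.card ≤ 4 * Nat.card G →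
      (∀ φ, (s.map fun H => cnt H φ).sum ≤ (t.map fun H => cnt H φ).sum) →
      (s.map fun H => if f H then Nat.card H else 0).sum ≤
        (t.map fun H => if f H then Nat.card H else 0).sum) →
    f G₀ → f H₀

/-- The sum of `c q / q` over the primes `q ≤ x`. -/
def tsumP (c : ℕ → ℝ) (x : ℝ) : ℝ := ∑ q ∈ (Finset.range (⌊x⌋₊ + 1)).filter Nat.Prime, c q / q

/-- Estimates of Mertens type. -/
def MertStmt : Prop :=
  (∀ B c₁ c₂ : ℝ, 0 < c₁ → ∃ C : ℝ, ∀ (c : ℕ → ℝ) (x b : ℝ), (∀ q, q.Prime → |c q| ≤ B) → 2 ≤ x →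
    c₁ ≤ b * Real.log x → b * Real.log x ≤ c₂ → |psum c (1 + b) - tsumP c x| ≤ C) ∧
  ∃ C : ℝ, ∀ x : ℝ, 2 ≤ x → tsumP (fun _ => 1) x ≤ Real.log (Real.log x) + C

end Pool.Agent.Lib.MP_9177b7_ag.B
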