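import Mathlib

/-!
Sieve bounds in boxes of `ℤ ^ d` and reduction of lattices: statements.
-/

noncomputable section

namespace Pool.Agent.Lib.MP_9177b7_ag.B

/-- The box with corner `a` and sides `A`. -/
def boxN {d : ℕ} (a : Fin d → ℤ) (A : Fin d → ℕ) : Finset (Fin d → ℤ) :=
  Fintype.piFinset fun i => Finset.Ico (a i) (a i + A i)

/-- The mean of a function over a full system of residues modulo `M`. -/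
def denN {d : ℕ} (M : ℕ) (h : (Fin d → ℤ) → ℝ) : ℝ :=
  (∑ u ∈ boxN 0 fun _ => M, h u) / (M : ℝ) ^ d

/-- Congruence of points of `ℤ ^ d`. -/
def CgN {d : ℕ} (M : ℕ) (u v : Fin d → ℤ) : Prop := ∀ i, (M : ℤ) ∣ u i - v i

open Classical in
/-- Upper bound sieve in a box. -/
def SieveNStmt : Prop :=
  ∀ (d : ℕ) (κ : ℝ), 0 < d → ∃ δ C : ℝ, 0 < δ ∧ 0 < C ∧ ∀ (y : ℝ) (a : Fin d → ℤ) (A : Fin d → ℕ)
    (P : Finset ℕ) (Ω : ℕ → (Fin d → ℤ) → Prop), 1 ≤ y → (∀ i, y ≤ A i) →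
    (∀ q ∈ P, q.Prime ∧ (q : ℝ) ≤ y ^ δ) →
    (∀ q ∈ P, ∀ u v, CgN q u v → Ω q u → Ω q v) →
    (∀ q ∈ P, denN q (fun u => if Ω q u then 1 else 0) ≤ κ / q) →
    (((boxN a A).filter fun u => ∀ q ∈ P, ¬ Ω q u).card : ℝ) ≤
      C * (∏ i, (A i : ℝ)) * Real.exp (-∑ q ∈ P, denN q fun u => if Ω q u then 1 else 0)

open Classical in
/-- A Shiu type bound in a box.  `Lv q j u` says that the level of `u` at `q` is at least `j`,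
`g q j u` is the weight of a point of exact level `j`. -/
def ShiuNStmt : Prop :=
  ∀ (d : ℕ) (κ E θ : ℝ) (c : ℕ), 0 < d → 1 ≤ κ → 0 < θ → 1 ≤ c →
    ∃ δ₀ ε₀ : ℝ, 0 < δ₀ ∧ 0 < ε₀ ∧ ∀ δ : ℝ, 0 < δ → δ ≤ δ₀ →
    ∃ C : ℝ, ∀ (y : ℝ) (a : Fin d → ℤ) (A : Fin d → ℕ) (P Q : Finset ℕ) (U : Finset (Fin d → ℤ))
      (Lv : ℕ → ℕ → (Fin d → ℤ) → Prop) (g : ℕ → ℕ → (Fin d → ℤ) → ℝ)
      (lev : (Fin d → ℤ) → ℕ → ℕ) (e₁ e₂ : ℕ → ℝ),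
      1 ≤ y → (∀ i, y ≤ A i) → U ⊆ boxN a A → (∀ q ∈ P, q.Prime) → Q ⊆ P →
      (∀ q ∈ Q, (q : ℝ) ≤ y ^ δ) →
      (∀ q ∈ P, ∀ j u, Lv q (j + 1) u → Lv q j u) →
      (∀ q ∈ P, ∀ u v, CgN q u v → Lv q 1 u → Lv q 1 v) →
      (∀ q ∈ P, ∀ j u v, CgN (q ^ (c * j)) u v → Lv q j u → Lv q j v) →
      (∀ q ∈ P, ∀ j u v, CgN (q ^ (c * (j + 1))) u v → g q j u = g q j v) →
      (∀ q ∈ P, ∀ j u, 0 ≤ g q j u) → (∀ q ∈ P, ∀ u, g q 0 u ≤ 1) → (∀ q ∈ P, ∀ u, g q 1 u ≤ κ) →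
      (∀ q ∈ P, denN q (fun u => if Lv q 1 u then 1 else 0) ≤ κ / q) →
      (∀ q ∈ P, ∀ j, 2 ≤ j → denN (q ^ (c * j)) (fun u => if Lv q j u then 1 else 0) ≤
        κ * (q : ℝ) ^ (-1 - θ * j)) →
      (∀ q ∈ P, denN (q ^ (c * 2)) (fun u => if Lv q 1 u ∧ ¬ Lv q 2 u then g q 1 u else 0) ≤ e₁ q) →
      (∀ q ∈ P, e₁ q ≤ κ ^ 2 / q ∧ e₂ q ≤ κ ^ 2 / q) →
      (∀ q ∈ P, ∀ J, ∑ j ∈ Finset.Icc 2 J, denN (q ^ (c * (j + 1)))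
        (fun u => if Lv q j u ∧ ¬ Lv q (j + 1) u then g q j u else 0) ≤ e₂ q) →
      (∀ u ∈ U, ∀ q ∈ P, (lev u q = 0 ∨ Lv q (lev u q) u) ∧ ¬ Lv q (lev u q + 1) u) →
      (∀ u ∈ U, ∀ q ∈ Q, 2 ≤ lev u q) →
      (∀ u ∈ U, ∏ q ∈ P, (q : ℝ) ^ lev u q ≤ y ^ E) →
      (∀ u ∈ U, ∀ q ∈ P, y ^ δ < q → g q (lev u q) u ≤ κ ^ lev u q) →
      (∀ u ∈ U, ∏ q ∈ P, g q (lev u q) u ≤ y ^ ε₀) →
      ∑ u ∈ U, ∏ q ∈ P, g q (lev u q) u ≤ C * (∏ i, (A i : ℝ)) *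
        (Real.exp (∑ q ∈ (P \ Q).filter (fun q : ℕ => (q : ℝ) ≤ y ^ δ),
          (e₁ q + e₂ q - denN q fun u => if Lv q 1 u then 1 else 0)) * ∏ q ∈ Q, e₂ q + y ^ (-ε₀))

/-- Hermite reduction: a lattice has a basis whose orthogonality defect is bounded. -/
def RedStmt : Prop :=
  ∀ d : ℕ, ∃ C : ℝ, 0 < C ∧ ∀ (M : Type) [AddCommGroup M] (b : Module.Basis (Fin d) ℤ M)
    (Q : M →ₗ[ℤ] M →ₗ[ℤ] ℝ), (∀ x y, Q x y = Q y x) → (Matrix.of fun i j => Q (b i) (b j)).PosDef →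
    ∃ b' : Module.Basis (Fin d) ℤ M,
      ∏ i, Q (b' i) (b' i) ≤ C * (Matrix.of fun i j => Q (b i) (b j)).det

end Pool.Agent.Lib.MP_9177b7_ag.B
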