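import Pool.Agent.Lib.MP_9177b7_ag.B.Defs
import Pool.Agent.Lib.MP_9177b7_ag.B.StA
import Pool.Agent.Lib.MP_9177b7_ag.B.StS
import Pool.Agent.Lib.MP_9177b7_ag.B.StE

/-!
The `S`-arithmetic space of the unitary group, hermitian lattices in CM fields, counting:
definitions and statements.
-/

open NumberField Matrix MeasureTheory Filter Topology Pool.Agent.Shared.PrimeZeta
open scoped nonZeroDivisors ComplexConjugate ENNReal BoundedContinuousFunction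

noncomputable section

namespace Pool.Agent.Lib.MP_9177b7_ag.B

/-! ### Embeddings into `ℚ_p` -/

/-- The prime ideal attached to an embedding into `ℚ_p`. -/
def Pp {M : Type} [Field M] {p : ℕ} [Fact p.Prime] (ψ : M →+* ℚ_[p]) : Ideal (𝓞 M) where
  carrier := {x | ‖ψ x‖ < 1}
  zero_mem' := by simp
  add_mem' {x y} hx hy := by
    change ‖ψ ((x + y : 𝓞 M) : M)‖ < 1
    rw [RingOfIntegers.coe_eq_algebraMap, map_add, map_add]
    exact (IsUltrametricDist.norm_add_le_max _ _).trans_lt (max_lt hx hy)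
  smul_mem' c x hx := by
    change ‖ψ ((c * x : 𝓞 M) : M)‖ < 1
    rw [RingOfIntegers.coe_eq_algebraMap, map_mul, map_mul, norm_mul]
    have h : IsIntegral ℤ (ψ (c : M)) := c.isIntegral_coe.map ψ.toIntAlgHom
    have h1 : ‖ψ (c : M)‖ ≤ 1 := by
      obtain ⟨z, hz⟩ := (IsIntegrallyClosed.isIntegral_iff (R := ℤ_[p]) (K := ℚ_[p])).1
        h.tower_top
      rw [← hz]
      exact z.2
    exact mul_lt_one_of_nonneg_of_lt_one_right h1 (norm_nonneg _) hx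

/-- The quotient by the ideal is generated by `1`. -/
def Cyc {R : Type} [CommRing R] (c : Ideal R) : Prop := ∀ x : R, ∃ z : ℤ, x - z ∈ c

/-- Embeddings into `ℚ_p` and primes of degree one. -/
def PadStmt : Prop :=
  ∀ (M : Type) [Field M] [NumberField M] (p : ℕ) [Fact p.Prime],
    (∀ ψ : M →+* ℚ_[p], (∀ x : 𝓞 M, ‖ψ x‖ ≤ 1) ∧ (Pp ψ).IsMaximal ∧ Ideal.absNorm (Pp ψ) = p ∧
      Cyc (Pp ψ) ∧ ∃ v : FractionalIdeal (𝓞 M)⁰ M → ℤ,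
        (∀ a, a ≠ 0 → (∀ x ∈ a, ‖ψ x‖ ≤ (p : ℝ) ^ (-v a)) ∧ ∃ x ∈ a, ‖ψ x‖ = (p : ℝ) ^ (-v a)) ∧
        (∀ a b, a ≠ 0 → b ≠ 0 → v (a * b) = v a + v b) ∧ v (Pp ψ) = 1 ∧
        ∀ ψ' : M →+* ℚ_[p], ψ' ≠ ψ → v (Pp ψ') = 0) ∧
    ∀ (ι : Type) [Fintype ι] (ψ : ι → (M →+* ℚ_[p])), Function.Injective ψ →
      (∀ (b : ι → ℤ) (r : ℕ), ∃ y : 𝓞 M, ∀ i, ‖ψ i y - b i‖ ≤ ((p : ℝ) ^ r)⁻¹) ∧
      (∀ x : M, (∀ y : 𝓞 M, ‖∑ i, ψ i (x * y)‖ ≤ 1) → ∀ i, ‖ψ i x‖ ≤ 1) ∧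
      (Fintype.card ι = Module.finrank ℚ M →
        (∀ x : M, ∑ i, ψ i x = (Algebra.trace ℚ M x : ℚ)) ∧
        ∀ (x : M) (k : ℕ), IsIntegral ℤ ((p : M) ^ k * x) → (∀ i, ‖ψ i x‖ ≤ 1) → IsIntegral ℤ x)

/-- Ideals of prime power norm. -/
def IdcStmt : Prop :=
  ∀ (M : Type) [Field M] [NumberField M] (q i : ℕ), q.Prime →
    nI M (q ^ i) ≤ (i + 1) ^ Module.finrank ℚ M ∧
    ∀ a : Ideal (𝓞 M), q ^ i ∣ Ideal.absNorm a → ∃ (E : Ideal (𝓞 M)) (i' : ℕ), a ≤ E ∧ i ≤ i' ∧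
      i' ≤ i + Module.finrank ℚ M ∧ Ideal.absNorm E = q ^ i'

/-- Every ideal class contains an ideal with cyclic quotient, prime to a given integer. -/
def CycStmt : Prop :=
  ∀ (M : Type) [Field M] [NumberField M] (f : ℕ) (c : ClassGroup (𝓞 M)), f ≠ 0 →
    ∃ b : (Ideal (𝓞 M))⁰, ClassGroup.mk0 b = c ∧ (Ideal.absNorm b.1).Coprime f ∧ Cyc b.1

/-! ### The base field -/

/-- An imaginary quadratic field with an embedding into `ℚ_p`. -/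
structure Ctx (p : ℕ) [Fact p.Prime] where
  K : IntermediateField ℚ ℂ
  [nf : NumberField K]
  dim : Module.finrank ℚ K = 2
  cj : K ≃+* K
  cj_coe : ∀ x, (cj x : ℂ) = conj (x : ℂ)
  δ : 𝓞 K
  δ_ne : δ ≠ 0
  δ_cj : cj δ = -δ
  j : K →+* ℚ_[p]

attribute [instance] Ctx.nf

instance suClosed (n : ℕ) : IsClosed (SU n : Set (SpecialLinearGroup (Fin (n + 3)) ℂ)) :=
  isClosed_eq (f := fun g : SpecialLinearGroup (Fin (n + 3)) ℂ => g.1ᴴ * Jm n ℂ * g.1)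
    (((continuous_subtype_val.matrix_conjTranspose).matrix_mul continuous_const).matrix_mul
      continuous_subtype_val) continuous_const

instance suPolish (n : ℕ) : PolishSpace (SU n) := (suClosed n).polishSpace

instance suLC (n : ℕ) : LocallyCompactSpace (SU n) := (suClosed n).locallyCompactSpace

/-- The group `SL_N(ℚ_p) × SU(J)`. -/
abbrev GG (n p : ℕ) [Fact p.Prime] : Type := HP n p × SU n

/-- Integral matrices. -/
def Intg {n p : ℕ} [Fact p.Prime] (h : HP n p) : Prop := ∀ i j, ‖h i j‖ ≤ 1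

/-- Elementary unipotent matrices of the unitary group. -/
def Ei {n : ℕ} {R : Type} [CommRing R] (a b k : Fin (n + 3)) (w w' z : R) :
    Matrix (Fin (n + 3)) (Fin (n + 3)) R :=
  1 + single k b w - single a k w' + single a b z

/-- Admissible positions for `Ei`. -/
def Pos {n : ℕ} (a b k : Fin (n + 3)) : Prop :=
  (a = 0 ∧ b = 1 ∨ a = 1 ∧ b = 0) ∧ k ≠ 0 ∧ k ≠ 1

/-- The elementary matrices are unitary of determinant one. -/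
def EichStmt : Prop :=
  ∀ (n : ℕ) (R : Type) [CommRing R] (σ : R →+* R) (a b k : Fin (n + 3)) (w z : R), Pos a b k →
    (∀ w', (Ei a b k w w' z).det = 1) ∧ (σ (σ w) = w → z + σ z + w * σ w = 0 →
      ((Ei a b k w (σ w) z).map σ)ᵀ * Jm n R * Ei a b k w (σ w) z = Jm n R) ∧
    ∀ S : Submonoid (Matrix (Fin (n + 3)) (Fin (n + 3)) R),
      (∀ a b k s, Pos a b k → Ei a b k s 0 0 ∈ S ∧ Ei a b k 0 s 0 ∈ S) →
      ∀ i j s, i ≠ j → transvection i j s ∈ S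

/-- The real involution that diagonalises `J`. -/
def Pm (n : ℕ) : Matrix (Fin (n + 3)) (Fin (n + 3)) ℂ :=
  Matrix.of fun i j =>
    if i = 0 ∨ i = 1 then
      (if j = 0 ∨ j = 1 then (if i = 1 ∧ j = 1 then -1 else 1) * ((√2 : ℝ) : ℂ)⁻¹ else 0)
    else if i = j then 1 else 0

namespace Ctx

variable {p : ℕ} [Fact p.Prime] (c : Ctx p) (n : ℕ)

/-- The ring `O_K[1 / p]`. -/
def RK : Subring c.K where
  carrier := {x | ∃ k : ℕ, IsIntegral ℤ ((p : c.K) ^ k * x)}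
  one_mem' := ⟨0, by simpa using isIntegral_one⟩
  zero_mem' := ⟨0, by simpa using isIntegral_zero⟩
  mul_mem' := by
    rintro x y ⟨k, h⟩ ⟨l, h'⟩
    refine ⟨k + l, ?_⟩
    rw [show (p : c.K) ^ (k + l) * (x * y) = p ^ k * x * (p ^ l * y) by ring]
    exact h.mul h'
  add_mem' := by
    rintro x y ⟨k, h⟩ ⟨l, h'⟩
    have hp : IsIntegral ℤ (p : c.K) := by simpa using isIntegral_algebraMap (R := ℤ) (x := (p : ℤ))
    refine ⟨k + l, ?_⟩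
    rw [show (p : c.K) ^ (k + l) * (x + y) = p ^ l * (p ^ k * x) + p ^ k * (p ^ l * y) by ring]
    exact ((hp.pow l).mul h).add ((hp.pow k).mul h')
  neg_mem' := by
    rintro x ⟨k, h⟩
    exact ⟨k, by convert h.neg using 1; ring⟩

/-- Conjugation on the ring of integers. -/
def cjO : 𝓞 c.K ≃+* 𝓞 c.K := RingOfIntegers.mapRingEquiv c.cj

/-- Unitary matrices over `K`. -/
def Uni {n : ℕ} (γ : Matrix (Fin (n + 3)) (Fin (n + 3)) c.K) : Prop :=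
  (γ.map c.cj)ᵀ * Jm n c.K * γ = Jm n c.K

/-- The `p`-arithmetic group `SU(J)(O_K[1 / p])`. -/
def Gp : Subgroup (GG n p) :=
  ((SpecialLinearGroup.map (c.j.comp c.RK.subtype)).prod
    (SpecialLinearGroup.map ((algebraMap c.K ℂ).comp c.RK.subtype))).range.comap
      ((MonoidHom.id (HP n p)).prodMap (SU n).subtype)

/-- The `p`-arithmetic quotient. -/
abbrev XX : Type := GG n p ⧸ c.Gp n

/-- The `p`-arithmetic quotient as an abstract space. -/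
def sp [PolishSpace (c.XX n)] : Sp n p where
  C := SU n
  X := c.XX n
  opn x := by
    obtain ⟨g, rfl⟩ := QuotientGroup.mk_surjective x
    exact QuotientGroup.isOpenMap_coe.comp (isOpenMap_mul_right g)

variable {n}

/-- The `p`-adic coordinates of a vector. -/
def xp (g : GG n p) (v : Fin (n + 3) → c.K) : Fin (n + 3) → ℚ_[p] := g.1.1 *ᵥ fun i => c.j (v i)

/-- The dual `p`-adic coordinates of a vector. -/
def xq (g : GG n p) (v : Fin (n + 3) → c.K) : Fin (n + 3) → ℚ_[p] :=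
  (g.1⁻¹.1)ᵀ *ᵥ Jm n ℚ_[p] *ᵥ fun i => c.j (c.cj (v i))

/-- The square of the euclidean length of a vector. -/
def xr (g : SU n) (v : Fin (n + 3) → c.K) : ℝ := ∑ i, ‖(g.1.1 *ᵥ fun k => (v k : ℂ)) i‖ ^ 2

/-- Lattices with a short vector satisfying a congruence. -/
def Wg (I : Finset (Fin (n + 3))) (c₀ : ℚ_[p]) (k : ℕ) (R : ℝ) : Set (GG n p) :=
  {g | ∃ v : Fin (n + 3) → c.K, v ≠ 0 ∧ (∀ i, v i ∈ c.RK) ∧ (∀ i, ‖c.xp g v i‖ ≤ 1) ∧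
    (∀ i, ‖c.xq g v i‖ ≤ 1) ∧ c.xr g.2 v < R ∧
    ‖∑ i ∈ I, c.xp g v i * c.xq g v i - c₀‖ ≤ ((p : ℝ) ^ k)⁻¹}

/-- The image of `Wg` in the quotient. -/
def WW (I : Finset (Fin (n + 3))) (c₀ : ℚ_[p]) (k : ℕ) (R : ℝ) : Set (c.XX n) :=
  QuotientGroup.mk '' c.Wg I c₀ k R

/-- The modulus of the bad primes. -/
def m0 : ℕ := Ideal.absNorm (Ideal.span {2 * c.δ})

end Ctx

/-- Discreteness and the integral points. -/
def DiscStmt : Prop :=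
  ∀ (n p : ℕ) [Fact p.Prime] (c : Ctx p),
    (∀ x ∈ c.RK, ‖c.j x‖ ≤ 1 → ‖c.j (c.cj x)‖ ≤ 1 → IsIntegral ℤ x) ∧
    (∀ x ∈ c.RK, c.cj x ∈ c.RK) ∧
    (∀ g : GG n p, g ∈ c.Gp n ↔ ∃ γ : Matrix (Fin (n + 3)) (Fin (n + 3)) c.K,
      (∀ i j, γ i j ∈ c.RK) ∧ g.1.1 = γ.map c.j ∧ g.2.1.1 = γ.map (algebraMap c.K ℂ)) ∧
    (∀ γ : Matrix (Fin (n + 3)) (Fin (n + 3)) c.K, (∀ i j, γ i j ∈ c.RK) → c.Uni γ → γ.det = 1 →
      ∃ g ∈ c.Gp n, g.1.1 = γ.map c.j ∧ g.2.1.1 = γ.map (algebraMap c.K ℂ)) ∧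
    (∀ g : SU n, g ∈ G1 n c.K ↔ ∀ i j, g.1 i j ∈ OK c.K) ∧
    (∀ g ∈ c.Gp n, Intg g.1 → g.2 ∈ G1 n c.K) ∧
    (∀ g ∈ G1 n c.K, ∃ h : HP n p, Intg h ∧ (h, g) ∈ c.Gp n) ∧
    DiscreteTopology (c.Gp n) ∧ DiscreteTopology (G1 n c.K)

/-- Strong approximation at `p`. -/
def DensPStmt : Prop :=
  ∀ (n p : ℕ) [Fact p.Prime] (c : Ctx p) (h : HP n p), ∃ γ ∈ c.Gp n, Intg (h * γ.1)

/-- The two opposite unipotent radicals generate `SU(J)`. -/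
def GenUStmt : Prop :=
  ∀ (n : ℕ) (S : Subgroup (SU n)),
    (∀ (a b k : Fin (n + 3)) (w z : ℂ) (g : SU n), Pos a b k → z + conj z + w * conj w = 0 →
      g.1.1 = Ei a b k w (conj w) z → g ∈ S) → S = ⊤

/-- Density at the real place. -/
def DensRStmt : Prop :=
  ∀ (n p : ℕ) [Fact p.Prime] (c : Ctx p),
    Dense {g : GG n p | ∃ h : HP n p, ∃ γ ∈ c.Gp n, g = (h, 1) * γ}

/-- Unimodularity. -/
def UnimodStmt : Prop :=
  ∀ (n p : ℕ) [Fact p.Prime],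
    (∀ (m : Measure (HP n p)) [m.IsHaarMeasure], m.IsMulRightInvariant) ∧
    (∀ (m : Measure (SU n)) [m.IsHaarMeasure], m.IsMulRightInvariant) ∧
    ∀ (m : Measure (GG n p)) [m.IsHaarMeasure], m.IsMulRightInvariant

/-- The projections to the real quotient and to the ball quotient. -/
def ProjStmt : Prop :=
  ∀ (n p : ℕ) [Fact p.Prime] (c : Ctx p),
    (∃ π : c.XX n → YY n c.K, Continuous π ∧
      (∀ g : GG n p, Intg g.1 → π (QuotientGroup.mk g) = QuotientGroup.mk g.2) ∧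
      ∀ (g : SU n) (x : c.XX n), π (((1, g) : GG n p) • x) = g • π x) ∧
    Continuous (proj n c.K) ∧
    ∀ (g : SU n) (v : Cone n) (z : ℂ), v.1 = z • g⁻¹.1.1 *ᵥ v0 n →
      proj n c.K (QuotientGroup.mk g) = Quot.mk _ v

/-- Mahler's compactness criterion and Minkowski's theorem. -/
def MahlerStmt : Prop :=
  ∀ (n p : ℕ) [Fact p.Prime] (c : Ctx p),
    (∀ ε : ℝ, 0 < ε → ∃ Ω : Set (SU n), IsCompact Ω ∧ ∀ g : SU n,
      (∀ v : Fin (n + 3) → c.K, v ≠ 0 → (∀ i, IsIntegral ℤ (v i)) → ε ≤ c.xr g v) →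
      ∃ γ ∈ G1 n c.K, g * γ ∈ Ω) ∧
    ∃ R : ℝ, ∀ g : SU n, ∃ v : Fin (n + 3) → c.K, v ≠ 0 ∧ (∀ i, IsIntegral ℤ (v i)) ∧ c.xr g v ≤ R

/-- Tubes and neighbourhoods of the cusps are covered by the sets `WW`. -/
def TubeStmt : Prop :=
  ∀ (n p : ℕ) [Fact p.Prime] (c : Ctx p),
    (∀ (I : Finset (Fin (n + 3))) c₀ k R, IsOpen (c.WW I c₀ k R) ∧
      ∀ g : GG n p, QuotientGroup.mk g ∈ c.WW I c₀ k R ↔ g ∈ c.Wg I c₀ k R) ∧
    (∃ R : ℝ, ∃ O ∈ 𝓝 (1 : SU n), ∀ (I : Finset (Fin (n + 3))) (k : ℕ) (x : c.XX n),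
      ∃ c₀ : ℚ_[p], {y | ∃ h ∈ KI p I k, ∃ u ∈ O, y = ((h, u) : GG n p) • x} ⊆ c.WW I c₀ k R) ∧
    ∀ ε : ℝ, 0 < ε → ∃ Q : Set (c.XX n), IsCompact Q ∧ ∀ (I : Finset (Fin (n + 3))) (x : c.XX n),
      x ∈ Q ∨ ∃ c₀ ∈ Finset.range (p ^ 2), x ∈ c.WW I (c₀ : ℚ_[p]) 2 ε

/-- Integral unitary matrices act transitively on hyperplanes modulo a split ideal. -/
def TransStmt : Prop :=
  ∀ (n p : ℕ) [Fact p.Prime] (c : Ctx p) (m : Ideal (𝓞 c.K)) (l : Fin (n + 3) → 𝓞 c.K),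
    Cyc m → m ⊔ m.map c.cjO = ⊤ → m ⊔ Ideal.span {2} = ⊤ →
    ∃ γ : Matrix (Fin (n + 3)) (Fin (n + 3)) (𝓞 c.K), c.Uni (γ.map (algebraMap _ c.K)) ∧
      ∀ k, k ≠ 0 → ∑ i, l i * γ i k ∈ m

/-! ### CM data -/

/-- A CM datum together with numberings of the embeddings. -/
structure Dat (n : ℕ) {p : ℕ} [Fact p.Prime] (c : Ctx p) where
  L : Type
  [fL : Field L]
  [nL : NumberField L]
  [cm : IsCMField L]
  [al : Algebra c.K L]
  φ : L →ₐ[c.K] ℂ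
  lam : L
  a : FractionalIdeal (𝓞 L)⁰ L
  sp : Special n c.K p φ lam a
  ψ : Fin (n + 3) → (L →+* ℚ_[p])
  ψ_inj : Function.Injective ψ
  ψ_j : ∀ i x, ψ i (algebraMap c.K L x) = c.j x
  Φ : Fin (n + 3) ≃ (L →ₐ[c.K] ℂ)
  Φ_one : Φ 1 = φ

attribute [instance] Dat.fL Dat.nL Dat.cm Dat.al

namespace Dat

variable {n p : ℕ} [Fact p.Prime] {c : Ctx p} (D : Dat n c)

/-- The maximal real subfield. -/
abbrev F : Type := maximalRealSubfield D.L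

/-- Fractional ideals of `L`. -/
abbrev FI : Type := FractionalIdeal (𝓞 D.L)⁰ D.L

/-- Complex conjugation. -/
abbrev bar (x : D.L) : D.L := IsCMField.complexConj D.L x

/-- The conjugate of an ideal. -/
abbrev cI (b : Ideal (𝓞 D.L)) : Ideal (𝓞 D.L) := b.map (IsCMField.ringOfIntegersComplexConj D.L)

/-- Conjugation of fractional ideals. -/
def cF : D.FI ≃+* D.FI :=
  FractionalIdeal.ringEquivOfRingEquiv D.L D.L
    (IsCMField.ringOfIntegersComplexConj D.L).toRingEquiv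

/-- The inverse of the relative different of `L / K`. -/
def Ad : D.FI := FractionalIdeal.dual (𝓞 c.K) c.K (1 : D.FI)

/-- Frames for the form of the datum. -/
abbrev Fr (a : D.FI) (e : Fin (n + 3) → D.L) : Prop := Frame n c.K D.lam a e

/-- The twisted lattice `b b̄⁻¹ a`. -/
abbrev tw (b : Ideal (𝓞 D.L)) : D.FI := b * ((D.cI b : Ideal (𝓞 D.L)) : D.FI)⁻¹ * D.a

/-- The ideal classes whose twist is isometric to the standard lattice. -/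
def Cl : Type :=
  {x : ClassGroup (𝓞 D.L) // ∃ b : (Ideal (𝓞 D.L))⁰, ClassGroup.mk0 b = x ∧ ∃ e, D.Fr (D.tw b) e}

instance : Fintype D.Cl := by
  classical
  exact Subtype.fintype _

/-- The classes of ideals fixed by conjugation. -/
def Amb : Subgroup (ClassGroup (𝓞 D.L)) where
  carrier := {x | ∃ g : (Ideal (𝓞 D.L))⁰, ClassGroup.mk0 g = x ∧ D.cI g = g}
  one_mem' := ⟨1, map_one _, by simp [cI, Ideal.map_top]⟩
  mul_mem' := by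
    rintro _ _ ⟨g, rfl, hg⟩ ⟨h, rfl, hh⟩
    exact ⟨g * h, map_mul _ _ _, by
      rw [Submonoid.coe_mul, cI, Ideal.map_mul]; exact congrArg₂ _ hg hh⟩
  inv_mem' := by
    rintro _ ⟨g, rfl, hg⟩
    refine ⟨g ^ (orderOf (ClassGroup.mk0 g) - 1), ?_, ?_⟩
    · rw [map_pow, eq_inv_iff_mul_eq_one, ← pow_succ,
        Nat.sub_add_cancel (orderOf_pos _), pow_orderOf_eq_one]
    · rw [SubmonoidClass.coe_pow, cI, Ideal.map_pow]; exact congrArg (· ^ _) hg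

/-- A choice of an ideal and of a frame in every class. -/
structure Sys where
  b : D.Cl → (Ideal (𝓞 D.L))⁰
  e : D.Cl → Fin (n + 3) → D.L
  hb : ∀ x, ClassGroup.mk0 (b x) = x.1
  he : ∀ x, D.Fr (D.tw (b x)) (e x)

/-- The matrix of the `p`-adic embeddings of a frame. -/
def Ψm (e : Fin (n + 3) → D.L) : Matrix (Fin (n + 3)) (Fin (n + 3)) ℚ_[p] :=
  Matrix.of fun i k => D.ψ i (e k)

/-- The matrix of the complex embeddings of a frame. -/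
def Φm (e : Fin (n + 3) → D.L) : Matrix (Fin (n + 3)) (Fin (n + 3)) ℂ :=
  Matrix.of fun i k => D.Φ i (e k)

/-- The dual frame. -/
def du (e : Fin (n + 3) → D.L) (i : Fin (n + 3)) : D.L := D.lam * D.bar (e (Equiv.swap 0 1 i))

/-- `g` is a lift of the frame `e` to the `p`-arithmetic group. -/
def IsLift (e : Fin (n + 3) → D.L) (g : GG n p) : Prop :=
  Intg g.1 ∧ ∃ (t : Fin (n + 3) → ℚ_[p]) (t' : Fin (n + 3) → ℂ), g.1.1 = diagonal t * D.Ψm e ∧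
    g.2.1.1 = Pm n * diagonal t' * D.Φm e ∧ ∀ i, ‖t' i‖ ^ 2 = ‖D.Φ i D.lam‖

/-- The lattice `a'` has a short vector satisfying a congruence. -/
def Ev (a' : D.FI) (I : Finset (Fin (n + 3))) (c₀ : ℚ_[p]) (k : ℕ) (s : ℝ) : Prop :=
  ∃ ξ ∈ a', ξ ≠ 0 ∧ (∀ i, ‖D.Φ i (D.lam * ξ * D.bar ξ)‖ < s) ∧
    ‖∑ i ∈ I, D.ψ i (D.lam * ξ * D.bar ξ) - c₀‖ ≤ ((p : ℝ) ^ k)⁻¹

open Classical in
/-- The proportion of classes with a given property. -/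
def pr (P : D.Cl → Prop) : ℝ := ((Finset.univ.filter P).card : ℝ) / Fintype.card D.Cl

/-- The number of ideals `g` with `g ḡ = τ 𝔡_{L/K}`. -/
def rr (τ : D.F) : ℕ :=
  Nat.card {g : Ideal (𝓞 D.L) //
    ((g * D.cI g : Ideal (𝓞 D.L)) : D.FI) * D.Ad = FractionalIdeal.spanSingleton _ (τ : D.L)}

end Dat

/-- The compact torus. -/
def M0 (n p : ℕ) [Fact p.Prime] : Set (GG n p) :=
  {g | Intg g.1 ∧ (∀ i j, i ≠ j → g.1 i j = 0) ∧ ∀ i j, i ≠ j → (Pm n * g.2.1.1 * Pm n) i j = 0}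

/-- Linear algebra of frames. -/
def FrameStmt : Prop :=
  ∀ (n p : ℕ) [Fact p.Prime] (c : Ctx p) (D : Dat n c),
    (∀ x : c.K, D.bar (algebraMap c.K D.L x) = algebraMap c.K D.L (c.cj x)) ∧
    (∀ x : D.L, Algebra.trace c.K D.L (D.bar x) = c.cj (Algebra.trace c.K D.L x)) ∧
    (∀ x : D.L, c.j (Algebra.trace c.K D.L x) = ∑ i, D.ψ i x) ∧
    (∀ x : D.L, (Algebra.trace c.K D.L x : ℂ) = ∑ i, D.Φ i x) ∧
    (∀ τ : D.F, Algebra.trace c.K D.L τ = (Algebra.trace ℚ D.F τ : ℚ)) ∧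
    (Function.Injective fun i => (D.ψ i).comp (algebraMap D.F D.L)) ∧
    (∀ i l, ∃ x, D.ψ i (D.bar x) ≠ D.ψ l x) ∧
    Module.finrank ℚ D.F = n + 3 ∧ Module.finrank ℚ D.L = 2 * (n + 3) ∧
    (∀ x : D.L, ∃ y z : D.F, x = y + algebraMap c.K D.L c.δ * z) ∧
    (∀ (a : D.FI) (x : D.L), x ∈ D.cF a ↔ D.bar x ∈ a) ∧
    (∀ b : Ideal (𝓞 D.L), D.cF b = (D.cI b : Ideal (𝓞 D.L))) ∧
    (∀ x : D.L, D.cF (FractionalIdeal.spanSingleton _ x) =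
      FractionalIdeal.spanSingleton _ (D.bar x)) ∧
    (∀ a : D.FI, D.cF (D.cF a) = a) ∧ D.cF D.Ad = D.Ad ∧ D.lam ≠ 0 ∧
    (∀ i, (D.Φ i D.lam).im = 0 ∧ (i ≠ 1 → 0 < (D.Φ i D.lam).re)) ∧
    (∀ (a : D.FI) (e : Fin (n + 3) → D.L),
      (∀ i j, Algebra.trace c.K D.L (D.lam * e i * D.bar (e j)) = Jm n c.K i j) → (∀ i, e i ∈ a) →
      FractionalIdeal.spanSingleton _ D.lam * a * D.cF a ≤ D.Ad → D.Fr a e) ∧
    ∀ (a : D.FI) (e : Fin (n + 3) → D.L), D.Fr a e →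
      a ≠ 0 ∧ (∀ i, e i ∈ a) ∧
      (∀ x : D.L, x = ∑ i, algebraMap c.K D.L (Algebra.trace c.K D.L (x * D.du e i)) * e i) ∧
      (∀ i k, Algebra.trace c.K D.L (e k * D.du e i) = if i = k then 1 else 0) ∧
      FractionalIdeal.spanSingleton _ D.lam * a * D.cF a = D.Ad ∧
      (D.Ψm (D.du e))ᵀ * D.Ψm e = 1 ∧ (D.Φm (D.du e))ᵀ * D.Φm e = 1 ∧
      (∃ v : Cone n, ∀ i, v.1 i = conj (D.φ (e (Equiv.swap 0 1 i)))) ∧
      (∀ u : D.L, u * D.bar u = 1 →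
        D.Fr (FractionalIdeal.spanSingleton _ u * a) fun i => u * e i) ∧
      (∀ γ : Matrix (Fin (n + 3)) (Fin (n + 3)) c.K, c.Uni γ → (∀ i k, IsIntegral ℤ (γ i k)) →
        D.Fr a fun k => ∑ i, algebraMap c.K D.L (γ i k) * e i) ∧
      ∀ (a' : D.FI) (e' : Fin (n + 3) → D.L), D.Fr a' e' →
        c.Uni (Matrix.of fun i k => Algebra.trace c.K D.L (e' k * D.du e i))

/-- Classes of ideals fixed by conjugation. -/
def AmbStmt : Prop :=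
  ∀ (n p : ℕ) [Fact p.Prime] (c : Ctx p), ∃ C : ℕ, ∀ D : Dat n c,
    (∀ b b' : (Ideal (𝓞 D.L))⁰, (∃ u : D.L, u * D.bar u = 1 ∧
        D.tw b' = FractionalIdeal.spanSingleton _ u * D.tw b) ↔
      (ClassGroup.mk0 b)⁻¹ * ClassGroup.mk0 b' ∈ D.Amb) ∧
    Nat.card D.Amb ≤ C * classNumber D.F

/-- The mean over the orbit is the mean over the classes. -/
def OrbStmt : Prop :=
  ∀ (n p : ℕ) [Fact p.Prime] (c : Ctx p) (D : Dat n c) (S : D.Sys) (v : D.Cl → Cone n),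
    (∀ x i, (v x).1 i = conj (D.φ (S.e x (Equiv.swap 0 1 i)))) →
    (orbit n c.K D.φ D.lam D.a).Finite ∧ Nonempty D.Cl ∧ ∀ f : SS n c.K → ℝ,
      mean (orbit n c.K D.φ D.lam D.a) f = (∑ x, f (Quot.mk _ (v x))) / Fintype.card D.Cl

/-- Neighbouring lattices. -/
def NbrStmt : Prop :=
  ∀ (n p : ℕ) [Fact p.Prime] (c : Ctx p) (D : Dat n c) (a : D.FI) (e : Fin (n + 3) → D.L)
    (b : Ideal (𝓞 D.L)), D.Fr a e → b ≠ ⊥ → Cyc b → (Ideal.absNorm b).Coprime c.m0 →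
    (b.comap (algebraMap (𝓞 c.K) (𝓞 D.L))).IsPrincipal →
    ∃ e', D.Fr (b * ((D.cI b : Ideal (𝓞 D.L)) : D.FI)⁻¹ * a) e'

/-- The set of classes is large and stable under the primes above `p`. -/
def IsoStmt : Prop :=
  ∀ (n p : ℕ) [Fact p.Prime] (c : Ctx p) (D : Dat n c),
    classNumber D.L ≤ classNumber c.K * Fintype.card D.Cl ∧
    ∀ (P P' : (Ideal (𝓞 D.L))⁰), Cyc P.1 → Cyc P'.1 →
      P.1.comap (algebraMap (𝓞 c.K) (𝓞 D.L)) = P'.1.comap (algebraMap (𝓞 c.K) (𝓞 D.L)) →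
      ∀ x : D.Cl, ∃ y : D.Cl, y.1 = x.1 * ClassGroup.mk0 P * (ClassGroup.mk0 P')⁻¹

/-- Lifts of frames. -/
def LiftStmt : Prop :=
  ∀ (n p : ℕ) [Fact p.Prime],
    (∃ M : Subgroup (GG n p), (M : Set (GG n p)) = M0 n p ∧ IsCompact (M0 n p) ∧
      ∀ m ∈ M0 n p, ∀ k hk, m * (dgp p k hk, 1) = (dgp p k hk, 1) * m) ∧
    ∀ (c : Ctx p) (D : Dat n c) (a : D.FI) (e : Fin (n + 3) → D.L), D.Fr a e →
      (∃ g, D.IsLift e g) ∧ ∀ g, D.IsLift e g →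
        (∀ m ∈ M0 n p, D.IsLift e (m * g)) ∧
        (∃ z : ℂ, (fun i => conj (D.φ (e (Equiv.swap 0 1 i)))) = z • g.2⁻¹.1.1 *ᵥ v0 n) ∧
        ∀ I c₀ k R, g ∈ c.Wg I c₀ k R → D.Ev a I c₀ k R

/-- The frame with one vector multiplied by a root of unity of `K`. -/
def Dat.rot {n p : ℕ} [Fact p.Prime] {c : Ctx p} (D : Dat n c) (e : Fin (n + 3) → D.L)
    (ζ : Units.torsion c.K) : Fin (n + 3) → D.L :=
  Function.update e 2 (algebraMap c.K D.L ((ζ.1 : 𝓞 c.K) : c.K) * e 2)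

/-- The quotient of two primes above `p`. -/
def Dat.quo {n p : ℕ} [Fact p.Prime] {c : Ctx p} (D : Dat n c) (l i : Fin (n + 3)) : D.FI :=
  ((Pp (D.ψ l) : Ideal (𝓞 D.L)) : D.FI) * ((Pp (D.ψ i) : Ideal (𝓞 D.L)) : D.FI)⁻¹

/-- Moving a frame by a quotient of two primes above `p`. -/
def MoveStmt : Prop :=
  ∀ (n p : ℕ) [Fact p.Prime] (c : Ctx p) (D : Dat n c),
    (∀ a e ζ, D.Fr a e → D.Fr a (D.rot e ζ)) ∧ ∀ (i l : Fin (n + 3)) (a : D.FI)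
    (e e' : Fin (n + 3) → D.L) (u : D.L) (k : Fin (n + 3) → ℤ) (hk : ∑ r, k r = 0), i ≠ l →
    k = Pi.single i 1 - Pi.single l 1 → u * D.bar u = 1 → D.Fr a e →
    D.Fr (FractionalIdeal.spanSingleton _ u * D.quo l i * (D.cF (D.quo l i))⁻¹ * a) e' →
    ∃ η : Units.torsion c.K, ∀ (ζ : Units.torsion c.K) (g g' : GG n p),
      D.IsLift (D.rot e ζ) g → D.IsLift (D.rot e' (ζ * η)) g' →
      ∃ m ∈ M0 n p, ∃ γ ∈ c.Gp n, (dgp p k hk, 1) * g = m * g' * γ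

/-- The measure attached to a datum. -/
def MeasStmt : Prop :=
  ∀ (n p : ℕ) [Fact p.Prime] (c : Ctx p) [PolishSpace (c.XX n)] (π : c.XX n → YY n c.K),
    Continuous π → (∀ g : GG n p, Intg g.1 → π (QuotientGroup.mk g) = QuotientGroup.mk g.2) →
    ∀ (D : Dat n c) (S : D.Sys), ∃ ν : Measure (c.XX n), IsProbabilityMeasure ν ∧
      (c.sp n).AInv ν ∧ (orbit n c.K D.φ D.lam D.a).Finite ∧
      (∀ f : SS n c.K →ᵇ ℝ,
        mean (orbit n c.K D.φ D.lam D.a) f = ∫ x, f (proj n c.K (π x)) ∂ν) ∧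
      ∀ I c₀ k R, ν (c.WW I c₀ k R) ≤
        ENNReal.ofReal (D.pr fun x => D.Ev (D.tw (S.b x)) I c₀ k R)

/-! ### Counting -/

section count

variable {F : Type} [Field F] [NumberField F]

/-- The ideal `τ 𝔡_F`, for `τ` in the inverse different. -/
def nId (τ : F) : Ideal (𝓞 F) :=
  Submodule.comap (Algebra.linearMap (𝓞 F) F)
    ((FractionalIdeal.spanSingleton (𝓞 F)⁰ τ *
      (FractionalIdeal.dual ℤ ℚ (1 : FractionalIdeal (𝓞 F)⁰ F))⁻¹ : FractionalIdeal (𝓞 F)⁰ F) :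
        Submodule (𝓞 F) F)

/-- The norm of `τ 𝔡_F`. -/
def NN (τ : F) : ℕ := Ideal.absNorm (nId τ)

/-- An integral basis starting with `1`, and its dual basis. -/
structure Bas (F : Type) [Field F] [NumberField F] (d : ℕ) where
  ω : Module.Basis (Fin (d + 1)) ℤ (𝓞 F)
  u : Fin (d + 1) → F
  one : ω 0 = 1
  dual : ∀ a b, Algebra.trace ℚ F (u a * ω b) = if a = b then 1 else 0

/-- The element of the inverse different with trace `m` and further coordinates `t`. -/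
def Bas.tau {d : ℕ} (B : Bas F d) (m : ℤ) (t : Fin d → ℤ) : F :=
  m * B.u 0 + ∑ a, t a * B.u a.succ

/-- The number of ideals of norm `q` of `L` that divide `τ 𝔡_F`. -/
def n1 (L : Type) [Field L] [NumberField L] [Algebra F L] (q : ℕ) (τ : F) : ℕ :=
  Nat.card {Q : Ideal (𝓞 L) // Ideal.absNorm Q = q ∧ nId τ ≤ Q.comap (algebraMap (𝓞 F) (𝓞 L))}

/-- The local weights. -/
def wt (L : Type) [Field L] [NumberField L] [Algebra F L] (bad e q j : ℕ) (τ : F) : ℝ :=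
  if j = 1 ∧ ¬ q ∣ bad then n1 L q τ else ((j : ℝ) + 1) ^ e

/-- The product of the local weights. -/
def wtP (L : Type) [Field L] [NumberField L] [Algebra F L] (bad e : ℕ) (τ : F) : ℝ :=
  ∏ q ∈ (NN τ).primeFactors, wt L bad e q ((NN τ).factorization q) τ

end count

open Classical in
/-- Densities of divisibility conditions on a slice of the inverse different. -/
def DenStmt : Prop :=
  ∀ (F : Type) [Field F] [NumberField F] (d : ℕ) (B : Bas F d),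
    (∀ τ : F, τ ∈ FractionalIdeal.dual ℤ ℚ (1 : FractionalIdeal (𝓞 F)⁰ F) ↔
      ∃ m t, τ = B.tau m t) ∧
    (∀ m t, Algebra.trace ℚ F (B.tau m t) = m ∧
      (∀ a, Algebra.trace ℚ F (B.tau m t * B.ω a.succ) = t a) ∧
      (NN (B.tau m t) : ℚ) = |Algebra.norm ℚ (B.tau m t)| * |discr F|) ∧
    (∀ (q j : ℕ) m t t', q.Prime → CgN (q ^ j) t t' → q ^ j ∣ NN (B.tau m t) →
      q ^ j ∣ NN (B.tau m t')) ∧
    ∀ (E : Ideal (𝓞 F)) (M : ℕ), 0 < M → (M : 𝓞 F) ∈ E →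
      (∀ m t t', CgN M t t' → nId (B.tau m t) ≤ E → nId (B.tau m t') ≤ E) ∧
      ∃ e : ℕ, 0 < e ∧ E ≤ Ideal.span {(e : 𝓞 F)} ∧ ∀ m,
        denN M (fun t => if nId (B.tau m t) ≤ E then 1 else 0) ≤ e / Ideal.absNorm E ∧
        (e = 1 → denN M (fun t => if nId (B.tau m t) ≤ E then 1 else 0) = 1 / Ideal.absNorm E)

open Classical in
/-- Densities of the levels. -/
def LvStmt : Prop :=
  ∀ d : ℕ, 2 ≤ d → ∃ κ : ℝ, 1 ≤ κ ∧ ∀ (F : Type) [Field F] [NumberField F] (B : Bas F d) (m : ℤ)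
    (q : ℕ), q.Prime →
    denN q (fun t => if q ∣ NN (B.tau m t) then 1 else 0) ≤ κ / q ∧
    (nI F q : ℝ) / q - κ / q ^ 2 ≤ denN q (fun t => if q ∣ NN (B.tau m t) then 1 else 0) ∧
    (∀ j : ℕ, denN (q ^ j) (fun t => if q ^ j ∣ NN (B.tau m t) then 1 else 0) ≤
      κ * (q : ℝ) ^ (-(j : ℝ) / 4) ∧
      (2 ≤ j → denN (q ^ j) (fun t => if q ^ j ∣ NN (B.tau m t) then 1 else 0) ≤
        κ * (q : ℝ) ^ (-1 - (j : ℝ) / 4))) ∧
    ∀ (L : Type) [Field L] [NumberField L] [Algebra F L],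
      (∀ t t', CgN q t t' → n1 L q (B.tau m t) = n1 L q (B.tau m t')) ∧
      (∀ τ : F, n1 L q τ ≤ Module.finrank ℚ L) ∧
      denN q (fun t => n1 L q (B.tau m t)) ≤ (nI L q : ℝ) / q

open Classical in
/-- The density of the congruence at `p`. -/
def PLvStmt : Prop :=
  ∀ (F : Type) [Field F] [NumberField F] (d p : ℕ) [Fact p.Prime] (B : Bas F d)
    (ψ : Fin (d + 1) → (F →+* ℚ_[p])) (I : Finset (Fin (d + 1))) (c₀ : ℚ_[p]) (m : ℤ) (j : ℕ),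
    Function.Injective ψ → I.Nonempty → I ≠ Finset.univ →
    (∀ t t', CgN (p ^ j) t t' → ‖∑ i ∈ I, ψ i (B.tau m t) - c₀‖ ≤ ((p : ℝ) ^ j)⁻¹ →
      ‖∑ i ∈ I, ψ i (B.tau m t') - c₀‖ ≤ ((p : ℝ) ^ j)⁻¹) ∧
    denN (p ^ j) (fun t => if ‖∑ i ∈ I, ψ i (B.tau m t) - c₀‖ ≤ ((p : ℝ) ^ j)⁻¹ then 1 else 0) ≤
      ((p : ℝ) ^ j)⁻¹

/-- The sieve bound on one slice. -/
def SliceStmt : Prop :=
  ∀ (d p bad e : ℕ) [Fact p.Prime] (E : ℝ), 2 ≤ d → bad ≠ 0 → p ∣ bad → 1 ≤ e →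
    ∃ δ ε C : ℝ, 0 < δ ∧ δ ≤ 1 ∧ 0 < ε ∧ 0 < C ∧ ∀ k : ℕ, 2 ≤ k → ∃ y₀ : ℝ, ∀ y : ℝ, y₀ ≤ y →
      ∀ (F L : Type) [Field F] [NumberField F] [Field L] [NumberField L] [Algebra F L]
        (B : Bas F d) (ψ : Fin (d + 1) → (F →+* ℚ_[p])) (I : Finset (Fin (d + 1))) (c₀ : ℚ_[p])
        (m : ℤ) (a : Fin d → ℤ) (A : Fin d → ℕ) (U : Finset (Fin d → ℤ)),
        Module.finrank ℚ L ≤ e → Function.Injective ψ → I.Nonempty → I ≠ Finset.univ →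
        (∀ i, y ≤ A i) → U ⊆ boxN a A →
        (∀ t ∈ U, NN (B.tau m t) ≠ 0 ∧ (NN (B.tau m t) : ℝ) ≤ y ^ E ∧
          ‖∑ i ∈ I, ψ i (B.tau m t) - c₀‖ ≤ ((p : ℝ) ^ k)⁻¹) →
        ∑ t ∈ U, wtP L bad e (B.tau m t) ≤ C * (∏ i, (A i : ℝ)) *
          (Real.exp (tsumP (fun q => (nI L q : ℝ) - nI F q) (y ^ δ)) * (p : ℝ) ^ (-(k : ℝ) / 2) +
            y ^ (-ε))

/-- The bound for the number of ideals of given relative norm. -/
def RepStmt : Prop :=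
  ∀ (n p : ℕ) [Fact p.Prime] (c : Ctx p), ∃ C : ℝ, 0 < C ∧ ∀ (D : Dat n c) (τ : D.F), τ ≠ 0 →
    D.rr τ ≠ 0 → τ ∈ FractionalIdeal.dual ℤ ℚ (1 : FractionalIdeal (𝓞 D.F)⁰ D.F) ∧
      (D.rr τ : ℝ) ≤ C * wtP D.L (c.m0 * p) (2 * (n + 3)) τ

open Classical in
/-- From classes to ideals of given relative norm. -/
def FibStmt : Prop :=
  ∀ (n p : ℕ) [Fact p.Prime] (c : Ctx p) (D : Dat n c) (S : D.Sys) (T : Finset D.F)
    (P : D.L → Prop), (∀ τ : D.F, τ ≠ 0 → D.rr τ ≠ 0 → P τ → τ ∈ T) →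
    (Finset.univ.filter fun x : D.Cl =>
      ∃ ξ ∈ D.tw (S.b x), ξ ≠ 0 ∧ P (D.lam * ξ * D.bar ξ)).card ≤
      Nat.card D.Amb * ∑ τ ∈ T, D.rr τ

/-- The class number formula and the discriminants. -/
def CNFStmt : Prop :=
  ∀ (n p : ℕ) [Fact p.Prime] (c : Ctx p), ∃ C : ℝ, 1 ≤ C ∧ ∀ D : Dat n c,
    classNumber D.F * √|(discr D.F : ℝ)| * dedekindZeta_residue D.L ≤
      C * classNumber D.L * dedekindZeta_residue D.F ∧
    |(discr D.F : ℝ)| ^ 2 ≤ |(discr D.L : ℝ)| ∧ |(discr D.L : ℝ)| ≤ C * |(discr D.F : ℝ)| ^ 2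

/-- A reduced integral basis of the real subfield. -/
def GeoStmt : Prop :=
  ∀ (n p : ℕ) [Fact p.Prime] (c : Ctx p), ∃ C : ℝ, 0 < C ∧ ∀ D : Dat n c,
    ∃ (B : Bas D.F (n + 2)) (cen w : Fin (n + 2) → ℝ),
      (∀ a i, ‖D.Φ i ((B.ω a.succ : D.F) : D.L) - cen a‖ ≤ w a) ∧
      ∏ a, w a ≤ C * √|(discr D.F : ℝ)| ∧
      ∀ a, 0 ≤ w a ∧ |(discr D.F : ℝ)| ≤ (2 * w a) ^ ((n + 3) * (n + 2))

/-- The Galois closure. -/
def GalStmt : Prop :=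
  ∀ (n p : ℕ) [Fact p.Prime] (c : Ctx p), ∃ (g A : ℕ) (C : ℝ), 1 ≤ C ∧ ∀ D : Dat n c,
    ∃ (E : Type) (_ : Field E) (_ : NumberField E) (_ : IsGalois ℚ E) (Θ : 𝓞 E)
      (G₀ H₀ : Subgroup (E ≃ₐ[ℚ] E)) (ρ : G₀ ≃* Equiv.Perm (Fin (n + 3))),
      Module.finrank ℚ E ≤ g ∧ (∀ σ : E ≃ₐ[ℚ] E, σ Θ = Θ → σ = 1) ∧
      (∀ φ : E →+* ℂ, ‖φ Θ‖ ≤ C * |(discr D.L : ℝ)| ^ A) ∧
      (∀ σ, σ ∈ H₀ ↔ ∃ h : σ ∈ G₀, ρ ⟨σ, h⟩ 0 = 0) ∧
      (∀ q, nI (IntermediateField.fixedField G₀) q = nI c.K q) ∧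
      ∀ q, nI (IntermediateField.fixedField H₀) q = nI D.L q

/-- No exceptional zero: a lower bound for the quotient of the residues. -/
def ZStmt : Prop :=
  ∀ (n p : ℕ) [Fact p.Prime] (c : Ctx p) (δ : ℝ), 0 < δ → ∃ C D₀ : ℝ, 0 < C ∧ ∀ D : Dat n c,
    D₀ ≤ |(discr D.L : ℝ)| → ∀ x : ℝ, |(discr D.L : ℝ)| ^ δ ≤ x → x ≤ |(discr D.L : ℝ)| →
      Real.exp (tsumP (fun q => (nI D.L q : ℝ) - nI D.F q) x) * dedekindZeta_residue D.F ≤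
        C * dedekindZeta_residue D.L ∧
      dedekindZeta_residue D.F ≤
        C * Real.log |(discr D.L : ℝ)| ^ (n + 3) * dedekindZeta_residue D.L

/-- The sum of the representation numbers. -/
def SumStmt : Prop :=
  ∀ (n p : ℕ) [Fact p.Prime] (c : Ctx p) (R : ℝ), ∃ δ ε C : ℝ, 0 < δ ∧ 0 < ε ∧ 0 < C ∧
    ∀ s : ℝ, 0 < s → s ≤ R → ∀ k : ℕ, 2 ≤ k → ∃ D₀ : ℝ, ∀ D : Dat n c, D₀ ≤ |(discr D.L : ℝ)| →
      ∀ (I : Finset (Fin (n + 3))) (c₀ : ℚ_[p]), I.Nonempty → I ≠ Finset.univ →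
        ∃ (T : Finset D.F) (x : ℝ), |(discr D.L : ℝ)| ^ δ ≤ x ∧ x ≤ |(discr D.L : ℝ)| ∧
          (∀ τ : D.F, τ ≠ 0 → D.rr τ ≠ 0 → (∀ i, ‖D.Φ i τ‖ < s) →
            ‖∑ i ∈ I, D.ψ i τ - c₀‖ ≤ ((p : ℝ) ^ k)⁻¹ → τ ∈ T) ∧
          (∑ τ ∈ T, D.rr τ : ℝ) ≤ C * s * √|(discr D.F : ℝ)| *
            (Real.exp (tsumP (fun q => (nI D.L q : ℝ) - nI D.F q) x) * (p : ℝ) ^ (-(k : ℝ) / 2) +
              |(discr D.L : ℝ)| ^ (-ε))

/-- The arithmetic estimate. -/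
def CountStmt : Prop :=
  ∀ (n p : ℕ) [Fact p.Prime] (c : Ctx p) (R : ℝ), ∃ C : ℝ, 0 < C ∧ ∀ s : ℝ, 0 < s → s ≤ R →
    ∀ k : ℕ, 2 ≤ k → ∃ D₀ : ℝ, ∀ D : Dat n c, D₀ ≤ |(discr D.L : ℝ)| →
      ∀ (S : D.Sys) (I : Finset (Fin (n + 3))) (c₀ : ℚ_[p]), I.Nonempty → I ≠ Finset.univ →
        (D.pr fun x => D.Ev (D.tw (S.b x)) I c₀ k s) ≤ C * s * (p : ℝ) ^ (-(k : ℝ) / 2)

/-- The theorem for bundled data. -/
def MainStmt : Prop :=
  ∀ (n p : ℕ) [Fact p.Prime] (c : Ctx p) (D : ℕ → Dat n c),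
    Tendsto (fun m => |(discr (D m).L : ℝ)|) atTop atTop →
    (∀ m, (orbit n c.K (D m).φ (D m).lam (D m).a).Finite) ∧
    ∃ μ : @Measure (YY n c.K) (borel _),
      (∀ ν : @Measure (YY n c.K) (borel _), (ν Set.univ = 1 ∧
        ∀ g : SU n, @Measure.map _ _ (borel _) (borel _) (g • ·) ν = ν) ↔ ν = μ) ∧
      ∀ f : SS n c.K →ᵇ ℝ, Tendsto (fun m => mean (orbit n c.K (D m).φ (D m).lam (D m).a) f) atTop
        (𝓝 (∫ y, f (proj n c.K y) ∂μ))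

/-- The theorem. -/
def FinalStmt : Prop :=
  ∀ (n p : ℕ) [Fact p.Prime] (K : IntermediateField ℚ ℂ) [NumberField K],
    Module.finrank ℚ K = 2 → (∃ z ∈ K, z.im ≠ 0) →
    ∀ (L : ℕ → Type) [∀ m, Field (L m)] [∀ m, NumberField (L m)] [∀ m, IsCMField (L m)]
      [∀ m, Algebra K (L m)] (φ : ∀ m, L m →ₐ[K] ℂ) (lam : ∀ m, L m)
      (a : ∀ m, FractionalIdeal (𝓞 (L m))⁰ (L m)), (∀ m, Special n K p (φ m) (lam m) (a m)) →
      Tendsto (fun m => (discr (L m)).natAbs) atTop atTop →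
      (∀ m, (orbit n K (φ m) (lam m) (a m)).Finite) ∧
      ∃ μ : @Measure (YY n K) (borel _),
        (∀ ν : @Measure (YY n K) (borel _), (ν Set.univ = 1 ∧
          ∀ g : SU n, @Measure.map _ _ (borel _) (borel _) (g • ·) ν = ν) ↔ ν = μ) ∧
        ∀ f : SS n K →ᵇ ℝ, Tendsto (fun m => mean (orbit n K (φ m) (lam m) (a m)) f) atTop
          (𝓝 (∫ y, f (proj n K y) ∂μ))

end Pool.Agent.Lib.MP_9177b7_ag.B
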