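import Mathlib
import Pool.Agent.Lib.MP_9177b7_ag.B.St

/-!
The arithmetic estimate: assembly.
-/

open NumberField Filter Pool.Agent.Shared.PrimeZeta

noncomputable section

namespace Pool.Agent.Lib.MP_9177b7_ag.B

namespace CountAux

variable {n p : ℕ} [Fact p.Prime] {c : Ctx p}

theorem norm_le (hFr : FrameStmt) (D : Dat n c) (τ : D.F) {s : ℝ}
    (h : ∀ i, ‖D.Φ i (τ : D.L)‖ ≤ s) : |((Algebra.norm ℚ τ : ℚ) : ℝ)| ≤ s ^ (n + 3) := by
  obtain ⟨-, -, -, -, -, -, -, hrF, -, hdec, -⟩ := hFr n p c D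
  let f : Fin (n + 3) → (D.F →ₐ[ℚ] ℂ) := fun i =>
    ((D.Φ i : D.L →+* ℂ).comp (algebraMap D.F D.L)).toRatAlgHom
  have hf : ∀ i y, f i y = D.Φ i (y : D.L) := fun i y => rfl
  have hinj : Function.Injective f := by
    intro i l hil
    apply D.Φ.injective
    ext x
    obtain ⟨y, z, rfl⟩ := hdec x
    simp only [map_add, map_mul, AlgHom.commutes, ← hf, hil]
  have hbij : Function.Bijective f :=
    (Fintype.bijective_iff_injective_and_card f).2 ⟨hinj, by rw [AlgHom.card, hrF]; simp⟩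
  have e := congrArg norm (Algebra.norm_eq_prod_embeddings ℚ ℂ τ)
  rw [← hbij.prod_comp, norm_prod, eq_ratCast, Complex.norm_ratCast] at e
  rw [e]
  calc _ ≤ ∏ _i : Fin (n + 3), s := Finset.prod_le_prod (fun i _ => norm_nonneg _) fun i _ => h i
    _ = _ := by simp

theorem trace_eq (hFr : FrameStmt) (D : Dat n c) (τ : D.F) :
    ((Algebra.trace ℚ D.F τ : ℚ) : ℂ) = ∑ i, D.Φ i (τ : D.L) := by
  obtain ⟨-, -, -, h1, h2, -⟩ := hFr n p c D
  rw [← h1, h2]
  simp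

theorem arith {cnt cl A S V hF hL hK sF κF κL e q y lg CA CR M CS W Cc CZ : ℝ}
    (h1 : cnt ≤ A * S) (h2 : A ≤ CA * hF) (h3 : S ≤ CR * (M * (CS * V * (e * q + y))))
    (h4 : V ≤ W * sF) (h5 : hF * sF * κL ≤ Cc * hL * κF) (h6 : hL ≤ hK * cl)
    (h7 : e * κF ≤ CZ * κL) (h8 : κF ≤ CZ * lg * κL) (h9 : lg * y ≤ q)
    (hS : 0 ≤ S) (hCA : 0 ≤ CA) (hhF : 0 ≤ hF) (hCR : 0 ≤ CR) (hM : 0 ≤ M) (hCS : 0 ≤ CS)
    (he : 0 ≤ e) (hq : 0 ≤ q) (hy : 0 ≤ y) (hW : 0 ≤ W) (hCc : 0 ≤ Cc) (hκF : 0 ≤ κF)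
    (hκL : 0 < κL) (hcl : 0 < cl) (hCZ : 0 ≤ CZ) (hhK : 0 ≤ hK) :
    cnt / cl ≤ CA * CR * M * CS * W * Cc * hK * (2 * CZ) * q := by
  have a1 : κF * (e * q + y) ≤ 2 * CZ * κL * q := by
    have b1 : e * κF * q ≤ CZ * κL * q := by gcongr
    have b2 : κF * y ≤ CZ * lg * κL * y := by gcongr
    have b3 : CZ * κL * (lg * y) ≤ CZ * κL * q := by gcongr
    nlinarith
  rw [div_le_iff₀ hcl]
  refine le_of_mul_le_mul_right ?_ hκL
  calc cnt * κL ≤ (CA * hF) * (CR * (M * (CS * (W * sF) * (e * q + y)))) * κL := by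
        gcongr
        refine h1.trans ?_
        gcongr
        refine h3.trans ?_
        gcongr
    _ = CA * CR * M * CS * W * (e * q + y) * (hF * sF * κL) := by ring
    _ ≤ CA * CR * M * CS * W * (e * q + y) * (Cc * (hK * cl) * κF) := by
        have : hF * sF * κL ≤ Cc * (hK * cl) * κF := h5.trans (by gcongr)
        exact mul_le_mul_of_nonneg_left this (by positivity)
    _ = CA * CR * M * CS * W * Cc * hK * cl * (κF * (e * q + y)) := by ring
    _ ≤ CA * CR * M * CS * W * Cc * hK * cl * (2 * CZ * κL * q) := by gcongr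
    _ = _ := by ring

theorem ev_log (N : ℕ) (a ε q : ℝ) (ha : 0 ≤ a) (hε : 0 < ε) (hq : 0 < q) :
    ∀ᶠ y : ℝ in atTop, (a * Real.log y) ^ N * y ^ (-ε) ≤ q := by
  have h := (isLittleO_log_rpow_rpow_atTop (N : ℝ) hε).def (c := q / (a + 1) ^ N) (by positivity)
  filter_upwards [h, eventually_ge_atTop 1] with y h1 h2
  have hl : 0 ≤ Real.log y := Real.log_nonneg h2
  have hy : 0 < y ^ ε := by positivity
  rw [Real.rpow_natCast, Real.norm_of_nonneg (by positivity), Real.norm_of_nonneg hy.le] at h1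
  rw [Real.rpow_neg (by linarith), ← div_eq_mul_inv, div_le_iff₀ hy, mul_pow]
  calc a ^ N * Real.log y ^ N ≤ (a + 1) ^ N * (q / (a + 1) ^ N * y ^ ε) := by
        gcongr
        linarith
    _ = _ := by field_simp

/-- The coordinates of a small element lie in a box. -/
theorem mem_box (hFr : FrameStmt) (hDen : DenStmt) (D : Dat n c) (B : Bas D.F (n + 2))
    (cen w : Fin (n + 2) → ℝ) (hw : ∀ a i, ‖D.Φ i ((B.ω a.succ : D.F) : D.L) - cen a‖ ≤ w a)
    {s : ℝ} (m : ℤ) (t : Fin (n + 2) → ℤ) (h : ∀ i, ‖D.Φ i (B.tau m t : D.L)‖ ≤ s) :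
    |(m : ℝ)| ≤ (n + 3) * s ∧ t ∈ boxN (fun a => ⌊cen a * m - (n + 3) * s * w a⌋)
      fun a => ⌈2 * ((n + 3) * s * w a)⌉₊ + 1 := by
  obtain ⟨h1, h2, -⟩ := (hDen D.F (n + 2) B).2.1 m t
  have e1 := trace_eq hFr D (B.tau m t)
  rw [h1, Rat.cast_intCast] at e1
  constructor
  · rw [← Complex.norm_intCast, e1]
    refine (norm_sum_le _ _).trans ((Finset.sum_le_sum fun i _ => h i).trans ?_)
    simp
  · rw [boxN, Fintype.mem_piFinset]
    intro a
    have e2 := trace_eq hFr D (B.tau m t * B.ω a.succ)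
    rw [h2, Rat.cast_intCast] at e2
    have e3 : ((t a - cen a * m : ℝ) : ℂ) =
        ∑ i, D.Φ i (B.tau m t : D.L) * (D.Φ i ((B.ω a.succ : D.F) : D.L) - cen a) := by
      push_cast
      rw [e1, e2, Finset.mul_sum, ← Finset.sum_sub_distrib]
      refine Finset.sum_congr rfl fun i _ => ?_
      rw [Subfield.coe_mul, map_mul]
      ring
    have e4 : |t a - cen a * m| ≤ (n + 3) * s * w a := by
      rw [← Real.norm_eq_abs, ← Complex.norm_real, e3]
      refine (norm_sum_le _ _).trans ((Finset.sum_le_sum (g := fun _ => s * w a)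
        fun i _ => ?_).trans ?_)
      · rw [norm_mul]
        exact mul_le_mul (h i) (hw a i) (norm_nonneg _) ((norm_nonneg _).trans (h i))
      · simp [mul_assoc]
    rw [abs_le] at e4
    rw [Finset.mem_Ico]
    constructor
    · exact Int.floor_le_iff.2 (by linarith)
    · have f1 := Int.lt_floor_add_one (cen a * m - (n + 3) * s * w a)
      have f2 := Nat.le_ceil (2 * ((n + 3) * s * w a))
      have : (t a : ℝ) < ⌊cen a * m - (n + 3) * s * w a⌋ +
          ((⌈2 * ((n + 3) * s * w a)⌉₊ : ℝ) + 1) := by linarith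
      exact_mod_cast this

end CountAux

open CountAux in
theorem count : FrameStmt → AmbStmt → IsoStmt → FibStmt → RepStmt → CNFStmt → GeoStmt → DenStmt →
    SliceStmt → ZStmt → CountStmt := by
  classical
  intro hFr hAm hIso hFib hRep hCNF hGeo hDen hSl hZ n p _ c R
  obtain ⟨CA, hA⟩ := hAm n p c
  obtain ⟨CR, hCR, hR⟩ := hRep n p c
  obtain ⟨Cc, hCc, hc⟩ := hCNF n p c
  obtain ⟨CG, hCG, hG⟩ := hGeo n p c
  set r : ℕ := 2 * ((n + 3) * (n + 2)) with hr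
  have hr0 : r ≠ 0 := by positivity
  have hp : p ≠ 0 := (Fact.out : p.Prime).ne_zero
  have hbad : c.m0 * p ≠ 0 := by
    refine mul_ne_zero ?_ hp
    rw [Ctx.m0, Ne, Ideal.absNorm_eq_zero_iff, Ideal.span_singleton_eq_bot]
    exact mul_ne_zero two_ne_zero c.δ_ne
  obtain ⟨δ, ε, CS, hδ, hδ1, hε, hCS, hS⟩ := hSl (n + 2) p (c.m0 * p) (2 * (n + 3))
    ((2 * r : ℕ) : ℝ) (by omega) hbad (dvd_mul_left _ _) (by omega)
  obtain ⟨CZ, DZ, hCZ, hz⟩ := hZ n p c (((2 * r : ℕ) : ℝ)⁻¹ * δ) (by positivity)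
  set M : ℕ := ⌈(n + 3) * R⌉₊ with hM
  have hK : (0 : ℝ) < classNumber c.K := by exact_mod_cast classNumber_pos c.K
  refine ⟨(CA + 1) * CR * (2 * M + 1) * CS * ((4 * (n + 3)) ^ (n + 2) * (|R| + 1) ^ (n + 1) * CG) *
    Cc * classNumber c.K * (2 * CZ), by positivity, ?_⟩
  intro s hs hsR k hk
  obtain ⟨y₀, hy⟩ := hS k hk
  have hq : (0 : ℝ) < (p : ℝ) ^ (-(k : ℝ) / 2) := by positivity
  have hpw : Tendsto (fun y : ℝ => y ^ r) atTop atTop := tendsto_pow_atTop hr0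
  have ev : ∀ᶠ y : ℝ in atTop, 2 ≤ y ∧ y₀ ≤ y ∧ DZ ≤ y ∧ Cc / ((n + 3) * s) ^ r ≤ y ^ r ∧
      R ^ (n + 3) ≤ y ^ r ∧
      ((2 * r : ℕ) * Real.log y) ^ (n + 3) * y ^ (-ε) ≤ (p : ℝ) ^ (-(k : ℝ) / 2) := by
    filter_upwards [eventually_ge_atTop 2, eventually_ge_atTop y₀, eventually_ge_atTop DZ,
      hpw.eventually_ge_atTop (Cc / ((n + 3) * s) ^ r), hpw.eventually_ge_atTop (R ^ (n + 3)),
      ev_log (n + 3) (2 * r : ℕ) ε _ (by positivity) hε hq] with y a1 a2 a3 a4 a5 a6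
    exact ⟨a1, a2, a3, a4, a5, a6⟩
  obtain ⟨Y, hY⟩ := eventually_atTop.1 ev
  refine ⟨max Y 1 ^ (2 * r), fun D hD S I c₀ hI hI' => ?_⟩
  set X : ℝ := |(discr D.L : ℝ)| with hX
  have hX0 : 0 ≤ X := abs_nonneg _
  set y : ℝ := X ^ ((2 * r : ℕ) : ℝ)⁻¹ with hyd
  have hyX : y ^ (2 * r) = X := Real.rpow_inv_natCast_pow hX0 (by omega)
  have hy0 : 0 ≤ y := by positivity
  have hYy : max Y 1 ≤ y := by
    rw [← hyX] at hD
    exact (pow_le_pow_iff_left₀ (by positivity) hy0 (by omega)).1 hD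
  obtain ⟨y2, yy₀, yDZ, yC, yR, ylog⟩ := hY y ((le_max_left _ _).trans hYy)
  have y1 : 1 ≤ y := by linarith
  have hyle : y ≤ X := by
    rw [← hyX]
    exact le_self_pow₀ y1 (by omega)
  obtain ⟨hcnf, hF1, hF2⟩ := hc D
  obtain ⟨B, cen, w, hw1, hw2, hw3⟩ := hG D
  obtain ⟨hz1, hz2⟩ := hz D (yDZ.trans hyle) (y ^ δ) (by rw [hyd, Real.rpow_mul hX0])
    (le_trans (by simpa using Real.rpow_le_rpow_of_exponent_le y1 hδ1) hyle)
  obtain ⟨-, -, -, -, -, hψ, -, -, hrL, -⟩ := hFr n p c D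
  set DF : ℝ := |(discr D.F : ℝ)| with hDF
  have hDF0 : 0 ≤ DF := abs_nonneg _
  have hDFy : DF ≤ y ^ r := by
    rw [← hX, ← hyX, mul_comm, pow_mul] at hF1
    exact (pow_le_pow_iff_left₀ hDF0 (by positivity) two_ne_zero).1 hF1
  have hns : (0 : ℝ) < (n + 3) * s := by positivity
  have hyw : ∀ a, y ≤ 2 * ((n + 3) * s * w a) := by
    intro a
    obtain ⟨w0, w1⟩ := hw3 a
    rw [div_le_iff₀ (by positivity)] at yC
    have e1 : DF ^ 2 ≤ (2 * w a) ^ r := by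
      rw [hr, mul_comm 2 ((n + 3) * (n + 2)), pow_mul]
      gcongr
    have e2 : y ^ r * y ^ r ≤ y ^ r * (2 * ((n + 3) * s * w a)) ^ r := by
      calc y ^ r * y ^ r = X := by rw [← hyX, two_mul, pow_add]
        _ ≤ Cc * DF ^ 2 := hF2
        _ ≤ (y ^ r * ((n + 3) * s) ^ r) * (2 * w a) ^ r := by gcongr
        _ = _ := by rw [mul_assoc, ← mul_pow]; congr 2; ring
    exact (pow_le_pow_iff_left₀ hy0 (by positivity) hr0).1
      (le_of_mul_le_mul_left e2 (by positivity))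
  set A : Fin (n + 2) → ℕ := fun a => ⌈2 * ((n + 3) * s * w a)⌉₊ + 1 with hAd
  have hA1 : ∀ a, y ≤ A a := fun a => by
    have := Nat.le_ceil (2 * ((n + 3) * s * w a))
    have := hyw a
    simp only [hAd]
    push_cast
    linarith
  have hA2 : ∏ a, (A a : ℝ) ≤
      ((4 * (n + 3)) ^ (n + 2) * (|R| + 1) ^ (n + 1) * CG * s) * √DF := by
    calc ∏ a, (A a : ℝ) ≤ ∏ a, (4 * (n + 3) * s) * w a := by
          refine Finset.prod_le_prod (fun a _ => by positivity) fun a _ => ?_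
          have := hyw a
          have := Nat.ceil_lt_add_one (show 0 ≤ 2 * ((n + 3) * s * w a) by linarith)
          simp only [hAd]
          push_cast
          linarith
      _ = (4 * (n + 3)) ^ (n + 2) * s ^ (n + 1) * s * ∏ a, w a := by
          rw [Finset.prod_mul_distrib, Finset.prod_const, Finset.card_univ, Fintype.card_fin,
            mul_pow, pow_succ s]
          ring
      _ ≤ (4 * (n + 3)) ^ (n + 2) * (|R| + 1) ^ (n + 1) * s * (CG * √DF) := by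
          have : s ≤ |R| + 1 := by linarith [le_abs_self R]
          have : 0 ≤ ∏ a, w a := Finset.prod_nonneg fun a _ => (hw3 a).1
          gcongr
      _ = _ := by ring
  let P : D.L → Prop := fun τ => (∀ i, ‖D.Φ i τ‖ < s) ∧
    ‖∑ i ∈ I, D.ψ i τ - c₀‖ ≤ ((p : ℝ) ^ k)⁻¹
  let U : ℤ → Finset (Fin (n + 2) → ℤ) := fun m =>
    (boxN (fun a => ⌊cen a * m - (n + 3) * s * w a⌋) A).filter fun t =>
      B.tau m t ≠ 0 ∧ D.rr (B.tau m t) ≠ 0 ∧ P (B.tau m t)
  let T : Finset D.F := ((Finset.Icc (-M : ℤ) M).sigma U).image fun x => B.tau x.1 x.2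
  have hT : ∀ τ : D.F, τ ≠ 0 → D.rr τ ≠ 0 → P τ → τ ∈ T := by
    intro τ h0 h1 h2
    obtain ⟨m, t, rfl⟩ := ((hDen D.F (n + 2) B).1 τ).1 (hR D τ h0 h1).1
    obtain ⟨b1, b2⟩ := mem_box hFr hDen D B cen w hw1 m t fun i => (h2.1 i).le
    refine Finset.mem_image.2 ⟨⟨m, t⟩, Finset.mem_sigma.2 ⟨?_, Finset.mem_filter.2
      ⟨b2, h0, h1, h2⟩⟩, rfl⟩
    have b3 : |(m : ℝ)| ≤ M := b1.trans (le_trans (by gcongr) (Nat.le_ceil _))
    rw [Finset.mem_Icc, ← abs_le]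
    exact_mod_cast b3
  have h1 := hFib n p c D S T P hT
  set Bd : ℝ := CS * (∏ a, (A a : ℝ)) *
    (Real.exp (tsumP (fun q => (nI D.L q : ℝ) - nI D.F q) (y ^ δ)) * (p : ℝ) ^ (-(k : ℝ) / 2) +
      y ^ (-ε)) with hBd
  have h3 : ∀ m, ∑ t ∈ U m, (D.rr (B.tau m t) : ℝ) ≤ CR * Bd := by
    intro m
    have b1 := hy y yy₀ D.F D.L B (fun i => (D.ψ i).comp (algebraMap D.F D.L)) I c₀ m _ A (U m)
      hrL.le hψ hI hI' hA1 (Finset.filter_subset _ _) ?_
    · refine le_trans ?_ (mul_le_mul_of_nonneg_left b1 hCR.le)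
      rw [Finset.mul_sum]
      refine Finset.sum_le_sum fun t ht => ?_
      obtain ⟨-, h0, h1, -⟩ := Finset.mem_filter.1 ht
      exact (hR D _ h0 h1).2
    · intro t ht
      obtain ⟨-, h0, -, h2⟩ := Finset.mem_filter.1 ht
      obtain ⟨-, -, e⟩ := (hDen D.F (n + 2) B).2.1 m t
      refine ⟨?_, ?_, h2.2⟩
      · have : (NN (B.tau m t) : ℚ) ≠ 0 := by
          rw [e]
          exact mul_ne_zero (abs_ne_zero.2 (Algebra.norm_ne_zero_iff.2 h0))
            (by exact_mod_cast abs_ne_zero.2 (discr_ne_zero D.F))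
        exact_mod_cast this
      · have e' : (NN (B.tau m t) : ℝ) = |((Algebra.norm ℚ (B.tau m t) : ℚ) : ℝ)| * DF := by
          rw [hDF]
          exact_mod_cast e
        have b2 := norm_le hFr D (B.tau m t) fun i => (h2.1 i).le
        have b3 : s ^ (n + 3) ≤ y ^ r := le_trans (by gcongr) yR
        rw [e', Real.rpow_natCast, two_mul, pow_add]
        exact mul_le_mul (b2.trans b3) hDFy hDF0 (by positivity)
  have h4 : ∑ τ ∈ T, (D.rr τ : ℝ) ≤ CR * ((2 * M + 1) * Bd) := by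
    refine (Finset.sum_image_le_of_nonneg fun _ _ => Nat.cast_nonneg _).trans ?_
    rw [Finset.sum_sigma]
    refine (Finset.sum_le_sum fun m _ => h3 m).trans ?_
    rw [Finset.sum_const, Int.card_Icc, nsmul_eq_mul,
      show ((M : ℤ) + 1 - -M).toNat = 2 * M + 1 by omega]
    push_cast
    exact le_of_eq (by ring)
  have h5 : (classNumber D.L : ℝ) ≤ classNumber c.K * Fintype.card D.Cl := by
    exact_mod_cast (hIso n p c D).1
  have h6 : (0 : ℝ) < Fintype.card D.Cl := by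
    have : (0 : ℝ) < classNumber D.L := by exact_mod_cast classNumber_pos D.L
    exact (pos_iff_pos_of_mul_pos (this.trans_le h5)).1 hK
  have h7 : (Nat.card D.Amb : ℝ) ≤ (CA + 1) * classNumber D.F := by
    have : (Nat.card D.Amb : ℝ) ≤ CA * classNumber D.F := by exact_mod_cast (hA D).2
    exact this.trans (by gcongr; linarith)
  have h8 : Real.log X ^ (n + 3) * y ^ (-ε) ≤ (p : ℝ) ^ (-(k : ℝ) / 2) := by
    rwa [← hyX, Real.log_pow]
  refine (arith (cnt := ((Finset.univ.filter fun x : D.Cl =>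
      ∃ ξ ∈ D.tw (S.b x), ξ ≠ 0 ∧ P (D.lam * ξ * D.bar ξ)).card : ℝ)) (by exact_mod_cast h1) h7 h4
    hA2 hcnf h5 hz1 hz2 h8 (by positivity) (by positivity) (by positivity) hCR.le (by positivity)
    hCS.le (by positivity) hq.le (by positivity) (by positivity) (by linarith)
    (dedekindZeta_residue_pos _).le (dedekindZeta_residue_pos _) h6 hCZ.le hK.le).trans_eq' ?_
      |>.trans_eq (by ring)
  rfl

end Pool.Agent.Lib.MP_9177b7_ag.B
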