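import Pool.Agent.Lib.MP_9177b7_ag.B.StA

/-!
The covering argument.
-/

open MeasureTheory Filter Topology Set
open scoped ENNReal

noncomputable section

namespace Pool.Agent.Lib.MP_9177b7_ag.B

namespace Cov

open Classical

variable {H C X : Type} [Group H] [Group C] [MulAction (H × C) X]

/-- A translate of a level set. -/
def S (B : ℕ → Subgroup H) (V : Set C) (l : ℕ) (g : H) (x : X) : Set X :=
  {z | ∃ h ∈ B l, ∃ c ∈ V, z = ((h * g, c) : H × C) • x}

/-- The times before `M` at which the backward orbit is outside `Q`. -/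
def bad (C : Type) [Group C] [MulAction (H × C) X] (T : H) (Q : Set X) (M : ℕ) (y : X) :
    Finset ℕ :=
  (Finset.range M).filter fun l => (((T ^ l)⁻¹, 1) : H × C) • y ∉ Q

theorem cover (B : ℕ → Subgroup H) (O V : Set C) (T : H) (Q : Set X) (W : ℕ) (x : X)
    (hV : ∀ v ∈ V, ∀ w ∈ V, v / w ∈ O)
    (h1 : ∀ l, ∃ s : Finset H, s.card ≤ W ∧ ∀ h ∈ B l, ∃ g ∈ s, h * g⁻¹ ∈ B (l + 1))
    (h2 : ∀ l, ∀ h ∈ B l, ∀ c ∈ O, ∀ y : X, (((T ^ l)⁻¹, 1) : H × C) • y ∈ Q →
      (((T ^ l)⁻¹, 1) : H × C) • ((h, c) : H × C) • y ∈ Q → h ∈ B (l + 1)) (M : ℕ) :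
    ∀ b : Finset ℕ, ∃ s : Finset H, s.card ≤ W ^ b.card ∧
      ∀ y ∈ S B V 0 1 x, bad C T Q M y = b → ∃ g ∈ s, y ∈ S B V M g x := by
  induction M with
  | zero =>
    intro b
    by_cases hb : b = ∅
    · exact ⟨{1}, by simp [hb], fun y hy _ => ⟨1, by simp, hy⟩⟩
    · exact ⟨∅, by simp, fun y _ h => absurd (by simp [← h, bad]) hb⟩
  | succ M ih =>
    intro b
    have hb : ∀ y : X, bad C T Q (M + 1) y = b → bad C T Q M y = b.erase M := by
      intro y h
      ext l
      simp only [← h, bad, Finset.mem_filter, Finset.mem_range, Finset.mem_erase]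
      constructor
      · rintro ⟨a, c⟩
        exact ⟨by omega, by omega, c⟩
      · rintro ⟨a, c, d⟩
        exact ⟨by omega, d⟩
    obtain ⟨s, hs, hc⟩ := ih (b.erase M)
    by_cases hM : M ∈ b
    · obtain ⟨t, ht, hi⟩ := h1 M
      refine ⟨Finset.image₂ (· * ·) t s, ?_, fun y hy h => ?_⟩
      · refine (Finset.card_image₂_le _ _ _).trans ?_
        rw [← Finset.card_erase_add_one hM, pow_succ']
        exact Nat.mul_le_mul ht hs
      · obtain ⟨g, hg, k, hk, c, hcV, rfl⟩ := hc y hy (hb y h)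
        obtain ⟨g₁, hg₁, hk'⟩ := hi k hk
        exact ⟨g₁ * g, Finset.mem_image₂_of_mem hg₁ hg, k * g₁⁻¹, hk', c, hcV, by
          simp [mul_assoc]⟩
    · have key : ∀ g : H, ∃ g' : H, ∀ y ∈ S B V M g x,
          (((T ^ M)⁻¹, 1) : H × C) • y ∈ Q → y ∈ S B V (M + 1) g' x := by
        intro g
        by_cases he : ∃ y ∈ S B V M g x, (((T ^ M)⁻¹, 1) : H × C) • y ∈ Q
        · obtain ⟨_, ⟨k', hk', c', hc', rfl⟩, hq'⟩ := he
          refine ⟨k' * g, ?_⟩
          rintro _ ⟨k, hk, c, hcV, rfl⟩ hq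
          refine ⟨k * k'⁻¹, h2 M _ ((B M).mul_mem hk ((B M).inv_mem hk')) _ (hV c hcV c' hc') _
            hq' ?_, c, hcV, by simp [mul_assoc]⟩
          rw [← mul_smul ((k * k'⁻¹, c / c') : H × C)]
          simpa [mul_assoc] using hq
        · exact ⟨1, fun y hy hq => absurd ⟨y, hy, hq⟩ he⟩
      choose φ hφ using key
      refine ⟨s.image φ, Finset.card_image_le.trans (by rwa [Finset.erase_eq_of_notMem hM] at hs),
        fun y hy h => ?_⟩
      obtain ⟨g, hg, hy'⟩ := hc y hy (hb y h)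
      refine ⟨φ g, Finset.mem_image_of_mem _ hg, hφ g y hy' ?_⟩
      by_contra hq
      exact hM (by simp [← h, bad, hq])

theorem params (W : ℕ) {ρ : ℝ} (h0 : 0 < ρ) (h1 : ρ < 1) :
    ∃ (K : ℕ) (r : ℝ), 0 ≤ r ∧ r < 1 ∧ ∀ M : ℕ,
      (∑ b ∈ (Finset.range M).powerset.filter (fun b => K * b.card ≤ M), (W : ℝ) ^ b.card) *
        ρ ^ M ≤ r ^ M := by
  have hc : ContinuousAt (fun t : ℝ => (1 + t) * (1 + W * t) * ρ) 0 := by fun_prop
  have he : ∀ᶠ t in 𝓝[>] (0 : ℝ), (1 + t) * (1 + W * t) * ρ < 1 :=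
    nhdsWithin_le_nhds (hc.eventually (gt_mem_nhds (by simpa using h1)))
  obtain ⟨t, ht, ht0⟩ := (he.and self_mem_nhdsWithin).exists
  have ht0 : 0 < t := ht0
  obtain ⟨K, hK⟩ := pow_unbounded_of_one_lt t⁻¹ (show 1 < 1 + t by linarith)
  refine ⟨K, _, by positivity, ht, fun M => ?_⟩
  rw [mul_pow, mul_pow]
  refine mul_le_mul_of_nonneg_right ?_ (by positivity)
  have e : (1 + W * t) ^ M = ∑ b ∈ (Finset.range M).powerset, (W * t) ^ b.card := by
    have := Finset.prod_one_add (f := fun _ : ℕ => (W * t : ℝ)) (Finset.range M)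
    simpa using this
  rw [e, Finset.mul_sum]
  refine le_trans (Finset.sum_le_sum fun b hb => ?_)
    (Finset.sum_le_sum_of_subset_of_nonneg (Finset.filter_subset _ _) fun _ _ _ => by positivity)
  have hb := (Finset.mem_filter.1 hb).2
  calc (W : ℝ) ^ b.card = t⁻¹ ^ b.card * (W * t) ^ b.card := by
        rw [← mul_pow]; congr 1; field_simp
    _ ≤ ((1 + t) ^ K) ^ b.card * (W * t) ^ b.card := by gcongr
    _ ≤ (1 + t) ^ M * (W * t) ^ b.card := by
        rw [← pow_mul]
        exact mul_le_mul_of_nonneg_right (pow_le_pow_right₀ (by linarith) hb) (by positivity)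

theorem meas_good [MeasurableSpace X] (ν : Measure X) (B : ℕ → Subgroup H) (O V : Set C) (T : H)
    (Q : Set X) (W K : ℕ) (x : X) (hV : ∀ v ∈ V, ∀ w ∈ V, v / w ∈ O) (hV1 : (1 : C) ∈ V)
    (h1 : ∀ l, ∃ s : Finset H, s.card ≤ W ∧ ∀ h ∈ B l, ∃ g ∈ s, h * g⁻¹ ∈ B (l + 1))
    (h2 : ∀ l, ∀ h ∈ B l, ∀ c ∈ O, ∀ y : X, (((T ^ l)⁻¹, 1) : H × C) • y ∈ Q →
      (((T ^ l)⁻¹, 1) : H × C) • ((h, c) : H × C) • y ∈ Q → h ∈ B (l + 1)) (M : ℕ) (E : ℝ≥0∞)
    (h3 : ∀ y : X, ν {z | ∃ h ∈ B M, ∃ c ∈ O, z = ((h, c) : H × C) • y} ≤ E) :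
    ν {y ∈ S B V 0 1 x | K * (bad C T Q M y).card ≤ M} ≤
      (∑ b ∈ (Finset.range M).powerset.filter (fun b => K * b.card ≤ M),
        (W : ℝ≥0∞) ^ b.card) * E := by
  choose s hs hc using cover B O V T Q W x hV h1 h2 M
  have hS : ∀ g, ν (S B V M g x) ≤ E := fun g => by
    refine le_trans (measure_mono ?_) (h3 (((g, 1) : H × C) • x))
    rintro _ ⟨k, hk, c, hcV, rfl⟩
    exact ⟨k, hk, c, by simpa using hV c hcV 1 hV1, by simp [← mul_smul]⟩
  calc _ ≤ ν (⋃ b ∈ (Finset.range M).powerset.filter (fun b => K * b.card ≤ M),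
        ⋃ g ∈ s b, S B V M g x) := by
        refine measure_mono fun y hy => ?_
        obtain ⟨g, hg, hy'⟩ := hc _ y hy.1 rfl
        refine mem_biUnion (x := bad C T Q M y) ?_ (mem_biUnion hg hy')
        exact Finset.mem_coe.2 (Finset.mem_filter.2
          ⟨Finset.mem_powerset.2 (Finset.filter_subset _ _), hy.2⟩)
    _ ≤ _ := measure_biUnion_finset_le _ _
    _ ≤ _ := by
        rw [Finset.sum_mul]
        refine Finset.sum_le_sum fun b _ => (measure_biUnion_finset_le _ _).trans ?_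
        refine (Finset.sum_le_card_nsmul _ _ _ fun g _ => hS g).trans ?_
        rw [nsmul_eq_mul]
        gcongr
        exact_mod_cast hs b

theorem markov [MeasurableSpace X] (ν : Measure X) (T : H) (Q : Set X) (hQ : MeasurableSet Q)
    (hm : ∀ g : H × C, Measurable fun y : X => g • y)
    (hT : ν.map (((T, 1) : H × C) • ·) = ν) (K M : ℕ) (hM : M ≠ 0) :
    ν {y | ¬ K * (bad C T Q M y).card ≤ M} ≤ K * ν Qᶜ := by
  have hp : ∀ l : ℕ, ν.map ((((T ^ l)⁻¹, 1) : H × C) • ·) = ν := by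
    intro l
    induction l with
    | zero =>
      have : ((((T ^ 0)⁻¹, 1) : H × C) • · : X → X) = id := by
        ext y
        rw [pow_zero, inv_one]
        exact one_smul (H × C) y
      rw [this, Measure.map_id]
    | succ l ih =>
      conv_lhs => rw [← hT]
      rw [Measure.map_map (hm _) (hm _)]
      convert ih using 2
      ext y
      simp [← mul_smul, pow_succ']
  set A : ℕ → Set X := fun l => ((((T ^ l)⁻¹, 1) : H × C) • ·) ⁻¹' Qᶜ with hA
  have hAm : ∀ l, MeasurableSet (A l) := fun l => hm _ hQ.compl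
  have hAν : ∀ l, ν (A l) = ν Qᶜ := fun l => by
    rw [hA, ← Measure.map_apply (hm _) hQ.compl, hp]
  set f : X → ℝ≥0∞ := fun y => K * ∑ l ∈ Finset.range M, (A l).indicator 1 y with hf
  have hs : Measurable fun y => ∑ l ∈ Finset.range M, (A l).indicator (1 : X → ℝ≥0∞) y :=
    Finset.measurable_sum _ fun l _ => measurable_one.indicator (hAm l)
  have hfm : Measurable f := hs.const_mul _
  have hI : ∫⁻ y, f y ∂ν = M * (K * ν Qᶜ) := by
    rw [hf, lintegral_const_mul _ hs,
      lintegral_finsetSum _ fun l _ => measurable_one.indicator (hAm l)]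
    simp only [lintegral_indicator_one (hAm _), hAν, Finset.sum_const, Finset.card_range,
      nsmul_eq_mul]
    ring
  have := mul_meas_ge_le_lintegral (μ := ν) hfm M
  rw [hI, ENNReal.mul_le_mul_iff_right (by exact_mod_cast hM) (by simp)] at this
  refine le_trans (measure_mono fun y hy => ?_) this
  have e : ∑ l ∈ Finset.range M, (A l).indicator (1 : X → ℝ≥0∞) y = (bad C T Q M y).card := by
    rw [bad, Finset.card_filter]
    push_cast
    refine Finset.sum_congr rfl fun l _ => ?_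
    simp [hA, indicator]
  simp only [mem_ofPred_eq, hf, e] at hy ⊢
  exact_mod_cast (not_le.1 hy).le

end Cov

open Cov in
theorem cov : CovStmt := by
  intro H C X _ _ _ _ _ _ _ _ _ _ _ _ ν _ T Z W ρ hop hT hZ hZν h0 h1 hyp
  classical
  obtain ⟨K, r, hr0, hr1, hr⟩ := params W h0 h1
  have hm : ∀ g : H × C, Measurable fun y : X => g • y := fun g =>
    (continuous_const_smul g).measurable
  have main : ∀ Q : Set X, IsCompact Q → Q ⊆ Z → ν univ ≤ (1 + K) * ν Qᶜ := by
    intro Q hQ hQZ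
    obtain ⟨B, O, C₀, hO, hB, a1, a2, a3⟩ := hyp Q hQ hQZ
    obtain ⟨V, hV, hVO⟩ := exists_nhds_split_inv hO
    have hn : ∀ x ∈ Q, S B V 0 1 x ∈ 𝓝 x := fun x _ => by
      have := (hop x).image_mem_nhds (x := ((1, 1) : H × C))
        (prod_mem_nhds (hB.mem_nhds (B 0).one_mem) hV)
      have e : ((1, 1) : H × C) • x = x := one_smul (H × C) x
      simp only [e] at this
      refine mem_of_superset this ?_
      rintro _ ⟨⟨k, c⟩, ⟨hk, hc⟩, rfl⟩
      exact ⟨k, hk, c, hc, by simp⟩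
    obtain ⟨F, -, hF⟩ := hQ.elim_nhds_subcover _ hn
    have hb : ∀ M : ℕ, M ≠ 0 →
        ν univ ≤ (1 + K) * ν Qᶜ + ENNReal.ofReal (F.card * (|C₀| * r ^ M)) := by
      intro M hM
      have g : ∀ x : X, ν {y ∈ S B V 0 1 x | K * (bad C T Q M y).card ≤ M} ≤
          ENNReal.ofReal (|C₀| * r ^ M) := fun x => by
        refine (meas_good ν B O V T Q W K x hVO (mem_of_mem_nhds hV) a1 a2 M _ (a3 M)).trans ?_
        have e : (∑ b ∈ (Finset.range M).powerset.filter (fun b => K * b.card ≤ M),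
            (W : ℝ≥0∞) ^ b.card) = ENNReal.ofReal (∑ b ∈ (Finset.range M).powerset.filter
              (fun b => K * b.card ≤ M), (W : ℝ) ^ b.card) := by
          rw [ENNReal.ofReal_sum_of_nonneg fun _ _ => by positivity]
          refine Finset.sum_congr rfl fun b _ => ?_
          rw [ENNReal.ofReal_pow (by positivity), ENNReal.ofReal_natCast]
        rw [e, ← ENNReal.ofReal_mul (by positivity)]
        refine ENNReal.ofReal_le_ofReal ?_
        have := mul_le_mul_of_nonneg_left (hr M) (abs_nonneg C₀)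
        refine le_trans ?_ this
        rw [mul_left_comm]
        exact mul_le_mul_of_nonneg_right (le_abs_self _) (by positivity)
      calc ν univ ≤ ν ((Qᶜ ∪ {y | ¬ K * (bad C T Q M y).card ≤ M}) ∪
            ⋃ x ∈ F, {y ∈ S B V 0 1 x | K * (bad C T Q M y).card ≤ M}) := by
            refine measure_mono fun y _ => ?_
            by_cases hy : y ∈ Q
            · by_cases hk : K * (bad C T Q M y).card ≤ M
              · obtain ⟨x, hx, hyx⟩ := mem_iUnion₂.1 (hF hy)
                exact Or.inr (mem_biUnion hx ⟨hyx, hk⟩)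
              · exact Or.inl (Or.inr hk)
            · exact Or.inl (Or.inl hy)
        _ ≤ _ := measure_union_le _ _
        _ ≤ _ := by
            refine add_le_add ((measure_union_le _ _).trans ?_) ?_
            · rw [add_mul, one_mul]
              exact add_le_add le_rfl (markov ν T Q hQ.measurableSet hm hT K M hM)
            · refine (measure_biUnion_finset_le _ _).trans ?_
              refine (Finset.sum_le_card_nsmul _ _ _ fun x _ => g x).trans ?_
              rw [nsmul_eq_mul, ENNReal.ofReal_mul (Nat.cast_nonneg _), ENNReal.ofReal_natCast]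
    have ht : Tendsto (fun M : ℕ => (1 + K) * ν Qᶜ + ENNReal.ofReal (F.card * (|C₀| * r ^ M)))
        atTop (𝓝 ((1 + K) * ν Qᶜ + ENNReal.ofReal (F.card * (|C₀| * 0)))) :=
      tendsto_const_nhds.add (ENNReal.tendsto_ofReal
        (((tendsto_pow_atTop_nhds_zero_of_lt_one hr0 hr1).const_mul _).const_mul _))
    simpa using ge_of_tendsto ht ((eventually_ne_atTop 0).mono hb)
  rw [← Measure.measure_univ_eq_zero]
  by_contra hne
  have hK : (1 + K : ℝ≥0∞) ≠ 0 := by simp
  have hK' : (1 + K : ℝ≥0∞) ≠ ∞ := by simp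
  obtain ⟨Q, hQZ, hQ, hlt⟩ := hZ.exists_isCompact_sdiff_lt (μ := ν) (measure_ne_top _ _)
    (ε := ν univ / (1 + K)) (ENNReal.div_ne_zero.2 ⟨hne, hK'⟩)
  have hc : ν Qᶜ ≤ ν (Z \ Q) := measure_mono_ae (hZν.mono fun x hx hq => ⟨hx, hq⟩)
  have := (main Q hQ hQZ).trans_lt
    ((ENNReal.mul_lt_mul_iff_right hK hK').2 (hc.trans_lt hlt))
  rw [ENNReal.mul_div_cancel hK hK'] at this
  exact lt_irrefl _ this

end Pool.Agent.Lib.MP_9177b7_ag.B
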