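import Pool.Agent.Lib.MP_9177b7_ag.B.St

/-!
Every ideal class contains an ideal with cyclic quotient and norm prime to a given integer.
-/

open NumberField Polynomial IntermediateField
open scoped nonZeroDivisors

noncomputable section

namespace Pool.Agent.Lib.MP_9177b7_ag.B

namespace Cyc

variable {M : Type} [Field M] [NumberField M]

/-- Every residue class modulo a nonzero integer contains a primitive element. -/
lemma prim (β₀ : 𝓞 M) (m : ℕ) (hm : m ≠ 0) :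
    ∃ y : 𝓞 M, ℚ⟮((β₀ + m * y : 𝓞 M) : M)⟯ = ⊤ := by
  obtain ⟨θ, hθ⟩ := Field.exists_primitive_element ℚ M
  have hfin := Field.finite_intermediateField_of_exists_primitive_element ℚ M ⟨θ, hθ⟩
  have halg : IsAlgebraic ℤ θ :=
    (IsFractionRing.isAlgebraic_iff ℤ ℚ M).2 (Algebra.IsAlgebraic.isAlgebraic θ)
  obtain ⟨x, hx, hint⟩ := halg.exists_integral_multiple
  let θ' : 𝓞 M := ⟨x • θ, hint⟩
  have hθ' : (θ' : M) = x * θ := by
    change x • θ = _
    rw [zsmul_eq_mul]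
  obtain ⟨r, s, hrs, h⟩ := Finite.exists_ne_map_eq_of_infinite
    (fun r : ℕ => ℚ⟮((β₀ + m * (r * θ') : 𝓞 M) : M)⟯)
  refine ⟨r * θ', ?_⟩
  rw [eq_top_iff, ← hθ, adjoin_simple_le_iff]
  have h1 := mem_adjoin_simple_self ℚ ((β₀ + m * (r * θ') : 𝓞 M) : M)
  have h2 := mem_adjoin_simple_self ℚ ((β₀ + m * (s * θ') : 𝓞 M) : M)
  rw [← h] at h2
  set E := ℚ⟮((β₀ + m * (r * θ') : 𝓞 M) : M)⟯
  have h3 := E.sub_mem h1 h2
  have hc : ((m : M) * ((r : M) - s) * x) ∈ E :=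
    E.mul_mem (E.mul_mem (E.natCast_mem m) (E.sub_mem (E.natCast_mem r) (E.natCast_mem s)))
      (E.intCast_mem x)
  have hc0 : ((m : M) * ((r : M) - s) * x) ≠ 0 := by
    refine mul_ne_zero (mul_ne_zero (by exact_mod_cast hm) (sub_ne_zero.2 ?_)) (by exact_mod_cast hx)
    exact_mod_cast hrs
  have h4 := E.div_mem h3 hc
  convert h4 using 1
  rw [eq_div_iff hc0]
  simp only [RingOfIntegers.coe_eq_algebraMap, map_add, map_mul, map_natCast] at hθ' ⊢
  rw [hθ']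
  ring

/-- A nonzero integer multiplies the ring of integers into the order of a primitive element. -/
lemma cond (β : 𝓞 M) (hβ : ℚ⟮(β : M)⟯ = ⊤) :
    ∃ I : ℤ, I ≠ 0 ∧ ∀ x : 𝓞 M, ∃ g : ℤ[X], (I : 𝓞 M) * x = aeval β g := by
  have hint : IsIntegral ℚ (β : M) := Algebra.IsIntegral.isIntegral _
  let B : PowerBasis ℚ M := (adjoin.powerBasis hint).map ((equivOfEq hβ).trans topEquiv)
  have hg : B.gen = β := by simp [B]
  have hB : IsIntegral ℤ B.gen := hg ▸ β.isIntegral_coe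
  have hd : IsIntegral ℤ (Algebra.discr ℚ B.basis) :=
    Algebra.discr_isIntegral ℚ fun i => by
      rw [B.basis_eq_pow]
      exact hB.pow _
  obtain ⟨I, hI⟩ := IsIntegrallyClosed.isIntegral_iff.1 hd
  refine ⟨I, ?_, fun x => ?_⟩
  · rintro rfl
    exact Algebra.discr_not_zero_of_basis ℚ B.basis (by simpa using hI.symm)
  · have h := Algebra.discr_mul_isIntegral_mem_adjoin ℚ hB x.isIntegral_coe
    rw [Algebra.adjoin_singleton_eq_range_aeval, hg, ← hI] at h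
    obtain ⟨g, hg'⟩ := h
    refine ⟨g, RingOfIntegers.ext ?_⟩
    have h1 : ((aeval β g : 𝓞 M) : M) = aeval (β : M) g := by
      rw [RingOfIntegers.coe_eq_algebraMap, RingOfIntegers.coe_eq_algebraMap,
        aeval_algebraMap_apply]
    rw [h1]
    change _ = (aeval (β : M)).toRingHom g
    rw [hg']
    simp [Algebra.smul_def]

/-- A monic polynomial of small degree has a value prime to `q` on the multiples of `m`. -/
lemma nonroot (g : ℤ[X]) (hg : g.Monic) (q m : ℕ) (hq : q.Prime) (hd : g.natDegree < q)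
    (hm : ¬ q ∣ m) : ∃ t : ℕ, ¬ (q : ℤ) ∣ g.eval (-(t * m : ℤ)) := by
  classical
  have := Fact.mk hq
  by_contra! h
  let g' : (ZMod q)[X] := g.map (Int.castRingHom _)
  have hg' : g'.Monic := hg.map _
  have hm' : (m : ZMod q) ≠ 0 := by rwa [Ne, ZMod.natCast_eq_zero_iff]
  have hall : ∀ z : ZMod q, g'.eval z = 0 := fun z => by
    have h1 := (ZMod.intCast_zmod_eq_zero_iff_dvd _ q).2 (h (-(z / m)).val)
    have h2 : z = Int.castRingHom (ZMod q) (-(((-(z / m)).val : ℕ) * m : ℤ)) := by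
      simp only [eq_intCast, Int.cast_neg, Int.cast_mul, Int.cast_natCast, ZMod.natCast_zmod_val]
      field_simp
    rw [h2, eval_map, eval₂_at_apply]
    exact h1
  have hz : g' = 0 := by
    refine eq_zero_of_natDegree_lt_card_of_eval_eq_zero g' Function.injective_id hall ?_
    rw [ZMod.card, hg.natDegree_map]
    exact hd
  exact hg'.ne_zero hz

/-- The same for finitely many primes at once. -/
lemma nonroot' (g : ℤ[X]) (hg : g.Monic) (m : ℕ) (S : Finset ℕ)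
    (hS : ∀ q ∈ S, q.Prime ∧ g.natDegree < q ∧ ¬ q ∣ m) :
    ∃ t : ℕ, ∀ q ∈ S, ¬ (q : ℤ) ∣ g.eval (-(t * m : ℤ)) := by
  classical
  have h : ∀ q : ℕ, ∃ t : ℕ, q ∈ S → ¬ (q : ℤ) ∣ g.eval (-(t * m : ℤ)) := fun q => by
    by_cases hq : q ∈ S
    · obtain ⟨t, ht⟩ := nonroot g hg q m (hS q hq).1 (hS q hq).2.1 (hS q hq).2.2
      exact ⟨t, fun _ => ht⟩
    · exact ⟨0, fun h => absurd h hq⟩
  choose a ha using h
  obtain ⟨t, ht⟩ := Nat.chineseRemainderOfFinset a id S (fun q hq => (hS q hq).1.ne_zero)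
    (fun q hq q' hq' hne => (Nat.coprime_primes (hS q hq).1 (hS q' hq').1).2 hne)
  refine ⟨t, fun q hq hdv => ha q hq ?_⟩
  have h1 : (q : ℤ) ∣ (a q : ℤ) - t := (ht q hq).dvd
  have h2 := sub_dvd_eval_sub (-(a q * m : ℤ)) (-(t * m : ℤ)) g
  have h3 : (q : ℤ) ∣ -(a q * m : ℤ) - -(t * m : ℤ) := by
    rw [show -(a q * m : ℤ) - -(t * m : ℤ) = ((a q : ℤ) - t) * (-m) by ring]
    exact h1.mul_right _
  simpa using (h3.trans h2).add hdv

/-- A prime dividing the norm of an ideal lies in a maximal ideal containing it. -/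
lemma max_of_dvd (b : Ideal (𝓞 M)) (q : ℕ) (hq : q.Prime) (h : q ∣ Ideal.absNorm b) :
    ∃ P : Ideal (𝓞 M), P ≠ ⊤ ∧ b ≤ P ∧ (q : 𝓞 M) ∈ P := by
  obtain ⟨P, hP, h1, h2⟩ := Ideal.exists_isMaximal_dvd_of_dvd_absNorm' hq b h
  refine ⟨P, hP.ne_top, Ideal.le_of_dvd h2, ?_⟩
  have : (q : ℤ) ∈ P.under ℤ := h1 ▸ Ideal.mem_span_singleton_self _
  simpa [Ideal.under, Ideal.mem_comap] using this

end Cyc

open Cyc in
theorem cyc : CycStmt := by
  classical
  intro M _ _ f c hf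
  obtain ⟨b₀, hb₀⟩ := ClassGroup.mk0_surjective c⁻¹
  have hb0 : b₀.1 ≠ 0 := nonZeroDivisors.coe_ne_zero b₀
  set d := Module.finrank ℤ (𝓞 M) with hd
  set N := Ideal.absNorm b₀.1 with hN
  have hN0 : N ≠ 0 := by rwa [hN, Ne, Ideal.absNorm_eq_zero_iff]
  set f₁ : ℕ := 2 * (f * (N * d.factorial)) with hf₁
  have hf0 : f₁ ≠ 0 := by
    have := d.factorial_ne_zero
    positivity
  have hsp : Ideal.span {(f₁ : 𝓞 M)} ≠ 0 := by
    rw [Ne, Ideal.zero_eq_bot, Ideal.span_singleton_eq_bot]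
    exact_mod_cast hf0
  obtain ⟨β₀, hβ₀⟩ := IsDedekindDomain.exists_sup_span_eq
    (I := b₀.1 * Ideal.span {(f₁ : 𝓞 M)}) (J := b₀.1) Ideal.mul_le_left (mul_ne_zero hb0 hsp)
  have hmo : ((N * f₁ : ℕ) : 𝓞 M) ∈ b₀.1 * Ideal.span {(f₁ : 𝓞 M)} := by
    rw [Nat.cast_mul N f₁]
    exact Ideal.mul_mem_mul (Ideal.absNorm_mem b₀.1) (Ideal.mem_span_singleton_self _)
  obtain ⟨y, hy⟩ := prim β₀ (N * f₁) (mul_ne_zero hN0 hf0)
  set β : 𝓞 M := β₀ + (N * f₁ : ℕ) * y with hβ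
  obtain ⟨I, hI0, hI⟩ := cond β hy
  have hβi : IsIntegral ℤ β := Algebra.IsIntegral.isIntegral _
  obtain ⟨t, ht⟩ := nonroot' (minpoly ℤ β) (minpoly.monic hβi) (N * f₁)
    (I.natAbs.primeFactors.filter fun q => ¬ q ∣ f₁) (fun q hq => by
      obtain ⟨h1, h2⟩ := Finset.mem_filter.1 hq
      have hp := Nat.prime_of_mem_primeFactors h1
      refine ⟨hp, lt_of_le_of_lt (minpoly.natDegree_le (A := ℤ) (x := β)) ?_, fun h => ?_⟩
      · by_contra! h
        exact h2 (((hp.dvd_factorial.2 h).mul_left _).mul_left _ |>.mul_left _)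
      · rcases (Nat.Prime.dvd_mul hp).1 h with h | h
        · exact h2 (((h.mul_right _).mul_left _).mul_left _)
        · exact h2 h)
  set α : 𝓞 M := β + t * (N * f₁ : ℕ) with hα
  have hsup : b₀.1 * Ideal.span {(f₁ : 𝓞 M)} ⊔ Ideal.span {α} = b₀.1 := by
    have hdiff : α - β₀ ∈ b₀.1 * Ideal.span {(f₁ : 𝓞 M)} := by
      rw [show α - β₀ = (y + t) * (N * f₁ : ℕ) by rw [hα, hβ]; ring]
      exact Ideal.mul_mem_left _ _ hmo
    refine Eq.trans (le_antisymm (sup_le le_sup_left ?_) (sup_le le_sup_left ?_)) hβ₀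
    · rw [Ideal.span_singleton_le_iff_mem, show α = (α - β₀) + β₀ by ring]
      exact add_mem (Ideal.mem_sup_left hdiff)
        (Ideal.mem_sup_right (Ideal.mem_span_singleton_self _))
    · rw [Ideal.span_singleton_le_iff_mem, show β₀ = α - (α - β₀) by ring]
      exact sub_mem (Ideal.mem_sup_right (Ideal.mem_span_singleton_self _))
        (Ideal.mem_sup_left hdiff)
  obtain ⟨b, hb⟩ : b₀.1 ∣ Ideal.span {α} := Ideal.dvd_iff_le.2 (le_sup_right.trans hsup.le)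
  have hcop : Ideal.span {(f₁ : 𝓞 M)} ⊔ b = ⊤ := by
    apply mul_left_cancel₀ hb0
    rw [Ideal.mul_sup, ← hb, hsup, Ideal.mul_top]
  have hαb : α ∈ b := by
    have : Ideal.span {α} ≤ b := hb ▸ Ideal.mul_le_right
    exact this (Ideal.mem_span_singleton_self _)
  have hf₁b : ∀ q : ℕ, q.Prime → q ∣ Ideal.absNorm b → ¬ q ∣ f₁ := fun q hq h1 h2 => by
    obtain ⟨P, hP, h3, h4⟩ := max_of_dvd b q hq h1
    refine hP (top_le_iff.1 (hcop.ge.trans (sup_le ?_ h3)))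
    obtain ⟨k, hk⟩ := h2
    rw [Ideal.span_singleton_le_iff_mem, hk, Nat.cast_mul]
    exact Ideal.mul_mem_right _ _ h4
  have hbne : b ≠ 0 := by
    rintro rfl
    exact hf₁b 2 Nat.prime_two (by simp) (dvd_mul_right _ _)
  have hev : ∀ g : ℤ[X], aeval β g - (g.eval (-(t * (N * f₁ : ℕ) : ℤ)) : ℤ) ∈ b := fun g => by
    have h1 := aeval_algebraMap_apply_eq_algebraMap_eval (A := 𝓞 M) (-(t * (N * f₁ : ℕ) : ℤ)) g
    have h2 := sub_dvd_eval_sub β (algebraMap ℤ (𝓞 M) (-(t * (N * f₁ : ℕ) : ℤ)))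
      (g.map (algebraMap ℤ (𝓞 M)))
    rw [eval_map_algebraMap, eval_map_algebraMap, h1] at h2
    have h3 : β - algebraMap ℤ (𝓞 M) (-(t * (N * f₁ : ℕ) : ℤ)) = α := by
      rw [hα]
      simp
    rw [h3] at h2
    exact Ideal.mem_of_dvd _ h2 hαb
  have hIb : (Ideal.absNorm b).Coprime I.natAbs := by
    refine Nat.coprime_of_dvd fun q hq h1 h2 => ?_
    obtain ⟨P, hP, h3, h4⟩ := max_of_dvd b q hq h1
    have h5 := ht q (Finset.mem_filter.2 ⟨Nat.mem_primeFactors.2 ⟨hq, h2, by simpa using hI0⟩,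
      hf₁b q hq h1⟩)
    have h6 := h3 (hev (minpoly ℤ β))
    rw [minpoly.aeval, zero_sub, neg_mem_iff] at h6
    obtain ⟨u, v, huv⟩ := ((Nat.prime_iff_prime_int.1 hq).coprime_iff_not_dvd).2 h5
    refine hP ((Ideal.eq_top_iff_one _).2 ?_)
    have h7 := congrArg (Int.cast : ℤ → 𝓞 M) huv
    push_cast at h7 h6
    rw [← h7]
    exact add_mem (Ideal.mul_mem_left _ _ h4) (Ideal.mul_mem_left _ _ h6)
  refine ⟨⟨b, mem_nonZeroDivisors_of_ne_zero hbne⟩, ?_, ?_, fun x => ?_⟩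
  · rw [← inv_inv c, ← hb₀, ClassGroup.mk0_eq_mk0_inv_iff]
    refine ⟨α, ?_, by rw [hb, mul_comm]⟩
    intro h0
    rw [h0, Ideal.span_singleton_zero] at hb
    exact mul_ne_zero hb0 hbne hb.symm
  · exact Nat.coprime_of_dvd fun q hq h1 h2 => hf₁b q hq h1 ((h2.mul_right _).mul_left _)
  · obtain ⟨u, v, huv⟩ : IsCoprime (Ideal.absNorm b : ℤ) I := by
      rw [Int.isCoprime_iff_gcd_eq_one]
      simpa [Int.gcd] using hIb
    obtain ⟨g, hg⟩ := hI x
    refine ⟨v * g.eval (-(t * (N * f₁ : ℕ) : ℤ)), ?_⟩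
    have h7 := congrArg (Int.cast : ℤ → 𝓞 M) huv
    rw [Int.cast_add, Int.cast_mul, Int.cast_mul, Int.cast_one, Int.cast_natCast] at h7
    have h8 : x - ((v * g.eval (-(t * (N * f₁ : ℕ) : ℤ)) : ℤ) : 𝓞 M) =
        u * x * (Ideal.absNorm b : 𝓞 M) +
          v * (aeval β g - (g.eval (-(t * (N * f₁ : ℕ) : ℤ)) : ℤ)) := by
      rw [← hg, Int.cast_mul]
      linear_combination (-x) * h7
    change _ ∈ b
    rw [h8]
    exact add_mem (Ideal.mul_mem_left _ _ (Ideal.absNorm_mem b)) (Ideal.mul_mem_left _ _ (hev g))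

end Pool.Agent.Lib.MP_9177b7_ag.B
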