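import Pool.Agent.Lib.MP_9177b7_ag.B.StS

/-!
Counting the points of a slice of a lattice in a full system of residues.
-/

noncomputable section

namespace Pool.Agent.Lib.MP_9177b7_ag.B.Den

open Classical in
lemma fib {Q : Type} [AddCommGroup Q] {d M : ℕ} (hM : 0 < M) (f : (Fin d → ℤ) →+ Q)
    (hf : ∀ s, f ((M : ℤ) • s) = 0) (y : Q) (hy : y ∈ f.range) :
    ((boxN 0 fun _ : Fin d => M).filter fun t => f t = y).card * Nat.card f.range = M ^ d := by
  have : NeZero M := ⟨hM.ne'⟩
  have hc : ∀ t t' : Fin d → ℤ, (∀ i, (t i : ZMod M) = t' i) → f t = f t' := by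
    intro t t' h
    have : ∀ i, ∃ s, t' i - t i = M * s := fun i => (ZMod.intCast_eq_intCast_iff_dvd_sub _ _ _).1 (h i)
    choose s hs using this
    have e : t' = t + (M : ℤ) • s := by
      funext i
      have := hs i
      simp only [Pi.add_apply, Pi.smul_apply, smul_eq_mul]
      linarith
    rw [e, map_add, hf, add_zero]
  let g : (Fin d → ZMod M) →+ Q := AddMonoidHom.mk' (fun z => f fun i => ((z i).val : ℤ)) (by
    intro a b
    rw [← map_add]
    apply hc
    intro i
    simp)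
  have hg : ∀ t : Fin d → ℤ, g (fun i => (t i : ZMod M)) = f t := fun t => hc _ _ fun i => by simp
  have hr : g.range = f.range := by
    ext x
    constructor
    · rintro ⟨z, rfl⟩
      exact ⟨_, rfl⟩
    · rintro ⟨t, rfl⟩
      exact ⟨_, hg t⟩
  have h1 : ((boxN 0 fun _ : Fin d => M).filter fun t => f t = y).card =
      (Finset.univ.filter fun z => g z = y).card := by
    refine Finset.card_nbij' (fun t i => (t i : ZMod M)) (fun z i => ((z i).val : ℤ)) ?_ ?_ ?_ ?_
    · intro t ht
      simp only [Finset.coe_filter, Set.mem_ofPred_eq, Finset.mem_univ, true_and] at ht ⊢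
      rw [hg, ht.2]
    · intro z hz
      simp only [Finset.coe_filter, Set.mem_ofPred_eq, Finset.mem_univ, true_and] at hz ⊢
      refine ⟨?_, hz⟩
      simp only [boxN, Fintype.mem_piFinset, Finset.mem_Ico, Pi.zero_apply, zero_add]
      exact fun i => ⟨Int.natCast_nonneg _, by exact_mod_cast ZMod.val_lt (z i)⟩
    · intro t ht
      simp only [Finset.coe_filter, Set.mem_ofPred_eq, boxN, Fintype.mem_piFinset, Finset.mem_Ico,
        Pi.zero_apply, zero_add] at ht
      funext i
      simp only [ZMod.val_intCast]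
      exact Int.emod_eq_of_lt (ht.1 i).1 (ht.1 i).2
    · intro z _
      funext i
      simp
  have h2 : (Finset.univ.filter fun z => g z = y).card = Nat.card g.ker := by
    have hy' : y ∈ Set.range g := by
      rw [← hr] at hy
      exact hy
    rw [AddMonoidHom.card_fiber_eq_of_mem_range g hy' ⟨0, map_zero g⟩, Nat.card_eq_fintype_card,
      Fintype.card_subtype]
    simp [AddMonoidHom.mem_ker]
  rw [h1, h2, ← hr, ← AddSubgroup.index_ker, AddSubgroup.card_mul_index]
  simp

open Classical in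
lemma slice0 {Q : Type} [AddCommGroup Q] {d M : ℕ} (hM : 0 < M) (p : (Fin (d + 1) → ℤ) →+ Q)
    (hp : Function.Surjective p) (hΛ : ∀ s, p ((M : ℤ) • s) = 0) (hi : Nat.card Q ≠ 0) :
    ∃ e : ℕ, 0 < e ∧ (∀ v, p v = 0 → (e : ℤ) ∣ v 0) ∧ ∀ m : ℤ,
      denN M (fun t => if p (Fin.cons m t) = 0 then 1 else 0) ≤ e / Nat.card Q ∧
      (e = 1 → denN M (fun t => if p (Fin.cons m t) = 0 then 1 else 0) = 1 / Nat.card Q) := by
  let ι : (Fin d → ℤ) →+ (Fin (d + 1) → ℤ) := AddMonoidHom.mk' (fun t => Fin.cons 0 t) (by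
    intro a b
    funext i
    refine Fin.cases ?_ (fun j => ?_) i <;> simp)
  let f := p.comp ι
  let g : Q := p (Pi.single 0 1)
  have hd : ∀ (m : ℤ) (t : Fin d → ℤ), p (Fin.cons m t) = m • g + f t := by
    intro m t
    have : (Fin.cons m t : Fin (d + 1) → ℤ) = m • Pi.single 0 1 + ι t := by
      funext i
      refine Fin.cases ?_ (fun j => ?_) i <;> simp [ι]
    rw [this, map_add, map_zsmul]
    rfl
  have hm : ∀ (m : ℤ) (t : Fin d → ℤ), p (Fin.cons m t) = 0 ↔ f t = -(m • g) := by
    intro m t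
    rw [hd, add_comm (m • g), add_eq_zero_iff_eq_neg]
  have hf : ∀ s, f ((M : ℤ) • s) = 0 := by
    intro s
    change p (ι _) = 0
    rw [map_zsmul, hΛ]
  have hc : Nat.card f.range * f.range.index = Nat.card Q := AddSubgroup.card_mul_index _
  have he : f.range.index ≠ 0 := fun h => hi (by rw [← hc, h, mul_zero])
  have hH : Nat.card f.range ≠ 0 := fun h => hi (by rw [← hc, h, zero_mul])
  have hden : ∀ m : ℤ, -(m • g) ∈ f.range →
      denN M (fun t => if p (Fin.cons m t) = 0 then 1 else 0) = f.range.index / Nat.card Q := by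
    intro m h
    have := fib hM f hf _ h
    simp only [denN, hm, Finset.sum_boole]
    rw [← hc, div_eq_div_iff (by positivity) (by exact_mod_cast mul_ne_zero hH he), Nat.cast_mul,
      ← mul_assoc, mul_comm _ (_ ^ d : ℝ)]
    congr 1
    exact_mod_cast this
  refine ⟨f.range.index, Nat.pos_of_ne_zero he, fun v hv => ?_, fun m => ⟨?_, fun h1 => ?_⟩⟩
  · have ho : addOrderOf (QuotientAddGroup.mk' f.range g) = f.range.index := by
      apply addOrderOf_eq_card_of_forall_mem_zmultiples
      intro x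
      obtain ⟨y, rfl⟩ := QuotientAddGroup.mk'_surjective _ x
      obtain ⟨w, rfl⟩ := hp y
      refine ⟨w 0, ?_⟩
      conv_rhs => rw [← Fin.cons_self_tail w, hd, map_add, map_zsmul]
      have : QuotientAddGroup.mk' f.range (f (Fin.tail w)) = 0 :=
        (QuotientAddGroup.eq_zero_iff _).2 ⟨_, rfl⟩
      rw [this, add_zero]
    rw [← ho, addOrderOf_dvd_iff_zsmul_eq_zero, ← map_zsmul, QuotientAddGroup.mk'_apply,
      QuotientAddGroup.eq_zero_iff, ← neg_mem_iff]
    rw [← Fin.cons_self_tail v, hm] at hv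
    exact ⟨_, hv⟩
  · by_cases h : -(m • g) ∈ f.range
    · exact (hden m h).le
    · have : ∀ t : Fin d → ℤ, ¬ p (Fin.cons m t) = 0 := fun t ht => h ⟨t, (hm m t).1 ht⟩
      simp only [denN, this, if_false, Finset.sum_const_zero, zero_div]
      positivity
  · rw [hden m (by rw [AddSubgroup.index_eq_one.1 h1]; trivial), h1, Nat.cast_one]

open Classical in
lemma slice {d M : ℕ} (hM : 0 < M) (Λ : AddSubgroup (Fin (d + 1) → ℤ))
    (hΛ : ∀ s, (M : ℤ) • s ∈ Λ) (hi : Λ.index ≠ 0) :
    ∃ e : ℕ, 0 < e ∧ (∀ v ∈ Λ, (e : ℤ) ∣ v 0) ∧ ∀ m : ℤ,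
      denN M (fun t => if Fin.cons m t ∈ Λ then 1 else 0) ≤ e / Λ.index ∧
      (e = 1 → denN M (fun t => if Fin.cons m t ∈ Λ then 1 else 0) = 1 / Λ.index) := by
  have h0 : ∀ v, QuotientAddGroup.mk' Λ v = 0 ↔ v ∈ Λ := fun v => QuotientAddGroup.eq_zero_iff v
  have := slice0 hM (QuotientAddGroup.mk' Λ) (QuotientAddGroup.mk'_surjective Λ)
    (fun s => (h0 _).2 (hΛ s)) hi
  simp only [h0] at this
  exact this

end Pool.Agent.Lib.MP_9177b7_ag.B.Den
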