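import Pool.Agent.Lib.MP_9177b7_ag.B.St
import Pool.Agent.Lib.MP_9177b7_ag.B.Den1

/-!
Densities of divisibility conditions on a slice of the inverse different.
-/

open NumberField Matrix
open scoped nonZeroDivisors

noncomputable section

namespace Pool.Agent.Lib.MP_9177b7_ag.B

namespace Den

variable {F : Type} [Field F] [NumberField F] {d : ℕ} (B : Bas F d)

/-- The inverse different. -/
abbrev Du (F : Type) [Field F] [NumberField F] : FractionalIdeal (𝓞 F)⁰ F :=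
  FractionalIdeal.dual ℤ ℚ (1 : FractionalIdeal (𝓞 F)⁰ F)

/-- The element with given coordinates in the dual basis. -/
def T : (Fin (d + 1) → ℤ) →+ F :=
  AddMonoidHom.mk' (fun v => ∑ a, v a * B.u a) (by
    intro v w
    simp [add_mul, Finset.sum_add_distrib])

lemma T_apply (v : Fin (d + 1) → ℤ) : T B v = ∑ a, v a * B.u a := rfl

lemma tau_eq (m : ℤ) (t : Fin d → ℤ) : B.tau m t = T B (Fin.cons m t) := by
  simp [Bas.tau, T_apply, Fin.sum_univ_succ]

lemma tr_T (v : Fin (d + 1) → ℤ) (b : Fin (d + 1)) :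
    Algebra.trace ℚ F (T B v * B.ω b) = v b := by
  rw [T_apply, Finset.sum_mul, map_sum]
  have : ∀ a, Algebra.trace ℚ F (v a * B.u a * B.ω b) = if a = b then (v a : ℚ) else 0 := by
    intro a
    rw [mul_assoc, ← zsmul_eq_mul, map_zsmul, B.dual]
    split_ifs <;> simp
  simp [this]

lemma tr_Tx (v : Fin (d + 1) → ℤ) (x : 𝓞 F) :
    Algebra.trace ℚ F (T B v * x) = ((∑ c, B.ω.repr x c * v c : ℤ) : ℚ) := by
  conv_lhs => rw [← B.ω.sum_repr x]
  rw [RingOfIntegers.coe_eq_algebraMap, map_sum, Finset.mul_sum, map_sum]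
  push_cast
  refine Finset.sum_congr rfl fun c _ => ?_
  rw [mul_smul_comm, map_zsmul, tr_T, zsmul_eq_mul]

lemma mem_Du {τ : F} : τ ∈ Du F ↔ ∀ x : 𝓞 F, ∃ z : ℤ, Algebra.trace ℚ F (τ * x) = z := by
  rw [Du, FractionalIdeal.mem_dual (I := (1 : FractionalIdeal (𝓞 F)⁰ F)) one_ne_zero]
  constructor
  · intro h x
    obtain ⟨z, hz⟩ := h x ((FractionalIdeal.mem_one_iff _).2 ⟨x, rfl⟩)
    exact ⟨z, by simpa using hz.symm⟩
  · intro h a ha
    obtain ⟨x, rfl⟩ := (FractionalIdeal.mem_one_iff _).1 ha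
    obtain ⟨z, hz⟩ := h x
    exact ⟨z, by simpa using hz.symm⟩

lemma T_mem (v : Fin (d + 1) → ℤ) : T B v ∈ Du F := mem_Du.2 fun x => ⟨_, tr_Tx B v x⟩

lemma eq_zero {τ : F} (h : ∀ b, Algebra.trace ℚ F (τ * B.ω b) = 0) : τ = 0 := by
  apply (traceForm_nondegenerate ℚ F).1
  intro y
  have : Algebra.traceForm ℚ F τ = 0 := by
    apply (B.ω.localizationLocalization ℚ ℤ⁰ F).ext
    intro b
    simpa using h b
  rw [this]
  rfl

lemma exists_T {τ : F} (h : τ ∈ Du F) : ∃ v, τ = T B v := by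
  choose z hz using mem_Du.1 h
  refine ⟨fun b => z (B.ω b), sub_eq_zero.1 (eq_zero B fun b => ?_)⟩
  rw [sub_mul, map_sub, hz, tr_T, sub_self]

lemma Du_ne : Du F ≠ 0 := FractionalIdeal.dual_ne_zero ℤ ℚ one_ne_zero

lemma coe_nId {τ : F} (h : τ ∈ Du F) :
    ((nId τ : Ideal (𝓞 F)) : FractionalIdeal (𝓞 F)⁰ F) =
      FractionalIdeal.spanSingleton (𝓞 F)⁰ τ * (Du F)⁻¹ := by
  have h1 : FractionalIdeal.spanSingleton (𝓞 F)⁰ τ * (Du F)⁻¹ ≤ 1 := by
    rw [← mul_inv_cancel₀ (Du_ne (F := F))]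
    exact mul_le_mul_left (FractionalIdeal.spanSingleton_le_iff_mem.2 h) _
  ext x
  rw [FractionalIdeal.mem_coeIdeal]
  constructor
  · rintro ⟨y, hy, rfl⟩
    exact hy
  · intro hx
    obtain ⟨y, rfl⟩ := (FractionalIdeal.mem_one_iff _).1 (h1 hx)
    exact ⟨y, hx, rfl⟩

lemma NN_eq {τ : F} (h : τ ∈ Du F) : (NN τ : ℚ) = |Algebra.norm ℚ τ| * |discr F| := by
  rw [NN, ← FractionalIdeal.coeIdeal_absNorm (K := F), coe_nId h, map_mul,
    FractionalIdeal.absNorm_span_singleton, ← coeIdeal_differentIdeal ℤ ℚ F (𝓞 F),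
    FractionalIdeal.coeIdeal_absNorm, absNorm_differentIdeal F, Nat.cast_natAbs]

/-- The integral matrix of the form `tr (τ x y)`. -/
def mat (v : Fin (d + 1) → ℤ) : Matrix (Fin (d + 1)) (Fin (d + 1)) ℤ :=
  Matrix.of fun a b => ∑ c, B.ω.repr (B.ω a * B.ω b) c * v c

lemma det_mat (v : Fin (d + 1) → ℤ) :
    ((mat B v).det : ℚ) = Algebra.norm ℚ (T B v) * discr F := by
  let b := B.ω.localizationLocalization ℚ ℤ⁰ F
  have hb : ∀ i, b i = (B.ω i : F) := fun i => by simp [b]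
  have h1 : (discr F : ℚ) = (Algebra.traceMatrix ℚ b).det := by
    rw [← NumberField.discr_eq_discr F B.ω, ← Algebra.discr_def,
      Algebra.discr_localizationLocalization ℤ ℤ⁰ F]
    simp
  rw [h1, Algebra.norm_eq_matrix_det b, mul_comm, ← Matrix.det_mul, ← eq_intCast (Int.castRingHom ℚ),
    RingHom.map_det]
  congr 1
  ext i j
  rw [RingHom.mapMatrix_apply, Matrix.map_apply, mat, Matrix.of_apply, eq_intCast, ← tr_Tx,
    Matrix.mul_apply]
  have h2 : T B v * ((B.ω i * B.ω j : 𝓞 F) : F) = b i * (T B v * b j) := by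
    rw [hb, hb]
    push_cast
    ring
  rw [h2]
  conv_lhs => rw [← b.sum_repr (T B v * b j), Finset.mul_sum, map_sum]
  refine Finset.sum_congr rfl fun c _ => ?_
  rw [Algebra.leftMulMatrix_eq_repr_mul, mul_smul_comm, map_smul, smul_eq_mul, mul_comm,
    Algebra.traceMatrix_apply, Algebra.traceForm_apply]

lemma NN_T (v : Fin (d + 1) → ℤ) : NN (T B v) = (mat B v).det.natAbs := by
  have := NN_eq (T_mem B v)
  rw [Int.cast_abs, ← abs_mul, ← det_mat, ← Int.cast_abs, ← Nat.cast_natAbs] at this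
  exact_mod_cast this

lemma dvd_NN {n : ℕ} {v w : Fin (d + 1) → ℤ} (h : ∀ i, (n : ℤ) ∣ v i - w i) (hv : n ∣ NN (T B v)) :
    n ∣ NN (T B w) := by
  rw [NN_T, ← Int.natCast_dvd, ← ZMod.intCast_zmod_eq_zero_iff_dvd,
    ← eq_intCast (Int.castRingHom (ZMod n)), RingHom.map_det] at hv ⊢
  rw [← hv]
  congr 1
  ext a b
  have : ∀ i, (w i : ZMod n) = v i := fun i => (ZMod.intCast_eq_intCast_iff_dvd_sub _ _ _).2 (h i)
  simp [mat, this]

lemma nId_le {τ : F} (h : τ ∈ Du F) (E : Ideal (𝓞 F)) :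
    nId τ ≤ E ↔ τ ∈ (E : FractionalIdeal (𝓞 F)⁰ F) * Du F := by
  rw [← FractionalIdeal.coeIdeal_le_coeIdeal F, coe_nId h,
    ← FractionalIdeal.spanSingleton_le_iff_mem]
  constructor
  · intro h1
    have := mul_le_mul_left h1 (Du F)
    rwa [mul_assoc, inv_mul_cancel₀ Du_ne, mul_one] at this
  · intro h1
    have := mul_le_mul_left h1 (Du F)⁻¹
    rwa [mul_assoc, mul_inv_cancel₀ Du_ne, mul_one] at this

/-- The lattice of coordinates of `E 𝔡⁻¹`. -/
def Lam (E : Ideal (𝓞 F)) : AddSubgroup (Fin (d + 1) → ℤ) :=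
  ((E : FractionalIdeal (𝓞 F)⁰ F) * Du F).coeToSubmodule.toAddSubgroup.comap (T B)

lemma mem_Lam (E : Ideal (𝓞 F)) (v : Fin (d + 1) → ℤ) : v ∈ Lam B E ↔ nId (T B v) ≤ E :=
  (nId_le (T_mem B v) E).symm

lemma index_Lam (E : Ideal (𝓞 F)) (hE : E ≠ ⊥) : (Lam B E).index = Ideal.absNorm E := by
  have hr : (T B).range = (Du F).coeToSubmodule.toAddSubgroup := by
    ext x
    constructor
    · rintro ⟨v, rfl⟩
      exact T_mem B v
    · intro hx
      obtain ⟨v, rfl⟩ := exists_T B hx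
      exact ⟨v, rfl⟩
  rw [Lam, AddSubgroup.index_comap, hr]
  have h1 : Ideal.absNorm E = (IsLocalization.coeSubmodule F E).toAddSubgroup.relIndex
      (AddSubgroup.map (algebraMap (𝓞 F) F).toAddMonoidHom ⊤) := by
    refine E.toAddSubgroup.relIndex_top_right.symm.trans ?_
    conv_lhs => rw [← Submodule.comap_map_eq_of_injective (f := Algebra.linearMap (𝓞 F) F)
      (FaithfulSMul.algebraMap_injective (𝓞 F) F) E]
    exact AddSubgroup.relIndex_comap (IsLocalization.coeSubmodule F E).toAddSubgroup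
      (algebraMap (𝓞 F) F).toAddMonoidHom ⊤
  have h2 : AddSubgroup.map (algebraMap (𝓞 F) F).toAddMonoidHom ⊤ =
      (1 : FractionalIdeal (𝓞 F)⁰ F).coeToSubmodule.toAddSubgroup := by
    ext x
    exact Iff.trans (by simp) (FractionalIdeal.mem_one_iff (𝓞 F)⁰).symm
  rw [h1, h2]
  symm
  have := FractionalIdeal.quotientEquiv (R := 𝓞 F) (K := F) 1 E (Du F) (E * Du F)
    (by rw [one_mul, mul_comm]) FractionalIdeal.coeIdeal_le_one
    (by simpa using mul_le_mul_left (FractionalIdeal.coeIdeal_le_one (I := E)) (Du F))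
    (mul_ne_zero (FractionalIdeal.coeIdeal_ne_zero.2 hE) Du_ne) one_ne_zero
  exact Nat.card_congr this.toEquiv

lemma smul_mem_Lam {E : Ideal (𝓞 F)} {M : ℕ} (hM : (M : 𝓞 F) ∈ E) (s : Fin (d + 1) → ℤ) :
    (M : ℤ) • s ∈ Lam B E := by
  change T B _ ∈ (E : FractionalIdeal (𝓞 F)⁰ F) * Du F
  rw [map_zsmul, zsmul_eq_mul]
  refine FractionalIdeal.mul_mem_mul ?_ (T_mem B s)
  exact (FractionalIdeal.mem_coeIdeal _).2 ⟨M, hM, by simp⟩

lemma le_span {E : Ideal (𝓞 F)} {e : ℕ} (h : ∀ v ∈ Lam B E, (e : ℤ) ∣ v 0) :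
    E ≤ Ideal.span {(e : 𝓞 F)} := by
  intro x hx
  have h1 : ∀ a, (e : ℤ) ∣ B.ω.repr x a := by
    intro a
    have h2 : (x : F) * T B (Pi.single a 1) ∈ (E : FractionalIdeal (𝓞 F)⁰ F) * Du F :=
      FractionalIdeal.mul_mem_mul ((FractionalIdeal.mem_coeIdeal _).2 ⟨x, hx, rfl⟩) (T_mem B _)
    have h3 : (x : F) * T B (Pi.single a 1) ∈ Du F := by
      have := mul_le_mul_left (FractionalIdeal.coeIdeal_le_one (P := F) (I := E)) (Du F) h2
      rwa [one_mul] at this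
    obtain ⟨v, hv⟩ := exists_T B h3
    have h4 := tr_T B v 0
    rw [← hv, B.one, mul_comm (x : F)] at h4
    have h5 := tr_Tx B (Pi.single a 1) x
    have h6 : v 0 = B.ω.repr x a := by
      have : (v 0 : ℚ) = B.ω.repr x a := by
        rw [← h4]
        simpa [Pi.single_apply] using h5
      exact_mod_cast this
    rw [← h6]
    apply h
    change T B v ∈ (E : FractionalIdeal (𝓞 F)⁰ F) * Du F
    rwa [← hv]
  rw [← B.ω.sum_repr x]
  refine Ideal.sum_mem _ fun a _ => ?_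
  obtain ⟨k, hk⟩ := h1 a
  rw [hk, mul_smul, zsmul_eq_mul]
  exact Ideal.mul_mem_right _ _ (by simp)

lemma cg_cons {M : ℕ} (m : ℤ) {t t' : Fin d → ℤ} (h : CgN M t t') (i : Fin (d + 1)) :
    (M : ℤ) ∣ (Fin.cons m t : Fin (d + 1) → ℤ) i - (Fin.cons m t' : Fin (d + 1) → ℤ) i := by
  refine Fin.cases ?_ (fun j => ?_) i
  · simp
  · simpa using h j

end Den

open Den in
theorem den : DenStmt := by
  intro F _ _ d B
  refine ⟨fun τ => ⟨fun h => ?_, ?_⟩, fun m t => ⟨?_, fun a => ?_, ?_⟩, ?_, ?_⟩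
  · obtain ⟨v, rfl⟩ := exists_T B h
    exact ⟨v 0, Fin.tail v, by rw [tau_eq, Fin.cons_self_tail]⟩
  · rintro ⟨m, t, rfl⟩
    rw [tau_eq]
    exact T_mem B _
  · have := tr_T B (Fin.cons m t) 0
    rw [B.one] at this
    simpa [tau_eq] using this
  · rw [tau_eq, tr_T, Fin.cons_succ]
  · rw [tau_eq]
    exact NN_eq (T_mem B _)
  · intro q j m t t' _ h
    rw [tau_eq, tau_eq]
    exact dvd_NN B (cg_cons m h)
  · intro E M hM hE
    have hE0 : E ≠ ⊥ := by
      rintro rfl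
      exact hM.ne' (by simpa using hE)
    have hi := index_Lam B E hE0
    have hm : ∀ m t, nId (B.tau m t) ≤ E ↔ Fin.cons m t ∈ Lam B E := fun m t => by
      rw [tau_eq, mem_Lam]
    refine ⟨fun m t t' h ht => ?_, ?_⟩
    · rw [hm] at ht ⊢
      choose s hs using cg_cons m h
      have : (Fin.cons m t' : Fin (d + 1) → ℤ) = Fin.cons m t - (M : ℤ) • s := by
        funext i
        have := hs i
        simp only [Pi.sub_apply, Pi.smul_apply, smul_eq_mul]
        linarith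
      rw [this]
      exact sub_mem ht (smul_mem_Lam B hE s)
    · obtain ⟨e, he, h1, h2⟩ := slice hM (Lam B E) (smul_mem_Lam B hE)
        (by rw [hi]; exact fun h => hE0 (Ideal.absNorm_eq_zero_iff.1 h))
      rw [hi] at h2
      refine ⟨e, he, le_span B h1, fun m => ?_⟩
      classical
      have h3 : (fun t => if nId (B.tau m t) ≤ E then (1 : ℝ) else 0) =
          fun t => if Fin.cons m t ∈ Lam B E then 1 else 0 :=
        funext fun t => if_congr (hm m t) rfl rfl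
      rw [h3]
      exact h2 m

end Pool.Agent.Lib.MP_9177b7_ag.B
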