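import Pool.Agent.Lib.MP_9177b7_ag.B.St

/-!
Strong approximation at `p`.
-/

open NumberField Matrix Filter Topology
open scoped ComplexConjugate

noncomputable section

namespace Pool.Agent.Lib.MP_9177b7_ag.B

namespace DensP

variable {p : ℕ} [hp : Fact p.Prime]

/-- The ring `ℤ[1 / p]` is dense in `ℚ_p`. -/
theorem dense_zp : DenseRange fun q : ℤ × ℕ => (q.1 : ℚ_[p]) / (p : ℚ_[p]) ^ q.2 := by
  have hp0 : (p : ℚ_[p]) ≠ 0 := Nat.cast_ne_zero.2 hp.out.ne_zero
  intro s
  obtain ⟨k, hk⟩ := PadicInt.exists_pow_neg_lt p (ε := (‖s‖ + 1)⁻¹) (by positivity)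
  have h1 : ‖(p : ℚ_[p]) ^ k * s‖ ≤ 1 := by
    rw [norm_mul, Padic.norm_p_pow]
    have h2 : (p : ℝ) ^ (-(k : ℤ)) * ‖s‖ ≤ (‖s‖ + 1)⁻¹ * (‖s‖ + 1) :=
      mul_le_mul hk.le (by linarith) (norm_nonneg _) (by positivity)
    rwa [inv_mul_cancel₀ (by positivity)] at h2
  have hc : Continuous fun z : ℤ_[p] => (z : ℚ_[p]) / (p : ℚ_[p]) ^ k :=
    continuous_subtype_val.div_const _
  have h3 := image_closure_subset_closure_image hc
    (Set.mem_image_of_mem _ (PadicInt.denseRange_intCast (p := p) ⟨_, h1⟩))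
  have h4 : (((⟨_, h1⟩ : ℤ_[p]) : ℚ_[p])) / (p : ℚ_[p]) ^ k = s := by
    change (p : ℚ_[p]) ^ k * s / (p : ℚ_[p]) ^ k = s
    field_simp
  rw [h4] at h3
  refine closure_mono ?_ h3
  rintro _ ⟨_, ⟨m, rfl⟩, rfl⟩
  exact ⟨(m, k), by simp⟩

theorem cj_cj (c : Ctx p) (x : c.K) : c.cj (c.cj x) = x :=
  Subtype.ext (by rw [c.cj_coe, c.cj_coe, Complex.conj_conj])

theorem mem_RK (c : Ctx p) (q : ℤ × ℕ) : (q.1 : c.K) / (p : c.K) ^ q.2 ∈ c.RK := by
  have hp0 : (p : c.K) ≠ 0 := Nat.cast_ne_zero.2 hp.out.ne_zero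
  refine ⟨q.2, ?_⟩
  rw [mul_div_cancel₀ _ (pow_ne_zero _ hp0)]
  simpa using isIntegral_algebraMap (R := ℤ) (A := c.K) (x := q.1)

theorem Ei_map {n : ℕ} {R R' : Type} [CommRing R] [CommRing R'] (f : R →+* R') (a b k : Fin (n + 3))
    (w w' z : R) : (Ei a b k w w' z).map f = Ei a b k (f w) (f w') (f z) := by
  ext i j
  simp only [Ei, Matrix.map_apply, Matrix.add_apply, Matrix.sub_apply, Matrix.one_apply, Matrix.single_apply, map_add, map_sub,
    apply_ite f, map_one, map_zero]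

theorem Ei_mem {n : ℕ} {R : Type} [CommRing R] (A : Subring R) (a b k : Fin (n + 3)) {w w' z : R}
    (h1 : w ∈ A) (h2 : w' ∈ A) (h3 : z ∈ A) (i j : Fin (n + 3)) : Ei a b k w w' z i j ∈ A := by
  simp only [Ei, Matrix.add_apply, Matrix.sub_apply, Matrix.one_apply, Matrix.single_apply]
  refine A.add_mem (A.sub_mem (A.add_mem ?_ ?_) ?_) ?_ <;> split_ifs <;>
    first | exact A.one_mem | exact A.zero_mem | assumption

theorem Ei_cont {n : ℕ} {X : Type} [TopologicalSpace X] (a b k : Fin (n + 3)) {w w' z : X → ℚ_[p]}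
    (h1 : Continuous w) (h2 : Continuous w') (h3 : Continuous z) :
    Continuous fun x => Ei a b k (w x) (w' x) (z x) := by
  refine continuous_matrix fun i j => ?_
  simp only [Ei, Matrix.add_apply, Matrix.sub_apply, Matrix.one_apply, Matrix.single_apply]
  refine ((continuous_const.add ?_).sub ?_).add ?_ <;> split_ifs <;>
    first | exact continuous_const | assumption

end DensP

open DensP

theorem densP (hE : EichStmt) (hG : GenStmt) (hD : DiscStmt) : DensPStmt := by
  intro n p _ c h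
  obtain ⟨-, -, -, h4, -⟩ := hD n p c
  set A : Subgroup (HP n p) := (c.Gp n).map (MonoidHom.fst (HP n p) (SU n)) with hA
  set S : Submonoid (Matrix (Fin (n + 3)) (Fin (n + 3)) ℚ_[p]) :=
    (A.toSubmonoid.map (SpecialLinearGroup.coeMonoidHom)).topologicalClosure with hS
  have hd : c.j c.δ ≠ 0 := (map_ne_zero c.j).2 (by exact_mod_cast c.δ_ne)
  have key : ∀ a b k : Fin (n + 3), Pos a b k → ∀ u : ℚ_[p] × ℚ_[p],
      Ei a b k (2 * (u.1 + u.2 * c.j c.δ)) (2 * (u.1 - u.2 * c.j c.δ))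
        (-2 * (u.1 + u.2 * c.j c.δ) * (u.1 - u.2 * c.j c.δ)) ∈ S := by
    intro a b k hk u
    refine (dense_zp.prodMap dense_zp).induction_on u ?_ ?_
    · exact (Submonoid.isClosed_topologicalClosure _).preimage
        (Ei_cont a b k (by fun_prop) (by fun_prop) (by fun_prop))
    · rintro ⟨q, q'⟩
      set x : c.K := (q.1 : c.K) / (p : c.K) ^ q.2 with hx
      set y : c.K := (q'.1 : c.K) / (p : c.K) ^ q'.2 with hy
      have cx : c.cj x = x := by simp [hx]
      have cy : c.cj y = y := by simp [hy]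
      have hδ : (c.δ : c.K) ∈ c.RK := ⟨0, by simpa using c.δ.isIntegral_coe⟩
      have m1 : x + y * c.δ ∈ c.RK := c.RK.add_mem (mem_RK c q) (c.RK.mul_mem (mem_RK c q') hδ)
      have m2 : x - y * c.δ ∈ c.RK := c.RK.sub_mem (mem_RK c q) (c.RK.mul_mem (mem_RK c q') hδ)
      have two : (2 : c.K) ∈ c.RK := by simpa using natCast_mem c.RK 2
      have e1 : c.cj (2 * (x + y * c.δ)) = 2 * (x - y * c.δ) := by
        rw [map_mul, map_add, map_mul, cx, cy, c.δ_cj, map_ofNat]; ring
      have e2 : c.cj (-2 * (x + y * c.δ) * (x - y * c.δ)) = -2 * (x + y * c.δ) * (x - y * c.δ) := by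
        rw [map_mul, map_mul, map_add, map_sub, map_mul, cx, cy, c.δ_cj, map_neg, map_ofNat]; ring
      obtain ⟨d1, d2, -⟩ := hE n c.K c.cj.toRingHom a b k (2 * (x + y * c.δ))
        (-2 * (x + y * c.δ) * (x - y * c.δ)) hk
      have d3 := d2 (cj_cj c _) (by
        change _ + c.cj _ + _ * c.cj _ = 0
        rw [e1, e2]; ring)
      have e3 : c.cj.toRingHom (2 * (x + y * c.δ)) = 2 * (x - y * c.δ) := e1
      rw [e3] at d3
      obtain ⟨g, hg, g1, -⟩ := h4 (Ei a b k (2 * (x + y * c.δ)) (2 * (x - y * c.δ))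
        (-2 * (x + y * c.δ) * (x - y * c.δ)))
        (Ei_mem _ a b k (c.RK.mul_mem two m1) (c.RK.mul_mem two m2)
          (c.RK.mul_mem (c.RK.mul_mem (c.RK.neg_mem two) m1) m2)) d3 (d1 _)
      refine Submonoid.le_topologicalClosure _ ⟨g.1, ⟨g, hg, rfl⟩, ?_⟩
      change g.1.1 = _
      rw [g1, Ei_map]
      simp [hx, hy, map_ofNat]
  have hT := (hE n ℚ_[p] (RingHom.id _) 0 1 ⟨2, by omega⟩ 0 0 ⟨Or.inl ⟨rfl, rfl⟩, by
    intro e; exact absurd (congrArg Fin.val e) (by simp), by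
    intro e; exact absurd (congrArg Fin.val e) (by simp)⟩).2.2 S fun a b k s hk => by
      have e : s / 4 / c.j c.δ * c.j c.δ = s / 4 := div_mul_cancel₀ _ hd
      constructor
      · have := key a b k hk (s / 4, s / 4 / c.j c.δ)
        dsimp only at this
        rwa [e, sub_self, mul_zero, mul_zero, show 2 * (s / 4 + s / 4) = s by ring] at this
      · have := key a b k hk (s / 4, -(s / 4 / c.j c.δ))
        dsimp only at this
        rwa [neg_mul, e, add_neg_cancel, mul_zero, mul_zero, zero_mul,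
          show 2 * (s / 4 - -(s / 4)) = s by ring] at this
  have hTop : A.topologicalClosure = ⊤ := hG _ _ _ fun a b hab s => by
    have := hT a b s hab
    change _ ∈ closure (A : Set (HP n p))
    have hi : IsInducing fun g : HP n p => g.1 := IsInducing.subtypeVal
    rw [hi.closure_eq_preimage_closure_image]
    exact this
  have hO : IsOpen {g : HP n p | Intg (h * g)} := by
    simp only [Intg, Set.ofPred_forall]
    refine isOpen_iInter_of_finite fun i => isOpen_iInter_of_finite fun j => ?_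
    have hv : Continuous fun g : HP n p => g.1 := continuous_subtype_val
    have hc : Continuous fun g : HP n p => (h * g) i j :=
      (hv.comp (continuous_mul_left h)).matrix_elem i j
    simpa [Set.preimage] using
      (IsUltrametricDist.isOpen_closedBall (0 : ℚ_[p]) one_ne_zero).preimage hc
  have hmem : h⁻¹ ∈ closure (A : Set (HP n p)) := by
    have : h⁻¹ ∈ A.topologicalClosure := hTop ▸ Subgroup.mem_top _
    exact this
  obtain ⟨g, hg1, γ, hγ, rfl⟩ := mem_closure_iff.1 hmem _ hO (by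
    change Intg (h * h⁻¹)
    rw [mul_inv_cancel]
    intro i j
    change ‖(1 : Matrix _ _ ℚ_[p]) i j‖ ≤ 1
    rw [Matrix.one_apply]
    split_ifs <;> simp)
  exact ⟨γ, hγ, hg1⟩

end Pool.Agent.Lib.MP_9177b7_ag.B
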