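import Pool.Agent.Lib.MP_9177b7_ag.B.StA

/-!
The measure classification from its parts.
-/

open MeasureTheory ProbabilityTheory Filter Topology Set
open Matrix.SpecialLinearGroup

noncomputable section

namespace Pool.Agent.Lib.MP_9177b7_ag.B

namespace Dyn

theorem digraph {ι : Type} [Fintype ι] [DecidableEq ι] (R : ι → ι → Prop)
    (out : ∀ I : Finset ι, I.Nonempty → I ≠ Finset.univ → ∃ a ∈ I, ∃ b, b ∉ I ∧ R a b)
    (tr : ∀ a b c, a ≠ c → R a b → R b c → R a c) (a b : ι) (h : a ≠ b) : R a b := by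
  classical
  have : Finset.univ.filter (fun x => x = a ∨ R a x) = Finset.univ := by
    by_contra n
    obtain ⟨x, hx, y, hy, r⟩ := out _ ⟨a, by simp⟩ n
    simp only [Finset.mem_filter, Finset.mem_univ, true_and, not_or] at hx hy
    rcases hx with rfl | hx
    · exact hy.2 r
    · exact hy.2 (tr a x y (Ne.symm hy.1) hx r)
  have hb := this.symm ▸ Finset.mem_univ b
  simp only [Finset.mem_filter, Finset.mem_univ, true_and] at hb
  exact hb.resolve_left h.symm

variable {n p : ℕ} [Fact p.Prime] {a b : Fin (n + 3)}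

theorem compact_Ur (h : a ≠ b) : IsCompact (Ur p h : Set (HP n p)) := by
  have hc : Continuous fun s : ℚ_[p] => (transvection h s : HP n p) := by
    refine Continuous.subtype_mk (continuous_const.add ?_) _
    refine continuous_matrix fun i j => ?_
    simp only [Matrix.single_apply]
    split_ifs <;> fun_prop
  convert (isCompact_closedBall (0 : ℚ_[p]) 1).image hc using 1
  ext u
  simp only [mem_image, mem_closedBall_zero_iff]
  exact ⟨fun ⟨s, hs, e⟩ => ⟨s, hs, e.symm⟩, fun ⟨s, hs, e⟩ => ⟨s, hs, e.symm⟩⟩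

theorem conj (k : Fin (n + 3) → ℤ) (hk : ∑ i, k i = 0) (h : a ≠ b) (s : ℚ_[p]) :
    dgp p k hk * transvection h s * (dgp p k hk)⁻¹ =
      transvection h ((p : ℚ_[p]) ^ (k a - k b) * s) := by
  have hp : (p : ℚ_[p]) ≠ 0 := Nat.cast_ne_zero.2 (Fact.out : p.Prime).ne_zero
  rw [mul_inv_eq_iff_eq_mul]
  ext i j
  simp only [coe_mul, transvection_coe, dgp, Matrix.diagonal_mul, Matrix.mul_diagonal,
    Matrix.add_apply, Matrix.single_apply, Matrix.one_apply]
  split_ifs with h1 h2 h2
  · exact absurd (h2.1.trans (h1.trans h2.2.symm)) h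
  · simp [h1]
  · obtain ⟨rfl, rfl⟩ := h2
    rw [zpow_sub₀ hp]
    have := zpow_ne_zero (k b) hp
    field_simp
    simp
  · simp

theorem not_dirac (h : a ≠ b) {μ : Measure (HP n p)}
    (hμ : ∀ u ∈ Ur p h, μ.map (u * ·) = μ) : μ ≠ Measure.dirac 1 := by
  rintro rfl
  have := hμ (transvection h 1) ⟨1, by simp, rfl⟩
  rw [Measure.map_dirac' (by fun_prop), dirac_eq_dirac_iff, mul_one] at this
  simpa [transvection_coe, h] using congrArg (fun u : HP n p => u a b) this

theorem norm_pow_le (m : ℕ) (s : ℚ_[p]) (hs : ‖s‖ ≤ 1) : ‖(p : ℚ_[p]) ^ m * s‖ ≤ 1 := by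
  rw [norm_mul, norm_pow]
  exact mul_le_one₀ (pow_le_one₀ (norm_nonneg _) (Padic.norm_p_lt_one).le) (norm_nonneg _) hs

/-- The stabiliser of a measure. -/
def stab (S : Sp n p) (ν : Measure S.X) : Subgroup (HP n p) where
  carrier := {g | ν.map (g • ·) = ν}
  one_mem' := by simp
  mul_mem' := by
    intro g g' hg hg'
    have e : ((g * g') • · : S.X → S.X) = (g • ·) ∘ (g' • ·) := funext fun x => mul_smul g g' x
    change ν.map _ = ν at hg hg' ⊢
    rw [e, ← Measure.map_map (continuous_const_smul g).measurable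
      (continuous_const_smul g').measurable, hg', hg]
  inv_mem' := by
    intro g hg
    change ν.map _ = ν at hg ⊢
    conv_lhs => rw [← hg]
    rw [Measure.map_map (continuous_const_smul _).measurable (continuous_const_smul g).measurable]
    convert Measure.map_id using 2
    ext x
    simp

end Dyn

open Dyn in
theorem dyn (hC : CondStmt) (hL : LevStmt) (hE : EKStmt) (hS : SecStmt) (hB : BowStmt)
    (hG : GenStmt) : DynStmt := by
  intro n p _ S ν _ hA hT
  have ex : ∀ (a b : Fin (n + 3)) (h : a ≠ b), ∃ κ, IsCond (Ur p h) ν κ := fun a b h =>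
    (hC (HP n p) S.X ν _ (compact_Ur h)).1
  choose κ hκ using ex
  have L := fun a b h => hL (HP n p) S.X ν _ _ (compact_Ur h) (hκ a b h)
  have out : ∀ I : Finset (Fin (n + 3)), ∀ᵐ x ∂ν, I.Nonempty → I ≠ Finset.univ →
      ¬ ∀ a b h, a ∈ I → b ∉ I → κ a b h x = Measure.dirac 1 := by
    intro I
    by_cases hI : I.Nonempty
    swap
    · exact ae_of_all _ fun _ h => absurd h hI
    by_cases hU : I = Finset.univ
    · exact ae_of_all _ fun _ _ h => absurd hU h
    set Z0 : Set S.X := {x | ∀ a b h, a ∈ I → b ∉ I → κ a b h x = Measure.dirac 1} with hZ0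
    have hm : MeasurableSet Z0 := by
      have : Z0 = ⋂ a, ⋂ b, ⋂ h, ⋂ _ : a ∈ I, ⋂ _ : b ∉ I, {x | κ a b h x = Measure.dirac 1} := by
        ext x
        simp [hZ0]
      rw [this]
      exact .iInter fun a => .iInter fun b => .iInter fun h => .iInter fun _ =>
        .iInter fun _ => (L a b h).1
    let k : Fin (n + 3) → ℤ := fun i =>
      if i ∈ I then ((n + 3 : ℕ) : ℤ) - I.card else -(I.card : ℤ)
    have hk : ∑ i, k i = 0 := by
      have : ∀ i, k i = (if i ∈ I then ((n + 3 : ℕ) : ℤ) else 0) - I.card := fun i => by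
        simp only [k]
        split_ifs <;> ring
      simp only [this, Finset.sum_sub_distrib, Finset.sum_ite_mem, Finset.univ_inter,
        Finset.sum_const, Finset.card_univ, Fintype.card_fin, nsmul_eq_mul]
      ring
    have hinv : ∀ᵐ x ∂ν, ∀ a b h, a ∈ I → b ∉ I →
        (κ a b h (dgp p k hk • x) = Measure.dirac 1 ↔ κ a b h x = Measure.dirac 1) := by
      simp only [ae_all_iff]
      intro a b h ha hb
      refine ((L a b h).2.2.2.2 _ (hA k hk) ?_).1
      rintro _ ⟨s, hs, rfl⟩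
      refine ⟨_, ?_, conj k hk h s⟩
      have : k a - k b = ((n + 3 : ℕ) : ℤ) := by simp [k, ha, hb]
      rw [this, zpow_natCast]
      exact norm_pow_le _ s hs
    have hpre : (dgp p k hk • ·) ⁻¹' Z0 =ᵐ[ν] Z0 := hinv.mono fun x hx => propext
      ⟨fun h a b e ha hb => (hx a b e ha hb).1 (h a b e ha hb),
        fun h a b e ha hb => (hx a b e ha hb).2 (h a b e ha hb)⟩
    have hmap : (ν.restrict Z0).map (dgp p k hk • ·) = ν.restrict Z0 := by
      conv_rhs => rw [← hA k hk]
      rw [Measure.restrict_map (continuous_const_smul _).measurable hm,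
        Measure.restrict_congr_set hpre]
    obtain ⟨Z, hZ, hZ1, hZ2⟩ := hS n p S ν κ I hA hκ
    have hT' : S.Tube (ν.restrict Z0) := by
      obtain ⟨O, hO, C₀, c, hc, h⟩ := hT
      exact ⟨O, hO, C₀, c, hc, fun I h1 h2 k x =>
        (Measure.restrict_le_self _).trans (h I h1 h2 k x)⟩
    have := hB n p S (ν.restrict Z0) I Z k hk hI hU (fun _ => rfl) hmap hT' hZ
      ((ae_restrict_iff' hm).2 hZ1) hZ2
    rw [Measure.restrict_eq_zero] at this
    exact (measure_eq_zero_iff_ae_notMem.1 this).mono fun x hx _ _ => hx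
  have ek : ∀ᵐ x ∂ν, ∀ (a b c : Fin (n + 3)) (hab : a ≠ b) (hbc : b ≠ c) (hac : a ≠ c),
      κ a b hab x ≠ Measure.dirac 1 → κ b c hbc x ≠ Measure.dirac 1 →
      ∀ u ∈ Ur p hac, (κ a c hac x).map (u * ·) = κ a c hac x := by
    refine ae_all_iff.2 fun a => ae_all_iff.2 fun b => ae_all_iff.2 fun c =>
      ae_all_iff.2 fun hab => ae_all_iff.2 fun hbc => ae_all_iff.2 fun hac => ?_
    exact hE n p S ν a b c hab hbc hac _ _ _ hA (hκ _ _ _) (hκ _ _ _) (hκ _ _ _)
  have inv : ∀ (a c : Fin (n + 3)) (h : a ≠ c), ∀ u ∈ Ur p h, u ∈ stab S ν := by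
    intro a c h
    refine (L a c h).2.2.2.1 ?_
    filter_upwards [ae_all_iff.2 out, ek] with x h1 h2
    have D := digraph (fun a b => ∃ e : a ≠ b, κ a b e x ≠ Measure.dirac 1)
      (fun I hI hU => by
        have := h1 I hI hU
        push Not at this
        obtain ⟨a, b, e, ha, hb, r⟩ := this
        exact ⟨a, ha, b, hb, e, r⟩)
      (fun a b c e r r' => ⟨e, not_dirac e (h2 a b c r.1 r'.1 e r.2 r'.2)⟩)
    obtain ⟨b, -, hb⟩ := Finset.exists_mem_notMem_of_card_lt_card
      (s := ({a, c} : Finset (Fin (n + 3)))) (t := Finset.univ)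
      (lt_of_le_of_lt Finset.card_le_two (by simp))
    simp only [Finset.mem_insert, Finset.mem_singleton, not_or] at hb
    obtain ⟨e, r⟩ := D a b (Ne.symm hb.1)
    obtain ⟨e', r'⟩ := D b c hb.2
    exact h2 a b c e e' h r r'
  have top := hG _ _ (stab S ν) fun a b h s => by
    have hp : (p : ℚ_[p]) ≠ 0 := Nat.cast_ne_zero.2 (Fact.out : p.Prime).ne_zero
    obtain ⟨m, hm⟩ : ∃ m : ℕ, ‖(p : ℚ_[p]) ^ m * s‖ ≤ 1 := by
      have : Tendsto (fun m : ℕ => (p : ℚ_[p]) ^ m * s) atTop (𝓝 (0 * s)) :=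
        (tendsto_pow_atTop_nhds_zero_of_norm_lt_one Padic.norm_p_lt_one).mul_const s
      have h0 : ‖(0 : ℚ_[p]) * s‖ < 1 := by simp
      exact (this.norm.eventually (ge_mem_nhds h0)).exists
    let k : Fin (n + 3) → ℤ := Pi.single b (m : ℤ) - Pi.single a (m : ℤ)
    have hk : ∑ i, k i = 0 := by simp [k]
    have hd : dgp p k hk ∈ stab S ν := hA k hk
    have := (stab S ν).mul_mem ((stab S ν).mul_mem hd
      (inv a b h _ ⟨_, norm_pow_le m _ hm, rfl⟩)) ((stab S ν).inv_mem hd)
    rw [conj] at this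
    have e : k a - k b = -(m : ℤ) + -(m : ℤ) := by
      simp [k, h, h.symm]
      ring
    have e' : (p : ℚ_[p]) ^ (k a - k b) * ((p : ℚ_[p]) ^ m * ((p : ℚ_[p]) ^ m * s)) = s := by
      rw [e, zpow_add₀ hp, zpow_neg, zpow_natCast]
      have := pow_ne_zero m hp
      field_simp
    rwa [e'] at this
  intro h
  exact (top.symm ▸ Subgroup.mem_top h : h ∈ stab S ν)

end Pool.Agent.Lib.MP_9177b7_ag.B
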