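import Mathlib
import Pool.Agent.Lib.MP_9177b7_ag.B.StA

/-!
The high entropy step: two nontrivial root conditional measures force invariance of the third.
-/

open MeasureTheory ProbabilityTheory Filter Topology Set
open scoped ENNReal

noncomputable section

namespace Pool.Agent.Lib.MP_9177b7_ag.B

namespace EK

section gen

variable {G X : Type} [Group G] [MeasurableSpace G] [MeasurableSpace X] [MulAction G X]

theorem dis_set [MeasurableSMul₂ G X] {U : Subgroup G} {ν : Measure X} {κ : Kernel X G}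
    (h : IsCond U ν κ) {N : Set X} (hN : MeasurableSet N) :
    ν N = 0 ↔ ∀ᵐ x ∂ν, ∀ᵐ c ∂κ x, c • x ∉ N := by
  have := h.markov
  have m1 : Measurable (N.indicator (1 : X → ℝ≥0∞)) := measurable_one.indicator hN
  have m2 : Measurable fun q : X × G => N.indicator (1 : X → ℝ≥0∞) (q.2 • q.1) :=
    m1.comp (measurable_snd.smul measurable_fst)
  rw [← lintegral_indicator_one hN, ← h.dis _ m1,
    lintegral_eq_zero_iff (Measurable.lintegral_kernel_prod_right' (κ := κ) m2)]
  refine eventually_congr (Eventually.of_forall fun x => ?_)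
  have m3 : Measurable fun c : G => N.indicator (1 : X → ℝ≥0∞) (c • x) :=
    m1.comp (measurable_id.smul_const x)
  simp only [Pi.zero_apply]
  rw [lintegral_eq_zero_iff m3]
  refine eventually_congr (Eventually.of_forall fun c => ?_)
  by_cases e : c • x ∈ N <;> simp [e]

theorem ae_ae [MeasurableSMul₂ G X] {U : Subgroup G} {ν : Measure X} {κ : Kernel X G}
    (h : IsCond U ν κ) {P : X → Prop} (hP : ∀ᵐ x ∂ν, P x) : ∀ᵐ x ∂ν, ∀ᵐ c ∂κ x, P (c • x) := by
  obtain ⟨N, h1, h2, h3⟩ := exists_measurable_superset_of_null hP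
  filter_upwards [(dis_set h h2).1 h3] with x hx
  filter_upwards [hx] with c hc
  by_contra k
  exact hc (h1 k)

theorem side [MeasurableMul G] {Y K : Type} [MeasurableSpace Y] [MeasurableSpace K]
    {U H : Subgroup G} {ν : Measure X} {κ : Kernel X G} (hκ : IsCond U ν κ) (μ : Measure G)
    (x : X) (X' : Set X) (V : Set G) (π : G → G) (co : G → Y) (e : G → K) (t : K → G)
    (Φ : Y × K → Y) (hco : Measurable co) (he : Measurable e) (ht : Measurable t)
    (hΦ : Measurable Φ) (h1 : ∀ u ∈ U, ∀ x ∈ X', u • x ∈ X')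
    (h2 : ∀ w ∈ V, ∀ x ∈ X', w • x ∈ X' → κ (w • x) = κ x)
    (h3 : ∀ c ∈ H, c * (π c)⁻¹ ∈ U) (h4 : ∀ c ∈ H, ∀ c' ∈ H, π c * (π c')⁻¹ ∈ V)
    (h5 : ∀ c ∈ H, ∀ b ∈ U, co (b * π c) = Φ (co c, e b)) (h6 : ∀ b ∈ U, t (e b) = b)
    (hμ : ∀ᵐ c ∂μ, c ∈ H ∧ c • x ∈ X')
    (tw : ∀ f : G → ℝ≥0∞, Measurable f →
      ∫⁻ c, ∫⁻ b, f (b * c) ∂κ (c • x) ∂μ = ∫⁻ c, f c ∂μ)
    {c₀ : G} (k1 : c₀ ∈ H) (k2 : c₀ • x ∈ X') (nd : ∀ g, κ (c₀ • x) ≠ Measure.dirac g) :
    ∃ ω : Measure K, IsProbabilityMeasure ω ∧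
      (∀ f : Y → ℝ≥0∞, Measurable f →
        ∫⁻ y, ∫⁻ r, f (Φ (y, r)) ∂ω ∂μ.map co = ∫⁻ y, f y ∂μ.map co) ∧
      ∀ r, ω ≠ Measure.dirac r := by
  have := hκ.markov
  have a1 : ∀ c ∈ H, c • x ∈ X' → π c • x ∈ X' := fun c hc hx => by
    have := h1 _ (inv_mem (h3 c hc)) _ hx
    rwa [← mul_smul, mul_inv_rev, inv_inv, inv_mul_cancel_right] at this
  have a2 : ∀ c ∈ H, c • x ∈ X' →
      κ (c • x) = (κ (π c₀ • x)).map (· * (c * (π c)⁻¹)⁻¹) := fun c hc hx => by
    have := h2 _ (h4 c hc c₀ k1) _ (a1 _ k1 k2)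
    rw [← mul_smul, inv_mul_cancel_right] at this
    rw [← this (a1 c hc hx), ← hκ.equi _ (h3 c hc), ← mul_smul, inv_mul_cancel_right]
  have a3 : ∀ᵐ b ∂κ (π c₀ • x), b ∈ U := hκ.supp _
  refine ⟨(κ (π c₀ • x)).map e, Measure.isProbabilityMeasure_map he.aemeasurable,
    fun f hf => ?_, fun r hr => ?_⟩
  · have m0 : Measurable fun y => ∫⁻ r, f (Φ (y, r)) ∂(κ (π c₀ • x)).map e :=
      (hf.comp hΦ).lintegral_prod_right'
    rw [lintegral_map m0 hco, lintegral_map hf hco]
    refine Eq.trans (lintegral_congr_ae ?_) (tw _ (hf.comp hco))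
    filter_upwards [hμ] with c hc
    have m1 : Measurable fun r => f (Φ (co c, r)) := hf.comp (hΦ.comp measurable_prodMk_left)
    have m2 : Measurable fun b => f (co (b * c)) := (hf.comp hco).comp (measurable_mul_const c)
    change ∫⁻ r, f (Φ (co c, r)) ∂_ = _
    rw [a2 c hc.1 hc.2, lintegral_map m1 he, lintegral_map m2 (measurable_mul_const _)]
    refine lintegral_congr_ae ?_
    filter_upwards [a3] with b hb
    rw [← h5 c hc.1 b hb, mul_inv_rev, inv_inv, mul_assoc, inv_mul_cancel_right]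
  · have e1 : κ (π c₀ • x) = Measure.dirac (t r) := by
      rw [← Measure.map_dirac' ht, ← hr, Measure.map_map ht he, Measure.map_congr (g := id),
        Measure.map_id]
      filter_upwards [a3] with b hb using h6 b hb
    refine nd (t r * (c₀ * (π c₀)⁻¹)⁻¹) ?_
    rw [a2 c₀ k1 k2, e1, Measure.map_dirac' (measurable_mul_const _)]

end gen

theorem closed_stab {G : Type} [Group G] [TopologicalSpace G] [IsTopologicalGroup G]
    [PolishSpace G] [MeasurableSpace G] [BorelSpace G] (μ : Measure G) [IsFiniteMeasure μ] :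
    IsClosed {g : G | μ.map (g * ·) = μ} := by
  let _ := TopologicalSpace.upgradeIsCompletelyMetrizable G
  have : {g : G | μ.map (g * ·) = μ} =
      ⋂ f : BoundedContinuousFunction G ℝ, {g | ∫ x, f (g * x) ∂μ = ∫ x, f x ∂μ} := by
    ext g
    have e : ∀ f : BoundedContinuousFunction G ℝ,
        ∫ x, f x ∂μ.map (g * ·) = ∫ x, f (g * x) ∂μ := fun f =>
      integral_map (measurable_const_mul g).aemeasurable f.continuous.aestronglyMeasurable
    simp only [mem_ofPred_eq, mem_iInter]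
    refine ⟨fun h f => by rw [← e, h], fun h => ?_⟩
    exact ext_of_forall_integral_eq_of_IsFiniteMeasure fun f => by rw [e, h]
  rw [this]
  refine isClosed_iInter fun f => isClosed_eq ?_ continuous_const
  refine continuous_of_dominated (bound := fun _ => ‖f‖) (fun g => ?_)
    (fun g => Eventually.of_forall fun x => f.norm_coe_le_norm _) (integrable_const _)
    (Eventually.of_forall fun x => by fun_prop)
  exact (f.continuous.comp (continuous_const.mul continuous_id)).aestronglyMeasurable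

theorem stab_int {p : ℕ} [Fact p.Prime] {G : Type} [Group G] [TopologicalSpace G]
    [IsTopologicalGroup G] [PolishSpace G] [MeasurableSpace G] [BorelSpace G] (μ : Measure G)
    [IsFiniteMeasure μ] (u : ℚ_[p] → G) (hu : Continuous u) (h0 : u 0 = 1)
    (ha : ∀ s t, u (s + t) = u s * u t) {q : ℚ_[p]} (hq : μ.map (u q * ·) = μ) {s : ℚ_[p]}
    (hs : ‖s‖ ≤ 1) : μ.map (u (q * s) * ·) = μ := by
  have : ∀ z : ℤ_[p], μ.map (u (q * z) * ·) = μ := fun z => by
    refine PadicInt.denseRange_natCast.induction_on z ?_ fun k => ?_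
    · exact (closed_stab μ).preimage (f := fun z : ℤ_[p] => u (q * z))
        (hu.comp (continuous_const.mul continuous_subtype_val))
    · induction k with
      | zero => simp [h0]
      | succ k ih =>
        have e : q * ((k + 1 : ℕ) : ℤ_[p]) = q + q * (k : ℤ_[p]) := by push_cast; ring
        rw [e, ha]
        conv_rhs => rw [← hq, ← ih, Measure.map_map (measurable_const_mul _)
          (measurable_const_mul _)]
        congr 1
        funext y
        exact mul_assoc _ _ _
  exact this ⟨s, hs⟩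

end EK

end Pool.Agent.Lib.MP_9177b7_ag.B
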