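import Mathlib
import Pool.Agent.Lib.MP_9177b7_ag.B.EK1

/-!
The high entropy step for an abstract copy of the Heisenberg group.
-/

open MeasureTheory ProbabilityTheory Filter Topology Set
open scoped ENNReal

noncomputable section

namespace Pool.Agent.Lib.MP_9177b7_ag.B

namespace EK

variable {p : ℕ} [Fact p.Prime]

theorem nadd {a b : ℚ_[p]} (ha : ‖a‖ ≤ 1) (hb : ‖b‖ ≤ 1) : ‖a + b‖ ≤ 1 :=
  (IsUltrametricDist.norm_add_le_max a b).trans (max_le ha hb)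

theorem nneg {a : ℚ_[p]} (ha : ‖a‖ ≤ 1) : ‖-a‖ ≤ 1 := by rwa [norm_neg]

theorem nmul {a b : ℚ_[p]} (ha : ‖a‖ ≤ 1) (hb : ‖b‖ ≤ 1) : ‖a * b‖ ≤ 1 := by
  rw [norm_mul]
  exact mul_le_one₀ ha (norm_nonneg _) hb

theorem nzero : ‖(0 : ℚ_[p])‖ ≤ 1 := by simp

/-- Integral coordinates. -/
def In (y : ℚ_[p] × ℚ_[p] × ℚ_[p]) : Prop := ‖y.1‖ ≤ 1 ∧ ‖y.2.1‖ ≤ 1 ∧ ‖y.2.2‖ ≤ 1

/-- A copy of the Heisenberg group with two contracting elements. -/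
structure Hz (p : ℕ) [Fact p.Prime] (G : Type) [Group G] [TopologicalSpace G] where
  hz : ℚ_[p] × ℚ_[p] × ℚ_[p] → G
  co : G → ℚ_[p] × ℚ_[p] × ℚ_[p]
  l : ℚ_[p]
  T₁ : G
  T₂ : G
  chz : Continuous hz
  cco : Continuous co
  inv : ∀ y, co (hz y) = y
  mul : ∀ y y', hz y * hz y' = hz (y.1 + y'.1, y.2.1 + y'.2.1, y.2.2 + y'.2.2 + y.1 * y'.2.1)
  hl : ‖l‖ < 1
  c1 : ∀ y, T₁ * hz y = hz (y.1, l * y.2.1, l * y.2.2) * T₁
  c2 : ∀ y, T₂ * hz y = hz (l * y.1, y.2.1, l * y.2.2) * T₂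

namespace Hz

variable {G : Type} [Group G] [TopologicalSpace G] (D : Hz p G)

theorem one : D.hz (0, 0, 0) = 1 := by
  have := D.mul (0, 0, 0) (0, 0, 0)
  simpa using this

theorem inv' (y : ℚ_[p] × ℚ_[p] × ℚ_[p]) :
    (D.hz y)⁻¹ = D.hz (-y.1, -y.2.1, -y.2.2 + y.1 * y.2.1) := by
  refine inv_eq_of_mul_eq_one_right ?_
  rw [D.mul, ← D.one]
  congr 1
  ext <;> simp

theorem p1 (n : ℕ) (y : ℚ_[p] × ℚ_[p] × ℚ_[p]) :
    D.T₁ ^ n * D.hz y * (D.T₁ ^ n)⁻¹ = D.hz (y.1, D.l ^ n * y.2.1, D.l ^ n * y.2.2) := by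
  rw [mul_inv_eq_iff_eq_mul]
  induction n with
  | zero => simp
  | succ n ih =>
    rw [pow_succ', mul_assoc, ih, ← mul_assoc, D.c1, mul_assoc]
    simp only [pow_succ', mul_assoc]

theorem p2 (n : ℕ) (y : ℚ_[p] × ℚ_[p] × ℚ_[p]) :
    D.T₂ ^ n * D.hz y * (D.T₂ ^ n)⁻¹ = D.hz (D.l ^ n * y.1, y.2.1, D.l ^ n * y.2.2) := by
  rw [mul_inv_eq_iff_eq_mul]
  induction n with
  | zero => simp
  | succ n ih =>
    rw [pow_succ', mul_assoc, ih, ← mul_assoc, D.c2, mul_assoc]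
    simp only [pow_succ', mul_assoc]

theorem contr (T : G) (V : Set G)
    (h : ∀ w ∈ V, ∃ y, In y ∧ ∀ n : ℕ, T ^ n * w * (T ^ n)⁻¹ = D.hz (D.l ^ n • y)) :
    ∀ O ∈ 𝓝 (1 : G), ∀ᶠ n : ℕ in atTop, ∀ w ∈ V, T ^ n * w * (T ^ n)⁻¹ ∈ O := by
  intro O hO
  rw [← D.one] at hO
  obtain ⟨ε, h0, hε⟩ := Metric.mem_nhds_iff.1 (D.chz.continuousAt.preimage_mem_nhds hO)
  filter_upwards [(tendsto_pow_atTop_nhds_zero_of_lt_one (norm_nonneg _) D.hl).eventually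
    (gt_mem_nhds h0)] with n hn w hw
  obtain ⟨y, hy, e⟩ := h w hw
  rw [e]
  refine hε (mem_ball_zero_iff.2 ?_)
  have : ‖y‖ ≤ 1 := norm_prod_le_iff.2 ⟨hy.1, norm_prod_le_iff.2 hy.2⟩
  rw [norm_smul, norm_pow]
  exact (mul_le_of_le_one_right (by positivity) this).trans_lt hn

/-- The integral points. -/
def Hs : Subgroup G where
  carrier := {g | ∃ y, In y ∧ g = D.hz y}
  one_mem' := ⟨(0, 0, 0), ⟨nzero, nzero, nzero⟩, D.one.symm⟩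
  mul_mem' := by
    rintro _ _ ⟨y, a, rfl⟩ ⟨y', b, rfl⟩
    exact ⟨_, ⟨nadd a.1 b.1, nadd a.2.1 b.2.1, nadd (nadd a.2.2 b.2.2) (nmul a.1 b.2.1)⟩, D.mul _ _⟩
  inv_mem' := by
    rintro _ ⟨y, a, rfl⟩
    exact ⟨_, ⟨nneg a.1, nneg a.2.1, nadd (nneg a.2.2) (nmul a.1 a.2.1)⟩, D.inv' _⟩

theorem Hs_cpt : IsCompact (D.Hs : Set G) := by
  have : (D.Hs : Set G) = D.hz '' Metric.closedBall 0 1 := by
    ext g
    simp only [mem_image, mem_closedBall_zero_iff, norm_prod_le_iff]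
    exact ⟨fun ⟨y, a, b⟩ => ⟨y, a, b.symm⟩, fun ⟨y, a, b⟩ => ⟨y, a, b.symm⟩⟩
  rw [this]
  exact (isCompact_closedBall _ _).image D.chz

end Hz

theorem cpt {G : Type} [Group G] [TopologicalSpace G] {U : Subgroup G} {u : ℚ_[p] → G}
    (hu : Continuous u) (h : ∀ g, g ∈ U ↔ ∃ s, ‖s‖ ≤ 1 ∧ g = u s) : IsCompact (U : Set G) := by
  have : (U : Set G) = u '' Metric.closedBall 0 1 := by
    ext g
    simp only [mem_image, mem_closedBall_zero_iff, SetLike.mem_coe, h, eq_comm]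
  rw [this]
  exact (isCompact_closedBall _ _).image hu

theorem core (hC : CondStmt) (hT : TowerStmt) (hP : ProdStmt) (hL : LevStmt) (hH : HeisStmt)
    {G X : Type} [Group G] [TopologicalSpace G] [IsTopologicalGroup G] [PolishSpace G]
    [MeasurableSpace G] [BorelSpace G] [TopologicalSpace X] [PolishSpace X] [LocallyCompactSpace X]
    [MeasurableSpace X] [BorelSpace X] [MulAction G X] [ContinuousSMul G X] (ν : Measure X)
    [IsFiniteMeasure ν] (D : Hz p G) (U₁ U₂ U₃ : Subgroup G)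
    (u1 : ∀ g, g ∈ U₁ ↔ ∃ s, ‖s‖ ≤ 1 ∧ g = D.hz (s, 0, 0))
    (u2 : ∀ g, g ∈ U₂ ↔ ∃ s, ‖s‖ ≤ 1 ∧ g = D.hz (0, s, 0))
    (u3 : ∀ g, g ∈ U₃ ↔ ∃ s, ‖s‖ ≤ 1 ∧ g = D.hz (0, 0, s)) (κ₁ κ₂ κ₃ : Kernel X G)
    (t1 : ν.map (D.T₁ • ·) = ν) (t2 : ν.map (D.T₂ • ·) = ν) (k1 : IsCond U₁ ν κ₁)
    (k2 : IsCond U₂ ν κ₂) (k3 : IsCond U₃ ν κ₃) :
    ∀ᵐ x ∂ν, κ₁ x ≠ Measure.dirac 1 → κ₂ x ≠ Measure.dirac 1 →
      ∀ u ∈ U₃, (κ₃ x).map (u * ·) = κ₃ x := by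
  have chz := D.chz
  have cco := D.cco
  have q1 : IsCompact (U₁ : Set G) := cpt (by fun_prop) u1
  have q2 : IsCompact (U₂ : Set G) := cpt (by fun_prop) u2
  have q3 : IsCompact (U₃ : Set G) := cpt (by fun_prop) u3
  have s1 : U₁ ≤ D.Hs := fun g hg => by
    obtain ⟨s, a, rfl⟩ := (u1 g).1 hg
    exact ⟨_, ⟨a, nzero, nzero⟩, rfl⟩
  have s2 : U₂ ≤ D.Hs := fun g hg => by
    obtain ⟨s, a, rfl⟩ := (u2 g).1 hg
    exact ⟨_, ⟨nzero, a, nzero⟩, rfl⟩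
  have s3 : U₃ ≤ D.Hs := fun g hg => by
    obtain ⟨s, a, rfl⟩ := (u3 g).1 hg
    exact ⟨_, ⟨nzero, nzero, a⟩, rfl⟩
  obtain ⟨m, hm⟩ := (hC G X ν D.Hs D.Hs_cpt).1
  obtain ⟨X₁, -, a1, b1, c1⟩ := hP G X ν U₁ κ₁ D.T₁ {g | ∃ y, In y ∧ y.1 = 0 ∧ g = D.hz y} q1 k1 t1
    (fun u hu => by
      obtain ⟨s, -, rfl⟩ := (u1 u).1 hu
      simpa using D.c1 (s, 0, 0))
    (fun u hu w hw => by
      obtain ⟨s, a, rfl⟩ := (u1 u).1 hu
      obtain ⟨y, b, e, rfl⟩ := hw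
      refine ⟨(0, y.2.1, y.2.2 + s * y.2.1), ⟨nzero, b.2.1, nadd b.2.2 (nmul a b.2.1)⟩, rfl, ?_⟩
      rw [D.inv', D.mul, D.mul]
      congr 1
      ext <;> simp [e])
    (D.contr _ _ fun w hw => by
      obtain ⟨y, b, e, rfl⟩ := hw
      refine ⟨y, b, fun n => ?_⟩
      rw [D.p1]
      congr 1
      ext <;> simp [e])
  obtain ⟨X₂, -, a2, b2, c2⟩ := hP G X ν U₂ κ₂ D.T₂ {g | ∃ y, In y ∧ y.2.1 = 0 ∧ g = D.hz y} q2 k2
    t2
    (fun u hu => by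
      obtain ⟨s, -, rfl⟩ := (u2 u).1 hu
      simpa using D.c2 (0, s, 0))
    (fun u hu w hw => by
      obtain ⟨s, a, rfl⟩ := (u2 u).1 hu
      obtain ⟨y, b, e, rfl⟩ := hw
      refine ⟨(y.1, 0, y.2.2 + y.1 * -s), ⟨b.1, nzero, nadd b.2.2 (nmul b.1 (nneg a))⟩, rfl, ?_⟩
      rw [D.inv', D.mul, D.mul]
      congr 1
      ext <;> simp [e])
    (D.contr _ _ fun w hw => by
      obtain ⟨y, b, e, rfl⟩ := hw
      refine ⟨y, b, fun n => ?_⟩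
      rw [D.p2]
      congr 1
      ext <;> simp [e])
  obtain ⟨m1, -, d1, -⟩ := hL G X ν U₁ κ₁ q1 k1
  obtain ⟨m2, -, d2, -⟩ := hL G X ν U₂ κ₂ q2 k2
  obtain ⟨-, m3, -, -, d3⟩ := hL G X ν U₃ κ₃ q3 k3
  have d3 := (d3 D.T₁ t1 fun u hu => by
    obtain ⟨s, a, rfl⟩ := (u3 u).1 hu
    refine (u3 _).2 ⟨D.l * s, nmul D.hl.le a, ?_⟩
    simpa using D.p1 1 (0, 0, s)).2
  have mE := (m1.compl.inter m2.compl).inter m3.compl
  suffices h : ν (({x | κ₁ x = Measure.dirac 1}ᶜ ∩ {x | κ₂ x = Measure.dirac 1}ᶜ) ∩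
      {x | ∀ u ∈ U₃, (κ₃ x).map (u * ·) = κ₃ x}ᶜ) = 0 by
    filter_upwards [measure_eq_zero_iff_ae_notMem.1 h] with x hx e1 e2
    by_contra e3
    exact hx ⟨⟨e1, e2⟩, e3⟩
  refine (dis_set hm mE).2 ?_
  have := hm.markov
  have := k3.markov
  filter_upwards [(hT G X ν D.Hs U₁ m κ₁ D.Hs_cpt q1 hm k1).1 s1,
    (hT G X ν D.Hs U₂ m κ₂ D.Hs_cpt q2 hm k2).1 s2, (hT G X ν D.Hs U₃ m κ₃ D.Hs_cpt q3 hm k3).1 s3,
    ae_ae hm a1, ae_ae hm a2, ae_ae hm d1, ae_ae hm d2, ae_ae hm d3]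
    with x w1 w2 w3 a1 a2 d1 d2 d3
  have hs : ∀ᵐ c ∂m x, c ∈ D.Hs := hm.supp x
  by_contra hn
  obtain ⟨c₀, n0, n1, n2, n3, n4, n5⟩ :=
    ((not_eventually.1 hn).and_eventually (hs.and (a1.and (a2.and (d1.and d2))))).exists
  rw [not_not] at n0
  obtain ⟨ω, i1, j1, l1⟩ := side k1 (m x) x X₁ _
    (fun c => D.hz (0, (D.co c).2.1, (D.co c).2.2 - (D.co c).1 * (D.co c).2.1)) D.co
    (fun c => (D.co c).1) (fun r => D.hz (r, 0, 0))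
    (fun q => (q.2, q.1.2.1, q.1.2.2 - q.1.1 * q.1.2.1 + q.2 * q.1.2.1)) cco.measurable
    (by fun_prop) (Continuous.measurable (by fun_prop)) (Continuous.measurable (by fun_prop)) b1 c1
    (H := D.Hs)
    (by
      rintro _ ⟨y, a, rfl⟩
      refine (u1 _).2 ⟨y.1, a.1, ?_⟩
      rw [D.inv, D.inv', D.mul]
      congr 1
      ext <;> simp)
    (by
      rintro _ ⟨y, a, rfl⟩ _ ⟨y', b, rfl⟩
      rw [D.inv, D.inv, D.inv', D.mul]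
      refine ⟨_, ⟨by simp, nadd a.2.1 (nneg b.2.1), ?_⟩, by simp, rfl⟩
      simpa [sub_eq_add_neg] using nadd (nadd a.2.2 (nneg (nmul a.1 a.2.1)))
        (nadd (nmul b.1 b.2.1) (nneg b.2.2)))
    (by
      rintro _ ⟨y, a, rfl⟩ b hb
      obtain ⟨s, -, rfl⟩ := (u1 b).1 hb
      rw [D.inv, D.inv, D.mul, D.inv]
      ext <;> simp)
    (fun b hb => by
      obtain ⟨s, -, rfl⟩ := (u1 b).1 hb
      rw [D.inv])
    (hs.and a1) w1.1 n1 n2 fun g hg => n0.1.1 (n4 ⟨g, hg⟩)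
  obtain ⟨ω', i2, j2, l2⟩ := side k2 (m x) x X₂ _
    (fun c => D.hz ((D.co c).1, 0, (D.co c).2.2)) D.co
    (fun c => (D.co c).2.1) (fun r => D.hz (0, r, 0))
    (fun q => (q.1.1, q.2, q.1.2.2)) cco.measurable
    (by fun_prop) (Continuous.measurable (by fun_prop)) (Continuous.measurable (by fun_prop)) b2 c2
    (H := D.Hs)
    (by
      rintro _ ⟨y, a, rfl⟩
      refine (u2 _).2 ⟨y.2.1, a.2.1, ?_⟩
      rw [D.inv, D.inv', D.mul]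
      congr 1
      ext <;> simp)
    (by
      rintro _ ⟨y, a, rfl⟩ _ ⟨y', b, rfl⟩
      rw [D.inv, D.inv, D.inv', D.mul]
      refine ⟨_, ⟨nadd a.1 (nneg b.1), by simp, ?_⟩, by simp, rfl⟩
      simpa using nadd a.2.2 (nneg b.2.2))
    (by
      rintro _ ⟨y, a, rfl⟩ b hb
      obtain ⟨s, -, rfl⟩ := (u2 b).1 hb
      rw [D.inv, D.inv, D.mul, D.inv]
      ext <;> simp)
    (fun b hb => by
      obtain ⟨s, -, rfl⟩ := (u2 b).1 hb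
      rw [D.inv])
    (hs.and a2) w2.1 n1 n3 fun g hg => n0.1.2 (n5 ⟨g, hg⟩)
  have mI : MeasurableSet {y : ℚ_[p] × ℚ_[p] × ℚ_[p] | ‖y.1‖ ≤ 1 ∧ ‖y.2.1‖ ≤ 1 ∧ ‖y.2.2‖ ≤ 1} :=
    IsClosed.measurableSet (IsClosed.and (isClosed_le (by fun_prop) continuous_const)
      (IsClosed.and (isClosed_le (by fun_prop) continuous_const)
        (isClosed_le (by fun_prop) continuous_const)))
  obtain ⟨q, q0, hq, e⟩ := hH p ((m x).map D.co) ω ω'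
    (Measure.isProbabilityMeasure_map cco.measurable.aemeasurable) i1 i2
    ((ae_map_iff cco.measurable.aemeasurable mI).2 (by
      filter_upwards [hs] with c hc
      obtain ⟨y, a, rfl⟩ := hc
      rw [D.inv]
      exact a)) j1 j2 l1 l2
  have r1 : ((m x).map D.co).map D.hz = m x := by
    rw [Measure.map_map chz.measurable cco.measurable, Measure.map_congr (g := id), Measure.map_id]
    filter_upwards [hs] with c hc
    obtain ⟨y, -, rfl⟩ := hc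
    rw [Function.comp_apply, D.inv, id]
  have r2 : (m x).map (D.hz (0, 0, q) * ·) = m x := by
    conv_lhs => rw [← r1, Measure.map_map (measurable_const_mul _) chz.measurable]
    conv_rhs => rw [← r1, ← e, Measure.map_map chz.measurable (by fun_prop)]
    congr 1
    funext y
    rw [Function.comp_apply, Function.comp_apply, D.mul]
    congr 1
    ext <;> simp [add_comm]
  obtain ⟨j, hj⟩ := ((tendsto_pow_atTop_nhds_zero_of_lt_one (norm_nonneg _) D.hl).eventually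
    (gt_mem_nhds (norm_pos_iff.2 q0))).exists
  refine hn ?_
  filter_upwards [w3.2 _ ((u3 _).2 ⟨q, hq, rfl⟩) r2, d3] with c e1 e2 e3
  refine e3.2 (e2 j fun u hu => ?_)
  obtain ⟨s, a, rfl⟩ := (u3 u).1 hu
  have := stab_int (κ₃ (c • x)) (fun s => D.hz (0, 0, s)) (by fun_prop) D.one
    (fun s t => by rw [D.mul]; simp) e1 (s := D.l ^ j / q * s) (nmul (by
      rw [norm_div, norm_pow]
      exact (div_le_one (norm_pos_iff.2 q0)).2 hj.le) a)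
  rw [← mul_assoc, mul_div_cancel₀ _ q0] at this
  rw [D.p1]
  simpa only [mul_zero] using this

end EK

end Pool.Agent.Lib.MP_9177b7_ag.B
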