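import Mathlib
import Pool.Agent.Lib.MP_9177b7_ag.B.EK2

/-!
The high entropy step in `SL_N(ℚ_p)`.
-/

open MeasureTheory ProbabilityTheory Filter Topology Set
open scoped ENNReal

noncomputable section

namespace Pool.Agent.Lib.MP_9177b7_ag.B

namespace EK

open Matrix Matrix.SpecialLinearGroup

variable {n p : ℕ} [Fact p.Prime] {a b c : Fin (n + 3)}

theorem tv_cont (h : a ≠ b) : Continuous fun s : ℚ_[p] => (transvection h s : HP n p) := by
  refine Continuous.subtype_mk (f := fun s : ℚ_[p] => Matrix.transvection a b s) ?_ _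
  refine continuous_matrix fun i j => ?_
  simp only [Matrix.transvection, Matrix.add_apply, Matrix.single, Matrix.of_apply]
  split_ifs <;> fun_prop

theorem dg_tv (k : Fin (n + 3) → ℤ) (hk : ∑ i, k i = 0) (h : a ≠ b) (s : ℚ_[p]) :
    dgp p k hk * transvection h s =
      transvection h ((p : ℚ_[p]) ^ (k a - k b) * s) * dgp p k hk := by
  have hp : (p : ℚ_[p]) ≠ 0 := Nat.cast_ne_zero.2 (Fact.out : p.Prime).ne_zero
  refine Subtype.ext ?_
  change (diagonal fun i => (p : ℚ_[p]) ^ k i) * (1 + single a b s) =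
    (1 + single a b ((p : ℚ_[p]) ^ (k a - k b) * s)) * diagonal fun i => (p : ℚ_[p]) ^ k i
  ext i j
  rw [diagonal_mul, mul_diagonal, Matrix.add_apply, Matrix.add_apply, Matrix.one_apply,
    Matrix.single_apply, Matrix.single_apply]
  by_cases e : a = i ∧ b = j
  · obtain ⟨rfl, rfl⟩ := e
    rw [if_neg h, if_pos ⟨rfl, rfl⟩, if_pos ⟨rfl, rfl⟩, zpow_sub₀ hp]
    have := zpow_ne_zero (k b) hp
    field_simp
    ring
  · rw [if_neg e, if_neg e]
    split_ifs with e'
    · rw [e', mul_comm]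
    · simp

/-- The Heisenberg group of three indices. -/
def hz (hab : a ≠ b) (hbc : b ≠ c) (hac : a ≠ c) (y : ℚ_[p] × ℚ_[p] × ℚ_[p]) : HP n p :=
  transvection hbc y.2.1 * transvection hab y.1 * transvection hac y.2.2

theorem hz_coe (hab : a ≠ b) (hbc : b ≠ c) (hac : a ≠ c) (y : ℚ_[p] × ℚ_[p] × ℚ_[p]) :
    (hz hab hbc hac y : HP n p).1 =
      1 + single a b y.1 + single b c y.2.1 + single a c y.2.2 := by
  change (1 + single b c y.2.1) * (1 + single a b y.1) * (1 + single a c y.2.2) = _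
  simp only [mul_add, add_mul, mul_one, one_mul,
    single_mul_single_of_ne _ _ _ _ hac.symm, single_mul_single_of_ne _ _ _ _ hab.symm,
    add_zero]
  abel

theorem hz_mul (hab : a ≠ b) (hbc : b ≠ c) (hac : a ≠ c) (y y' : ℚ_[p] × ℚ_[p] × ℚ_[p]) :
    (hz hab hbc hac y * hz hab hbc hac y' : HP n p) =
      hz hab hbc hac (y.1 + y'.1, y.2.1 + y'.2.1, y.2.2 + y'.2.2 + y.1 * y'.2.1) := by
  refine Subtype.ext ?_
  change (hz hab hbc hac y).1 * (hz hab hbc hac y').1 = _
  rw [hz_coe, hz_coe, hz_coe]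
  simp only [mul_add, add_mul, mul_one, one_mul, single_mul_single_same,
    single_mul_single_of_ne _ _ _ _ hac.symm, single_mul_single_of_ne _ _ _ _ hab.symm,
    single_mul_single_of_ne _ _ _ _ hbc.symm, add_zero, single_add]
  abel

theorem dg_hz (hab : a ≠ b) (hbc : b ≠ c) (hac : a ≠ c) (k : Fin (n + 3) → ℤ) (hk : ∑ i, k i = 0)
    (y : ℚ_[p] × ℚ_[p] × ℚ_[p]) : dgp p k hk * hz hab hbc hac y =
      hz hab hbc hac ((p : ℚ_[p]) ^ (k a - k b) * y.1, (p : ℚ_[p]) ^ (k b - k c) * y.2.1,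
        (p : ℚ_[p]) ^ (k a - k c) * y.2.2) * dgp p k hk := by
  rw [hz, hz, ← mul_assoc, ← mul_assoc, dg_tv, mul_assoc _ (dgp p k hk), dg_tv, ← mul_assoc,
    mul_assoc _ (dgp p k hk), dg_tv, ← mul_assoc]

theorem sum1 (c : Fin (n + 3)) :
    ∑ i, (1 - if i = c then ((n + 3 : ℕ) : ℤ) else 0) = 0 := by simp

theorem sum2 (a : Fin (n + 3)) :
    ∑ i, ((if i = a then ((n + 3 : ℕ) : ℤ) else 0) - 1) = 0 := by simp

/-- The data of the abstract statement. -/
def dat (hab : a ≠ b) (hbc : b ≠ c) (hac : a ≠ c) : Hz p (HP n p) where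
  hz := hz hab hbc hac
  co g := (g.1 a b, g.1 b c, g.1 a c)
  l := (p : ℚ_[p]) ^ ((n + 3 : ℕ) : ℤ)
  T₁ := dgp p _ (sum1 c)
  T₂ := dgp p _ (sum2 a)
  chz := (((tv_cont hbc).comp (by fun_prop)).mul ((tv_cont hab).comp continuous_fst)).mul
    ((tv_cont hac).comp (by fun_prop))
  cco := (continuous_subtype_val.matrix_elem a b).prodMk
    ((continuous_subtype_val.matrix_elem b c).prodMk (continuous_subtype_val.matrix_elem a c))
  inv y := by
    rw [hz_coe]
    ext <;> simp [hab, hbc, hac, hab.symm, hbc.symm]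
  mul := hz_mul hab hbc hac
  hl := by
    rw [zpow_natCast, norm_pow]
    exact pow_lt_one₀ (norm_nonneg _) Padic.norm_p_lt_one (by omega)
  c1 y := by
    rw [dg_hz]
    simp [hac, hbc]
  c2 y := by
    rw [dg_hz]
    simp [hab.symm, hac.symm]

end EK

theorem ek : CondStmt → TowerStmt → ProdStmt → LevStmt → HeisStmt → EKStmt := by
  intro hC hT hP hL hH n p _ S ν _ a b c hab hbc hac κ₁ κ₂ κ₃ hA k1 k2 k3
  refine EK.core hC hT hP hL hH ν (EK.dat hab hbc hac) _ _ _ (fun g => ?_) (fun g => ?_)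
    (fun g => ?_) κ₁ κ₂ κ₃ (hA _ (EK.sum1 c)) (hA _ (EK.sum2 a)) k1 k2 k3 <;>
  · simp only [EK.dat, EK.hz, Matrix.SpecialLinearGroup.transvection_coeff_zero, one_mul, mul_one]
    rfl

end Pool.Agent.Lib.MP_9177b7_ag.B
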