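import Pool.Agent.Lib.MP_9177b7_ag.B.St

/-!
The elementary unipotent matrices of the unitary group.
-/

open Matrix

noncomputable section

namespace Pool.Agent.Lib.MP_9177b7_ag.B

namespace Eich

variable {n : ℕ} {R : Type} [CommRing R]

theorem J_mul_single (i j : Fin (n + 3)) (x : R) :
    Jm n R * single i j x = single (Equiv.swap 0 1 i) j x := by
  ext r s
  simp only [Jm, mul_apply, of_apply, ite_mul, one_mul, zero_mul, Finset.sum_ite_eq',
    Finset.mem_univ, if_true, single_apply]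
  refine if_congr (and_congr_left fun _ => ?_) rfl rfl
  rw [eq_comm, Equiv.swap_apply_eq_iff, eq_comm]

theorem single_mul_J (i j : Fin (n + 3)) (x : R) :
    single i j x * Jm n R = single i (Equiv.swap 0 1 j) x := by
  ext r s
  have e : ∀ t : Fin (n + 3), s = Equiv.swap 0 1 t ↔ t = Equiv.swap 0 1 s := fun t => by
    rw [eq_comm, Equiv.swap_apply_eq_iff]
  simp only [Jm, mul_apply, of_apply, e, mul_ite, mul_one, mul_zero, Finset.sum_ite_eq',
    Finset.mem_univ, if_true, single_apply]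
  refine if_congr (and_congr_right fun _ => ?_) rfl rfl
  rw [Equiv.swap_apply_eq_iff]

theorem pos_facts {a b k : Fin (n + 3)} (h : Pos a b k) :
    a ≠ b ∧ k ≠ a ∧ k ≠ b ∧ Equiv.swap 0 1 a = b ∧ Equiv.swap 0 1 b = a ∧
      Equiv.swap 0 1 k = k := by
  obtain ⟨h | h, h0, h1⟩ := h <;> obtain ⟨rfl, rfl⟩ := h
  · exact ⟨zero_ne_one, h0, h1, Equiv.swap_apply_left _ _, Equiv.swap_apply_right _ _,
      Equiv.swap_apply_of_ne_of_ne h0 h1⟩
  · exact ⟨one_ne_zero, h1, h0, Equiv.swap_apply_right _ _, Equiv.swap_apply_left _ _,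
      Equiv.swap_apply_of_ne_of_ne h0 h1⟩

theorem Ei_eq {a b k : Fin (n + 3)} (h : Pos a b k) (w w' z : R) :
    Ei a b k w w' z = transvection k b w * transvection a k (-w') * transvection a b z := by
  obtain ⟨hab, hka, hkb, -⟩ := pos_facts h
  simp only [Ei, transvection, mul_add, add_mul, one_mul, mul_one,
    single_mul_single_of_ne _ _ _ _ hab.symm, single_mul_single_of_ne _ _ _ _ hka,
    add_zero, ← single_neg, mul_neg, neg_mul, neg_zero]
  abel

theorem map_single' (σ : R →+* R) (i j : Fin (n + 3)) (x : R) :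
    ((single i j x).map σ)ᵀ = single j i (σ x) := by
  ext r s
  simp only [transpose_apply, map_apply, single_apply, apply_ite σ, map_zero, and_comm]

theorem uni (σ : R →+* R) {a b k : Fin (n + 3)} (h : Pos a b k) (w z : R) (hw : σ (σ w) = w)
    (hz : z + σ z + w * σ w = 0) :
    ((Ei a b k w (σ w) z).map σ)ᵀ * Jm n R * Ei a b k w (σ w) z = Jm n R := by
  obtain ⟨hab, hka, hkb, sa, sb, sk⟩ := pos_facts h
  have e : ((Ei a b k w (σ w) z).map σ)ᵀ =
      1 + single b k (σ w) - single k a w + single b a (σ z) := by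
    rw [Ei, Matrix.map_add _ (map_add σ), Matrix.map_sub _ (map_sub σ),
      Matrix.map_add _ (map_add σ), Matrix.map_one _ (map_zero σ) (map_one σ), transpose_add,
      transpose_sub, transpose_add, transpose_one, map_single', map_single', map_single', hw]
  have e2 : (single b b z + single b b (σ z) + single b b (σ w * w) :
      Matrix (Fin (n + 3)) (Fin (n + 3)) R) = 0 := by
    rw [← single_add, ← single_add, mul_comm, hz, single_zero]
  rw [e]
  simp only [Ei, mul_add, add_mul, mul_sub, sub_mul, one_mul, mul_one, J_mul_single,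
    single_mul_J, sa, sk, single_mul_single_same, single_mul_single_of_ne _ _ _ _ hab.symm,
    single_mul_single_of_ne _ _ _ _ hka, single_mul_single_of_ne _ _ _ _ hkb.symm]
  conv_rhs => rw [← add_zero (Jm n R), ← e2]
  abel

theorem comm {i j k : Fin (n + 3)} (hij : i ≠ j) (hik : i ≠ k) (hkj : k ≠ j) (s : R) :
    transvection i j s =
      transvection i k s * transvection k j 1 * transvection i k (-s) * transvection k j (-1) := by
  simp only [transvection, mul_add, add_mul, one_mul, mul_one, single_mul_single_same,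
    single_mul_single_of_ne _ _ _ _ hij.symm, single_mul_single_of_ne _ _ _ _ hik.symm,
    single_mul_single_of_ne _ _ _ _ hkj.symm, add_zero, ← single_neg, mul_neg, neg_mul]
  abel

end Eich

open Eich in
theorem eich : EichStmt := by
  intro n R _ σ a b k w z h
  obtain ⟨hab, hka, hkb, -⟩ := pos_facts h
  refine ⟨fun w' => ?_, uni σ h w z, fun S hS => ?_⟩
  · rw [Ei_eq h, det_mul, det_mul, det_transvection_of_ne _ _ hkb,
      det_transvection_of_ne _ _ hka.symm, det_transvection_of_ne _ _ hab, one_mul, one_mul]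
  have A : ∀ (a b k : Fin (n + 3)) (s : R), Pos a b k →
      transvection k b s ∈ S ∧ transvection a k s ∈ S := by
    intro a b k s h
    have h1 := (hS a b k s h).1
    have h2 := (hS a b k (-s) h).2
    rw [Ei_eq h] at h1 h2
    simp only [neg_zero, neg_neg, transvection_zero, mul_one, one_mul] at h1 h2
    exact ⟨h1, h2⟩
  have P0 : ∀ k : Fin (n + 3), k ≠ 0 → k ≠ 1 → Pos 0 1 k := fun k h0 h1 =>
    ⟨Or.inl ⟨rfl, rfl⟩, h0, h1⟩
  have P1 : ∀ k : Fin (n + 3), k ≠ 0 → k ≠ 1 → Pos 1 0 k := fun k h0 h1 =>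
    ⟨Or.inr ⟨rfl, rfl⟩, h0, h1⟩
  have C : ∀ i j k : Fin (n + 3), i ≠ j → i ≠ k → k ≠ j → (∀ s, transvection i k s ∈ S) →
      (∀ s, transvection k j s ∈ S) → ∀ s, transvection i j s ∈ S := by
    intro i j k hij hik hkj h1 h2 s
    rw [comm hij hik hkj]
    exact S.mul_mem (S.mul_mem (S.mul_mem (h1 _) (h2 _)) (h1 _)) (h2 _)
  have tm : 2 % (n + 3) = 2 := Nat.mod_eq_of_lt (by omega)
  have t0 : (2 : Fin (n + 3)) ≠ 0 := by simp [Fin.ext_iff, tm]
  have t1 : (2 : Fin (n + 3)) ≠ 1 := by simp [Fin.ext_iff, tm]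
  intro i j s hij
  by_cases i0 : i = 0
  · subst i0
    by_cases j1 : j = 1
    · subst j1
      exact C 0 1 2 hij t0.symm t1 (fun s => (A _ _ _ s (P0 2 t0 t1)).2)
        (fun s => (A _ _ _ s (P0 2 t0 t1)).1) s
    · exact (A _ _ _ s (P0 j hij.symm j1)).2
  by_cases i1 : i = 1
  · subst i1
    by_cases j0 : j = 0
    · subst j0
      exact C 1 0 2 hij t1.symm t0 (fun s => (A _ _ _ s (P1 2 t0 t1)).2)
        (fun s => (A _ _ _ s (P1 2 t0 t1)).1) s
    · exact (A _ _ _ s (P1 j j0 hij.symm)).2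
  by_cases j0 : j = 0
  · subst j0
    exact (A _ _ _ s (P1 i i0 i1)).1
  by_cases j1 : j = 1
  · subst j1
    exact (A _ _ _ s (P0 i i0 i1)).1
  exact C i j 0 hij i0 (Ne.symm j0) (fun s => (A _ _ _ s (P1 i i0 i1)).1)
    (fun s => (A _ _ _ s (P0 j j0 j1)).2) s

end Pool.Agent.Lib.MP_9177b7_ag.B
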