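import Pool.Agent.Lib.MP_9177b7_ag.B.StE
import Pool.Agent.Lib.MP_7ffa02_nt.ZeroFree
import Pool.Agent.Lib.MP_ca56d1_nt.Euler

/-!
The contribution of the zeros near `1` to the logarithm of the Dedekind zeta function.
-/

open NumberField Pool.Agent.Shared.PrimeZeta Pool.Agent.Stark Filter Topology Set Metric

noncomputable section

namespace Pool.Agent.Lib.MP_9177b7_ag.B

namespace Fac

theorem hasDerivAt_log_norm {u : ℝ → ℂ} {u' : ℂ} {t : ℝ} (h : HasDerivAt u u' t) (h0 : u t ≠ 0) :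
    HasDerivAt (fun x => Real.log ‖u x‖) (u' / u t).re t := by
  have h1 : HasDerivAt (fun x => u x / u t) (u' / u t) t := h.div_const _
  have h2 := h1.clog_real (by rw [div_self h0]; exact Complex.one_mem_slitPlane)
  rw [div_self h0, div_one] at h2
  have h3 : HasDerivAt (fun x => (Complex.log (u x / u t)).re) (u' / u t).re t :=
    Complex.reCLM.hasFDerivAt.comp_hasDerivAt t h2
  refine (h3.add_const (Real.log ‖u t‖)).congr_of_eventuallyEq ?_
  filter_upwards [h.continuousAt.eventually_ne h0] with x hx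
  rw [Complex.log_re, norm_div, Real.log_div (norm_ne_zero_iff.2 hx) (norm_ne_zero_iff.2 h0)]
  ring

variable (M : Type) [Field M] [NumberField M]

theorem zeta_eq {s : ℝ} (hs : 1 < s) :
    dedekindZeta M s = ((∑' n, (nI M n : ℝ) * (n : ℝ) ^ (-s) : ℝ) : ℂ) := by
  rw [dedekindZeta, LSeries, Complex.ofReal_tsum]
  refine tsum_congr fun n => ?_
  rw [LSeries.term_def]
  split_ifs with h0
  · simp [h0, Real.zero_rpow (show -s ≠ 0 by linarith)]
  · rw [Complex.ofReal_mul, Complex.ofReal_cpow (by positivity), Complex.ofReal_neg,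
      Complex.cpow_neg, div_eq_mul_inv]
    simp [nI]

theorem one_le_zeta {s : ℝ} (hs : 1 < s) : 1 ≤ ∑' n, (nI M n : ℝ) * (n : ℝ) ^ (-s) := by
  have h1 := (EulerAux.summable_nI (F := M) hs).le_tsum 1 fun n _ => by positivity
  have h2 : 1 ≤ nI M 1 := by
    rw [← card_idl]
    exact Finset.card_pos.2 ⟨⊤, mem_idl.2 Ideal.absNorm_top⟩
  have h3 : (1 : ℝ) ≤ nI M 1 := by exact_mod_cast h2
  simp only [Nat.cast_one, Real.one_rpow, mul_one] at h1
  exact h3.trans h1

theorem zeta_ne {s : ℂ} (hs : 1 < s.re) : dedekindZeta M s ≠ 0 := by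
  rw [← zI_eq hs]
  exact zI_ne_zero hs

theorem mem_ball_real {s : ℝ} (h1 : 1 ≤ s) (h2 : s ≤ 2) : (s : ℂ) ∈ ball (2 : ℂ) (8 / 5) := by
  rw [mem_ball_iff_norm, show (s : ℂ) - 2 = ((s - 2 : ℝ) : ℂ) by push_cast; ring,
    Complex.norm_real, Real.norm_eq_abs, abs_lt]
  constructor <;> linarith

variable {M}

theorem f_one {f : ℂ → ℂ} (hd : DifferentiableOn ℂ f (ball 2 (8 / 5)))
    (he : ∀ s ∈ ball (2 : ℂ) (8 / 5), 1 < s.re → f s = (s - 1) * dedekindZeta M s) :
    f 1 = dedekindZeta_residue M := by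
  have h1 : ((1 : ℝ) : ℂ) ∈ ball (2 : ℂ) (8 / 5) := mem_ball_real le_rfl one_le_two
  have h2 : ContinuousAt f ((1 : ℝ) : ℂ) := hd.continuousOn.continuousAt (isOpen_ball.mem_nhds h1)
  have h3 : Tendsto (fun s : ℝ => f s) (𝓝[>] 1) (𝓝 (f ((1 : ℝ) : ℂ))) :=
    (h2.tendsto.comp (Complex.continuous_ofReal.tendsto 1)).mono_left nhdsWithin_le_nhds
  rw [Complex.ofReal_one] at h3
  refine tendsto_nhds_unique h3 ((tendsto_sub_one_mul_dedekindZeta_nhdsGT M).congr' ?_)
  filter_upwards [Ioo_mem_nhdsGT (show (1 : ℝ) < 2 by norm_num)] with s hs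
  exact (he s (mem_ball_real hs.1.le hs.2.le) (by simpa using hs.1)).symm

theorem f_eq {f : ℂ → ℂ} (hd : DifferentiableOn ℂ f (ball 2 (8 / 5)))
    (he : ∀ s ∈ ball (2 : ℂ) (8 / 5), 1 < s.re → f s = (s - 1) * dedekindZeta M s) {t : ℝ}
    (h0 : 0 ≤ t) (h1 : t ≤ 1) : f (1 + t) = Fz M t := by
  unfold Fz
  split_ifs with h
  · rw [h, Complex.ofReal_zero, add_zero, f_one hd he]
  · have ht : 0 < t := lt_of_le_of_ne h0 (Ne.symm h)
    have e : (1 : ℂ) + t = ((1 + t : ℝ) : ℂ) := by push_cast; ring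
    rw [e, he _ (mem_ball_real (by linarith) (by linarith)) (by simpa using ht),
      zeta_eq M (by linarith)]
    push_cast
    ring

end Fac

open Fac

theorem fac : ZetaBdStmt → FacStmt := by
  intro H d
  obtain ⟨C, A, hC, H⟩ := H d
  have hlC : 0 ≤ Real.log C := Real.log_nonneg hC
  refine ⟨25000 * (Real.log C + A + 1), by positivity, fun M _ _ hM => ?_⟩
  obtain ⟨f, hd, hb, he⟩ := H M hM
  have hD : (1 : ℝ) ≤ |(discr M : ℝ)| := by
    have := Int.one_le_abs (discr_ne_zero M)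
    exact_mod_cast this
  have hlD : 0 ≤ Real.log |(discr M : ℝ)| := Real.log_nonneg hD
  set L : ℝ := Real.log C + A * Real.log |(discr M : ℝ)| + 1 with hL
  have hL1 : 1 ≤ L := by
    have : 0 ≤ (A : ℝ) * Real.log |(discr M : ℝ)| := by positivity
    linarith
  have hLL : L ≤ (Real.log C + A + 1) * LL M := by
    unfold LL
    have h1 : 0 ≤ Real.log C * Real.log |(discr M : ℝ)| := by positivity
    have h2 : (0 : ℝ) ≤ A := by positivity
    nlinarith
  have hmem : ∀ w : ℂ, ‖w‖ < 2 → 2 + 4 / 5 * w ∈ ball (2 : ℂ) (8 / 5) := fun w hw => by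
    rw [mem_ball_iff_norm, add_sub_cancel_left, norm_mul]
    have : ‖(4 / 5 : ℂ)‖ = 4 / 5 := by simp
    rw [this]
    linarith
  set F : ℂ → ℂ := fun w => f (2 + 4 / 5 * w) with hF
  have hFd : DifferentiableOn ℂ F (ball 0 2) :=
    hd.comp (by fun_prop) fun w hw => hmem w (mem_ball_zero_iff.1 hw)
  have hF0 : 1 ≤ ‖F 0‖ := by
    have e : F 0 = f ((2 : ℝ) : ℂ) := by simp [hF]
    rw [e, he _ (mem_ball_real one_le_two le_rfl) (by simp), zeta_eq M one_lt_two, norm_mul,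
      Complex.norm_real, show ((2 : ℝ) : ℂ) - 1 = 1 by norm_num, norm_one, one_mul]
    exact (one_le_zeta M one_lt_two).trans (le_abs_self _)
  have hF0' : F 0 ≠ 0 := by
    intro h
    rw [h, norm_zero] at hF0
    norm_num at hF0
  have hexp : C * |(discr M : ℝ)| ^ A ≤ Real.exp L := by
    rw [hL, Real.exp_add, Real.exp_add, Real.exp_log (by linarith), ← Real.log_pow,
      Real.exp_log (by positivity)]
    exact le_mul_of_one_le_right (by positivity) (Real.one_le_exp zero_le_one)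
  obtain ⟨m, z, -, hz, hp⟩ := MP_7ffa02_nt.pf0 hFd hL1 hF0' fun w hw =>
    ((hb _ (hmem w (by rw [hw]; norm_num))).trans hexp).trans
      (le_mul_of_one_le_right (Real.exp_pos _).le hF0)
  have hzz : ∀ j, (2 + 4 / 5 * z j).re ≤ 1 ∧ 2 + 4 / 5 * z j ≠ 1 := fun j => by
    have h0 : f (2 + 4 / 5 * z j) = 0 := (hz j).1
    constructor
    · by_contra hc
      have hc' := not_le.1 hc
      rw [he _ (hmem _ (by linarith [(hz j).2])) hc'] at h0
      rcases mul_eq_zero.1 h0 with h | h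
      · rw [sub_eq_zero.1 h] at hc'
        simp at hc'
      · exact zeta_ne M hc' h
    · intro h
      rw [h, f_one hd he] at h0
      exact dedekindZeta_residue_ne_zero M (by exact_mod_cast h0)
  refine ⟨m, fun j => 2 + 4 / 5 * z j, hzz, fun a b ha hab hb4 => ?_⟩
  have hne : ∀ t : ℝ, 0 ≤ t → ∀ j, 1 + (t : ℂ) - (2 + 4 / 5 * z j) ≠ 0 := fun t ht j h => by
    have h1 := (hzz j).1
    have h2 := (hzz j).2
    rw [← sub_eq_zero.1 h] at h1 h2
    have h3 : t ≤ 0 := by simpa using h1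
    exact h2 (by rw [le_antisymm h3 ht]; simp)
  have hW : ∀ t : ℝ, 0 ≤ t → t ≤ 1 / 4 → ‖(5 / 4 * ((t : ℂ) - 1))‖ ≤ 16 / 10 := fun t h0 h1 => by
    rw [show (5 / 4 * ((t : ℂ) - 1)) = ((5 / 4 * (t - 1) : ℝ) : ℂ) by push_cast; ring,
      Complex.norm_real, Real.norm_eq_abs, abs_le]
    constructor <;> linarith
  have hWz : ∀ t : ℝ, 0 ≤ t → ∀ j, 5 / 4 * ((t : ℂ) - 1) ≠ z j := fun t ht j h =>
    hne t ht j (by rw [← h]; ring)
  set g : ℝ → ℝ := fun t => Real.log ‖F (5 / 4 * ((t : ℂ) - 1))‖ -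
    ∑ j, Real.log ‖1 + (t : ℂ) - (2 + 4 / 5 * z j)‖ with hg
  have hder : ∀ t : ℝ, 0 ≤ t → t ≤ 1 / 4 → HasDerivAt g
      (5 / 4 * (deriv F (5 / 4 * ((t : ℂ) - 1)) / F (5 / 4 * ((t : ℂ) - 1)) -
        ∑ j, 1 / (5 / 4 * ((t : ℂ) - 1) - z j))).re t := fun t h0 h1 => by
    have a1 : HasDerivAt F (deriv F (5 / 4 * ((t : ℂ) - 1))) (5 / 4 * ((t : ℂ) - 1)) :=
      (hFd.differentiableAt (isOpen_ball.mem_nhds (mem_ball_zero_iff.2
        (by linarith [hW t h0 h1])))).hasDerivAt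
    have a2 : HasDerivAt (fun s : ℂ => 5 / 4 * (s - 1)) (5 / 4 * 1) (t : ℂ) :=
      ((hasDerivAt_id _).sub_const 1).const_mul _
    have a2' : HasDerivAt (fun s : ℂ => F (5 / 4 * (s - 1)))
        (deriv F (5 / 4 * ((t : ℂ) - 1)) * (5 / 4 * 1)) (t : ℂ) :=
      HasDerivAt.comp (h₂ := F) (h := fun s : ℂ => 5 / 4 * (s - 1)) (t : ℂ) a1 a2
    have a3 := hasDerivAt_log_norm (u := fun x : ℝ => F (5 / 4 * ((x : ℂ) - 1))) a2'.comp_ofReal
      (hp _ (hW t h0 h1) (hWz t h0)).1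
    have a4 : ∀ j, HasDerivAt (fun x : ℝ => Real.log ‖1 + (x : ℂ) - (2 + 4 / 5 * z j)‖)
        (1 / (1 + (t : ℂ) - (2 + 4 / 5 * z j))).re t := fun j =>
      hasDerivAt_log_norm (u := fun x : ℝ => 1 + (x : ℂ) - (2 + 4 / 5 * z j))
        (((hasDerivAt_id (t : ℂ)).const_add 1).sub_const _).comp_ofReal (hne t h0 j)
    have a5 := a3.sub (HasDerivAt.fun_sum (u := Finset.univ) fun j _ => a4 j)
    refine a5.congr_deriv ?_
    rw [← Complex.re_sum, ← Complex.sub_re, mul_sub _ (_ / _), Finset.mul_sum]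
    congr 2
    · ring
    · refine Finset.sum_congr rfl fun j _ => ?_
      have e : 1 + (t : ℂ) - (2 + 4 / 5 * z j) = 4 / 5 * (5 / 4 * ((t : ℂ) - 1) - z j) := by ring
      have n := sub_ne_zero.2 (hWz t h0 j)
      rw [e]
      field_simp
  have key := norm_image_sub_le_of_norm_deriv_le_segment' (f := g) (a := a) (b := b)
    (C := 25000 * L)
    (fun t ht => (hder t (ha.trans ht.1) (ht.2.trans hb4)).hasDerivWithinAt)
    (fun t ht => by
      have h0 := ha.trans ht.1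
      have h1 := ht.2.le.trans hb4
      refine (Complex.abs_re_le_norm _).trans ?_
      have : ‖(5 / 4 : ℂ)‖ = 5 / 4 := by simp
      rw [norm_mul, this]
      linarith [(hp _ (hW t h0 h1) (hWz t h0)).2]) b ⟨hab, le_rfl⟩
  have hFz : ∀ t : ℝ, 0 ≤ t → t ≤ 1 / 4 →
      Real.log ‖F (5 / 4 * ((t : ℂ) - 1))‖ = Real.log (Fz M t) := fun t h0 h1 => by
    have e : F (5 / 4 * ((t : ℂ) - 1)) = f (1 + t) := by
      simp only [hF]
      congr 1
      ring
    rw [e, f_eq hd he h0 (by linarith), Complex.norm_real, Real.norm_eq_abs, Real.log_abs]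
  simp only [hg] at key
  rw [hFz a ha (hab.trans hb4), hFz b (ha.trans hab) hb4, Real.norm_eq_abs] at key
  rw [Finset.sum_sub_distrib]
  refine le_trans (le_of_eq ?_) (key.trans ?_)
  · congr 1
    ring
  · have := sub_nonneg.2 hab
    rw [mul_assoc 25000 _ (LL M)]
    gcongr

end Pool.Agent.Lib.MP_9177b7_ag.B
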