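import Pool.Agent.Lib.MP_9177b7_ag.B.St

/-!
From classes with a short vector to ideals of given relative norm.
-/

open NumberField FractionalIdeal
open scoped nonZeroDivisors

noncomputable section

namespace Pool.Agent.Lib.MP_9177b7_ag.B

theorem fib (hF : FrameStmt) (hA : AmbStmt) : FibStmt := by
  classical
  intro n p _ c D S T P hT
  obtain ⟨-, -, -, -, -, -, -, -, -, -, -, f12, f13, -, -, f16, -, -, f19⟩ := hF n p c D
  obtain ⟨_, hA⟩ := hA n p c
  obtain ⟨hA, -⟩ := hA D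
  let Q : D.F → Ideal (𝓞 D.L) → Prop := fun τ g =>
    ((g * D.cI g : Ideal (𝓞 D.L)) : D.FI) * D.Ad = spanSingleton _ (τ : D.L)
  have hAd : D.Ad ≠ 0 := dual_ne_zero _ _ (one_ne_zero' D.FI)
  have fin : ∀ τ : D.F, τ ≠ 0 → {g | Q τ g}.Finite := fun τ hτ => by
    rcases Set.eq_empty_or_nonempty {g | Q τ g} with h | ⟨g₀, h₀⟩
    · rw [h]; exact Set.finite_empty
    have h1 : g₀ * D.cI g₀ ≠ 0 := fun e => by
      have : Q τ g₀ := h₀
      simp only [Q, e, Submodule.zero_eq_bot, coeIdeal_bot, zero_mul] at this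
      exact hτ (by simpa using spanSingleton_eq_zero_iff.1 this.symm)
    refine Set.Finite.subset (s := {x | x ∣ g₀ * D.cI g₀})
      (UniqueFactorizationMonoid.fintypeSubtypeDvd _ h1).finite fun g hg => ?_
    have : g * D.cI g = g₀ * D.cI g₀ :=
      coeIdeal_injective (mul_right_cancel₀ hAd ((hg : Q τ g).trans (h₀ : Q τ g₀).symm))
    exact this ▸ dvd_mul_right _ _
  set s := Finset.univ.filter fun x : D.Cl =>
    ∃ ξ ∈ D.tw (S.b x), ξ ≠ 0 ∧ P (D.lam * ξ * D.bar ξ) with hs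
  have ex : ∀ x : D.Cl, ∃ (ξ : D.L) (τ : D.F) (g : Ideal (𝓞 D.L)), x ∈ s → ξ ≠ 0 ∧ τ ≠ 0 ∧
      (τ : D.L) = D.lam * ξ * D.bar ξ ∧ P τ ∧ (g : D.FI) * D.tw (S.b x) = spanSingleton _ ξ ∧
        Q τ g := by
    intro x
    by_cases hx : x ∈ s
    swap
    · exact ⟨0, 0, 0, fun h => (hx h).elim⟩
    obtain ⟨ξ, h1, h2, h3⟩ := (Finset.mem_filter.1 hx).2
    obtain ⟨a0, -, -, -, a1, -⟩ := f19 _ _ (S.he x)
    obtain ⟨g, hg⟩ := (le_one_iff_exists_coeIdeal (S := (𝓞 D.L)⁰)
      (J := spanSingleton _ ξ * (D.tw (S.b x))⁻¹)).1 (by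
        rw [← mul_inv_cancel₀ a0]
        exact mul_le_mul_left (spanSingleton_le_iff_mem.2 h1) _)
    have hg' : (g : D.FI) * D.tw (S.b x) = spanSingleton _ ξ := by rw [hg, inv_mul_cancel_right₀ a0]
    have hτ : D.lam * ξ * D.bar ξ ∈ maximalRealSubfield D.L := by
      rw [← IsCMField.complexConj_eq_self_iff, map_mul, map_mul, D.sp.real,
        IsCMField.complexConj_apply_apply]
      ring
    refine ⟨ξ, ⟨_, hτ⟩, g, fun _ => ⟨h2, fun e => ?_, rfl, h3, hg', ?_⟩⟩
    · exact mul_ne_zero (mul_ne_zero f16 h2) ((_root_.map_ne_zero _).2 h2) (congrArg Subtype.val e)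
    · change _ = spanSingleton _ (D.lam * ξ * D.bar ξ)
      rw [← spanSingleton_mul_spanSingleton, ← spanSingleton_mul_spanSingleton, ← f13, ← hg', ← a1,
        map_mul D.cF (g : D.FI), f12, coeIdeal_mul]
      ring
  choose ξ τ g h using ex
  let G : D.F → Finset (Ideal (𝓞 D.L)) := fun τ => if h : τ = 0 then ∅ else (fin τ h).toFinset
  have hG : ∀ τ, (G τ).card ≤ D.rr τ := fun τ => by
    by_cases h : τ = 0
    · simp [G, h]
    · simp only [G, dif_neg h]
      rw [← Set.ncard_eq_toFinset_card _ (fin τ h)]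
      exact le_rfl
  have hm : ∀ x ∈ s, g x ∈ G (τ x) := fun x hx => by
    simp only [G, dif_neg (h x hx).2.1, Set.Finite.mem_toFinset]
    exact (h x hx).2.2.2.2.2
  calc s.card ≤ Nat.card D.Amb * (T.sigma G).card := by
        refine Finset.card_le_mul_card_image_of_maps_to
          (f := fun x => (⟨τ x, g x⟩ : Σ _ : D.F, Ideal (𝓞 D.L))) (fun x hx => ?_) _ fun b _ => ?_
        · exact Finset.mem_sigma.2 ⟨hT _ (h x hx).2.1
            ((Finset.card_pos.2 ⟨_, hm x hx⟩).trans_le (hG _)).ne' (h x hx).2.2.2.1, hm x hx⟩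
        rcases Finset.eq_empty_or_nonempty (s.filter fun x => (⟨τ x, g x⟩ : Σ _ : D.F, _) = b)
          with e | ⟨x, hx⟩
        · rw [e]; exact Nat.zero_le _
        obtain ⟨hx, ex⟩ := Finset.mem_filter.1 hx
        rw [← Nat.card_eq_finsetCard]
        refine Nat.card_le_card_of_injective (fun y => (⟨x.1⁻¹ * y.1.1, ?_⟩ : D.Amb))
          fun y y' e => Subtype.ext (Subtype.ext (mul_left_cancel (congrArg Subtype.val e)))
        obtain ⟨hy, ey⟩ := Finset.mem_filter.1 y.2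
        obtain ⟨x1, -, x2, -, x3, -⟩ := h x hx
        obtain ⟨y1, -, y2, -, y3, -⟩ := h y hy
        obtain ⟨e1, e2⟩ := Sigma.mk.inj (ex.trans ey.symm)
        have e2 : g x = g y := eq_of_heq e2
        rw [← S.hb, ← S.hb, ← hA]
        refine ⟨ξ y / ξ x, ?_, ?_⟩
        · have : ξ x * D.bar (ξ x) = ξ y * D.bar (ξ y) :=
            mul_left_cancel₀ f16 (by rw [← mul_assoc, ← mul_assoc, ← x2, ← y2, e1])
          rw [Dat.bar, map_div₀, div_mul_div_comm, ← this,
            div_self (mul_ne_zero x1 ((_root_.map_ne_zero _).2 x1))]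
        · have g0 : ((g x : Ideal (𝓞 D.L)) : D.FI) ≠ 0 :=
            left_ne_zero_of_mul (x3 ▸ spanSingleton_ne_zero_iff.2 x1)
          refine mul_left_cancel₀ g0 ?_
          rw [mul_left_comm _ (spanSingleton _ _), x3, spanSingleton_mul_spanSingleton, div_mul_cancel₀ _ x1, e2, y3]
    _ ≤ _ := by
        rw [Finset.card_sigma]
        exact Nat.mul_le_mul_left _ (Finset.sum_le_sum fun τ _ => hG τ)

end Pool.Agent.Lib.MP_9177b7_ag.B
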