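import Pool.Agent.Lib.MP_9177b7_ag.B.St

/-!
From unbundled to bundled data.
-/

open NumberField Filter Topology
open scoped ComplexConjugate

noncomputable section

namespace Pool.Agent.Lib.MP_9177b7_ag.B

namespace FinA

theorem exists_over {K L Ω : Type} [Field K] [Field L] [Field Ω] [NumberField K] [NumberField L]
    [CharZero Ω] [Algebra K L] {N : ℕ} (hN : 0 < N) (hK : Module.finrank ℚ K = 2)
    (hL : Module.finrank K L = N) (h : Nat.card (L →+* Ω) = 2 * N) (j : K →+* Ω) :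
    ∃ ψ : Fin N → (L →+* Ω), Function.Injective ψ ∧
      ∀ i x, ψ i (algebraMap K L x) = j x := by
  classical
  have : Finite (L →+* Ω) := Nat.finite_of_card_ne_zero (by omega)
  have := Fintype.ofFinite (L →+* Ω)
  have : Finite (K →+* Ω) := Finite.of_equiv _ (RingHom.equivRatAlgHom K Ω).symm
  have := Fintype.ofFinite (K →+* Ω)
  have hT : Fintype.card (K →+* Ω) ≤ 2 := by
    rw [← Nat.card_eq_fintype_card, Nat.card_congr (RingHom.equivRatAlgHom K Ω), ← hK]
    exact card_algHom_le_finrank ℚ K Ω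
  let res : (L →+* Ω) → (K →+* Ω) := fun ψ => ψ.comp (algebraMap K L)
  have hf : ∀ j', (Finset.univ.filter fun ψ => res ψ = j').card ≤ N := fun j' => by
    let := j'.toAlgebra
    rw [← hL, ← Fintype.card_subtype, ← Nat.card_eq_fintype_card]
    refine le_trans ?_ (card_algHom_le_finrank K L Ω)
    refine Nat.card_le_card_of_injective
      (fun ψ => (⟨ψ.1, fun x => RingHom.congr_fun ψ.2 x⟩ : L →ₐ[K] Ω)) fun ψ ψ' e => ?_
    exact Subtype.ext (congrArg AlgHom.toRingHom e)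
  have h1 : N ≤ (Finset.univ.filter fun ψ => res ψ = j).card := by
    have e := Finset.card_eq_sum_card_fiberwise (s := Finset.univ) (t := Finset.univ) (f := res)
      fun _ _ => Finset.mem_coe.2 (Finset.mem_univ _)
    rw [Finset.card_univ, ← Nat.card_eq_fintype_card, h,
      ← Finset.add_sum_erase _ _ (Finset.mem_univ j)] at e
    have h2 := Finset.sum_le_card_nsmul (Finset.univ.erase j) _ N fun j' _ => hf j'
    rw [Finset.card_erase_of_mem (Finset.mem_univ j), Finset.card_univ, smul_eq_mul] at h2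
    have h3 : (Fintype.card (K →+* Ω) - 1) * N ≤ 1 * N := Nat.mul_le_mul_right _ (by omega)
    omega
  obtain ⟨f⟩ := Function.Embedding.nonempty_of_card_le (α := Fin N)
    (β := {ψ // res ψ = j}) (by rwa [Fintype.card_fin, Fintype.card_subtype])
  exact ⟨fun i => (f i).1, Subtype.val_injective.comp f.injective,
    fun i x => RingHom.congr_fun (f i).2 x⟩

theorem exists_cj (K : IntermediateField ℚ ℂ) [NumberField K] (hK : Module.finrank ℚ K = 2)
    (hz : ∃ z ∈ K, z.im ≠ 0) : ∃ (cj : K ≃+* K) (δ : 𝓞 K), (∀ x, (cj x : ℂ) = conj (x : ℂ)) ∧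
      δ ≠ 0 ∧ cj δ = -δ := by
  have : Algebra.IsQuadraticExtension ℚ K := ⟨hK⟩
  let σ := (Complex.conjAe.restrictScalars ℚ).restrictNormal K
  have hσ : ∀ x, (σ x : ℂ) = conj (x : ℂ) := fun x =>
    (Complex.conjAe.restrictScalars ℚ).restrictNormal_commutes K x
  obtain ⟨z, hz, him⟩ := hz
  set w : K := ⟨z, hz⟩ - σ ⟨z, hz⟩ with hw
  have w0 : w ≠ 0 := fun e => him (by
    have := congrArg (fun x : K => (x : ℂ).im) e
    simp only [hw, AddSubgroupClass.coe_sub, hσ, Complex.sub_im, Complex.conj_im,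
      ZeroMemClass.coe_zero, Complex.zero_im] at this
    linarith)
  have hc : σ w = -w := Subtype.ext (by simp [hw, hσ])
  obtain ⟨y, y0, hy⟩ := ((IsFractionRing.isAlgebraic_iff ℤ ℚ K).2
    (Algebra.IsAlgebraic.isAlgebraic w)).exists_integral_multiple
  refine ⟨σ.toRingEquiv, ⟨y • w, hy⟩, hσ, fun e => smul_ne_zero y0 w0 (congrArg Subtype.val e), ?_⟩
  change σ (y • w) = -(y • w)
  rw [map_zsmul, hc, smul_neg]

end FinA

theorem fin (hM : MainStmt) : FinalStmt := by
  classical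
  intro n p _ K _ hK hz L _ _ _ _ φ lam a sp hlim
  obtain ⟨cj, δ, h1, h2, h3⟩ := FinA.exists_cj K hK hz
  obtain ⟨ψ₀⟩ : Nonempty (L 0 →+* ℚ_[p]) := (Nat.card_ne_zero.1 (by rw [(sp 0).split]; omega)).1
  let c : Ctx p := ⟨K, hK, cj, h1, δ, h2, h3, ψ₀.comp (algebraMap K (L 0))⟩
  choose ψ hψ hψ' using fun m =>
    FinA.exists_over (Nat.succ_pos _) hK (sp m).dim (sp m).split c.j
  have ex : ∀ m, ∃ Φ : Fin (n + 3) ≃ (L m →ₐ[K] ℂ), Φ 1 = φ m := fun m => by
    let e : (L m →ₐ[K] ℂ) ≃ Fin (n + 3) :=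
      Fintype.equivFinOfCardEq ((AlgHom.card K (L m) ℂ).trans (sp m).dim)
    exact ⟨(Equiv.swap 1 (e (φ m))).trans e.symm, by simp⟩
  choose Φ hΦ using ex
  refine hM n p c (fun m => ⟨L m, φ m, lam m, a m, sp m, ψ m, hψ m, hψ' m, Φ m, hΦ m⟩) ?_
  refine (tendsto_natCast_atTop_atTop.comp hlim).congr fun m => ?_
  simp [Nat.cast_natAbs]

end Pool.Agent.Lib.MP_9177b7_ag.B
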