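import Pool.Agent.Lib.MP_9177b7_ag.B.Frame1

/-!
Frames of hermitian lattices: coordinates, duality, signs.
-/

open NumberField Matrix
open scoped nonZeroDivisors ComplexConjugate

noncomputable section

namespace Pool.Agent.Lib.MP_9177b7_ag.B.Frame

theorem Jm_mul {n : ℕ} {R : Type} [CommRing R] (M : Matrix (Fin (n + 3)) (Fin (n + 3)) R)
    (i k : Fin (n + 3)) : (Jm n R * M) i k = M (Equiv.swap 0 1 i) k := by
  simp [Jm, mul_apply]

theorem Jm_mulVec {n : ℕ} {R : Type} [CommRing R] (v : Fin (n + 3) → R) (i : Fin (n + 3)) :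
    (Jm n R *ᵥ v) i = v (Equiv.swap 0 1 i) := by
  simp [Jm, mulVec, dotProduct]

theorem Jm_symm {n : ℕ} {R : Type} [CommRing R] (i k : Fin (n + 3)) : Jm n R i k = Jm n R k i := by
  simp only [Jm, of_apply]
  refine if_congr ⟨?_, ?_⟩ rfl rfl <;> rintro rfl <;> simp

/-- A form of signature `(n + 2, 1)` has no negative plane. -/
theorem no_plane {n : ℕ} (v w : Fin (n + 3) → ℂ) (s t : ℝ) (hs : s < 0) (ht : t < 0)
    (h1 : ∑ k, v k * conj (v (Equiv.swap 0 1 k)) = s)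
    (h2 : ∑ k, w k * conj (w (Equiv.swap 0 1 k)) = t)
    (h3 : ∑ k, v k * conj (w (Equiv.swap 0 1 k)) = 0)
    (h4 : ∑ k, w k * conj (v (Equiv.swap 0 1 k)) = 0) : False := by
  have key : ∀ a b : ℂ, a * (v 0 - v 1) + b * (w 0 - w 1) = 0 →
      0 ≤ Complex.normSq a * s + Complex.normSq b * t := by
    intro a b h
    have e : ∀ k, a * v (Equiv.swap 0 1 k) + b * w (Equiv.swap 0 1 k) = a * v k + b * w k := by
      intro k
      rw [Equiv.swap_apply_def]
      split_ifs with h0 h1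
      · subst h0; linear_combination -h
      · subst h1; linear_combination h
      · rfl
    have e1 : ∑ k, (a * v k + b * w k) * conj (a * v (Equiv.swap 0 1 k) +
        b * w (Equiv.swap 0 1 k)) = a * conj a * s + b * conj b * t := by
      rw [← h1, ← h2, ← add_zero (_ + _ : ℂ), ← mul_zero (a * conj b), ← h3, ← add_zero (_ + _ : ℂ),
        ← mul_zero (b * conj a), ← h4]
      simp only [Finset.mul_sum, ← Finset.sum_add_distrib, map_add, map_mul]
      exact Finset.sum_congr rfl fun k _ => by ring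
    simp only [e, Complex.mul_conj] at e1
    have e2 : ∑ k, Complex.normSq (a * v k + b * w k) =
        Complex.normSq a * s + Complex.normSq b * t := by exact_mod_cast e1
    rw [← e2]
    exact Finset.sum_nonneg fun k _ => Complex.normSq_nonneg _
  by_cases h : v 0 - v 1 = 0
  · have := key 1 0 (by simp [h])
    simp only [map_one, map_zero] at this
    linarith
  · have := key (w 0 - w 1) (-(v 0 - v 1)) (by ring)
    have i1 := Complex.normSq_nonneg (w 0 - w 1)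
    have i2 := Complex.normSq_pos.2 (neg_ne_zero.2 h)
    nlinarith

variable {n p : ℕ} [Fact p.Prime] {c : Ctx p} {D : Dat n c}

/-- The Gram matrix is the standard one. -/
def Gr (D : Dat n c) (e : Fin (n + 3) → D.L) : Prop :=
  ∀ i j, Algebra.trace c.K D.L (D.lam * e i * D.bar (e j)) = Jm n c.K i j

theorem tr_lin (d : c.K) (x : D.L) :
    Algebra.trace c.K D.L (algebraMap c.K D.L d * x) = d * Algebra.trace c.K D.L x := by
  rw [← Algebra.smul_def, map_smul, smul_eq_mul]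

theorem Gr.dual {e : Fin (n + 3) → D.L} (h : Gr D e) (i k : Fin (n + 3)) :
    Algebra.trace c.K D.L (e k * D.du e i) = if i = k then 1 else 0 := by
  rw [Dat.du, mul_left_comm, ← mul_assoc, h]
  simp [Jm]

theorem Gr.coord {e : Fin (n + 3) → D.L} (h : Gr D e) (d : Fin (n + 3) → c.K) (i : Fin (n + 3)) :
    Algebra.trace c.K D.L ((∑ k, algebraMap c.K D.L (d k) * e k) * D.du e i) = d i := by
  simp only [Finset.sum_mul, map_sum, mul_assoc, tr_lin, h.dual]
  simp

theorem Gr.expand {e : Fin (n + 3) → D.L} (h : Gr D e) (x : D.L) :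
    x = ∑ i, algebraMap c.K D.L (Algebra.trace c.K D.L (x * D.du e i)) * e i := by
  have li : LinearIndependent c.K e := by
    refine Fintype.linearIndependent_iff.2 fun d hd i => ?_
    simp only [Algebra.smul_def] at hd
    rw [← h.coord d i, hd, zero_mul, map_zero]
  have sp := li.span_eq_top_of_card_eq_finrank (by rw [Fintype.card_fin, D.sp.dim])
  obtain ⟨d, rfl⟩ := (Submodule.mem_span_range_iff_exists_fun c.K).1
    (sp ▸ Submodule.mem_top : x ∈ Submodule.span c.K (Set.range e))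
  simp only [Algebra.smul_def, h.coord]

theorem comb_mem {a : D.FI} {e : Fin (n + 3) → D.L} (he : ∀ i, e i ∈ a)
    {d : Fin (n + 3) → c.K} (hd : ∀ i, IsIntegral ℤ (d i)) :
    ∑ i, algebraMap c.K D.L (d i) * e i ∈ a := by
  rw [← FractionalIdeal.mem_coe]
  refine Submodule.sum_mem _ fun i _ => ?_
  exact Submodule.smul_mem (a : Submodule (𝓞 D.L) D.L)
    (⟨algebraMap c.K D.L (d i), (hd i).map (algebraMap c.K D.L).toIntAlgHom⟩ : 𝓞 D.L) (he i)

theorem fr_mem {a : D.FI} {e : Fin (n + 3) → D.L} (h : D.Fr a e) (i : Fin (n + 3)) : e i ∈ a := by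
  refine (h.2 _).2 ⟨Pi.single i 1, ?_⟩
  rw [Finset.sum_eq_single i (fun j _ hj => by simp [Pi.single_eq_of_ne hj]) (by simp)]
  simp

theorem fr_ne {a : D.FI} {e : Fin (n + 3) → D.L} (h : D.Fr a e) : a ≠ 0 := by
  rintro rfl
  have h1 := Gr.dual h.1 0 0
  rw [(FractionalIdeal.mem_zero_iff _).1 (fr_mem h 0)] at h1
  simp at h1

theorem fr_int {a : D.FI} {e : Fin (n + 3) → D.L} (h : D.Fr a e) {x : D.L} (hx : x ∈ a)
    (i : Fin (n + 3)) : IsIntegral ℤ (Algebra.trace c.K D.L (x * D.du e i)) := by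
  obtain ⟨d, rfl⟩ := (h.2 x).1 hx
  rw [Gr.coord h.1]
  exact (d i).isIntegral_coe

theorem fr_unit {a : D.FI} {e : Fin (n + 3) → D.L} (h : D.Fr a e) (u : D.L)
    (hu : u * D.bar u = 1) : D.Fr (FractionalIdeal.spanSingleton _ u * a) fun i => u * e i := by
  refine ⟨fun i j => ?_, fun x => ?_⟩
  · rw [← h.1 i j]
    refine congrArg _ ?_
    rw [map_mul]
    linear_combination (D.lam * e i * D.bar (e j)) * hu
  · have e1 : ∀ d : Fin (n + 3) → 𝓞 c.K, ∑ i, algebraMap c.K D.L (d i) * (u * e i) =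
        u * ∑ i, algebraMap c.K D.L (d i) * e i := fun d => by
      rw [Finset.mul_sum]
      exact Finset.sum_congr rfl fun i _ => by ring
    simp only [FractionalIdeal.mem_singleton_mul, h.2, e1]
    exact ⟨fun ⟨_, ⟨d, e2⟩, e3⟩ => ⟨d, e2 ▸ e3⟩, fun ⟨d, e2⟩ => ⟨_, ⟨d, rfl⟩, e2⟩⟩

theorem tr_bar (e : Fin (n + 3) → D.L) (d : Fin (n + 3) → c.K) (x : D.L) :
    Algebra.trace c.K D.L (D.lam * x * D.bar (∑ j, algebraMap c.K D.L (d j) * e j)) =
      ∑ j, c.cj (d j) * Algebra.trace c.K D.L (x * D.du e (Equiv.swap 0 1 j)) := by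
  have h1 := fr1 D
  simp only [Dat.bar] at h1 ⊢
  simp only [map_sum, map_mul, h1, Finset.mul_sum, ← tr_lin, Dat.du, Dat.bar,
    Equiv.swap_apply_self]
  exact Finset.sum_congr rfl fun j _ => congrArg _ (by ring)

theorem Gr.change {e : Fin (n + 3) → D.L} (h : Gr D e)
    (γ : Matrix (Fin (n + 3)) (Fin (n + 3)) c.K) (k l : Fin (n + 3)) :
    Algebra.trace c.K D.L (D.lam * (∑ i, algebraMap c.K D.L (γ i k) * e i) *
      D.bar (∑ i, algebraMap c.K D.L (γ i l) * e i)) = ((γ.map c.cj)ᵀ * Jm n c.K * γ) l k := by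
  rw [tr_bar e fun i => γ i l, Matrix.mul_assoc, mul_apply]
  refine Finset.sum_congr rfl fun j _ => ?_
  rw [h.coord fun i => γ i k, Jm_mul, transpose_apply, map_apply]

theorem fr_le {a : D.FI} {e : Fin (n + 3) → D.L} (h : D.Fr a e) :
    FractionalIdeal.spanSingleton _ D.lam * a * D.cF a ≤ D.Ad := by
  refine FractionalIdeal.mul_le.2 fun x hx y hy => (mem_Ad D _).2 fun z => ?_
  obtain ⟨x, hx', rfl⟩ := FractionalIdeal.mem_singleton_mul.1 hx
  obtain ⟨d, hd⟩ := (h.2 _).1 ((fr11 D a y).1 hy)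
  have hz : (z : D.L) * x ∈ a := Submodule.smul_mem (a : Submodule (𝓞 D.L) D.L) z hx'
  rw [← IsCMField.complexConj_apply_apply D.L y,
    show ∀ w : D.L, D.lam * x * w * z = D.lam * (z * x) * w from fun w => by ring]
  change IsIntegral ℤ (Algebra.trace c.K D.L (D.lam * (z * x) * D.bar (D.bar y)))
  rw [hd, tr_bar e fun j => d j]
  exact IsIntegral.sum _ fun j _ =>
    ((d j).isIntegral_coe.map c.cj.toRingHom.toIntAlgHom).mul (fr_int h hz _)

theorem du_mem {a : D.FI} {e : Fin (n + 3) → D.L} (he : ∀ i, e i ∈ a) (i : Fin (n + 3)) :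
    D.du e i ∈ FractionalIdeal.spanSingleton _ D.lam * D.cF a :=
  FractionalIdeal.mem_singleton_mul.2 ⟨_, (fr11 D a _).2 (by
    rw [Dat.bar, Dat.bar, IsCMField.complexConj_apply_apply]; exact he _), rfl⟩

theorem mem_of_le {a a' : D.FI} {e : Fin (n + 3) → D.L} (he : ∀ i, e i ∈ a)
    (hl : a' * (FractionalIdeal.spanSingleton _ D.lam * D.cF a) ≤ D.Ad) {x : D.L} (hx : x ∈ a')
    (i : Fin (n + 3)) : IsIntegral ℤ (Algebra.trace c.K D.L (x * D.du e i)) := by
  simpa using (mem_Ad D _).1 (hl (FractionalIdeal.mul_mem_mul hx (du_mem he i))) 1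

theorem crit (a : D.FI) (e : Fin (n + 3) → D.L) (h : Gr D e) (he : ∀ i, e i ∈ a)
    (hl : FractionalIdeal.spanSingleton _ D.lam * a * D.cF a ≤ D.Ad) : D.Fr a e := by
  refine ⟨h, fun x => ⟨fun hx => ?_, ?_⟩⟩
  · rw [mul_right_comm, mul_comm] at hl
    exact ⟨fun i => ⟨_, mem_of_le he hl hx i⟩, h.expand x⟩
  · rintro ⟨d, rfl⟩
    exact comb_mem he fun i => (d i).isIntegral_coe

theorem fr_eq {a : D.FI} {e : Fin (n + 3) → D.L} (h : D.Fr a e) :
    FractionalIdeal.spanSingleton _ D.lam * a * D.cF a = D.Ad := by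
  refine le_antisymm (fr_le h) ?_
  have n0 : FractionalIdeal.spanSingleton (𝓞 D.L)⁰ D.lam * D.cF a ≠ 0 :=
    mul_ne_zero (FractionalIdeal.spanSingleton_ne_zero_iff.2 (fr16 D))
      ((map_ne_zero_iff _ D.cF.injective).2 (fr_ne h))
  have e1 := inv_mul_cancel_right₀ n0 D.Ad
  have l1 : D.Ad * (FractionalIdeal.spanSingleton (𝓞 D.L)⁰ D.lam * D.cF a)⁻¹ ≤ a := by
    intro x hx
    change x ∈ a
    rw [Gr.expand h.1 x]
    exact comb_mem (fr_mem h) (mem_of_le (fr_mem h) e1.le hx)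
  rw [mul_right_comm, mul_comm, ← e1]
  exact mul_le_mul_left l1 _

theorem fr_gam {a : D.FI} {e : Fin (n + 3) → D.L} (h : D.Fr a e)
    (γ : Matrix (Fin (n + 3)) (Fin (n + 3)) c.K) (hγ : c.Uni γ) (hi : ∀ i k, IsIntegral ℤ (γ i k)) :
    D.Fr a fun k => ∑ i, algebraMap c.K D.L (γ i k) * e i :=
  crit a _ (fun k l => by rw [Gr.change h.1, hγ, Jm_symm])
    (fun k => comb_mem (fr_mem h) fun i => hi i k) (fr_le h)

theorem Gr.uni {e e' : Fin (n + 3) → D.L} (h : Gr D e) (h' : Gr D e') :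
    c.Uni (Matrix.of fun i k => Algebra.trace c.K D.L (e' k * D.du e i)) := by
  ext l k
  rw [← Gr.change h]
  simp only [of_apply, ← h.expand]
  rw [h', Jm_symm]

theorem Gr.psi {e : Fin (n + 3) → D.L} (h : Gr D e) : (D.Ψm (D.du e))ᵀ * D.Ψm e = 1 := by
  ext i k
  simp only [mul_apply, transpose_apply, Dat.Ψm, of_apply, ← map_mul, ← fr3]
  rw [mul_comm, h.dual, one_apply]
  split_ifs <;> simp

theorem Gr.phi {e : Fin (n + 3) → D.L} (h : Gr D e) : (D.Φm (D.du e))ᵀ * D.Φm e = 1 := by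
  ext i k
  simp only [mul_apply, transpose_apply, Dat.Φm, of_apply, ← map_mul, ← fr4]
  rw [mul_comm, h.dual, one_apply]
  split_ifs <;> simp

theorem Gr.orth {e : Fin (n + 3) → D.L} (h : Gr D e) (l m : Fin (n + 3)) :
    D.Φ m D.lam * ∑ k, D.Φ l (e k) * conj (D.Φ m (e (Equiv.swap 0 1 k))) =
      if l = m then 1 else 0 := by
  have e0 : D.Φm e * (D.Φm (D.du e))ᵀ = 1 := mul_eq_one_comm.1 h.phi
  have e1 := congrFun (congrFun e0 l) m
  rw [one_apply] at e1
  rw [← e1, mul_apply, Finset.mul_sum]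
  refine Finset.sum_congr rfl fun k _ => ?_
  have := IsCMField.complexEmbedding_complexConj D.L (D.Φ m).toRingHom (e (Equiv.swap 0 1 k))
  simp only [AlgHom.toRingHom_eq_coe, RingHom.coe_coe] at this
  simp only [Dat.Φm, transpose_apply, of_apply, Dat.du, map_mul, Dat.bar, this]
  ring

theorem lam_real (i : Fin (n + 3)) : D.Φ i D.lam = ((D.Φ i D.lam).re : ℝ) := by
  have := IsCMField.complexEmbedding_complexConj D.L (D.Φ i).toRingHom D.lam
  rw [D.sp.real] at this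
  exact (Complex.conj_eq_iff_re.1 this.symm).symm

theorem Gr.self {e : Fin (n + 3) → D.L} (h : Gr D e) (l : Fin (n + 3)) :
    (D.Φ l D.lam).re ≠ 0 ∧ ∑ k, D.Φ l (e k) * conj (D.Φ l (e (Equiv.swap 0 1 k))) =
      (((D.Φ l D.lam).re⁻¹ : ℝ) : ℂ) := by
  have e1 := h.orth l l
  rw [if_pos rfl, lam_real] at e1
  exact ⟨fun h0 => by simp [h0] at e1, by
    rw [Complex.ofReal_inv]; exact eq_inv_of_mul_eq_one_right e1⟩

theorem Gr.cone {e : Fin (n + 3) → D.L} (h : Gr D e) :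
    ∃ v : Cone n, ∀ i, v.1 i = conj (D.φ (e (Equiv.swap 0 1 i))) := by
  refine ⟨⟨fun i => conj (D.φ (e (Equiv.swap 0 1 i))), ?_⟩, fun _ => rfl⟩
  have e1 := (h.self 1).2
  rw [D.Φ_one, ← Equiv.sum_comp (Equiv.swap 0 1)] at e1
  simp only [dotProduct, Jm_mulVec, Pi.star_apply, RCLike.star_def, Complex.conj_conj]
  rw [e1, Complex.ofReal_re]
  exact inv_lt_zero.2 D.sp.neg

theorem signs (i : Fin (n + 3)) : (D.Φ i D.lam).im = 0 ∧ (i ≠ 1 → 0 < (D.Φ i D.lam).re) := by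
  refine ⟨by rw [lam_real, Complex.ofReal_im], fun hi => ?_⟩
  obtain ⟨e, he⟩ := D.sp.frame
  have h : Gr D e := he.1
  have n0 : ∀ l, D.Φ l D.lam ≠ 0 := fun l h0 => (h.self l).1 (by rw [h0, Complex.zero_re])
  refine lt_of_le_of_ne (not_lt.1 fun hn => ?_) (h.self i).1.symm
  refine no_plane (fun k => D.Φ 1 (e k)) (fun k => D.Φ i (e k)) _ _
    (inv_lt_zero.2 (by rw [D.Φ_one]; exact D.sp.neg)) (inv_lt_zero.2 hn) (h.self 1).2
    (h.self i).2 ?_ ?_
  · exact (mul_eq_zero.1 ((h.orth 1 i).trans (if_neg hi.symm))).resolve_left (n0 i)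
  · exact (mul_eq_zero.1 ((h.orth i 1).trans (if_neg hi))).resolve_left (n0 1)

end Pool.Agent.Lib.MP_9177b7_ag.B.Frame

namespace Pool.Agent.Lib.MP_9177b7_ag.B

open _root_.Pool.Agent.Lib.MP_9177b7_ag.B.Frame in
theorem frame : FrameStmt := fun _ _ _ _ D =>
  ⟨fr1 D, fr2 D, fr3 D, fr4 D, fr5 D, fr6 D, fr7 D, fr8 D, fr9 D, fr10 D, fr11 D, fr12 D, fr13 D,
    fr14 D, fr15 D, fr16 D, signs, crit, fun _ _ h => ⟨fr_ne h, fr_mem h, Gr.expand h.1,
      Gr.dual h.1, fr_eq h, Gr.psi h.1, Gr.phi h.1, Gr.cone h.1, fr_unit h, fr_gam h,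
      fun _ _ h' => Gr.uni h.1 h'.1⟩⟩

end Pool.Agent.Lib.MP_9177b7_ag.B
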