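import Pool.Agent.Lib.MP_9177b7_ag.B.StE
import Pool.Agent.Shared.FrobeniusDensity

/-!
Frobenius elements and primes of degree one, with an explicit exceptional set.
-/

open Finset NumberField Pool.Agent.Shared.PrimeZeta Pool.Agent.Shared.FrobeniusDensity
open scoped Pointwise

namespace Pool.Agent.Lib.MP_9177b7_ag.B

namespace Frob

variable {K : Type} [Field K] [NumberField K]

/-- Separation of cosets modulo a prime that separates the conjugates of `Θ`. -/
theorem sep (H : Subgroup (K ≃ₐ[ℚ] K)) (Θ : 𝓞 K) {P : Ideal (𝓞 K)} (hP : P.IsPrime)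
    (hΘ : ∀ σ τ : K ≃ₐ[ℚ] K, σ • Θ - τ • Θ ∈ P → σ = τ) (g g' : K ≃ₐ[ℚ] K)
    (h : ∀ x : 𝓞 (IntermediateField.fixedField H),
      g • algebraMap _ (𝓞 K) x - g' • algebraMap _ (𝓞 K) x ∈ P) : g⁻¹ * g' ∈ H := by
  classical
  let := Fintype.ofFinite H
  set f := MulSemiringAction.charpoly H Θ with hf
  have hc : ∀ k, g • f.coeff k - g' • f.coeff k ∈ P := by
    intro k
    have m : ((f.coeff k : 𝓞 K) : K) ∈ IntermediateField.fixedField H := by
      rw [IntermediateField.mem_fixedField_iff]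
      intro s hs
      exact congrArg (fun z : 𝓞 K => (z : K))
        (MulSemiringAction.smul_coeff_charpoly Θ k (⟨s, hs⟩ : H))
    have i : IsIntegral ℤ (⟨_, m⟩ : IntermediateField.fixedField H) :=
      (isIntegral_algHom_iff ((IntermediateField.fixedField H).val.restrictScalars ℤ)
        Subtype.val_injective).1 (f.coeff k).2
    exact h ⟨_, i⟩
  have ev : ∀ (s : K ≃ₐ[ℚ] K) (y : 𝓞 K), s • f.eval y =
      ∑ k ∈ range (f.natDegree + 1), s • f.coeff k * (s • y) ^ k := by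
    intro s y
    rw [Polynomial.eval_eq_sum_range, smul_sum]
    exact sum_congr rfl fun k _ => by rw [smul_mul', smul_pow']
  have e1 := ev g (g⁻¹ • g' • Θ)
  have e2 := ev g' Θ
  rw [smul_inv_smul] at e1
  rw [hf, MulSemiringAction.eval_charpoly, smul_zero, ← hf] at e2
  have e3 : g • f.eval (g⁻¹ • g' • Θ) ∈ P := by
    rw [← sub_zero (g • f.eval (g⁻¹ • g' • Θ)), e2, e1, ← sum_sub_distrib]
    exact P.sum_mem fun k _ => by rw [← sub_mul]; exact P.mul_mem_right _ (hc k)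
  rw [hf, MulSemiringAction.charpoly_eq, Polynomial.eval_prod, smul_prod'] at e3
  obtain ⟨s, -, hs⟩ := Ideal.IsPrime.prod_mem_iff.1 e3
  rw [Polynomial.eval_sub, Polynomial.eval_X, Polynomial.eval_C, smul_sub, smul_inv_smul,
    Subgroup.smul_def, ← mul_smul] at hs
  rw [hΘ _ _ hs, inv_mul_cancel_left]
  exact s.2

open scoped Classical in
theorem count [IsGalois ℚ K] (H : Subgroup (K ≃ₐ[ℚ] K)) {p : ℕ} (hp : p.Prime)
    {P : Ideal (𝓞 K)} (hP : P.IsPrime) (hpP : (p : 𝓞 K) ∈ P) {φ : K ≃ₐ[ℚ] K}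
    (hφ : ∀ x : 𝓞 K, φ • x - x ^ p ∈ P)
    (sep : ∀ g g' : K ≃ₐ[ℚ] K, (∀ x : 𝓞 (IntermediateField.fixedField H),
      g • algebraMap _ (𝓞 K) x - g' • algebraMap _ (𝓞 K) x ∈ P) → g⁻¹ * g' ∈ H) :
    (univ.filter fun g : K ≃ₐ[ℚ] K => g⁻¹ * φ * g ∈ H).card =
      Nat.card H * nI (IntermediateField.fixedField H) p := by
  set L := IntermediateField.fixedField H with hL
  let j : 𝓞 L →+* 𝓞 K := algebraMap _ _
  have jH : ∀ h ∈ H, ∀ x, h • j x = j x := by
    intro h hh x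
    apply RingOfIntegers.ext
    exact (IntermediateField.mem_fixedField_iff H _).1 (x : L).2 h hh
  let Q : (K ≃ₐ[ℚ] K) → Ideal (𝓞 L) := fun g =>
    (P.comap (MulSemiringAction.toRingHom (K ≃ₐ[ℚ] K) (𝓞 K) g)).comap j
  have memQ : ∀ g x, x ∈ Q g ↔ g • j x ∈ P := fun g x => Iff.rfl
  have hQ : ∀ g, (Q g).IsPrime := fun g => inferInstance
  have smul_int : ∀ (g : K ≃ₐ[ℚ] K) (n : ℤ), g • (n : 𝓞 K) = n := fun g n =>
    map_intCast (MulSemiringAction.toRingHom (K ≃ₐ[ℚ] K) (𝓞 K) g) n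
  have smul_nat : ∀ (g : K ≃ₐ[ℚ] K) (n : ℕ), g • (n : 𝓞 K) = n := fun g n =>
    map_natCast (MulSemiringAction.toRingHom (K ≃ₐ[ℚ] K) (𝓞 K) g) n
  rw [card_eq_sum_card_fiberwise (f := Q) (t := idl L p), ← card_idl, mul_comm, ← smul_eq_mul,
    ← sum_const]
  · refine sum_congr rfl fun I hI => ?_
    have hN := mem_idl.1 hI
    have hIp : I.IsPrime := Ideal.isPrime_of_irreducible_absNorm (hN ▸ hp)
    have hI0 : I ≠ ⊥ := by
      rintro rfl
      rw [Ideal.absNorm_bot] at hN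
      exact hp.ne_zero hN.symm
    have hIm := hIp.isMaximal hI0
    have hpI : (p : 𝓞 L) ∈ I := hN ▸ Ideal.absNorm_mem I
    obtain ⟨P', hP', e'⟩ := Ideal.exists_ideal_over_maximal_of_isIntegral (S := 𝓞 K) I (by
      rw [RingOfIntegers.ker_algebraMap_eq_bot]; exact bot_le)
    have hpP' : (p : 𝓞 K) ∈ P' := by
      have : (p : 𝓞 L) ∈ P'.comap (algebraMap (𝓞 L) (𝓞 K)) := e' ▸ hpI
      simpa using this
    obtain ⟨g₀, hg₀⟩ := Algebra.IsInvariant.exists_smul_of_under_eq ℤ (𝓞 K) (K ≃ₐ[ℚ] K) P' P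
      (by rw [under_eq hP'.ne_top hp hpP', under_eq hP.ne_top hp hpP])
    have Q0 : Q g₀ = I := by
      ext x
      rw [memQ, hg₀, Ideal.smul_mem_pointwise_smul_iff, ← e']
      rfl
    have key : ∀ g, Q g = I → ∀ x, ∃ n : ℤ, g • j x - n ∈ P ∧ g₀ • j x - n ∈ P := by
      intro g hg x
      obtain ⟨n, hn⟩ := exists_int_of_absNorm hp hN x
      refine ⟨n, ?_, ?_⟩
      · have := (memQ g _).1 (hg ▸ hn)
        rwa [map_sub, smul_sub, map_intCast, smul_int] at this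
      · have := (memQ g₀ _).1 (Q0 ▸ hn)
        rwa [map_sub, smul_sub, map_intCast, smul_int] at this
    have h0 : g₀⁻¹ * (φ * g₀) ∈ H := by
      refine sep _ _ fun x => ?_
      obtain ⟨n, hn, -⟩ := key g₀ Q0 x
      have a1 := hφ (g₀ • j x)
      have a2 : (g₀ • j x) ^ p - (n : 𝓞 K) ^ p ∈ P :=
        Ideal.mem_of_dvd _ (sub_dvd_pow_sub_pow _ _ _) hn
      have a3 := hφ n
      rw [smul_int] at a3
      have : g₀ • j x - (φ * g₀) • j x = (g₀ • j x - n) - (φ • g₀ • j x - (g₀ • j x) ^ p) -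
          ((g₀ • j x) ^ p - (n : 𝓞 K) ^ p) + ((n : 𝓞 K) - n ^ p) := by
        rw [mul_smul]; ring
      change g₀ • j x - (φ * g₀) • j x ∈ P
      rw [this]
      exact P.add_mem (P.sub_mem (P.sub_mem hn a1) a2) a3
    have : ((univ.filter fun g : K ≃ₐ[ℚ] K => g⁻¹ * φ * g ∈ H).filter fun g => Q g = I) =
        (univ : Finset H).image fun h : H => g₀ * h := by
      ext g
      simp only [mem_filter, mem_univ, true_and, mem_image]
      constructor
      · rintro ⟨-, h2⟩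
        refine ⟨⟨g₀⁻¹ * g, sep _ _ fun x => ?_⟩, by simp⟩
        obtain ⟨n, a1, a2⟩ := key g h2 x
        simpa using P.sub_mem a2 a1
      · rintro ⟨h, rfl⟩
        refine ⟨?_, ?_⟩
        · have : (g₀ * h)⁻¹ * φ * (g₀ * h) = (h : K ≃ₐ[ℚ] K)⁻¹ * (g₀⁻¹ * (φ * g₀)) * h := by group
          rw [this]
          exact H.mul_mem (H.mul_mem (H.inv_mem h.2) h0) h.2
        · rw [← Q0]
          ext x
          rw [memQ, memQ, mul_smul, jH _ h.2]
    rw [this, card_image_of_injective _ fun a b hab => Subtype.ext (mul_left_cancel hab)]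
    simp
  · intro g hg
    have hg : g⁻¹ * φ * g ∈ H := by simpa using hg
    refine mem_coe.2 (mem_idl.2 (absNorm_eq_of_pow (hQ g) hp ?_ fun x => ?_))
    · rw [memQ, map_natCast, smul_nat]; exact hpP
    · have a1 := jH _ hg x
      rw [mul_smul, mul_smul, inv_smul_eq_iff] at a1
      have a2 := hφ (g • j x)
      rw [a1] at a2
      rw [memQ, map_sub, map_pow, smul_sub, smul_pow', ← neg_sub]
      exact P.neg_mem a2

/-- The discriminant of the powers of `Θ`. -/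
theorem disc [IsGalois ℚ K] (Θ : 𝓞 K) (e : Fin (Module.finrank ℚ K) ≃ (K ≃ₐ[ℚ] K)) :
    ∃ m : ℤ, ((m ^ 2 * discr K : ℤ) : 𝓞 K) =
      (∏ i, ∏ j ∈ Ioi i, (e j • Θ - e i • Θ)) ^ 2 := by
  classical
  let b := (integralBasis K).reindex (Fintype.equivFinOfCardEq (Module.finrank_eq_card_basis
    (integralBasis K)).symm)
  set e' := Fintype.equivFinOfCardEq (Module.finrank_eq_card_basis (integralBasis K)).symm
  let P : Matrix (Fin (Module.finrank ℚ K)) (Fin (Module.finrank ℚ K)) ℤ :=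
    fun i j => (RingOfIntegers.basis K).repr (Θ ^ (i : ℕ)) (e'.symm j)
  refine ⟨P.det, ?_⟩
  have h1 : (fun i : Fin (Module.finrank ℚ K) => (Θ : K) ^ (i : ℕ)) =
      ((P.map (algebraMap ℤ ℚ)).map (algebraMap ℚ K)).mulVec (integralBasis K ∘ e'.symm) := by
    funext i
    have := (integralBasis K).sum_repr (algebraMap (𝓞 K) K (Θ ^ (i : ℕ)))
    rw [map_pow] at this
    refine this.symm.trans ?_
    rw [Matrix.mulVec, dotProduct, ← Equiv.sum_comp e'.symm]
    refine sum_congr rfl fun j _ => ?_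
    rw [← map_pow, integralBasis_repr_apply, Algebra.smul_def]
    rfl
  have h2 : Algebra.discr ℚ (fun i : Fin (Module.finrank ℚ K) => (Θ : K) ^ (i : ℕ)) =
      ((P.det ^ 2 * discr K : ℤ) : ℚ) := by
    rw [h1, Algebra.discr_of_matrix_mulVec, Algebra.discr_reindex, ← coe_discr]
    have := (algebraMap ℤ ℚ).map_det P
    rw [RingHom.mapMatrix_apply] at this
    rw [← this]
    simp
  have h3 : algebraMap ℚ K
      (Algebra.discr ℚ (fun i : Fin (Module.finrank ℚ K) => (Θ : K) ^ (i : ℕ))) =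
      (Matrix.vandermonde fun i => e i (Θ : K)).det ^ 2 := by
    rw [Algebra.discr_def, RingHom.map_det, pow_two]
    nth_rewrite 1 [← Matrix.det_transpose (Matrix.vandermonde _)]
    rw [← Matrix.det_mul]
    congr 1
    ext i j
    rw [RingHom.mapMatrix_apply, Matrix.map_apply, Algebra.traceMatrix_apply,
      Algebra.traceForm_apply, trace_eq_sum_automorphisms, Matrix.mul_apply, ← Equiv.sum_comp e]
    simp
  rw [h2, Matrix.det_vandermonde] at h3
  apply RingOfIntegers.ext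
  have h4 : ∀ σ : K ≃ₐ[ℚ] K, algebraMap (𝓞 K) K (σ • Θ) = σ Θ := fun σ => rfl
  simpa [h4] using h3

/-- The size of a discriminant. -/
theorem bound {n : ℕ} (v : Fin n → ℂ) {X : ℝ} (hX : 1 ≤ X) (hv : ∀ i, ‖v i‖ ≤ X) :
    ‖(∏ i, ∏ j ∈ Ioi i, (v j - v i)) ^ 2‖ ≤ (2 * X) ^ (n ^ 2) := by
  have h1 : ‖(∏ i, ∏ j ∈ Ioi i, (v j - v i)) ^ 2‖ =
      ∏ i, ∏ j ∈ ({i}ᶜ : Finset (Fin n)), ‖v j - v i‖ := by
    rw [← prod_prod_Ioi_mul_eq_prod_prod_off_diag fun j i => ‖v j - v i‖, norm_pow, norm_prod,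
      pow_two, ← prod_mul_distrib]
    refine prod_congr rfl fun i _ => ?_
    rw [norm_prod, ← prod_mul_distrib]
    exact prod_congr rfl fun j _ => by rw [norm_sub_rev (v i)]
  have h2 : ∀ i, ∏ j ∈ ({i}ᶜ : Finset (Fin n)), ‖v j - v i‖ ≤ (2 * X) ^ n := by
    intro i
    calc ∏ j ∈ ({i}ᶜ : Finset (Fin n)), ‖v j - v i‖ ≤ ∏ _j ∈ ({i}ᶜ : Finset (Fin n)), (2 * X) :=
          prod_le_prod (fun _ _ => norm_nonneg _) fun j _ =>
            (norm_sub_le _ _).trans (by linarith [hv i, hv j])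
      _ ≤ (2 * X) ^ n := by
          rw [prod_const]
          exact pow_le_pow_right₀ (by linarith) ((card_le_univ _).trans (by simp))
  rw [h1, pow_two, pow_mul]
  calc ∏ i, ∏ j ∈ ({i}ᶜ : Finset (Fin n)), ‖v j - v i‖ ≤ ∏ _i : Fin n, (2 * X) ^ n :=
        prod_le_prod (fun _ _ => prod_nonneg fun _ _ => norm_nonneg _) fun i _ => h2 i
    _ = ((2 * X) ^ n) ^ n := by simp

end Frob

open Frob in
theorem frob : FrobStmt := by
  classical
  intro E _ _ _ Θ X hX hΘ hφ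
  let e : Fin (Module.finrank ℚ E) ≃ (E ≃ₐ[ℚ] E) :=
    (Fintype.equivFinOfCardEq (by
      rw [← Nat.card_eq_fintype_card]; exact IsGalois.card_aut_eq_finrank ℚ E)).symm
  obtain ⟨m, hm⟩ := disc Θ e
  have inj : ∀ σ τ : E ≃ₐ[ℚ] E, σ • Θ = τ • Θ → σ = τ := by
    intro σ τ h
    have : (τ⁻¹ * σ) • Θ = Θ := by rw [mul_smul, h, inv_smul_smul]
    have := hΘ (τ⁻¹ * σ) (congrArg (fun z : 𝓞 E => (z : E)) this)
    exact (inv_mul_eq_one.1 this).symm
  have hD : m ^ 2 * discr E ≠ 0 := by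
    intro h
    rw [h, Int.cast_zero] at hm
    have := pow_eq_zero_iff (two_ne_zero) |>.1 hm.symm
    obtain ⟨i, -, hi⟩ := prod_eq_zero_iff.1 this
    obtain ⟨j, hj, hij⟩ := prod_eq_zero_iff.1 hi
    exact (mem_Ioi.1 hj).ne' (e.injective (inj _ _ (sub_eq_zero.1 hij)))
  refine ⟨(m ^ 2 * discr E).natAbs, Int.natAbs_ne_zero.2 hD, ?_, ?_, ?_⟩
  · obtain ⟨ψ⟩ : Nonempty (E →+* ℂ) := inferInstance
    have h1 := congrArg (ψ.comp (algebraMap (𝓞 E) E)) hm
    have h4 : ∀ σ : E ≃ₐ[ℚ] E, (ψ.comp (algebraMap (𝓞 E) E)) (σ • Θ) = ψ (σ Θ) := fun σ => rfl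
    simp only [map_intCast, map_pow, map_prod, map_sub, h4] at h1
    have h2 := bound (fun i => ψ (e i Θ)) hX fun i => hφ (ψ.comp (e i).toRingEquiv.toRingHom)
    rwa [← h1, Complex.norm_intCast, ← Int.cast_abs, ← Nat.cast_natAbs] at h2
  · rw [Int.natAbs_mul]
    exact Nat.le_mul_of_pos_left _ (Int.natAbs_pos.2 (left_ne_zero_of_mul hD))
  · intro q hq hqD
    obtain ⟨φ, P, hP, hqP, hF⟩ := exists_isFrob (K := E) hq
    have hDP : ((m ^ 2 * discr E : ℤ) : 𝓞 E) ∉ P := by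
      intro h
      refine hP.ne_top ((Ideal.eq_top_iff_one _).2 (one_mem_of_coprime
        ((Nat.Prime.coprime_iff_not_dvd hq).2 hqD) hqP ?_))
      rcases Int.natAbs_eq (m ^ 2 * discr E) with h' | h'
      · rwa [h', Int.cast_natCast] at h
      · rw [h', Int.cast_neg, Int.cast_natCast] at h
        simpa using P.neg_mem h
    have hs : ∀ σ τ : E ≃ₐ[ℚ] E, σ • Θ - τ • Θ ∈ P → σ = τ := by
      have aux : ∀ i j, i < j → e j • Θ - e i • Θ ∉ P := by
        intro i j hij h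
        apply hDP
        rw [hm]
        refine Ideal.pow_mem_of_mem P ?_ 2 two_pos
        exact Ideal.mem_of_dvd _ ((dvd_prod_of_mem _ (mem_Ioi.2 hij)).trans
          (dvd_prod_of_mem (fun i => ∏ j ∈ Ioi i, (e j • Θ - e i • Θ)) (mem_univ i))) h
      intro σ τ h
      obtain ⟨i, rfl⟩ := e.surjective σ
      obtain ⟨j, rfl⟩ := e.surjective τ
      rcases lt_trichotomy i j with hij | rfl | hij
      · exact (aux i j hij (by simpa using P.neg_mem h)).elim
      · rfl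
      · exact (aux j i hij h).elim
    refine ⟨φ, fun H => ?_⟩
    rw [← count H hq hP hqP hF (sep H Θ hP hs), cnt, Nat.card_eq_fintype_card,
      Fintype.card_subtype]

end Pool.Agent.Lib.MP_9177b7_ag.B
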