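import Mathlib

/-!
A small integral generator of the normal closure of a number field.
-/

open NumberField Polynomial IntermediateField
open scoped NNReal

noncomputable section

namespace Pool.Agent.Lib.MP_9177b7_ag.B.Gal

theorem small_prim (L : Type) [Field L] [NumberField L] [IsTotallyComplex L] :
    ∃ θ : 𝓞 L, ℚ⟮(θ : L)⟯ = ⊤ ∧ ∀ ψ : L →+* ℂ,
      ‖ψ θ‖ ≤ (2 + 2 ^ Module.finrank ℚ L) * |(discr L : ℝ)| := by
  obtain ⟨w₀⟩ := (inferInstance : Nonempty (InfinitePlace L))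
  set B : ℝ≥0 := NNReal.sqrt ‖discr L‖₊ * 2 ^ Module.finrank ℚ L + 1 with hB
  have h1 : mixedEmbedding.minkowskiBound L ↑1 < B := by
    have : B - 1 < B := by
      simp_rw [hB, add_tsub_cancel_right, lt_add_iff_pos_right, zero_lt_one]
    refine lt_of_le_of_lt ?_ (ENNReal.coe_lt_coe.mpr this)
    rw [mixedEmbedding.minkowskiBound,
      mixedEmbedding.volume_fundamentalDomain_fractionalIdealLatticeBasis, hB,
      add_tsub_cancel_right, Units.val_one, FractionalIdeal.absNorm_one, Rat.cast_one,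
      ENNReal.ofReal_one, one_mul, mixedEmbedding.finrank,
      mixedEmbedding.volume_fundamentalDomain_latticeBasis, ENNReal.coe_mul, ENNReal.coe_pow,
      ENNReal.coe_ofNat]
    gcongr
    exact mul_le_of_le_one_left' (pow_le_one₀ (by positivity) (by simp))
  have h2 : mixedEmbedding.minkowskiBound L ↑1 < mixedEmbedding.convexBodyLT'Factor L * B := by
    calc mixedEmbedding.minkowskiBound L 1 < B := h1
      _ = 1 * B := by rw [one_mul]
      _ ≤ mixedEmbedding.convexBodyLT'Factor L * B := by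
        gcongr; exact mod_cast mixedEmbedding.one_le_convexBodyLT'Factor L
  obtain ⟨θ, hθ, hb⟩ := mixedEmbedding.exists_primitive_element_lt_of_isComplex L
    (IsTotallyComplex.isComplex w₀) h2
  refine ⟨θ, hθ, fun ψ => ?_⟩
  have h3 := hb (InfinitePlace.mk ψ)
  rw [InfinitePlace.apply] at h3
  have hD : (1 : ℝ) ≤ |(discr L : ℝ)| := by
    rw [← Int.cast_abs]
    exact_mod_cast Int.one_le_abs (discr_ne_zero L)
  have h4 : (B : ℝ) ≤ |(discr L : ℝ)| * 2 ^ Module.finrank ℚ L + 1 := by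
    rw [hB]
    push_cast
    rw [Int.norm_eq_abs]
    gcongr
    exact Real.sqrt_le_iff.2 ⟨by positivity, by nlinarith⟩
  have h5 : √(1 + (B : ℝ) ^ 2) ≤ 1 + B :=
    Real.sqrt_le_iff.2 ⟨by positivity, by nlinarith [B.coe_nonneg]⟩
  nlinarith

variable {L E : Type} [Field L] [NumberField L] [Field E] [NumberField E]

theorem eq_one_of_fix [h : IsNormalClosure ℚ L E] (σ : E ≃ₐ[ℚ] E)
    (hσ : ∀ (f : L →ₐ[ℚ] E) x, σ (f x) = f x) : σ = 1 := by
  have h1 := (Algebra.IsAlgebraic.isNormalClosure_iff.1 h).2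
  have h2 : normalClosure ℚ L E ≤ fixedField (Subgroup.zpowers σ) := by
    rw [normalClosure_le_iff]
    rintro f _ ⟨x, rfl⟩
    rw [mem_fixedField_iff]
    intro g hg
    have : Subgroup.zpowers σ ≤ MulAction.stabilizer (E ≃ₐ[ℚ] E) (f x) := by
      rw [Subgroup.zpowers_le]
      exact hσ f x
    exact this hg
  ext x
  have := h2 (h1 ▸ mem_top : x ∈ normalClosure ℚ L E)
  rw [mem_fixedField_iff] at this
  exact this σ (Subgroup.mem_zpowers σ)

theorem card_hom_le : Nat.card (L →ₐ[ℚ] E) ≤ Module.finrank ℚ L :=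
  card_algHom_le_finrank ℚ L E

theorem card_gal_le [IsNormalClosure ℚ L E] {m : ℕ} (hm : Module.finrank ℚ L = m) :
    Nat.card (E ≃ₐ[ℚ] E) ≤ m ^ m := by
  have h1 : Nat.card (E ≃ₐ[ℚ] E) ≤ Nat.card ((L →ₐ[ℚ] E) → (L →ₐ[ℚ] E)) := by
    refine Nat.card_le_card_of_injective
      (fun (σ : E ≃ₐ[ℚ] E) (f : L →ₐ[ℚ] E) => (σ : E →ₐ[ℚ] E).comp f) fun σ τ e => ?_
    have : τ⁻¹ * σ = 1 := eq_one_of_fix (L := L) _ fun f x => by
      have h2 : σ (f x) = τ (f x) := DFunLike.congr_fun (congrFun e f) x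
      rw [AlgEquiv.mul_apply, h2]
      exact τ.symm_apply_apply _
    exact (inv_mul_eq_one.1 this).symm
  rw [Nat.card_fun] at h1
  have h2 := hm ▸ card_hom_le (L := L) (E := E)
  have h3 : 0 < m := hm ▸ Module.finrank_pos
  exact h1.trans ((Nat.pow_le_pow_left h2 _).trans (Nat.pow_le_pow_right h3 h2))

theorem exists_theta [IsNormalClosure ℚ L E] {m : ℕ} (hm : Module.finrank ℚ L = m) (θ : 𝓞 L)
    (hθ : ℚ⟮(θ : L)⟯ = ⊤) {X : ℝ} (hX0 : 0 ≤ X) (hX : ∀ ψ : L →+* ℂ, ‖ψ θ‖ ≤ X) :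
    ∃ Θ : 𝓞 E, (∀ σ : E ≃ₐ[ℚ] E, σ Θ = Θ → σ = 1) ∧
      ∀ φ : E →+* ℂ, ‖φ Θ‖ ≤ m * (m ^ m * m + 1) ^ m * X := by
  classical
  have := Fintype.ofFinite (L →ₐ[ℚ] E)
  set r := Fintype.card (L →ₐ[ℚ] E) with hr
  have hrm : r ≤ m := by rw [hr, ← Nat.card_eq_fintype_card, ← hm]; exact card_hom_le
  let e : Fin r ≃ (L →ₐ[ℚ] E) := (Fintype.equivFin _).symm
  let Th : ℕ → 𝓞 E := fun t => ∑ k : Fin r,
    (t : 𝓞 E) ^ (k : ℕ) * RingOfIntegers.mapRingHom (e k : L →+* E) θ
  have hTh : ∀ t, (Th t : E) = ∑ k : Fin r, (t : E) ^ (k : ℕ) * e k θ := fun t => by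
    simp only [Th, RingOfIntegers.coe_eq_algebraMap, map_sum, map_mul, map_pow, map_natCast]
    rfl
  set T := m ^ m * m + 1 with hT
  have bad : ∀ σ : E ≃ₐ[ℚ] E, σ ≠ 1 →
      ((Finset.range T).filter fun t => σ (Th t) = Th t).card ≤ m := by
    intro σ hσ
    let P : E[X] := ∑ k : Fin r, C (σ (e k θ) - e k θ) * Polynomial.X ^ (k : ℕ)
    have hc : ∀ k : Fin r, P.coeff k = σ (e k θ) - e k θ := fun k => by
      simp only [P, finsetSum_coeff, coeff_C_mul_X_pow]
      rw [Finset.sum_eq_single k (fun b _ hb => if_neg fun h => hb (Fin.ext h).symm) (by simp),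
        if_pos rfl]
    have hP : P ≠ 0 := by
      intro h0
      refine hσ (eq_one_of_fix (L := L) σ fun f x => ?_)
      have h1 : σ (f θ) = f θ := by
        have := hc (e.symm f)
        rw [h0, coeff_zero, e.apply_symm_apply] at this
        exact sub_eq_zero.1 this.symm
      have h2 : (σ : E →ₐ[ℚ] E).comp f = f := by
        have h3 : Algebra.adjoin ℚ {(θ : L)} = ⊤ := by
          rw [← adjoin_simple_toSubalgebra_of_isAlgebraic (Algebra.IsAlgebraic.isAlgebraic _), hθ,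
            top_toSubalgebra]
        exact AlgHom.ext_of_adjoin_eq_top h3 fun y hy => by
          rw [Set.mem_singleton_iff.1 hy]; exact h1
      exact DFunLike.congr_fun h2 x
    have hdeg : P.natDegree ≤ m := by
      refine natDegree_sum_le_of_forall_le _ _ fun k _ => (natDegree_C_mul_X_pow_le _ _).trans ?_
      exact k.2.le.trans hrm
    refine le_trans ?_ ((Multiset.toFinset_card_le P.roots).trans ((card_roots' P).trans hdeg))
    refine Finset.card_le_card_of_injOn (fun t : ℕ => (t : E)) (fun t ht => ?_)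
      fun s _ t _ h => Nat.cast_injective h
    have h1 := (Finset.mem_filter.1 ht).2
    rw [hTh] at h1
    simp only [map_sum, map_mul, map_pow, map_natCast] at h1
    rw [Finset.mem_coe, Multiset.mem_toFinset, mem_roots hP, IsRoot.def]
    simp only [P, eval_finsetSum, eval_mul, eval_C, eval_pow, eval_X]
    rw [← sub_eq_zero, ← Finset.sum_sub_distrib] at h1
    rw [← h1]
    exact Finset.sum_congr rfl fun k _ => by ring
  have := Fintype.ofFinite (E ≃ₐ[ℚ] E)
  have hcard : ((Finset.univ.filter fun σ : E ≃ₐ[ℚ] E => σ ≠ 1).biUnion fun σ =>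
      (Finset.range T).filter fun t => σ (Th t) = Th t).card < (Finset.range T).card := by
    refine (Finset.card_biUnion_le_card_mul _ _ m fun σ hσ =>
      bad σ (Finset.mem_filter.1 hσ).2).trans_lt ?_
    rw [Finset.card_range, hT, Nat.lt_succ_iff]
    refine Nat.mul_le_mul_right _ ((Finset.card_filter_le _ _).trans ?_)
    rw [Finset.card_univ, ← Nat.card_eq_fintype_card]
    exact card_gal_le hm
  obtain ⟨t, ht, hn⟩ := Finset.exists_mem_notMem_of_card_lt_card hcard
  refine ⟨Th t, fun σ hσ => ?_, fun φ => ?_⟩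
  · by_contra h1
    exact hn (Finset.mem_biUnion.2 ⟨σ, by simpa using h1, Finset.mem_filter.2 ⟨ht, hσ⟩⟩)
  · rw [hTh, map_sum]
    have htT : (t : ℝ) ≤ T := Nat.cast_le.2 (Finset.mem_range.1 ht).le
    have hT1 : (1 : ℝ) ≤ T := by rw [hT]; exact_mod_cast Nat.le_add_left 1 _
    calc _ ≤ ∑ k : Fin r, ‖φ ((t : E) ^ (k : ℕ) * e k θ)‖ := norm_sum_le _ _
      _ ≤ ∑ _k : Fin r, (T : ℝ) ^ m * X := Finset.sum_le_sum fun k _ => by
          rw [map_mul, map_pow, map_natCast, norm_mul, norm_pow, Complex.norm_natCast]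
          refine mul_le_mul ((pow_le_pow_left₀ (Nat.cast_nonneg _) htT _).trans
            (pow_le_pow_right₀ hT1 (k.2.le.trans hrm))) (hX (φ.comp (e k : L →+* E)))
            (norm_nonneg _) (by positivity)
      _ ≤ _ := by
          rw [Finset.sum_const, Finset.card_univ, Fintype.card_fin, nsmul_eq_mul, hT, mul_assoc]
          push_cast
          gcongr

end Pool.Agent.Lib.MP_9177b7_ag.B.Gal
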