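import Mathlib
import Pool.Agent.Shared.FrobeniusDensity
import Pool.Agent.Lib.MP_9177b7_ag.B.StE

/-!
No zero of the zeta function close to `1`: the comparison of prime sums.
-/

open NumberField Pool.Agent.Shared.PrimeZeta Pool.Agent.Shared.FrobeniusDensity

noncomputable section

namespace Pool.Agent.Lib.MP_9177b7_ag.B.ZAsm

theorem absNorm_map_equiv {R S : Type} [CommRing R] [CommRing S] [IsDedekindDomain R]
    [IsDedekindDomain S] [Module.Free ℤ R] [Module.Free ℤ S] (e : R ≃+* S) (I : Ideal R) :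
    Ideal.absNorm (I.map (e : R →+* S)) = Ideal.absNorm I := by
  rw [Ideal.absNorm_apply, Ideal.absNorm_apply, Submodule.cardQuot_apply, Submodule.cardQuot_apply]
  exact (Nat.card_congr (Ideal.quotientEquiv I _ e rfl).toEquiv).symm

theorem nI_congr {M M' : Type} [Field M] [NumberField M] [Field M'] [NumberField M']
    (e : M ≃+* M') (q : ℕ) : nI M q = nI M' q := by
  let e' := RingOfIntegers.mapRingEquiv e
  refine Nat.card_congr ⟨fun I => ⟨I.1.map (e' : 𝓞 M →+* 𝓞 M'), by
      rw [absNorm_map_equiv, I.2]⟩, fun I => ⟨I.1.map (e'.symm : 𝓞 M' →+* 𝓞 M), by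
      rw [absNorm_map_equiv, I.2]⟩, fun I => ?_, fun I => ?_⟩
  · ext1
    simp [Ideal.map_map]
  · ext1
    simp [Ideal.map_map]

theorem pigeon {ι : Type} [Fintype ι] (ρ : ι → ℝ) {r T : ℝ} (hr : 0 < r) (hT : 1 ≤ T) :
    ∃ i : ℕ, i ≤ Fintype.card ι ∧ ∀ j, ρ j ≤ r / T ^ (i + 1) ∨ r / T ^ i ≤ ρ j := by
  by_contra h
  push Not at h
  choose f hf using fun i : Fin (Fintype.card ι + 1) => h i (Nat.lt_succ_iff.1 i.2)
  have key : ∀ i i' : Fin (Fintype.card ι + 1), i < i' → f i ≠ f i' := by
    intro i i' hi e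
    have h1 := (hf i).1
    have h2 := (hf i').2
    rw [e] at h1
    have h3 : r / T ^ (i' : ℕ) ≤ r / T ^ ((i : ℕ) + 1) :=
      div_le_div_of_nonneg_left hr.le (by positivity) (pow_le_pow_right₀ hT hi)
    linarith
  have inj : Function.Injective f := fun i i' e => by
    rcases lt_trichotomy i i' with h | h | h
    · exact absurd e (key _ _ h)
    · exact h
    · exact absurd e.symm (key _ _ h)
  have := Fintype.card_le_of_injective f inj
  simp at this

/-- The weight of a prime between two abscissae. -/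
def wt (a b : ℝ) (q : ℕ) : ℝ := (q : ℝ) ^ (-(1 + a)) - (q : ℝ) ^ (-(1 + b))

theorem wt_nonneg {a b : ℝ} (hab : a ≤ b) {q : ℕ} (hq : q.Prime) : 0 ≤ wt a b q := by
  have h1 : (1 : ℝ) ≤ q := by exact_mod_cast hq.one_le
  exact sub_nonneg.2 (Real.rpow_le_rpow_of_exponent_le h1 (by linarith))

theorem wt_le {a b : ℝ} (ha : 0 < a) (hab : a ≤ b) {q : ℕ} (hq : q.Prime) :
    wt a b q ≤ b * Real.log q := by
  have h1 : (1 : ℝ) ≤ q := by exact_mod_cast hq.one_le
  have h0 : (0 : ℝ) < q := by linarith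
  have hl : 0 ≤ Real.log q := Real.log_nonneg h1
  have e : (q : ℝ) ^ (-(1 + b)) = (q : ℝ) ^ (-(1 + a)) * Real.exp (-((b - a) * Real.log q)) := by
    rw [Real.rpow_def_of_pos h0, Real.rpow_def_of_pos h0, ← Real.exp_add]
    congr 1
    ring
  have h2 : (q : ℝ) ^ (-(1 + a)) ≤ 1 := Real.rpow_le_one_of_one_le_of_nonpos h1 (by linarith)
  have h3 : 0 ≤ (q : ℝ) ^ (-(1 + a)) := by positivity
  have h4 := Real.add_one_le_exp (-((b - a) * Real.log q))
  have h5 : 0 ≤ (b - a) * Real.log q := mul_nonneg (by linarith) hl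
  have h6 : a * Real.log q ≥ 0 := by positivity
  rw [wt, e]
  nlinarith

theorem hasSum_wt {c : ℕ → ℝ} (hc : Bdd c) {a b : ℝ} (ha : 0 < a) (hab : a ≤ b) :
    HasSum (fun q : ℕ => if q.Prime then c q * wt a b q else 0)
      (psum c (1 + a) - psum c (1 + b)) := by
  have := ((hc.summable (s := 1 + a) (by linarith)).hasSum).sub
    ((hc.summable (s := 1 + b) (by linarith)).hasSum)
  have e : (fun q : ℕ => if q.Prime then c q * wt a b q else 0) = fun q : ℕ =>
      (if q.Prime then c q * (q : ℝ) ^ (-(1 + a)) else 0) -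
        if q.Prime then c q * (q : ℝ) ^ (-(1 + b)) else 0 := by
    funext q
    split_ifs
    · rw [wt]; ring
    · simp
  rw [e]
  exact this

theorem nI_le' (M : Type) [Field M] [NumberField M] {q : ℕ} (hq : q.Prime) :
    nI M q ≤ Module.finrank ℚ M := by
  have := nI_le (L := M) hq
  rwa [RingOfIntegers.rank] at this

theorem bdd_nI (M : Type) [Field M] [NumberField M] : Bdd fun q => (nI M q : ℝ) :=
  ⟨Module.finrank ℚ M, fun q hq => by
    rw [abs_of_nonneg (by positivity)]; exact Nat.cast_le.2 (nI_le' M hq)⟩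

theorem sum_log_le {Δ : ℕ} (h : Δ ≠ 0) : ∑ q ∈ Δ.primeFactors, Real.log q ≤ Real.log Δ := by
  rw [← Real.log_prod fun q hq => by
    exact_mod_cast (Nat.prime_of_mem_primeFactors hq).ne_zero]
  refine Real.log_le_log (Finset.prod_pos fun q hq => by
    exact_mod_cast (Nat.prime_of_mem_primeFactors hq).pos) ?_
  rw [← Nat.cast_prod]
  exact Nat.cast_le.2 (Nat.le_of_dvd (Nat.pos_of_ne_zero h) (Nat.prod_primeFactors_dvd Δ))

section gal

variable {E : Type} [Field E] [NumberField E]

/-- The number of primes of degree one of the fixed field, times the order of the subgroup. -/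
def cN (q : ℕ) (H : Subgroup (E ≃ₐ[ℚ] E)) : ℕ :=
  Nat.card H * nI (IntermediateField.fixedField H) q

/-- The increment of the prime sum of the fixed field. -/
def dP (a b : ℝ) (H : Subgroup (E ≃ₐ[ℚ] E)) : ℝ :=
  Pz (IntermediateField.fixedField H) a - Pz (IntermediateField.fixedField H) b

theorem hasSum_ms (s : Multiset (Subgroup (E ≃ₐ[ℚ] E))) {a b : ℝ} (ha : 0 < a) (hab : a ≤ b) :
    HasSum (fun q : ℕ => if q.Prime then (((s.map (cN q)).sum : ℕ) : ℝ) * wt a b q else 0)
      (s.map fun H : Subgroup (E ≃ₐ[ℚ] E) => (Nat.card H : ℝ) * dP a b H).sum := by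
  induction s using Multiset.induction_on with
  | empty => simp
  | cons H s ih =>
    have := ((hasSum_wt (bdd_nI (IntermediateField.fixedField H)) ha hab).mul_left
      (Nat.card H : ℝ)).add ih
    simp only [Multiset.map_cons, Multiset.sum_cons]
    have e : (fun q : ℕ => if q.Prime then
        ((cN q H + (s.map (cN q)).sum : ℕ) : ℝ) * wt a b q else 0) = fun q : ℕ =>
        ((Nat.card H : ℝ) * if q.Prime then
          (nI (IntermediateField.fixedField H) q : ℝ) * wt a b q else 0) +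
        if q.Prime then (((s.map (cN q)).sum : ℕ) : ℝ) * wt a b q else 0 := by
      funext q
      split_ifs
      · rw [cN]; push_cast; ring
      · simp
    rw [e]
    exact this

theorem card_le_rank [IsGalois ℚ E] (H : Subgroup (E ≃ₐ[ℚ] E)) :
    Nat.card H ≤ Module.finrank ℚ E := by
  rw [← IsGalois.card_aut_eq_finrank]
  exact Subgroup.card_le_card_group H

theorem rank_le_rank (M : IntermediateField ℚ E) : Module.finrank ℚ M ≤ Module.finrank ℚ E :=
  Submodule.finrank_le M.toSubmodule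

theorem ineqP [IsGalois ℚ E] {d Δ : ℕ} (hd : Module.finrank ℚ E ≤ d) (hΔ : Δ ≠ 0)
    (hF : ∀ q : ℕ, q.Prime → ¬ q ∣ Δ → ∃ φ : E ≃ₐ[ℚ] E, ∀ H : Subgroup (E ≃ₐ[ℚ] E),
      cnt H φ = cN q H)
    {a b : ℝ} (ha : 0 < a) (hab : a ≤ b) (s t : Multiset (Subgroup (E ≃ₐ[ℚ] E)))
    (hle : ∀ φ, (s.map fun H => cnt H φ).sum ≤ (t.map fun H => cnt H φ).sum) :
    (s.map fun H : Subgroup (E ≃ₐ[ℚ] E) => (Nat.card H : ℝ) * dP a b H).sum ≤
      (t.map fun H : Subgroup (E ≃ₐ[ℚ] E) => (Nat.card H : ℝ) * dP a b H).sum +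
        s.card * d ^ 2 * (b * Real.log Δ) := by
  have hb : 0 ≤ b := by linarith
  have h3 : HasSum (fun q : ℕ => if q ∈ Δ.primeFactors then
      (s.card : ℝ) * d ^ 2 * (b * Real.log q) else 0)
      (∑ q ∈ Δ.primeFactors, (s.card : ℝ) * d ^ 2 * (b * Real.log q)) := by
    have := hasSum_sum_of_ne_finset_zero (s := Δ.primeFactors) (L := SummationFilter.unconditional ℕ)
      (f := fun q : ℕ => if q ∈ Δ.primeFactors then
        (s.card : ℝ) * d ^ 2 * (b * Real.log q) else 0) fun q hq => if_neg hq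
    rwa [Finset.sum_congr rfl fun q hq => if_pos hq] at this
  refine (hasSum_le (fun q => ?_) (hasSum_ms s ha hab) ((hasSum_ms t ha hab).add h3)).trans ?_
  · by_cases hq : q.Prime
    · have hw := wt_nonneg hab hq
      simp only [if_pos hq]
      by_cases hqd : q ∣ Δ
      · rw [if_pos (Nat.mem_primeFactors.2 ⟨hq, hqd, hΔ⟩)]
        have h1 : (s.map (cN q)).sum ≤ s.card * d ^ 2 := by
          have := Multiset.sum_le_card_nsmul (s.map (cN q)) (d ^ 2) (by
              intro x hx
              obtain ⟨H, -, rfl⟩ := Multiset.mem_map.1 hx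
              rw [sq]
              exact Nat.mul_le_mul ((card_le_rank H).trans hd)
                ((nI_le' _ hq).trans ((rank_le_rank _).trans hd)))
          simpa using this
        have h1' : (((s.map (cN q)).sum : ℕ) : ℝ) ≤ s.card * d ^ 2 := by exact_mod_cast h1
        have h2 := mul_le_mul h1' (wt_le ha hab hq) hw (by positivity)
        have h4 : 0 ≤ (((t.map (cN q)).sum : ℕ) : ℝ) * wt a b q := by positivity
        linarith
      · rw [if_neg fun h => hqd (Nat.dvd_of_mem_primeFactors h), add_zero]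
        obtain ⟨φ, hφ⟩ := hF q hq hqd
        have := hle φ
        simp only [hφ] at this
        have h5 : (((s.map (cN q)).sum : ℕ) : ℝ) ≤ ((t.map (cN q)).sum : ℕ) := Nat.cast_le.2 this
        gcongr
    · simp only [if_neg hq, if_neg fun h => hq (Nat.prime_of_mem_primeFactors h)]
      simp
  · rw [← Finset.mul_sum, ← Finset.mul_sum]
    have := sum_log_le hΔ
    gcongr

end gal

end Pool.Agent.Lib.MP_9177b7_ag.B.ZAsm
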