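import Mathlib
import Pool.Agent.Lib.MP_9177b7_ag.B.StA

/-!
The special linear group over a field is generated by transvections.
-/

open Matrix

noncomputable section

namespace Pool.Agent.Lib.MP_9177b7_ag.B

namespace Gen

variable {ι F : Type} [Fintype ι] [DecidableEq ι] [Field F]

/-- A two by two block placed at the positions `i`, `j`. -/
def blk (i j : ι) (a b c d : F) : Matrix ι ι F :=
  1 + single i i (a - 1) + single i j b + single j i c + single j j (d - 1)

theorem blk_mul {i j : ι} (h : i ≠ j) (a b c d a' b' c' d' : F) :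
    blk i j a b c d * blk i j a' b' c' d' =
      blk i j (a * a' + b * c') (a * b' + b * d') (c * a' + d * c') (c * b' + d * d') := by
  simp only [blk, mul_add, add_mul, mul_one, one_mul, single_mul_single_same,
    single_mul_single_of_ne _ _ _ _ h, single_mul_single_of_ne _ _ _ _ h.symm, add_zero]
  ext k l
  simp only [Matrix.add_apply, single_apply]
  split_ifs <;> ring

omit [Fintype ι] in
theorem blk_diag {i j : ι} (h : i ≠ j) (a d : F) :
    blk i j a 0 0 d = diagonal fun k => if k = i then a else if k = j then d else 1 := by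
  ext k l
  simp only [blk, Matrix.add_apply, single_apply, diagonal_apply, Matrix.one_apply, ite_self, add_zero]
  by_cases hkl : k = l
  · subst hkl
    by_cases h1 : k = i
    · subst h1
      simp [h.symm]
    · by_cases h2 : k = j
      · subst h2
        simp [h, h1]
      · simp [h1, h2, Ne.symm h1, Ne.symm h2]
  · have e1 : ¬ (i = k ∧ i = l) := fun e => hkl (e.1.symm.trans e.2)
    have e2 : ¬ (j = k ∧ j = l) := fun e => hkl (e.1.symm.trans e.2)
    simp [hkl, e1, e2]

theorem tv_up {i j : ι} (h : i ≠ j) (s : F) :
    (SpecialLinearGroup.transvection h s : Matrix ι ι F) = blk i j 1 s 0 1 := by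
  simp [SpecialLinearGroup.transvection_coe, blk]

theorem tv_lo {i j : ι} (h : i ≠ j) (s : F) :
    (SpecialLinearGroup.transvection h.symm s : Matrix ι ι F) = blk i j 1 0 s 1 := by
  simp [SpecialLinearGroup.transvection_coe, blk]

theorem diag_eq {i j : ι} (h : i ≠ j) (a : F) (ha : a ≠ 0) :
    SpecialLinearGroup.diag2n h a ha = SpecialLinearGroup.transvection h a *
      SpecialLinearGroup.transvection h.symm (- a⁻¹) *
      SpecialLinearGroup.transvection h a *
      SpecialLinearGroup.transvection h (-1) *
      SpecialLinearGroup.transvection h.symm 1 *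
      SpecialLinearGroup.transvection h (-1) := by
  apply SpecialLinearGroup.coeMonoidHom_injective
  simp only [map_mul]
  simp only [SpecialLinearGroup.coeMonoidHom_apply]
  rw [SpecialLinearGroup.diag2n_coe, ← blk_diag h, tv_up h, tv_up h, tv_lo h, tv_lo h]
  simp only [blk_mul h]
  congr 1 <;> field_simp <;> ring

end Gen

theorem gen : GenStmt := by
  intro ι F _ _ _ S hS
  rcases subsingleton_or_nontrivial ι with hι | hι
  · refine eq_top_iff.2 fun M _ => ?_
    rw [Subsingleton.elim M 1]
    exact S.one_mem
  · refine eq_top_iff.2 fun M _ => ?_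
    refine SpecialLinearGroup.diagonal_transvection_induction' (fun A => A ∈ S) M
      (fun i j hij c hc => ?_) (fun i j hij a => hS i j hij a) (fun A B hA hB => S.mul_mem hA hB)
    rw [Gen.diag_eq hij c hc]
    exact S.mul_mem (S.mul_mem (S.mul_mem (S.mul_mem (S.mul_mem (hS _ _ _ _) (hS _ _ _ _))
      (hS _ _ _ _)) (hS _ _ _ _)) (hS _ _ _ _)) (hS _ _ _ _)

end Pool.Agent.Lib.MP_9177b7_ag.B
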