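import Pool.Agent.Lib.MP_9177b7_ag.B.St

/-! A reduced integral basis of the real subfield. -/

open NumberField Matrix Finset Module
open scoped nonZeroDivisors

noncomputable section

namespace Pool.Agent.Lib.MP_9177b7_ag.B

namespace Geo

variable {F : Type} [Field F] [NumberField F] {d : ℕ}

lemma retr : ∃ l : 𝓞 F →ₗ[ℤ] ℤ, l 1 = 1 := by
  obtain ⟨g, hg⟩ := (IsPrincipalIdealRing.principal
    (LinearMap.range (Dual.eval ℤ (𝓞 F) 1))).principal
  have h1 : ∀ i, ∃ c, c * g = (RingOfIntegers.basis F).repr 1 i := fun i =>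
    Ideal.mem_span_singleton'.1 (hg.le ⟨(RingOfIntegers.basis F).coord i, rfl⟩)
  choose c hc using h1
  have h2 : algebraMap ℤ (𝓞 F) g * ∑ i, c i • RingOfIntegers.basis F i = 1 := by
    rw [← (RingOfIntegers.basis F).sum_repr 1, ← Algebra.smul_def, smul_sum]
    exact sum_congr rfl fun i _ => by rw [smul_smul, mul_comm, hc]
  have h3 := congrArg (Algebra.norm ℤ) h2
  rw [map_mul, map_one, Algebra.norm_algebraMap] at h3
  have h4 : IsUnit g := (isUnit_pow_iff finrank_pos.ne').1 (IsUnit.of_mul_eq_one _ h3)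
  exact hg.ge ((Ideal.span_singleton_eq_top.2 h4).ge trivial)

/-- A basis of the kernel, completed by `1`. -/
def cons {l : 𝓞 F →ₗ[ℤ] ℤ} (h : l 1 = 1) {r : ℕ} (b : Basis (Fin r) ℤ (LinearMap.ker l)) :
    Basis (Fin (r + 1)) ℤ (𝓞 F) :=
  Basis.mkFinCons 1 b (fun c x hx e => by
      have := congrArg l e
      rwa [map_add, map_smul, h, LinearMap.mem_ker.1 hx, map_zero, add_zero, smul_eq_mul,
        mul_one] at this)
    fun z => ⟨-l z, by
      rw [LinearMap.mem_ker, map_add, map_smul, h, smul_eq_mul, mul_one, add_neg_cancel]⟩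

lemma cons_zero {l : 𝓞 F →ₗ[ℤ] ℤ} (h : l 1 = 1) {r : ℕ} (b : Basis (Fin r) ℤ (LinearMap.ker l)) :
    cons h b 0 = 1 := by simp [cons]

lemma cons_succ {l : 𝓞 F →ₗ[ℤ] ℤ} (h : l 1 = 1) {r : ℕ} (b : Basis (Fin r) ℤ (LinearMap.ker l))
    (a : Fin r) : cons h b a.succ = b a := by simp [cons]

variable (σ : Fin (d + 1) → F →+* ℝ)

lemma discr_sq (hσ : ∀ x, ∑ i, σ i x = (Algebra.trace ℚ F x : ℚ)) (v : Fin (d + 1) → 𝓞 F) :
    ((Algebra.discr ℤ v : ℤ) : ℝ) = (Matrix.of fun a i => σ i (v a)).det ^ 2 := by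
  rw [sq]
  nth_rw 2 [← det_transpose]
  rw [← det_mul, Algebra.discr_def, Int.cast_det]
  congr 1
  ext a b
  rw [Matrix.map_apply, Algebra.traceMatrix_apply, Algebra.traceForm_apply,
    ← Rat.cast_intCast (α := ℝ), Algebra.coe_trace_int, ← hσ]
  simp [Matrix.mul_apply]

/-- The mean of the conjugates. -/
def cen (x : 𝓞 F) : ℝ := (∑ i, σ i x) / (d + 1)

/-- The centred embeddings. -/
def gg (i : Fin (d + 1)) : 𝓞 F →ₗ[ℤ] ℝ :=
  (AddMonoidHom.mk' (fun x : 𝓞 F => σ i x - cen σ x) fun x y => by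
    simp only [cen, RingOfIntegers.coe_eq_algebraMap, map_add, sum_add_distrib]
    ring).toIntLinearMap

lemma gg_apply (i : Fin (d + 1)) (x : 𝓞 F) : gg σ i x = σ i x - cen σ x := rfl

lemma gg_sum (x : 𝓞 F) : ∑ i, gg σ i x = 0 := by
  simp only [gg_apply, sum_sub_distrib, sum_const, card_univ, Fintype.card_fin, nsmul_eq_mul, cen]
  push_cast
  field_simp
  ring

/-- The centred trace form. -/
def QQ (M : Submodule ℤ (𝓞 F)) : M →ₗ[ℤ] M →ₗ[ℤ] ℝ :=
  ∑ i, (LinearMap.mul ℤ ℝ).compl₁₂ (gg σ i ∘ₗ M.subtype) (gg σ i ∘ₗ M.subtype)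

lemma QQ_apply (M : Submodule ℤ (𝓞 F)) (x y : M) : QQ σ M x y = ∑ i, gg σ i x * gg σ i y := by
  simp [QQ, LinearMap.sum_apply]

lemma gram (hσ : ∀ x, ∑ i, σ i x = (Algebra.trace ℚ F x : ℚ)) {l : 𝓞 F →ₗ[ℤ] ℤ} (h : l 1 = 1)
    (b : Basis (Fin d) ℤ (LinearMap.ker l)) :
    (discr F : ℝ) = (d + 1) * (Matrix.of fun i j => QQ σ _ (b i) (b j)).det ∧
      (Matrix.of fun i j => QQ σ _ (b i) (b j)).PosDef := by
  have h1 : (discr F : ℝ) = (d + 1) * (Matrix.of fun i j => QQ σ _ (b i) (b j)).det := by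
    obtain ⟨E, hE⟩ : ∃ E : Matrix (Fin (d + 1)) (Fin (d + 1)) ℝ,
      E = Matrix.of (Fin.cons (fun _ => 1) fun a i => gg σ i (b a)) := ⟨_, rfl⟩
    have e0 : ∀ i, E 0 i = 1 := fun i => by rw [hE]; rfl
    have e1 : ∀ a i, E (Fin.succ a) i = gg σ i (b a) := fun a i => by rw [hE]; rfl
    rw [← discr_eq_discr F (cons h b), discr_sq σ hσ, det_eq_of_forall_row_eq_smul_add_const
      (B := E) (Fin.cons 0 fun a => cen σ (b a)) 0 rfl fun a i => ?_, sq]
    · nth_rw 2 [← det_transpose]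
      rw [← det_mul, det_succ_row_zero, Fin.sum_univ_succ, sum_eq_zero fun a _ => ?_]
      · have : (E * Eᵀ).submatrix Fin.succ (Fin.succAbove 0) =
            Matrix.of fun i j => QQ σ _ (b i) (b j) := by
          ext i j
          simp [Matrix.mul_apply, e1, QQ_apply]
        rw [this]
        simp [Matrix.mul_apply, e0]
      · simp [Matrix.mul_apply, e0, e1, gg_sum]
    · refine Fin.cases ?_ (fun a => ?_) a
      · simp [cons_zero, e0]
      · simp [cons_succ, e0, e1, gg_apply]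
  refine ⟨h1, (PosSemidef.posDef_iff_det_ne_zero ?_).2 fun e => ?_⟩
  · have : (Matrix.of fun i j => QQ σ _ (b i) (b j)) =
        (Matrix.of fun a i => gg σ i (b a)) * (Matrix.of fun a i => gg σ i (b a))ᴴ := by
      ext i j
      simp [Matrix.mul_apply, QQ_apply]
    rw [this]
    exact posSemidef_self_mul_conjTranspose _
  · rw [e, mul_zero] at h1
    exact discr_ne_zero F (by exact_mod_cast h1)

lemma vdm (hσ : ∀ x, ∑ i, σ i x = (Algebra.trace ℚ F x : ℚ)) (ω : Basis (Fin (d + 1)) ℤ (𝓞 F))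
    (x : 𝓞 F) {w : ℝ} (hx : Function.Injective fun i => σ i x) (hw : ∀ i, |gg σ i x| ≤ w) :
    |(discr F : ℝ)| ≤ (2 * w) ^ ((d + 1) * d) := by
  have h1 := Algebra.discr_of_matrix_vecMul (A := ℤ) ω (ω.toMatrix fun k : Fin (d + 1) => x ^ (k : ℕ))
  rw [Basis.toMatrix_map_vecMul, discr_eq_discr] at h1
  have h2 := discr_sq σ hσ fun k : Fin (d + 1) => x ^ (k : ℕ)
  have h3 : (Matrix.of fun (a : Fin (d + 1)) i => σ i ((x ^ (a : ℕ) : 𝓞 F) : F)) =
      (vandermonde fun i => σ i x)ᵀ := by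
    ext a i
    simp
  rw [h3, det_transpose, h1] at h2
  have h4 : (ω.toMatrix fun k : Fin (d + 1) => x ^ (k : ℕ)).det ≠ 0 := fun e => by
    rw [e] at h2
    exact pow_ne_zero 2 (det_vandermonde_ne_zero_iff.2 hx) (by simpa using h2.symm)
  have h5 : (1 : ℝ) ≤ ((ω.toMatrix fun k : Fin (d + 1) => x ^ (k : ℕ)).det ^ 2 : ℤ) := by
    exact_mod_cast pow_pos (abs_pos.2 h4) 2 |>.trans_eq (sq_abs _)
  calc |(discr F : ℝ)| ≤ |(vandermonde fun i => σ i x).det ^ 2| := by
        rw [← h2, Int.cast_mul, abs_mul]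
        exact le_mul_of_one_le_left (abs_nonneg _) (h5.trans (le_abs_self _))
    _ = ∏ i, ∏ j ∈ ({i}ᶜ : Finset _), |σ j x - σ i x| := by
        rw [← prod_prod_Ioi_mul_eq_prod_prod_off_diag fun j i => |σ j x - σ i x|, det_vandermonde,
          sq, abs_mul, abs_prod, ← prod_mul_distrib]
        refine prod_congr rfl fun i _ => ?_
        rw [abs_prod, ← prod_mul_distrib]
        exact prod_congr rfl fun j _ => by rw [abs_sub_comm (σ i x)]
    _ ≤ ∏ i : Fin (d + 1), ∏ j ∈ ({i}ᶜ : Finset _), 2 * w := by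
        refine prod_le_prod (fun _ _ => prod_nonneg fun _ _ => abs_nonneg _) fun i _ =>
          prod_le_prod (fun _ _ => abs_nonneg _) fun j _ => ?_
        rw [show σ j x - σ i x = gg σ j x - gg σ i x by simp [gg_apply]]
        linarith [abs_sub (gg σ j x) (gg σ i x), hw i, hw j]
    _ = _ := by
        simp [card_compl, ← pow_mul, mul_comm]

lemma core (hR : RedStmt) (d : ℕ) : ∃ C : ℝ, 0 < C ∧ ∀ (F : Type) [Field F] [NumberField F]
    (σ : Fin (d + 1) → F →+* ℝ), finrank ℚ F = d + 1 →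
    (∀ x, ∑ i, σ i x = (Algebra.trace ℚ F x : ℚ)) →
    (∀ x i l, i ≠ l → σ i x = σ l x → ∀ k, σ k x = σ i x) →
    ∃ (B : Bas F d) (c w : Fin d → ℝ), (∀ a i, |σ i (B.ω a.succ) - c a| ≤ w a) ∧
      ∏ a, w a ≤ C * √|(discr F : ℝ)| ∧
      ∀ a, 0 ≤ w a ∧ |(discr F : ℝ)| ≤ (2 * w a) ^ ((d + 1) * d) := by
  obtain ⟨C, hC, h⟩ := hR d
  refine ⟨√C, by positivity, fun F _ _ σ hN hσ hG => ?_⟩
  obtain ⟨l, hl⟩ := retr (F := F)
  have hd : finrank ℤ (LinearMap.ker l) = d := by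
    have := finrank_eq_card_basis (cons hl (finBasis ℤ (LinearMap.ker l)))
    rw [RingOfIntegers.rank, hN, Fintype.card_fin] at this
    omega
  obtain ⟨g1, g2⟩ := gram σ hσ hl (finBasisOfFinrankEq ℤ _ hd)
  obtain ⟨b, hb⟩ := h _ (finBasisOfFinrankEq ℤ _ hd) (QQ σ _)
    (fun x y => by simp only [QQ_apply, mul_comm]) g2
  have hw : ∀ a i, |gg σ i (b a)| ≤ √(QQ σ _ (b a) (b a)) := fun a i => by
    refine Real.abs_le_sqrt ?_
    rw [QQ_apply, sq]
    exact single_le_sum (f := fun i => gg σ i (b a) * gg σ i (b a))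
      (fun _ _ => mul_self_nonneg _) (mem_univ i)
  have pos : ∀ a, 0 < QQ σ _ (b a) (b a) := fun a => (gram σ hσ hl b).2.diag_pos
  refine ⟨⟨cons hl b, (Algebra.traceForm ℚ F).dualBasis (traceForm_nondegenerate ℚ F)
    ((cons hl b).localizationLocalization ℚ ℤ⁰ F), cons_zero hl b, fun i j => ?_⟩,
    fun a => cen σ (b a), fun a => √(QQ σ _ (b a) (b a)), fun a i => ?_, ?_,
    fun a => ⟨Real.sqrt_nonneg _, vdm σ hσ (cons hl b) (b a) (fun i k e => ?_) (hw a)⟩⟩
  · have := LinearMap.BilinForm.apply_dualBasis_left (traceForm_nondegenerate ℚ F)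
      ((cons hl b).localizationLocalization ℚ ℤ⁰ F) i j
    rw [Basis.localizationLocalization_apply, Algebra.traceForm_apply] at this
    exact this.trans (if_congr eq_comm rfl rfl)
  · rw [cons_succ]
    exact hw a i
  · rw [← Real.sqrt_prod _ fun a _ => (pos a).le, ← Real.sqrt_mul hC.le]
    refine Real.sqrt_le_sqrt (hb.trans (mul_le_mul_of_nonneg_left ?_ hC.le))
    refine le_trans ?_ (le_abs_self _)
    rw [g1]
    exact le_mul_of_one_le_left g2.det_pos.le (by simp)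
  · by_contra hne
    have e' := hG _ i k hne e
    refine (pos a).ne' ?_
    rw [QQ_apply]
    refine sum_eq_zero fun m _ => mul_eq_zero_of_left ?_ _
    simp only [gg_apply, cen, e', sum_const, card_univ, Fintype.card_fin, nsmul_eq_mul]
    push_cast
    field_simp
    ring

end Geo

theorem geo (hR : RedStmt) (hF : FrameStmt) : GeoStmt := by
  intro n p _ c
  obtain ⟨C, hC, h⟩ := Geo.core hR (n + 2)
  refine ⟨C, hC, fun D => ?_⟩
  obtain ⟨-, -, -, t1, t2, -, -, hN, -⟩ := hF n p c D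
  have re : ∀ i, ComplexEmbedding.IsReal ((D.Φ i).toRingHom.comp (algebraMap D.F D.L)) := fun i =>
    ComplexEmbedding.isReal_iff.2 (RingHom.ext fun x => x.2 (D.Φ i).toRingHom)
  have co : ∀ i x, ((re i).embedding x : ℂ) = D.Φ i x := fun i x => (re i).coe_embedding_apply x
  obtain ⟨B, cen, w, h1, h2⟩ := h D.F (fun i => (re i).embedding) hN (fun x => by
      apply Complex.ofReal_injective
      rw [Complex.ofReal_sum]
      simp only [co]
      rw [← t1, t2]
      simp) fun x i l hne e k => by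
    apply Complex.ofReal_injective
    replace e := congrArg Complex.ofReal e
    rw [co, co] at e ⊢
    by_cases hk : k = i
    · rw [hk]
    classical
    obtain ⟨s, hs⟩ := D.sp.gal (Equiv.swap (D.Φ l) (D.Φ k))
    have a := hs (D.Φ i) x
    have b := hs (D.Φ l) x
    rw [Equiv.swap_apply_of_ne_of_ne (D.Φ.injective.ne hne) (D.Φ.injective.ne (Ne.symm hk))] at a
    rw [Equiv.swap_apply_left, ← e] at b
    exact b.trans a.symm
  refine ⟨B, cen, w, fun a i => ?_, h2⟩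
  rw [← co, ← Complex.ofReal_sub, Complex.norm_real]
  exact h1 a i

end Pool.Agent.Lib.MP_9177b7_ag.B
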