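import Pool.Agent.Lib.MP_9177b7_ag.B.StE

/-!
The group theoretic step: relations between permutation characters of dihedral groups.
-/

set_option autoImplicit false

namespace Pool.Agent.Lib.MP_9177b7_ag.B

open Subgroup Finset Equiv

namespace Grp

variable {G : Type} [Group G]

lemma mem_two {u y : G} (h : u * u = 1) : y ∈ zpowers u ↔ y = 1 ∨ y = u := by
  refine ⟨?_, fun k => k.elim (· ▸ one_mem _) (· ▸ mem_zpowers _)⟩
  rintro ⟨n, rfl⟩
  obtain ⟨k, rfl | rfl⟩ := Int.even_or_odd' n <;> simp [zpow_add, zpow_mul, sq, h]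

lemma conj {s t c : G} (ht : t * t = 1) (hs : t * s * t = s⁻¹) (hc : c ∈ zpowers s) :
    t * c * t = c⁻¹ := by
  obtain ⟨n, rfl⟩ := hc
  have := conj_zpow (i := n) (a := t) (b := s)
  rw [inv_eq_of_mul_eq_one_right ht, hs] at this
  simp only [← this, inv_zpow]

/-- A permutation is inverted by an element of order at most two. -/
lemma exists_inv {X : Type} (s : Perm X) : ∃ t : Perm X, t * t = 1 ∧ t * s * t = s⁻¹ := by
  let S := Perm.SameCycle.setoid s
  obtain ⟨r, hr, h1⟩ : ∃ r : X → X, (∀ x, ∃ i : ℤ, (s ^ i) (r x) = x) ∧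
      ∀ x (j : ℤ), r ((s ^ j) x) = r x :=
    ⟨fun x => (Quotient.mk S x).out, fun x => Quotient.mk_out (s := S) x, fun x j =>
      congrArg Quotient.out (Quotient.sound (s := S) (Perm.SameCycle.symm ⟨j, rfl⟩))⟩
  choose i hi using hr
  have e : ∀ (m n : ℤ) x, (s ^ m) ((s ^ n) x) = (s ^ (m + n)) x := fun m n x => by
    rw [zpow_add, Perm.mul_apply]
  let t : X → X := fun x => (s ^ (-i x)) (r x)
  have h2 : ∀ x (j : ℤ), (s ^ j) (r x) = x → t x = (s ^ (-j)) (r x) := fun x j k => by
    have := congrArg (s ^ (-j - i x)) (k.trans (hi x).symm)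
    rw [e, e] at this
    convert this using 3 <;> ring
  have h3 : Function.Involutive t := fun x => by
    have k : r (t x) = r x := (h1 _ _).trans ((h1 _ (i x)).symm.trans (congrArg r (hi x)))
    rw [h2 (t x) (-i x) (by rw [k]), k, neg_neg, hi]
  have h4 : ∀ x, t (s x) = s⁻¹ (t x) := fun x => by
    have k := h1 x 1
    rw [zpow_one] at k
    rw [h2 (s x) (1 + i x) (by rw [k, ← e, hi, zpow_one]), k, neg_add, ← e, zpow_neg_one]
  exact ⟨h3.toPerm t, Perm.ext h3, Perm.ext fun x => (h4 (t x)).trans (congrArg _ (h3 x))⟩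

open Classical in
/-- The indicator function of a subgroup. -/
noncomputable def ind (H : Subgroup G) (y : G) : ℕ := if y ∈ H then 1 else 0

lemma cnt_eq [Fintype G] (H : Subgroup G) (φ : G) : cnt H φ = ∑ g : G, ind H (g⁻¹ * φ * g) := by
  classical
  rw [cnt, Nat.card_eq_fintype_card, Fintype.card_subtype, card_filter]
  rfl

lemma cnt_conj [Finite G] {H K : Subgroup G} (c : G) (h : ∀ y ∈ H, c⁻¹ * y * c ∈ K) (φ : G) :
    cnt H φ ≤ cnt K φ :=
  Nat.card_le_card_of_injective (fun g => ⟨g.1 * c, by simpa [mul_assoc] using h _ g.2⟩)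
    fun _ _ e => Subtype.ext (mul_right_cancel (congrArg Subtype.val e))

/-- The form in which the hypothesis is used. -/
def Hyp (f : Subgroup G → Prop) : Prop :=
  ∀ (A B : Subgroup G) (S : Finset G) (F F' : G → Subgroup G),
    (∀ φ, cnt A φ + ∑ c ∈ S, cnt (F c) φ ≤ cnt B φ + ∑ c ∈ S, cnt (F' c) φ) →
    (∀ c ∈ S, ¬ f (F' c)) → f A → f B ∧ Nat.card A ≤ Nat.card B

lemma cnt_le [Fintype G] {A B : Subgroup G} {S : Finset G} {F F' : G → Subgroup G}
    (h : ∀ y, ind A y + ∑ c ∈ S, ind (F c) y ≤ ind B y + ∑ c ∈ S, ind (F' c) y) (φ : G) :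
    cnt A φ + ∑ c ∈ S, cnt (F c) φ ≤ cnt B φ + ∑ c ∈ S, cnt (F' c) φ := by
  simp only [cnt_eq]
  rw [sum_comm, sum_comm (s := S), ← sum_add_distrib, ← sum_add_distrib]
  exact sum_le_sum fun g _ => h _

lemma dih [Fintype G] {f : Subgroup G → Prop} (H : Hyp f) (h0 : ¬ f ⊥) {s t : G} (ht : t * t = 1)
    (hs : t * s * t = s⁻¹) (hn : t ∉ zpowers s) (h : ∀ c ∈ zpowers s, ¬ f (zpowers (t * c))) :
    ¬ f (zpowers s) := fun hf => by
  classical
  have e : ∀ x, t * (t * x) = x := fun x => by rw [← mul_assoc, ht, one_mul]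
  let D : Subgroup G :=
    { carrier := {g | g ∈ zpowers s ∨ t * g ∈ zpowers s}
      one_mem' := Or.inl (one_mem _)
      mul_mem' := by
        rintro a b (ha | ha) (hb | hb)
        · exact Or.inl (mul_mem ha hb)
        · refine Or.inr ?_
          simpa only [← conj ht hs ha, mul_assoc, e] using mul_mem (inv_mem ha) hb
        · exact Or.inr (mul_assoc t a b ▸ mul_mem ha hb)
        · refine Or.inl ?_
          simpa only [← conj ht hs ha, mul_assoc, e] using mul_mem (inv_mem ha) hb
      inv_mem' := by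
        rintro a (ha | ha)
        · exact Or.inl (inv_mem ha)
        · refine Or.inr ?_
          have := conj ht hs (inv_mem ha)
          rw [inv_inv, mul_inv_rev, inv_eq_of_mul_eq_one_right ht, mul_assoc, mul_assoc, ht,
            mul_one] at this
          rwa [this] }
  have k : ∀ y, ind (zpowers s) y + ∑ c with c ∈ zpowers s, ind (zpowers (t * c)) y =
      ind D y + ∑ c with c ∈ zpowers s, ind ⊥ y := fun y => by
    have k1 : ∀ c ∈ univ.filter (· ∈ zpowers s), ind (zpowers (t * c)) y =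
        (if t * y = c then 1 else 0) + ind ⊥ y := fun c hc => by
      have hc := (mem_filter.1 hc).2
      have : t ≠ c := fun k => hn (k ▸ hc)
      simp only [ind, mem_bot, mem_two (u := t * c)
        (by rw [← mul_assoc, conj ht hs hc, inv_mul_cancel])]
      by_cases k : y = 1
      · simp [k, this]
      · simp [k, show y = t * c ↔ t * y = c from ⟨fun a => a ▸ e c, fun a => a ▸ (e y).symm⟩]
    have k2 : y ∈ D ↔ y ∈ zpowers s ∨ t * y ∈ zpowers s := Iff.rfl
    have k3 : y ∈ zpowers s → t * y ∉ zpowers s := fun a b => hn ((mul_mem_cancel_right a).1 b)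
    rw [sum_congr rfl k1, sum_add_distrib, sum_ite_eq, ← add_assoc]
    congr 1
    by_cases a : y ∈ zpowers s <;> simp [ind, k2, a, k3]
  exact hn ((eq_of_le_of_card_ge (fun _ => Or.inl) (H _ _ _ _ _ (cnt_le fun y => (k y).ge)
    (fun c hc => h c (mem_filter.1 hc).2)
    (H _ _ _ _ _ (cnt_le fun y => (k y).le) (fun _ _ => h0) hf).1).2).ge (Or.inr (ht ▸ one_mem _)))

end Grp

open Grp in
theorem grp : GrpStmt := by
  classical
  intro G X _ _ _ G₀ H₀ ρ x₀ f hX hH hyp hf
  by_contra hn
  have := Fintype.ofFinite G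
  have H : Hyp f := fun A B S F F' h1 h2 h3 => by
    have := hyp (A ::ₘ S.val.map F) (B ::ₘ S.val.map F') (by
      have := S.card_le_univ
      have := Fintype.card_pos (α := G)
      simp only [Multiset.card_cons, Multiset.card_map, card_val, Nat.card_eq_fintype_card]
      omega) (by simpa using h1)
    simp only [Multiset.map_cons, Multiset.sum_cons, Multiset.map_map, Function.comp,
      sum_map_val, if_pos h3, sum_congr rfl fun c hc => if_neg (h2 c hc), sum_const_zero] at this
    have p := Nat.card_pos (α := A)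
    by_cases k : f B
    · exact ⟨k, by rw [if_pos k] at this; omega⟩
    · rw [if_neg k] at this
      omega
  have H1 : ∀ (K : Subgroup G) (c : G), (∀ y ∈ K, c⁻¹ * y * c ∈ H₀) → ¬ f K := fun K c h k =>
    hn (H K H₀ ∅ zpowers zpowers (by simpa using cnt_conj c h) (by simp) k).1
  have h0 : ¬ f ⊥ := H1 ⊥ 1 (by simp)
  let j : Perm X →* G := G₀.subtype.comp ρ.symm.toMonoidHom
  have ji : Function.Injective j := Subtype.val_injective.comp ρ.symm.injective
  have fix : ∀ (t : Perm X) x, t x = x → ¬ f (zpowers (j t)) := fun t x h =>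
    H1 _ (j (swap x₀ x)) (by
      rintro _ ⟨n, rfl⟩
      simp only [← map_inv, ← map_zpow, ← map_mul]
      refine (hH _).2 ⟨Subtype.prop _, (congrArg (· x₀) (ρ.apply_symm_apply _)).trans ?_⟩
      simp [Perm.zpow_apply_eq_self_of_apply_eq_self h])
  have inv : ∀ t : Perm X, t * t = 1 → ¬ f (zpowers (j t)) := fun t ht => by
    by_cases k : t x₀ = x₀
    · exact fix t x₀ k
    have e : ∀ x, t (t x) = x := fun x => congrArg (· x) ht
    have t2 : j t * j t = 1 := by rw [← map_mul, ht, map_one]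
    obtain ⟨y, y1, y2⟩ : ∃ y, y ≠ x₀ ∧ y ≠ t x₀ := by
      by_contra! k
      have := card_le_card (s := (univ : Finset X)) (t := {x₀, t x₀}) fun y _ => by
        simpa [or_iff_not_imp_left] using k y
      have := card_le_two (a := x₀) (b := t x₀)
      rw [card_univ] at *
      omega
    have y3 := swap_apply_of_ne_of_ne y1 y2
    by_cases k' : t y = y
    · exact fix t y k'
    refine dih H h0 (t := j (swap x₀ (t x₀))) (by rw [← map_mul, swap_mul_self, map_one]) ?_ ?_
      fun c hc => ?_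
    · rw [← map_mul, ← map_mul, ← map_inv, inv_eq_of_mul_eq_one_right ht, mul_assoc,
        mul_swap_eq_swap_mul, e, swap_comm, swap_mul_self_mul]
    · rw [mem_two t2, ← map_one j, ji.eq_iff, ji.eq_iff]
      rintro (h | h)
      exacts [k (swap_eq_one_iff.1 h).symm, k' (h ▸ y3)]
    · rcases (mem_two t2).1 hc with rfl | rfl
      · rw [mul_one]
        exact fix _ y y3
      · exact map_mul j _ _ ▸ fix _ x₀ (by simp)
  have all : ∀ s : Perm X, ¬ f (zpowers (j s)) := fun s => by
    obtain ⟨t, h1, h2⟩ := exists_inv s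
    have t2 : j t * j t = 1 := by rw [← map_mul, h1, map_one]
    have t3 : j t * j s * j t = (j s)⁻¹ := by rw [← map_mul, ← map_mul, h2, map_inv]
    by_cases k : j t ∈ zpowers (j s)
    · obtain ⟨n, k⟩ := k
      refine inv s (ji ?_)
      rw [map_mul, map_one, ← eq_inv_iff_mul_eq_one, ← t3, mul_assoc,
        (k ▸ Commute.self_zpow (j s) n : Commute (j s) (j t)).eq, ← mul_assoc, t2, one_mul]
    · refine dih H h0 t2 t3 k ?_
      rintro _ ⟨n, rfl⟩
      simp only [← map_zpow, ← map_mul]
      exact inv _ (by rw [← mul_assoc, conj h1 h2 (zpow_mem_zpowers s n), inv_mul_cancel])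
  refine h0 (H G₀ ⊥ (univ.filter (· ∈ G₀)) (fun _ => ⊥) zpowers (cnt_le fun y => ?_)
    (fun c hc => ?_) hf).1
  · by_cases k : y = 1
    · simp [ind, k]
    · by_cases a : y ∈ G₀
      · have := single_le_sum (f := fun c => ind (zpowers c) y) (fun _ _ => Nat.zero_le _)
          (mem_filter_univ (p := (· ∈ G₀)) y |>.2 a)
        simpa [ind, k, a] using this
      · simp [ind, k, a]
  · simpa [j] using all (ρ ⟨c, (mem_filter.1 hc).2⟩)

end Pool.Agent.Lib.MP_9177b7_ag.B
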