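import Pool.Agent.Lib.MP_9177b7_ag.B.StA

/-!
Two product structures on the Heisenberg group give invariance under a central element.
-/

open MeasureTheory ProbabilityTheory Filter Topology Set Metric
open scoped ENNReal

namespace Pool.Agent.Lib.MP_9177b7_ag.B

namespace Heis

lemma ext_ball {X : Type} [PseudoMetricSpace X] [IsUltrametricDist X] [SecondCountableTopology X]
    [MeasurableSpace X] [BorelSpace X] (μ ν : Measure X) [IsFiniteMeasure μ]
    (h0 : μ univ = ν univ) (h : ∀ x ε, 0 < ε → ε ≤ 1 → μ (ball x ε) = ν (ball x ε)) : μ = ν := by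
  have hb : TopologicalSpace.IsTopologicalBasis
      {s : Set X | ∃ x ε, 0 < ε ∧ ε ≤ 1 ∧ s = ball x ε} := by
    refine TopologicalSpace.isTopologicalBasis_of_isOpen_of_nhds ?_ fun a u ha hu => ?_
    · rintro _ ⟨x, ε, -, -, rfl⟩
      exact isOpen_ball
    · obtain ⟨ε, h1, h2⟩ := Metric.isOpen_iff.1 hu a ha
      exact ⟨ball a (min ε 1), ⟨a, _, lt_min h1 one_pos, min_le_right _ _, rfl⟩,
        mem_ball_self (lt_min h1 one_pos), (ball_subset_ball (min_le_left _ _)).trans h2⟩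
  refine ext_of_generate_finite _ (BorelSpace.measurable_eq.trans hb.borel_eq_generateFrom)
    ?_ ?_ h0
  · rintro _ ⟨x, ε, h1, h2, rfl⟩ _ ⟨y, δ, h3, h4, rfl⟩ hn
    rcases IsUltrametricDist.ball_subset_trichotomy x y ε δ with e | e | e
    · exact ⟨x, ε, h1, h2, inter_eq_left.2 e⟩
    · exact ⟨y, δ, h3, h4, inter_eq_right.2 e⟩
    · exact absurd (disjoint_iff_inter_eq_empty.1 e) hn.ne_empty
  · rintro _ ⟨x, ε, h1, h2, rfl⟩
    exact h x ε h1 h2

lemma ultra_prod {X Y : Type} [PseudoMetricSpace X] [IsUltrametricDist X] [PseudoMetricSpace Y]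
    [IsUltrametricDist Y] : IsUltrametricDist (X × Y) :=
  ⟨fun x y z => by
    simp only [Prod.dist_eq]
    exact max_le ((IsUltrametricDist.dist_triangle_max x.1 y.1 z.1).trans
      (max_le_max (le_max_left _ _) (le_max_left _ _)))
      ((IsUltrametricDist.dist_triangle_max x.2 y.2 z.2).trans
        (max_le_max (le_max_right _ _) (le_max_right _ _)))⟩

variable {K : Type} [NormedField K] [IsUltrametricDist K] [SecondCountableTopology K]
  [MeasurableSpace K] [BorelSpace K]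

omit [IsUltrametricDist K] in
lemma two_pts (ω : Measure K) [IsProbabilityMeasure ω] (h1 : ω {r | 1 < ‖r‖} = 0)
    (h : ∀ r, ω ≠ Measure.dirac r) : ∃ r r' : K, r ≠ r' ∧ ‖r‖ ≤ 1 ∧ ‖r'‖ ≤ 1 ∧
      (∀ ε, 0 < ε → ω (ball r ε) ≠ 0) ∧ ∀ ε, 0 < ε → ω (ball r' ε) ≠ 0 := by
  have a1 : ∀ r ∈ ω.support, ‖r‖ ≤ 1 := fun r hr => not_lt.1 fun e =>
    Measure.subset_compl_support_of_isOpen (isOpen_lt continuous_const continuous_norm) h1 e hr
  have a2 : ∀ r ∈ ω.support, ∀ ε, 0 < ε → ω (ball r ε) ≠ 0 := fun r hr ε e =>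
    ((Measure.mem_support_iff_forall r).1 hr _ (ball_mem_nhds r e)).ne'
  obtain ⟨r, hr⟩ := Measure.nonempty_support (IsProbabilityMeasure.ne_zero ω)
  by_cases e : ∃ r' ∈ ω.support, r ≠ r'
  · obtain ⟨r', hr', e⟩ := e
    exact ⟨r, r', e, a1 r hr, a1 r' hr', a2 r hr, a2 r' hr'⟩
  push Not at e
  have a3 : ∀ᵐ x ∂ω, x ∈ ({r} : Set K) :=
    mem_of_superset Measure.support_mem_ae fun x hx => (e x hx).symm
  have a4 : ω {r} = 1 := (prob_compl_eq_zero_iff (measurableSet_singleton r)).1 a3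
  refine absurd ?_ (h r)
  rw [← Measure.restrict_eq_self_of_ae_mem a3, Measure.restrict_singleton, a4, one_smul]

omit [SecondCountableTopology K] [MeasurableSpace K] [BorelSpace K] in
lemma shift {r s z r' s' u : K} {ε : ℝ} (hε : ε ≤ 1) (hr : ‖r‖ ≤ 1) (hs : ‖s‖ ≤ 1)
    (h1 : r' ∈ ball r ε) (h2 : s' ∈ ball s ε) :
    u + r' * s' ∈ ball z ε ↔ u ∈ ball (z - r * s) ε := by
  rw [mem_ball_iff_norm] at h1 h2
  have a1 : ‖s'‖ ≤ 1 := by
    have := IsUltrametricDist.norm_add_le_max (s' - s) s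
    rw [sub_add_cancel] at this
    exact this.trans (max_le (h2.le.trans hε) hs)
  have a2 : z - r * s + r' * s' ∈ ball z ε := by
    rw [mem_ball_iff_norm, show z - r * s + r' * s' - z = (r' - r) * s' + r * (s' - s) by ring]
    refine (IsUltrametricDist.norm_add_le_max _ _).trans_lt (max_lt ?_ ?_)
    · rw [norm_mul]
      exact (mul_le_of_le_one_right (norm_nonneg _) a1).trans_lt h1
    · rw [norm_mul]
      exact (mul_le_of_le_one_left (norm_nonneg _) hr).trans_lt h2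
  rw [IsUltrametricDist.ball_eq_of_mem a2, mem_ball_iff_norm, mem_ball_iff_norm,
    add_sub_add_right_eq_sub]

variable {m : Measure (K × K × K)} {ω ω' : Measure K}

omit [NormedField K] [IsUltrametricDist K] [SecondCountableTopology K] [BorelSpace K] in
lemma cell2 (H : ∀ f : K × K × K → ℝ≥0∞, Measurable f →
    ∫⁻ y, ∫⁻ s, f (y.1, s, y.2.2) ∂ω' ∂m = ∫⁻ y, f y ∂m) {A B C : Set K} (hA : MeasurableSet A)
    (hB : MeasurableSet B) (hC : MeasurableSet C) :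
    m (A ×ˢ B ×ˢ C) = ω' B * m (A ×ˢ univ ×ˢ C) := by
  have hm := hA.prod (hB.prod hC)
  rw [← lintegral_indicator_one hm, ← H _ (measurable_one.indicator hm),
    ← lintegral_indicator_const (hA.prod (MeasurableSet.univ.prod hC))]
  refine lintegral_congr fun y => ?_
  by_cases e : y ∈ A ×ˢ univ ×ˢ C
  · rw [indicator_of_mem e, ← lintegral_indicator_one hB]
    refine lintegral_congr fun s => ?_
    by_cases e' : s ∈ B
    · rw [indicator_of_mem e',
        indicator_of_mem (show (y.1, s, y.2.2) ∈ A ×ˢ B ×ˢ C from ⟨e.1, e', e.2.2⟩)]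
      rfl
    · rw [indicator_of_notMem e', indicator_of_notMem fun h => e' h.2.1]
  · rw [indicator_of_notMem e]
    exact (lintegral_congr fun s => indicator_of_notMem (fun h => e ⟨h.1, trivial, h.2.2⟩) _).trans
      lintegral_zero

lemma cell1 (H : ∀ f : K × K × K → ℝ≥0∞, Measurable f →
    ∫⁻ y, ∫⁻ r, f (r, y.2.1, y.2.2 - y.1 * y.2.1 + r * y.2.1) ∂ω ∂m = ∫⁻ y, f y ∂m)
    {r s : K} (z : K) {ε : ℝ} (hε : ε ≤ 1) (hr : ‖r‖ ≤ 1) (hs : ‖s‖ ≤ 1) :
    m (ball r ε ×ˢ ball s ε ×ˢ ball z ε) =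
      ω (ball r ε) * m {y | y.2.1 ∈ ball s ε ∧ y.2.2 - y.1 * y.2.1 ∈ ball (z - r * s) ε} := by
  have hm : MeasurableSet (ball r ε ×ˢ ball s ε ×ˢ ball z ε) :=
    measurableSet_ball.prod (measurableSet_ball.prod measurableSet_ball)
  have hm' : MeasurableSet {y : K × K × K | y.2.1 ∈ ball s ε ∧
      y.2.2 - y.1 * y.2.1 ∈ ball (z - r * s) ε} :=
    ((isOpen_ball.preimage (by fun_prop)).inter (isOpen_ball.preimage
      (f := fun y : K × K × K => y.2.2 - y.1 * y.2.1) (by fun_prop))).measurableSet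
  rw [← lintegral_indicator_one hm, ← H _ (measurable_one.indicator hm),
    ← lintegral_indicator_const hm']
  refine lintegral_congr fun y => ?_
  by_cases e : y ∈ {y : K × K × K | y.2.1 ∈ ball s ε ∧ y.2.2 - y.1 * y.2.1 ∈ ball (z - r * s) ε}
  · rw [indicator_of_mem e, ← lintegral_indicator_one measurableSet_ball]
    refine lintegral_congr fun r' => ?_
    by_cases e' : r' ∈ ball r ε
    · rw [indicator_of_mem e', indicator_of_mem
        (show (r', y.2.1, y.2.2 - y.1 * y.2.1 + r' * y.2.1) ∈ ball r ε ×ˢ ball s ε ×ˢ ball z ε from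
          ⟨e', e.1, (shift hε hr hs e' e.1).2 e.2⟩)]
      rfl
    · rw [indicator_of_notMem e', indicator_of_notMem fun h => e' h.1]
  · rw [indicator_of_notMem e]
    exact (lintegral_congr fun r' => indicator_of_notMem
      (fun h => e ⟨h.2.1, (shift hε hr hs h.1 h.2.1).1 h.2.2⟩) _).trans lintegral_zero

omit [IsUltrametricDist K] [SecondCountableTopology K] [MeasurableSpace K] [BorelSpace K] in
lemma per {w w' : K → ℝ≥0∞} {a b : K → K → ℝ≥0∞} (hw : ∀ r, w r ≠ ∞) (hw' : ∀ s, w' s ≠ ∞)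
    (h : ∀ r s z, ‖r‖ ≤ 1 → ‖s‖ ≤ 1 → w' s * a r z = w r * b s (z - r * s)) {r₁ r₂ s₁ s₂ : K}
    (n1 : ‖r₁‖ ≤ 1) (n2 : ‖r₂‖ ≤ 1) (n3 : ‖s₁‖ ≤ 1) (n4 : ‖s₂‖ ≤ 1) (p1 : w r₁ ≠ 0)
    (p2 : w r₂ ≠ 0) (p3 : w' s₁ ≠ 0) (p4 : w' s₂ ≠ 0) {r : K} (n : ‖r‖ ≤ 1) (z : K) :
    a r (z - (r₁ - r₂) * (s₁ - s₂)) = a r z := by
  have k : ∀ r r' s z z', ‖r‖ ≤ 1 → ‖r'‖ ≤ 1 → ‖s‖ ≤ 1 → w' s ≠ 0 → z - r * s = z' - r' * s →
      w r' * a r z = w r * a r' z' := fun r r' s z z' h1 h2 h3 h4 e => by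
    refine (ENNReal.mul_right_inj h4 (hw' s)).1 ?_
    rw [mul_left_comm, h r s z h1 h3, mul_left_comm (w' s), h r' s z' h2 h3, e, mul_left_comm]
  have k1 : ∀ z, a r₁ (z - (r₁ - r₂) * (s₁ - s₂)) = a r₁ z := fun z => by
    refine (ENNReal.mul_right_inj p2 (hw _)).1 ?_
    rw [k r₁ r₂ s₂ _ (z - r₁ * s₁ + r₂ * s₁) n1 n2 n4 p4 (by ring),
      k r₁ r₂ s₁ z (z - r₁ * s₁ + r₂ * s₁) n1 n2 n3 p3 (by ring)]
  refine (ENNReal.mul_right_inj p1 (hw _)).1 ?_
  rw [k r r₁ s₁ _ (z - r * s₁ + r₁ * s₁ - (r₁ - r₂) * (s₁ - s₂)) n n1 n3 p3 (by ring),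
    k r r₁ s₁ z (z - r * s₁ + r₁ * s₁) n n1 n3 p3 (by ring), k1]

end Heis

open Heis in
theorem heis : HeisStmt := by
  intro p _ m ω ω' _ _ _ hm H1 H2 d1 d2
  have hN : MeasurableSet {r : ℚ_[p] | 1 < ‖r‖} :=
    (isOpen_lt continuous_const continuous_norm).measurableSet
  have z1 : m {y | 1 < ‖y.1‖} = 0 :=
    measure_eq_zero_iff_ae_notMem.2 (hm.mono fun y h h' => h.1.not_gt h')
  have z2 : m {y | 1 < ‖y.2.1‖} = 0 :=
    measure_eq_zero_iff_ae_notMem.2 (hm.mono fun y h h' => h.2.1.not_gt h')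
  have o1 : ω {r | 1 < ‖r‖} = 0 := by
    have h := H1 _ (measurable_one.indicator (measurable_fst hN))
    rw [lintegral_indicator_one (measurable_fst hN)] at h
    refine Eq.trans ?_ (h.trans z1)
    rw [← lintegral_indicator_one hN]
    exact ((lintegral_const (μ := m) _).trans (by rw [measure_univ, mul_one])).symm
  have o2 : ω' {r | 1 < ‖r‖} = 0 := by
    have h := cell2 H2 MeasurableSet.univ hN MeasurableSet.univ
    rw [univ_prod_univ, univ_prod_univ, measure_univ, mul_one] at h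
    exact h.symm.trans (measure_mono_null (fun y h => h.2.1) z2)
  obtain ⟨r₁, r₂, e1, n1, n2, p1, p2⟩ := two_pts ω o1 d1
  obtain ⟨s₁, s₂, e2, n3, n4, p3, p4⟩ := two_pts ω' o2 d2
  have sb : ∀ x y : ℚ_[p], ‖x‖ ≤ 1 → ‖y‖ ≤ 1 → ‖x - y‖ ≤ 1 := fun x y hx hy => by
    rw [sub_eq_add_neg]
    exact (IsUltrametricDist.norm_add_le_max _ _).trans (max_le hx (by rwa [norm_neg]))
  refine ⟨(r₁ - r₂) * (s₁ - s₂), mul_ne_zero (sub_ne_zero.2 e1) (sub_ne_zero.2 e2), ?_, ?_⟩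
  · rw [norm_mul]
    exact mul_le_one₀ (sb _ _ n1 n2) (norm_nonneg _) (sb _ _ n3 n4)
  have hT : Measurable fun y : ℚ_[p] × ℚ_[p] × ℚ_[p] =>
      (y.1, y.2.1, y.2.2 + (r₁ - r₂) * (s₁ - s₂)) := Continuous.measurable (by fun_prop)
  have := ultra_prod (X := ℚ_[p]) (Y := ℚ_[p])
  have := ultra_prod (X := ℚ_[p]) (Y := ℚ_[p] × ℚ_[p])
  refine ext_ball _ _ (by rw [Measure.map_apply hT MeasurableSet.univ, preimage_univ]) ?_
  rintro ⟨r, s, z⟩ ε h0 h1
  rw [Measure.map_apply hT measurableSet_ball, ← ball_prod_same, ← ball_prod_same]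
  have e : (fun y : ℚ_[p] × ℚ_[p] × ℚ_[p] => (y.1, y.2.1, y.2.2 + (r₁ - r₂) * (s₁ - s₂))) ⁻¹'
      ball r ε ×ˢ ball s ε ×ˢ ball z ε =
      ball r ε ×ˢ ball s ε ×ˢ ball (z - (r₁ - r₂) * (s₁ - s₂)) ε := by
    ext y
    simp only [mem_preimage, mem_prod, mem_ball_iff_norm, sub_sub_eq_add_sub]
  rw [e]
  by_cases n : ‖r‖ ≤ 1
  · rw [cell2 H2 measurableSet_ball measurableSet_ball measurableSet_ball,
      cell2 H2 measurableSet_ball measurableSet_ball measurableSet_ball]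
    congr 1
    exact per (w := fun r => ω (ball r ε)) (w' := fun s => ω' (ball s ε))
      (a := fun r z => m (ball r ε ×ˢ univ ×ˢ ball z ε))
      (b := fun s u => m {y | y.2.1 ∈ ball s ε ∧ y.2.2 - y.1 * y.2.1 ∈ ball u ε})
      (fun _ => measure_ne_top _ _) (fun _ => measure_ne_top _ _)
      (fun r s z hr hs => (cell2 H2 measurableSet_ball measurableSet_ball
        measurableSet_ball).symm.trans (cell1 H1 z h1 hr hs))
      n1 n2 n3 n4 (p1 ε h0) (p2 ε h0) (p3 ε h0) (p4 ε h0) n z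
  · have k : ∀ S : Set (ℚ_[p] × ℚ_[p]), m (ball r ε ×ˢ S) = 0 := fun S =>
      measure_mono_null (fun y h => not_le.1 fun h' => n (by
        have h2 := IsUltrametricDist.norm_add_le_max (r - y.1) y.1
        rw [sub_add_cancel] at h2
        exact h2.trans (max_le ((mem_ball_iff_norm'.1 h.1).le.trans h1) h'))) z1
    rw [k, k]

end Pool.Agent.Lib.MP_9177b7_ag.B
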