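import Pool.Agent.Lib.MP_9177b7_ag.B.StA

/-!
The Hopf argument.
-/

open MeasureTheory ProbabilityTheory Filter Topology Set
open scoped ENNReal

namespace Pool.Agent.Lib.MP_9177b7_ag.B

namespace Hopf

variable {G X : Type} [Group G] [TopologicalSpace G] [IsTopologicalGroup G] [TopologicalSpace X]
  [MulAction G X] [ContinuousSMul G X]

/-- Uniform continuity along the group of a continuous function with compact support. -/
theorem tube {φ : X → ℝ} (hc : Continuous φ) (hs : HasCompactSupport φ) {ε : ℝ≥0∞} (hε : ε ≠ 0) :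
    ∀ᶠ g in 𝓝 (1 : G), ∀ z : X, edist (φ (g • z)) (φ z) < ε := by
  have h1 : ∀ᶠ g in 𝓝 (1 : G), ∀ z ∈ tsupport φ, edist (φ (g • z)) (φ z) < ε :=
    IsCompact.eventually_forall_of_forall_eventually hs fun y _ => by
      have : Continuous fun q : G × X => edist (φ (q.1 • q.2)) (φ q.2) := by fun_prop
      exact (isOpen_lt this continuous_const).mem_nhds (by simpa using pos_iff_ne_zero.2 hε)
  have h2 : ∀ᶠ g in 𝓝 (1 : G), ∀ z ∈ tsupport φ, edist (φ (g⁻¹ • z)) (φ z) < ε := by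
    have : Tendsto (fun g : G => g⁻¹) (𝓝 1) (𝓝 1) := by
      simpa using (continuous_inv (G := G)).tendsto 1
    exact this.eventually h1
  filter_upwards [h1, h2] with g a b z
  by_cases hz : z ∈ tsupport φ
  · exact a z hz
  by_cases hg : g • z ∈ tsupport φ
  · have := b _ hg
    rwa [inv_smul_smul, edist_comm] at this
  · rw [image_eq_zero_of_notMem_tsupport hz, image_eq_zero_of_notMem_tsupport hg, edist_self]
    exact pos_iff_ne_zero.2 hε

variable [PolishSpace X] [LocallyCompactSpace X] [MeasurableSpace X] [BorelSpace X]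

omit [IsTopologicalGroup G] [PolishSpace X] [LocallyCompactSpace X] in
theorem mp {ν : Measure X} {T : G} (hT : ν.map (T • ·) = ν) (n : ℕ) :
    MeasurePreserving (fun x : X => T ^ n • x) ν ν := by
  have h : MeasurePreserving (fun x : X => T • x) ν ν :=
    ⟨(continuous_const_smul T).measurable, hT⟩
  induction n with
  | zero =>
    simp only [pow_zero, one_smul]
    exact MeasurePreserving.id ν
  | succ n ih =>
    simp only [pow_succ', mul_smul]
    exact h.comp ih

theorem one {ν : Measure X} [IsFiniteMeasure ν] {T : G} {V : Set G} {F : X → ℝ}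
    (hT : ν.map (T • ·) = ν) (hF : Measurable F) (hb : ∀ x, |F x| ≤ 1)
    (hV : ∀ O ∈ 𝓝 (1 : G), ∀ᶠ n : ℕ in atTop, ∀ w ∈ V, T ^ n * w * (T ^ n)⁻¹ ∈ O)
    {ε : ℝ≥0∞} (h0 : ε ≠ 0) (h1 : ε ≠ ∞) :
    ∃ B : Set X, MeasurableSet B ∧ ν B ≤ ε ∧ ∀ w ∈ V, ∀ x, x ∉ B → w • x ∉ B →
      (∀ n : ℕ, F (T ^ n • x) = F x) → (∀ n : ℕ, F (T ^ n • w • x) = F (w • x)) →
      edist (F (w • x)) (F x) ≤ 3 * ε := by
  have hi : Integrable F ν :=
    Integrable.of_bound hF.aestronglyMeasurable 1 (Eventually.of_forall hb)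
  obtain ⟨φ, hs, hφ, hc, -⟩ := hi.exists_hasCompactSupport_lintegral_sub_le (mul_ne_zero h0 h0)
  obtain ⟨a, ha⟩ := (hV _ (tube (G := G) hc hs h0)).exists
  have hm : Measurable fun x => ‖F x - φ x‖ₑ := (hF.sub hc.measurable).enorm
  have hB : MeasurableSet {x | ε ≤ ‖F x - φ x‖ₑ} := measurableSet_le measurable_const hm
  refine ⟨(fun x : X => T ^ a • x) ⁻¹' {x | ε ≤ ‖F x - φ x‖ₑ}, (mp hT a).measurable hB, ?_,
    fun w hw x hx hwx e1 e2 => ?_⟩
  · rw [(mp hT a).measure_preimage hB.nullMeasurableSet]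
    refine (meas_ge_le_lintegral_div hm.aemeasurable h0 h1).trans ?_
    exact ENNReal.div_le_of_le_mul hφ
  · have k1 : edist (φ (T ^ a • x)) (F x) ≤ ε := by
      rw [← e1 a, edist_comm, edist_eq_enorm_sub]
      exact (not_le.1 hx).le
    have k2 : edist (F (w • x)) (φ (T ^ a • w • x)) ≤ ε := by
      rw [← e2 a, edist_eq_enorm_sub]
      exact (not_le.1 hwx).le
    have k3 : edist (φ (T ^ a • w • x)) (φ (T ^ a • x)) ≤ ε := by
      have := ha w hw (T ^ a • x)
      rw [mul_smul, mul_smul, inv_smul_smul] at this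
      exact this.le
    calc edist (F (w • x)) (F x) ≤ _ := edist_triangle4 _ _ _ _
      _ ≤ ε + ε + ε := add_le_add (add_le_add k2 k3) k1
      _ = 3 * ε := by ring

end Hopf

theorem hopf : HopfStmt := by
  intro G X _ _ _ _ _ _ _ _ _ _ ν _ T V F hT hF hb hi hV
  have h0 : ∀ j : ℕ, (2⁻¹ : ℝ≥0∞) ^ j ≠ 0 := fun j => pow_ne_zero _ (by simp)
  have h1 : ∀ j : ℕ, (2⁻¹ : ℝ≥0∞) ^ j ≠ ∞ := fun j => ENNReal.pow_ne_top (by simp)
  choose B hB hν hw using fun j : ℕ => Hopf.one hT hF hb hV (h0 j) (h1 j)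
  have hsum : ∑' j, ν (B j) ≠ ∞ := by
    refine ne_top_of_le_ne_top ?_ (ENNReal.tsum_le_tsum hν)
    rw [ENNReal.tsum_geometric]
    simp
  have hinv : ∀ n : ℕ, ∀ᵐ x ∂ν, F (T ^ n • x) = F x := by
    intro n
    induction n with
    | zero => simp
    | succ n ih =>
      filter_upwards [ih, (Hopf.mp hT n).quasiMeasurePreserving.ae hi] with x a b
      rw [pow_succ', mul_smul, b, a]
  refine ⟨{x | ∀ᶠ j in atTop, x ∉ B j} ∩ {x | ∀ n : ℕ, F (T ^ n • x) = F x}, ?_, ?_,
    fun w hwV x hx hwx => ?_⟩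
  · refine MeasurableSet.inter ?_ ?_
    · simp only [eventually_atTop, ofPred_exists, ofPred_forall]
      exact MeasurableSet.iUnion fun _ => MeasurableSet.iInter fun j =>
        MeasurableSet.iInter fun _ => (hB j).compl
    · rw [ofPred_forall]
      exact MeasurableSet.iInter fun n =>
        measurableSet_eq_fun (hF.comp (Hopf.mp hT n).measurable) hF
  · filter_upwards [ae_eventually_notMem hsum, ae_all_iff.2 hinv] with x a b using ⟨a, b⟩
  · have ht : Tendsto (fun j : ℕ => 3 * (2⁻¹ : ℝ≥0∞) ^ j) atTop (𝓝 0) := by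
      have := ENNReal.Tendsto.const_mul (a := 3)
        (ENNReal.tendsto_pow_atTop_nhds_zero_of_lt_one (r := 2⁻¹) (by simp)) (Or.inr (by simp))
      simpa using this
    refine edist_eq_zero.1 (nonpos_iff_eq_zero.1 (ge_of_tendsto ht ?_))
    filter_upwards [hx.1, hwx.1] with j a b using hw j w hwV x a b hx.2 hwx.2

end Pool.Agent.Lib.MP_9177b7_ag.B
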