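import Pool.Agent.Lib.MP_9177b7_ag.B.St

/-! Ideals of prime power norm. -/

open NumberField UniqueFactorizationMonoid Pool.Agent.Shared.PrimeZeta

namespace Pool.Agent.Lib.MP_9177b7_ag.B

namespace Idc

variable {M : Type} [Field M] [NumberField M] {q i : ℕ}

theorem pow_card_dvd (s : Multiset (Ideal (𝓞 M))) (h : ∀ P ∈ s, q ∣ Ideal.absNorm P) :
    q ^ s.card ∣ Ideal.absNorm s.prod := by
  induction s using Multiset.induction_on with
  | empty => simp
  | cons P s ih =>
    rw [Multiset.card_cons, Multiset.prod_cons, map_mul, pow_succ']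
    exact mul_dvd_mul (h P (Multiset.mem_cons_self _ _))
      (ih fun Q hQ => h Q (Multiset.mem_cons_of_mem hQ))

theorem ne_bot (hq : q.Prime) {I : Ideal (𝓞 M)} (hI : Ideal.absNorm I = q ^ i) : I ≠ ⊥ := by
  rintro rfl
  rw [Ideal.absNorm_bot] at hI
  exact pow_ne_zero _ hq.ne_zero hI.symm

theorem norm_pow (hq : q.Prime) {P : Ideal (𝓞 M)} (hP : P.IsMaximal)
    (h : Ideal.absNorm P ∣ q ^ i) : ∃ f, 1 ≤ f ∧ f ≤ i ∧ Ideal.absNorm P = q ^ f := by
  obtain ⟨f, hf, e⟩ := (Nat.dvd_prime_pow hq).1 h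
  refine ⟨f, Nat.one_le_iff_ne_zero.2 ?_, hf, e⟩
  rintro rfl
  exact hP.ne_top (Ideal.absNorm_eq_one_iff.1 e)

theorem factor (hq : q.Prime) {I P : Ideal (𝓞 M)} (hI : Ideal.absNorm I = q ^ i)
    (hP : P ∈ normalizedFactors I) : P.IsMaximal ∧ (Ideal.absNorm P).minFac = q := by
  have h1 := prime_of_normalized_factor P hP
  have h2 : P.IsMaximal := (Ideal.isPrime_of_prime h1).isMaximal h1.ne_zero
  obtain ⟨f, hf, -, e⟩ := norm_pow (i := i) hq h2
    (hI ▸ map_dvd Ideal.absNorm (dvd_of_mem_normalizedFactors hP))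
  exact ⟨h2, by rw [e, hq.pow_minFac (by omega)]⟩

theorem count (hq : q.Prime) : nI M (q ^ i) ≤ (i + 1) ^ Module.finrank ℚ M := by
  classical
  let T : Finset (Ideal (𝓞 M)) := (idl M (q ^ i)).biUnion fun I => (normalizedFactors I).toFinset
  have hT : ∀ P ∈ T, P.IsMaximal ∧ (Ideal.absNorm P).minFac = q := fun P hP => by
    obtain ⟨I, hI, h⟩ := Finset.mem_biUnion.1 hP
    exact factor hq (mem_idl.1 hI) (Multiset.mem_toFinset.1 h)
  have hc : T.card ≤ Module.finrank ℚ M := by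
    rw [← RingOfIntegers.rank]
    exact card_le_finrank T q (fun P hP => (hT P hP).1) fun P hP => (hT P hP).2
  have h1 : (idl M (q ^ i)).card ≤ (Fintype.piFinset fun _ : T => Finset.range (i + 1)).card := by
    refine Finset.card_le_card_of_injOn (fun I P => (normalizedFactors I).count P.1)
      (fun I hI => ?_) (fun I hI J hJ h => ?_)
    · have hI' := mem_idl.1 (Finset.mem_coe.1 hI)
      have h2 := pow_card_dvd (q := q) (normalizedFactors I) fun P hP =>
        (factor hq hI' hP).2 ▸ Nat.minFac_dvd _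
      rw [Ideal.prod_normalizedFactors_eq_self (ne_bot hq hI'), hI',
        Nat.pow_dvd_pow_iff_le_right hq.one_lt] at h2
      refine Finset.mem_coe.2 (Fintype.mem_piFinset.2 fun P => Finset.mem_range.2 ?_)
      exact Nat.lt_succ_of_le ((Multiset.count_le_card _ _).trans h2)
    · have hI' := Finset.mem_coe.1 hI
      have hJ' := Finset.mem_coe.1 hJ
      rw [← Ideal.prod_normalizedFactors_eq_self (ne_bot hq (mem_idl.1 hI')),
        ← Ideal.prod_normalizedFactors_eq_self (ne_bot hq (mem_idl.1 hJ'))]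
      congr 1
      ext P
      by_cases hP : P ∈ T
      · exact congrFun h ⟨P, hP⟩
      · rw [Multiset.count_eq_zero_of_notMem fun h' => hP
            (Finset.mem_biUnion.2 ⟨I, hI', Multiset.mem_toFinset.2 h'⟩),
          Multiset.count_eq_zero_of_notMem fun h' => hP
            (Finset.mem_biUnion.2 ⟨J, hJ', Multiset.mem_toFinset.2 h'⟩)]
  rw [card_idl, Fintype.card_piFinset] at h1
  simp only [Finset.card_range, Finset.prod_const, Finset.card_univ, Fintype.card_coe] at h1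
  exact h1.trans (Nat.pow_le_pow_right (Nat.succ_pos i) hc)

theorem divisor (hq : q.Prime) (a : Ideal (𝓞 M)) (h : q ^ i ∣ Ideal.absNorm a) :
    ∃ (E : Ideal (𝓞 M)) (i' : ℕ), a ≤ E ∧ i ≤ i' ∧ i' ≤ i + Module.finrank ℚ M ∧
      Ideal.absNorm E = q ^ i' := by
  induction i with
  | zero => exact ⟨⊤, 0, le_top, le_rfl, Nat.zero_le _, by simp⟩
  | succ i ih =>
    obtain ⟨E, i', hE, h1, h2, e⟩ := ih ((pow_dvd_pow q (Nat.le_succ i)).trans h)
    by_cases hi : i + 1 ≤ i'
    · exact ⟨E, i', hE, hi, by omega, e⟩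
    obtain rfl : i = i' := by omega
    obtain ⟨a', rfl⟩ := Ideal.dvd_iff_le.2 hE
    rw [map_mul, e, pow_succ] at h
    obtain ⟨P, hP, hu, hd⟩ := Ideal.exists_isMaximal_dvd_of_dvd_absNorm' hq a'
      (Nat.dvd_of_mul_dvd_mul_left (pow_pos hq.pos i) h)
    have hm : Ideal.span {(q : 𝓞 M)} ≤ P := by
      rw [Ideal.span_singleton_le_iff_mem]
      have h3 : (q : ℤ) ∈ P.under ℤ := hu ▸ Ideal.mem_span_singleton_self _
      simpa using Ideal.mem_comap.1 h3
    have hn := Ideal.absNorm_dvd_absNorm_of_le hm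
    rw [Ideal.absNorm_span_natCast, RingOfIntegers.rank] at hn
    obtain ⟨f, hf, hf', ef⟩ := norm_pow hq hP hn
    exact ⟨E * P, i + f, Ideal.dvd_iff_le.1 (mul_dvd_mul_left E hd), by omega, by omega,
      by rw [map_mul, e, ef, pow_add]⟩

end Idc

theorem idc : IdcStmt := fun _ _ _ _ _ hq => ⟨Idc.count hq, Idc.divisor hq⟩

end Pool.Agent.Lib.MP_9177b7_ag.B
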