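import Pool.Agent.Lib.MP_9177b7_ag.B.St

/-! The set of classes is stable under the kernel of the norm. -/

set_option autoImplicit false

open NumberField
open scoped nonZeroDivisors

namespace Pool.Agent.Lib.MP_9177b7_ag.B

namespace Iso

variable (K L : Type) [Field K] [NumberField K] [Field L] [NumberField L] [Algebra K L]

theorem norm_mem (I : (Ideal (𝓞 L))⁰) : Ideal.relNorm (𝓞 K) I.1 ∈ (Ideal (𝓞 K))⁰ :=
  mem_nonZeroDivisors_of_ne_zero fun h =>
    nonZeroDivisors.ne_zero I.2 (Ideal.relNorm_eq_bot_iff.1 h)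

theorem exists_norm : ∃ N : ClassGroup (𝓞 L) →* ClassGroup (𝓞 K), ∀ I : (Ideal (𝓞 L))⁰,
    N (ClassGroup.mk0 I) = ClassGroup.mk0 ⟨_, norm_mem K L I⟩ := by
  have h : ∀ I J : (Ideal (𝓞 L))⁰, ClassGroup.mk0 I = ClassGroup.mk0 J →
      ClassGroup.mk0 ⟨_, norm_mem K L I⟩ = ClassGroup.mk0 ⟨_, norm_mem K L J⟩ := by
    intro I J e
    obtain ⟨x, y, hx, hy, e⟩ := ClassGroup.mk0_eq_mk0_iff.1 e
    have := congrArg (Ideal.relNorm (𝓞 K)) e
    rw [map_mul, map_mul, Ideal.relNorm_singleton, Ideal.relNorm_singleton] at this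
    exact ClassGroup.mk0_eq_mk0_iff.2 ⟨_, _, by simpa using hx, by simpa using hy, this⟩
  choose r hr using ClassGroup.mk0_surjective (R := 𝓞 L)
  refine ⟨MonoidHom.mk' (fun x => ClassGroup.mk0 ⟨_, norm_mem K L (r x)⟩) fun x y => ?_,
    fun I => h _ _ (hr _)⟩
  rw [h (r (x * y)) (r x * r y) (by rw [map_mul, hr, hr, hr]), ← map_mul]
  exact congrArg _ (Subtype.ext (map_mul (Ideal.relNorm (𝓞 K)) _ _))

variable {L} in
theorem norm_eq {b : Ideal (𝓞 L)} (h0 : b ≠ ⊥) (hb : Cyc b) :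
    Ideal.relNorm (𝓞 K) b = b.comap (algebraMap (𝓞 K) (𝓞 L)) := by
  have e : Ideal.absNorm (b.comap (algebraMap (𝓞 K) (𝓞 L))) = Ideal.absNorm b := by
    rw [Ideal.absNorm_apply, Ideal.absNorm_apply, Submodule.cardQuot_apply,
      Submodule.cardQuot_apply]
    refine Nat.card_eq_of_bijective (Ideal.quotientMap b (algebraMap (𝓞 K) (𝓞 L)) le_rfl)
      ⟨Ideal.quotientMap_injective, fun x => ?_⟩
    obtain ⟨x, rfl⟩ := Ideal.Quotient.mk_surjective x
    obtain ⟨z, hz⟩ := hb x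
    exact ⟨z, by rw [map_intCast, ← map_intCast (Ideal.Quotient.mk b), eq_comm, Ideal.Quotient.eq]; exact hz⟩
  obtain ⟨c, hc⟩ := Ideal.dvd_iff_le.2 (Ideal.relNorm_le_comap (𝓞 K) b)
  have := congrArg Ideal.absNorm hc
  rw [Ideal.absNorm_relNorm, map_mul, e] at this
  have h1 : Ideal.absNorm c = 1 :=
    (mul_eq_left₀ (by rwa [Ne, Ideal.absNorm_eq_zero_iff])).1 this.symm
  rw [hc, Ideal.absNorm_eq_one_iff.1 h1, Ideal.mul_top]

end Iso

open Iso in
theorem iso (_ : FrameStmt) (hC : CycStmt) (hN : NbrStmt) : IsoStmt := by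
  intro n p _ c D
  obtain ⟨N, hNm⟩ := exists_norm c.K D.L
  have hm : c.m0 ≠ 0 := by
    rw [Ctx.m0, Ne, Ideal.absNorm_eq_zero_iff, Ideal.span_singleton_eq_bot]
    exact mul_ne_zero two_ne_zero c.δ_ne
  have st : ∀ y ∈ N.ker, ∀ x : D.Cl, ∃ z : D.Cl, z.1 = y * x.1 := by
    rintro y hy ⟨_, a, rfl, e, he⟩
    obtain ⟨b, rfl, h1, h2⟩ := hC D.L c.m0 y hm
    have h0 : b.1 ≠ ⊥ := nonZeroDivisors.ne_zero b.2
    rw [MonoidHom.mem_ker, hNm, ClassGroup.mk0_eq_one_iff, norm_eq c.K h0 h2] at hy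
    obtain ⟨e', he'⟩ := hN n p c D _ e b he h0 h2 h1 hy
    refine ⟨⟨_, b * a, map_mul _ _ _, e', ?_⟩, rfl⟩
    convert he' using 1
    simp only [Dat.tw, Dat.cI, Submonoid.coe_mul, Ideal.map_mul, FractionalIdeal.coeIdeal_mul,
      mul_inv]
    ring
  refine ⟨?_, fun P P' h h' e x => ?_⟩
  · obtain ⟨e, he⟩ := D.sp.frame
    have one : ∃ x : D.Cl, x.1 = 1 := ⟨⟨1, 1, map_one _, e, by
      simpa [Dat.tw, Dat.cI, Ideal.map_top] using he⟩, rfl⟩
    obtain ⟨x, hx⟩ := one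
    choose f hf using fun y : N.ker => st y.1 y.2 x
    have h1 : Nat.card N.ker ≤ Nat.card D.Cl := Nat.card_le_card_of_injective f fun y y' h =>
      Subtype.ext (mul_right_cancel ((hf y).symm.trans (h ▸ hf y')))
    rw [classNumber, classNumber, ← Nat.card_eq_fintype_card, ← Nat.card_eq_fintype_card,
      ← Nat.card_eq_fintype_card, ← N.ker.index_mul_card, Subgroup.index_ker]
    exact Nat.mul_le_mul (Subgroup.card_le_card_group _) h1
  · obtain ⟨z, hz⟩ := st (ClassGroup.mk0 P * (ClassGroup.mk0 P')⁻¹) (by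
      rw [MonoidHom.mem_ker, map_mul, map_inv, mul_inv_eq_one, hNm, hNm]
      refine congrArg _ (Subtype.ext ?_)
      exact (norm_eq c.K (nonZeroDivisors.ne_zero P.2) h).trans
        (e.trans (norm_eq c.K (nonZeroDivisors.ne_zero P'.2) h').symm)) x
    exact ⟨z, by rw [hz, mul_comm, mul_assoc]⟩

end Pool.Agent.Lib.MP_9177b7_ag.B
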