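import Pool.Agent.Lib.MP_9177b7_ag.B.StA

/-!
All levels of a contracted compact group carry the same information.
-/

open MeasureTheory ProbabilityTheory Filter Topology Set
open scoped ENNReal BoundedContinuousFunction

set_option linter.unusedSectionVars false

noncomputable section

namespace Pool.Agent.Lib.MP_9177b7_ag.B

namespace Lev

/-- The set where two finite kernels agree is measurable. -/
theorem meas_eq {G X : Type} [MeasurableSpace G] [MeasurableSpace.CountablyGenerated G]
    [MeasurableSpace X] (κ η : Kernel X G) [IsFiniteKernel κ] [IsFiniteKernel η] :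
    MeasurableSet {x | κ x = η x} := by
  set A : Set (Set G) := generateSetAlgebra (MeasurableSpace.countableGeneratingSet G) with hA
  have hc : A.Countable :=
    countable_generateSetAlgebra MeasurableSpace.countable_countableGeneratingSet
  have hg : (inferInstance : MeasurableSpace G) = MeasurableSpace.generateFrom A := by
    rw [hA, generateFrom_generateSetAlgebra_eq,
      MeasurableSpace.generateFrom_countableGeneratingSet]
  have halg : IsSetAlgebra A := isSetAlgebra_generateSetAlgebra
  have hm : ∀ s ∈ A, MeasurableSet s := fun s hs => by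
    have h : MeasurableSet[MeasurableSpace.generateFrom A] s :=
      MeasurableSpace.measurableSet_generateFrom hs
    rwa [← hg] at h
  have e : {x | κ x = η x} = ⋂ s ∈ A, {x | κ x s = η x s} := by
    ext x
    simp only [mem_setOf_eq, mem_iInter]
    refine ⟨fun h s _ => by rw [h], fun h => ?_⟩
    exact ext_of_generate_finite A hg (fun s hs t ht _ => halg.inter_mem hs ht) h
      (h _ halg.univ_mem)
  rw [e]
  exact MeasurableSet.biInter hc fun s hs =>
    measurableSet_eq_fun (κ.measurable_coe (hm s hs)) (η.measurable_coe (hm s hs))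

theorem eq_dirac {G : Type} [MeasurableSpace G] [MeasurableSingletonClass G] (μ : Measure G)
    [IsProbabilityMeasure μ] (g : G) (h : μ {g} = 1) : μ = Measure.dirac g := by
  have h0 : μ {g}ᶜ = 0 := (prob_compl_eq_zero_iff (measurableSet_singleton g)).2 h
  ext s hs
  by_cases hg : g ∈ s
  · rw [Measure.dirac_apply_of_mem hg]
    exact le_antisymm prob_le_one (h ▸ measure_mono (singleton_subset_iff.2 hg))
  · rw [Measure.dirac_apply' _ hs, indicator_of_notMem hg]
    exact measure_mono_null (fun y hy (e : y = g) => hg (e ▸ hy)) h0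

section grp

variable {G : Type} [Group G] [TopologicalSpace G] [IsTopologicalGroup G] [PolishSpace G]
  [MeasurableSpace G] [BorelSpace G]

/-- The stabiliser of a finite measure under left translation is closed. -/
theorem stab_closed (μ : Measure G) [IsFiniteMeasure μ] :
    IsClosed {u : G | μ.map (u * ·) = μ} := by
  have e : {u : G | μ.map (u * ·) = μ} =
      ⋂ f : G →ᵇ ℝ, {u : G | ∫ g, f (u * g) ∂μ = ∫ g, f g ∂μ} := by
    ext u
    simp only [mem_setOf_eq, mem_iInter]
    have k : ∀ f : G →ᵇ ℝ, ∫ g, f g ∂μ.map (u * ·) = ∫ g, f (u * g) ∂μ := fun f =>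
      integral_map (measurable_const_mul u).aemeasurable f.continuous.aestronglyMeasurable
    refine ⟨fun h f => by rw [← k, h], fun h => ?_⟩
    exact ext_of_forall_integral_eq_of_IsFiniteMeasure fun f => by rw [k, h]
  rw [e]
  refine isClosed_iInter fun f => isClosed_eq ?_ continuous_const
  refine continuous_of_dominated (bound := fun _ => ‖f‖) (fun u => ?_)
    (fun u => Eventually.of_forall fun g => f.norm_coe_le_norm _) (integrable_const _)
    (Eventually.of_forall fun g => by fun_prop)
  exact (f.continuous.comp (continuous_const_mul u)).aestronglyMeasurable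

theorem dense_inv (S : Set G) : ∃ D : Set G, D ⊆ S ∧ D.Countable ∧
    ∀ (μ : Measure G) [IsFiniteMeasure μ], (∀ u ∈ D, μ.map (u * ·) = μ) →
      ∀ u ∈ S, μ.map (u * ·) = μ := by
  obtain ⟨D, h1, h2, h3⟩ :=
    (TopologicalSpace.IsSeparable.of_separableSpace S).exists_countable_dense_subset
  exact ⟨D, h1, h2, fun μ _ h u hu => closure_minimal (t := {u : G | μ.map (u * ·) = μ}) h
    (stab_closed μ) (h3 hu)⟩

theorem meas_inv {X : Type} [MeasurableSpace X] (κ : Kernel X G) [IsFiniteKernel κ] (S : Set G) :
    MeasurableSet {x | ∀ u ∈ S, (κ x).map (u * ·) = κ x} := by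
  obtain ⟨D, h1, h2, h3⟩ := dense_inv S
  have e : {x | ∀ u ∈ S, (κ x).map (u * ·) = κ x} =
      ⋂ u ∈ D, {x | (κ.map (u * ·)) x = κ x} := by
    ext x
    simp only [mem_setOf_eq, mem_iInter, Kernel.map_apply κ (measurable_const_mul _)]
    exact ⟨fun h u hu => h u (h1 hu), h3 _⟩
  rw [e]
  exact MeasurableSet.biInter h2 fun u _ => meas_eq _ _

theorem meas_one {X : Type} [MeasurableSpace X] (κ : Kernel X G) [IsFiniteKernel κ] :
    MeasurableSet {x | κ x = Measure.dirac 1} :=
  meas_eq κ (Kernel.const X (Measure.dirac 1))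

theorem meas_dirac {X : Type} [MeasurableSpace X] (κ : Kernel X G) [IsMarkovKernel κ] :
    MeasurableSet {x | ∃ g, κ x = Measure.dirac g} := by
  have hd : MeasurableSet (diagonal G) := isClosed_diagonal.measurableSet
  have e : {x | ∃ g, κ x = Measure.dirac g} = {x | (κ ×ₖ κ) x (diagonal G) = 1} := by
    ext x
    simp only [mem_setOf_eq, Kernel.prod_apply]
    constructor
    · rintro ⟨g, hg⟩
      rw [hg, Measure.dirac_prod_dirac]
      exact Measure.dirac_apply_of_mem rfl
    · intro h
      have h1 : ∀ᵐ z ∂(κ x).prod (κ x), z ∈ diagonal G := (prob_compl_eq_zero_iff hd).2 h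
      obtain ⟨g, hg⟩ := (Measure.ae_ae_of_ae_prod h1).exists
      refine ⟨g, eq_dirac _ g ((prob_compl_eq_zero_iff (measurableSet_singleton g)).1 ?_)⟩
      refine measure_mono_null (fun y hy => ?_) hg
      exact fun (e : g = y) => hy e.symm
  rw [e]
  exact (Kernel.measurable_coe _ hd) (measurableSet_singleton 1)

theorem map_comm (μ : Measure G) (u c : G) :
    (μ.map (· * c)).map (u * ·) = (μ.map (u * ·)).map (· * c) := by
  rw [Measure.map_map (measurable_const_mul u) (measurable_mul_const c),
    Measure.map_map (measurable_mul_const c) (measurable_const_mul u)]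
  congr 1
  funext g
  exact (mul_assoc _ _ _).symm

theorem map_cancel (μ : Measure G) (c : G) : (μ.map (· * c⁻¹)).map (· * c) = μ := by
  rw [Measure.map_map (measurable_mul_const c) (measurable_mul_const c⁻¹)]
  have : ((· * c) ∘ (· * c⁻¹) : G → G) = id := by
    funext g
    simp
  rw [this, Measure.map_id]

theorem meas_conj (T : G) : Measurable fun g : G => T * g * T⁻¹ := by fun_prop

theorem conj_inj (T : G) {μ μ' : Measure G}
    (h : μ.map (fun g => T * g * T⁻¹) = μ'.map fun g => T * g * T⁻¹) : μ = μ' := by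
  have k : ∀ m : Measure G,
      (m.map fun g => T * g * T⁻¹).map (fun g => T⁻¹ * g * T⁻¹⁻¹) = m := fun m => by
    rw [Measure.map_map (meas_conj _) (meas_conj _)]
    have : ((fun g => T⁻¹ * g * T⁻¹⁻¹) ∘ (fun g => T * g * T⁻¹) : G → G) = id := by
      funext g
      simp [mul_assoc]
    rw [this, Measure.map_id]
  rw [← k μ, h, k]

theorem conj_comm (T u : G) (μ : Measure G) :
    (μ.map fun g => T * g * T⁻¹).map ((T * u * T⁻¹) * ·) =
      (μ.map (u * ·)).map fun g => T * g * T⁻¹ := by
  rw [Measure.map_map (measurable_const_mul _) (meas_conj _),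
    Measure.map_map (meas_conj _) (measurable_const_mul _)]
  congr 1
  funext g
  simp [mul_assoc]

variable {X : Type} [TopologicalSpace X] [PolishSpace X] [MeasurableSpace X] [BorelSpace X]
  [MulAction G X] [ContinuousSMul G X] {ν : Measure X} {U : Subgroup G} {κ : Kernel X G}

theorem null_of (h : IsCond U ν κ) {S : Set X} (hS : MeasurableSet S)
    (H : ∀ᵐ x ∂ν, ∀ᵐ c ∂κ x, c • x ∉ S) : ∀ᵐ x ∂ν, x ∉ S := by
  have k := h.dis (S.indicator 1) (measurable_one.indicator hS)
  rw [lintegral_indicator_one hS] at k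
  have z : ν S = 0 := by
    rw [← k]
    refine (lintegral_congr_ae (g := fun _ => 0) ?_).trans lintegral_zero
    filter_upwards [H] with x hx
    refine (lintegral_congr_ae (g := fun _ => 0) ?_).trans lintegral_zero
    filter_upwards [hx] with c hc using indicator_of_notMem hc _
  exact measure_eq_zero_iff_ae_notMem.1 z

theorem ae_mem (h : IsCond U ν κ) (x : X) : ∀ᵐ c ∂κ x, c ∈ U := h.supp x

theorem back (h : IsCond U ν κ) {c : G} (hc : c ∈ U) (x : X) :
    κ x = (κ (c • x)).map (· * c) := by
  rw [h.equi c hc, map_cancel]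

theorem part3 (h : IsCond U ν κ) :
    ∀ᵐ x ∂ν, (∃ g, κ x = Measure.dirac g) → κ x = Measure.dirac 1 := by
  have := h.markov
  have k := null_of h ((meas_dirac κ).diff (meas_one κ)) (Eventually.of_forall fun x => ?_)
  · filter_upwards [k] with x hx hg
    by_contra hn
    exact hx ⟨hg, hn⟩
  · by_cases hx : ∃ g, κ x = Measure.dirac g
    · obtain ⟨g, hg⟩ := hx
      have hU := ae_mem h x
      rw [hg, ae_dirac_eq] at hU
      rw [hg, ae_dirac_eq]
      refine fun hh => hh.2 ?_
      show κ (g • x) = _
      rw [h.equi g hU, hg, Measure.map_dirac, mul_inv_cancel]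
    · filter_upwards [ae_mem h x] with c hc hh
      obtain ⟨g, hg⟩ := hh.1
      exact hx ⟨g * c, by rw [back h hc x, hg, Measure.map_dirac]⟩

theorem part4 (h : IsCond U ν κ) (H : ∀ᵐ x ∂ν, ∀ u ∈ U, (κ x).map (u * ·) = κ x) (u : G)
    (hu : u ∈ U) : ν.map (u • ·) = ν := by
  have hm : Measurable fun x : X => u • x := (continuous_const_smul u).measurable
  refine Measure.ext_of_lintegral _ fun f hf => ?_
  rw [lintegral_map hf hm, ← h.dis (fun a => f (u • a)) (hf.comp hm), ← h.dis f hf]
  refine lintegral_congr_ae ?_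
  filter_upwards [H] with x hx
  have hc : Measurable fun c : G => f (c • x) :=
    hf.comp (show Continuous fun c : G => c • x by fun_prop).measurable
  conv_rhs => rw [← hx u hu, lintegral_map hc (measurable_const_mul u)]
  simp only [mul_smul]

theorem squeeze [IsFiniteMeasure ν] {T : G} (hT : ν.map (T • ·) = ν) {A B : Set X}
    (hA : MeasurableSet A) (hB : MeasurableSet B) (h1 : ∀ᵐ x ∂ν, x ∈ A → x ∈ B)
    (h2 : ∀ᵐ x ∂ν, T • x ∈ B ↔ x ∈ A) : ∀ᵐ x ∂ν, x ∈ A ↔ x ∈ B := by
  have hm : Measurable fun x : X => T • x := (continuous_const_smul T).measurable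
  have e : ν B = ν A := by
    conv_lhs => rw [← hT, Measure.map_apply hm hB]
    exact measure_congr (eventuallyEq_set.2 h2)
  exact eventuallyEq_set.1
    (ae_eq_of_ae_subset_of_measure_ge h1 e.le hA.nullMeasurableSet (measure_ne_top _ _))

theorem part5 (hC : CondStmt) (hW : TowerStmt) [IsFiniteMeasure ν] (hU : IsCompact (U : Set G))
    (h : IsCond U ν κ) (T : G) (hT : ν.map (T • ·) = ν) (hTU : ∀ u ∈ U, T * u * T⁻¹ ∈ U) :
    (∀ᵐ x ∂ν, κ (T • x) = Measure.dirac 1 ↔ κ x = Measure.dirac 1) ∧
      ∀ᵐ x ∂ν, (∀ u ∈ U, (κ x).map ((T * u * T⁻¹) * ·) = κ x) →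
        ∀ u ∈ U, (κ x).map (u * ·) = κ x := by
  have := h.markov
  set B : Subgroup G := U.map (MulAut.conj T).toMonoidHom with hB
  have mB : ∀ g, g ∈ B ↔ ∃ u ∈ U, T * u * T⁻¹ = g := fun g => Subgroup.mem_map
  have mB' : ∀ g, g ∈ B ↔ T⁻¹ * g * T ∈ U := fun g => by
    rw [mB]
    constructor
    · rintro ⟨u, hu, rfl⟩
      simpa [mul_assoc] using hu
    · exact fun hg => ⟨_, hg, by simp [mul_assoc]⟩
  have cB : IsCompact (B : Set G) := by
    have : (B : Set G) = (fun g => T * g * T⁻¹) '' (U : Set G) := by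
      ext g
      exact mB g
    rw [this]
    exact hU.image (by fun_prop)
  have le : B ≤ U := fun g hg => by
    obtain ⟨u, hu, rfl⟩ := (mB g).1 hg
    exact hTU u hu
  obtain ⟨lam, hl⟩ := (hC G X ν B cB).1
  have := hl.markov
  obtain ⟨w1, w2⟩ := hW G X ν U B κ lam hU cB h hl
  replace w1 := w1 le
  replace w2 := w2 T hT mB'
  have hm : Measurable fun x : X => T • x := (continuous_const_smul T).measurable
  constructor
  · have a2 : ∀ᵐ x ∂ν, T • x ∈ {x | lam x = Measure.dirac 1} ↔
        x ∈ {x | κ x = Measure.dirac 1} := by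
      filter_upwards [w2] with x hx
      show lam (T • x) = _ ↔ κ x = _
      rw [hx]
      constructor
      · intro e
        refine conj_inj T ?_
        rw [e, Measure.map_dirac]
        simp
      · intro e
        rw [e, Measure.map_dirac]
        simp
    have a1 : ∀ᵐ x ∂ν, x ∈ {x | κ x = Measure.dirac 1} → x ∈ {x | lam x = Measure.dirac 1} := by
      filter_upwards [w1] with x hx (e : κ x = _)
      show lam x = _
      refine Measure.ext_of_lintegral _ fun f hf => ?_
      have k := hx.1 f hf
      rw [e, lintegral_dirac] at k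
      simpa using k
    have a3 := squeeze hT (meas_one κ) (meas_one lam) a1 a2
    have a4 := a3
    rw [← hT] at a4
    filter_upwards [ae_of_ae_map hm.aemeasurable a4, a2] with x h1 h2 using h1.trans h2
  · obtain ⟨D, d1, d2, d3⟩ := dense_inv (B : Set G)
    have a2 : ∀ᵐ x ∂ν, T • x ∈ {x | ∀ u ∈ (B : Set G), (lam x).map (u * ·) = lam x} ↔
        x ∈ {x | ∀ u ∈ (U : Set G), (κ x).map (u * ·) = κ x} := by
      filter_upwards [w2] with x hx
      show (∀ u ∈ B, (lam (T • x)).map (u * ·) = lam (T • x)) ↔ ∀ u ∈ U, _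
      rw [hx]
      constructor
      · intro e u hu
        refine conj_inj T ?_
        rw [← conj_comm]
        exact e _ ((mB _).2 ⟨u, hu, rfl⟩)
      · intro e b hb
        obtain ⟨u, hu, rfl⟩ := (mB b).1 hb
        rw [conj_comm, e u hu]
    have a0 := null_of h ((meas_inv κ (B : Set G)).diff (meas_inv lam (B : Set G))) (by
      filter_upwards [w1] with x hx
      by_cases hI : ∀ u ∈ (B : Set G), (κ x).map (u * ·) = κ x
      · have k := (ae_ball_iff d2).2 fun b hb => hx.2 b (d1 hb) (hI b (d1 hb))
        filter_upwards [k] with c hc hh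
        exact hh.2 (d3 _ hc)
      · filter_upwards [ae_mem h x] with c hc hh
        refine hI fun u hu => ?_
        rw [back h hc x, map_comm, hh.1 u hu])
    have a1 : ∀ᵐ x ∂ν, x ∈ {x | ∀ u ∈ (U : Set G), (κ x).map (u * ·) = κ x} →
        x ∈ {x | ∀ u ∈ (B : Set G), (lam x).map (u * ·) = lam x} := by
      filter_upwards [a0] with x hx hh
      by_contra hn
      exact hx ⟨fun u hu => hh u (le hu), hn⟩
    have a3 := squeeze hT (meas_inv κ _) (meas_inv lam _) a1 a2
    filter_upwards [a0, a3] with x hx h3 hh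
    refine h3.2 ?_
    by_contra hn
    refine hx ⟨fun b hb => ?_, hn⟩
    obtain ⟨u, hu, rfl⟩ := (mB b).1 hb
    exact hh u hu

end grp

end Lev

theorem lev : CondStmt → TowerStmt → LevStmt := by
  intro hC hW G X _ _ _ _ _ _ _ _ _ _ _ _ ν _ U κ hU h
  have := h.markov
  refine ⟨Lev.meas_one κ, Lev.meas_inv κ (U : Set G), Lev.part3 h, Lev.part4 h,
    fun T hT hTU => ⟨(Lev.part5 hC hW hU h T hT hTU).1, ae_all_iff.2 fun j => ?_⟩⟩
  refine (Lev.part5 hC hW hU h (T ^ j) ?_ ?_).2
  · induction j with
    | zero => simp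
    | succ j ih =>
      have e : (fun x : X => T ^ (j + 1) • x) = (fun x : X => T ^ j • x) ∘ fun x : X => T • x := by
        funext x
        simp [pow_succ, mul_smul]
      rw [e, ← Measure.map_map (continuous_const_smul _).measurable
        (continuous_const_smul _).measurable, hT, ih]
  · induction j with
    | zero => simp
    | succ j ih =>
      intro u hu
      have e : T ^ (j + 1) * u * (T ^ (j + 1))⁻¹ = T ^ j * (T * u * T⁻¹) * (T ^ j)⁻¹ := by
        simp [pow_succ, mul_assoc]
      rw [e]
      exact ih _ (hTU u hu)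

end Pool.Agent.Lib.MP_9177b7_ag.B
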