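import Pool.Agent.Lib.MP_9177b7_ag.B.Lift1

/-!
Lifts of frames to the `p`-arithmetic group.
-/

open NumberField Matrix Topology
open scoped nonZeroDivisors ComplexConjugate

noncomputable section

namespace Pool.Agent.Lib.MP_9177b7_ag.B

namespace Lift

variable {n p : ℕ} [Fact p.Prime] {c : Ctx p} {D : Dat n c} {a : D.FI} {e : Fin (n + 3) → D.L}

theorem Φ_bar (i : Fin (n + 3)) (x : D.L) : D.Φ i (D.bar x) = conj (D.Φ i x) :=
  IsCMField.complexEmbedding_complexConj D.L (D.Φ i).toRingHom x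

/-- Values of the form on the lattice are integral at every place above `p`. -/
theorem ad_le (hP : PadStmt) (hF : FrameStmt) (h : D.Fr a e) {x y : D.L} (hx : x ∈ a) (hy : y ∈ a)
    (i : Fin (n + 3)) : ‖D.ψ i (D.lam * x * D.bar y)‖ ≤ 1 := by
  obtain ⟨-, -, f3, -, -, -, -, -, -, -, f11, -, -, -, -, -, -, -, f⟩ := hF n p c D
  have m : D.lam * x * D.bar y ∈ D.Ad := by
    rw [← (f a e h).2.2.2.2.1]
    exact FractionalIdeal.mul_mem_mul (FractionalIdeal.mul_mem_mul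
      (FractionalIdeal.mem_spanSingleton_self _ _) hx)
      ((f11 a _).2 (by simpa only [Dat.bar, IsCMField.complexConj_apply_apply] using hy))
  refine ((hP D.L p).2 _ D.ψ D.ψ_inj).2.1 _ (fun z => ?_) i
  obtain ⟨w, hw⟩ := (FractionalIdeal.mem_dual (A := 𝓞 c.K) (K := c.K) (I := (1 : D.FI))
    one_ne_zero).1 m z ((FractionalIdeal.mem_one_iff _).2 ⟨z, rfl⟩)
  rw [← f3, ← Algebra.traceForm_apply, ← hw]
  exact ((hP c.K p).1 c.j).1 w

/-- The factors of a lift. -/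
theorem norm_t {g : HP n p} {t : Fin (n + 3) → ℚ_[p]} (hg : Intg g)
    (ht : g.1 = diagonal t * D.Ψm e) (i : Fin (n + 3)) :
    t i ≠ 0 ∧ (∀ k, ‖t i * D.ψ i (e k)‖ ≤ 1) ∧ ∃ k, ‖t i * D.ψ i (e k)‖ = 1 := by
  have e1 : ∀ k, g i k = t i * D.ψ i (e k) := fun k => by
    rw [ht, diagonal_mul]
    rfl
  obtain ⟨k, hk⟩ := row_one hg i
  rw [e1] at hk
  refine ⟨fun h0 => ?_, fun l => e1 l ▸ hg i l, k, hk⟩
  rw [h0, zero_mul, norm_zero] at hk
  exact zero_ne_one hk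

theorem exists_p (hP : PadStmt) (hF : FrameStmt) (h : D.Fr a e) :
    ∃ (g : HP n p) (t : Fin (n + 3) → ℚ_[p]), Intg g ∧ g.1 = diagonal t * D.Ψm e := by
  obtain ⟨-, he, -, -, -, hΨ, -⟩ := (hF n p c D).2.2.2.2.2.2.2.2.2.2.2.2.2.2.2.2.2.2 a e h
  have hk : ∀ i, ∃ k, ∀ l, ‖D.ψ i (e l)‖ ≤ ‖D.ψ i (e k)‖ := fun i =>
    Finite.exists_max fun l => ‖D.ψ i (e l)‖
  choose k hk using hk
  have h0 : ∀ i, D.ψ i (e (k i)) ≠ 0 := fun i h0 => by
    have u : (D.Ψm e * (D.Ψm (D.du e))ᵀ) i i = (1 : Matrix _ _ ℚ_[p]) i i := by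
      rw [mul_eq_one_comm.1 hΨ]
    rw [mul_apply, one_apply_eq, Finset.sum_eq_zero fun l _ => ?_] at u
    · exact zero_ne_one u
    · have := hk i l
      rw [h0, norm_zero, norm_le_zero_iff] at this
      exact mul_eq_zero_of_left this _
  set X := diagonal (fun i => (D.ψ i (e (k i)))⁻¹) * D.Ψm e with hX
  have x1 : ∀ i l, ‖X i l‖ ≤ 1 := fun i l => by
    rw [hX, diagonal_mul, norm_mul, norm_inv, inv_mul_le_iff₀ (norm_pos_iff.2 (h0 i)), mul_one]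
    exact hk i l
  have y1 : ∀ l i, ‖((D.Ψm (D.du e))ᵀ * diagonal fun i => D.ψ i (e (k i))) l i‖ ≤ 1 :=
    fun l i => by
      rw [mul_diagonal]
      change ‖D.ψ i (D.lam * D.bar _) * _‖ ≤ 1
      rw [← map_mul, mul_right_comm]
      exact ad_le hP hF h (he _) (he _) i
  have yx : ((D.Ψm (D.du e))ᵀ * diagonal fun i => D.ψ i (e (k i))) * X = 1 := by
    rw [hX, mul_assoc, ← mul_assoc (diagonal _), diagonal_mul_diagonal]
    simp only [mul_inv_cancel₀ (h0 _), diagonal_one, one_mul, hΨ]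
  have d1 : ‖X.det‖ = 1 := by
    have u := congrArg (fun A => ‖det A‖) yx
    simp only [det_mul _ X, norm_mul, det_one, norm_one] at u
    exact (det_le x1).antisymm (u ▸ mul_le_of_le_one_left (norm_nonneg _) (det_le y1))
  have d0 : X.det ≠ 0 := norm_pos_iff.1 (by rw [d1]; exact one_pos)
  refine ⟨⟨diagonal (Pi.mulSingle 0 X.det⁻¹) * X, ?_⟩,
    fun i => Pi.mulSingle (M := fun _ => ℚ_[p]) 0 X.det⁻¹ i * (D.ψ i (e (k i)))⁻¹,
    fun i l => ?_, ?_⟩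
  · rw [det_mul, det_diagonal, Finset.prod_pi_mulSingle', if_pos (Finset.mem_univ _),
      inv_mul_cancel₀ d0]
  · refine (congrArg norm (diagonal_mul _ X i l)).trans_le ?_
    rw [norm_mul]
    refine mul_le_one₀ ?_ (norm_nonneg _) (x1 i l)
    rw [Pi.mulSingle_apply]
    split_ifs
    · rw [norm_inv, d1, inv_one]
    · rw [norm_one]
  · rw [← diagonal_mul_diagonal, mul_assoc]

theorem uni (hF : FrameStmt) (h : D.Fr a e) {t : Fin (n + 3) → ℂ}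
    (ht : ∀ i, ‖t i‖ ^ 2 = ‖D.Φ i D.lam‖) :
    (Pm n * diagonal t * D.Φm e)ᴴ * Jm n ℂ * (Pm n * diagonal t * D.Φm e) = Jm n ℂ := by
  obtain ⟨-, -, -, f4, -, -, -, -, -, -, -, -, -, -, -, -, f17, -⟩ := hF n p c D
  have e1 : ∀ i, ((‖t i‖ ^ 2 : ℝ) : ℂ) * sg n i = D.Φ i D.lam := fun i => by
    have u : D.Φ i D.lam = (D.Φ i D.lam).re := Complex.ext rfl (f17 i).1
    rw [ht, u, Complex.norm_real, Real.norm_eq_abs, sg]
    split_ifs with hi
    · rw [abs_of_neg (by rw [hi, D.Φ_one]; exact D.sp.neg)]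
      push_cast
      ring
    · rw [abs_of_pos ((f17 i).2 hi), mul_one]
  rw [form]
  ext k l
  have u := f4 (D.lam * e l * D.bar (e k))
  rw [h.1] at u
  have u2 : ((Jm n c.K l k : c.K) : ℂ) = Jm n ℂ k l := by
    simp only [Jm, of_apply, eq_comm (a := l), Equiv.swap_apply_eq_iff]
    split_ifs <;> simp
  rw [← u2, u, mul_apply]
  refine Finset.sum_congr rfl fun i _ => ?_
  rw [mul_diagonal, e1, map_mul, map_mul, Φ_bar]
  change conj (D.Φ i (e k)) * _ * D.Φ i (e l) = _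
  ring

theorem exists_r (hF : FrameStmt) (h : D.Fr a e) : ∃ (g : SU n) (t : Fin (n + 3) → ℂ),
    g.1.1 = Pm n * diagonal t * D.Φm e ∧ ∀ i, ‖t i‖ ^ 2 = ‖D.Φ i D.lam‖ := by
  have h0 : ∀ i, ‖((√‖D.Φ i D.lam‖ : ℝ) : ℂ)‖ ^ 2 = ‖D.Φ i D.lam‖ := fun i => by
    rw [Complex.norm_real, Real.norm_eq_abs, sq_abs, Real.sq_sqrt (norm_nonneg _)]
  set u := (Pm n * diagonal (fun i => ((√‖D.Φ i D.lam‖ : ℝ) : ℂ)) * D.Φm e).det with hu
  have d1 : ‖u‖ = 1 := by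
    have j0 : (Jm n ℂ).det ≠ 0 := left_ne_zero_of_mul_eq_one (b := (Jm n ℂ).det)
      (by rw [← det_mul, Jm_sq, det_one])
    have v := congrArg det (uni hF h h0)
    rw [det_mul, det_mul, det_conjTranspose, ← hu, mul_right_comm, mul_eq_right₀ j0,
      RCLike.star_def, Complex.conj_mul', ← Complex.ofReal_pow, Complex.ofReal_eq_one] at v
    exact (pow_eq_one_iff_of_nonneg (norm_nonneg _) two_ne_zero).1 v
  have h1 : ∀ i, ‖Pi.mulSingle (M := fun _ => ℂ) 0 u⁻¹ i * ((√‖D.Φ i D.lam‖ : ℝ) : ℂ)‖ ^ 2 =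
      ‖D.Φ i D.lam‖ := fun i => by
    rw [norm_mul, mul_pow, h0, Pi.mulSingle_apply]
    split_ifs
    · rw [norm_inv, d1, inv_one, one_pow, one_mul]
    · rw [norm_one, one_pow, one_mul]
  refine ⟨⟨⟨_, ?_⟩, uni hF h h1⟩, _, rfl, h1⟩
  rw [← diagonal_mul_diagonal, det_mul, det_mul, det_mul, det_diagonal, Finset.prod_pi_mulSingle',
    if_pos (Finset.mem_univ _), mul_left_comm, mul_assoc, ← det_mul, ← det_mul, ← hu]
  exact inv_mul_cancel₀ (norm_pos_iff.1 (by rw [d1]; exact one_pos))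

theorem mul_lift {g m : GG n p} (hg : D.IsLift e g) (hm : m ∈ M0 n p) : D.IsLift e (m * g) := by
  obtain ⟨s, d, h1, hs, h2, hd⟩ := M0_rep hm
  obtain ⟨hi, t, t', g1, g2, ht⟩ := hg
  refine ⟨fun i j => ?_, fun i => s i * t i, fun i => d i * t' i, ?_, ?_, fun i => ?_⟩
  · change ‖(m.1.1 * g.1.1) i j‖ ≤ 1
    rw [h1, diagonal_mul, norm_mul, hs, one_mul]
    exact hi i j
  · change m.1.1 * g.1.1 = _
    rw [h1, g1, ← mul_assoc, diagonal_mul_diagonal]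
  · change m.2.1.1 * g.2.1.1 = _
    rw [h2, g2, ← diagonal_mul_diagonal]
    simp only [mul_assoc]
    rw [← mul_assoc (Pm n) (Pm n), Pm_sq, one_mul]
  · rw [norm_mul, hd, one_mul, ht]

theorem base (hF : FrameStmt) (h : D.Fr a e) {g : GG n p} (hg : D.IsLift e g) :
    ∃ z : ℂ, (fun i => conj (D.φ (e (Equiv.swap 0 1 i)))) = z • g.2⁻¹.1.1 *ᵥ v0 n := by
  obtain ⟨-, -, t, -, g2, -⟩ := hg
  obtain ⟨-, -, -, -, -, -, hΦ, -⟩ := (hF n p c D).2.2.2.2.2.2.2.2.2.2.2.2.2.2.2.2.2.2 a e h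
  have l0 : D.φ D.lam ≠ 0 := fun h0 => by simpa [h0] using D.sp.neg
  have e1 : D.Φm e *ᵥ (fun i => conj (D.φ (e (Equiv.swap 0 1 i)))) =
      (D.φ D.lam)⁻¹ • Pi.single 1 1 := by
    rw [eq_inv_smul_iff₀ l0, ← mulVec_smul, ← one_mulVec (Pi.single 1 1), ← mul_eq_one_comm.1 hΦ,
      ← mulVec_mulVec]
    congr 1
    funext i
    rw [mulVec_single_one, ← D.Φ_one]
    change _ = D.Φ 1 (D.lam * D.bar _)
    rw [map_mul, Φ_bar]
    rfl
  have e2 : diagonal t *ᵥ (Pi.single 1 1 : Fin (n + 3) → ℂ) = t 1 • Pi.single 1 1 := by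
    rw [diagonal_mulVec_single, ← Pi.single_smul, smul_eq_mul]
  have e3 : g.2⁻¹.1.1 * g.2.1.1 = 1 := congrArg (fun x : SU n => x.1.1) (inv_mul_cancel g.2)
  refine ⟨(D.φ D.lam)⁻¹ * (t 1 * ((√2 : ℝ) : ℂ)⁻¹), ?_⟩
  rw [← mulVec_smul, ← smul_smul, ← smul_smul, ← Pm_one, ← mulVec_smul, ← e2, ← mulVec_smul,
    ← mulVec_smul, ← e1, mulVec_mulVec, mulVec_mulVec, mulVec_mulVec, mul_assoc, mul_assoc,
    ← mul_assoc (Pm n), ← g2, e3, one_mulVec]

theorem short (hD : DiscStmt) (hF : FrameStmt) (h : D.Fr a e) {g : GG n p} (hg : D.IsLift e g)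
    {I : Finset (Fin (n + 3))} {c₀ : ℚ_[p]} {k : ℕ} {R : ℝ} (hw : g ∈ c.Wg I c₀ k R) :
    D.Ev a I c₀ k R := by
  obtain ⟨v, v0, vR, v1, v2, v3, v4⟩ := hw
  obtain ⟨hi, t, t', g1, g2, ht⟩ := hg
  obtain ⟨-, -, -, -, -, hΨ, -⟩ := (hF n p c D).2.2.2.2.2.2.2.2.2.2.2.2.2.2.2.2.2.2 a e h
  have t0 := fun i => (norm_t hi g1 i).1
  have i1 : g.1⁻¹.1 * g.1.1 = 1 := congrArg Subtype.val (inv_mul_cancel g.1)
  have i2 : g.1⁻¹.1 = (D.Ψm (D.du e))ᵀ * diagonal fun i => (t i)⁻¹ := by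
    refine left_inv_eq_right_inv i1 (mul_eq_one_comm.1 ?_)
    rw [g1, mul_assoc, ← mul_assoc (diagonal _), diagonal_mul_diagonal]
    simp only [inv_mul_cancel₀ (t0 _), diagonal_one, one_mul, hΨ]
  set ξ := ∑ l, algebraMap c.K D.L (v l) * e l with hξ
  have x1 : ∀ i, c.xp g v i = t i * D.ψ i ξ := fun i => by
    rw [Ctx.xp, g1, ← mulVec_mulVec, mulVec_diagonal, hξ, map_sum, mulVec, dotProduct]
    congr 1
    refine Finset.sum_congr rfl fun l _ => ?_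
    rw [map_mul, D.ψ_j, mul_comm]
    rfl
  have x2 : ∀ i, c.xq g v i = (t i)⁻¹ * D.ψ i (D.lam * D.bar ξ) := fun i => by
    rw [Ctx.xq, i2, transpose_mul, transpose_transpose, diagonal_transpose, ← mulVec_mulVec,
      mulVec_diagonal, Jm_mulVec, hξ, Dat.bar, map_sum, Finset.mul_sum, map_sum,
      ← Equiv.sum_comp (Equiv.swap 0 1), mulVec, dotProduct]
    congr 1
    refine Finset.sum_congr rfl fun l _ => ?_
    rw [map_mul (IsCMField.complexConj D.L), mul_left_comm, map_mul]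
    exact (mul_comm _ _).trans (congrArg (· * _) ((D.ψ_j i _).symm.trans
      (congrArg (D.ψ i) ((hF n p c D).1 _).symm)))
  have y1 : g.1⁻¹.1 *ᵥ c.xp g v = fun i => c.j (v i) := by
    rw [Ctx.xp, mulVec_mulVec, i1, one_mulVec]
  have y2 : g.1.1ᵀ *ᵥ c.xq g v = fun i => c.j (c.cj (v (Equiv.swap 0 1 i))) := by
    rw [Ctx.xq, mulVec_mulVec, ← transpose_mul, i1, transpose_one, one_mulVec, Jm_mulVec]
  have hv : ∀ l, IsIntegral ℤ (v l) := fun l => by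
    refine (hD n p c).1 _ (vR l) ?_ ?_
    · rw [← congrFun y1 l]
      exact mulVec_le (intg_inv hi) v1 l
    · have := mulVec_le (A := g.1.1ᵀ) (fun i j => hi j i) v2 (Equiv.swap 0 1 l)
      rw [y2] at this
      simpa only [Equiv.swap_apply_self] using this
  refine ⟨ξ, (h.2 ξ).2 ⟨fun l => ⟨v l, hv l⟩, rfl⟩, fun h0 => v0 (funext fun l => ?_),
    fun i => lt_of_le_of_lt ?_ v3, ?_⟩
  · have u : c.xp g v = 0 := funext fun i => by rw [x1, h0, map_zero, mul_zero]; rfl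
    rw [u, mulVec_zero] at y1
    exact (map_eq_zero c.j).1 (congrFun y1 l).symm
  · have u : ∀ i, ‖(diagonal t' *ᵥ D.Φm e *ᵥ fun l => (v l : ℂ)) i‖ ^ 2 =
        ‖D.Φ i (D.lam * ξ * D.bar ξ)‖ := fun i => by
      have : (D.Φm e *ᵥ fun l => (v l : ℂ)) i = D.Φ i ξ := by
        rw [hξ, map_sum, mulVec, dotProduct]
        refine Finset.sum_congr rfl fun l _ => ?_
        rw [map_mul, AlgHom.commutes, mul_comm]
        rfl
      rw [mulVec_diagonal, this, norm_mul, mul_pow, ht, map_mul, map_mul, Φ_bar, norm_mul,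
        norm_mul, RCLike.norm_conj, sq, mul_assoc]
    rw [Ctx.xr, g2, ← mulVec_mulVec, ← mulVec_mulVec, Pm_norm, ← u]
    exact Finset.single_le_sum (f := fun i => ‖(diagonal t' *ᵥ D.Φm e *ᵥ fun l => (v l : ℂ)) i‖ ^ 2)
      (fun _ _ => sq_nonneg _) (Finset.mem_univ i)
  · refine le_of_eq_of_le ?_ v4
    congr 2
    refine Finset.sum_congr rfl fun i _ => ?_
    rw [x1, x2, mul_mul_mul_comm, mul_inv_cancel₀ (t0 i), one_mul, ← map_mul]
    congr 1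
    ring

end Lift

theorem lift : PadStmt → DiscStmt → FrameStmt → LiftStmt := by
  intro hP hD hF n p _
  refine ⟨Lift.torus, fun c D a e h => ⟨?_, fun g hg => ⟨fun m hm => Lift.mul_lift hg hm,
    Lift.base hF h hg, fun I c₀ k R hw => Lift.short hD hF h hg hw⟩⟩⟩
  obtain ⟨g, t, h1, h2⟩ := Lift.exists_p hP hF h
  obtain ⟨g', t', h3, h4⟩ := Lift.exists_r hF h
  exact ⟨(g, g'), h1, t, t', h2, h3, h4⟩

end Pool.Agent.Lib.MP_9177b7_ag.B
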