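import Pool.Agent.Lib.MP_9177b7_ag.B.StS
import Pool.Agent.Lib.MP_9177b7_ag.J.Shiu1

/-! Densities of periodic functions on `ℤ ^ d`, and the bound for one pattern. -/

noncomputable section

namespace Pool.Agent.Lib.MP_9177b7_ag.B.ShiuN

open Finset

variable {d : ℕ}

/-- periodic functions -/
def Per {β : Type} (M : ℕ) (h : (Fin d → ℤ) → β) : Prop := ∀ u v, CgN M u v → h u = h v

lemma mem_box {a : Fin d → ℤ} {A : Fin d → ℕ} {u : Fin d → ℤ} :
    u ∈ boxN a A ↔ ∀ i, a i ≤ u i ∧ u i < a i + A i := by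
  simp [boxN]

lemma mem_box0 {N : ℕ} {u : Fin d → ℤ} :
    u ∈ boxN (0 : Fin d → ℤ) (fun _ => N) ↔ ∀ i, 0 ≤ u i ∧ u i < N := by
  simp [mem_box]

lemma card_box (a : Fin d → ℤ) (A : Fin d → ℕ) : (boxN a A).card = ∏ i, A i := by
  simp [boxN]

lemma CgN.of_dvd {M N : ℕ} (h : M ∣ N) {u v : Fin d → ℤ} (huv : CgN N u v) : CgN M u v :=
  fun i => (Int.natCast_dvd_natCast.2 h).trans (huv i)

lemma CgN.symm {M : ℕ} {u v : Fin d → ℤ} (h : CgN M u v) : CgN M v u :=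
  fun i => dvd_sub_comm.1 (h i)

lemma Per.of_dvd {β : Type} {M N : ℕ} {h : (Fin d → ℤ) → β} (hp : Per M h) (hd : M ∣ N) :
    Per N h :=
  fun u v huv => hp u v (CgN.of_dvd hd huv)

/-- the point `u₀ + M u` -/
def af (M : ℕ) (u₀ u : Fin d → ℤ) : Fin d → ℤ := fun i => u₀ i + M * u i

lemma cg_af (M : ℕ) (u₀ u : Fin d → ℤ) : CgN M (af M u₀ u) u₀ := fun i => by simp [af]

lemma cg_af' {N : ℕ} (M : ℕ) (u₀ : Fin d → ℤ) {u v : Fin d → ℤ} (h : CgN N u v) :
    CgN N (af M u₀ u) (af M u₀ v) := fun i => by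
  have : af M u₀ u i - af M u₀ v i = M * (u i - v i) := by simp only [af]; ring
  rw [this]; exact (h i).mul_left _

lemma den_nonneg (M : ℕ) {h : (Fin d → ℤ) → ℝ} (h0 : ∀ u, 0 ≤ h u) : 0 ≤ denN M h :=
  div_nonneg (sum_nonneg fun u _ => h0 u) (by positivity)

lemma den_const {M : ℕ} (hM : 0 < M) (c : ℝ) : denN M (fun _ : Fin d → ℤ => c) = c := by
  have : (0 : ℝ) < (M : ℝ) ^ d := by positivity
  simp only [denN, sum_const, card_box, prod_const, card_univ, Fintype.card_fin, nsmul_eq_mul,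
    Nat.cast_pow]
  field_simp

lemma den_one : denN 1 (fun _ : Fin d → ℤ => (1 : ℝ)) = 1 := den_const one_pos 1

lemma eq_of_cg {N : ℕ} {u v : Fin d → ℤ} (hu : u ∈ boxN 0 fun _ => N) (hv : v ∈ boxN 0 fun _ => N)
    (h : CgN N u v) : u = v := by
  rw [mem_box0] at hu hv
  funext i
  have := Int.eq_zero_of_abs_lt_dvd (h i)
    (by rw [abs_lt]; constructor <;> linarith [(hu i).1, (hu i).2, (hv i).1, (hv i).2])
  linarith

lemma mod_mem {M : ℕ} (hM : 0 < M) (u : Fin d → ℤ) :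
    (fun i => u i % M) ∈ boxN (0 : Fin d → ℤ) fun _ => M := by
  have hM' : (0 : ℤ) < M := by exact_mod_cast hM
  rw [mem_box0]
  exact fun i => ⟨Int.emod_nonneg _ hM'.ne', Int.emod_lt_of_pos _ hM'⟩

lemma sum_af {M N : ℕ} (hN : 0 < N) (hMN : M.Coprime N) {h : (Fin d → ℤ) → ℝ} (hp : Per N h)
    (u₀ : Fin d → ℤ) :
    ∑ u ∈ boxN 0 fun _ => N, h (af M u₀ u) = ∑ u ∈ boxN 0 fun _ => N, h u := by
  let r : (Fin d → ℤ) → Fin d → ℤ := fun u i => af M u₀ u i % N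
  have hr : ∀ u, CgN N (af M u₀ u) (r u) := fun u i => Int.dvd_self_sub_emod
  have hmem : ∀ u, r u ∈ boxN (0 : Fin d → ℤ) fun _ => N := fun u => mod_mem hN _
  have hc : IsCoprime (N : ℤ) (M : ℤ) := Nat.isCoprime_iff_coprime.2 hMN.symm
  have hinj : ∀ u ∈ boxN (0 : Fin d → ℤ) fun _ => N, ∀ v ∈ boxN (0 : Fin d → ℤ) fun _ => N,
      r u = r v → u = v := by
    intro u hu v hv huv
    have h1 := hr u
    have h2 := hr v
    rw [huv] at h1
    refine eq_of_cg hu hv fun i => hc.dvd_of_dvd_mul_left ?_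
    have := dvd_sub (h1 i) (h2 i)
    convert this using 1
    simp only [af]; ring
  refine sum_bij (fun u _ => r u) (fun u _ => hmem u) (fun u hu v hv => hinj u hu v hv) ?_
    (fun u _ => hp _ _ (hr u))
  intro b hb
  obtain ⟨u, hu, rfl⟩ := surj_on_of_inj_on_of_card_le (fun u _ => r u) (fun u _ => hmem u)
    (fun u v hu hv => hinj u hu v hv) le_rfl b hb
  exact ⟨u, hu, rfl⟩

lemma den_af {M N : ℕ} (hN : 0 < N) (hMN : M.Coprime N) {h : (Fin d → ℤ) → ℝ} (hp : Per N h)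
    (u₀ : Fin d → ℤ) : denN N (fun u => h (af M u₀ u)) = denN N h := by
  simp only [denN, sum_af hN hMN hp]

lemma af_divmod {M : ℕ} (u : Fin d → ℤ) : af M (fun i => u i % M) (fun i => u i / M) = u := by
  funext i
  simp [af, Int.emod_add_mul_ediv]

lemma sum_split {M : ℕ} (hM : 0 < M) (S T : Finset (Fin d → ℤ))
    (hST : ∀ u ∈ S, (fun i => u i / M) ∈ T) {F : (Fin d → ℤ) → ℝ} (hF : ∀ u, 0 ≤ F u) :
    ∑ u ∈ S, F u ≤ ∑ u₀ ∈ boxN 0 fun _ => M, ∑ u ∈ T, F (af M u₀ u) := by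
  rw [← sum_product']
  let r : (Fin d → ℤ) → (Fin d → ℤ) × (Fin d → ℤ) := fun u => (fun i => u i % M, fun i => u i / M)
  have hinj : Set.InjOn r S := fun u _ v _ h => by
    rw [← af_divmod (M := M) u, ← af_divmod (M := M) v]
    have h1 := congrArg Prod.fst h
    have h2 := congrArg Prod.snd h
    simp only [r] at h1 h2
    rw [h1, h2]
  calc ∑ u ∈ S, F u = ∑ x ∈ S.image r, F (af M x.1 x.2) := by
        rw [sum_image hinj]
        exact sum_congr rfl fun u _ => by simp only [r, af_divmod]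
    _ ≤ _ := by
        refine sum_le_sum_of_subset_of_nonneg ?_ fun _ _ _ => hF _
        intro x hx
        obtain ⟨u, hu, rfl⟩ := mem_image.1 hx
        exact mem_product.2 ⟨mod_mem hM u, hST u hu⟩

lemma sum_split_eq {M N : ℕ} (hM : 0 < M) (F : (Fin d → ℤ) → ℝ) :
    ∑ u ∈ boxN 0 fun _ => M * N, F u =
      ∑ u₀ ∈ boxN 0 fun _ => M, ∑ u ∈ boxN 0 fun _ => N, F (af M u₀ u) := by
  have hM' : (0 : ℤ) < M := by exact_mod_cast hM
  rw [← sum_product']
  refine sum_nbij' (fun u => (fun i => u i % M, fun i => u i / M)) (fun x => af M x.1 x.2)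
    ?_ ?_ (fun u _ => af_divmod u) ?_ (fun u _ => by rw [af_divmod])
  · intro u hu
    refine mem_product.2 ⟨mod_mem hM u, ?_⟩
    rw [mem_box0] at hu ⊢
    simp only [Nat.cast_mul] at hu
    exact fun i => ⟨Int.ediv_nonneg (hu i).1 hM'.le,
      Int.ediv_lt_of_lt_mul hM' (by linarith [(hu i).2])⟩
  · intro x hx
    obtain ⟨h1, h2⟩ := mem_product.1 hx
    rw [mem_box0] at h1 h2 ⊢
    intro i
    simp only [Nat.cast_mul, af]
    refine ⟨by nlinarith [(h1 i).1, (h2 i).1], ?_⟩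
    have : (M : ℤ) * (x.2 i + 1) ≤ M * N := by gcongr; linarith [(h2 i).2]
    linarith [(h1 i).2]
  · intro x hx
    obtain ⟨h1, -⟩ := mem_product.1 hx
    rw [mem_box0] at h1
    have k : ∀ s t : ℤ, 0 ≤ s → s < M → (s + M * t) % M = s ∧ (s + M * t) / M = t := by
      intro s t h0 h1
      refine ⟨by rw [Int.add_mul_emod_self_left, Int.emod_eq_of_lt h0 h1], ?_⟩
      rw [Int.add_mul_ediv_left _ _ hM'.ne', Int.ediv_eq_zero_of_lt h0 h1, zero_add]
    refine Prod.ext (funext fun i => ?_) (funext fun i => ?_)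
    · exact (k _ _ (h1 i).1 (h1 i).2).1
    · exact (k _ _ (h1 i).1 (h1 i).2).2

lemma den_mul {M N : ℕ} (hM : 0 < M) (hN : 0 < N) (hMN : M.Coprime N) {h h' : (Fin d → ℤ) → ℝ}
    (hp : Per M h) (hp' : Per N h') :
    denN (M * N) (fun u => h u * h' u) = denN M h * denN N h' := by
  simp only [denN]
  rw [sum_split_eq hM]
  have : ∀ u₀ ∈ boxN (0 : Fin d → ℤ) fun _ => M,
      ∑ u ∈ boxN 0 fun _ => N, h (af M u₀ u) * h' (af M u₀ u) =
      h u₀ * ∑ u ∈ boxN 0 fun _ => N, h' u := fun u₀ _ => by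
    rw [← sum_af hN hMN hp' u₀, mul_sum]
    exact sum_congr rfl fun u _ => by rw [hp _ _ (cg_af M u₀ u)]
  rw [sum_congr rfl this, ← sum_mul]
  push_cast
  rw [mul_pow, div_mul_div_comm]

lemma den_of_dvd {M M' : ℕ} {h : (Fin d → ℤ) → ℝ} (hp : Per M h) (hd : M ∣ M') (hM' : 0 < M') :
    denN M' h = denN M h := by
  obtain ⟨N, rfl⟩ := hd
  have hM : 0 < M := Nat.pos_of_mul_pos_right hM'
  have hN : 0 < N := Nat.pos_of_mul_pos_left hM'
  simp only [denN]
  rw [sum_split_eq hM]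
  have : ∀ u₀ ∈ boxN (0 : Fin d → ℤ) fun _ => M,
      ∑ u ∈ boxN 0 fun _ => N, h (af M u₀ u) = h u₀ * (N : ℝ) ^ d := fun u₀ _ => by
    simp only [hp _ _ (cg_af M u₀ _), sum_const, card_box, prod_const, card_univ, Fintype.card_fin,
      nsmul_eq_mul, Nat.cast_pow, mul_comm]
  rw [sum_congr rfl this, ← sum_mul]
  push_cast
  rw [mul_pow, mul_div_mul_right _ _ (by positivity)]

lemma den_prod {ι : Type} [DecidableEq ι] (s : Finset ι) (n : ι → ℕ) (hn : ∀ i, 0 < n i)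
    (hc : ∀ i j, i ≠ j → (n i).Coprime (n j)) (h : ι → (Fin d → ℤ) → ℝ)
    (hp : ∀ i, Per (n i) (h i)) :
    denN (∏ i ∈ s, n i) (fun u => ∏ i ∈ s, h i u) = ∏ i ∈ s, denN (n i) (h i) := by
  induction s using Finset.induction_on with
  | empty => simpa using den_one
  | insert a s ha ih =>
    simp only [prod_insert ha]
    rw [den_mul (hn a) (prod_pos fun i _ => hn i)
      (Nat.Coprime.prod_right fun i hi => hc _ _ fun e => ha (e ▸ hi)) (hp a), ih]
    intro u v huv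
    exact prod_congr rfl fun i hi => (hp i).of_dvd (dvd_prod_of_mem _ hi) u v huv

open Classical in
/-- the sieve bound which is assumed -/
def Sv (d : ℕ) (κ δ C : ℝ) : Prop :=
  ∀ (y : ℝ) (a : Fin d → ℤ) (A : Fin d → ℕ) (P : Finset ℕ) (Ω : ℕ → (Fin d → ℤ) → Prop),
    1 ≤ y → (∀ i, y ≤ A i) → (∀ q ∈ P, q.Prime ∧ (q : ℝ) ≤ y ^ δ) →
    (∀ q ∈ P, ∀ u v, CgN q u v → Ω q u → Ω q v) →
    (∀ q ∈ P, denN q (fun u => if Ω q u then 1 else 0) ≤ κ / q) →
    (((boxN a A).filter fun u => ∀ q ∈ P, ¬ Ω q u).card : ℝ) ≤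
      C * (∏ i, (A i : ℝ)) * Real.exp (-∑ q ∈ P, denN q fun u => if Ω q u then 1 else 0)

open Classical in
lemma per_ind {q : ℕ} {Ω : (Fin d → ℤ) → Prop} (h : ∀ u v, CgN q u v → Ω u → Ω v) :
    Per q fun u => if Ω u then (1 : ℝ) else 0 := fun u v huv => by
  have : Ω u ↔ Ω v := ⟨h u v huv, h v u (CgN.symm huv)⟩
  simp only [this]

open Classical in
/-- the bound for a periodic weight and a sieve condition -/
lemma pb {κ δ C : ℝ} (hC : 0 < C) (hs : Sv d κ δ C) {y : ℝ} (hy : 1 ≤ y) (a : Fin d → ℤ)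
    {A : Fin d → ℕ} (hA : ∀ i, y ≤ A i) {M : ℕ} (hM : 0 < M) (hMy : (M : ℝ) ≤ √y)
    {H : (Fin d → ℤ) → ℝ} (H0 : ∀ u, 0 ≤ H u) (Hp : Per M H) (W : Finset ℕ)
    (Ω : ℕ → (Fin d → ℤ) → Prop) (hW : ∀ q ∈ W, q.Prime ∧ (q : ℝ) ≤ √y ^ δ ∧ M.Coprime q)
    (hΩ : ∀ q ∈ W, ∀ u v, CgN q u v → Ω q u → Ω q v)
    (hd : ∀ q ∈ W, denN q (fun u => if Ω q u then 1 else 0) ≤ κ / q) :
    ∑ u ∈ boxN a A, H u * (if ∀ q ∈ W, ¬ Ω q u then 1 else 0) ≤
      3 ^ d * C * (∏ i, (A i : ℝ)) * denN M H *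
        Real.exp (-∑ q ∈ W, denN q fun u => if Ω q u then 1 else 0) := by
  have hM' : (0 : ℝ) < M := by exact_mod_cast hM
  have hs1 : 1 ≤ √y := Real.one_le_sqrt.2 hy
  have hss : √y * √y = y := Real.mul_self_sqrt (by linarith)
  have side : ∀ A : ℕ, y ≤ A → √y ≤ ((A / M + 2 : ℕ) : ℝ) ∧ ((A / M + 2 : ℕ) : ℝ) ≤ 3 * A / M := by
    intro A hA
    have h1 : ((A / M : ℕ) : ℝ) ≤ A / M := Nat.cast_div_le
    have h2 : (A : ℝ) / M < (A / M : ℕ) + 1 := by
      rw [div_lt_iff₀ hM']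
      exact_mod_cast Nat.lt_div_mul_add hM |>.trans_le (by rw [add_mul, one_mul])
    have h3 : √y ≤ A / M := by
      rw [le_div_iff₀ hM']
      nlinarith
    push_cast
    constructor
    · linarith
    · rw [mul_div_assoc]; linarith
  set E := Real.exp (-∑ q ∈ W, denN q fun u => if Ω q u then 1 else 0) with hE
  have hE0 : 0 < E := Real.exp_pos _
  refine (sum_split hM _ (boxN (fun i => a i / M) fun i => A i / M + 2) ?_ ?_).trans ?_
  · intro u hu
    rw [mem_box] at hu ⊢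
    exact fun i => J.Shiu.div_mem hM (hu i).1 (hu i).2
  · intro u
    exact mul_nonneg (H0 u) (by split_ifs <;> norm_num)
  have key : ∀ u₀ ∈ boxN (0 : Fin d → ℤ) fun _ => M,
      ∑ u ∈ boxN (fun i => a i / M) fun i => A i / M + 2,
        H (af M u₀ u) * (if ∀ q ∈ W, ¬ Ω q (af M u₀ u) then 1 else 0) ≤
      H u₀ * (C * (∏ i, 3 * (A i : ℝ) / M) * E) := by
    intro u₀ _
    have hden : ∀ q ∈ W, denN q (fun u => if Ω q (af M u₀ u) then 1 else 0) =
        denN q fun u => if Ω q u then 1 else 0 := fun q hq =>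
      den_af (h := fun u => if Ω q u then 1 else 0) (hW q hq).1.pos (hW q hq).2.2
        (per_ind (hΩ q hq)) u₀
    have := hs √y (fun i => a i / M) (fun i => A i / M + 2) W (fun q u => Ω q (af M u₀ u)) hs1
      (fun i => (side _ (hA i)).1) (fun q hq => ⟨(hW q hq).1, (hW q hq).2.1⟩)
      (fun q hq u v huv => hΩ q hq _ _ (cg_af' M u₀ huv))
      (fun q hq => (hden q hq).trans_le (hd q hq))
    rw [sum_congr rfl hden] at this
    simp only [Hp _ _ (cg_af M u₀ _)]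
    rw [← mul_sum, sum_boole]
    refine mul_le_mul_of_nonneg_left ((le_of_eq ?_).trans (this.trans ?_)) (H0 u₀)
    · congr
    · refine mul_le_mul_of_nonneg_right (mul_le_mul_of_nonneg_left ?_ hC.le) hE0.le
      exact prod_le_prod (fun i _ => Nat.cast_nonneg _) fun i _ => (side _ (hA i)).2
  refine (sum_le_sum key).trans (le_of_eq ?_)
  rw [← sum_mul, denN, prod_div_distrib, prod_mul_distrib, prod_const, prod_const, card_univ,
    Fintype.card_fin]
  field_simp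

end Pool.Agent.Lib.MP_9177b7_ag.B.ShiuN
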