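import Pool.Agent.Lib.MP_9177b7_ag.B.St
import Pool.Agent.Lib.MP_9177b7_ag.B.ShiuN1

/-! Densities of the levels. -/

open NumberField Finset Pool.Agent.Shared.PrimeZeta

noncomputable section

namespace Pool.Agent.Lib.MP_9177b7_ag.B

namespace Lv

variable {d : ℕ}

lemma den_mono (M : ℕ) {h g : (Fin d → ℤ) → ℝ} (e : ∀ t, h t ≤ g t) : denN M h ≤ denN M g :=
  div_le_div_of_nonneg_right (sum_le_sum fun t _ => e t) (by positivity)

lemma den_add (M : ℕ) (h g : (Fin d → ℤ) → ℝ) :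
    denN M (fun t => h t + g t) = denN M h + denN M g := by
  simp only [denN, sum_add_distrib, add_div]

lemma den_sum {α : Type} (M : ℕ) (s : Finset α) (g : α → (Fin d → ℤ) → ℝ) :
    denN M (fun t => ∑ x ∈ s, g x t) = ∑ x ∈ s, denN M (g x) := by
  simp only [denN]
  rw [sum_comm, sum_div]

lemma poly (N : ℕ) : ∃ K : ℝ, 0 ≤ K ∧ ∀ (j : ℕ) (q : ℝ), 2 ≤ q →
    ((j : ℝ) + N + 1) ^ N ≤ K * q ^ ((j : ℝ) / 12) := by
  have hc : 0 < Real.log 2 / 12 := by
    have := Real.log_pos one_lt_two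
    positivity
  refine ⟨N.factorial / (Real.log 2 / 12) ^ N * Real.exp (Real.log 2 / 12 * (N + 1)),
    by positivity, fun j q hq => ?_⟩
  have h1 := Real.pow_div_factorial_le_exp (Real.log 2 / 12 * (j + N + 1)) (by positivity) N
  have h2 : Real.exp (Real.log 2 / 12 * j) ≤ q ^ ((j : ℝ) / 12) := by
    refine le_trans (le_of_eq ?_) (Real.rpow_le_rpow zero_le_two hq (by positivity))
    rw [Real.rpow_def_of_pos two_pos]
    congr 1
    ring
  rw [mul_pow, div_le_iff₀ (by positivity), ← le_div_iff₀' (by positivity), add_assoc, mul_add,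
    Real.exp_add] at h1
  rw [add_assoc]
  refine h1.trans (le_trans (le_of_eq ?_) (mul_le_mul_of_nonneg_left h2 (by positivity)))
  ring

variable {F : Type} [Field F] [NumberField F] (B : Bas F d) {q : ℕ}

include B in
lemma rank : Module.finrank ℤ (𝓞 F) = d + 1 := by
  rw [Module.finrank_eq_card_basis B.ω, Fintype.card_fin]

open Classical in
/-- the indicator function of divisibility by `E`. -/
def ind (m : ℤ) (E : Ideal (𝓞 F)) (t : Fin d → ℤ) : ℝ := if nId (B.tau m t) ≤ E then 1 else 0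

lemma ind_nonneg (m : ℤ) (E : Ideal (𝓞 F)) (t : Fin d → ℤ) : 0 ≤ ind B m E t := by
  unfold ind
  split_ifs
  exacts [zero_le_one, le_rfl]

lemma den_ind (hD : DenStmt) (hd : 2 ≤ d) (hq : q.Prime) (m : ℤ) {E : Ideal (𝓞 F)} {i M : ℕ}
    (hE : Ideal.absNorm E = q ^ i) (hM : 0 < M) (h : (M : 𝓞 F) ∈ E) : ∃ s, 3 * s ≤ i ∧
      denN M (ind B m E) ≤ q ^ s / q ^ i ∧ (s = 0 → denN M (ind B m E) = 1 / q ^ i) := by
  obtain ⟨e, -, h1, h2⟩ := ((hD F d B).2.2.2 E M hM h).2
  have h3 := Ideal.absNorm_dvd_absNorm_of_le h1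
  rw [Ideal.absNorm_span_natCast, rank B, hE] at h3
  obtain ⟨s, -, rfl⟩ := (Nat.dvd_prime_pow hq).1 ((dvd_pow_self e (by omega)).trans h3)
  rw [← pow_mul, Nat.pow_dvd_pow_iff_le_right hq.one_lt] at h3
  have h4 := h2 m
  rw [hE] at h4
  push_cast at h4
  exact ⟨s, le_trans (by rw [mul_comm]; exact Nat.mul_le_mul_left _ (by omega)) h3, h4.1,
    fun e => h4.2 (by rw [e, pow_zero])⟩

lemma den_small (hD : DenStmt) (hd : 2 ≤ d) (hq : q.Prime) (m : ℤ) {E : Ideal (𝓞 F)} {i : ℕ}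
    (hE : Ideal.absNorm E = q ^ i) (hi : i ≤ 2) (h : (q : 𝓞 F) ∈ E) :
    denN q (ind B m E) = 1 / q ^ i := by
  obtain ⟨s, a, -, b⟩ := den_ind B hD hd hq m hE hq.pos h
  exact b (by omega)

open Classical in
lemma lev (hI : IdcStmt) (hD : DenStmt) (hd : 2 ≤ d) (hq : q.Prime) (m : ℤ) (j : ℕ) :
    denN (q ^ j) (fun t => if q ^ j ∣ NN (B.tau m t) then 1 else 0) ≤
      (d + 2) * ((j : ℝ) + (d + 1 : ℕ) + 1) ^ (d + 1) / q ^ (j - j / 3) := by
  have hN : Module.finrank ℚ F = d + 1 := (RingOfIntegers.rank F).symm.trans (rank B)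
  have q1 : (1 : ℝ) ≤ q := by exact_mod_cast hq.one_le
  have hM : 0 < q ^ (j + (d + 1)) := pow_pos hq.pos _
  have per : ShiuN.Per (q ^ j) fun t => if q ^ j ∣ NN (B.tau m t) then (1 : ℝ) else 0 :=
    fun u v h => if_congr ⟨(hD F d B).2.2.1 q j m u v hq h,
      (hD F d B).2.2.1 q j m v u hq (ShiuN.CgN.symm h)⟩ rfl rfl
  rw [← ShiuN.den_of_dvd per (pow_dvd_pow q (Nat.le_add_right j (d + 1))) hM]
  refine (den_mono _ (g := fun t => ∑ i ∈ Icc j (j + (d + 1)), ∑ E ∈ idl F (q ^ i), ind B m E t)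
    fun t => ?_).trans ?_
  · split_ifs with h
    · obtain ⟨E, i, a, b, c, e⟩ := (hI F q j hq).2 _ h
      rw [hN] at c
      refine le_trans ?_ (single_le_sum (f := fun i => ∑ E ∈ idl F (q ^ i), ind B m E t)
        (fun i _ => sum_nonneg fun E _ => ind_nonneg B m E t) (mem_Icc.2 ⟨b, c⟩))
      exact le_trans (le_of_eq (if_pos a).symm)
        (single_le_sum (fun E _ => ind_nonneg B m E t) (mem_idl.2 e))
    · exact sum_nonneg fun i _ => sum_nonneg fun E _ => ind_nonneg B m E t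
  rw [den_sum]
  refine (sum_le_card_nsmul _ _ (((j : ℝ) + (d + 1 : ℕ) + 1) ^ (d + 1) / q ^ (j - j / 3))
    fun i hi => ?_).trans (le_of_eq ?_)
  · obtain ⟨a, b⟩ := mem_Icc.1 hi
    rw [den_sum]
    refine (sum_le_card_nsmul _ _ (1 / (q : ℝ) ^ (j - j / 3)) fun E hE => ?_).trans ?_
    · have e := mem_idl.1 hE
      obtain ⟨k, hk⟩ := pow_dvd_pow q b
      obtain ⟨s, h1, h2, -⟩ := den_ind B hD hd hq m e hM (by
        rw [hk, ← e, Nat.cast_mul]
        exact E.mul_mem_right _ (Ideal.absNorm_mem E))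
      refine h2.trans ?_
      rw [div_le_div_iff₀ (by positivity) (by positivity), ← pow_add, one_mul]
      exact pow_le_pow_right₀ q1 (by omega)
    · rw [card_idl, nsmul_eq_mul, mul_one_div]
      refine div_le_div_of_nonneg_right ?_ (by positivity)
      have h := (hI F q i hq).1
      rw [hN] at h
      exact_mod_cast h.trans (Nat.pow_le_pow_left (by omega) _)
  · rw [Nat.card_Icc, show j + (d + 1) + 1 - j = d + 2 by omega, nsmul_eq_mul]
    push_cast
    ring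

lemma max_of (hq : q.Prime) {P : Ideal (𝓞 F)} (h : Ideal.absNorm P = q) : P.IsMaximal := by
  refine (Ideal.isPrime_of_irreducible_absNorm (h ▸ hq)).isMaximal ?_
  rintro rfl
  rw [Ideal.absNorm_bot] at h
  exact hq.ne_zero h.symm

open Classical in
lemma low (hD : DenStmt) (hd : 2 ≤ d) (hq : q.Prime) (m : ℤ) :
    (nI F q : ℝ) / q - (d + 1) ^ 2 / q ^ 2 ≤
      denN q (fun t => if q ∣ NN (B.tau m t) then 1 else 0) := by
  have mem : ∀ P ∈ idl F q, (q : 𝓞 F) ∈ P := fun P hP => mem_idl.1 hP ▸ Ideal.absNorm_mem P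
  have hn : (nI F q : ℝ) ≤ d + 1 := by exact_mod_cast (nI_le hq).trans (rank B).le
  have h1 := den_mono (d := d) q (h := fun t => ∑ P ∈ idl F q, ind B m P t)
    (g := fun t => (if q ∣ NN (B.tau m t) then 1 else 0) +
      ∑ P ∈ idl F q, ∑ P' ∈ (idl F q).erase P, ind B m (P ⊓ P') t) fun t => by
      have n2 : ∀ P ∈ idl F q, 0 ≤ ∑ P' ∈ (idl F q).erase P, ind B m (P ⊓ P') t :=
        fun P _ => sum_nonneg fun _ _ => ind_nonneg B m _ t
      by_cases h : ∃ P ∈ idl F q, nId (B.tau m t) ≤ P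
      · obtain ⟨P, hP, a⟩ := h
        rw [if_pos (mem_idl.1 hP ▸ Ideal.absNorm_dvd_absNorm_of_le a), ← add_sum_erase _ _ hP]
        refine add_le_add (le_of_eq (if_pos a)) (le_trans (le_of_eq ?_) (single_le_sum n2 hP))
        exact sum_congr rfl fun P' _ => by simp only [ind, le_inf_iff, a, true_and]
      · rw [sum_eq_zero (f := fun P => ind B m P t) fun P hP => if_neg fun a => h ⟨P, hP, a⟩]
        exact add_nonneg (by split_ifs <;> norm_num) (sum_nonneg n2)
  rw [den_add, den_sum, den_sum, sum_congr rfl fun P hP => den_small B hD hd hq m (i := 1)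
    ((mem_idl.1 hP).trans (pow_one q).symm) one_le_two (mem P hP), sum_const, card_idl, pow_one,
    nsmul_eq_mul, mul_one_div] at h1
  have h2 : ∑ P ∈ idl F q, denN q (fun t => ∑ P' ∈ (idl F q).erase P, ind B m (P ⊓ P') t) ≤
      (d + 1) ^ 2 / q ^ 2 := by
    refine (sum_le_card_nsmul _ _ (((d : ℝ) + 1) / q ^ 2) fun P hP => ?_).trans ?_
    · rw [den_sum, sum_congr rfl fun P' hP' => den_small B hD hd hq m (E := P ⊓ P') (i := 2) ?_
        le_rfl (Ideal.mem_inf.2 ⟨mem P hP, mem P' (mem_of_mem_erase hP')⟩), sum_const,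
        nsmul_eq_mul, mul_one_div]
      · refine div_le_div_of_nonneg_right (le_trans ?_ hn) (by positivity)
        exact_mod_cast card_erase_le.trans (card_idl q).le
      · have := max_of hq (mem_idl.1 hP)
        have := max_of hq (mem_idl.1 (mem_of_mem_erase hP'))
        rw [← Ideal.mul_eq_inf_of_isCoprime
          (Ideal.isCoprime_of_isMaximal (ne_of_mem_erase hP').symm), map_mul, mem_idl.1 hP,
          mem_idl.1 (mem_of_mem_erase hP'), sq]
    · rw [card_idl, nsmul_eq_mul, sq ((d : ℝ) + 1), mul_div_assoc]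
      exact mul_le_mul_of_nonneg_right hn (by positivity)
  linarith

variable (L : Type) [Field L] [NumberField L] [Algebra F L]

lemma norm_comap (hq : q.Prime) {Q : Ideal (𝓞 L)} (h : Ideal.absNorm Q = q) :
    Ideal.absNorm (Q.comap (algebraMap (𝓞 F) (𝓞 L))) = q := by
  have h1 := AddSubgroup.card_dvd_of_injective
    (Ideal.quotientMap Q (algebraMap (𝓞 F) (𝓞 L)) le_rfl).toAddMonoidHom
    Ideal.quotientMap_injective
  rw [← Submodule.cardQuot_apply, ← Submodule.cardQuot_apply, ← Ideal.absNorm_apply,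
    ← Ideal.absNorm_apply, h] at h1
  refine ((Nat.dvd_prime hq).1 h1).resolve_left fun e => ?_
  exact (max_of hq h).ne_top (Ideal.comap_eq_top_iff.1 (Ideal.absNorm_eq_one_iff.1 e))

open Classical in
lemma n1_eq (τ : F) : n1 L q τ =
    ((idl L q).filter fun Q => nId τ ≤ Q.comap (algebraMap (𝓞 F) (𝓞 L))).card :=
  Nat.subtype_card _ fun Q => by rw [mem_filter, mem_idl]

lemma n1_sum (m : ℤ) (t : Fin d → ℤ) : (n1 L q (B.tau m t) : ℝ) =
    ∑ Q ∈ idl L q, ind B m (Q.comap (algebraMap (𝓞 F) (𝓞 L))) t := by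
  rw [n1_eq, card_filter]
  simp only [ind, Nat.cast_sum, Nat.cast_ite, Nat.cast_one, Nat.cast_zero]

end Lv

theorem lv (hI : IdcStmt) (hD : DenStmt) : LvStmt := by
  classical
  intro d hd
  obtain ⟨K, K0, hK⟩ := Lv.poly (d + 1)
  obtain ⟨c, hc⟩ : ∃ c : ℝ, c = (d + 2) * (((1 : ℕ) : ℝ) + (d + 1 : ℕ) + 1) ^ (d + 1) := ⟨_, rfl⟩
  have c0 : 0 ≤ c := by
    rw [hc]
    positivity
  have k0 : 0 ≤ ((d : ℝ) + 2) * K := by positivity
  have n0 : 0 ≤ ((d : ℝ) + 1) ^ 2 := by positivity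
  refine ⟨1 + c + (d + 1) ^ 2 + (d + 2) * K, by linarith, fun F _ _ B m q hq => ?_⟩
  have q2 : (2 : ℝ) ≤ q := by exact_mod_cast hq.two_le
  have key : ∀ (j : ℕ) (x : ℝ), (j : ℝ) / 12 - (j - j / 3 : ℕ) ≤ x →
      ((d : ℝ) + 2) * ((j : ℝ) + (d + 1 : ℕ) + 1) ^ (d + 1) / q ^ (j - j / 3) ≤
        (1 + c + (d + 1) ^ 2 + (d + 2) * K) * (q : ℝ) ^ x := fun j x hx => by
    have a := Real.rpow_le_rpow_of_exponent_le (by linarith : (1 : ℝ) ≤ q) hx
    rw [Real.rpow_sub (by linarith), Real.rpow_natCast] at a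
    calc _ ≤ ((d : ℝ) + 2) * (K * (q : ℝ) ^ ((j : ℝ) / 12)) / q ^ (j - j / 3) :=
          div_le_div_of_nonneg_right (mul_le_mul_of_nonneg_left (hK j q q2) (by positivity))
            (by positivity)
      _ = ((d : ℝ) + 2) * K * ((q : ℝ) ^ ((j : ℝ) / 12) / q ^ (j - j / 3)) := by ring
      _ ≤ _ := mul_le_mul (by linarith) a (by positivity) (by linarith)
  refine ⟨?_, ?_, fun j => ⟨(Lv.lev B hI hD hd hq m j).trans (key j _ ?_),
    fun hj => (Lv.lev B hI hD hd hq m j).trans (key j _ ?_)⟩, fun L _ _ _ => ⟨fun t t' h => ?_,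
    fun τ => ?_, ?_⟩⟩
  · have a := Lv.lev B hI hD hd hq m 1
    rw [← hc] at a
    simp only [pow_one, Nat.reduceDiv, Nat.sub_zero] at a
    exact a.trans (div_le_div_of_nonneg_right (by linarith) (by positivity))
  · refine le_trans (sub_le_sub_left (div_le_div_of_nonneg_right ?_ (by positivity)) _)
      (Lv.low B hD hd hq m)
    linarith
  · have : (j : ℝ) ≤ 3 * (j - j / 3 : ℕ) := by exact_mod_cast (by omega : j ≤ 3 * (j - j / 3))
    linarith
  · have : (j : ℝ) + 3 ≤ 3 * (j - j / 3 : ℕ) := by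
      exact_mod_cast (by omega : j + 3 ≤ 3 * (j - j / 3))
    linarith
  · rw [Lv.n1_eq, Lv.n1_eq]
    refine congrArg _ (filter_congr fun Q hQ => ?_)
    have a := ((hD F d B).2.2.2 (Q.comap (algebraMap (𝓞 F) (𝓞 L))) q hq.pos
      (Lv.norm_comap (F := F) L hq (mem_idl.1 hQ) ▸ Ideal.absNorm_mem _)).1 m
    exact ⟨a t t' h, a t' t (ShiuN.CgN.symm h)⟩
  · rw [Lv.n1_eq, ← RingOfIntegers.rank]
    exact (card_filter_le _ _).trans ((card_idl q).le.trans (nI_le hq))
  · have a : ∀ Q ∈ idl L q, denN q (Lv.ind B m (Q.comap (algebraMap (𝓞 F) (𝓞 L)))) = 1 / q ^ 1 :=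
      fun Q hQ =>
        have e := Lv.norm_comap (F := F) L hq (mem_idl.1 hQ)
        Lv.den_small B hD hd hq m (e.trans (pow_one q).symm) one_le_two (e ▸ Ideal.absNorm_mem _)
    simp only [Lv.n1_sum]
    rw [Lv.den_sum, sum_congr rfl a, sum_const, card_idl, pow_one, nsmul_eq_mul, mul_one_div]

end Pool.Agent.Lib.MP_9177b7_ag.B
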