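import Pool.Agent.Lib.MP_9177b7_ag.B.St
import Pool.Agent.Lib.MP_9177b7_ag.B.Cond

/-!
The measure attached to a CM datum.
-/

open NumberField Matrix MeasureTheory Filter Topology
open scoped nonZeroDivisors ComplexConjugate ENNReal BoundedContinuousFunction

noncomputable section

namespace Pool.Agent.Lib.MP_9177b7_ag.B

namespace Meas

section gen

variable {G : Type} [Group G] [TopologicalSpace G] [IsTopologicalGroup G] [MeasurableSpace G]
  [BorelSpace G] (Γ : Subgroup G) [BorelSpace (G ⧸ Γ)] (μ : Measure G)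

/-- The image of `μ` on the orbit of `g Γ`. -/
def orb (g : G) : Measure (G ⧸ Γ) := μ.map fun m => (QuotientGroup.mk (m * g) : G ⧸ Γ)

/-- The average of finitely many orbit measures. -/
def avg {ι : Type} [Fintype ι] (g : ι → G) : Measure (G ⧸ Γ) :=
  (Fintype.card ι : ℝ≥0∞)⁻¹ • ∑ i, orb Γ μ (g i)

theorem meas_orb (g : G) : Measurable fun m => (QuotientGroup.mk (m * g) : G ⧸ Γ) :=
  (QuotientGroup.continuous_mk.comp (continuous_mul_const g)).measurable

instance [IsProbabilityMeasure μ] (g : G) : IsProbabilityMeasure (orb Γ μ g) :=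
  Measure.isProbabilityMeasure_map (meas_orb Γ g).aemeasurable

theorem avg_prob [IsProbabilityMeasure μ] {ι : Type} [Fintype ι] [Nonempty ι] (g : ι → G) :
    IsProbabilityMeasure (avg Γ μ g) := ⟨by
  simp only [avg, Measure.smul_apply, Measure.finsetSum_apply, measure_univ, Finset.sum_const,
    Finset.card_univ, nsmul_eq_mul, mul_one, smul_eq_mul]
  exact ENNReal.inv_mul_cancel (by simp) (by simp)⟩

variable {Γ μ} {M : Set G}

theorem orb_move (h1 : ∀ᵐ g ∂μ, g ∈ M)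
    (h2 : ∀ u ∈ M, ∀ f : G → ℝ≥0∞, Measurable f → ∫⁻ g, f (g * u) ∂μ = ∫⁻ g, f g ∂μ)
    {d g g' m γ : G} (hc : ∀ m ∈ M, m * d = d * m) (hm : m ∈ M) (hγ : γ ∈ Γ)
    (e : d * g = m * g' * γ) : (orb Γ μ g).map (d • ·) = orb Γ μ g' := by
  have hd : Measurable fun x : G ⧸ Γ => d • x := (continuous_const_smul d).measurable
  refine Measure.ext_of_lintegral _ fun F hF => ?_
  rw [lintegral_map hF hd, orb, orb, lintegral_map (f := fun x => F (d • x)) (hF.comp hd)
    (meas_orb Γ g), lintegral_map hF (meas_orb Γ g'),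
    ← h2 m hm (fun x => F (QuotientGroup.mk (x * g'))) (hF.comp (meas_orb Γ g'))]
  refine lintegral_congr_ae (h1.mono fun x hx => ?_)
  have : d • (QuotientGroup.mk (x * g) : G ⧸ Γ) = QuotientGroup.mk (x * m * g') := by
    change (QuotientGroup.mk (d * (x * g)) : G ⧸ Γ) = _
    rw [← mul_assoc, ← hc x hx, mul_assoc, e, ← mul_assoc, ← mul_assoc,
      QuotientGroup.mk_mul_of_mem _ hγ]
  simp only [this]

omit [BorelSpace G] in
theorem avg_move {ι : Type} [Fintype ι] {g : ι → G} {d : G} (σ : ι → ι)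
    (hσ : Function.Injective σ) (h : ∀ i, (orb Γ μ (g i)).map (d • ·) = orb Γ μ (g (σ i))) :
    (avg Γ μ g).map (d • ·) = avg Γ μ g := by
  have hd : Measurable fun x : G ⧸ Γ => d • x := (continuous_const_smul d).measurable
  rw [avg, Measure.map_smul, Measure.map_finset_sum hd.aemeasurable]
  congr 1
  simp only [h]
  exact (Finite.injective_iff_bijective.1 hσ).sum_comp fun i => orb Γ μ (g i)

theorem avg_int [IsProbabilityMeasure μ] (h1 : ∀ᵐ g ∂μ, g ∈ M) {ι : Type} [Fintype ι]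
    (g : ι → G) (f : (G ⧸ Γ) →ᵇ ℝ) (a : ι → ℝ)
    (h : ∀ i, ∀ m ∈ M, f (QuotientGroup.mk (m * g i)) = a i) :
    ∫ x, f x ∂avg Γ μ g = (∑ i, a i) / Fintype.card ι := by
  rw [avg, integral_smul_measure, integral_finsetSum_measure fun i _ => f.integrable _]
  have : ∀ i, ∫ x, f x ∂orb Γ μ (g i) = a i := fun i => by
    rw [orb, integral_map (meas_orb Γ _).aemeasurable f.continuous.aestronglyMeasurable,
      integral_congr_ae (g := fun _ => a i) (h1.mono (h i))]
    simp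
  simp only [this]
  simp [div_eq_inv_mul]

theorem avg_le [IsProbabilityMeasure μ] (h1 : ∀ᵐ g ∂μ, g ∈ M) {ι : Type} [Fintype ι]
    (g : ι → G) {W : Set (G ⧸ Γ)} (hW : IsOpen W) (s : Finset ι)
    (h : ∀ i, ∀ m ∈ M, (QuotientGroup.mk (m * g i) : G ⧸ Γ) ∈ W → i ∈ s) :
    avg Γ μ g W ≤ (Fintype.card ι : ℝ≥0∞)⁻¹ * s.card := by
  classical
  rw [avg, Measure.smul_apply, Measure.finsetSum_apply, smul_eq_mul]
  gcongr
  calc ∑ i, orb Γ μ (g i) W ≤ ∑ i, if i ∈ s then 1 else 0 := by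
        refine Finset.sum_le_sum fun i _ => ?_
        split_ifs with hi
        · exact prob_le_one
        · rw [orb, Measure.map_apply (meas_orb Γ _) hW.measurableSet]
          refine le_of_eq (measure_mono_null (fun m hm hM => hi (h i m hM hm)) h1)
    _ = _ := by simp

end gen

theorem dgp_add {n : ℕ} (p : ℕ) [Fact p.Prime] (k k' : Fin (n + 3) → ℤ) (hk hk' hs) :
    dgp p (k + k') hs = dgp p k hk * dgp p k' hk' := by
  have hp : (p : ℚ_[p]) ≠ 0 := Nat.cast_ne_zero.2 (Fact.out : p.Prime).ne_zero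
  refine Subtype.ext ?_
  change diagonal _ = diagonal _ * diagonal _
  rw [diagonal_mul_diagonal]
  simp only [Pi.add_apply, zpow_add₀ hp]

theorem dgp_zero {n : ℕ} (p : ℕ) [Fact p.Prime] (h) : dgp (n := n) p 0 h = 1 := by
  refine Subtype.ext ?_
  change diagonal _ = 1
  simp

/-- Invariance under the elementary differences gives invariance under the diagonal group. -/
theorem ainv {n p : ℕ} [Fact p.Prime] (S : Sp n p) (ν : Measure S.X)
    (h : ∀ (i l : Fin (n + 3)) (hk), i ≠ l →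
      ν.map (dgp p (Pi.single i 1 - Pi.single l 1) hk • ·) = ν) : S.AInv ν := by
  have ms : ∀ g : HP n p, Measurable fun x : S.X => g • x := fun g =>
    (continuous_const_smul g).measurable
  have ad : ∀ k k' hk hk' hs, (ν.map (dgp p k' hk' • ·)).map (dgp p k hk • ·) =
      ν.map (dgp p (k + k') hs • ·) := fun k k' hk hk' hs => by
    rw [Measure.map_map (ms _) (ms _), dgp_add p k k' hk hk']
    congr 1
    exact funext fun x => (mul_smul _ _ x).symm
  have z : ∀ h, ν.map (dgp (n := n) p 0 h • ·) = ν := fun h => by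
    simp only [dgp_zero, one_smul, Measure.map_id']
  let A : AddSubgroup (Fin (n + 3) → ℤ) :=
    { carrier := {k | ∃ hk, ν.map (dgp p k hk • ·) = ν}
      zero_mem' := ⟨by simp, z _⟩
      add_mem' := by
        rintro k k' ⟨hk, e⟩ ⟨hk', e'⟩
        refine ⟨by simp [Finset.sum_add_distrib, hk, hk'], ?_⟩
        rw [← ad k k' hk hk', e', e]
      neg_mem' := by
        rintro k ⟨hk, e⟩
        have hk' : ∑ i, (-k) i = 0 := by simp [hk]
        refine ⟨hk', ?_⟩
        have := ad (-k) k hk' hk (by simp)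
        rw [e] at this
        rw [this]
        convert z (by simp)
        exact neg_add_cancel k }
  intro k hk
  have e : k = ∑ r, k r • (Pi.single r 1 - Pi.single 0 1 : Fin (n + 3) → ℤ) := by
    simp only [smul_sub, Finset.sum_sub_distrib, ← Finset.sum_smul, hk, zero_smul, sub_zero]
    funext i
    simp [Finset.sum_apply, Pi.single_apply]
  have : k ∈ A := by
    rw [e]
    refine A.sum_mem fun r _ => A.zsmul_mem ?_ _
    by_cases hr : r = 0
    · rw [hr, sub_self]; exact A.zero_mem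
    · exact ⟨by simp [Finset.sum_sub_distrib], h r 0 _ hr⟩
  exact this.2

variable {n p : ℕ} [Fact p.Prime] {c : Ctx p}

theorem tw_mul (hF : FrameStmt) (D : Dat n c) (P b : Ideal (𝓞 D.L)) :
    D.tw (P * b) = (P : D.FI) * (D.cF P)⁻¹ * D.tw b := by
  obtain ⟨-, -, -, -, -, -, -, -, -, -, -, h, -⟩ := hF n p c D
  simp only [Dat.tw, ← h, FractionalIdeal.coeIdeal_mul, map_mul, mul_inv]
  ring

/-- The neighbour of a class and its lattice. -/
theorem nbr (hP : PadStmt) (hF : FrameStmt) (hA : AmbStmt) (hI : IsoStmt) (D : Dat n c)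
    (S : D.Sys) (i l : Fin (n + 3)) : ∃ σ : D.Cl → D.Cl, Function.Injective σ ∧ ∀ x, ∃ u : D.L,
      u * D.bar u = 1 ∧ D.tw (S.b (σ x)) =
        FractionalIdeal.spanSingleton _ u * D.quo l i * (D.cF (D.quo l i))⁻¹ * D.tw (S.b x) := by
  have nz : ∀ r, Pp (D.ψ r) ≠ ⊥ := fun r e => by
    have := ((hP D.L p).1 (D.ψ r)).2.2.1
    rw [e, Ideal.absNorm_bot] at this
    exact (Fact.out : p.Prime).ne_zero this.symm
  let P : Fin (n + 3) → (Ideal (𝓞 D.L))⁰ := fun r =>
    ⟨Pp (D.ψ r), mem_nonZeroDivisors_of_ne_zero (nz r)⟩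
  have cm : (P l).1.comap (algebraMap (𝓞 c.K) (𝓞 D.L)) =
      (P i).1.comap (algebraMap (𝓞 c.K) (𝓞 D.L)) := by
    ext x
    change ‖D.ψ l (algebraMap c.K D.L x)‖ < 1 ↔ ‖D.ψ i (algebraMap c.K D.L x)‖ < 1
    rw [D.ψ_j, D.ψ_j]
  choose σ hσ using (hI n p c D).2 (P l) (P i) ((hP D.L p).1 _).2.2.2.1 ((hP D.L p).1 _).2.2.2.1 cm
  refine ⟨σ, fun x y e => Subtype.ext ?_, fun x => ?_⟩
  · have := hσ x
    rw [e, hσ y] at this
    exact (mul_right_cancel (mul_right_cancel this)).symm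
  · obtain ⟨C, hC⟩ := hA n p c
    obtain ⟨u, hu, e⟩ := ((hC D).1 (P l * S.b x) (P i * S.b (σ x))).2 (by
      rw [map_mul, map_mul, S.hb, S.hb, hσ]
      convert D.Amb.one_mem using 1
      rw [inv_mul_eq_one, mul_comm (ClassGroup.mk0 (P i)), inv_mul_cancel_right, mul_comm])
    refine ⟨u, hu, ?_⟩
    rw [Submonoid.coe_mul, Submonoid.coe_mul, tw_mul hF, tw_mul hF] at e
    have n1 : ∀ r, ((P r).1 : D.FI) ≠ 0 := fun r => FractionalIdeal.coeIdeal_ne_zero.2 (nz r)
    have n2 : ∀ r, D.cF ((P r).1 : D.FI) ≠ 0 := fun r => (map_ne_zero D.cF).2 (n1 r)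
    have q : D.quo l i = ((P l).1 : D.FI) * ((P i).1 : D.FI)⁻¹ := rfl
    rw [q, map_mul, map_inv₀]
    have a1 := n1 i
    have a2 := n2 i
    have a3 := n2 l
    calc _ = (((P i).1 : D.FI)⁻¹ * D.cF (P i).1) *
          (((P i).1 : D.FI) * (D.cF (P i).1)⁻¹ * D.tw (S.b (σ x))) := by field_simp
      _ = _ := by rw [e]; field_simp

end Meas

open Meas in
theorem meas (hP : PadStmt) (hF : FrameStmt) (hA : AmbStmt) (hO : OrbStmt) (hI : IsoStmt)
    (hL : LiftStmt) (hM : MoveStmt) (hJ : ProjStmt) (hT : TubeStmt) : MeasStmt := by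
  intro n p _ c _ π hπ hπ1 D S
  classical
  have : Fintype (Units.torsion c.K) := Fintype.ofFinite _
  obtain ⟨⟨M, hM0, hMc, hMd⟩, L2⟩ := hL n p
  obtain ⟨μ, hμ, h1, h2⟩ := Cond.exists_haar M (hM0 ▸ hMc)
  have hmem : ∀ g, g ∈ M ↔ g ∈ M0 n p := fun g => by rw [← hM0]; rfl
  simp only [hmem] at h1 h2
  obtain ⟨M1, M2⟩ := hM n p c D
  have fr : ∀ y : D.Cl × Units.torsion c.K, D.Fr (D.tw (S.b y.1)) (D.rot (S.e y.1) y.2) :=
    fun y => M1 _ _ _ (S.he _)
  choose g hg using fun y => (L2 c D _ _ (fr y)).1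
  have FL := (hF n p c D).2.2.2.2.2.2.2.2.2.2.2.2.2.2.2.2.2.2
  choose v hv using fun y => (FL _ _ (fr y)).2.2.2.2.2.2.2.1
  have orbz := fun ζ : Units.torsion c.K => hO n p c D
    ⟨S.b, fun x => D.rot (S.e x) ζ, S.hb, fun x => fr (x, ζ)⟩ (fun x => v (x, ζ))
    fun x => hv (x, ζ)
  have := (orbz 1).2.1
  have tz : (Fintype.card (Units.torsion c.K) : ℝ) ≠ 0 := Nat.cast_ne_zero.2 Fintype.card_ne_zero
  refine ⟨avg (c.Gp n) μ g, avg_prob _ _ _, ainv (c.sp n) _ fun i l hk hil => ?_, (orbz 1).1,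
    fun f => ?_, fun I c₀ k R => ?_⟩
  · obtain ⟨σ, hσ, hu⟩ := nbr hP hF hA hI D S i l
    choose u hu eu using hu
    choose η hη using fun x => M2 i l _ (S.e x) (S.e (σ x)) (u x) _ hk hil rfl (hu x) (S.he x)
      (eu x ▸ S.he (σ x))
    refine avg_move (d := ((dgp p _ hk, 1) : GG n p)) (fun y => (σ y.1, y.2 * η y.1)) ?_ fun y => ?_
    · rintro ⟨x, ζ⟩ ⟨x', ζ'⟩ e
      obtain ⟨e1, e2⟩ := Prod.mk.inj e
      obtain rfl := hσ e1
      exact Prod.ext rfl (mul_right_cancel e2)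
    · obtain ⟨m, hm, γ, hγ, e⟩ := hη y.1 y.2 _ _ (hg y) (hg (σ y.1, y.2 * η y.1))
      exact orb_move h1 h2 (fun m hm => hMd m hm _ hk) hm hγ e
  · obtain ⟨-, hpr, J3⟩ := hJ n p c
    have := avg_int h1 g (f.compContinuous ⟨fun x => proj n c.K (π x), hpr.comp hπ⟩)
      (fun y => f (Quot.mk _ (v y))) fun y m hm => by
        have l := ((L2 c D _ _ (fr y)).2 _ (hg y)).1 m hm
        obtain ⟨z, hz⟩ := ((L2 c D _ _ (fr y)).2 _ l).2.1
        change f (proj n c.K (π _)) = _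
        rw [hπ1 _ l.1, J3 _ (v y) z ((funext (hv y)).trans hz)]
    refine Eq.trans ?_ this.symm
    have e : ∀ ζ, ∑ x, f (Quot.mk _ (v (x, ζ))) =
        mean (orbit n c.K D.φ D.lam D.a) f * Fintype.card D.Cl := fun ζ => by
      rw [(orbz ζ).2.2 f, div_mul_cancel₀ _ (Nat.cast_ne_zero.2 Fintype.card_ne_zero)]
    have cz : (Fintype.card D.Cl : ℝ) ≠ 0 := Nat.cast_ne_zero.2 Fintype.card_ne_zero
    rw [Fintype.sum_prod_type_right]
    simp only [e, Finset.sum_const, Finset.card_univ, nsmul_eq_mul, Fintype.card_prod, Nat.cast_mul]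
    field_simp
  · obtain ⟨T1, T2⟩ := (hT n p c).1 I c₀ k R
    refine (avg_le h1 g T1
      ((Finset.univ.filter fun x => D.Ev (D.tw (S.b x)) I c₀ k R) ×ˢ Finset.univ)
      fun y m hm hy => ?_).trans (le_of_eq ?_)
    · have l := ((L2 c D _ _ (fr y)).2 _ (hg y)).1 m hm
      simpa using ((L2 c D _ _ (fr y)).2 _ l).2.2 I c₀ k R ((T2 _).1 hy)
    · rw [Dat.pr, ENNReal.ofReal_div_of_pos (Nat.cast_pos.2 Fintype.card_pos),
        ENNReal.ofReal_natCast, ENNReal.ofReal_natCast, Finset.card_product, Finset.card_univ,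
        Fintype.card_prod, Nat.cast_mul, Nat.cast_mul, mul_comm, ← div_eq_mul_inv,
        ENNReal.mul_div_mul_right _ _ (by simp) (by simp)]

end Pool.Agent.Lib.MP_9177b7_ag.B
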