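import Pool.Agent.Lib.MP_9177b7_ag.B.StE
import Pool.Agent.Lib.MP_9177b7_ag.EQ.Div1

/-!
Estimates of Mertens type.
-/

open Finset Pool.Agent.Shared.PrimeZeta

noncomputable section

namespace Pool.Agent.Lib.MP_9177b7_ag.B

namespace Mert

open Pool.Agent.Lib.MP_9177b7_ag.EQ

theorem mem_Pr {y : ℝ} (hy : 0 ≤ y) {q : ℕ} : q ∈ Pr y ↔ (q : ℝ) ≤ y ∧ q.Prime := by
  rw [Pr, mem_filter, mem_range, Nat.lt_succ_iff, Nat.le_floor_iff hy]

theorem rpow_eq {q : ℕ} (hq : q.Prime) (b : ℝ) :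
    (q : ℝ) ^ (-(1 + b)) = Real.exp (-(b * Real.log q)) * (1 / q) := by
  have h0 : (0 : ℝ) < q := by exact_mod_cast hq.pos
  rw [Real.rpow_def_of_pos h0, show Real.log q * -(1 + b) = -(b * Real.log q) + -Real.log q by ring,
    Real.exp_add, Real.exp_neg (Real.log q), Real.exp_log h0, one_div]

/-- One block. -/
theorem block {C : ℝ}
    (hC : ∀ x : ℝ, 2 ≤ x → |∑ l ∈ Pr x, 1 / (l : ℝ) - Real.log (Real.log x)| ≤ C)
    {y b : ℝ} (hy : 2 ≤ y) (hb : 0 < b) :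
    ∑ q ∈ Pr (y ^ 2), (q : ℝ) ^ (-(1 + b)) ≤
      ∑ q ∈ Pr y, (q : ℝ) ^ (-(1 + b)) + (1 + 2 * C) / (b * Real.log y) := by
  have hl : 0 < Real.log y := Real.log_pos (by linarith)
  have hy2 : y ≤ y ^ 2 := by nlinarith
  have hsub : Pr y ⊆ Pr (y ^ 2) := fun q hq => by
    rw [mem_Pr (by linarith)] at hq ⊢
    exact ⟨hq.1.trans hy2, hq.2⟩
  have h1 := abs_le.1 (hC y hy)
  have h2 := abs_le.1 (hC (y ^ 2) (by linarith))
  rw [Real.log_pow, Nat.cast_ofNat, Real.log_mul (by norm_num) hl.ne', ← sum_sdiff hsub] at h2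
  have h3 : ∑ q ∈ Pr (y ^ 2) \ Pr y, 1 / (q : ℝ) ≤ 1 + 2 * C := by
    linarith [h1.1, h2.2, Real.log_two_lt_d9]
  rw [← sum_sdiff hsub, add_comm]
  have h4 : ∑ q ∈ Pr (y ^ 2) \ Pr y, (q : ℝ) ^ (-(1 + b)) ≤
      ∑ q ∈ Pr (y ^ 2) \ Pr y, (b * Real.log y)⁻¹ * (1 / (q : ℝ)) := by
    refine sum_le_sum fun q hq => ?_
    rw [mem_sdiff, mem_Pr (by linarith), mem_Pr (by linarith)] at hq
    have hp := hq.1.2
    have hyq : y ≤ q := by
      by_contra h
      exact hq.2 ⟨(not_le.1 h).le, hp⟩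
    rw [rpow_eq hp]
    refine mul_le_mul_of_nonneg_right ?_ (by positivity)
    rw [Real.exp_neg]
    refine inv_anti₀ (by positivity) ?_
    have : Real.log y ≤ Real.log q := Real.log_le_log (by linarith) hyq
    have h5 := Real.add_one_le_exp (b * Real.log q)
    nlinarith
  rw [← mul_sum] at h4
  have h6 := mul_le_mul_of_nonneg_left h3 (show 0 ≤ (b * Real.log y)⁻¹ by positivity)
  rw [div_eq_inv_mul]
  linarith

theorem blocks {C : ℝ} (hC0 : 0 ≤ C)
    (hC : ∀ x : ℝ, 2 ≤ x → |∑ l ∈ Pr x, 1 / (l : ℝ) - Real.log (Real.log x)| ≤ C)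
    {x b c₁ : ℝ} (hx : 2 ≤ x) (hb : 0 < b) (hc : 0 < c₁) (h : c₁ ≤ b * Real.log x) (k : ℕ) :
    ∑ q ∈ Pr (x ^ 2 ^ k), (q : ℝ) ^ (-(1 + b)) ≤
      ∑ q ∈ Pr x, (q : ℝ) ^ (-(1 + b)) + (1 + 2 * C) / c₁ * (2 - 2 / 2 ^ k) := by
  induction k with
  | zero => simp
  | succ k ih =>
    have h1 : x ≤ x ^ 2 ^ k := le_self_pow₀ (by linarith) (by positivity)
    have h2 := block hC (hx.trans h1) hb
    rw [← pow_mul, ← pow_succ, Real.log_pow] at h2
    have h3 : (1 + 2 * C) / (b * (((2 ^ k : ℕ) : ℝ) * Real.log x)) ≤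
        (1 + 2 * C) / (c₁ * 2 ^ k) := by
      refine div_le_div_of_nonneg_left (by linarith) (by positivity) ?_
      push_cast
      have : (0 : ℝ) < 2 ^ k := by positivity
      nlinarith
    have h4 : (1 + 2 * C) / c₁ * (2 - 2 / 2 ^ (k + 1)) =
        (1 + 2 * C) / c₁ * (2 - 2 / 2 ^ k) + (1 + 2 * C) / (c₁ * 2 ^ k) := by
      field_simp
      ring
    linarith

theorem sum_range_eq (x : ℝ) (f : ℕ → ℝ) :
    ∑ n ∈ range (⌊x⌋₊ + 1), (if n.Prime then f n else 0) = ∑ q ∈ Pr x, f q := by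
  rw [Pr, sum_filter]

theorem total {C : ℝ} (hC0 : 0 ≤ C)
    (hC : ∀ x : ℝ, 2 ≤ x → |∑ l ∈ Pr x, 1 / (l : ℝ) - Real.log (Real.log x)| ≤ C)
    {x b c₁ : ℝ} (hx : 2 ≤ x) (hb : 0 < b) (hc : 0 < c₁) (h : c₁ ≤ b * Real.log x) :
    ∑' n : ℕ, (if n.Prime then (n : ℝ) ^ (-(1 + b)) else 0) ≤
      ∑ q ∈ Pr x, (q : ℝ) ^ (-(1 + b)) + (1 + 2 * C) / c₁ * 2 := by
  refine Real.tsum_le_of_sum_range_le (fun n => by split_ifs <;> positivity) fun n => ?_
  have h1 := blocks hC0 hC hx hb hc h n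
  have h2 : (1 + 2 * C) / c₁ * (2 - 2 / 2 ^ n) ≤ (1 + 2 * C) / c₁ * 2 :=
    mul_le_mul_of_nonneg_left (sub_le_self _ (by positivity)) (by positivity)
  refine le_trans ?_ (h1.trans (by linarith))
  rw [← sum_filter]
  refine sum_le_sum_of_subset_of_nonneg (fun q hq => ?_) fun q _ _ => by positivity
  rw [mem_filter, mem_range] at hq
  rw [mem_Pr (by positivity)]
  refine ⟨?_, hq.2⟩
  have h3 : q ≤ 2 ^ 2 ^ n :=
    hq.1.le.trans (Nat.lt_two_pow_self.le.trans Nat.lt_two_pow_self.le)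
  calc (q : ℝ) ≤ 2 ^ 2 ^ n := by exact_mod_cast h3
    _ ≤ x ^ 2 ^ n := by gcongr

end Mert

open Mert Pool.Agent.Lib.MP_9177b7_ag.EQ in
theorem mert : MertStmt := by
  obtain ⟨C, hC⟩ := Div.mertens
  have hC0 : 0 ≤ C := (abs_nonneg _).trans (hC 2 le_rfl).1
  refine ⟨fun B c₁ c₂ hc => ⟨B * (c₂ + 2 * c₂ * C + (1 + 2 * C) / c₁ * 2),
    fun c x b hB hx h1 h2 => ?_⟩, C, fun x hx => ?_⟩
  · have hB0 : 0 ≤ B := (abs_nonneg _).trans (hB 2 Nat.prime_two)
    have hl : Real.log 2 ≤ Real.log x := Real.log_le_log (by norm_num) hx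
    have hl2 := Real.log_two_gt_d9
    have hb : 0 < b := by
      by_contra hb
      nlinarith
    have hb2 : b ≤ 2 * c₂ := by nlinarith
    have hs : (1 : ℝ) < 1 + b := by linarith
    have s1 := summable_psum hB hs
    have s2 : Summable fun n : ℕ => if n.Prime then (n : ℝ) ^ (-(1 + b)) else 0 := by
      simpa using summable_psum (c := fun _ => 1) (B := 1) (fun _ _ => by simp) hs
    have t := total hC0 (fun x hx => (hC x hx).1) hx hb hc h1
    rw [← s2.sum_add_tsum_nat_add (⌊x⌋₊ + 1), sum_range_eq] at t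
    have e : tsumP c x = ∑ q ∈ Pr x, c q / q := rfl
    rw [psum, ← s1.sum_add_tsum_nat_add (⌊x⌋₊ + 1), sum_range_eq, e, add_sub_right_comm,
      ← sum_sub_distrib]
    have a1 : |∑ q ∈ Pr x, (c q * (q : ℝ) ^ (-(1 + b)) - c q / q)| ≤
        ∑ q ∈ Pr x, B * b * (Real.log q / q) := by
      refine (abs_sum_le_sum_abs _ _).trans (sum_le_sum fun q hq => ?_)
      have hp := ((mem_Pr (by linarith)).1 hq).2
      have h0 : (0 : ℝ) < q := by exact_mod_cast hp.pos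
      have hu : 0 ≤ b * Real.log q := mul_nonneg hb.le (Real.log_natCast_nonneg q)
      have h3 : |Real.exp (-(b * Real.log q)) - 1| ≤ b * Real.log q := by
        have h4 := Real.add_one_le_exp (-(b * Real.log q))
        have h5 : Real.exp (-(b * Real.log q)) ≤ 1 := Real.exp_le_one_iff.2 (by linarith)
        rw [abs_le]
        constructor <;> linarith
      rw [rpow_eq hp, show c q * (Real.exp (-(b * Real.log q)) * (1 / q)) - c q / q =
        c q * (Real.exp (-(b * Real.log q)) - 1) * (1 / q) by ring, abs_mul, abs_mul,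
        abs_of_pos (one_div_pos.2 h0),
        show B * b * (Real.log q / q) = B * (b * Real.log q) * (1 / q) by ring]
      gcongr
      exact hB q hp
    rw [← mul_sum] at a1
    have a2 : ∑ q ∈ Pr x, Real.log q / q ≤ Real.log x + C := by
      linarith [(abs_le.1 (hC x hx).2.1).2]
    have a3 : b * ∑ q ∈ Pr x, Real.log q / q ≤ c₂ + 2 * c₂ * C := by
      have := mul_le_mul_of_nonneg_left a2 hb.le
      have := mul_le_mul_of_nonneg_right hb2 hC0
      nlinarith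
    have a4 := tsum_of_norm_bounded
      (f := fun n : ℕ => if (n + (⌊x⌋₊ + 1)).Prime then
        c (n + (⌊x⌋₊ + 1)) * ((n + (⌊x⌋₊ + 1) : ℕ) : ℝ) ^ (-(1 + b)) else 0)
      (((summable_nat_add_iff (⌊x⌋₊ + 1)).2 s2).hasSum.mul_left B) fun n => by
        split_ifs with h
        · rw [norm_mul, Real.norm_eq_abs, Real.norm_of_nonneg (by positivity)]
          gcongr
          exact hB _ h
        · simp
    rw [Real.norm_eq_abs] at a4
    refine (abs_add_le _ _).trans ?_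
    have a5 := mul_le_mul_of_nonneg_left a3 hB0
    have a6 := mul_le_mul_of_nonneg_left (le_of_add_le_add_left t) hB0
    rw [mul_add B]
    rw [mul_assoc] at a1
    linarith
  · have e : tsumP (fun _ => 1) x = ∑ q ∈ Pr x, 1 / (q : ℝ) := rfl
    rw [e]
    linarith [(abs_le.1 (hC x hx).1).2]

end Pool.Agent.Lib.MP_9177b7_ag.B
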