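import Pool.Agent.Lib.MP_9177b7_ag.B.Lift

/-!
Moving a frame by a quotient of two primes above `p`.
-/

open NumberField Matrix Topology
open scoped nonZeroDivisors ComplexConjugate

noncomputable section

namespace Pool.Agent.Lib.MP_9177b7_ag.B

namespace Move

open Lift

variable {n p : ℕ} [Fact p.Prime] {c : Ctx p} {D : Dat n c}

/-- The diagonal entries of the rotation. -/
def dd (n : ℕ) (ζ : Units.torsion c.K) : Fin (n + 3) → c.K :=
  Function.update 1 2 ((ζ.1 : 𝓞 c.K) : c.K)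

theorem rot_eq (e : Fin (n + 3) → D.L) (ζ : Units.torsion c.K) (k : Fin (n + 3)) :
    D.rot e ζ k = algebraMap c.K D.L (dd n ζ k) * e k := by
  unfold Dat.rot dd
  by_cases h : k = 2
  · subst h
    simp
  · simp [h]

theorem tors_norm (ζ : Units.torsion c.K) :
    c.cj ((ζ.1 : 𝓞 c.K) : c.K) * ((ζ.1 : 𝓞 c.K) : c.K) = 1 := by
  have h := (Units.mem_torsion c.K).1 ζ.2 (InfinitePlace.mk (algebraMap c.K ℂ))
  rw [InfinitePlace.apply] at h
  apply (algebraMap c.K ℂ).injective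
  rw [map_mul, map_one]
  have e : algebraMap c.K ℂ (c.cj ((ζ.1 : 𝓞 c.K) : c.K)) =
      conj (algebraMap c.K ℂ ((ζ.1 : 𝓞 c.K) : c.K)) := c.cj_coe _
  rw [e, Complex.conj_mul']
  have h' : ‖algebraMap c.K ℂ ((ζ.1 : 𝓞 c.K) : c.K)‖ = 1 := h
  rw [h']
  simp

theorem two_ne : (2 : Fin (n + 3)) ≠ 0 ∧ (2 : Fin (n + 3)) ≠ 1 := by
  have e : ((2 : Fin (n + 3)) : ℕ) = 2 := Nat.mod_eq_of_lt (show 2 < n + 3 by omega)
  constructor <;> intro h <;> rw [h] at e <;> simp at e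

theorem uni_dd (ζ : Units.torsion c.K) : c.Uni (diagonal (dd n ζ)) := by
  unfold Ctx.Uni
  rw [diagonal_map (map_zero _), diagonal_transpose]
  ext i k
  rw [mul_diagonal, diagonal_mul]
  simp only [Jm, of_apply]
  split_ifs with h
  · by_cases hi : i = 2
    · subst hi
      rw [Equiv.swap_apply_of_ne_of_ne two_ne.1 two_ne.2] at h
      subst h
      simp only [dd, Function.update_self, mul_one, tors_norm]
    · have hk : k ≠ 2 := by
        rintro rfl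
        apply hi
        rw [eq_comm, Equiv.swap_apply_eq_iff, Equiv.swap_apply_of_ne_of_ne two_ne.1 two_ne.2] at h
        exact h
      simp [dd, hi, hk]
  · simp

theorem rot_fr (hF : FrameStmt) {a : D.FI} {e : Fin (n + 3) → D.L} (ζ : Units.torsion c.K)
    (h : D.Fr a e) : D.Fr a (D.rot e ζ) := by
  obtain ⟨-, -, -, -, -, -, -, -, -, f, -⟩ :=
    (hF n p c D).2.2.2.2.2.2.2.2.2.2.2.2.2.2.2.2.2.2 a e h
  have u := f (diagonal (dd n ζ)) (uni_dd ζ) fun i k => by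
    rw [diagonal_apply]
    split_ifs
    · unfold dd
      by_cases hi : i = 2
      · subst hi
        rw [Function.update_self]
        exact RingOfIntegers.isIntegral_coe _
      · rw [Function.update_of_ne hi]
        exact isIntegral_one
    · exact isIntegral_zero
  convert u using 1
  funext k
  rw [rot_eq, Finset.sum_eq_single k (fun i _ hi => by rw [diagonal_apply_ne _ hi]; simp)
    (by simp), diagonal_apply_eq]

theorem det_rot (e : Fin (n + 3) → D.L) (ζ : Units.torsion c.K) :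
    (D.Φm (D.rot e ζ)).det = (D.Φm e).det * algebraMap c.K ℂ ((ζ.1 : 𝓞 c.K) : c.K) := by
  have h : D.Φm (D.rot e ζ) = D.Φm e * diagonal fun k => algebraMap c.K ℂ (dd n ζ k) := by
    ext i k
    rw [mul_diagonal]
    change D.Φ i (D.rot e ζ k) = D.Φ i (e k) * _
    rw [rot_eq, map_mul, AlgHom.commutes, mul_comm]
  rw [h, det_mul, det_diagonal, ← map_prod, dd, Finset.prod_update_of_mem (Finset.mem_univ _)]
  simp

/-- The matrix of `u e` in the frame `e'`. -/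
def gm (D : Dat n c) (u : D.L) (e e' : Fin (n + 3) → D.L) :
    Matrix (Fin (n + 3)) (Fin (n + 3)) c.K :=
  Matrix.of fun r k => Algebra.trace c.K D.L (u * e k * D.du e' r)

variable {a a' : D.FI} {e e' : Fin (n + 3) → D.L} {u : D.L}

theorem gm_uni (hF : FrameStmt) (hu : u * D.bar u = 1) (h : D.Fr a e) (h' : D.Fr a' e') :
    c.Uni (gm D u e e') := by
  have f := (hF n p c D).2.2.2.2.2.2.2.2.2.2.2.2.2.2.2.2.2.2
  exact (f a' e' h').2.2.2.2.2.2.2.2.2.2 _ _ ((f a e h).2.2.2.2.2.2.2.2.1 u hu)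

theorem gm_sum (hF : FrameStmt) (h' : D.Fr a' e') (k : Fin (n + 3)) :
    u * e k = ∑ r, algebraMap c.K D.L (gm D u e e' r k) * e' r :=
  ((hF n p c D).2.2.2.2.2.2.2.2.2.2.2.2.2.2.2.2.2.2 a' e' h').2.2.1 _

theorem gm_Ψ (hF : FrameStmt) (h' : D.Fr a' e') :
    D.Ψm e' * (gm D u e e').map c.j = diagonal (fun r => D.ψ r u) * D.Ψm e := by
  ext r k
  rw [diagonal_mul, mul_apply]
  change _ = D.ψ r u * D.ψ r (e k)
  rw [← map_mul, gm_sum hF h', map_sum]
  refine Finset.sum_congr rfl fun s _ => ?_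
  rw [map_mul, D.ψ_j, mul_comm]
  rfl

theorem gm_Φ (hF : FrameStmt) (h' : D.Fr a' e') :
    D.Φm e' * (gm D u e e').map (algebraMap c.K ℂ) = diagonal (fun r => D.Φ r u) * D.Φm e := by
  ext r k
  rw [diagonal_mul, mul_apply]
  change _ = D.Φ r u * D.Φ r (e k)
  rw [← map_mul, gm_sum hF h', map_sum]
  refine Finset.sum_congr rfl fun s _ => ?_
  rw [map_mul, AlgHom.commutes, mul_comm]
  rfl

theorem gm_det (hF : FrameStmt) (hu : u * D.bar u = 1) (h : D.Fr a e) (h' : D.Fr a' e') :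
    c.cj (gm D u e e').det * (gm D u e e').det = 1 := by
  have j0 : (Jm n c.K).det ≠ 0 := left_ne_zero_of_mul_eq_one (b := (Jm n c.K).det)
    (by rw [← det_mul, Jm_sq, det_one])
  have v := congrArg det (gm_uni hF hu h h')
  rw [det_mul, det_mul, det_transpose, mul_right_comm, mul_eq_right₀ j0] at v
  rw [← v]
  congr 1
  exact RingEquiv.map_det c.cj _

theorem gm_RK (hF : FrameStmt) (h' : D.Fr a' e') (hm : ∀ k, (p : D.L) ^ 2 * (u * e k) ∈ a')
    (r k : Fin (n + 3)) : gm D u e e' r k ∈ c.RK := by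
  obtain ⟨-, -, -, f, -⟩ := (hF n p c D).2.2.2.2.2.2.2.2.2.2.2.2.2.2.2.2.2.2 a' e' h'
  obtain ⟨z, hz⟩ := (h'.2 _).1 (hm k)
  refine ⟨2, ?_⟩
  have e1 : (p : c.K) ^ 2 * gm D u e e' r k =
      Algebra.trace c.K D.L ((p : D.L) ^ 2 * (u * e k) * D.du e' r) := by
    rw [gm, of_apply, ← smul_eq_mul, ← map_smul, Algebra.smul_def, map_pow, map_natCast,
      mul_assoc ((p : D.L) ^ 2)]
  have e2 : ∀ i, Algebra.trace c.K D.L (algebraMap c.K D.L (z i) * e' i * D.du e' r) =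
      if r = i then (z i : c.K) else 0 := fun i => by
    rw [mul_assoc, ← Algebra.smul_def, map_smul, f, smul_eq_mul]
    split_ifs <;> simp
  rw [e1, hz, Finset.sum_mul, map_sum, Finset.sum_congr rfl fun i _ => e2 i,
    Finset.sum_ite_eq, if_pos (Finset.mem_univ _)]
  exact RingOfIntegers.isIntegral_coe _

theorem pp_ne (hP : PadStmt) (ψ : D.L →+* ℚ_[p]) : ((Pp ψ : Ideal (𝓞 D.L)) : D.FI) ≠ 0 := by
  rw [FractionalIdeal.coeIdeal_ne_zero]
  intro h
  have := ((hP D.L p).1 ψ).2.2.1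
  rw [h, Ideal.absNorm_bot] at this
  exact (Fact.out : p.Prime).ne_zero this.symm

theorem p_mem_quo (hP : PadStmt) (l i : Fin (n + 3)) : (p : D.L) ∈ D.quo l i := by
  have h1 : (p : D.L) ∈ ((Pp (D.ψ l) : Ideal (𝓞 D.L)) : D.FI) := by
    refine (FractionalIdeal.mem_coeIdeal _).2 ⟨p, ?_, map_natCast _ _⟩
    change ‖D.ψ l ((p : 𝓞 D.L) : D.L)‖ < 1
    rw [RingOfIntegers.coe_eq_algebraMap, map_natCast, map_natCast]
    exact Padic.norm_p_lt_one
  have h2 : (1 : D.L) ∈ ((Pp (D.ψ i) : Ideal (𝓞 D.L)) : D.FI)⁻¹ :=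
    (FractionalIdeal.mem_inv_iff (pp_ne hP _)).2 fun y hy => by
      rw [one_mul]
      exact FractionalIdeal.coeIdeal_le_one hy
  have := FractionalIdeal.mul_mem_mul h1 h2
  rwa [mul_one] at this

theorem cF_pp (hF : FrameStmt) (ψ : D.L →+* ℚ_[p]) :
    D.cF ((Pp ψ : Ideal (𝓞 D.L)) : D.FI) =
      ((Pp (ψ.comp (IsCMField.complexConj D.L : D.L →+* D.L)) : Ideal (𝓞 D.L)) : D.FI) := by
  obtain ⟨-, -, -, -, -, -, -, -, -, -, f11, -⟩ := hF n p c D
  ext x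
  rw [f11, FractionalIdeal.mem_coeIdeal, FractionalIdeal.mem_coeIdeal]
  constructor
  · rintro ⟨y, hy, e1⟩
    refine ⟨IsCMField.ringOfIntegersComplexConj D.L y, ?_, ?_⟩
    · change ‖ψ (IsCMField.complexConj D.L (IsCMField.complexConj D.L (y : D.L)))‖ < 1
      rw [IsCMField.complexConj_apply_apply]
      exact hy
    · change IsCMField.complexConj D.L (algebraMap _ _ y) = x
      rw [e1, Dat.bar, IsCMField.complexConj_apply_apply]
  · rintro ⟨y, hy, e1⟩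
    refine ⟨IsCMField.ringOfIntegersComplexConj D.L y, hy, ?_⟩
    rw [← e1]
    rfl

/-- The norm of the factor of a lift. -/
theorem norm_fac (hP : PadStmt) (hF : FrameStmt) (h : D.Fr a e) {g : HP n p}
    {t : Fin (n + 3) → ℚ_[p]} (hg : Intg g) (ht : g.1 = diagonal t * D.Ψm e) (r : Fin (n + 3))
    {w : ℝ} (h1 : ∀ x ∈ a, ‖D.ψ r x‖ ≤ w) (h2 : ∃ x ∈ a, ‖D.ψ r x‖ = w) : ‖t r‖ * w = 1 := by
  obtain ⟨-, he, -⟩ := (hF n p c D).2.2.2.2.2.2.2.2.2.2.2.2.2.2.2.2.2.2 a e h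
  obtain ⟨-, n1, k, n2⟩ := norm_t hg ht r
  apply le_antisymm
  · obtain ⟨x, hx, rfl⟩ := h2
    obtain ⟨z, rfl⟩ := (h.2 x).1 hx
    rw [← norm_mul, map_sum, Finset.mul_sum, ← PadicInt.mem_subring_iff]
    refine sum_mem fun i _ => ?_
    rw [map_mul, D.ψ_j, mul_left_comm]
    exact mul_mem (((hP c.K p).1 c.j).1 (z i)) (n1 i)
  · rw [← n2, norm_mul]
    exact mul_le_mul_of_nonneg_left (h1 _ (he k)) (norm_nonneg _)

theorem norm_m (hP : PadStmt) (hF : FrameStmt) {i l : Fin (n + 3)} (hu : u * D.bar u = 1)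
    (h : D.Fr a e)
    (h' : D.Fr (FractionalIdeal.spanSingleton _ u * D.quo l i * (D.cF (D.quo l i))⁻¹ * a) e')
    {g g' : HP n p} {t t' : Fin (n + 3) → ℚ_[p]} (hg : Intg g) (ht : g.1 = diagonal t * D.Ψm e)
    (hg' : Intg g') (ht' : g'.1 = diagonal t' * D.Ψm e') (r : Fin (n + 3)) :
    ‖(p : ℚ_[p]) ^ ((Pi.single i 1 - Pi.single l 1 : Fin (n + 3) → ℤ) r) * t r‖ =
      ‖t' r * D.ψ r u‖ := by
  obtain ⟨-, -, -, -, v, v1, v2, v3, v4⟩ := (hP D.L p).1 (D.ψ r)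
  obtain ⟨-, -, -, -, -, -, f7, -, -, -, -, -, -, -, -, -, -, -, f⟩ := hF n p c D
  have u0 : u ≠ 0 := left_ne_zero_of_mul_eq_one hu
  have a0 := (f a e h).1
  have a0' := (f _ e' h').1
  have s0 : (FractionalIdeal.spanSingleton (𝓞 D.L)⁰ u : D.FI) ≠ 0 :=
    FractionalIdeal.spanSingleton_ne_zero_iff.2 u0
  have w1 : v 1 = 0 := by
    have := v2 1 1 one_ne_zero one_ne_zero
    rw [one_mul] at this
    omega
  have wi : ∀ b : D.FI, b ≠ 0 → v b⁻¹ = -v b := fun b hb => by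
    have := v2 b b⁻¹ hb (inv_ne_zero hb)
    rw [mul_inv_cancel₀ hb, w1] at this
    omega
  have wp : ∀ s, v (Pp (D.ψ s) : Ideal (𝓞 D.L)) = (Pi.single s 1 : Fin (n + 3) → ℤ) r := fun s => by
    by_cases hs : r = s
    · subst hs
      rw [v3, Pi.single_eq_same]
    · rw [v4 _ fun e1 => hs (D.ψ_inj e1).symm, Pi.single_eq_of_ne hs]
  have wc : ∀ s, v (D.cF (Pp (D.ψ s) : Ideal (𝓞 D.L))) = 0 := fun s => by
    rw [cF_pp hF]
    refine v4 _ fun e1 => ?_
    obtain ⟨x, hx⟩ := f7 s r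
    exact hx (RingHom.congr_fun e1 x)
  have c0 : ∀ b : D.FI, b ≠ 0 → D.cF b ≠ 0 := fun b hb => (map_ne_zero D.cF).2 hb
  have q0 : D.quo l i ≠ 0 := mul_ne_zero (pp_ne hP _) (inv_ne_zero (pp_ne hP _))
  have wq : v (D.quo l i) = -(Pi.single i 1 - Pi.single l 1 : Fin (n + 3) → ℤ) r := by
    rw [Dat.quo, v2 _ _ (pp_ne hP _) (inv_ne_zero (pp_ne hP _)), wi _ (pp_ne hP _), wp, wp,
      Pi.sub_apply]
    ring
  have wq' : v (D.cF (D.quo l i)) = 0 := by
    rw [Dat.quo, map_mul, map_inv₀, v2 _ _ (c0 _ (pp_ne hP _)) (inv_ne_zero (c0 _ (pp_ne hP _))),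
      wi _ (c0 _ (pp_ne hP _)), wc, wc]
    rfl
  have wu : ‖D.ψ r u‖ = (p : ℝ) ^ (-v (FractionalIdeal.spanSingleton (𝓞 D.L)⁰ u)) := by
    refine ((v1 _ s0).1 u (FractionalIdeal.mem_spanSingleton_self _ _)).antisymm ?_
    obtain ⟨x, hx, e1⟩ := (v1 _ s0).2
    obtain ⟨z, rfl⟩ := (FractionalIdeal.mem_spanSingleton _).1 hx
    rw [← e1, Algebra.smul_def, map_mul, norm_mul]
    exact mul_le_of_le_one_left (norm_nonneg _) (((hP D.L p).1 (D.ψ r)).1 z)
  have n1 := norm_fac hP hF h hg ht r (v1 a a0).1 (v1 a a0).2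
  have n2 := norm_fac hP hF h' hg' ht' r (v1 _ a0').1 (v1 _ a0').2
  rw [v2 _ _ (mul_ne_zero (mul_ne_zero s0 q0) (inv_ne_zero (c0 _ q0))) a0,
    v2 _ _ (mul_ne_zero s0 q0) (inv_ne_zero (c0 _ q0)), v2 _ _ s0 q0, wi _ (c0 _ q0), wq,
    wq'] at n2
  have p0 : (p : ℝ) ≠ 0 := Nat.cast_ne_zero.2 (Fact.out : p.Prime).ne_zero
  rw [norm_mul, norm_mul, Padic.norm_p_zpow, wu, eq_inv_of_mul_eq_one_left n1,
    eq_inv_of_mul_eq_one_left n2, ← _root_.zpow_neg, ← _root_.zpow_neg,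
    ← zpow_add₀ p0, ← zpow_add₀ p0]
  congr 1
  ring

theorem p_part (hP : PadStmt) (hF : FrameStmt) {i l : Fin (n + 3)} {k : Fin (n + 3) → ℤ}
    (hk : ∑ r, k r = 0) (hk' : k = Pi.single i 1 - Pi.single l 1) (hu : u * D.bar u = 1)
    (h : D.Fr a e)
    (h' : D.Fr (FractionalIdeal.spanSingleton _ u * D.quo l i * (D.cF (D.quo l i))⁻¹ * a) e')
    {g g' : GG n p} (hg : D.IsLift e g) (hg' : D.IsLift e' g') :
    ∃ s : Fin (n + 3) → ℚ_[p], (∀ r, ‖s r‖ = 1) ∧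
      (dgp p k hk).1 * g.1.1 = diagonal s * (g'.1.1 * (gm D u e e').map c.j) := by
  obtain ⟨hi, t, -, ht, -⟩ := hg
  obtain ⟨hi', t', -, ht', -⟩ := hg'
  have u0 : u ≠ 0 := left_ne_zero_of_mul_eq_one hu
  have z : ∀ r, t' r * D.ψ r u ≠ 0 := fun r =>
    mul_ne_zero (norm_t hi' ht' r).1 ((map_ne_zero _).2 u0)
  refine ⟨fun r => (p : ℚ_[p]) ^ k r * t r / (t' r * D.ψ r u), fun r => ?_, ?_⟩
  · rw [norm_div, hk', norm_m hP hF hu h h' hi ht hi' ht' r, div_self (norm_ne_zero_iff.2 (z r))]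
  · change diagonal _ * _ = _
    rw [ht, ht', mul_assoc, gm_Ψ hF h', ← mul_assoc, ← mul_assoc, ← mul_assoc,
      diagonal_mul_diagonal, diagonal_mul_diagonal, diagonal_mul_diagonal]
    congr 2
    funext r
    rw [mul_assoc, div_mul_cancel₀ _ (z r)]

theorem r_part (hF : FrameStmt) (hu : u * D.bar u = 1) (h' : D.Fr a' e') {g g' : GG n p}
    (hg : D.IsLift e g) (hg' : D.IsLift e' g') :
    ∃ d : Fin (n + 3) → ℂ, g.2.1.1 =
      Pm n * diagonal d * Pm n * (g'.2.1.1 * (gm D u e e').map (algebraMap c.K ℂ)) := by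
  obtain ⟨-, -, t, -, ht, -⟩ := hg
  obtain ⟨-, -, t', -, ht', hn⟩ := hg'
  obtain ⟨-, -, -, -, -, -, -, -, -, -, -, -, -, -, -, l0, -⟩ := hF n p c D
  have u0 : u ≠ 0 := left_ne_zero_of_mul_eq_one hu
  have z : ∀ r, t' r * D.Φ r u ≠ 0 := fun r => by
    refine mul_ne_zero (fun h0 => ?_) ((map_ne_zero _).2 u0)
    have := hn r
    rw [h0, norm_zero, zero_pow two_ne_zero, eq_comm, norm_eq_zero, map_eq_zero] at this
    exact l0 this
  refine ⟨fun r => t r / (t' r * D.Φ r u), ?_⟩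
  rw [ht, ht', mul_assoc _ (D.Φm e'), gm_Φ hF h']
  simp only [mul_assoc]
  rw [← mul_assoc (Pm n) (Pm n), Pm_sq, one_mul, ← mul_assoc (diagonal t'),
    ← mul_assoc (diagonal fun r => t r / (t' r * D.Φ r u)), diagonal_mul_diagonal,
    diagonal_mul_diagonal]
  congr 3
  funext r
  rw [div_mul_cancel₀ _ (z r)]

theorem mem_tw (hP : PadStmt) (hF : FrameStmt) {i l : Fin (n + 3)} {x : D.L} (hx : x ∈ a) :
    (p : D.L) ^ 2 * (u * x) ∈
      FractionalIdeal.spanSingleton _ u * D.quo l i * (D.cF (D.quo l i))⁻¹ * a := by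
  obtain ⟨-, -, -, -, -, -, -, -, -, -, f11, -⟩ := hF n p c D
  have h1 : (p : D.L) ∈ (D.cF (D.quo l i))⁻¹ := by
    have e1 : (D.quo l i)⁻¹ = D.quo i l := by
      rw [Dat.quo, _root_.mul_inv_rev, inv_inv, Dat.quo]
    rw [← map_inv₀, e1, f11, Dat.bar, map_natCast]
    exact p_mem_quo hP i l
  have := FractionalIdeal.mul_mem_mul (FractionalIdeal.mul_mem_mul (FractionalIdeal.mul_mem_mul
    (FractionalIdeal.mem_spanSingleton_self (𝓞 D.L)⁰ u) (p_mem_quo hP l i)) h1) hx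
  convert this using 1
  ring

theorem tors (D : Dat n c) (hF : FrameStmt) {x : c.K} (hx : IsIntegral ℤ x)
    (h : c.cj x * x = 1) : ∃ η : Units.torsion c.K, ((η.1 : 𝓞 c.K) : c.K) = x := by
  have hx' : IsIntegral ℤ (c.cj x) := hx.map c.cj.toRingHom.toIntAlgHom
  obtain ⟨m, m0, hm⟩ := Embeddings.pow_eq_one_of_norm_eq_one D.L ℂ
    (hx.map (algebraMap c.K D.L).toIntAlgHom) fun φ => by
      have e1 : D.bar (algebraMap c.K D.L x) * algebraMap c.K D.L x = 1 := by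
        rw [(hF n p c D).1, ← map_mul, h, map_one]
      have e2 := congrArg φ e1
      rw [map_mul, Dat.bar, IsCMField.complexEmbedding_complexConj, map_one, Complex.conj_mul',
        ← Complex.ofReal_pow, Complex.ofReal_eq_one] at e2
      exact (pow_eq_one_iff_of_nonneg (norm_nonneg _) two_ne_zero).1 e2
  have hm' : x ^ m = 1 := (algebraMap c.K D.L).injective (by rw [map_pow, map_one]; exact hm)
  refine ⟨⟨⟨⟨x, hx⟩, ⟨c.cj x, hx'⟩, RingOfIntegers.ext ?_, RingOfIntegers.ext ?_⟩,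
    isOfFinOrder_iff_pow_eq_one.2 ⟨m, m0, Units.ext (RingOfIntegers.ext ?_)⟩⟩, rfl⟩
  · exact (mul_comm _ _).trans h
  · exact h
  · rw [Units.val_pow_eq_pow_val, RingOfIntegers.coe_eq_algebraMap, map_pow]
    exact hm'

end Move

open Move Lift in
theorem move : PadStmt → DiscStmt → FrameStmt → LiftStmt → MoveStmt := by
  intro hP hD hF hL n p _ c D
  refine ⟨fun a e ζ h => rot_fr hF ζ h, fun i l a e e' u k hk _ hk' hu h h' => ?_⟩
  have f := (hF n p c D).2.2.2.2.2.2.2.2.2.2.2.2.2.2.2.2.2.2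
  obtain ⟨g0, hg0⟩ := ((hL n p).2 c D _ e h).1
  obtain ⟨g0', hg0'⟩ := ((hL n p).2 c D _ e' h').1
  obtain ⟨s0, hs0, e0⟩ := p_part hP hF hk hk' hu h h' hg0 hg0'
  have R0 := gm_RK hF h' fun k => mem_tw hP hF (u := u) (i := i) (l := l) ((f a e h).2.1 k)
  have d0 := gm_det hF hu h h'
  have dR : (gm D u e e').det ∈ c.RK := by
    rw [det_apply']
    exact sum_mem fun σ _ => mul_mem (intCast_mem _ _) (prod_mem fun r _ => R0 _ _)
  have n1 : ‖c.j (gm D u e e').det‖ = 1 := by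
    have v := congrArg (fun A => ‖det A‖) e0
    simp only [det_mul, (dgp p k hk).2, g0.1.2, g0'.1.2, one_mul, norm_one, det_diagonal, norm_mul,
      norm_prod, hs0, Finset.prod_const_one] at v
    rw [RingHom.map_det]
    exact v.symm
  have n2 : ‖c.j (c.cj (gm D u e e').det)‖ = 1 := by
    have v := congrArg (fun x => ‖c.j x‖) d0
    simpa only [map_mul, norm_mul, n1, mul_one, map_one, norm_one] using v
  obtain ⟨η, hη⟩ := tors D hF ((hD n p c).1 _ dR n1.le n2.le) d0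
  refine ⟨η, fun ζ g g' hg hg' => ?_⟩
  have r := rot_fr hF ζ h
  have r' := rot_fr hF (ζ * η) h'
  have R1 := gm_RK hF r' fun k => mem_tw hP hF (u := u) (i := i) (l := l) ((f a _ r).2.1 k)
  have d1 : (gm D u (D.rot e ζ) (D.rot e' (ζ * η))).det = 1 := by
    have v0 := congrArg det (gm_Φ (u := u) (e := e) hF h')
    have v1 := congrArg det (gm_Φ (u := u) (e := D.rot e ζ) hF r')
    rw [det_mul, det_mul, ← RingHom.mapMatrix_apply, ← RingHom.map_det, ← hη] at v0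
    rw [det_mul, det_mul, ← RingHom.mapMatrix_apply, ← RingHom.map_det, det_rot, det_rot,
      ← mul_assoc, ← v0] at v1
    have y0 : (D.Φm e').det ≠ 0 := right_ne_zero_of_mul_eq_one (a := (D.Φm (D.du e'))ᵀ.det)
      (by rw [← det_mul, (f _ e' h').2.2.2.2.2.2.1, det_one])
    have z0 : algebraMap c.K ℂ (((ζ * η).1 : 𝓞 c.K) : c.K) ≠ 0 :=
      (map_ne_zero _).2 (right_ne_zero_of_mul_eq_one (tors_norm (ζ * η)))
    have e1 : algebraMap c.K ℂ (((ζ * η).1 : 𝓞 c.K) : c.K) =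
        algebraMap c.K ℂ ((η.1 : 𝓞 c.K) : c.K) * algebraMap c.K ℂ ((ζ.1 : 𝓞 c.K) : c.K) := by
      rw [← map_mul, mul_comm]
      rfl
    rw [mul_assoc _ (algebraMap c.K ℂ ((η.1 : 𝓞 c.K) : c.K)), ← e1,
      mul_eq_left₀ (mul_ne_zero y0 z0)] at v1
    exact (algebraMap c.K ℂ).injective (v1.trans (map_one _).symm)
  obtain ⟨G, hG, G1, G2⟩ := (hD n p c).2.2.2.1 _ R1 (gm_uni hF hu r r') d1
  obtain ⟨s, hs, e1⟩ := p_part hP hF hk hk' hu r r' hg hg'
  obtain ⟨d, e2⟩ := r_part hF hu r' hg hg'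
  refine ⟨(dgp p k hk, 1) * g * (g' * G)⁻¹, mem_M0 (s := s) (d := d) ?_ (fun r => (hs r).le) ?_,
    G, hG, by group⟩
  · have i1 : g'.1.1 * G.1.1 * (g' * G)⁻¹.1.1 = 1 :=
      congrArg (fun x : GG n p => x.1.1) (mul_inv_cancel (g' * G))
    change (dgp p k hk).1 * g.1.1 * (g' * G)⁻¹.1.1 = _
    rw [e1, ← G1, mul_assoc, i1, mul_one]
  · have i2 : g'.2.1.1 * G.2.1.1 * (g' * G)⁻¹.2.1.1 = 1 :=
      congrArg (fun x : GG n p => x.2.1.1) (mul_inv_cancel (g' * G))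
    change 1 * g.2.1.1 * (g' * G)⁻¹.2.1.1 = _
    rw [one_mul, e2, ← G2, mul_assoc, i2, mul_one]

end Pool.Agent.Lib.MP_9177b7_ag.B
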