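import Pool.Agent.Lib.MP_9177b7_ag.B.St

/-!
Neighbouring lattices.
-/

open NumberField Matrix
open scoped nonZeroDivisors ComplexConjugate

noncomputable section

namespace Pool.Agent.Lib.MP_9177b7_ag.B

namespace NbrAux

section General

variable {L : Type} [Field L]

theorem int_mul_mem {a : FractionalIdeal (𝓞 L)⁰ L} (r : 𝓞 L) {x : L} (hx : x ∈ a) :
    (r : L) * x ∈ a := by
  have := (a : Submodule (𝓞 L) L).smul_mem r hx
  rwa [Algebra.smul_def] at this

theorem add_mem' {a : FractionalIdeal (𝓞 L)⁰ L} {x y : L} (hx : x ∈ a) (hy : y ∈ a) :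
    x + y ∈ a := (a : Submodule (𝓞 L) L).add_mem hx hy

theorem sub_mem' {a : FractionalIdeal (𝓞 L)⁰ L} {x y : L} (hx : x ∈ a) (hy : y ∈ a) :
    x - y ∈ a := (a : Submodule (𝓞 L) L).sub_mem hx hy

theorem sum_mem' {a : FractionalIdeal (𝓞 L)⁰ L} {ι : Type} (s : Finset ι) (f : ι → L)
    (h : ∀ i ∈ s, f i ∈ a) : ∑ i ∈ s, f i ∈ a := (a : Submodule (𝓞 L) L).sum_mem h

theorem mem_ba {a : FractionalIdeal (𝓞 L)⁰ L} {b : Ideal (𝓞 L)} {β : 𝓞 L} (hβ : β ∈ b) {x : L}
    (hx : x ∈ a) : (β : L) * x ∈ (b : FractionalIdeal (𝓞 L)⁰ L) * a :=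
  FractionalIdeal.mul_mem_mul (FractionalIdeal.mem_coeIdeal_of_mem _ hβ) hx

variable [NumberField L]

theorem ba_le (a : FractionalIdeal (𝓞 L)⁰ L) (b : Ideal (𝓞 L)) :
    (b : FractionalIdeal (𝓞 L)⁰ L) * a ≤ a := by
  calc (b : FractionalIdeal (𝓞 L)⁰ L) * a ≤ 1 * a := by
        gcongr
        exact FractionalIdeal.coeIdeal_le_one
    _ = a := one_mul a

/-- Modulo `b a` the lattice `a` is cyclic. -/
theorem exists_gen {a : FractionalIdeal (𝓞 L)⁰ L} (ha : a ≠ 0) {b : Ideal (𝓞 L)} (hb : b ≠ ⊥)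
    (hc : Cyc b) : ∃ a0 ∈ a, ∀ x ∈ a, ∃ z : ℤ,
      x - z * a0 ∈ (b : FractionalIdeal (𝓞 L)⁰ L) * a := by
  have hb0 : (b : FractionalIdeal (𝓞 L)⁰ L) ≠ 0 := FractionalIdeal.coeIdeal_ne_zero.2 hb
  obtain ⟨a0, h0⟩ := IsDedekindDomain.exists_add_spanSingleton_mul_eq (ba_le a b)
    (mul_ne_zero hb0 ha) (one_ne_zero (α := FractionalIdeal (𝓞 L)⁰ L))
  rw [mul_one] at h0
  have ha0 : a0 ∈ a := by
    rw [← h0]
    exact (FractionalIdeal.mem_add _ _ _).2 ⟨0, FractionalIdeal.zero_mem _, a0,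
      FractionalIdeal.mem_spanSingleton_self _ _, zero_add _⟩
  refine ⟨a0, ha0, fun x hx => ?_⟩
  rw [← h0] at hx
  obtain ⟨u, hu, w, hw, rfl⟩ := (FractionalIdeal.mem_add _ _ _).1 hx
  obtain ⟨r, rfl⟩ := (FractionalIdeal.mem_spanSingleton _).1 hw
  obtain ⟨z, hz⟩ := hc r
  refine ⟨z, ?_⟩
  have e : u + r • a0 - z * a0 = u + ((r - z : 𝓞 L) : L) * a0 := by
    rw [Algebra.smul_def, RingOfIntegers.coe_eq_algebraMap, map_sub, map_intCast]
    ring
  rw [e]
  exact add_mem' hu (mem_ba hz ha0)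

end General

variable {n p : ℕ} [Fact p.Prime] {c : Ctx p}

theorem cj_cj (x : c.K) : c.cj (c.cj x) = x := by
  apply Subtype.val_injective
  rw [c.cj_coe, c.cj_coe, Complex.conj_conj]

theorem cjO_coe (x : 𝓞 c.K) : ((c.cjO x : 𝓞 c.K) : c.K) = c.cj x := rfl

theorem coe_alg (D : Dat n c) (x : 𝓞 c.K) :
    ((algebraMap (𝓞 c.K) (𝓞 D.L) x : 𝓞 D.L) : D.L) = algebraMap c.K D.L x := rfl

theorem K_mul_mem (D : Dat n c) {a : D.FI} (r : 𝓞 c.K) {x : D.L} (hx : x ∈ a) :
    algebraMap c.K D.L r * x ∈ a := by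
  rw [← coe_alg]
  exact int_mul_mem _ hx

/-- The ideal below `b` is prime to its conjugate and to `2`. -/
theorem below (D : Dat n c) {b : Ideal (𝓞 D.L)} (hc : Cyc b)
    (hm : (Ideal.absNorm b).Coprime c.m0) :
    Cyc (b.comap (algebraMap (𝓞 c.K) (𝓞 D.L))) ∧
    b.comap (algebraMap (𝓞 c.K) (𝓞 D.L)) ⊔
      (b.comap (algebraMap (𝓞 c.K) (𝓞 D.L))).map c.cjO = ⊤ ∧
    b.comap (algebraMap (𝓞 c.K) (𝓞 D.L)) ⊔ Ideal.span {2} = ⊤ := by
  set m := b.comap (algebraMap (𝓞 c.K) (𝓞 D.L)) with hmd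
  have h1 : Cyc m := by
    intro x
    obtain ⟨z, hz⟩ := hc (algebraMap _ _ x)
    refine ⟨z, ?_⟩
    rw [hmd, Ideal.mem_comap, map_sub, map_intCast]
    exact hz
  have hN : ((Ideal.absNorm b : ℕ) : 𝓞 c.K) ∈ m := by
    rw [hmd, Ideal.mem_comap, map_natCast]
    exact Ideal.absNorm_mem b
  have h0 : ((c.m0 : ℕ) : 𝓞 c.K) ∈ Ideal.span {2 * c.δ} := Ideal.absNorm_mem _
  have h2 : m ⊔ Ideal.span {2 * c.δ} = ⊤ := by
    obtain ⟨u, v, huv⟩ := (Nat.isCoprime_iff_coprime.2 hm).map (Int.castRingHom (𝓞 c.K))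
    rw [Ideal.eq_top_iff_one, ← huv]
    simp only [eq_intCast, Int.cast_natCast]
    exact Ideal.add_mem _ (Ideal.mem_sup_left (m.mul_mem_left _ hN))
      (Ideal.mem_sup_right (Ideal.mul_mem_left _ _ h0))
  refine ⟨h1, ?_, ?_⟩
  · rw [eq_top_iff, ← h2]
    refine sup_le le_sup_left ?_
    rw [Ideal.span_singleton_le_iff_mem]
    obtain ⟨z, hz⟩ := h1 c.δ
    have h3 : c.cjO (c.δ - z) ∈ m.map c.cjO := Ideal.mem_map_of_mem _ hz
    have h4 : c.cjO c.δ = -c.δ := by
      apply RingOfIntegers.ext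
      rw [cjO_coe, c.δ_cj]
      rfl
    rw [map_sub, map_intCast, h4] at h3
    have e : 2 * c.δ = (c.δ - z) - (-c.δ - z) := by ring
    rw [e]
    exact Ideal.sub_mem _ (Ideal.mem_sup_left hz) (Ideal.mem_sup_right h3)
  · rw [eq_top_iff, ← h2]
    refine sup_le_sup_left ?_ _
    rw [Ideal.span_singleton_le_iff_mem]
    exact Ideal.mul_mem_right _ _ (Ideal.mem_span_singleton_self _)

/-- The first coordinate of an element of `b a`. -/
theorem key (D : Dat n c) {a : D.FI} {f : Fin (n + 3) → D.L} (hf : D.Fr a f) (ha : a ≠ 0)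
    (hdu : ∀ i k, Algebra.trace c.K D.L (f k * D.du f i) = if i = k then 1 else 0)
    {b : Ideal (𝓞 D.L)} (hfb : ∀ k, k ≠ 0 → f k ∈ (b : D.FI) * a) {x : D.L}
    (hx : x ∈ (b : D.FI) * a) :
    ∃ c0 ∈ b.comap (algebraMap (𝓞 c.K) (𝓞 D.L)),
      Algebra.trace c.K D.L (x * D.du f 0) = (c0 : c.K) := by
  obtain ⟨u, hu⟩ := (hf.2 x).1 (ba_le a b hx)
  refine ⟨u 0, ?_, ?_⟩
  · have h1 : algebraMap c.K D.L (u 0) * f 0 ∈ (b : D.FI) * a := by
      have e : algebraMap c.K D.L (u 0) * f 0 =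
          x - ∑ i ∈ Finset.univ.erase 0, algebraMap c.K D.L (u i) * f i := by
        rw [hu, ← Finset.add_sum_erase _ _ (Finset.mem_univ 0)]
        ring
      rw [e]
      exact sub_mem' hx (sum_mem' _ _ fun i hi => K_mul_mem D _ (hfb i (Finset.ne_of_mem_erase hi)))
    have h2 : FractionalIdeal.spanSingleton _ (algebraMap c.K D.L (u 0)) * a ≤ (b : D.FI) * a := by
      rw [FractionalIdeal.spanSingleton_mul_le_iff]
      intro w hw
      obtain ⟨d, rfl⟩ := (hf.2 w).1 hw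
      rw [Finset.mul_sum]
      refine sum_mem' _ _ fun i _ => ?_
      by_cases hi : i = 0
      · subst hi
        rw [mul_left_comm]
        exact K_mul_mem D _ h1
      · exact K_mul_mem D _ (K_mul_mem D _ (hfb i hi))
    have h3 : FractionalIdeal.spanSingleton _ (algebraMap c.K D.L (u 0)) ≤ (b : D.FI) := by
      calc FractionalIdeal.spanSingleton _ (algebraMap c.K D.L (u 0))
          = FractionalIdeal.spanSingleton _ (algebraMap c.K D.L (u 0)) * a * a⁻¹ := by
            rw [mul_assoc, mul_inv_cancel₀ ha, mul_one]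
        _ ≤ (b : D.FI) * a * a⁻¹ := by gcongr
        _ = b := by rw [mul_assoc, mul_inv_cancel₀ ha, mul_one]
    rw [FractionalIdeal.spanSingleton_le_iff_mem, ← coe_alg] at h3
    obtain ⟨β, hβ, e⟩ := (FractionalIdeal.mem_coeIdeal _).1 h3
    rw [Ideal.mem_comap, ← RingOfIntegers.ext e]
    exact hβ
  · rw [hu, Finset.sum_mul, map_sum]
    have e : ∀ i, Algebra.trace c.K D.L (algebraMap c.K D.L (u i) * f i * D.du f 0) =
        (u i : c.K) * if 0 = i then 1 else 0 := by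
      intro i
      rw [mul_assoc, ← Algebra.smul_def, map_smul, hdu, smul_eq_mul]
    simp only [e, mul_ite, mul_one, mul_zero, Finset.sum_ite_eq, Finset.mem_univ, if_true]

end NbrAux

open NbrAux in
theorem nbr : FrameStmt → TransStmt → NbrStmt := by
  intro hF hT n p _ c D a e b he hb hc hm hpr
  obtain ⟨fr1, fr2, -, -, -, -, -, -, -, -, -, fr12, -, fr14, -, -, -, crit, blk⟩ := hF n p c D
  obtain ⟨hm1, hm2, hm3⟩ := below D hc hm
  set m := b.comap (algebraMap (𝓞 c.K) (𝓞 D.L)) with hmd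
  obtain ⟨ha, hea, -, -, -, -, -, -, -, hγ, -⟩ := blk a e he
  obtain ⟨a0, ha0, hgen⟩ := exists_gen ha hb hc
  choose z hz using fun i => hgen (e i) (hea i)
  obtain ⟨γ, hγu, hγm⟩ := hT n p c m (fun i => (z i : 𝓞 c.K)) hm1 hm2 hm3
  set f : Fin (n + 3) → D.L := fun k =>
    ∑ i, algebraMap c.K D.L ((γ.map (algebraMap _ c.K)) i k) * e i with hfd
  have hf : D.Fr a f := hγ _ hγu fun i k => (γ i k).isIntegral_coe
  have hfb : ∀ k, k ≠ 0 → f k ∈ (b : D.FI) * a := by
    intro k hk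
    have h1 : f k = ∑ i, algebraMap c.K D.L (γ i k) * (e i - z i * a0) +
        ((algebraMap (𝓞 c.K) (𝓞 D.L) (∑ i, (z i : 𝓞 c.K) * γ i k) : 𝓞 D.L) : D.L) * a0 := by
      rw [coe_alg, RingOfIntegers.coe_eq_algebraMap, map_sum, map_sum, Finset.sum_mul,
        ← Finset.sum_add_distrib]
      refine Finset.sum_congr rfl fun i _ => ?_
      rw [map_mul, map_mul, map_intCast, map_intCast, Matrix.map_apply,
        RingOfIntegers.coe_eq_algebraMap]
      ring
    rw [h1]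
    exact add_mem' (sum_mem' _ _ fun i _ => K_mul_mem D _ (hz i))
      (mem_ba (Ideal.mem_comap.1 (hγm k hk)) ha0)
  obtain ⟨-, hfa, hexp, hdu, hAd, -⟩ := blk a f hf
  obtain ⟨y, hy⟩ := hpr.principal
  have hy' : m = Ideal.span {y} := hy
  have hym : y ∈ m := by rw [hy']; exact Ideal.mem_span_singleton_self y
  have hyb : algebraMap (𝓞 c.K) (𝓞 D.L) y ∈ b := hym
  have hy0 : (y : c.K) ≠ 0 := by
    intro h
    have h0 : y = 0 := RingOfIntegers.ext h
    have hN : ((Ideal.absNorm b : ℕ) : 𝓞 c.K) ∈ m := by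
      rw [hmd, Ideal.mem_comap, map_natCast]
      exact Ideal.absNorm_mem b
    rw [hy', h0, Ideal.span_singleton_eq_bot.2 rfl, Ideal.mem_bot, Nat.cast_eq_zero,
      Ideal.absNorm_eq_zero_iff] at hN
    exact hb hN
  have hyc0 : c.cj y ≠ 0 := by rwa [Ne, map_eq_zero]
  obtain ⟨α, β', hαβ⟩ : ∃ α β' : 𝓞 c.K, α * y + β' * c.cjO y = 1 := by
    rw [hy', Ideal.map_span, Set.image_singleton, ← Ideal.span_insert, Ideal.eq_top_iff_one,
      Ideal.mem_span_pair] at hm2
    exact hm2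
  have hαβ' : algebraMap c.K D.L α * algebraMap c.K D.L y +
      algebraMap c.K D.L β' * algebraMap c.K D.L (c.cj y) = 1 := by
    have h := congrArg (fun x : 𝓞 c.K => algebraMap c.K D.L (algebraMap (𝓞 c.K) c.K x)) hαβ
    simp only [map_add, map_mul, map_one] at h
    exact h
  have hb0 : (b : D.FI) ≠ 0 := FractionalIdeal.coeIdeal_ne_zero.2 hb
  have hbc0 : ((D.cI b : Ideal (𝓞 D.L)) : D.FI) ≠ 0 := by
    rw [← fr12]
    rwa [Ne, map_eq_zero]
  have h01 : (1 : Fin (n + 3)) ≠ 0 := by simp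
  set s : Fin (n + 3) → c.K := fun k => if k = 0 then y else if k = 1 then (c.cj y)⁻¹ else 1
    with hs
  have hle : (b : D.FI) * a ≤ b * ((D.cI b : Ideal (𝓞 D.L)) : D.FI)⁻¹ * a := by
    calc (b : D.FI) * a = b * (((D.cI b : Ideal (𝓞 D.L)) : D.FI) *
          ((D.cI b : Ideal (𝓞 D.L)) : D.FI)⁻¹) * a := by rw [mul_inv_cancel₀ hbc0, mul_one]
      _ ≤ b * (1 * ((D.cI b : Ideal (𝓞 D.L)) : D.FI)⁻¹) * a := by
          gcongr
          exact FractionalIdeal.coeIdeal_le_one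
      _ = _ := by rw [one_mul]
  have hmem1 : algebraMap c.K D.L (c.cj y)⁻¹ * f 1 ∈
      b * ((D.cI b : Ideal (𝓞 D.L)) : D.FI)⁻¹ * a := by
    have h1 : FractionalIdeal.spanSingleton _ (algebraMap c.K D.L (c.cj y)⁻¹ * f 1) *
        ((D.cI b : Ideal (𝓞 D.L)) : D.FI) ≤ (b : D.FI) * a := by
      rw [FractionalIdeal.spanSingleton_mul_le_iff]
      intro w hw
      obtain ⟨w', hw', rfl⟩ := (FractionalIdeal.mem_coeIdeal _).1 hw
      obtain ⟨β, hβ, rfl⟩ := (Ideal.mem_map_of_equiv _ _).1 hw'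
      set t : D.L := algebraMap c.K D.L (c.cj y)⁻¹ * f 1 * D.bar β with ht
      change t ∈ _
      have hta : t ∈ a := by
        rw [hexp t]
        refine sum_mem' _ _ fun k _ => ?_
        obtain ⟨c0, hc0, hc1⟩ := key D hf ha hdu hfb (mem_ba hβ (hfa (Equiv.swap 0 1 k)))
        rw [← hmd, hy', Ideal.mem_span_singleton'] at hc0
        obtain ⟨c1, rfl⟩ := hc0
        have h2 : D.bar (t * D.du f k) =
            algebraMap c.K D.L (y : c.K)⁻¹ * ((β : D.L) * f (Equiv.swap 0 1 k) * D.du f 0) := by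
          rw [ht, Dat.du, Dat.du, Equiv.swap_apply_left]
          simp only [Dat.bar, map_mul, IsCMField.complexConj_apply_apply, D.sp.real]
          rw [show IsCMField.complexConj D.L (algebraMap c.K D.L (c.cj y)⁻¹) =
            algebraMap c.K D.L (y : c.K)⁻¹ by
              have := fr1 (c.cj y)⁻¹
              rw [map_inv₀ c.cj, cj_cj] at this
              exact this]
          ring
        have h3 : Algebra.trace c.K D.L (t * D.du f k) = (c.cjO c1 : 𝓞 c.K) := by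
          rw [← cj_cj (Algebra.trace c.K D.L (t * D.du f k)), ← fr2, h2, ← Algebra.smul_def,
            map_smul, hc1, cjO_coe, smul_eq_mul]
          congr 1
          push_cast
          field_simp
        rw [h3]
        exact K_mul_mem D _ (hfa k)
      have h4 : algebraMap c.K D.L (c.cj y) * t =
          ((IsCMField.ringOfIntegersComplexConj D.L β : 𝓞 D.L) : D.L) * f 1 := by
        rw [ht, map_inv₀, IsCMField.coe_ringOfIntegersComplexConj]
        have : algebraMap c.K D.L (c.cj y) ≠ 0 := by rwa [Ne, map_eq_zero]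
        field_simp
      have h5 : t = algebraMap c.K D.L α * (algebraMap c.K D.L y * t) +
          algebraMap c.K D.L β' * (algebraMap c.K D.L (c.cj y) * t) := by
        linear_combination (-t) * hαβ'
      rw [h5, h4]
      refine add_mem' (K_mul_mem D _ ?_) (K_mul_mem D _ (int_mul_mem _ (hfb 1 h01)))
      rw [← coe_alg]
      exact mem_ba hyb hta
    rw [← FractionalIdeal.spanSingleton_le_iff_mem]
    calc FractionalIdeal.spanSingleton _ (algebraMap c.K D.L (c.cj y)⁻¹ * f 1)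
        = FractionalIdeal.spanSingleton _ (algebraMap c.K D.L (c.cj y)⁻¹ * f 1) *
          ((D.cI b : Ideal (𝓞 D.L)) : D.FI) * ((D.cI b : Ideal (𝓞 D.L)) : D.FI)⁻¹ := by
            rw [mul_assoc, mul_inv_cancel₀ hbc0, mul_one]
      _ ≤ (b : D.FI) * a * ((D.cI b : Ideal (𝓞 D.L)) : D.FI)⁻¹ := by gcongr
      _ = _ := by ring
  refine ⟨fun k => algebraMap c.K D.L (s k) * f k, crit _ _ (fun i j => ?_) (fun k => ?_) ?_⟩
  · have h1 : D.lam * (algebraMap c.K D.L (s i) * f i) * D.bar (algebraMap c.K D.L (s j) * f j) =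
        (s i * c.cj (s j)) • (D.lam * f i * D.bar (f j)) := by
      rw [Algebra.smul_def, map_mul, ← fr1]
      simp only [Dat.bar, map_mul]
      ring
    rw [h1, map_smul, hf.1 i j, smul_eq_mul, Jm, Matrix.of_apply]
    split_ifs with hj
    · rw [mul_one, hj]
      by_cases hi0 : i = 0
      · subst hi0
        simp only [hs, Equiv.swap_apply_left, if_true, if_neg h01, map_inv₀, cj_cj]
        exact mul_inv_cancel₀ hy0
      · by_cases hi1 : i = 1
        · subst hi1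
          simp only [hs, Equiv.swap_apply_right, if_true, if_neg h01]
          exact inv_mul_cancel₀ hyc0
        · rw [Equiv.swap_apply_of_ne_of_ne hi0 hi1]
          simp only [hs, if_neg hi0, if_neg hi1, map_one, mul_one]
    · rw [mul_zero]
  · by_cases hk0 : k = 0
    · subst hk0
      simp only [hs, if_true]
      rw [← coe_alg]
      exact hle (mem_ba hyb (hfa 0))
    · by_cases hk1 : k = 1
      · subst hk1
        simp only [hs, if_true, if_neg h01]
        exact hmem1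
      · simp only [hs, if_neg hk0, if_neg hk1, map_one, one_mul]
        exact hle (hfb k hk0)
  · rw [← hAd, map_mul, map_mul, map_inv₀, fr12, ← fr12 b, fr14]
    have h1 : D.cF (b : D.FI) ≠ 0 := by rwa [Ne, map_eq_zero]
    apply le_of_eq
    field_simp

end Pool.Agent.Lib.MP_9177b7_ag.B
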