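import Pool.Agent.Lib.MP_9177b7_ag.B.St

/-!
The mean over the orbit of a CM point is the mean over the admissible ideal classes.
-/

open NumberField Matrix
open scoped nonZeroDivisors ComplexConjugate

noncomputable section

namespace Pool.Agent.Lib.MP_9177b7_ag.B

namespace Orb

/-- A map all of whose nonempty fibres have the same size transports means. -/
theorem mean_range {X Y : Type} [Fintype X] (π : X → Y) (A : ℕ) (hA : A ≠ 0)
    (h : ∀ x, Nat.card {y // π y = π x} = A) (f : Y → ℝ) :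
    mean (Set.range π) f = (∑ x, f (π x)) / Fintype.card X := by
  classical
  have e : Set.range π = (Finset.univ.image π : Finset Y) := by simp
  have hf : ∀ o ∈ Finset.univ.image π, (Finset.univ.filter fun y => π y = o).card = A := by
    intro o ho
    obtain ⟨x, -, rfl⟩ := Finset.mem_image.1 ho
    rw [← h x, Nat.card_eq_fintype_card, Fintype.card_subtype]
  have h1 : ∑ x, f (π x) = A * ∑ o ∈ Finset.univ.image π, f o := by
    rw [Finset.sum_comp f π, Finset.mul_sum]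
    exact Finset.sum_congr rfl fun o ho => by rw [hf o ho, nsmul_eq_mul]
  have h2 : Fintype.card X = A * (Finset.univ.image π).card := by
    rw [← Finset.card_univ, Finset.card_eq_sum_card_image π, Finset.sum_congr rfl hf,
      Finset.sum_const, smul_eq_mul, mul_comm]
  rw [mean, e, finsum_mem_coe_finset, Set.ncard_coe_finset, h1, h2, Nat.cast_mul,
    mul_div_mul_left _ _ (Nat.cast_ne_zero.2 hA)]

variable {n : ℕ}

theorem J_mul {R : Type} [CommRing R] (g : Matrix (Fin (n + 3)) (Fin (n + 3)) R) (i l) :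
    (Jm n R * g) i l = g (Equiv.swap 0 1 i) l := by
  simp [Jm, mul_apply]

theorem mul_J {R : Type} [CommRing R] (g : Matrix (Fin (n + 3)) (Fin (n + 3)) R) (i l) :
    (g * Jm n R) i l = g i (Equiv.swap 0 1 l) := by
  have : ∀ j : Fin (n + 3), (l = Equiv.swap 0 1 j) = (j = Equiv.swap 0 1 l) := fun j =>
    propext ⟨fun h => by rw [h, Equiv.swap_apply_self], fun h => by rw [h, Equiv.swap_apply_self]⟩
  simp [Jm, mul_apply, this]

theorem JJ : Jm n ℂ * Jm n ℂ = 1 := by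
  ext i l
  rw [J_mul, Jm, of_apply, Equiv.swap_apply_self, one_apply]
  simp only [eq_comm]

/-- The adjoint of a matrix for the form `J`. -/
def adj (g : Matrix (Fin (n + 3)) (Fin (n + 3)) ℂ) : Matrix (Fin (n + 3)) (Fin (n + 3)) ℂ :=
  Matrix.of fun i l => conj (g (Equiv.swap 0 1 l) (Equiv.swap 0 1 i))

theorem adj_eq (g : Matrix (Fin (n + 3)) (Fin (n + 3)) ℂ) : adj g = Jm n ℂ * gᴴ * Jm n ℂ := by
  ext i l
  rw [mul_J, J_mul, conjTranspose_apply]
  rfl

theorem adj_adj (g : Matrix (Fin (n + 3)) (Fin (n + 3)) ℂ) : adj (adj g) = g := by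
  ext i l
  simp [adj]

theorem adj_mul {g : Matrix (Fin (n + 3)) (Fin (n + 3)) ℂ} (h : gᴴ * Jm n ℂ * g = Jm n ℂ) :
    adj g * g = 1 := by
  rw [adj_eq, mul_assoc, mul_assoc, ← mul_assoc gᴴ, h, JJ]

theorem adj_uni {g : Matrix (Fin (n + 3)) (Fin (n + 3)) ℂ} (h : gᴴ * Jm n ℂ * g = Jm n ℂ) :
    (adj g)ᴴ * Jm n ℂ * adj g = Jm n ℂ := by
  have e : g * adj g = 1 := mul_eq_one_comm.1 (adj_mul h)
  calc _ = (adj g)ᴴ * (gᴴ * Jm n ℂ * g) * adj g := by rw [h]
    _ = (g * adj g)ᴴ * Jm n ℂ * (g * adj g) := by simp only [conjTranspose_mul, mul_assoc]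
    _ = _ := by rw [e, conjTranspose_one, one_mul, mul_one]

variable {p : ℕ} [Fact p.Prime] (c : Ctx p)

theorem mem_OK (x : c.K) : (x : ℂ) ∈ OK c.K ↔ IsIntegral ℤ x := by
  have : IsIntegral ℤ (x : ℂ) ↔ IsIntegral ℤ x :=
    isIntegral_algHom_iff (algebraMap c.K ℂ).toIntAlgHom (algebraMap c.K ℂ).injective
  rw [← this]
  exact ⟨fun h => h.2, fun h => ⟨x.2, h⟩⟩

theorem conj_OK {z : ℂ} (h : z ∈ OK c.K) : conj z ∈ OK c.K := by
  refine ⟨?_, IsIntegral.map (starRingEnd ℂ).toIntAlgHom h.2⟩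
  have := c.cj_coe ⟨z, h.1⟩
  change conj ((⟨z, h.1⟩ : c.K) : ℂ) ∈ c.K
  rw [← this]
  exact (c.cj _).2

/-- The relation that defines the ball quotient. -/
abbrev Rel (v w : Cone n) : Prop :=
  ∃ (g : Matrix (Fin (n + 3)) (Fin (n + 3)) ℂ) (z : ℂ),
    gᴴ * Jm n ℂ * g = Jm n ℂ ∧ (∀ i j, g i j ∈ OK c.K) ∧ w.1 = z • g *ᵥ v.1

theorem rel_equiv : Equivalence (Rel (n := n) c) where
  refl v := ⟨1, 1, by simp, fun i j => by
    rw [one_apply]
    split_ifs
    exacts [one_mem _, zero_mem _], by simp⟩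
  symm := by
    rintro v w ⟨g, z, h, hi, e⟩
    have hz : z ≠ 0 := by
      rintro rfl
      have := w.2
      rw [e] at this
      simp at this
    refine ⟨adj g, z⁻¹, adj_uni h, fun i j => conj_OK c (hi _ _), ?_⟩
    rw [e, mulVec_smul, mulVec_mulVec, adj_mul h, one_mulVec, smul_smul, inv_mul_cancel₀ hz,
      one_smul]
  trans := by
    rintro u v w ⟨g, z, h, hi, e⟩ ⟨g', z', h', hi', e'⟩
    refine ⟨g' * g, z' * z, ?_, fun i j => ?_, ?_⟩
    · calc _ = gᴴ * (g'ᴴ * Jm n ℂ * g') * g := by simp only [conjTranspose_mul, mul_assoc]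
        _ = _ := by rw [h', h]
    · rw [mul_apply]
      exact sum_mem fun k _ => mul_mem (hi' _ _) (hi _ _)
    · rw [e', e, mulVec_smul, mulVec_mulVec, smul_smul]

theorem mk_eq (v w : Cone n) : (Quot.mk _ v : SS n c.K) = Quot.mk _ w ↔ Rel c v w :=
  Quot.eq.trans (rel_equiv c).eqvGen_iff

theorem uni_iff (γ : Matrix (Fin (n + 3)) (Fin (n + 3)) c.K) :
    c.Uni γ ↔ (γ.map (algebraMap c.K ℂ))ᴴ * Jm n ℂ * γ.map (algebraMap c.K ℂ) = Jm n ℂ := by
  have hJ : (Jm n c.K).map (algebraMap c.K ℂ) = Jm n ℂ := by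
    ext i j
    simp only [Jm, map_apply, of_apply]
    split_ifs <;> simp
  have hγ : ((γ.map c.cj)ᵀ).map (algebraMap c.K ℂ) = (γ.map (algebraMap c.K ℂ))ᴴ := by
    ext i j
    exact c.cj_coe _
  rw [← hγ, ← hJ, ← Matrix.map_mul, ← Matrix.map_mul, Ctx.Uni]
  exact (Matrix.map_injective (algebraMap c.K ℂ).injective).eq_iff.symm

variable {c} (D : Dat n c)

/-- The vector attached to a frame. -/
def V (e : Fin (n + 3) → D.L) : Fin (n + 3) → ℂ := fun i => conj (D.φ (e (Equiv.swap 0 1 i)))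

theorem V_mul (u : D.L) (e : Fin (n + 3) → D.L) :
    V D (fun i => u * e i) = conj (D.φ u) • V D e := by
  funext i
  simp [V]

theorem V_mat (γ : Matrix (Fin (n + 3)) (Fin (n + 3)) c.K) (e : Fin (n + 3) → D.L) :
    V D (fun k => ∑ i, algebraMap c.K D.L (γ i k) * e i) =
      adj (γ.map (algebraMap c.K ℂ)) *ᵥ V D e := by
  funext k
  simp only [V, adj, mulVec, dotProduct, of_apply, map_apply, map_sum, map_mul, AlgHom.commutes]
  rw [← Equiv.sum_comp (Equiv.swap 0 1)]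

/-- A frame determines its lattice. -/
theorem lat_eq {a a' : D.FI} {e : Fin (n + 3) → D.L} (h : D.Fr a e) (h' : D.Fr a' e) : a = a' :=
  FractionalIdeal.ext fun x => (h.2 x).trans (h'.2 x).symm

theorem ne_zero {a : D.FI} {e : Fin (n + 3) → D.L} (h : D.Fr a e) : e 0 ≠ 0 := by
  intro h0
  have := h.1 0 1
  rw [h0, mul_zero, zero_mul, map_zero, Jm, of_apply, Equiv.swap_apply_left, if_pos rfl] at this
  exact zero_ne_one this

/-- Frames of isometric lattices give equivalent vectors. -/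
theorem rel_of (hF : FrameStmt) {a : D.FI} {e e' : Fin (n + 3) → D.L} {u : D.L}
    (hu : u * D.bar u = 1) (h : D.Fr a e) (h' : D.Fr (FractionalIdeal.spanSingleton _ u * a) e')
    {v w : Cone n} (hv : v.1 = V D e) (hw : w.1 = V D e') : Rel c v w := by
  obtain ⟨-, -, -, -, -, -, -, -, -, -, -, -, -, -, -, -, -, -, H⟩ := hF n p c D
  have h1 := (H a e h).2.2.2.2.2.2.2.2.1 u hu
  obtain ⟨-, -, hx, hd, -, -, -, -, -, -, hU⟩ := H _ _ h1
  have hU' := (uni_iff c _).1 (hU _ _ h')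
  refine ⟨_, conj (D.φ u), adj_uni hU', fun i k => conj_OK c ?_, ?_⟩
  · obtain ⟨y, hy⟩ := (h1.2 _).1 ((H _ _ h').2.1 (Equiv.swap 0 1 i))
    refine (mem_OK c _).2 ?_
    rw [of_apply, hy, Finset.sum_mul, map_sum]
    refine IsIntegral.sum _ fun l _ => ?_
    rw [mul_assoc, ← Algebra.smul_def, map_smul, hd, smul_eq_mul]
    split_ifs
    · simpa using (y l).isIntegral_coe
    · simpa using isIntegral_zero
  · rw [hv, hw, ← mulVec_smul, ← V_mul, ← V_mat]
    congr 1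
    funext k
    exact hx _

/-- Equivalent vectors come from isometric lattices. -/
theorem of_rel (hF : FrameStmt) {a a' : D.FI} {e e' : Fin (n + 3) → D.L} (h : D.Fr a e)
    (h' : D.Fr a' e') {v w : Cone n} (hv : v.1 = V D e) (hw : w.1 = V D e') (hr : Rel c v w) :
    ∃ u : D.L, u * D.bar u = 1 ∧ a' = FractionalIdeal.spanSingleton _ u * a := by
  obtain ⟨-, -, -, -, -, -, -, -, -, -, -, -, -, -, -, -, -, -, H⟩ := hF n p c D
  obtain ⟨g, z, hg, hi, hz⟩ := hr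
  have hi' : ∀ i k, adj g i k ∈ OK c.K := fun i k => conj_OK c (hi _ _)
  let γ : Matrix (Fin (n + 3)) (Fin (n + 3)) c.K := Matrix.of fun i k => ⟨adj g i k, (hi' i k).1⟩
  have hγ : γ.map (algebraMap c.K ℂ) = adj g := rfl
  have h2 := (H a e h).2.2.2.2.2.2.2.2.2.1 γ ((uni_iff c γ).2 (hγ ▸ adj_uni hg))
    fun i k => (mem_OK c _).1 (hi' i k)
  have hV := V_mat D γ e
  generalize (fun k => ∑ i, algebraMap c.K D.L (γ i k) * e i) = e'' at h2 hV
  rw [hγ, adj_adj, ← hv] at hV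
  rw [← hV, hw] at hz
  have h3 : ∀ k, D.φ (e' k) = conj z * D.φ (e'' k) := fun k => by
    have := congrArg conj (congrFun hz (Equiv.swap 0 1 k))
    simpa [V] using this
  have h0 := ne_zero D h2
  have h0' : D.φ (e'' 0) ≠ 0 := (map_ne_zero D.φ).2 h0
  obtain ⟨u, hu⟩ : ∃ u : D.L, e' = fun k => u * e'' k := by
    refine ⟨e' 0 / e'' 0, funext fun k => D.φ.toRingHom.injective ?_⟩
    change D.φ _ = D.φ _
    rw [map_mul, map_div₀, h3, h3, mul_div_cancel_right₀ _ h0']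
  obtain ⟨-, -, hx, -, -, -, -, -, hs, -⟩ := H _ _ h2
  have hu1 : u * D.bar u = 1 := by
    refine mul_right_cancel₀ h0 ?_
    rw [one_mul, hx (u * D.bar u * e'' 0)]
    conv_rhs => rw [hx (e'' 0)]
    refine Finset.sum_congr rfl fun i _ => ?_
    have e1 := h'.1 0 (Equiv.swap 0 1 i)
    rw [← h2.1 0 (Equiv.swap 0 1 i), hu] at e1
    congr 2
    convert e1 using 2 <;> simp only [Dat.du, Dat.bar, map_mul] <;> ring
  exact ⟨u, hu1, lat_eq D h' (hu ▸ hs u hu1)⟩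

end Orb

open Orb in
theorem orb : FrameStmt → AmbStmt → OrbStmt := by
  intro hF hA n p _ c D S v hv
  obtain ⟨C, hC⟩ := hA n p c
  have hA1 := (hC D).1
  have hv' : ∀ x, (v x).1 = V D (S.e x) := fun x => funext (hv x)
  have hR : orbit n c.K D.φ D.lam D.a = Set.range fun x => (Quot.mk _ (v x) : SS n c.K) := by
    ext o
    constructor
    · rintro ⟨b, e, w, hb, he, hw, rfl⟩
      let b' : (Ideal (𝓞 D.L))⁰ := ⟨b, mem_nonZeroDivisors_of_ne_zero hb⟩
      let x : D.Cl := ⟨ClassGroup.mk0 b', b', rfl, e, he⟩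
      obtain ⟨u, hu, hb'⟩ := (hA1 (S.b x) b').2 (by rw [S.hb, inv_mul_cancel]; exact one_mem _)
      exact ⟨x, (mk_eq c _ _).2 (rel_of D hF hu (S.he x) (hb' ▸ he) (hv' x) (funext hw))⟩
    · rintro ⟨x, rfl⟩
      exact ⟨S.b x, S.e x, v x, nonZeroDivisors.ne_zero (S.b x).2, S.he x, hv x, rfl⟩
  have hE : ∀ x y, (Quot.mk _ (v y) : SS n c.K) = Quot.mk _ (v x) ↔ x.1⁻¹ * y.1 ∈ D.Amb := by
    intro x y
    rw [eq_comm, mk_eq, ← S.hb x, ← S.hb y, ← hA1]
    exact ⟨of_rel D hF (S.he x) (S.he y) (hv' x) (hv' y), fun ⟨u, hu, h⟩ =>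
      rel_of D hF hu (S.he x) (h ▸ S.he y) (hv' x) (hv' y)⟩
  have hS : ∀ (x : D.Cl) (t : D.Amb), ∃ y : D.Cl, y.1 = x.1 * t.1 := by
    intro x t
    obtain ⟨b, hb⟩ := ClassGroup.mk0_surjective (x.1 * t.1)
    obtain ⟨u, hu, h⟩ := (hA1 (S.b x) b).2 (by rw [S.hb, hb, inv_mul_cancel_left]; exact t.2)
    obtain ⟨-, -, -, -, -, -, -, -, -, -, -, -, -, -, -, -, -, -, H⟩ := hF n p c D
    exact ⟨⟨x.1 * t.1, b, hb, _, h ▸ (H _ _ (S.he x)).2.2.2.2.2.2.2.2.1 u hu⟩, rfl⟩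
  refine ⟨hR ▸ Set.finite_range _, ?_, fun f => ?_⟩
  · obtain ⟨e, he⟩ := D.sp.frame
    refine ⟨⟨1, 1, map_one _, e, ?_⟩⟩
    convert he
    simp [Dat.tw, Dat.cI, Ideal.map_top]
  · rw [hR]
    refine mean_range _ (Nat.card D.Amb) Nat.card_pos.ne' (fun x => ?_) f
    refine Nat.card_congr (Equiv.ofBijective (fun y => ⟨x.1⁻¹ * y.1.1, (hE x y.1).1 y.2⟩)
      ⟨fun y y' h => Subtype.ext (Subtype.ext (mul_left_cancel (congrArg Subtype.val h))),
        fun t => ?_⟩)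
    obtain ⟨y, hy⟩ := hS x t
    have ht : x.1⁻¹ * y.1 = t.1 := by rw [hy, inv_mul_cancel_left]
    exact ⟨⟨y, (hE x y).2 (ht ▸ t.2)⟩, Subtype.ext ht⟩

end Pool.Agent.Lib.MP_9177b7_ag.B
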