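import Pool.Agent.Lib.MP_9177b7_ag.B.St

/-! The density of the congruence at `p`. -/

set_option autoImplicit false

open NumberField Finset
open scoped nonZeroDivisors

namespace Pool.Agent.Lib.MP_9177b7_ag.B

namespace PLv

variable {p : ℕ} [Fact p.Prime]

theorem sum_le {ι : Type} {s : Finset ι} {f : ι → ℚ_[p]} {C : ℝ} (h0 : 0 ≤ C)
    (h : ∀ i ∈ s, ‖f i‖ ≤ C) : ‖∑ i ∈ s, f i‖ ≤ C :=
  IsUltrametricDist.norm_sum_le_of_forall_le_of_nonneg h0 h

theorem sub_le {x y : ℚ_[p]} {C : ℝ} (hx : ‖x‖ ≤ C) (hy : ‖y‖ ≤ C) : ‖x - y‖ ≤ C := by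
  rw [sub_eq_add_neg]
  exact (IsUltrametricDist.norm_add_le_max _ _).trans (max_le hx (by rwa [norm_neg]))

theorem int_le (k : ℤ) (j : ℕ) : ‖(k : ℚ_[p])‖ ≤ ((p : ℝ) ^ j)⁻¹ ↔ ((p ^ j : ℕ) : ℤ) ∣ k := by
  rw [← zpow_natCast, ← zpow_neg, Padic.norm_int_le_pow_iff_dvd, Nat.cast_pow]

open Classical in
theorem main {d : ℕ} (c : Fin d → ℚ_[p]) (c₀ : ℚ_[p]) (j : ℕ) (a : Fin d) (ha : ‖c a‖ = 1) :
    denN (p ^ j) (fun t => if ‖∑ b, t b * c b - c₀‖ ≤ ((p : ℝ) ^ j)⁻¹ then 1 else 0) ≤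
      ((p : ℝ) ^ j)⁻¹ := by
  have hp : (0 : ℝ) < (p : ℝ) ^ j := pow_pos (Nat.cast_pos.2 (Fact.out : p.Prime).pos) j
  rw [denN, sum_boole, div_le_iff₀ (by rw [Nat.cast_pow]; positivity)]
  refine (Nat.cast_le.2 (card_le_card_of_injOn (t := Fintype.piFinset fun i =>
    if i = a then {0} else Ico (0 : ℤ) (p ^ j : ℕ)) (fun t => Function.update t a 0)
    (fun t ht => ?_) fun t ht t' ht' e => ?_)).trans (le_of_eq ?_)
  · have := Fintype.mem_piFinset.1 (mem_filter.1 ht).1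
    refine mem_coe.2 (Fintype.mem_piFinset.2 fun i => ?_)
    by_cases h : i = a
    · simp [h]
    · simpa [h] using this i
  · obtain ⟨h1, h2⟩ := mem_filter.1 ht
    obtain ⟨h3, h4⟩ := mem_filter.1 ht'
    have e' : ∀ i, i ≠ a → t i = t' i := fun i h => by simpa [h] using congrFun e i
    have h5 := sub_le h2 h4
    rw [sub_sub_sub_cancel_right, ← sum_sub_distrib, sum_eq_single a
      (fun i _ h => by rw [e' i h, sub_self]) (by simp), ← sub_mul, norm_mul, ha, mul_one,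
      ← Int.cast_sub, int_le] at h5
    have h6 := mem_Ico.1 (Fintype.mem_piFinset.1 h1 a)
    have h7 := mem_Ico.1 (Fintype.mem_piFinset.1 h3 a)
    simp only [Pi.zero_apply, zero_add] at h6 h7
    have := Int.eq_zero_of_abs_lt_dvd h5 (abs_lt.2 ⟨by omega, by omega⟩)
    funext i
    by_cases h : i = a
    · rw [h]; omega
    · exact e' i h
  · rw [Fintype.card_piFinset, ← mul_prod_erase _ _ (mem_univ a),
      prod_congr rfl (g := fun _ => p ^ j) fun i hi => by
        rw [if_neg (ne_of_mem_erase hi), Int.card_Ico, sub_zero, Int.toNat_natCast]]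
    obtain ⟨d, rfl⟩ := Nat.exists_eq_succ_of_ne_zero a.pos.ne'
    simp [pow_succ]
    field_simp

end PLv

open PLv in
theorem plv (hP : PadStmt) (hD : DenStmt) : PLvStmt := by
  classical
  intro F _ _ d p _ B ψ I c₀ m j hψ ⟨i, hi⟩ hI
  obtain ⟨i', hi'⟩ : ∃ i', i' ∉ I := by
    by_contra h
    exact hI (eq_univ_of_forall (by simpa using h))
  obtain ⟨P1, P2, P3⟩ := (hP F p).2 _ ψ hψ
  obtain ⟨D1, D2, -⟩ := hD F d B
  have tr := (P3 (by rw [← RingOfIntegers.rank, Module.finrank_eq_card_basis B.ω])).1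
  have hu : ∀ a i, ‖ψ i (B.u a)‖ ≤ 1 := fun a => P2 _ fun y => by
    have : Algebra.trace ℚ F (B.u a * y) = (B.ω.repr y a : ℤ) := by
      conv_lhs => rw [← B.ω.sum_repr y, RingOfIntegers.coe_eq_algebraMap, map_sum, mul_sum, map_sum]
      simp only [map_zsmul, mul_smul_comm, ← RingOfIntegers.coe_eq_algebraMap, B.dual]
      simp
    rw [tr, this, Rat.cast_intCast]
    exact Padic.norm_int_le_one _
  set c : Fin (d + 1) → ℚ_[p] := fun a => ∑ i ∈ I, ψ i (B.u a) with hc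
  have c1 : ∀ a, ‖c a‖ ≤ 1 := fun a => sum_le zero_le_one fun i _ => hu a i
  have l : ∀ m t, ∑ i ∈ I, ψ i (B.tau m t) = m * c 0 + ∑ a, t a * c a.succ := fun m t => by
    simp only [Bas.tau, map_add, map_mul, map_sum, map_intCast, sum_add_distrib, hc, mul_sum]
    rw [sum_comm]
  refine ⟨fun t t' h h' => ?_, ?_⟩
  · have := sub_le h' (sum_le (s := univ) (f := fun a => ((t a - t' a : ℤ) : ℚ_[p]) * c a.succ)
      (by positivity) fun a _ => by
        rw [norm_mul]
        exact (mul_le_of_le_one_right (norm_nonneg _) (c1 _)).trans ((int_le _ _).2 (h a)))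
    convert this using 2
    simp only [l, Int.cast_sub, sub_mul, sum_sub_distrib]
    ring
  have : ∃ a : Fin d, ‖c a.succ‖ = 1 := by
    by_contra h
    have p1 : ((p : ℝ) ^ 1)⁻¹ < 1 := inv_lt_one_of_one_lt₀ (by
      rw [pow_one]; exact_mod_cast (Fact.out : p.Prime).one_lt)
    have c2 : ∀ a : Fin d, ‖c a.succ‖ ≤ ((p : ℝ) ^ 1)⁻¹ := fun a => by
      rw [← zpow_natCast, ← zpow_neg, Padic.norm_le_pow_iff_norm_lt_pow_add_one]
      simpa using (c1 _).lt_of_ne fun e => h ⟨a, e⟩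
    obtain ⟨y, hy⟩ := P1 (Pi.single i 1 - Pi.single i' 1) 1
    obtain ⟨m', t, e⟩ := (D1 y).1 (FractionalIdeal.one_le_dual_one ℤ ℚ
      (FractionalIdeal.coe_mem_one _ y))
    have h1 := sum_le (s := univ) (by positivity) fun i _ => hy i
    have h2 := sum_le (s := I) (by positivity) fun i _ => hy i
    rw [sum_sub_distrib, e, ← Int.cast_sum] at h1 h2
    rw [tr, (D2 m' t).1] at h1
    rw [l] at h2
    simp only [Pi.sub_apply, sum_sub_distrib, sum_pi_single', mem_univ, hi, hi', if_true, if_false,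
      sub_self, Int.cast_zero, sub_zero, Int.cast_one, Rat.cast_intCast] at h1 h2
    have h3 := sub_le (sub_le h2 ((norm_mul_le _ (c 0)).trans
      ((mul_le_of_le_one_right (norm_nonneg _) (c1 _)).trans h1)))
      (sum_le (s := univ) (f := fun a => (t a : ℚ_[p]) * c a.succ) (by positivity) fun a _ =>
        (norm_mul_le _ _).trans
          ((mul_le_of_le_one_left (norm_nonneg _) (Padic.norm_int_le_one _)).trans (c2 a)))
    rw [show ∀ x y : ℚ_[p], x + y - 1 - x - y = -1 from fun x y => by ring, norm_neg,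
      norm_one] at h3
    exact absurd h3 p1.not_ge
  obtain ⟨a, ha⟩ := this
  convert main (fun a => c a.succ) (c₀ - m * c 0) j a ha using 6 with t
  rw [l]
  ring

end Pool.Agent.Lib.MP_9177b7_ag.B
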