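import Pool.Agent.Lib.MP_9177b7_ag.B.StE
import Pool.Agent.Lib.MP_9177b7_ag.B.StS

/-!
Packing bounds for a lattice without short vectors and for its dual.
-/

open Pool.Agent.Stark Finset Matrix

noncomputable section

namespace Pool.Agent.Lib.MP_9177b7_ag.B

namespace Pack

theorem geo {s : ℝ} (hs : 1 ≤ s) (T : Finset ℤ) :
    ∑ m ∈ T, Real.exp (-(|(m : ℝ)| / s)) ≤ 4 * s := by
  have s0 : 0 < s := by linarith
  set q := Real.exp (-(1 / s)) with hq
  have q0 : 0 < q := Real.exp_pos _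
  have q1 : q * (1 / s + 1) ≤ 1 := by
    have := mul_le_mul_of_nonneg_left (Real.add_one_le_exp (1 / s)) q0.le
    rwa [hq, ← Real.exp_add, neg_add_cancel, Real.exp_zero] at this
  have q2 : q * (1 + s) ≤ s := by
    have := mul_le_mul_of_nonneg_right q1 s0.le
    rwa [mul_assoc, add_mul, one_div_mul_cancel s0.ne', one_mul] at this
  have q3 : q < 1 := by nlinarith
  have e : ∀ n : ℕ, Real.exp (-((n : ℝ) / s)) = q ^ n := fun n => by
    rw [hq, ← Real.exp_nat_mul]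
    congr 1
    ring
  have h1 := hasSum_geometric_of_lt_one q0.le q3
  have h2 : HasSum (fun m : ℤ => Real.exp (-(|(m : ℝ)| / s))) ((1 - q)⁻¹ + q * (1 - q)⁻¹) := by
    refine HasSum.of_nat_of_neg_add_one ?_ ?_
    · simpa only [Int.cast_natCast, Nat.abs_cast, e] using h1
    · have e' : ∀ n : ℕ, Real.exp (-(|((-((n : ℤ) + 1) : ℤ) : ℝ)| / s)) = q * q ^ n := fun n => by
        rw [← pow_succ', ← e, Int.cast_neg, abs_neg, ← Nat.cast_succ, Int.cast_natCast,
          Nat.abs_cast]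
      simpa only [e'] using h1.mul_left q
  refine (sum_le_hasSum T (fun _ _ => (Real.exp_pos _).le) h2).trans ?_
  have q4 : (1 - q)⁻¹ ≤ 2 * s := by
    rw [inv_le_iff_one_le_mul₀ (by linarith)]
    nlinarith
  have : q * (1 - q)⁻¹ ≤ (1 - q)⁻¹ := mul_le_of_le_one_left (inv_nonneg.2 (by linarith)) q3.le
  linarith

theorem one {s : ℝ} (hs : 1 ≤ s) (t : ℝ) :
    Real.exp (-(2 * t ^ 2)) ≤ Real.exp 2 * Real.exp (-(|(⌊t * s⌋ : ℝ)| / s)) := by
  have s0 : 0 < s := by linarith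
  rw [← Real.exp_add]
  refine Real.exp_le_exp.2 ?_
  have h1 : |(⌊t * s⌋ : ℝ)| ≤ (|t| + 1) * s := by
    have a := Int.floor_le (t * s)
    have b := Int.lt_floor_add_one (t * s)
    have c := mul_le_mul_of_nonneg_right (le_abs_self t) s0.le
    have d := mul_le_mul_of_nonneg_right (neg_abs_le t) s0.le
    rw [abs_le]
    constructor <;> nlinarith
  have h2 := (div_le_iff₀ s0).2 h1
  nlinarith [sq_abs t, sq_nonneg (|t| - 1)]

variable {ι : Type} [Fintype ι] [DecidableEq ι]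

theorem box {α : Type} {m : α → ι → ℤ} (inj : Function.Injective m) {f : ℤ → ℝ}
    (f0 : ∀ n, 0 ≤ f n) {c : ℝ} (hc : ∀ T : Finset ℤ, ∑ n ∈ T, f n ≤ c) (S : Finset α) :
    ∑ k ∈ S, ∏ i, f (m k i) ≤ c ^ Fintype.card ι :=
  calc _ = ∑ x ∈ S.map ⟨m, inj⟩, ∏ i, f (x i) := by rw [sum_map]; rfl
    _ ≤ ∑ x ∈ Fintype.piFinset fun i => S.image fun k => m k i, ∏ i, f (x i) :=
        sum_le_sum_of_subset_of_nonneg (fun x hx => by
          obtain ⟨k, hk, rfl⟩ := mem_map.1 hx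
          exact Fintype.mem_piFinset.2 fun i => mem_image_of_mem _ hk)
          fun _ _ _ => prod_nonneg fun _ _ => f0 _
    _ = ∏ i, ∑ n ∈ S.image fun k => m k i, f n := (prod_univ_sum _ fun _ n => f n).symm
    _ ≤ ∏ _i : ι, c := prod_le_prod (fun _ _ => sum_nonneg fun _ _ => f0 _) fun i _ => hc _
    _ = _ := by rw [prod_const, card_univ]

theorem gauss {α : Type} (y : α → ι → ℝ) {s : ℝ} (hs : 1 ≤ s)
    (h : ∀ k k', (∀ i, |y k i - y k' i| * s < 1) → k = k') (S : Finset α) :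
    ∑ k ∈ S, Real.exp (-(2 * ∑ i, y k i ^ 2)) ≤ (Real.exp 2 * (4 * s)) ^ Fintype.card ι := by
  refine le_trans (sum_le_sum fun k _ => ?_) (box (m := fun k i => ⌊y k i * s⌋)
    (f := fun n => Real.exp 2 * Real.exp (-(|(n : ℝ)| / s))) (fun k k' e => h k k' fun i => ?_)
    (fun n => by positivity) (fun T => ?_) S)
  · rw [mul_sum, ← sum_neg_distrib, Real.exp_sum]
    exact prod_le_prod (fun _ _ => (Real.exp_pos _).le) fun i _ => one hs _
  · have := Int.abs_sub_lt_one_of_floor_eq_floor (congrFun e i)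
    rwa [← sub_mul, abs_mul, abs_of_nonneg (by linarith : 0 ≤ s)] at this
  · rw [← mul_sum]
    exact mul_le_mul_of_nonneg_left (geo hs _) (Real.exp_pos _).le

/-- The scaled lattice point. -/
def Y (B : Matrix ι ι ℝ) (a : ι → ℝ) : (ι → ℤ) →ₗ[ℤ] ι → ℝ :=
  (AddMonoidHom.mk' (fun k i => Real.exp (a i) * lpt B k i) fun k k' => funext fun i => by
    simp [lpt, mulVec, dotProduct, mul_add, sum_add_distrib]).toIntLinearMap

omit [DecidableEq ι] in
theorem Y_sq (B : Matrix ι ι ℝ) (a : ι → ℝ) (k : ι → ℤ) :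
    ∑ i, Real.exp (2 * a i) * lpt B k i ^ 2 = ∑ i, Y B a k i ^ 2 :=
  sum_congr rfl fun i _ => by
    rw [two_mul, Real.exp_add, ← sq, ← mul_pow]
    rfl

theorem first (B : Matrix ι ι ℝ) (a : ι → ℝ) {μ : ℝ} (h0 : 0 < μ) (h1 : μ ≤ 1)
    (h : ∀ k : ι → ℤ, k ≠ 0 → μ ≤ ∑ i, Y B a k i ^ 2) {τ : ℝ} (hτ : 0 ≤ τ) :
    ThetaAux.th B (fun i => a i + τ) ≤ (Real.exp 2 * (4 * (Fintype.card ι + 1))) ^ Fintype.card ι *
      μ⁻¹ ^ Fintype.card ι * Real.exp (-(μ * Real.exp (2 * τ))) := by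
  have d0 : (0 : ℝ) ≤ Fintype.card ι := Nat.cast_nonneg _
  have hs : 1 ≤ ((Fintype.card ι : ℝ) + 1) / μ := by
    rw [le_div_iff₀ h0]
    linarith
  refine Real.tsum_le_of_sum_le (fun _ => (ThetaAux.tm_pos _ _ _).le) fun S => ?_
  have g := gauss (fun k : {k : ι → ℤ // k ≠ 0} => Y B a k.1) hs (fun k k' e => ?_) S
  · calc _ ≤ ∑ k ∈ S, Real.exp (-(2 * ∑ i, Y B a k.1 i ^ 2)) *
          Real.exp (-(μ * Real.exp (2 * τ))) := sum_le_sum fun k _ => by
          rw [← Real.exp_add]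
          refine Real.exp_le_exp.2 ?_
          have e : ∑ i, Real.exp (2 * (a i + τ)) * lpt B k.1 i ^ 2 =
              Real.exp (2 * τ) * ∑ i, Y B a k.1 i ^ 2 := by
            rw [← Y_sq, mul_sum]
            exact sum_congr rfl fun i _ => by rw [mul_add, Real.exp_add]; ring
          have a1 := h k.1 k.2
          have a2 : 1 ≤ Real.exp (2 * τ) := Real.one_le_exp (by linarith)
          have a3 := mul_le_mul_of_nonneg_right a1 (Real.exp_pos (2 * τ)).le
          have a4 := mul_le_mul_of_nonneg_left a2 (h0.le.trans a1)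
          have a5 := mul_le_mul_of_nonneg_right Real.pi_gt_three.le
            (mul_nonneg (Real.exp_pos (2 * τ)).le (h0.le.trans a1))
          rw [e]
          linarith
      _ ≤ _ := by
          rw [← sum_mul, ← mul_pow, mul_assoc, mul_assoc, ← div_eq_mul_inv]
          exact mul_le_mul_of_nonneg_right g (Real.exp_pos _).le
  · refine Subtype.ext (sub_eq_zero.1 (by_contra fun c => ?_))
    have a1 := h _ c
    have a2 : ∀ i, Y B a (k.1 - k'.1) i ^ 2 * ((Fintype.card ι : ℝ) + 1) ≤ μ ^ 2 := fun i => by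
      have b1 := e i
      rw [← mul_div_assoc, div_lt_one h0, ← Pi.sub_apply, ← map_sub] at b1
      have b2 := pow_le_pow_left₀ (by positivity) b1.le 2
      rw [mul_pow, sq_abs] at b2
      nlinarith [mul_nonneg (sq_nonneg (Y B a (k.1 - k'.1) i)) d0,
        mul_nonneg (sq_nonneg (Y B a (k.1 - k'.1) i)) (sq_nonneg (Fintype.card ι : ℝ))]
    have a3 := sum_le_sum fun i (_ : i ∈ univ) => a2 i
    rw [← sum_mul, sum_const, card_univ, nsmul_eq_mul] at a3
    have a4 := mul_le_mul_of_nonneg_right a1 (by linarith : (0 : ℝ) ≤ Fintype.card ι + 1)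
    nlinarith [mul_nonneg (mul_nonneg d0 h0.le) (sub_nonneg.2 h1)]

theorem pair {B : Matrix ι ι ℝ} (hB : B.det ≠ 0) (a : ι → ℝ) (k k' : ι → ℤ) :
    ∑ i, Y (B⁻¹)ᵀ (-a) k i * Y B a k' i = (k ⬝ᵥ k' : ℤ) := by
  have e : ∑ i, Y (B⁻¹)ᵀ (-a) k i * Y B a k' i = lpt (B⁻¹)ᵀ k ⬝ᵥ lpt B k' :=
    sum_congr rfl fun i _ => by
      show Real.exp (-a i) * _ * (Real.exp (a i) * _) = _
      rw [mul_mul_mul_comm, ← Real.exp_add, neg_add_cancel, Real.exp_zero, one_mul]
  rw [e, lpt, lpt, mulVec_transpose, dotProduct_mulVec, vecMul_vecMul,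
    nonsing_inv_mul _ (Ne.isUnit hB), vecMul_one]
  simp [dotProduct]

end Pack

open Pack in
theorem pack : RedStmt → PackStmt := fun hR d => by
  obtain ⟨C, C0, hC⟩ := hR d
  have c1 : (1 : ℝ) ≤ (Real.exp 2 * (4 * (d + 1))) ^ d := one_le_pow₀ (by
    have : (0 : ℝ) ≤ d := Nat.cast_nonneg _
    nlinarith [Real.add_one_le_exp 2])
  refine ⟨(Real.exp 2 * (4 * (d + 1))) ^ d + C, by linarith, fun ι _ _ B a μ hd hB h0 h1 h => ?_⟩
  simp only [Y_sq] at h
  refine ⟨fun τ hτ => ?_, fun ha hμ => ?_⟩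
  · refine (first B a h0 h1 h hτ).trans ?_
    rw [hd]
    gcongr
    linarith
  obtain ⟨e⟩ : Nonempty (ι ≃ Fin d) := ⟨Fintype.equivFinOfCardEq hd⟩
  let Q : (ι → ℤ) →ₗ[ℤ] (ι → ℤ) →ₗ[ℤ] ℝ := (dotProductBilin ℤ ℤ).compl₁₂ (Y B a) (Y B a)
  let A : Matrix (Fin d) (Fin d) ℝ := (diagonal (fun i => Real.exp (a i)) * B).submatrix e.symm e.symm
  have dA : A.det = B.det := by
    rw [det_submatrix_equiv_self, det_mul, det_diagonal, ← Real.exp_sum, ha, Real.exp_zero, one_mul]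
  have hG : (Matrix.of fun i j => Q ((Pi.basisFun ℤ ι).reindex e i) ((Pi.basisFun ℤ ι).reindex e j))
      = Aᴴ * A := by
    ext i j
    have : ∀ j l, Y B a (Pi.single j 1) l = Real.exp (a l) * B l j := fun j l => by
      show _ * lpt B _ l = _
      simp [lpt, mulVec, dotProduct, Pi.single_apply]
    simp only [Q, A, of_apply, Module.Basis.reindex_apply, Pi.basisFun_apply,
      LinearMap.compl₁₂_apply, dotProductBilin_apply_apply, dotProduct, this, mul_apply,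
      conjTranspose_apply, submatrix_apply, star_trivial]
    rw [← e.symm.sum_comp]
    simp [diagonal_apply]
  obtain ⟨b, hb⟩ := hC (ι → ℤ) ((Pi.basisFun ℤ ι).reindex e) Q (fun x y => dotProduct_comm _ _)
    (hG ▸ PosDef.conjTranspose_mul_self A (mulVec_injective_of_det_ne_zero (dA ▸ hB)))
  rw [hG, det_mul, det_conjTranspose, dA, star_trivial, ← sq] at hb
  have hQ : ∀ k, Q k k = ∑ i, Y B a k i ^ 2 := fun k => sum_congr rfl fun i _ => (sq _).symm
  simp only [hQ] at hb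
  have hl : ∀ s : Finset (Fin d), μ ^ s.card ≤ ∏ j ∈ s, ∑ i, Y B a (b j) i ^ 2 := fun s => by
    rw [← prod_const]
    exact prod_le_prod (fun _ _ => h0.le) fun j _ => h _ (b.ne_zero j)
  refine ⟨?_, fun k hk => ?_⟩
  · have := (hl univ).trans hb
    rw [card_univ, Fintype.card_fin] at this
    nlinarith [sq_nonneg B.det]
  obtain ⟨j, hj⟩ : ∃ j, k ⬝ᵥ b j ≠ 0 := by
    by_contra! c
    have : dotProductBilin ℤ ℤ k = 0 := b.ext fun j => c j
    exact hk (dotProduct_self_eq_zero.1 (LinearMap.congr_fun this k))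
  have a1 : (1 : ℝ) ≤ ((k ⬝ᵥ b j : ℤ) : ℝ) ^ 2 := by
    exact_mod_cast (one_le_sq_iff_one_le_abs _).2 (Int.one_le_abs hj)
  have a2 := sum_mul_sq_le_sq_mul_sq univ (Y (B⁻¹)ᵀ (-a) k) (Y B a (b j))
  rw [pair hB] at a2
  have a3 : ∑ i, Real.exp (2 * -a i) * lpt (B⁻¹)ᵀ k i ^ 2 = ∑ i, Y (B⁻¹)ᵀ (-a) k i ^ 2 :=
    Y_sq _ (-a) k
  have a4 : 0 ≤ ∑ i, Y (B⁻¹)ᵀ (-a) k i ^ 2 := sum_nonneg fun _ _ => sq_nonneg _
  have a5 : 0 ≤ ∑ i, Y B a (b j) i ^ 2 := sum_nonneg fun _ _ => sq_nonneg _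
  have a6 : μ ^ 2 * B.det ^ 2 ≤ 1 := by
    rw [← sq_abs B.det, ← mul_pow]
    refine pow_le_one₀ (by positivity) ?_
    rwa [← mul_inv_cancel₀ h0.ne', mul_le_mul_iff_right₀ h0]
  have a7 : μ ^ (d + 1) * ∑ i, Y B a (b j) i ^ 2 ≤ C := by
    rw [← mul_prod_erase _ _ (mem_univ j)] at hb
    have b1 : d + 1 = 2 + (univ.erase j).card := by
      have := card_erase_add_one (mem_univ j)
      rw [card_univ, Fintype.card_fin] at this
      omega
    have b2 := (mul_le_mul_of_nonneg_left (hl (univ.erase j)) a5).trans hb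
    have b3 := mul_le_mul_of_nonneg_left b2 (sq_nonneg μ)
    have b4 := mul_le_mul_of_nonneg_left a6 C0.le
    rw [b1, pow_add]
    linarith
  have a8 := mul_le_mul_of_nonneg_left (a1.trans a2) (pow_pos h0 (d + 1)).le
  have a9 := mul_le_mul_of_nonneg_right a7 a4
  rw [a3]
  nlinarith

end Pool.Agent.Lib.MP_9177b7_ag.B
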