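import Pool.Agent.Lib.MP_9177b7_ag.B.St

/-! Embeddings of a number field into `ℚ_p` and primes of degree one. -/

open NumberField
open scoped nonZeroDivisors

noncomputable section

namespace Pool.Agent.Lib.MP_9177b7_ag.B

namespace Pad

variable {M : Type} [Field M] {p : ℕ} [hp : Fact p.Prime]

theorem p_pos : (0 : ℝ) < p := by exact_mod_cast hp.out.pos

theorem one_lt_p : (1 : ℝ) < p := by exact_mod_cast hp.out.one_lt

theorem norm_le (ψ : M →+* ℚ_[p]) (c : 𝓞 M) : ‖ψ c‖ ≤ 1 := by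
  have h : IsIntegral ℤ (ψ (c : M)) := c.isIntegral_coe.map ψ.toIntAlgHom
  obtain ⟨z, hz⟩ := (IsIntegrallyClosed.isIntegral_iff (R := ℤ_[p]) (K := ℚ_[p])).1 h.tower_top
  rw [← hz]
  exact z.2

/-- the restriction to the integers. -/
def res (ψ : M →+* ℚ_[p]) : 𝓞 M →+* ℤ_[p] where
  toFun x := ⟨ψ x, norm_le ψ x⟩
  map_one' := Subtype.ext (by simp)
  map_mul' x y := Subtype.ext (map_mul (ψ.comp (algebraMap (𝓞 M) M)) x y)
  map_zero' := Subtype.ext (by simp)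
  map_add' x y := Subtype.ext (map_add (ψ.comp (algebraMap (𝓞 M) M)) x y)

/-- the elements of absolute value at most `p^-r`. -/
def Ir (ψ : M →+* ℚ_[p]) (r : ℕ) : Ideal (𝓞 M) :=
  RingHom.ker ((PadicInt.toZModPow r).comp (res ψ))

theorem mem_Ir {ψ : M →+* ℚ_[p]} {r : ℕ} {x : 𝓞 M} :
    x ∈ Ir ψ r ↔ ‖ψ x‖ ≤ (p : ℝ) ^ (-r : ℤ) := by
  rw [Ir, RingHom.mem_ker, RingHom.comp_apply, ← RingHom.mem_ker, PadicInt.ker_toZModPow,
    ← PadicInt.norm_le_pow_iff_mem_span_pow]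
  rfl

theorem mem_Pp {ψ : M →+* ℚ_[p]} {x : 𝓞 M} : x ∈ Pp ψ ↔ ‖ψ x‖ < 1 := Iff.rfl

theorem mem_Pp' {ψ : M →+* ℚ_[p]} {x : 𝓞 M} : x ∈ Pp ψ ↔ ‖ψ x‖ ≤ (p : ℝ) ^ (-1 : ℤ) := by
  rw [mem_Pp, Padic.norm_le_pow_iff_norm_lt_pow_add_one]
  simp

theorem Pp_eq (ψ : M →+* ℚ_[p]) : Pp ψ = Ir ψ 1 := by
  ext x
  rw [mem_Pp', mem_Ir]
  simp

theorem cyc_Ir (ψ : M →+* ℚ_[p]) (r : ℕ) : Cyc (Ir ψ r) := by
  intro x
  obtain ⟨z, hz⟩ := ZMod.intCast_surjective (((PadicInt.toZModPow r).comp (res ψ)) x)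
  refine ⟨z, ?_⟩
  rw [Ir, RingHom.mem_ker, map_sub, map_intCast, hz, sub_self]

theorem pow_le_Ir (ψ : M →+* ℚ_[p]) (r : ℕ) : Pp ψ ^ r ≤ Ir ψ r := by
  induction r with
  | zero => intro x _; rw [mem_Ir]; simpa using norm_le ψ x
  | succ r ih =>
    rw [pow_succ, Ideal.mul_le]
    intro x hx y hy
    have h1 := mem_Ir.1 (ih hx)
    have h2 := mem_Pp'.1 hy
    rw [mem_Ir]
    have e : (p : ℝ) ^ (-((r + 1 : ℕ) : ℤ)) = (p : ℝ) ^ (-r : ℤ) * (p : ℝ) ^ (-1 : ℤ) := by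
      rw [← zpow_add₀ p_pos.ne']
      congr 1
      push_cast
      ring
    rw [e, RingOfIntegers.coe_eq_algebraMap, map_mul, map_mul, norm_mul]
    exact mul_le_mul h1 h2 (norm_nonneg _) (zpow_pos p_pos _).le

theorem small {a b : ℝ} (c : ℝ) (h : ∀ r : ℕ, a ≤ b + c * ((p : ℝ) ^ r)⁻¹) : a ≤ b := by
  have h1 : Filter.Tendsto (fun r : ℕ => b + c * ((p : ℝ) ^ r)⁻¹) Filter.atTop
      (nhds (b + c * 0)) :=
    ((tendsto_inv_atTop_zero.comp (tendsto_pow_atTop_atTop_of_one_lt one_lt_p)).const_mul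
      c).const_add b
  simpa using ge_of_tendsto' h1 h

omit hp in
theorem zpow_neg_nat (r : ℕ) : (p : ℝ) ^ (-r : ℤ) = ((p : ℝ) ^ r)⁻¹ := by
  rw [zpow_neg, zpow_natCast]

variable [NumberField M]

theorem norm_Ir (ψ : M →+* ℚ_[p]) (r : ℕ) : Ideal.absNorm (Ir ψ r) = p ^ r := by
  rw [Ideal.absNorm_apply, Submodule.cardQuot_apply]
  have e := RingHom.quotientKerEquivOfSurjective
    (ZMod.ringHom_surjective ((PadicInt.toZModPow r).comp (res ψ)))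
  exact (Nat.card_congr e.toEquiv).trans (Nat.card_zmod _)

theorem norm_Pp (ψ : M →+* ℚ_[p]) : Ideal.absNorm (Pp ψ) = p := by
  rw [Pp_eq, norm_Ir, pow_one]

theorem Pp_ne (ψ : M →+* ℚ_[p]) : Pp ψ ≠ ⊥ := by
  intro h
  have := norm_Pp ψ
  rw [h, Ideal.absNorm_bot] at this
  exact hp.out.ne_zero this.symm

theorem Pp_isPrime (ψ : M →+* ℚ_[p]) : (Pp ψ).IsPrime :=
  Ideal.isPrime_of_irreducible_absNorm (by rw [norm_Pp]; exact hp.out)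

theorem Pp_max (ψ : M →+* ℚ_[p]) : (Pp ψ).IsMaximal := (Pp_isPrime ψ).isMaximal (Pp_ne ψ)

theorem Pp_prime (ψ : M →+* ℚ_[p]) : Prime (Pp ψ) :=
  Ideal.prime_of_isPrime (Pp_ne ψ) (Pp_isPrime ψ)

theorem eq_of_le {I J : Ideal (𝓞 M)} (h : I ≤ J) (hn : Ideal.absNorm I = Ideal.absNorm J)
    (h0 : Ideal.absNorm J ≠ 0) : I = J := by
  obtain ⟨K, rfl⟩ := Ideal.dvd_iff_le.2 h
  rw [map_mul] at hn
  have : Ideal.absNorm K = 1 := mul_left_cancel₀ h0 (hn.trans (mul_one _).symm)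
  rw [Ideal.absNorm_eq_one_iff.1 this, Ideal.mul_top]

theorem pow_eq_Ir (ψ : M →+* ℚ_[p]) (r : ℕ) : Pp ψ ^ r = Ir ψ r :=
  eq_of_le (pow_le_Ir ψ r) (by rw [map_pow, norm_Pp, norm_Ir])
    (by rw [norm_Ir]; exact pow_ne_zero _ hp.out.ne_zero)

theorem Pp_inj {ψ ψ' : M →+* ℚ_[p]} (h : Pp ψ = Pp ψ') : ψ = ψ' := by
  refine IsFractionRing.ringHom_ext (A := 𝓞 M) fun x => ?_
  rw [← sub_eq_zero, ← norm_le_zero_iff]
  refine small (p := p) 1 fun r => ?_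
  obtain ⟨z, hz⟩ := cyc_Ir ψ r x
  have hz' : x - z ∈ Ir ψ' r := by rw [← pow_eq_Ir, ← h, pow_eq_Ir]; exact hz
  rw [mem_Ir, zpow_neg_nat, RingOfIntegers.coe_eq_algebraMap, map_sub, map_sub, map_intCast,
    map_intCast] at hz hz'
  have e : ψ (algebraMap (𝓞 M) M x) - ψ' (algebraMap (𝓞 M) M x) =
      (ψ (algebraMap (𝓞 M) M x) - z) + -(ψ' (algebraMap (𝓞 M) M x) - z) := by ring
  rw [e, zero_add, one_mul]
  exact (IsUltrametricDist.norm_add_le_max _ _).trans (max_le hz (by rwa [norm_neg]))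

/-- `p^-k` is the maximum of the absolute value on `a`. -/
def IsV (ψ : M →+* ℚ_[p]) (a : FractionalIdeal (𝓞 M)⁰ M) (k : ℤ) : Prop :=
  (∀ x ∈ a, ‖ψ x‖ ≤ (p : ℝ) ^ (-k)) ∧ ∃ x ∈ a, ‖ψ x‖ = (p : ℝ) ^ (-k)

omit [NumberField M] in
theorem IsV.unique {ψ : M →+* ℚ_[p]} {a : FractionalIdeal (𝓞 M)⁰ M} {k l : ℤ} (hk : IsV ψ a k)
    (hl : IsV ψ a l) : k = l := by
  obtain ⟨x, hx, ex⟩ := hk.2
  obtain ⟨y, hy, ey⟩ := hl.2
  have h1 := hl.1 x hx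
  have h2 := hk.1 y hy
  rw [ex, zpow_le_zpow_iff_right₀ one_lt_p] at h1
  rw [ey, zpow_le_zpow_iff_right₀ one_lt_p] at h2
  omega

theorem exists_isV (ψ : M →+* ℚ_[p]) {a : FractionalIdeal (𝓞 M)⁰ M} (ha : a ≠ 0) :
    ∃ k, IsV ψ a k := by
  obtain ⟨d, hd, hb⟩ := a.isFractional
  have hd0 : ψ (d : M) ≠ 0 := by
    rw [map_ne_zero]
    exact RingOfIntegers.coe_ne_zero_iff.2 (nonZeroDivisors.ne_zero hd)
  have hbd : ∀ z : ℤ, (∃ x ∈ a, ‖ψ x‖ = (p : ℝ) ^ z) → z ≤ (ψ (d : M)).valuation := by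
    rintro z ⟨x, hx, ex⟩
    obtain ⟨y, hy⟩ := hb x hx
    have h1 := norm_le ψ y
    rw [RingOfIntegers.coe_eq_algebraMap, hy, Algebra.smul_def, map_mul, norm_mul, ex,
      ← RingOfIntegers.coe_eq_algebraMap, Padic.norm_eq_zpow_neg_valuation hd0,
      ← zpow_add₀ p_pos.ne', zpow_le_one_iff_right₀ one_lt_p] at h1
    omega
  obtain ⟨x0, hx0, hx0a⟩ := FractionalIdeal.exists_ne_zero_mem_isInteger ha
  have h0 : ψ (algebraMap (𝓞 M) M x0) ≠ 0 := by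
    rw [map_ne_zero]
    exact RingOfIntegers.coe_ne_zero_iff.2 hx0
  obtain ⟨u, hu, hmax⟩ := Int.exists_greatest_of_bdd ⟨_, hbd⟩
    ⟨_, _, hx0a, Padic.norm_eq_zpow_neg_valuation h0⟩
  refine ⟨-u, fun x hx => ?_, by simpa using hu⟩
  rw [neg_neg]
  by_cases h : ψ x = 0
  · rw [h, norm_zero]; exact (zpow_pos p_pos _).le
  · have := hmax _ ⟨x, hx, Padic.norm_eq_zpow_neg_valuation h⟩
    rw [Padic.norm_eq_zpow_neg_valuation h]
    exact zpow_le_zpow_right₀ one_lt_p.le this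

omit [NumberField M] in
theorem IsV.mul {ψ : M →+* ℚ_[p]} {a b : FractionalIdeal (𝓞 M)⁰ M} {k l : ℤ} (hk : IsV ψ a k)
    (hl : IsV ψ b l) : IsV ψ (a * b) (k + l) := by
  have e : (p : ℝ) ^ (-(k + l)) = (p : ℝ) ^ (-k) * (p : ℝ) ^ (-l) := by
    rw [← zpow_add₀ p_pos.ne', neg_add]
  constructor
  · intro x hx
    refine FractionalIdeal.mul_induction_on (C := fun x => ‖ψ x‖ ≤ (p : ℝ) ^ (-(k + l))) hx
      (fun i hi j hj => ?_) (fun x y hx hy => ?_)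
    · rw [map_mul, norm_mul, e]
      exact mul_le_mul (hk.1 i hi) (hl.1 j hj) (norm_nonneg _) (zpow_pos p_pos _).le
    · rw [map_add]
      exact (IsUltrametricDist.norm_add_le_max _ _).trans (max_le hx hy)
  · obtain ⟨x, hx, ex⟩ := hk.2
    obtain ⟨y, hy, ey⟩ := hl.2
    exact ⟨x * y, FractionalIdeal.mul_mem_mul hx hy, by rw [map_mul, norm_mul, e, ex, ey]⟩

omit [NumberField M] in
theorem isV_one (ψ : M →+* ℚ_[p]) : IsV ψ (Pp ψ : FractionalIdeal (𝓞 M)⁰ M) 1 := by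
  constructor
  · intro x hx
    obtain ⟨y, hy, rfl⟩ := (FractionalIdeal.mem_coeIdeal _).1 hx
    exact mem_Pp'.1 hy
  · have e : ‖ψ (algebraMap (𝓞 M) M (p : 𝓞 M))‖ = (p : ℝ) ^ (-1 : ℤ) := by
      rw [map_natCast, map_natCast, Padic.norm_p, zpow_neg_one]
    exact ⟨_, (FractionalIdeal.mem_coeIdeal _).2 ⟨p, mem_Pp'.2 e.le, rfl⟩, e⟩

theorem isV_zero {ψ ψ' : M →+* ℚ_[p]} (h : ψ' ≠ ψ) :
    IsV ψ (Pp ψ' : FractionalIdeal (𝓞 M)⁰ M) 0 := by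
  constructor
  · intro x hx
    obtain ⟨y, -, rfl⟩ := (FractionalIdeal.mem_coeIdeal _).1 hx
    simpa using norm_le ψ y
  · have hn : ¬ Pp ψ' ≤ Pp ψ := fun hle =>
      h (Pp_inj ((Pp_max ψ').eq_of_le (Pp_max ψ).ne_top hle))
    obtain ⟨y, hy, hy'⟩ := SetLike.not_le_iff_exists.1 hn
    refine ⟨_, (FractionalIdeal.mem_coeIdeal _).2 ⟨y, hy, rfl⟩, ?_⟩
    rw [neg_zero, zpow_zero]
    exact le_antisymm (norm_le ψ y) (not_lt.1 hy')

theorem val (ψ : M →+* ℚ_[p]) : ∃ v : FractionalIdeal (𝓞 M)⁰ M → ℤ,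
    (∀ a, a ≠ 0 → IsV ψ a (v a)) ∧ (∀ a b, a ≠ 0 → b ≠ 0 → v (a * b) = v a + v b) ∧
      v (Pp ψ) = 1 ∧ ∀ ψ' : M →+* ℚ_[p], ψ' ≠ ψ → v (Pp ψ') = 0 := by
  have h : ∀ a : FractionalIdeal (𝓞 M)⁰ M, ∃ k, a ≠ 0 → IsV ψ a k := fun a => by
    by_cases ha : a = 0
    · exact ⟨0, fun h => absurd ha h⟩
    · exact (exists_isV ψ ha).imp fun _ hk _ => hk
  choose v hv using h
  have hne : ∀ ψ' : M →+* ℚ_[p], (Pp ψ' : FractionalIdeal (𝓞 M)⁰ M) ≠ 0 := fun ψ' =>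
    FractionalIdeal.coeIdeal_ne_zero.2 (Pp_ne ψ')
  exact ⟨v, hv, fun a b ha hb => (hv _ (mul_ne_zero ha hb)).unique ((hv a ha).mul (hv b hb)),
    (hv _ (hne ψ)).unique (isV_one ψ), fun ψ' h => (hv _ (hne ψ')).unique (isV_zero h)⟩

variable {ι : Type} [Fintype ι] {ψ : ι → (M →+* ℚ_[p])}

theorem crt (hψ : Function.Injective ψ) (b : ι → ℤ) (r : ℕ) :
    ∃ y : 𝓞 M, ∀ i, ‖ψ i y - b i‖ ≤ ((p : ℝ) ^ r)⁻¹ := by
  obtain ⟨y, hy⟩ := IsDedekindDomain.exists_forall_sub_mem_ideal (s := Finset.univ)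
    (fun i => Pp (ψ i)) (fun _ => r) (fun i _ => Pp_prime _)
    (fun i _ j _ hij h => hij (hψ (Pp_inj h))) (fun i => (b i.1 : 𝓞 M))
  refine ⟨y, fun i => ?_⟩
  have h := hy i (Finset.mem_univ i)
  rwa [pow_eq_Ir, mem_Ir, zpow_neg_nat, RingOfIntegers.coe_eq_algebraMap, map_sub, map_sub,
    map_intCast, map_intCast] at h

theorem dual (hψ : Function.Injective ψ) (x : M) (h : ∀ y : 𝓞 M, ‖∑ i, ψ i (x * y)‖ ≤ 1)
    (i : ι) : ‖ψ i x‖ ≤ 1 := by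
  classical
  refine small (p := p) (∑ j, ‖ψ j x‖) fun r => ?_
  obtain ⟨y, hy⟩ := crt hψ (Pi.single i 1) r
  have e : ψ i x = ∑ j, ψ j (x * y) - ∑ j, ψ j x * (ψ j y - (Pi.single i 1 : ι → ℤ) j) := by
    rw [← Finset.sum_sub_distrib, Finset.sum_eq_single i]
    · simp only [map_mul, Pi.single_eq_same, Int.cast_one]; ring
    · intro j _ hj
      simp only [map_mul, Pi.single_eq_of_ne hj, Int.cast_zero]; ring
    · simp
  rw [e]
  refine (norm_sub_le _ _).trans (add_le_add (h y) ?_)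
  rw [Finset.sum_mul]
  refine norm_sum_le_of_le _ fun j _ => ?_
  rw [norm_mul]
  exact mul_le_mul_of_nonneg_left (hy j) (norm_nonneg _)

theorem trace_aux {Ω : Type} [Field Ω] [CharZero Ω] [IsAlgClosed Ω] (f : ℚ_[p] →+* Ω)
    (hψ : Function.Injective ψ) (hc : Fintype.card ι = Module.finrank ℚ M) (x : M) :
    ∑ i, ψ i x = (Algebra.trace ℚ M x : ℚ) := by
  classical
  let F : ι → (M →ₐ[ℚ] Ω) := fun i => (f.comp (ψ i)).toRatAlgHom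
  have hF : Function.Injective F := fun i j hij => hψ (RingHom.ext fun y =>
    f.injective (DFunLike.congr_fun hij y))
  have hB : Function.Bijective F :=
    (Fintype.bijective_iff_injective_and_card F).2 ⟨hF, hc.trans (AlgHom.card ℚ M Ω).symm⟩
  apply f.injective
  have h1 := trace_eq_sum_embeddings Ω (K := ℚ) (L := M) (x := x)
  rw [← hB.sum_comp (fun σ : M →ₐ[ℚ] Ω => σ x)] at h1
  rw [map_sum, map_ratCast]
  exact (h1.symm.trans (eq_ratCast _ _))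

theorem integral (hψ : Function.Injective ψ) (hc : Fintype.card ι = Module.finrank ℚ M) (x : M)
    (k : ℕ) (hx : IsIntegral ℤ ((p : M) ^ k * x)) (h : ∀ i, ‖ψ i x‖ ≤ 1) : IsIntegral ℤ x := by
  have hinf := IsDedekindDomain.inf_pow_eq_prod_of_prime Finset.univ (fun i => Pp (ψ i))
    (fun _ => k) (fun i _ => Pp_prime _) (fun i _ j _ hij h => hij (hψ (Pp_inj h)))
  have hpk : ∀ i, ‖ψ i ((p : M) ^ k)‖ = (p : ℝ) ^ (-k : ℤ) := fun i => by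
    rw [map_pow, map_natCast, Padic.norm_p_pow]
  have hle : Ideal.span {((p ^ k : ℕ) : 𝓞 M)} ≤ Finset.univ.inf fun i => Pp (ψ i) ^ k := by
    refine Finset.le_inf fun i _ => ?_
    rw [Ideal.span_singleton_le_iff_mem, pow_eq_Ir, mem_Ir, RingOfIntegers.coe_eq_algebraMap,
      map_natCast, Nat.cast_pow, hpk]
  have hn : Ideal.absNorm (Finset.univ.inf fun i => Pp (ψ i) ^ k) = (p ^ k) ^ Fintype.card ι := by
    rw [hinf, map_prod]
    simp [norm_Pp]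
  have he := eq_of_le hle (by rw [hn, Ideal.absNorm_span_natCast, RingOfIntegers.rank, hc])
    (by rw [hn]; exact pow_ne_zero _ (pow_ne_zero _ hp.out.ne_zero))
  let w : 𝓞 M := ⟨(p : M) ^ k * x, hx⟩
  have hw : w ∈ Ideal.span {((p ^ k : ℕ) : 𝓞 M)} := by
    rw [he, Submodule.mem_finsetInf]
    intro i _
    rw [pow_eq_Ir, mem_Ir]
    change ‖ψ i ((p : M) ^ k * x)‖ ≤ _
    rw [map_mul, norm_mul, hpk]
    exact mul_le_of_le_one_right (zpow_pos p_pos _).le (h i)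
  obtain ⟨u, hu⟩ := Ideal.mem_span_singleton.1 hw
  have h1 : (p : M) ^ k * x = (p : M) ^ k * (u : M) := by
    have := congrArg (algebraMap (𝓞 M) M) hu
    rw [map_mul, map_natCast, Nat.cast_pow] at this
    exact this
  have h2 : (p : M) ^ k ≠ 0 := pow_ne_zero _ (Nat.cast_ne_zero.2 hp.out.ne_zero)
  rw [mul_left_cancel₀ h2 h1]
  exact u.isIntegral_coe

end Pad

theorem pad : PadStmt := by
  intro M _ _ p _
  refine ⟨fun ψ => ⟨Pad.norm_le ψ, Pad.Pp_max ψ, Pad.norm_Pp ψ, ?_, Pad.val ψ⟩,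
    fun ι _ ψ hψ => ⟨Pad.crt hψ, Pad.dual hψ, fun hc =>
      ⟨Pad.trace_aux (algebraMap ℚ_[p] (AlgebraicClosure ℚ_[p])) hψ hc, Pad.integral hψ hc⟩⟩⟩
  rw [Pad.Pp_eq]
  exact Pad.cyc_Ir ψ 1

end Pool.Agent.Lib.MP_9177b7_ag.B
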