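import Pool.Agent.Lib.MP_9177b7_ag.B.StA
import Pool.Agent.Lib.MP_9177b7_ag.B.Cond

/-!
The product lemma: conditional measures are constant along contracted directions.
-/

open MeasureTheory ProbabilityTheory Filter Topology Set
open scoped ENNReal

noncomputable section

namespace Pool.Agent.Lib.MP_9177b7_ag.B

namespace Prod

/-- A countable family of measurable sets which determines probability measures. -/
theorem exists_family (G : Type) [MeasurableSpace G] [MeasurableSpace.CountablyGenerated G] :
    ∃ C : Set (Set G), C.Countable ∧ (∀ A ∈ C, MeasurableSet A) ∧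
      ∀ μ μ' : Measure G, IsProbabilityMeasure μ → IsProbabilityMeasure μ' →
        (∀ A ∈ C, (μ A).toReal = (μ' A).toReal) → μ = μ' := by
  have hgen : (inferInstance : MeasurableSpace G) = MeasurableSpace.generateFrom
      (generateSetAlgebra (MeasurableSpace.countableGeneratingSet G)) := by
    rw [generateFrom_generateSetAlgebra_eq, MeasurableSpace.generateFrom_countableGeneratingSet]
  refine ⟨generateSetAlgebra (MeasurableSpace.countableGeneratingSet G),
    countable_generateSetAlgebra MeasurableSpace.countable_countableGeneratingSet, ?_, ?_⟩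
  · intro A hA
    exact hgen.ge A (MeasurableSpace.measurableSet_generateFrom hA)
  · intro μ μ' h1 h2 h
    refine ext_of_generate_finite _ hgen ?_ (fun A hA => ?_) (by simp)
    · intro s hs t ht _
      exact isSetAlgebra_generateSetAlgebra.inter_mem hs ht
    · exact (ENNReal.toReal_eq_toReal_iff' (measure_ne_top _ _) (measure_ne_top _ _)).1 (h A hA)

section main

variable {G X : Type} [Group G] [MeasurableSpace G] [MeasurableSpace X] [MulAction G X]
  [MeasurableSMul₂ G X]

/-- The average of an invariant measure over a group commuting with `T` is invariant. -/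
theorem avg_inv {ν : Measure X} [IsFiniteMeasure ν] {U : Subgroup G} {μ : Measure G}
    [IsProbabilityMeasure μ] (h1 : ∀ᵐ g ∂μ, g ∈ U) {T : G} (hT : ν.map (T • ·) = ν)
    (hc : ∀ u ∈ U, T * u = u * T) :
    ((ν.prod μ).map fun p : X × G => p.2 • p.1).map (T • ·) =
      (ν.prod μ).map fun p : X × G => p.2 • p.1 := by
  have hTm : Measurable fun x : X => T • x := measurable_const_smul T
  refine Measure.ext_of_lintegral _ fun f hf => ?_
  have hΦ : Measurable fun x : X => ∫⁻ b, f (b • x) ∂μ :=
    (hf.comp Cond.meas_act).lintegral_prod_right'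
  rw [lintegral_map hf hTm, Cond.lint_act ν μ (Φ := fun y => f (T • y)) (hf.comp hTm),
    Cond.lint_act ν μ hf]
  conv_rhs => rw [← hT, lintegral_map hΦ hTm]
  refine lintegral_congr fun x => lintegral_congr_ae ?_
  filter_upwards [h1] with b hb
  rw [smul_smul, smul_smul, hc b hb]

omit [MeasurableSMul₂ G X] in
/-- Equality of conditional measures passes along the orbits. -/
theorem eq_smul {ν : Measure X} {U : Subgroup G} {κ : Kernel X G} (hκ : IsCond U ν κ) {x y : X}
    {u : G} (hu : u ∈ U) (h : κ x = κ y) : κ (u • x) = κ (u • y) := by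
  rw [hκ.equi u hu x, hκ.equi u hu y, h]

end main

end Prod

theorem prod_stmt : TowerStmt → HopfStmt → ProdStmt := by
  intro hTower hHopf G X _ _ _ _ _ _ _ _ _ _ _ _ _ ν _ U κ T V hU hκ hT hc hV hcontr
  have hmk := hκ.markov
  obtain ⟨μ, hμ, h1, h2⟩ := Cond.exists_haar U hU
  obtain ⟨C, hCc, hCm, hCe⟩ := Prod.exists_family G
  have hTm : Measurable fun x : X => T • x := measurable_const_smul T
  -- the conditional measures are invariant under `T`
  have hinv : ∀ᵐ x ∂ν, κ (T • x) = κ x := by
    have hiff : ∀ g, g ∈ U ↔ T⁻¹ * g * T ∈ U := by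
      intro g
      constructor
      · intro hg
        have e : T⁻¹ * g * T = g := by rw [mul_assoc, ← hc g hg, inv_mul_cancel_left]
        rwa [e]
      · intro hg
        have e := hc _ hg
        have e' : g = T⁻¹ * g * T := by
          have : T * (T⁻¹ * g * T) = g * T := by group
          rw [this] at e
          exact mul_right_cancel e
        rwa [e']
    filter_upwards [(hTower G X ν U U κ κ hU hU hκ hκ).2 T hT hiff] with x hx
    rw [hx]
    have hs : ∀ᵐ g ∂κ x, g ∈ U := hκ.supp x
    have e : (fun g => T * g * T⁻¹) =ᵐ[κ x] id := by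
      filter_upwards [hs] with g hg
      rw [hc g hg, mul_inv_cancel_right, id]
    rw [Measure.map_congr e, Measure.map_id]
  set νb : Measure X := (ν.prod μ).map fun p : X × G => p.2 • p.1 with hνb
  have hνbT : νb.map (T • ·) = νb := Prod.avg_inv h1 hT hc
  have hF : ∀ A ∈ C, Measurable fun x => (κ x A).toReal := fun A hA =>
    (κ.measurable_coe (hCm A hA)).ennreal_toReal
  have hH : ∀ A ∈ C, ∃ X' : Set X, MeasurableSet X' ∧ (∀ᵐ x ∂νb, x ∈ X') ∧
      ∀ w ∈ V, ∀ x ∈ X', w • x ∈ X' → (κ (w • x) A).toReal = (κ x A).toReal := by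
    intro A hA
    refine hHopf G X νb T V (fun x => (κ x A).toReal) hνbT (hF A hA) (fun x => ?_) ?_ hcontr
    · rw [abs_of_nonneg ENNReal.toReal_nonneg]
      exact ENNReal.toReal_le_of_le_ofReal zero_le_one (by simpa using prob_le_one)
    · refine (ae_map_iff Cond.meas_act.aemeasurable
        (p := fun x => (κ (T • x) A).toReal = (κ x A).toReal)
        (measurableSet_eq_fun ((hF A hA).comp hTm) (hF A hA))).2 ?_
      filter_upwards [Measure.quasiMeasurePreserving_fst.ae hinv,
        Measure.quasiMeasurePreserving_snd.ae h1] with q hq hqU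
      have e : T • q.2 • q.1 = q.2 • T • q.1 := by rw [smul_smul, smul_smul, hc _ hqU]
      rw [e, Prod.eq_smul hκ hqU hq]
  choose! Y hYm hYae hY using hH
  set Z : Set X := ⋂ A ∈ C, Y A with hZ
  have hZm : MeasurableSet Z := MeasurableSet.biInter hCc hYm
  have hZae : ∀ᵐ x ∂νb, x ∈ Z := by
    have := (ae_ball_iff hCc).2 hYae
    filter_upwards [this] with x hx
    exact mem_iInter₂.2 hx
  have hZe : ∀ w ∈ V, ∀ x ∈ Z, w • x ∈ Z → κ (w • x) = κ x := by
    intro w hw x hx hwx
    exact hCe _ _ inferInstance inferInstance fun A hA =>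
      hY A hA w hw x (mem_iInter₂.1 hx A hA) (mem_iInter₂.1 hwx A hA)
  refine ⟨{z | ∀ᵐ u ∂μ, u • z ∈ Z}, ?_, ?_, ?_, ?_⟩
  · have hs : MeasurableSet ((fun p : X × G => p.2 • p.1) ⁻¹' Zᶜ) := Cond.meas_act hZm.compl
    exact measurable_measure_prodMk_left (ν := μ) hs (measurableSet_singleton 0)
  · exact Measure.ae_ae_of_ae_prod (ae_of_ae_map Cond.meas_act.aemeasurable hZae)
  · intro u hu z hz
    have hs : MeasurableSet {g : G | g • z ∉ Z} := (measurable_smul_const z) hZm.compl
    have e := h2 u hu (indicator {g : G | g • z ∉ Z} 1) (measurable_one.indicator hs)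
    rw [lintegral_indicator_one hs] at e
    have hz0 : μ {g : G | g • z ∉ Z} = 0 := hz
    rw [hz0] at e
    have hs' : MeasurableSet {g : G | g • u • z ∉ Z} := (measurable_smul_const (u • z)) hZm.compl
    show μ {g : G | g • u • z ∉ Z} = 0
    rw [← lintegral_indicator_one hs', ← e]
    refine lintegral_congr fun g => ?_
    have hi : g ∈ {g : G | g • u • z ∉ Z} ↔ g * u ∈ {g : G | g • z ∉ Z} := by
      show g • u • z ∉ Z ↔ (g * u) • z ∉ Z
      rw [mul_smul]
    by_cases hg : g ∈ {g : G | g • u • z ∉ Z}
    · rw [indicator_of_mem hg, indicator_of_mem (hi.1 hg)]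
      rfl
    · rw [indicator_of_notMem hg, indicator_of_notMem fun h => hg (hi.2 h)]
  · intro w hw z hz hwz
    have hz' : ∀ᵐ u ∂μ, u • z ∈ Z := hz
    have hwz' : ∀ᵐ u ∂μ, u • w • z ∈ Z := hwz
    obtain ⟨u, ⟨hu1, hu2⟩, huU⟩ := ((hz'.and hwz').and h1).exists
    have e : u • w • z = (u * w * u⁻¹) • u • z := by
      rw [smul_smul, smul_smul, inv_mul_cancel_right]
    have e2 : κ (u • w • z) = κ (u • z) := by
      rw [e] at hu2 ⊢
      exact hZe _ (hV u huU w hw) _ hu1 hu2
    have e3 := Prod.eq_smul hκ (U.inv_mem huU) e2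
    rwa [inv_smul_smul, inv_smul_smul] at e3

end Pool.Agent.Lib.MP_9177b7_ag.B
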