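import Pool.Agent.Lib.MP_9177b7_ag.B.St

/-! The projections to the real quotient and to the ball quotient. -/

open NumberField Matrix Filter Topology

noncomputable section

namespace Pool.Agent.Lib.MP_9177b7_ag.B

namespace Proj

variable {n p : ℕ} [Fact p.Prime]

theorem intg_iff (h : HP n p) : Intg h ↔
    h ∈ (SpecialLinearGroup.map (n := Fin (n + 3)) (PadicInt.Coe.ringHom (p := p))).range := by
  constructor
  · intro H
    let A : Matrix (Fin (n + 3)) (Fin (n + 3)) ℤ_[p] := fun i j => ⟨h i j, H i j⟩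
    have e : (PadicInt.Coe.ringHom (p := p)).mapMatrix A = h.1 := by
      ext i j
      rfl
    have hA : A.det = 1 := by
      have h1 := (PadicInt.Coe.ringHom (p := p)).map_det A
      rw [e, h.2] at h1
      exact Subtype.ext h1
    exact ⟨⟨A, hA⟩, Subtype.ext e⟩
  · rintro ⟨A, rfl⟩ i j
    exact (A i j).2

theorem intg_one : Intg (1 : HP n p) := (intg_iff _).2 (one_mem _)

theorem intg_mul {g h : HP n p} (hg : Intg g) (hh : Intg h) : Intg (g * h) :=
  (intg_iff _).2 (mul_mem ((intg_iff _).1 hg) ((intg_iff _).1 hh))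

theorem intg_inv {g : HP n p} (hg : Intg g) : Intg g⁻¹ :=
  (intg_iff _).2 (inv_mem ((intg_iff _).1 hg))

theorem isOpen_intg : IsOpen {h : HP n p | Intg h} := by
  have : {h : HP n p | Intg h} =
      ⋂ i, ⋂ j, (fun h : HP n p => h i j) ⁻¹' Metric.closedBall 0 1 := by
    ext h
    simp [Intg]
  rw [this]
  refine isOpen_iInter_of_finite fun i => isOpen_iInter_of_finite fun j => ?_
  refine (IsUltrametricDist.isOpen_closedBall _ one_ne_zero).preimage ?_
  exact (continuous_apply_apply i j).comp continuous_subtype_val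

theorem proj_mk (n : ℕ) (K : IntermediateField ℚ ℂ)
    (h5 : ∀ g : SU n, g ∈ G1 n K → ∀ i j, g.1 i j ∈ OK K) (g : SU n) (v : Cone n) (z : ℂ)
    (hv : v.1 = z • g⁻¹.1.1 *ᵥ v0 n) : proj n K (QuotientGroup.mk g) = Quot.mk _ v := by
  obtain ⟨γ, hγ⟩ := QuotientGroup.mk_out_eq_mul (G1 n K) g
  refine Quot.sound ⟨γ.1.1.1, z, γ.1.2, h5 γ.1 γ.2, ?_⟩
  have e : γ.1 * (QuotientGroup.mk g : YY n K).out⁻¹ = g⁻¹ := by
    rw [hγ]
    group
  change v.1 = z • γ.1.1.1 *ᵥ ((QuotientGroup.mk g : YY n K).out⁻¹.1.1 *ᵥ v0 n)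
  rw [hv, mulVec_mulVec, ← e]
  rfl

end Proj

open Proj in
theorem proj_stmt : DiscStmt → DensPStmt → ProjStmt := by
  intro hD hP n p _ c
  obtain ⟨-, -, -, -, h5, h6, -⟩ := hD n p c
  have h3 := proj_mk n c.K fun g hg => (h5 g).1 hg
  refine ⟨?_, ?_, h3⟩
  · have hr : ∀ x : c.XX n, ∃ r : GG n p, Intg r.1 ∧ QuotientGroup.mk r = x := fun x => by
      obtain ⟨γ, hγ, h⟩ := hP n p c x.out.1
      exact ⟨x.out * γ, h, (QuotientGroup.mk_mul_of_mem _ hγ).trans x.out_eq⟩
    choose r rK rx using hr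
    have hj : ∀ g : GG n p, Intg g.1 →
        (QuotientGroup.mk (r (QuotientGroup.mk g)).2 : YY n c.K) = QuotientGroup.mk g.2 :=
      fun g hg => QuotientGroup.eq.2 (h6 _ (QuotientGroup.eq.1 (rx (QuotientGroup.mk g)))
        (intg_mul (intg_inv (rK _)) hg))
    refine ⟨fun x => QuotientGroup.mk (r x).2, ?_, hj, fun g x => ?_⟩
    · refine (QuotientGroup.isQuotientMap_mk _).continuous_iff.2
        (continuous_iff_continuousAt.2 fun g => ?_)
      obtain ⟨γ, hγ, h⟩ := hP n p c g.1
      have c1 : Continuous fun g' : GG n p => g' * γ := continuous_mul_const γ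
      refine (QuotientGroup.continuous_mk.comp (continuous_snd.comp c1)).continuousAt.congr ?_
      filter_upwards [(isOpen_intg.preimage (continuous_fst.comp c1)).mem_nhds h] with g' hg'
      refine (hj (g' * γ) hg').symm.trans ?_
      rw [QuotientGroup.mk_mul_of_mem _ hγ]
      rfl
    · have e : ((1, g) : GG n p) • x = QuotientGroup.mk (((1, g) : GG n p) * r x) := by
        conv_lhs => rw [← rx x]
        rfl
      rw [e]
      exact hj _ (intg_mul intg_one (rK x))
  · refine (QuotientGroup.isQuotientMap_mk _).continuous_iff.2 ?_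
    have e : proj n c.K ∘ QuotientGroup.mk = fun g : SU n =>
        Quot.mk _ (⟨g⁻¹.1.1 *ᵥ v0 n, neg_smul_v0 n _⟩ : Cone n) :=
      funext fun g => h3 g _ 1 (one_smul _ _).symm
    rw [e]
    have c1 : Continuous fun g : SU n => (g.1 : SpecialLinearGroup (Fin (n + 3)) ℂ) :=
      continuous_subtype_val
    have c2 : Continuous fun g : SpecialLinearGroup (Fin (n + 3)) ℂ => g.1 :=
      continuous_subtype_val
    have c3 : Continuous fun g : SU n => g⁻¹.1.1 *ᵥ v0 n :=
      ((c2.comp c1).comp continuous_inv).matrix_mulVec continuous_const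
    exact continuous_quot_mk.comp (c3.subtype_mk _)

end Pool.Agent.Lib.MP_9177b7_ag.B
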