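import Pool.Agent.Lib.MP_9177b7_ag.B.StA

/-!
A section for the unipotent radical where all root conditional measures are trivial.
-/

open MeasureTheory ProbabilityTheory Filter Topology Set Matrix

namespace Pool.Agent.Lib.MP_9177b7_ag.B

namespace Sec

variable {n p : ℕ} [Fact p.Prime] {a b : Fin (n + 3)} {I : Finset (Fin (n + 3))}

lemma ur_compact (h : a ≠ b) : IsCompact (Ur p h : Set (HP n p)) := by
  have c : Continuous fun s : ℚ_[p] => (SpecialLinearGroup.transvection h s : HP n p) := by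
    refine Continuous.subtype_mk (continuous_const.add (continuous_matrix fun i j => ?_)) _
    simp only [Matrix.single_apply]
    split_ifs
    exacts [continuous_id, continuous_const]
  have e : (Ur p h : Set (HP n p)) =
      (fun s => SpecialLinearGroup.transvection h s) '' Metric.closedBall 0 1 := by
    ext u
    exact ⟨fun ⟨s, hs, e⟩ => ⟨s, by simpa using hs, e.symm⟩,
      fun ⟨s, hs, e⟩ => ⟨s, by simpa using hs, e.symm⟩⟩
  exact e ▸ (isCompact_closedBall _ _).image c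

/-- The entries of the product of a transvection and an element of the radical. -/
lemma tv_mul (h : a ≠ b) (hb : b ∉ I) (s : ℚ_[p]) {u : HP n p} (hu : u ∈ UI p I) (i j) :
    (SpecialLinearGroup.transvection h s * u) i j = u i j + if i = a ∧ j = b then s else 0 := by
  show (transvection a b s * u.1) i j = u.1 i j + _
  by_cases e : i = a
  · subst e
    have := hu.2 b j fun h => hb h.1
    rw [transvection_mul_apply_same, show u.1 b j = _ from this, one_apply]
    simp [eq_comm]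
  · rw [transvection_mul_apply_of_ne _ _ _ _ e]
    simp [e]

lemma mul_tv (h : a ≠ b) (ha : a ∈ I) (s : ℚ_[p]) {u : HP n p} (hu : u ∈ UI p I) (i j) :
    (u * SpecialLinearGroup.transvection h s) i j = u i j + if i = a ∧ j = b then s else 0 := by
  show (u.1 * transvection a b s) i j = u.1 i j + _
  by_cases e : j = b
  · subst e
    have := hu.2 i a fun h => h.2 ha
    rw [mul_transvection_apply_same, show u.1 i a = _ from this, one_apply]
    simp
  · rw [mul_transvection_apply_of_ne _ _ _ _ e]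
    simp [e]

lemma pne : (p : ℚ_[p]) ≠ 0 := Nat.cast_ne_zero.2 (Fact.out : p.Prime).ne_zero

lemma dgp_pow (k : Fin (n + 3) → ℤ) (hk : ∑ i, k i = 0) (m : ℕ) :
    (dgp p k hk ^ m).1 = diagonal fun i => (p : ℚ_[p]) ^ (k i * m) := by
  refine (Matrix.SpecialLinearGroup.coe_pow _ m).trans ((diagonal_pow _ m).trans ?_)
  exact congrArg _ (funext fun i => by rw [Pi.pow_apply, _root_.zpow_mul, _root_.zpow_natCast])

lemma conj (k : Fin (n + 3) → ℤ) (hk : ∑ i, k i = 0) (m : ℕ) (w : HP n p) (i j) :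
    (dgp p k hk ^ m * w * (dgp p k hk ^ m)⁻¹) i j = (p : ℚ_[p]) ^ ((k i - k j) * m) * w i j := by
  have e : ((dgp p k hk ^ m * w * (dgp p k hk ^ m)⁻¹).1 * (dgp p k hk ^ m).1) i j =
      ((dgp p k hk ^ m).1 * w.1) i j := congrArg (fun g : HP n p => g.1 i j)
    (inv_mul_cancel_right (dgp p k hk ^ m * w) (dgp p k hk ^ m))
  rw [dgp_pow, mul_diagonal, diagonal_mul] at e
  rw [sub_mul, zpow_sub₀ pne, div_mul_eq_mul_div, eq_div_iff (zpow_ne_zero _ pne)]
  exact e

lemma nhds_one {O : Set (HP n p)} (hO : O ∈ 𝓝 (1 : HP n p)) : ∃ ε : ℝ, 0 < ε ∧ ∀ g : HP n p,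
    (∀ i j, ‖g i j - (1 : Matrix (Fin (n + 3)) (Fin (n + 3)) ℚ_[p]) i j‖ < ε) → g ∈ O := by
  obtain ⟨O', h1, h2⟩ := (mem_nhds_induced _ _ _).1 hO
  obtain ⟨ε, h0, h3⟩ := (Metric.mem_nhds_iff (α := Fin (n + 3) → Fin (n + 3) → ℚ_[p])).1 h1
  exact ⟨ε, h0, fun g hg => h2 (h3 ((dist_pi_lt_iff h0).2 fun i => (dist_pi_lt_iff h0).2 fun j =>
    (dist_eq_norm _ _).trans_lt (hg i j)))⟩

/-- The product lemma for the root `(a, b)`. -/
lemma one (hP : ProdStmt) (S : Sp n p) (ν : Measure S.X) [IsProbabilityMeasure ν] (h : a ≠ b)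
    (κ : Kernel S.X (HP n p)) (hA : S.AInv ν) (hκ : IsCond (Ur p h) ν κ) :
    ∃ X' : Set S.X, MeasurableSet X' ∧ (∀ᵐ x ∂ν, x ∈ X') ∧ (a ∈ I → b ∉ I →
      (∀ u ∈ Ur p h, ∀ x ∈ X', u • x ∈ X') ∧
      ∀ w ∈ UI p I, w a b = 0 → ∀ x ∈ X', w • x ∈ X' → κ (w • x) = κ x) := by
  by_cases hI : a ∈ I ∧ b ∉ I
  swap
  · exact ⟨univ, .univ, .of_forall fun _ => trivial, fun ha hb => absurd ⟨ha, hb⟩ hI⟩
  obtain ⟨ha, hb⟩ := hI
  let k₀ : Fin (n + 3) → ℤ := fun i => if i = a ∨ i = b then 0 else if i ∈ I then 1 else -1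
  let k : Fin (n + 3) → ℤ := fun i => (n + 3 : ℕ) * k₀ i - ∑ j, k₀ j
  have hk : ∑ i, k i = 0 := by
    simp only [k, Finset.sum_sub_distrib, ← Finset.mul_sum, Finset.sum_const, Finset.card_univ,
      Fintype.card_fin, nsmul_eq_mul, sub_self]
  have k1 : ∀ i j, i ∈ I → j ∉ I → ¬ (i = a ∧ j = b) → 1 ≤ k i - k j := fun i j hi hj e => by
    have e1 : i ≠ b := fun e => hb (e ▸ hi)
    have e2 : j ≠ a := fun e => hj (e ▸ ha)
    have : 1 ≤ k₀ i - k₀ j := by
      simp only [k₀, e1, e2, hi, hj, or_false, false_or, if_true, if_false]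
      split_ifs <;> simp_all
    have e3 : k i - k j = (n + 3 : ℕ) * (k₀ i - k₀ j) := by simp only [k]; ring
    rw [e3]
    push_cast
    nlinarith [Int.natCast_nonneg n]
  refine (hP (HP n p) S.X ν (Ur p h) κ (dgp p k hk) {w | w ∈ UI p I ∧ w a b = 0} (ur_compact h) hκ
    (hA k hk) ?_ ?_ ?_).imp fun X' x =>
      ⟨x.1, x.2.1, fun _ _ => ⟨x.2.2.1, fun w hw h0 => x.2.2.2 w ⟨hw, h0⟩⟩⟩
  · rintro _ ⟨s, -, rfl⟩
    rw [← mul_inv_eq_iff_eq_mul, ← pow_one (dgp p k hk)]
    ext i j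
    rw [conj, SpecialLinearGroup.transvection_coe, Matrix.add_apply, one_apply, single_apply]
    by_cases e : i = j
    · simp [e]
    · by_cases e' : a = i ∧ b = j
      · obtain ⟨rfl, rfl⟩ := e'
        simp [k, k₀]
      · simp [e, e']
  · rintro _ ⟨s, -, rfl⟩ w hw
    have : SpecialLinearGroup.transvection h s * w = w * SpecialLinearGroup.transvection h s := by
      ext i j
      exact (tv_mul h hb s hw.1 i j).trans (mul_tv h ha s hw.1 i j).symm
    rwa [this, mul_inv_cancel_right]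
  · intro O hO
    obtain ⟨ε, h0, hε⟩ := nhds_one hO
    have hp : (1 : ℝ) < p := by exact_mod_cast (Fact.out : p.Prime).one_lt
    filter_upwards [(tendsto_pow_atTop_nhds_zero_of_lt_one (inv_nonneg.2 (zero_lt_one.trans hp).le)
      (inv_lt_one_of_one_lt₀ hp)).eventually (gt_mem_nhds h0)] with m hm w hw
    refine hε _ fun i j => ?_
    rw [conj]
    by_cases e : i ∈ I ∧ j ∉ I
    · have e1 : i ≠ j := fun e' => e.2 (e' ▸ e.1)
      rw [one_apply_ne e1, sub_zero]
      by_cases e' : i = a ∧ j = b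
      · rw [e'.1, e'.2, hw.2, mul_zero, norm_zero]
        exact h0
      · refine lt_of_le_of_lt ?_ hm
        rw [norm_mul, Padic.norm_p_zpow, inv_pow, ← zpow_natCast, ← _root_.zpow_neg]
        refine (mul_le_of_le_one_right (by positivity) (hw.1.1 i j)).trans
          (zpow_le_zpow_right₀ hp.le ?_)
        nlinarith [k1 i j e.1 e.2 e', Int.natCast_nonneg m]
    · rw [hw.1.2 i j e, one_apply]
      split_ifs with e'
      · simpa [e'] using h0
      · simpa using h0

end Sec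

open Sec in
theorem sec : ProdStmt → LevStmt → SecStmt := by
  intro hP hL n p _ S ν _ κ I hA hκ
  choose X' x1 x2 x3 using fun a b h => one (I := I) hP S ν h (κ a b h) hA (hκ a b h)
  refine ⟨⋂ a, ⋂ b, ⋂ h : a ≠ b, ⋂ _ : a ∈ I, ⋂ _ : b ∉ I,
    {x | κ a b h x = Measure.dirac 1} ∩ X' a b h, ?_, ?_, fun u hu x hx hux => ?_⟩
  · refine .iInter fun a => .iInter fun b => .iInter fun h => .iInter fun _ => .iInter fun _ => ?_
    exact (hL (HP n p) S.X ν _ _ (ur_compact h) (hκ a b h)).1.inter (x1 a b h)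
  · have : ∀ᵐ x ∂ν, ∀ a b h, x ∈ X' a b h :=
      ae_all_iff.2 fun a => ae_all_iff.2 fun b => ae_all_iff.2 fun h => x2 a b h
    filter_upwards [this] with x h1 h2
    simp only [mem_iInter]
    exact fun a b h ha hb => ⟨h2 a b h ha hb, h1 a b h⟩
  · simp only [mem_iInter] at hx hux
    ext a b
    by_cases e : a ∈ I ∧ b ∉ I
    swap
    · exact hu.2 a b e
    obtain ⟨ha, hb⟩ := e
    have h : a ≠ b := fun e => hb (e ▸ ha)
    obtain ⟨y1, y2⟩ := x3 a b h ha hb
    set t := SpecialLinearGroup.transvection h (-u a b) with ht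
    have m : t ∈ Ur p h := ⟨_, by rw [norm_neg]; exact hu.1 a b, rfl⟩
    have w0 : (t * u) a b = 0 := by simp [ht, tv_mul h hb _ hu]
    have w1 : t * u ∈ UI p I := ⟨fun i j => by
      by_cases e : i = a ∧ j = b
      · rw [e.1, e.2, w0, norm_zero]
        exact zero_le_one
      · rw [ht, tv_mul h hb _ hu, if_neg e, add_zero]
        exact hu.1 i j, fun i j e => by
      rw [ht, tv_mul h hb _ hu, if_neg (fun e' : i = a ∧ j = b => e ⟨e'.1 ▸ ha, e'.2 ▸ hb⟩), add_zero]
      exact hu.2 i j e⟩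
    have e1 := y2 _ w1 w0 x (hx a b h ha hb).2 (mul_smul t u x ▸ y1 t m _ (hux a b h ha hb).2)
    rw [mul_smul, (hκ a b h).equi t m, (hux a b h ha hb).1, (hx a b h ha hb).1,
      Measure.map_dirac' (measurable_mul_const _), dirac_eq_dirac_iff, one_mul, inv_eq_one] at e1
    rw [e1, one_mul] at w0
    exact w0.trans (one_apply_ne h).symm

end Pool.Agent.Lib.MP_9177b7_ag.B
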