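import Pool.Agent.Lib.MP_9177b7_ag.J.Sieve
import Pool.Agent.Lib.MP_9177b7_ag.B.StS

/-!
Selberg's upper bound sieve in a box of `ℤ ^ d`.
-/

open Finset Function
open Pool.Agent.Shared.SelbergUpper

noncomputable section

namespace Pool.Agent.Lib.MP_9177b7_ag.B

namespace SieveN

/-- Periodic functions. -/
def Per {d : ℕ} (M : ℕ) (h : (Fin d → ℤ) → ℝ) : Prop := ∀ u v, CgN M u v → h u = h v

theorem sum_cons {d : ℕ} (a : Fin (d + 1) → ℤ) (A : Fin (d + 1) → ℕ) (h : (Fin (d + 1) → ℤ) → ℝ) :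
    ∑ u ∈ boxN a A, h u = ∑ s ∈ range (A 0),
      ∑ v ∈ boxN (fun i => a i.succ) (fun i => A i.succ), h (Fin.cons (a 0 + s) v) := by
  rw [← sum_product']
  refine sum_nbij' (fun u => ((u 0 - a 0).toNat, Fin.tail u)) (fun x => Fin.cons (a 0 + x.1) x.2)
    (fun u hu => ?_) (fun x hx => ?_) (fun u hu => ?_) (fun x _ => ?_) fun u hu => ?_
  · rw [boxN, Fintype.mem_piFinset] at hu
    have h0 := mem_Ico.1 (hu 0)
    exact mem_product.2 ⟨mem_range.2 (by omega), Fintype.mem_piFinset.2 fun i => hu i.succ⟩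
  · obtain ⟨h1, h2⟩ := mem_product.1 hx
    have h3 := mem_range.1 h1
    refine Fintype.mem_piFinset.2 fun i => ?_
    refine Fin.cases ?_ (fun i => ?_) i
    · rw [Fin.cons_zero]
      exact mem_Ico.2 ⟨by omega, by omega⟩
    · rw [Fin.cons_succ]
      exact Fintype.mem_piFinset.1 h2 i
  · rw [boxN, Fintype.mem_piFinset] at hu
    have h0 := mem_Ico.1 (hu 0)
    simp only
    rw [show a 0 + ((u 0 - a 0).toNat : ℤ) = u 0 by omega, Fin.cons_self_tail]
  · simp
  · rw [boxN, Fintype.mem_piFinset] at hu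
    have h0 := mem_Ico.1 (hu 0)
    simp only
    rw [show a 0 + ((u 0 - a 0).toNat : ℤ) = u 0 by omega, Fin.cons_self_tail]

theorem den_cons {d : ℕ} (M : ℕ) (h : (Fin (d + 1) → ℤ) → ℝ) :
    denN M h = (∑ s ∈ range M, denN M fun v => h (Fin.cons (s : ℤ) v)) / M := by
  simp only [denN]
  rw [sum_cons, ← sum_div, div_div, ← pow_succ]
  simp only [Pi.zero_apply, zero_add]
  rfl

theorem den_zero (M : ℕ) (h : (Fin 0 → ℤ) → ℝ) : denN M h = h 0 := by
  rw [denN, pow_zero, div_one, boxN, Fintype.piFinset_of_isEmpty, Finset.univ_unique, sum_singleton]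
  exact congrArg h (Subsingleton.elim _ _)

theorem Per.cons {d M : ℕ} {h : (Fin (d + 1) → ℤ) → ℝ} (hp : Per M h) (x : ℤ) :
    Per M fun v => h (Fin.cons x v) := fun u v huv => hp _ _ fun i => by
  refine Fin.cases ?_ (fun i => ?_) i
  · simp
  · simpa using huv i

theorem Per.add {d M : ℕ} {h : (Fin (d + 1) → ℤ) → ℝ} (hp : Per M h) (x : ℤ) (v : Fin d → ℤ) :
    h (Fin.cons (x + M) v) = h (Fin.cons x v) := hp _ _ fun i => by
  refine Fin.cases ?_ (fun i => ?_) i <;> simp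

theorem card_full (d M : ℕ) : #(boxN (0 : Fin d → ℤ) fun _ => M) = M ^ d := by
  simp [boxN]

theorem den_abs {d M : ℕ} (hM : 0 < M) {h : (Fin d → ℤ) → ℝ} (h1 : ∀ u, |h u| ≤ 1) :
    |denN M h| ≤ 1 := by
  have hM' : (0 : ℝ) < (M : ℝ) ^ d := by positivity
  rw [denN, abs_div, abs_of_pos hM', div_le_one hM']
  refine (abs_sum_le_sum_abs _ _).trans ((sum_le_card_nsmul _ _ 1 fun u _ => h1 u).trans ?_)
  rw [card_full]
  simp

theorem den_aff {d M : ℕ} (hM : 0 < M) (c c' : ℝ) (h : (Fin d → ℤ) → ℝ) :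
    denN M (fun u => c + c' * h u) = c + c' * denN M h := by
  have hM' : (0 : ℝ) < (M : ℝ) ^ d := by positivity
  rw [denN, denN, sum_add_distrib, ← mul_sum, sum_const, card_full, nsmul_eq_mul]
  push_cast
  field_simp

theorem per_box {M : ℕ} (hM : 0 < M) {y : ℝ} (hy : 0 < y) (d : ℕ) :
    ∀ (a : Fin d → ℤ) (A : Fin d → ℕ) (f : (Fin d → ℤ) → ℝ), Per M f → (∀ u, |f u| ≤ 1) →
      (∀ i, y ≤ A i) → ∑ u ∈ boxN a A, f u ≤
        (∏ i, (A i : ℝ)) * denN M f + 2 * d * M / y * ∏ i, (A i : ℝ) := by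
  induction d with
  | zero =>
    intro a A f _ _ _
    rw [den_zero, boxN, Fintype.piFinset_of_isEmpty, Finset.univ_unique, sum_singleton]
    simp only [univ_eq_empty, prod_empty, one_mul, Nat.cast_zero, mul_zero, zero_mul, zero_div,
      add_zero]
    exact le_of_eq (congrArg f (Subsingleton.elim _ _))
  | succ d ih =>
    intro a A f hp h1 hA
    rw [sum_cons, Fin.prod_univ_succ]
    obtain ⟨Q, hQ⟩ : ∃ Q, Q = ∏ i : Fin d, (A i.succ : ℝ) := ⟨_, rfl⟩
    have Q0 : 0 ≤ Q := hQ ▸ prod_nonneg fun _ _ => Nat.cast_nonneg _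
    have a1 := fun s : ℕ => ih (fun i => a i.succ) (fun i => A i.succ) _ (hp.cons (a 0 + s))
      (fun _ => h1 _) fun i => hA i.succ
    have a2 := per_le hM (f := fun s : ℕ => denN M fun v => f (Fin.cons (a 0 + s) v))
      (fun s => by simp only [Nat.cast_add, ← add_assoc, hp.add]) (M := 1)
      (fun s => den_abs hM fun _ => h1 _) (A 0)
    rw [J.Sieve.shift (p := M) (f := fun x => denN M fun v => f (Fin.cons x v))
      (fun x => by simp only [hp.add]), ← den_cons] at a2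
    rw [← hQ] at a1 ⊢
    refine (sum_le_sum fun s _ => a1 s).trans ?_
    rw [sum_add_distrib, ← mul_sum, sum_const, card_range, nsmul_eq_mul]
    have a3 := mul_le_mul_of_nonneg_left a2 Q0
    have a4 : (2 * M * Q : ℝ) ≤ 2 * M / y * (A 0 * Q) := by
      rw [div_mul_eq_mul_div, le_div_iff₀ hy]
      have := mul_le_mul_of_nonneg_left (hA 0) (show (0 : ℝ) ≤ 2 * M * Q by positivity)
      linarith
    have a5 : (2 * ((d + 1 : ℕ) : ℝ) * M / y) = 2 * d * M / y + 2 * M / y := by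
      push_cast
      ring
    rw [a5]
    linarith

theorem crtN (S : Finset ℕ) (hS : ∀ p ∈ S, p.Prime) (d : ℕ) :
    ∀ f : ℕ → (Fin d → ℤ) → ℝ, (∀ p ∈ S, Per p (f p)) →
      denN (∏ p ∈ S, p) (fun u => ∏ p ∈ S, f p u) = ∏ p ∈ S, denN p (f p) := by
  induction d with
  | zero =>
    intro f _
    simp only [den_zero]
  | succ d ih =>
    intro f hp
    rw [den_cons, sum_congr rfl fun (s : ℕ) _ =>
        ih (fun p v => f p (Fin.cons (s : ℤ) v)) fun p h => (hp p h).cons s,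
      crt S hS (f := fun p s => denN p fun v => f p (Fin.cons (s : ℤ) v))
        fun p h s => by simp only [Nat.cast_add, (hp p h).add],
      Nat.cast_prod, ← prod_div_distrib]
    exact prod_congr rfl fun p _ => (den_cons p (f p)).symm

open Classical in
/-- Selberg's sieve in a box. -/
theorem selberg {d : ℕ} (P : Finset ℕ) (hP : ∀ p ∈ P, p.Prime) (e : ℕ → (Fin d → ℤ) → Prop)
    (he : ∀ p ∈ P, ∀ u v, CgN p u v → (e p u ↔ e p v))
    (α : ℕ → ℝ) (hα : ∀ p ∈ P, denN p (fun u => if e p u then (1 : ℝ) else 0) = α p)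
    (a0 : ∀ p ∈ P, 0 ≤ α p) (a2 : ∀ p ∈ P, α p ≤ 1 / 2)
    {z y : ℝ} (hz : 1 ≤ z) (hy : 0 < y) (a : Fin d → ℤ) (A : Fin d → ℕ) (hA : ∀ i, y ≤ A i) :
    (∑ u ∈ boxN a A, if ∀ p ∈ P, ¬ e p u then (1 : ℝ) else 0) *
      G P (fun p => α p / (1 - α p)) z ≤
      ∏ i, (A i : ℝ) + 2 * d * z ^ 4 / y * ∏ i, (A i : ℝ) := by
  have a1 : ∀ p ∈ P, 0 < 1 - α p := fun p hp => by linarith [a2 p hp]
  set g : ℕ → ℝ := fun p => α p / (1 - α p) with hg
  have g0 : ∀ p ∈ P, 0 ≤ g p := fun p hp => div_nonneg (a0 p hp) (a1 p hp).le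
  have G1 := one_le_G g0 hz
  obtain ⟨Q, hQ⟩ : ∃ Q, Q = ∏ i, (A i : ℝ) := ⟨_, rfl⟩
  have Q0 : 0 ≤ Q := hQ ▸ prod_nonneg fun _ _ => Nat.cast_nonneg _
  rw [← hQ]
  let η : ℕ → (Fin d → ℤ) → ℝ := fun p u => (α p - if e p u then 1 else 0) / (1 - α p)
  have m1 : ∀ p ∈ P, denN p (η p) = 0 := fun p hp => by
    have : η p = fun u => α p / (1 - α p) + (-1 / (1 - α p)) * if e p u then 1 else 0 :=
      funext fun u => by simp only [η]; ring
    rw [this, den_aff (hP p hp).pos, hα p hp]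
    ring
  have m2 : ∀ p ∈ P, denN p (fun u => η p u * η p u) = g p := fun p hp => by
    have : (fun u => η p u * η p u) = fun u => α p ^ 2 / (1 - α p) ^ 2 +
        (1 - 2 * α p) / (1 - α p) ^ 2 * if e p u then 1 else 0 :=
      funext fun u => by
        simp only [η]
        rw [div_mul_div_comm, ← sq, ← sq]
        split_ifs <;> ring
    have h1 := (a1 p hp).ne'
    rw [this, den_aff (hP p hp).pos, hα p hp]
    simp only [hg]
    field_simp
    ring
  have b1 : ∀ p ∈ P, ∀ u, |η p u| ≤ 1 := fun p hp u => by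
    simp only [η]
    rw [abs_div, abs_of_pos (a1 p hp), div_le_iff₀ (a1 p hp), abs_le]
    have := a0 p hp
    have := a2 p hp
    split_ifs <;> constructor <;> linarith
  have sub : ∀ S ∈ Sm P z, S ⊆ P := fun S hS => mem_powerset.1 (mem_filter.1 hS).1
  have b2 : ∀ S ∈ Sm P z, ∀ u, |∏ p ∈ S, η p u| ≤ 1 := fun S hS u => by
    rw [abs_prod]
    exact prod_le_one (fun _ _ => abs_nonneg _) fun p hp => b1 p (sub S hS hp) u
  have key : ∀ S ∈ Sm P z, ∀ T ∈ Sm P z,
      ∑ u ∈ boxN a A, (∏ p ∈ S, η p u) * ∏ p ∈ T, η p u ≤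
      Q * (if S = T then ∏ p ∈ S, g p else 0) + 2 * d * z ^ 2 / y * Q := fun S hS T hT => by
    have u : S ∪ T ⊆ P := union_subset (sub S hS) (sub T hT)
    have e1 : ∀ x, (∏ p ∈ S, η p x) * ∏ p ∈ T, η p x =
        ∏ p ∈ S ∪ T, (if p ∈ S then η p x else 1) * if p ∈ T then η p x else 1 :=
      fun x => by
      rw [prod_mul_distrib, prod_ite_mem, prod_ite_mem, union_inter_cancel_left,
        union_inter_cancel_right]
    have per1 : ∀ p ∈ S ∪ T,
        Per p fun x => (if p ∈ S then η p x else 1) * if p ∈ T then η p x else 1 :=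
      fun p hp x x' h => by simp only [η, he p (u hp) x x' h]
    have D0 : 0 < ∏ p ∈ S ∪ T, p := prod_pos fun p hp => (hP p (u hp)).pos
    have D1 : ((∏ p ∈ S ∪ T, p : ℕ) : ℝ) ≤ z ^ 2 := by
      have : ∏ p ∈ S ∪ T, p ≤ (∏ p ∈ S, p) * ∏ p ∈ T, p := by
        rw [← prod_union_inter]
        exact Nat.le_mul_of_pos_right _ (prod_pos fun p hp =>
          (hP p (sub S hS (mem_inter.1 hp).1)).pos)
      refine (Nat.cast_le.2 this).trans ?_
      push_cast
      rw [sq]
      exact mul_le_mul (mem_filter.1 hS).2 (mem_filter.1 hT).2 (by positivity) (by linarith)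
    have := per_box D0 hy d a A (fun x => ∏ p ∈ S ∪ T,
        (if p ∈ S then η p x else 1) * if p ∈ T then η p x else 1)
      (fun x x' h => prod_congr rfl fun p hp => per1 p hp x x' fun i =>
        (Int.natCast_dvd_natCast.2 (dvd_prod_of_mem (fun p => p) hp)).trans (h i))
      (fun x => by
        rw [← e1, abs_mul]
        exact mul_le_one₀ (b2 S hS x) (abs_nonneg _) (b2 T hT x)) hA
    rw [crtN _ (fun p hp => hP p (u hp)) d _ per1, ← hQ] at this
    simp only [e1]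
    refine this.trans (add_le_add (le_of_eq ?_) (by gcongr))
    congr 1
    split_ifs with h
    · subst h
      rw [union_self]
      refine prod_congr rfl fun p hp => ?_
      simp only [if_pos hp, m2 p (sub S hS hp)]
    · obtain ⟨p, hp⟩ : ∃ p, ¬ (p ∈ S ↔ p ∈ T) := not_forall.1 fun h' => h (Finset.ext h')
      have hp' : p ∈ S ∪ T := by rw [mem_union]; tauto
      refine prod_eq_zero hp' ?_
      by_cases h1 : p ∈ S
      · simp only [if_pos h1, if_neg (show p ∉ T by tauto), mul_one]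
        exact m1 p (u hp')
      · simp only [if_neg h1, if_pos (show p ∈ T by tauto), one_mul]
        exact m1 p (u hp')
  have cnt : (#(Sm P z) : ℝ) ≤ z := by
    have := inj_sum (A := Sm P z) (fun S hS p hp => hP p (sub S hS hp)) (B := Icc 1 ⌊z⌋₊)
      (fun S hS => mem_Icc.2 ⟨prod_pos fun p hp => (hP p (sub S hS hp)).pos,
        Nat.le_floor (by simpa using (mem_filter.1 hS).2)⟩) (F := fun _ => 1) fun _ => zero_le_one
    simpa using this.trans (by simpa using Nat.floor_le (by linarith))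
  have up : ∑ u ∈ boxN a A, (∑ S ∈ Sm P z, ∏ p ∈ S, η p u) ^ 2 ≤
      Q * G P g z + 2 * d * z ^ 4 / y * Q := by
    have e : ∑ u ∈ boxN a A, (∑ S ∈ Sm P z, ∏ p ∈ S, η p u) ^ 2 =
        ∑ S ∈ Sm P z, ∑ T ∈ Sm P z, ∑ u ∈ boxN a A, (∏ p ∈ S, η p u) * ∏ p ∈ T, η p u := by
      simp only [sq (∑ S ∈ Sm P z, _), sum_mul_sum]
      rw [sum_comm]
      exact sum_congr rfl fun S _ => sum_comm
    rw [e]
    refine (sum_le_sum fun S hS => sum_le_sum (key S hS)).trans ?_
    simp only [sum_add_distrib, ← mul_sum, sum_ite_eq, sum_const, nsmul_eq_mul]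
    rw [sum_congr rfl fun S hS => if_pos hS]
    have h1 := mul_le_mul cnt cnt (Nat.cast_nonneg _) (by linarith)
    have z4 : 0 ≤ 2 * d * z ^ 2 / y * Q := by positivity
    have h2 := mul_le_mul_of_nonneg_right h1 z4
    have h3 : z * z * (2 * d * z ^ 2 / y * Q) = 2 * d * z ^ 4 / y * Q := by ring
    unfold G
    linarith
  have low : (∑ u ∈ boxN a A, if ∀ p ∈ P, ¬ e p u then (1 : ℝ) else 0) *
      G P g z ^ 2 ≤ ∑ u ∈ boxN a A, (∑ S ∈ Sm P z, ∏ p ∈ S, η p u) ^ 2 := by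
    rw [sum_mul]
    refine sum_le_sum fun u _ => ?_
    split_ifs with h
    · rw [one_mul]
      refine le_of_eq ?_
      congr 1
      refine sum_congr rfl fun S hS => prod_congr rfl fun p hp => ?_
      simp only [η, if_neg (h p (sub S hS hp)), sub_zero, hg]
    · rw [zero_mul]; exact sq_nonneg _
  have G2 : 0 < G P g z := by linarith
  refine le_of_mul_le_mul_right (a := G P g z) ?_ G2
  have z6 : 0 ≤ 2 * d * z ^ 4 / y * Q := by positivity
  nlinarith [mul_le_mul_of_nonneg_left G1 z6]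

end SieveN

open SieveN J.Sieve in
theorem sieveN : SieveNStmt := by
  classical
  intro d κ _
  set k := max κ 1 with hk
  have k1 : 1 ≤ k := le_max_right _ _
  refine ⟨1 / (80 * k), 2 * (1 + 2 * d) * Real.exp ((2 * k + 1) * k), by positivity, by positivity,
    fun y a A P Ω hy hA hP hΩ hden => ?_⟩
  set ρ : ℕ → ℝ := fun q => denN q fun u => if Ω q u then 1 else 0 with hρ
  have ρ0 : ∀ q, 0 ≤ ρ q := fun q =>
    div_nonneg (sum_nonneg fun u _ => by split_ifs <;> norm_num) (by positivity)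
  have q0 : ∀ q ∈ P, (1 : ℝ) ≤ q := fun q hq => by exact_mod_cast (hP q hq).1.pos
  have ρ1 : ∀ q ∈ P, ρ q ≤ k / q := fun q hq =>
    (hden q hq).trans (div_le_div_of_nonneg_right (le_max_left _ _) (by linarith [q0 q hq]))
  set P₁ := P.filter fun q : ℕ => 2 * k < q with hP₁
  have s1 : ∀ q ∈ P₁, q ∈ P := fun q hq => (mem_filter.1 hq).1
  have ρ2 : ∀ q ∈ P₁, ρ q ≤ 1 / 2 := fun q hq => by
    have h1 := (mem_filter.1 hq).2
    refine (ρ1 q (s1 q hq)).trans ?_
    rw [div_le_iff₀ (by linarith)]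
    linarith
  have small : ∑ q ∈ P, ρ q ≤ ∑ q ∈ P₁, ρ q + (2 * k + 1) * k := by
    rw [← sum_filter_add_sum_filter_not P fun q : ℕ => 2 * k < q]
    refine add_le_add le_rfl ((sum_le_card_nsmul _ _ k fun q hq => ?_).trans ?_)
    · have hq' := (mem_filter.1 hq).1
      exact (ρ1 q hq').trans (div_le_self (by linarith) (q0 q hq'))
    · rw [nsmul_eq_mul]
      refine mul_le_mul_of_nonneg_right ?_ (by linarith)
      have : (P.filter fun q : ℕ => ¬ 2 * k < q) ⊆ range (⌊2 * k⌋₊ + 1) := fun q hq =>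
        mem_range.2 (Nat.lt_succ_of_le (Nat.le_floor (not_lt.1 (mem_filter.1 hq).2)))
      have h2 := card_le_card this
      rw [card_range] at h2
      have h3 : ((P.filter fun q : ℕ => ¬ 2 * k < q).card : ℝ) ≤ ⌊2 * k⌋₊ + 1 := by
        exact_mod_cast h2
      linarith [Nat.floor_le (show 0 ≤ 2 * k by linarith)]
  set z := y ^ (1 / 4 : ℝ) with hz
  have z1 : 1 ≤ z := Real.one_le_rpow hy (by norm_num)
  have z4 : z ^ 4 = y := by
    rw [hz, ← Real.rpow_natCast, ← Real.rpow_mul (by linarith)]; norm_num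
  have y0 : 0 < y := by linarith
  have main := SieveN.selberg P₁ (fun p hp => (hP p (s1 p hp)).1) Ω
    (fun p hp u v h => ⟨hΩ p (s1 p hp) u v h, hΩ p (s1 p hp) v u fun i => dvd_sub_comm.1 (h i)⟩) ρ
    (fun _ _ => rfl) (fun p _ => ρ0 p) ρ2 z1 y0 a A hA
  rw [z4, mul_div_cancel_right₀ _ y0.ne'] at main
  set g : ℕ → ℝ := fun p => ρ p / (1 - ρ p) with hg
  have g0 : ∀ p ∈ P₁, 0 ≤ g p := fun p hp => div_nonneg (ρ0 p) (by linarith [ρ2 p hp])
  have low : Real.exp (∑ q ∈ P₁, ρ q) ≤ 2 * G P₁ g z := by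
    rcases P₁.eq_empty_or_nonempty with h | ⟨q, hq⟩
    · have := one_le_G g0 z1
      rw [h, sum_empty, Real.exp_zero, ← h]
      linarith
    have w2 : 2 ≤ y ^ (1 / (80 * k)) :=
      le_trans (by exact_mod_cast (hP q (s1 q hq)).1.two_le) (hP q (s1 q hq)).2
    have y1 : 1 < y := by
      rcases eq_or_lt_of_le hy with h | h
      · rw [← h, Real.one_rpow] at w2; linarith
      · exact h
    have h1 := mertens P₁ (fun p hp => (hP p (s1 p hp)).1) w2 fun p hp => (hP p (s1 p hp)).2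
    rw [Real.log_rpow (by linarith)] at h1
    refine le_trans ?_ (G_low P₁ (fun p hp => (hP p (s1 p hp)).1) g g0
      (Real.one_lt_rpow y1 (by norm_num)) ?_)
    · rw [Real.exp_sum]
      refine prod_le_prod (fun p _ => (Real.exp_pos _).le) fun p hp => ?_
      have h2 : 0 < 1 - ρ p := by linarith [ρ2 p hp]
      have h3 := Real.add_one_le_exp (-ρ p)
      have h4 : 1 + g p = (1 - ρ p)⁻¹ := by simp only [hg]; field_simp; ring
      rw [h4, ← inv_inv (Real.exp (ρ p)), ← Real.exp_neg]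
      exact inv_anti₀ h2 (by linarith)
    · rw [hz, Real.log_rpow (by linarith)]
      have h2 : ∑ p ∈ P₁, g p / (1 + g p) * Real.log p ≤ k * ∑ p ∈ P₁, Real.log p / p := by
        rw [mul_sum]
        refine sum_le_sum fun p hp => ?_
        have h2 : 0 < 1 - ρ p := by linarith [ρ2 p hp]
        have h4 : g p / (1 + g p) = ρ p := by simp only [hg]; field_simp; ring
        rw [h4]
        refine (mul_le_mul_of_nonneg_right (ρ1 p (s1 p hp)) (Real.log_natCast_nonneg p)).trans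
          (le_of_eq (by ring))
      refine h2.trans ((mul_le_mul_of_nonneg_left h1 (by linarith)).trans (le_of_eq ?_))
      field_simp
      ring
  have cnt : (((boxN a A).filter fun u => ∀ q ∈ P, ¬ Ω q u).card : ℝ) ≤
      ∑ u ∈ boxN a A, if ∀ p ∈ P₁, ¬ Ω p u then (1 : ℝ) else 0 := by
    rw [sum_boole]
    refine Nat.cast_le.2 (card_le_card fun u hu => ?_)
    rw [mem_filter] at hu ⊢
    exact ⟨hu.1, fun p hp => hu.2 p (s1 p hp)⟩
  have G0 : 0 ≤ G P₁ g z := G_nonneg g0 z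
  have n0 : (0 : ℝ) ≤ ((boxN a A).filter fun u => ∀ q ∈ P, ¬ Ω q u).card := Nat.cast_nonneg _
  have h5 : (((boxN a A).filter fun u => ∀ q ∈ P, ¬ Ω q u).card : ℝ) * G P₁ g z ≤
      ∏ i, (A i : ℝ) + 2 * d * ∏ i, (A i : ℝ) :=
    (mul_le_mul_of_nonneg_right cnt G0).trans (by convert main)
  have h6 := mul_le_mul_of_nonneg_left low n0
  have h7 : Real.exp (∑ q ∈ P, ρ q) ≤ Real.exp (∑ q ∈ P₁, ρ q) * Real.exp ((2 * k + 1) * k) := by
    rw [← Real.exp_add]; exact Real.exp_le_exp.2 small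
  have h8 := mul_le_mul_of_nonneg_left h7 n0
  have e1 := Real.exp_pos ((2 * k + 1) * k)
  have goal : (((boxN a A).filter fun u => ∀ q ∈ P, ¬ Ω q u).card : ℝ) ≤
      2 * (1 + 2 * d) * Real.exp ((2 * k + 1) * k) * (∏ i, (A i : ℝ)) *
        Real.exp (-∑ q ∈ P, ρ q) := by
    rw [Real.exp_neg, ← div_eq_mul_inv, le_div_iff₀ (Real.exp_pos _)]
    refine h8.trans ?_
    rw [← mul_assoc]
    have h9 := mul_le_mul_of_nonneg_right
      (h6.trans (show _ ≤ 2 * (1 + 2 * (d : ℝ)) * ∏ i, (A i : ℝ) by linarith)) e1.le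
    linarith
  convert goal

end Pool.Agent.Lib.MP_9177b7_ag.B
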