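import Pool.Agent.Lib.MP_9177b7_ag.B.ShiuN1

/-!
The local densities of the levels on one slice.
-/

noncomputable section

namespace Pool.Agent.Lib.MP_9177b7_ag.B.Slice

open Finset ShiuN Classical

variable {d : ℕ}

lemma den_le (M : ℕ) {f g : (Fin d → ℤ) → ℝ} (h : ∀ u, f u ≤ g u) : denN M f ≤ denN M g :=
  div_le_div_of_nonneg_right (sum_le_sum fun u _ => h u) (by positivity)

lemma den_smul (M : ℕ) (c : ℝ) (f : (Fin d → ℤ) → ℝ) :
    denN M (fun u => c * f u) = c * denN M f := by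
  simp only [denN, ← mul_sum, mul_div_assoc]

lemma den_ite {M M' : ℕ} (hd : M ∣ M') (hM : 0 < M') {P Ω : (Fin d → ℤ) → Prop}
    {_ : DecidablePred P} {f : (Fin d → ℤ) → ℝ} {c x : ℝ} (hc : 0 ≤ c) (hΩ : ∀ u v, CgN M u v → Ω u → Ω v)
    (h : ∀ u, P u → Ω u ∧ f u ≤ c) (hx : denN M (fun u => if Ω u then 1 else 0) ≤ x) :
    denN M' (fun u => if P u then f u else 0) ≤ c * x := by
  refine le_trans ?_ (mul_le_mul_of_nonneg_left hx hc)
  rw [← den_of_dvd (per_ind hΩ) hd hM, ← den_smul]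
  refine den_le _ fun u => ?_
  by_cases e : P u
  · simpa [e, (h u e).1] using (h u e).2
  · rw [if_neg e]
    positivity

/-- The local data. -/
structure Hyp (p e : ℕ) (κ : ℝ) (N : (Fin d → ℤ) → ℕ) (n : ℕ → (Fin d → ℤ) → ℕ)
    (R : ℕ → (Fin d → ℤ) → Prop) (a b : ℕ → ℕ) : Prop where
  per : ∀ (q j : ℕ) t t', q.Prime → CgN (q ^ j) t t' → q ^ j ∣ N t → q ^ j ∣ N t'
  up : ∀ q : ℕ, q.Prime → denN (q ^ 1) (fun t => if q ^ 1 ∣ N t then 1 else 0) ≤ κ / q
  lo : ∀ q : ℕ, q.Prime → (b q : ℝ) / q - κ / q ^ 2 ≤ denN q fun t => if q ^ 1 ∣ N t then 1 else 0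
  lv : ∀ q j : ℕ, q.Prime →
    denN (q ^ j) (fun t => if q ^ j ∣ N t then 1 else 0) ≤ κ * (q : ℝ) ^ (-(j : ℝ) / 4)
  lv2 : ∀ q j : ℕ, q.Prime → 2 ≤ j →
    denN (q ^ j) (fun t => if q ^ j ∣ N t then 1 else 0) ≤ κ * (q : ℝ) ^ (-1 - (j : ℝ) / 4)
  nper : ∀ (q : ℕ) t t', q.Prime → CgN q t t' → n q t = n q t'
  nle : ∀ (q : ℕ) t, q.Prime → n q t ≤ e
  nden : ∀ q : ℕ, q.Prime → denN q (fun t => n q t) ≤ (a q : ℝ) / q
  ale : ∀ q : ℕ, q.Prime → a q ≤ e
  rper : ∀ j t t', CgN (p ^ j) t t' → R j t → R j t'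
  rden : ∀ j, denN (p ^ j) (fun t => if R j t then 1 else 0) ≤ ((p : ℝ) ^ j)⁻¹
  ranti : ∀ i j t, i ≤ j → R j t → R i t

/-- The shift of the level. -/
def sh (p k q : ℕ) : ℕ := if q = p then k else 0

/-- The levels. -/
def LV (p k : ℕ) (N : (Fin d → ℤ) → ℕ) (R : ℕ → (Fin d → ℤ) → Prop) (q j : ℕ) (u : Fin d → ℤ) :
    Prop := (q = p → R (min j k) u) ∧ q ^ (j - sh p k q) ∣ N u

/-- The local weights. -/
def ww (bad e : ℕ) (n : ℕ → (Fin d → ℤ) → ℕ) (q j : ℕ) (u : Fin d → ℤ) : ℝ :=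
  if j = 1 ∧ ¬ q ∣ bad then n q u else ((j : ℝ) + 1) ^ e

/-- The shifted local weights. -/
def gg (p k bad e : ℕ) (n : ℕ → (Fin d → ℤ) → ℕ) (q j : ℕ) (u : Fin d → ℤ) : ℝ :=
  if j < sh p k q then 0 else ww bad e n q (j - sh p k q) u

/-- The ratio of the geometric series. -/
def rt : ℝ := (2 : ℝ) ^ (-(1 : ℝ) / 8)

lemma rt_pow {q : ℕ} (hq : q.Prime) (i : ℕ) : (q : ℝ) ^ (-(i : ℝ) / 8) ≤ rt ^ i := by
  rw [rt, ← Real.rpow_natCast, ← Real.rpow_mul zero_le_two, div_mul_eq_mul_div, neg_one_mul]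
  exact Real.rpow_le_rpow_of_nonpos zero_lt_two (by exact_mod_cast hq.two_le)
    (div_nonpos_of_nonpos_of_nonneg (neg_nonpos.2 i.cast_nonneg) (by norm_num))

lemma geo (e : ℕ) : ∃ S : ℝ, 1 ≤ S ∧ ∀ (k : ℕ) (s : Finset ℕ),
    ∑ j ∈ s, (if j < k then 0 else (((j - k : ℕ) : ℝ) + 3) ^ e * rt ^ (j - k)) ≤ S := by
  have h0 : 0 < rt := Real.rpow_pos_of_pos zero_lt_two _
  have h1 : rt < 1 := Real.rpow_lt_one_of_one_lt_of_neg one_lt_two (by norm_num)
  have s0 : Summable fun i : ℕ => ((i : ℝ) + 3) ^ e * rt ^ i := by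
    have := ((summable_nat_add_iff 3).2 (summable_pow_mul_geometric_of_norm_lt_one e
      (r := rt) (by rwa [Real.norm_of_nonneg h0.le]))).mul_right (rt ^ 3)⁻¹
    refine this.congr fun i => ?_
    push_cast
    field_simp
    ring
  refine ⟨max 1 (∑' i : ℕ, ((i : ℝ) + 3) ^ e * rt ^ i), le_max_left _ _, fun k s => ?_⟩
  let F : ℕ → ℝ := fun j => if j < k then 0 else (((j - k : ℕ) : ℝ) + 3) ^ e * rt ^ (j - k)
  have e1 : (fun i => F (i + k)) = fun i : ℕ => ((i : ℝ) + 3) ^ e * rt ^ i := funext fun i => by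
    simp [F]
  have s1 : Summable F := (summable_nat_add_iff k).1 (e1 ▸ s0)
  refine (s1.sum_le_tsum s fun j _ => by simp only [F]; split_ifs <;> positivity).trans ?_
  rw [← s1.sum_add_tsum_nat_add k, e1, sum_eq_zero fun j hj => if_pos (mem_range.1 hj), zero_add]
  exact le_max_right _ _

variable {p k bad e : ℕ} {κ : ℝ} {N : (Fin d → ℤ) → ℕ} {n : ℕ → (Fin d → ℤ) → ℕ}
  {R : ℕ → (Fin d → ℤ) → Prop} {a b : ℕ → ℕ} {q j : ℕ}

lemma sh_ne (h : q ≠ p) : sh p k q = 0 := if_neg h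

lemma sh_eq : sh p k p = k := if_pos rfl

lemma ww_nonneg (u) : 0 ≤ ww bad e n q j u := by unfold ww; split_ifs <;> positivity

lemma gg_nonneg (u) : 0 ≤ gg p k bad e n q j u := by
  unfold gg; split_ifs; exacts [le_rfl, ww_nonneg u]

namespace Hyp

variable (H : Hyp p e κ N n R a b)
include H

lemma ww_le (hq : q.Prime) (u) : ww bad e n q j u ≤ ((j : ℝ) + 1) ^ e := by
  unfold ww
  split_ifs with h
  · rw [h.1]
    norm_num
    exact_mod_cast (H.nle q u hq).trans Nat.lt_two_pow_self.le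
  · exact le_rfl

lemma gg_le (hq : q.Prime) (u) : gg p k bad e n q j u ≤ (((j - sh p k q : ℕ) : ℝ) + 1) ^ e := by
  unfold gg
  split_ifs
  exacts [by positivity, H.ww_le hq u]

lemma anti (u) (h : LV p k N R q (j + 1) u) : LV p k N R q j u :=
  ⟨fun e => H.ranti _ _ _ (by omega) (h.1 e), (pow_dvd_pow _ (by omega)).trans h.2⟩

lemma perL (hq : q.Prime) (u v) (c : CgN (q ^ j) u v) (h : LV p k N R q j u) : LV p k N R q j v :=
  ⟨fun e => H.rper _ _ _ (CgN.of_dvd (pow_dvd_pow _ (min_le_left _ _)) (e ▸ c)) (h.1 e),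
    H.per _ _ _ _ hq (CgN.of_dvd (pow_dvd_pow _ (Nat.sub_le _ _)) c) h.2⟩

lemma perG (hq : q.Prime) (u v) (c : CgN q u v) : gg p k bad e n q j u = gg p k bad e n q j v := by
  simp only [gg, ww, H.nper q u v hq c]

/-- The bound by the divisibility condition. -/
lemma denA (hq : q.Prime) {M i : ℕ} (hM : j ≤ M) (hi : j - sh p k q = i)
    {P : (Fin d → ℤ) → Prop} {_ : DecidablePred P} {f : (Fin d → ℤ) → ℝ}
    {c x : ℝ} (hc : 0 ≤ c) (h : ∀ u, P u → LV p k N R q j u ∧ f u ≤ c)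
    (hx : denN (q ^ i) (fun t => if q ^ i ∣ N t then 1 else 0) ≤ x) :
    denN (q ^ M) (fun u => if P u then f u else 0) ≤ c * x :=
  den_ite (M := q ^ i) (Ω := fun t => q ^ i ∣ N t) (pow_dvd_pow _ (by omega)) (pow_pos hq.pos _) hc
    (fun _ _ => H.per _ _ _ _ hq) (fun u hu => ⟨hi ▸ (h u hu).1.2, (h u hu).2⟩) (by convert hx)

/-- The bound by the congruence. -/
lemma denB (hp : p.Prime) {M : ℕ} (hM : j ≤ M) {P : (Fin d → ℤ) → Prop} {_ : DecidablePred P}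
    {f : (Fin d → ℤ) → ℝ} {c : ℝ} (hc : 0 ≤ c) (h : ∀ u, P u → LV p k N R p j u ∧ f u ≤ c) :
    denN (p ^ M) (fun u => if P u then f u else 0) ≤ c * (p : ℝ) ^ (-((min j k : ℕ) : ℝ)) := by
  rw [Real.rpow_neg p.cast_nonneg, Real.rpow_natCast]
  exact den_ite (pow_dvd_pow _ (by omega)) (pow_pos hp.pos _) hc (H.rper _)
    (fun u hu => ⟨(h u hu).1.1 rfl, (h u hu).2⟩) (H.rden _)

lemma den1 (hκ : 1 ≤ κ) (hk : 2 ≤ k) (hq : q.Prime) :
    denN q (fun u => if LV p k N R q 1 u then 1 else 0) ≤ κ / q := by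
  have h0 : (0 : ℝ) < q := by exact_mod_cast hq.pos
  suffices denN (q ^ 1) (fun u => if LV p k N R q 1 u then 1 else 0) ≤ κ / q by
    rwa [pow_one] at this
  by_cases e : q = p
  · subst e
    refine (H.denB (k := k) (j := 1) hq le_rfl zero_le_one fun u h => ⟨h, le_rfl⟩).trans ?_
    rw [min_eq_left (by omega), Nat.cast_one, Real.rpow_neg_one, ← div_eq_mul_inv]
    gcongr
  · exact (H.denA (k := k) (j := 1) hq le_rfl (by rw [sh_ne e]) zero_le_one
      (fun u h => ⟨h, le_rfl⟩) (H.up q hq)).trans (one_mul _).le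

lemma den2 (hκ : 1 ≤ κ) (hp : p.Prime) (hq : q.Prime) (hj : 2 ≤ j) :
    denN (q ^ j) (fun u => if LV p k N R q j u then 1 else 0) ≤
      κ * p * (q : ℝ) ^ (-1 - 1 / 5 * (j : ℝ)) := by
  have h1 : (1 : ℝ) ≤ q := by exact_mod_cast hq.one_le
  have h2 : (1 : ℝ) ≤ p := by exact_mod_cast hp.one_le
  have hj' : (2 : ℝ) ≤ j := by exact_mod_cast hj
  by_cases e : q = p
  · subst e
    have e1 : κ * q * (q : ℝ) ^ (-1 - 1 / 5 * (j : ℝ)) = κ * (q : ℝ) ^ (-(j : ℝ) / 5) := by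
      rw [mul_assoc, mul_comm (q : ℝ), ← Real.rpow_add_one (by positivity)]
      congr 2
      ring
    rw [e1]
    by_cases c : j ≤ 5 * k
    · refine (H.denB hq le_rfl zero_le_one fun u h => ⟨h, le_rfl⟩).trans ?_
      have : (j : ℝ) ≤ 5 * (min j k : ℕ) := by exact_mod_cast (by omega : j ≤ 5 * min j k)
      exact mul_le_mul hκ (Real.rpow_le_rpow_of_exponent_le h1 (by linarith)) (by positivity)
        (by positivity)
    · refine (H.denA hq le_rfl (by rw [sh_eq]) zero_le_one (fun u h => ⟨h, le_rfl⟩)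
        (H.lv q (j - k) hq)).trans ?_
      have : 4 * (j : ℝ) ≤ 5 * (j - k : ℕ) := by exact_mod_cast (by omega : 4 * j ≤ 5 * (j - k))
      rw [one_mul]
      exact mul_le_mul_of_nonneg_left (Real.rpow_le_rpow_of_exponent_le h1 (by linarith))
        (by positivity)
  · refine (H.denA hq le_rfl (by rw [sh_ne e]; rfl) zero_le_one (fun u h => ⟨h, le_rfl⟩)
      (H.lv2 q j hq hj)).trans ?_
    rw [one_mul]
    exact mul_le_mul (by nlinarith) (Real.rpow_le_rpow_of_exponent_le h1 (by linarith))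
      (by positivity) (by positivity)

/-- The first error term. -/
lemma den3 (hk : 2 ≤ k) (hq : q.Prime) (P : (Fin d → ℤ) → Prop)
    {_ : DecidablePred fun u => LV p k N R q 1 u ∧ P u} :
    denN (q ^ 2) (fun u => if LV p k N R q 1 u ∧ P u then gg p k bad e n q 1 u else 0) ≤
      if q = p then 0 else if q ∣ bad then 2 ^ e * (κ / q) else (a q : ℝ) / q := by
  split_ifs with e1 e2
  · subst e1
    have : ∀ u, gg q k bad e n q 1 u = 0 := fun u => if_pos (by rw [sh_eq]; omega)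
    simp [this, denN]
  · refine H.denA (k := k) (j := 1) hq one_le_two (by rw [sh_ne e1]) (by positivity)
      (fun u h => ⟨h.1, ?_⟩) (H.up q hq)
    have := H.gg_le (k := k) (bad := bad) (j := 1) hq u
    rw [sh_ne e1] at this
    norm_num at this
    exact this
  · refine le_trans ?_ (H.nden q hq)
    rw [← den_of_dvd (h := fun t => (n q t : ℝ)) (fun u v c => congrArg _ (H.nper q u v hq c))
      (dvd_pow_self q two_ne_zero) (pow_pos hq.pos _)]
    refine den_le _ fun u => ?_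
    split_ifs
    · simp [gg, ww, sh_ne e1, e2]
    · positivity

/-- The second error term. -/
lemma den4 (hκ : 1 ≤ κ) (hq : q.Prime) {S : ℝ} (hS : ∀ (k : ℕ) (s : Finset ℕ),
    ∑ j ∈ s, (if j < k then 0 else (((j - k : ℕ) : ℝ) + 3) ^ e * rt ^ (j - k)) ≤ S)
    (P : ℕ → (Fin d → ℤ) → Prop) {_ : ∀ j, DecidablePred fun u => LV p k N R q j u ∧ P j u}
    (J : ℕ) :
    ∑ j ∈ Icc 2 J, denN (q ^ (1 * (j + 1)))
      (fun u => if LV p k N R q j u ∧ P j u then gg p k bad e n q j u else 0) ≤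
      κ * S * if q = p then (p : ℝ) ^ (-(k : ℝ) / 2) else (q : ℝ) ^ (-(3 : ℝ) / 2) := by
  have h0 : (0 : ℝ) < q := by exact_mod_cast hq.pos
  have h1 : (1 : ℝ) ≤ q := by exact_mod_cast hq.one_le
  have h2 : 0 < rt := Real.rpow_pos_of_pos zero_lt_two _
  rw [mul_right_comm]
  split_ifs with e1
  · subst e1
    refine le_trans ?_ (mul_le_mul_of_nonneg_left (hS k (Icc 2 J)) (by positivity))
    rw [mul_sum]
    refine sum_le_sum fun j _ => ?_
    split_ifs with c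
    · have : ∀ u, gg q k bad e n q j u = 0 := fun u => if_pos (by rwa [sh_eq])
      simp [this, denN]
    have g1 : ∀ u, LV q k N R q j u ∧ P j u → LV q k N R q j u ∧
        gg q k bad e n q j u ≤ (((j - k : ℕ) : ℝ) + 3) ^ e := fun u h => ⟨h.1, by
      refine (H.gg_le hq u).trans ?_
      rw [sh_eq]
      gcongr
      norm_num⟩
    set D := denN (q ^ (1 * (j + 1)))
      (fun u => if LV q k N R q j u ∧ P j u then gg q k bad e n q j u else 0)
    have a1 : D ≤ _ := H.denA hq (by omega) (by rw [sh_eq]) (by positivity) g1 (H.lv q (j - k) hq)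
    have a2 : D ≤ _ := H.denB hq (by omega) (by positivity) g1
    rw [min_eq_right (by omega)] at a2
    have a3 := rt_pow hq (j - k)
    have b1 : (q : ℝ) ^ (-(k : ℝ)) = ((q : ℝ) ^ (-(k : ℝ) / 2)) ^ 2 := by
      rw [← Real.rpow_natCast, ← Real.rpow_mul h0.le]; congr 1; push_cast; ring
    have b2 : (q : ℝ) ^ (-((j - k : ℕ) : ℝ) / 4) = ((q : ℝ) ^ (-((j - k : ℕ) : ℝ) / 8)) ^ 2 := by
      rw [← Real.rpow_natCast, ← Real.rpow_mul h0.le]; congr 1; rw [Nat.cast_ofNat]; ring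
    rw [b1] at a2
    rw [b2] at a1
    by_contra hD
    have a4 := (not_le.1 hD).le
    have a5 : 0 < κ * (q : ℝ) ^ (-(k : ℝ) / 2) * ((((j - k : ℕ) : ℝ) + 3) ^ e * rt ^ (j - k)) := by
      positivity
    refine hD (abs_le_of_sq_le_sq' ?_ a5.le).2
    calc D ^ 2 = D * D := sq D
      _ ≤ _ := mul_le_mul a1 a2 (a5.le.trans a4) (by positivity)
      _ = κ * 1 * ((q : ℝ) ^ (-(k : ℝ) / 2) * ((((j - k : ℕ) : ℝ) + 3) ^ e *
          (q : ℝ) ^ (-((j - k : ℕ) : ℝ) / 8))) ^ 2 := by ring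
      _ ≤ κ * κ * ((q : ℝ) ^ (-(k : ℝ) / 2) * ((((j - k : ℕ) : ℝ) + 3) ^ e * rt ^ (j - k))) ^ 2 := by
          gcongr
      _ = _ := by ring
  · refine le_trans ?_ (mul_le_mul_of_nonneg_left (hS 2 (Icc 2 J)) (by positivity))
    rw [mul_sum]
    refine sum_le_sum fun j hj => ?_
    have hj := (mem_Icc.1 hj).1
    have c1 : ((j - 2 : ℕ) : ℝ) = j - 2 := by rw [Nat.cast_sub hj]; rfl
    have c2 : (2 : ℝ) ≤ j := by exact_mod_cast hj
    rw [if_neg (by omega)]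
    refine (H.denA (k := k) (j := j) (c := (((j - 2 : ℕ) : ℝ) + 3) ^ e) hq (by omega)
      (by rw [sh_ne e1]; rfl) (by positivity) (fun u h => ⟨h.1, ?_⟩) (H.lv2 q j hq hj)).trans ?_
    · refine (H.gg_le hq u).trans (le_of_eq ?_)
      rw [sh_ne e1, c1, Nat.sub_zero]
      ring
    · have a3 := rt_pow hq (j - 2)
      have a4 : (q : ℝ) ^ (-1 - (j : ℝ) / 4) ≤
          (q : ℝ) ^ (-(3 : ℝ) / 2) * (q : ℝ) ^ (-((j - 2 : ℕ) : ℝ) / 8) := by
        rw [← Real.rpow_add h0, c1]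
        exact Real.rpow_le_rpow_of_exponent_le h1 (by linarith)
      calc _ ≤ (((j - 2 : ℕ) : ℝ) + 3) ^ e * (κ * ((q : ℝ) ^ (-(3 : ℝ) / 2) * rt ^ (j - 2))) := by
            gcongr
            exact a4.trans (by gcongr)
        _ = _ := by ring

end Hyp

end Pool.Agent.Lib.MP_9177b7_ag.B.Slice
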