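import Pool.Agent.Lib.MP_9177b7_ag.B.St
import Pool.Agent.Lib.MP_9177b7_ag.B.Slice1
import Pool.Agent.Lib.MP_30b5ba_nt.Variance

/-!
The sieve bound on one slice.
-/

noncomputable section

namespace Pool.Agent.Lib.MP_9177b7_ag.B

namespace Slice

open Finset ShiuN Classical

/-- The divisor bound. -/
lemma dvb (e : ℕ) (E : ℝ) {ε : ℝ} (hε : 0 < ε) : ∃ y₀ : ℝ, ∀ y : ℝ, y₀ ≤ y → ∀ M : ℕ, M ≠ 0 →
    (M : ℝ) ≤ y ^ E → ∏ q ∈ M.primeFactors, ((M.factorization q : ℝ) + 1) ^ e ≤ y ^ ε := by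
  obtain ⟨r, hr⟩ := exists_nat_gt (e * (|E| + 1) / ε)
  have r0 : r ≠ 0 := by
    rintro rfl
    exact absurd hr (not_lt.2 (by rw [Nat.cast_zero]; positivity))
  obtain ⟨C, hC⟩ := Pool.Agent.Lib.MP_30b5ba_nt.card_divisors_pow_le r
  refine ⟨C + 1, fun y hy M hM h => ?_⟩
  have c0 : (0 : ℝ) ≤ C := C.cast_nonneg
  have y1 : 1 ≤ y := by linarith
  have y0 : 0 < y := by linarith
  have h1 : (∏ q ∈ M.primeFactors, ((M.factorization q : ℝ) + 1)) ^ r ≤ y ^ (|E| + 1) := by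
    have := hC M hM
    rw [Nat.card_divisors hM] at this
    rw [Real.rpow_add_one y0.ne', mul_comm]
    refine le_trans (b := (C : ℝ) * M) (by exact_mod_cast this) (mul_le_mul (by linarith)
      (h.trans (Real.rpow_le_rpow_of_exponent_le y1 (le_abs_self E))) M.cast_nonneg y0.le)
  refine le_of_pow_le_pow_left₀ r0 (by positivity) ?_
  rw [prod_pow, pow_right_comm]
  refine (pow_le_pow_left₀ (by positivity) h1 e).trans ?_
  rw [← Real.rpow_natCast, ← Real.rpow_natCast, ← Real.rpow_mul y0.le, ← Real.rpow_mul y0.le]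
  refine Real.rpow_le_rpow_of_exponent_le y1 ?_
  rw [div_lt_iff₀ hε] at hr
  linarith

variable {d p k bad e : ℕ} {κ : ℝ} {N : (Fin d → ℤ) → ℕ} {n : ℕ → (Fin d → ℤ) → ℕ}
  {R : ℕ → (Fin d → ℤ) → Prop} {a b : ℕ → ℕ}

/-- The exponent. -/
lemma expo (H : Hyp p e κ N n R a b) (hκ : 1 ≤ κ) (hp : p.Prime) (hpb : p ∣ bad) (hb : bad ≠ 0)
    {S : ℝ} (hS : 0 ≤ S) (x : ℝ) (T : Finset ℕ)
    (h1 : ∀ q ∈ T, q ≠ p ∧ q ∈ (range (⌊x⌋₊ + 1)).filter Nat.Prime)
    (h2 : ∀ q ∈ (range (⌊x⌋₊ + 1)).filter Nat.Prime, q ∉ T → q = p) :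
    ∑ q ∈ T, ((if q = p then 0 else if q ∣ bad then 2 ^ e * (κ / q) else (a q : ℝ) / q) +
      (κ * S * if q = p then (p : ℝ) ^ (-(k : ℝ) / 2) else (q : ℝ) ^ (-(3 : ℝ) / 2)) -
      denN q fun u => if LV p k N R q 1 u then 1 else 0) ≤
    tsumP (fun q => (a q : ℝ) - b q) x +
      (κ * S + κ + (2 ^ e + 2) * κ * bad ^ 2) * ∑' q : ℕ, (q : ℝ) ^ (-(3 : ℝ) / 2) := by
  have z1 : ∀ q : ℕ, q.Prime → 1 / (q : ℝ) ^ 2 ≤ (q : ℝ) ^ (-(3 : ℝ) / 2) := fun q hq => by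
    rw [one_div, ← Real.rpow_natCast, ← Real.rpow_neg q.cast_nonneg]
    exact Real.rpow_le_rpow_of_exponent_le (by exact_mod_cast hq.one_le) (by norm_num)
  have z2 : ∀ q : ℕ, q.Prime → q ∣ bad → 1 ≤ (bad : ℝ) ^ 2 * (q : ℝ) ^ (-(3 : ℝ) / 2) :=
    fun q hq h => by
      have h0 : (0 : ℝ) < q := by exact_mod_cast hq.pos
      have : (q : ℝ) ≤ bad := by exact_mod_cast Nat.le_of_dvd (Nat.pos_of_ne_zero hb) h
      calc (1 : ℝ) = q ^ 2 * (1 / q ^ 2) := by field_simp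
        _ ≤ _ := mul_le_mul (by gcongr) (z1 q hq) (by positivity) (by positivity)
  have sm : Summable fun q : ℕ => (q : ℝ) ^ (-(3 : ℝ) / 2) :=
    Real.summable_nat_rpow.2 (by norm_num)
  refine le_trans (b := ∑ q ∈ (range (⌊x⌋₊ + 1)).filter Nat.Prime, (((a q : ℝ) - b q) / q +
    (κ * S + κ + (2 ^ e + 2) * κ * bad ^ 2) * (q : ℝ) ^ (-(3 : ℝ) / 2))) ?_ ?_
  · refine (sum_le_sum fun q hq => ?_).trans
      (sum_le_sum_of_subset_of_nonneg (fun q hq => (h1 q hq).2) fun q hq hq' => ?_)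
    · obtain ⟨e1, hq⟩ := h1 q hq
      have hq := (mem_filter.1 hq).2
      have q1 : (1 : ℝ) ≤ q := by exact_mod_cast hq.one_le
      have l1 : (denN q fun u => if LV p k N R q 1 u then 1 else 0) =
          denN q fun u => if q ^ 1 ∣ N u then 1 else 0 := by
        simp [LV, sh_ne e1, e1]
      have l2 := H.lo q hq
      have l3 : κ / q ^ 2 ≤ κ * (q : ℝ) ^ (-(3 : ℝ) / 2) := by
        rw [div_eq_mul_one_div]
        exact mul_le_mul_of_nonneg_left (z1 q hq) (by positivity)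
      have l4 : 0 ≤ κ * bad ^ 2 * (q : ℝ) ^ (-(3 : ℝ) / 2) := by positivity
      have l5 : (0 : ℝ) ≤ a q / q := by positivity
      rw [l1, if_neg e1, if_neg e1, sub_div]
      split_ifs with e2
      · have l6 : 2 ^ e * (κ / q) ≤ 2 ^ e * κ * (bad ^ 2 * (q : ℝ) ^ (-(3 : ℝ) / 2)) := by
          rw [mul_assoc]
          exact mul_le_mul_of_nonneg_left ((div_le_self (by positivity) q1).trans
            (le_mul_of_one_le_right (by positivity) (z2 q hq e2))) (by positivity)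
        nlinarith
      · have : 0 ≤ 2 ^ e * (κ * bad ^ 2 * (q : ℝ) ^ (-(3 : ℝ) / 2)) := by positivity
        nlinarith
    · obtain rfl := h2 q hq hq'
      have q1 : (1 : ℝ) ≤ q := by exact_mod_cast hp.one_le
      have l1 := H.lo q hp
      have l2 := H.up q hp
      rw [pow_one] at l1 l2
      have l3 : κ / q ≤ κ := div_le_self (by positivity) q1
      have l4 : κ / q ^ 2 ≤ κ := div_le_self (by positivity) (one_le_pow₀ q1)
      have l5 : (0 : ℝ) ≤ a q / q := by positivity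
      have l6 := mul_le_mul_of_nonneg_left (z2 q hp hpb) (show 0 ≤ 2 * κ by positivity)
      have l7 : 0 ≤ (κ * S + κ + 2 ^ e * κ * bad ^ 2) * (q : ℝ) ^ (-(3 : ℝ) / 2) := by positivity
      rw [sub_div]
      nlinarith
  · rw [sum_add_distrib, ← mul_sum]
    exact add_le_add le_rfl (mul_le_mul_of_nonneg_left
      (sm.sum_le_tsum _ fun q _ => by positivity) (by positivity))

lemma core (hS : ShiuNStmt) (E : ℝ) (hp : p.Prime) (hd : 0 < d) (hb : bad ≠ 0) (hpb : p ∣ bad)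
    (hκ : 1 ≤ κ) : ∃ δ ε C : ℝ, 0 < δ ∧ δ ≤ 1 ∧ 0 < ε ∧ 0 < C ∧ ∀ k : ℕ, 2 ≤ k → ∃ y₀ : ℝ,
      ∀ y : ℝ, y₀ ≤ y → ∀ (N : (Fin d → ℤ) → ℕ) (n : ℕ → (Fin d → ℤ) → ℕ)
        (R : ℕ → (Fin d → ℤ) → Prop) (a b : ℕ → ℕ) (a₀ : Fin d → ℤ) (A : Fin d → ℕ)
        (U : Finset (Fin d → ℤ)), Hyp p e κ N n R a b → (∀ i, y ≤ A i) → U ⊆ boxN a₀ A →
        (∀ t ∈ U, N t ≠ 0 ∧ (N t : ℝ) ≤ y ^ E ∧ R k t) →
        ∑ t ∈ U, ∏ q ∈ (N t).primeFactors, ww bad e n q ((N t).factorization q) t ≤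
          C * (∏ i, (A i : ℝ)) * (Real.exp (tsumP (fun q => (a q : ℝ) - b q) (y ^ δ)) *
            (p : ℝ) ^ (-(k : ℝ) / 2) + y ^ (-ε)) := by
  obtain ⟨S, S1, hg⟩ := geo e
  have p1 : (1 : ℝ) ≤ p := by exact_mod_cast hp.one_le
  have t1 : (1 : ℝ) ≤ 2 ^ e := one_le_pow₀ one_le_two
  obtain ⟨K, K1, K2, K3⟩ : ∃ K : ℝ, κ * p ≤ K ∧ κ * S ≤ K ∧ 2 ^ e * κ ≤ K :=
    ⟨κ * p + κ * S + 2 ^ e * κ, by nlinarith, by nlinarith, by nlinarith⟩
  have K4 : κ ≤ K := by nlinarith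
  have K5 : (2 : ℝ) ^ e ≤ K := by nlinarith
  have K6 : K ≤ K ^ 2 := by nlinarith
  obtain ⟨δ₀, ε, d0, e0, h⟩ := hS d K (E + 1) (1 / 5) 1 hd (hκ.trans K4) (by norm_num) le_rfl
  have d1 : 0 < min δ₀ 1 := lt_min d0 one_pos
  obtain ⟨C, hC⟩ := h _ d1 (min_le_left _ _)
  obtain ⟨y₁, hy₁⟩ := dvb e E e0
  set δ := min δ₀ 1
  set Z := (κ * S + κ + (2 ^ e + 2) * κ * bad ^ 2) * ∑' q : ℕ, (q : ℝ) ^ (-(3 : ℝ) / 2)
  refine ⟨δ, ε, (|C| + 1) * (Real.exp Z * (κ * S) + 1), d1, min_le_right _ _, e0, by positivity,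
    fun k hk => ⟨max y₁ (max (p ^ k) (p ^ δ⁻¹)), fun y hy N n R a b a₀ A U H hA hU hN => ?_⟩⟩
  simp only [max_le_iff] at hy
  obtain ⟨y1, y2, y3⟩ := hy
  have y4 : 1 ≤ y := (one_le_pow₀ p1).trans y2
  have y5 : (p : ℝ) ≤ y ^ δ := by
    rw [← Real.rpow_inv_rpow p.cast_nonneg d1.ne']
    exact Real.rpow_le_rpow (by positivity) y3 d1.le
  let S₀ := (range (⌊y ^ δ⌋₊ + 1)).filter Nat.Prime
  have m0 : ∀ q : ℕ, q ∈ S₀ ↔ (q : ℝ) ≤ y ^ δ ∧ q.Prime := fun q => by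
    rw [mem_filter, mem_range, Nat.lt_succ_iff, Nat.le_floor_iff (by positivity)]
  let P := S₀ ∪ U.biUnion fun t => (N t).primeFactors
  have hP : ∀ q ∈ P, q.Prime := fun q hq => by
    rcases mem_union.1 hq with h | h
    · exact ((m0 q).1 h).2
    · obtain ⟨t, -, h⟩ := mem_biUnion.1 h
      exact Nat.prime_of_mem_primeFactors h
  have pP : p ∈ P := mem_union_left _ ((m0 p).2 ⟨y5, hp⟩)
  have pr : ∀ t ∈ U, ∀ f : ℕ → ℕ → ℝ, (∀ q, f q 0 = 1) → ∏ q ∈ P, f q ((N t).factorization q) =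
      ∏ q ∈ (N t).primeFactors, f q ((N t).factorization q) := fun t ht f hf =>
    (prod_subset (fun q hq => mem_union_right _ (mem_biUnion.2 ⟨t, ht, hq⟩)) fun q _ hq => by
      rw [Finsupp.notMem_support_iff.1 (Nat.support_factorization _ ▸ hq), hf]).symm
  have g0 : ∀ q j u, gg p k bad e n q (sh p k q + j) u = ww bad e n q j u := fun q j u => by
    rw [gg, if_neg (by omega), Nat.add_sub_cancel_left]
  have key := hC y a₀ A P {p} U (LV p k N R) (gg p k bad e n)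
    (fun u q => sh p k q + (N u).factorization q)
    (fun q => if q = p then 0 else if q ∣ bad then 2 ^ e * (κ / q) else (a q : ℝ) / q)
    (fun q => κ * S * if q = p then (p : ℝ) ^ (-(k : ℝ) / 2) else (q : ℝ) ^ (-(3 : ℝ) / 2))
    y4 hA hU hP (singleton_subset_iff.2 pP) (fun q hq => mem_singleton.1 hq ▸ y5)
    (fun q _ j => H.anti) (fun q hq u v c => H.perL (hP q hq) u v (by rwa [pow_one]))
    (fun q hq j u v c => H.perL (hP q hq) u v (by rwa [one_mul] at c))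
    (fun q hq j u v c => H.perG (hP q hq) u v (CgN.of_dvd (dvd_pow_self q (by omega)) c))
    (fun q _ j => gg_nonneg) (fun q hq u => (H.gg_le (hP q hq) u).trans (by simp))
    (fun q hq u => ?_) (fun q hq => ?_) (fun q hq j hj => ?_) (fun q hq => ?_) (fun q hq => ?_)
    (fun q hq J => ?_) (fun u hu q hq => ?_) (fun u _ q hq => ?_) (fun u hu => ?_)
    (fun u hu q hq h => ?_) (fun u hu => ?_)
  · rw [← sum_congr rfl fun t ht => pr t ht (fun q j => ww bad e n q j t) fun q => by simp [ww]]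
    simp only [g0] at key
    refine key.trans ?_
    rw [prod_singleton, if_pos rfl]
    have x1 := expo (k := k) H hκ hp hpb hb (zero_le_one.trans S1) (y ^ δ)
      ((P \ {p}).filter fun q : ℕ => (q : ℝ) ≤ y ^ δ) (fun q hq => by
        rw [mem_filter, mem_sdiff, mem_singleton] at hq
        exact ⟨hq.1.2, (m0 q).2 ⟨hq.2, hP q hq.1.1⟩⟩) fun q hq h => by_contra fun e =>
      h (mem_filter.2 ⟨mem_sdiff.2 ⟨mem_union_left _ hq, mt mem_singleton.1 e⟩, ((m0 q).1 hq).1⟩)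
    have x2 := Real.exp_le_exp.2 x1
    rw [Real.exp_add] at x2
    have x3 : 0 ≤ Real.exp Z * (κ * S) := by positivity
    calc _ ≤ (|C| + 1) * (∏ i, (A i : ℝ)) * (Real.exp (tsumP (fun q => (a q : ℝ) - b q) (y ^ δ)) *
          Real.exp Z * (κ * S * (p : ℝ) ^ (-(k : ℝ) / 2)) + y ^ (-ε)) := by
          gcongr
          linarith [le_abs_self C]
      _ = (|C| + 1) * (∏ i, (A i : ℝ)) * (Real.exp Z * (κ * S) *
          (Real.exp (tsumP (fun q => (a q : ℝ) - b q) (y ^ δ)) * (p : ℝ) ^ (-(k : ℝ) / 2)) +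
          1 * y ^ (-ε)) := by ring
      _ ≤ (|C| + 1) * (∏ i, (A i : ℝ)) * ((Real.exp Z * (κ * S) + 1) *
          (Real.exp (tsumP (fun q => (a q : ℝ) - b q) (y ^ δ)) * (p : ℝ) ^ (-(k : ℝ) / 2)) +
          (Real.exp Z * (κ * S) + 1) * y ^ (-ε)) := by gcongr <;> linarith
      _ = _ := by ring
  · refine (H.gg_le (hP q hq) u).trans (le_trans ?_ K5)
    have : ((1 - sh p k q : ℕ) : ℝ) ≤ 1 := by exact_mod_cast Nat.sub_le _ _
    gcongr
    linarith
  · exact (H.den1 hκ hk (hP q hq)).trans (by gcongr)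
  · rw [one_mul]
    exact (H.den2 hκ hp (hP q hq) hj).trans (by gcongr)
  · exact H.den3 hk (hP q hq) fun u => ¬ LV p k N R q 2 u
  · have q1 : (1 : ℝ) ≤ q := by exact_mod_cast (hP q hq).one_le
    have k2 : (2 : ℝ) ≤ k := by exact_mod_cast hk
    constructor
    · split_ifs
      · positivity
      · rw [← mul_div_assoc]
        gcongr
        linarith
      · have : (a q : ℝ) ≤ 2 ^ e := by
          exact_mod_cast (H.ale q (hP q hq)).trans Nat.lt_two_pow_self.le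
        gcongr
        linarith
    · rw [div_eq_mul_inv (K ^ 2), ← Real.rpow_neg_one]
      refine mul_le_mul (K2.trans K6) ?_ (by split_ifs <;> positivity) (by positivity)
      split_ifs with e1
      · exact e1 ▸ Real.rpow_le_rpow_of_exponent_le (e1 ▸ q1) (by linarith)
      · exact Real.rpow_le_rpow_of_exponent_le q1 (by norm_num)
  · exact H.den4 hκ (hP q hq) hg (fun j u => ¬ LV p k N R q (j + 1) u) J
  · refine ⟨Or.inr ⟨fun e => ?_, ?_⟩, fun h => ?_⟩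
    · rw [e, sh_eq, min_eq_right (Nat.le_add_right _ _)]
      exact (hN u hu).2.2
    · rw [Nat.add_sub_cancel_left]
      exact Nat.ordProj_dvd _ _
    · have := h.2
      rw [add_assoc, Nat.add_sub_cancel_left] at this
      exact Nat.pow_succ_factorization_not_dvd (hN u hu).1 (hP q hq) this
  · rw [mem_singleton.1 hq, sh_eq]
    omega
  · simp only [pow_add, prod_mul_distrib]
    rw [pr u hu (fun q j => (q : ℝ) ^ j) fun q => pow_zero _,
      prod_eq_single_of_mem p pP fun q _ e => by rw [sh_ne e, pow_zero], sh_eq,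
      Real.rpow_add_one (by positivity), mul_comm]
    refine mul_le_mul (le_of_eq_of_le ?_ (hN u hu).2.1) y2 (by positivity) (by positivity)
    exact_mod_cast Nat.prod_factorization_pow_eq_self (hN u hu).1
  · have e1 : q ≠ p := fun e => (e ▸ h).not_ge y5
    rw [g0, sh_ne e1, zero_add]
    refine (H.ww_le (hP q hq) u).trans (le_trans ?_ (pow_le_pow_left₀ (by positivity) K5 _))
    rw [pow_right_comm]
    gcongr
    exact_mod_cast Nat.lt_two_pow_self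
  · simp only [g0]
    refine le_trans (prod_le_prod (fun q _ => ww_nonneg u) fun q hq => H.ww_le (hP q hq) u) ?_
    rw [pr u hu (fun _ j => ((j : ℝ) + 1) ^ e) fun q => by simp]
    exact hy₁ y y1 _ (hN u hu).1 (hN u hu).2.1

end Slice

open Slice NumberField Pool.Agent.Shared.PrimeZeta in
theorem slice : ShiuNStmt → DenStmt → LvStmt → PLvStmt → SliceStmt := by
  intro hS hD hL hP d p bad e hp E hd hb hpb _
  obtain ⟨κ, hκ, hL⟩ := hL d hd
  obtain ⟨δ, ε, C, c1, c2, c3, c4, h⟩ := core (e := e) hS E hp.1 (by omega : 0 < d) hb hpb hκ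
  refine ⟨δ, ε, C, c1, c2, c3, c4, fun k hk => (h k hk).imp fun y₀ h y hy F L _ _ _ _ _ B ψ I c₀ m
    a A U hF hψ h1 h2 => ?_⟩
  have p1 : (1 : ℝ) ≤ p := by exact_mod_cast hp.1.one_le
  refine h y hy (fun t => NN (B.tau m t)) (fun q t => n1 L q (B.tau m t))
    (fun j t => ‖∑ i ∈ I, ψ i (B.tau m t) - c₀‖ ≤ ((p : ℝ) ^ j)⁻¹) (nI L) (nI F) a A U
    ⟨fun q j t t' => (hD F d B).2.2.1 q j m t t', fun q hq => ?_, fun q hq => ?_,
      fun q j hq => ((hL F B m q hq).2.2.1 j).1, fun q j hq => ((hL F B m q hq).2.2.1 j).2,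
      fun q t t' hq => ((hL F B m q hq).2.2.2 L).1 t t',
      fun q t hq => (((hL F B m q hq).2.2.2 L).2.1 _).trans hF,
      fun q hq => ((hL F B m q hq).2.2.2 L).2.2, fun q hq => (nI_le hq).trans ?_,
      fun j => (hP F d p B ψ I c₀ m j hψ h1 h2).1, fun j => ?_,
      fun i j t hij h => h.trans (by gcongr)⟩
  · rw [pow_one]
    exact (hL F B m q hq).1
  · rw [pow_one]
    exact (hL F B m q hq).2.1
  · rwa [RingOfIntegers.rank]
  · convert (hP F d p B ψ I c₀ m j hψ h1 h2).2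

end Pool.Agent.Lib.MP_9177b7_ag.B
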