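import Pool.Agent.Lib.MP_9177b7_ag.B.StE

/-!
Uniform bounds for the Mellin transform of the averaged theta series.
-/

open Pool.Agent.Stark Complex MeasureTheory Filter

noncomputable section

namespace Pool.Agent.Lib.MP_9177b7_ag.B

namespace ThetaBd

variable {ι κ : Type} [Fintype ι] [DecidableEq ι] {r : ℕ}

omit [DecidableEq ι] in
theorem fth_nonneg (B : Matrix ι ι ℝ) (pl : ι → κ) (l : Fin r → κ → ℝ) (τ : ℝ) :
    0 ≤ fth B pl l τ := by
  rw [ThetaAux.fth_eq]
  exact integral_nonneg fun t => ThetaAux.th_nonneg _ _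

omit [DecidableEq ι] in
theorem fth_le (B : Matrix ι ι ℝ) (pl : ι → κ) (l : Fin r → κ → ℝ) (τ K : ℝ)
    (h : ∀ t : Fin r → ℝ, ThetaAux.th B (fun i => ∑ j, t j * l j (pl i) + τ) ≤ K) :
    fth B pl l τ ≤ K := by
  have h1 := norm_setIntegral_le_of_norm_le_const (μ := (volume : Measure (Fin r → ℝ)))
    (s := Set.Icc 0 1) (f := fun t => ThetaAux.th B fun i => ∑ j, t j * l j (pl i) + τ)
    (C := K) isCompact_Icc.measure_lt_top
    (fun t _ => by rw [Real.norm_of_nonneg (ThetaAux.th_nonneg _ _)]; exact h t)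
  rw [ThetaAux.vol_Icc, mul_one, ← ThetaAux.fth_eq] at h1
  exact (le_abs_self _).trans h1

/-- The double exponential decay beats every exponential. -/
theorem decay (d : ℕ) {μ τ : ℝ} (hμ : 0 < μ) (hτ : 0 ≤ τ) :
    Real.exp (-(μ * Real.exp (2 * τ))) * Real.exp (5 * d * τ) ≤
      ((3 * d + 1).factorial : ℝ) * μ⁻¹ ^ (3 * d + 1) * (1 + τ ^ 2)⁻¹ := by
  set m := 3 * d + 1 with hm
  set x := μ * Real.exp (2 * τ) with hx
  have hx0 : 0 < x := by positivity
  have hf : (0 : ℝ) < m.factorial := by exact_mod_cast m.factorial_pos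
  have h1 : x ^ m / m.factorial ≤ Real.exp x := Real.pow_div_factorial_le_exp x hx0.le m
  have h2 : Real.exp (-x) ≤ m.factorial / x ^ m := by
    rw [Real.exp_neg, inv_le_comm₀ (Real.exp_pos _) (by positivity), inv_div]
    exact h1
  have h3 : x ^ m = μ ^ m * Real.exp (2 * τ * m) := by
    rw [hx, mul_pow, ← Real.exp_nat_mul]
    congr 2
    ring
  have h4 : 1 + τ ^ 2 ≤ Real.exp (2 * τ) := by
    have h5 := Real.add_one_le_exp τ
    have h6 : Real.exp (2 * τ) = Real.exp τ ^ 2 := by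
      rw [← Real.exp_nat_mul]; norm_num
    rw [h6]
    nlinarith
  have h7 : Real.exp (5 * d * τ) * (1 + τ ^ 2) ≤ Real.exp (2 * τ * m) := by
    calc Real.exp (5 * d * τ) * (1 + τ ^ 2) ≤ Real.exp (5 * d * τ) * Real.exp (2 * τ) := by
          gcongr
      _ = Real.exp (5 * d * τ + 2 * τ) := (Real.exp_add _ _).symm
      _ ≤ Real.exp (2 * τ * m) := by
          apply Real.exp_le_exp.2
          have : (m : ℝ) = 3 * d + 1 := by rw [hm]; push_cast; ring
          rw [this]
          have : 0 ≤ (d : ℝ) * τ := by positivity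
          nlinarith
  have h8 : Real.exp (5 * d * τ) ≤ Real.exp (2 * τ * m) * (1 + τ ^ 2)⁻¹ := by
    rw [← div_eq_mul_inv, le_div_iff₀ (by positivity)]
    exact h7
  calc Real.exp (-x) * Real.exp (5 * d * τ)
      ≤ (m.factorial / x ^ m) * (Real.exp (2 * τ * m) * (1 + τ ^ 2)⁻¹) := by gcongr
    _ = m.factorial * μ⁻¹ ^ m * (1 + τ ^ 2)⁻¹ := by
        rw [h3, inv_pow]
        field_simp

theorem mellin_exp (f : ℝ → ℂ) (z : ℂ) :
    mellin f z = ∫ τ : ℝ, f (Real.exp τ) * cexp (z * τ) := by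
  rw [← ThetaAux.mellin_log (fun τ => f (Real.exp τ)) z]
  unfold mellin
  refine setIntegral_congr_fun measurableSet_Ioi fun x hx => ?_
  beta_reduce
  rw [Real.exp_log hx]

theorem mellin_int (F : ℝ → ℂ) (z : ℂ) (h : MellinConvergent (fun x => F (Real.log x)) z) :
    Integrable fun τ : ℝ => F τ * cexp (z * τ) := by
  have h1 := integrableOn_image_iff_integrableOn_abs_deriv_smul (s := Set.univ) (f := Real.exp)
    (f' := Real.exp) MeasurableSet.univ (fun x _ => (Real.hasDerivAt_exp x).hasDerivWithinAt)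
    Real.exp_injective.injOn (fun x : ℝ => (x : ℂ) ^ (z - 1) • F (Real.log x))
  rw [Set.image_univ, Real.range_exp, integrableOn_univ] at h1
  refine (h1.1 h).congr (Eventually.of_forall fun τ => ?_)
  beta_reduce
  rw [Real.log_exp, abs_of_pos (Real.exp_pos τ), smul_eq_mul, Complex.real_smul,
    Complex.cpow_def_of_ne_zero (Complex.ofReal_ne_zero.2 (Real.exp_pos τ).ne'),
    ← Complex.ofReal_log (Real.exp_pos τ).le, Real.log_exp, Complex.ofReal_exp, ← mul_assoc,
    ← Complex.exp_add, mul_comm]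
  congr 2
  ring

/-- The bound for the entire part of the Mellin transform. -/
theorem lam_le [Nonempty ι] {B : Matrix ι ι ℝ} (hB : B.det ≠ 0) (pl : ι → κ)
    (l : Fin r → κ → ℝ) (hl : ∀ j, ∑ i, l j (pl i) = 0) (K : ℝ) (hK : 0 ≤ K)
    (h1 : ∀ τ : ℝ, 0 ≤ τ →
      fth B pl l τ * Real.exp (5 * Fintype.card ι * τ) ≤ K * (1 + τ ^ 2)⁻¹)
    (h2 : ∀ τ : ℝ, 0 ≤ τ → 1 / |B.det| * (fth (B⁻¹).transpose pl (-l) τ *
      Real.exp (5 * Fintype.card ι * τ)) ≤ K * (1 + τ ^ 2)⁻¹)
    (z : ℂ) (hz : ‖z‖ ≤ 4 * Fintype.card ι) :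
    ‖(ThetaAux.pair hB pl l hl).Λ₀ z‖ ≤ 4 * K := by
  set P := ThetaAux.pair hB pl l hl with hP
  set d : ℝ := (Fintype.card ι : ℝ) with hd
  have hd0 : 0 ≤ d := by rw [hd]; positivity
  have hre : |z.re| ≤ 4 * d := (Complex.abs_re_le_norm z).trans hz
  have hre' := abs_le.1 hre
  unfold WeakFEPair.Λ₀
  rw [mellin_exp]
  have hint : Integrable fun τ : ℝ => K * (1 + τ ^ 2)⁻¹ := integrable_inv_one_add_sq.const_mul K
  refine (norm_integral_le_of_norm_le hint (Eventually.of_forall fun τ => ?_)).trans ?_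
  · rw [norm_mul, Complex.norm_exp, Complex.mul_re, Complex.ofReal_re, Complex.ofReal_im, mul_zero,
      sub_zero]
    rcases lt_trichotomy τ 0 with hτ | hτ | hτ
    · have hx : Real.exp τ < 1 := Real.exp_lt_one_iff.2 hτ
      have hf : P.f_modif (Real.exp τ) =
          ((1 / |B.det| * (Real.exp (-(d * τ)) * fth (B⁻¹).transpose pl (-l) (-τ)) : ℝ) : ℂ) := by
        unfold WeakFEPair.f_modif
        rw [Pi.add_apply, Set.indicator_of_notMem (Set.notMem_Ioi.2 hx.le), zero_add,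
          Set.indicator_of_mem (Set.mem_Ioo.2 ⟨Real.exp_pos τ, hx⟩)]
        change ((1 + fth B pl l (Real.log (Real.exp τ)) : ℝ) : ℂ) -
          (((1 / |B.det| : ℝ) : ℂ) * ((Real.exp τ ^ (-(Fintype.card ι : ℝ)) : ℝ) : ℂ)) • (1 : ℂ) = _
        rw [Real.log_exp, ThetaAux.fth_fe hB pl l hl, ← Real.exp_mul, smul_eq_mul, mul_one,
          ← Complex.ofReal_mul, ← Complex.ofReal_sub]
        congr 1
        rw [← hd, show τ * -d = -(d * τ) by ring]
        ring
      have hG := fth_nonneg (B⁻¹).transpose pl (-l) (-τ)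
      have h3 := h2 (-τ) (by linarith)
      rw [neg_sq] at h3
      rw [hf, Complex.norm_real, Real.norm_of_nonneg (by positivity)]
      refine le_trans ?_ h3
      rw [mul_assoc, mul_comm (Real.exp _) (fth _ _ _ _), mul_assoc, ← Real.exp_add]
      gcongr
      nlinarith
    · subst hτ
      have hf : P.f_modif (Real.exp 0) = 0 := by
        unfold WeakFEPair.f_modif
        rw [Real.exp_zero, Pi.add_apply, Set.indicator_of_notMem (by simp),
          Set.indicator_of_notMem (by simp), add_zero]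
      rw [hf, norm_zero, zero_mul]
      positivity
    · have hx : 1 < Real.exp τ := Real.one_lt_exp_iff.2 hτ
      have hf : P.f_modif (Real.exp τ) = ((fth B pl l τ : ℝ) : ℂ) := by
        unfold WeakFEPair.f_modif
        rw [Pi.add_apply, Set.indicator_of_mem (Set.mem_Ioi.2 hx),
          Set.indicator_of_notMem (Set.notMem_Ioo_of_ge hx.le), add_zero]
        change ((1 + fth B pl l (Real.log (Real.exp τ)) : ℝ) : ℂ) - 1 = _
        rw [Real.log_exp]
        push_cast
        ring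
      have hF := fth_nonneg B pl l τ
      rw [hf, Complex.norm_real, Real.norm_of_nonneg hF]
      refine le_trans ?_ (h1 τ hτ.le)
      gcongr
      nlinarith
  · rw [integral_const_mul, integral_univ_inv_one_add_sq, mul_comm]
    gcongr
    exact Real.pi_le_four

theorem mellin_pair [Nonempty ι] {B : Matrix ι ι ℝ} (hB : B.det ≠ 0) (pl : ι → κ)
    (l : Fin r → κ → ℝ) (hl : ∀ j, ∑ i, l j (pl i) = 0) (s : ℂ) (hs : 1 < s.re) :
    (Integrable fun τ : ℝ => (fth B pl l τ : ℂ) * cexp ((Fintype.card ι : ℂ) * s * τ)) ∧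
    ∫ τ : ℝ, (fth B pl l τ : ℂ) * cexp ((Fintype.card ι : ℂ) * s * τ) =
      (ThetaAux.pair hB pl l hl).Λ ((Fintype.card ι : ℂ) * s) := by
  set P := ThetaAux.pair hB pl l hl with hP
  set n : ℂ := (Fintype.card ι : ℂ) with hn
  have hkre : P.k < (n * s).re := by
    have h1 : (0 : ℝ) < Fintype.card ι := by exact_mod_cast Fintype.card_pos
    have h2 : (n * s).re = Fintype.card ι * s.re := by
      rw [hn, ← Complex.ofReal_natCast, Complex.re_ofReal_mul]
    have h3 : P.k = Fintype.card ι := rfl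
    rw [h2, h3]
    nlinarith
  have hm := P.hasMellin hkre
  have hf : (fun x => P.f x - P.f₀) = fun x => ((fth B pl l (Real.log x) : ℝ) : ℂ) := by
    funext x
    change ((1 + fth B pl l (Real.log x) : ℝ) : ℂ) - 1 = _
    push_cast; ring
  rw [hf] at hm
  refine ⟨mellin_int (fun τ => ((fth B pl l τ : ℝ) : ℂ)) _ hm.1, ?_⟩
  rw [← hm.2, ThetaAux.mellin_log (fun τ => ((fth B pl l τ : ℝ) : ℂ))]

/-- The lower bound at `s = 2`. -/
theorem lower [Nonempty ι] {B : Matrix ι ι ℝ} (hB : B.det ≠ 0) (pl : ι → κ)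
    (l : Fin r → κ → ℝ) (hl : ∀ j, ∑ i, l j (pl i) = 0) :
    (1 / |B.det|) ^ 2 ≤ 2 * Fintype.card ι *
      ‖∫ τ : ℝ, (fth B pl l τ : ℂ) * cexp ((Fintype.card ι : ℂ) * 2 * τ)‖ := by
  set d : ℝ := (Fintype.card ι : ℝ) with hd
  have hd0 : 0 < d := by rw [hd]; exact_mod_cast Fintype.card_pos
  set ε : ℝ := 1 / |B.det| with hε
  have hε0 : 0 < ε := by rw [hε]; exact one_div_pos.2 (abs_pos.2 hB)
  have hcast : (fun τ : ℝ => (fth B pl l τ : ℂ) * cexp ((Fintype.card ι : ℂ) * 2 * τ)) =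
      fun τ : ℝ => ((fth B pl l τ * Real.exp (2 * d * τ) : ℝ) : ℂ) := by
    funext τ
    rw [hd]
    push_cast
    congr 2
    ring
  have hint := (mellin_pair hB pl l hl 2 (by norm_num)).1
  rw [hcast] at hint ⊢
  have hint' : Integrable fun τ : ℝ => fth B pl l τ * Real.exp (2 * d * τ) := by
    refine hint.re.congr (Eventually.of_forall fun τ => ?_)
    exact Complex.ofReal_re _
  rw [integral_complex_ofReal, Complex.norm_real]
  set c : ℝ := Real.log ε / d with hc
  have hec : Real.exp (d * c) = ε := by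
    rw [hc, mul_div_cancel₀ _ hd0.ne', Real.exp_log hε0]
  have hec2 : Real.exp (2 * d * c) = ε ^ 2 := by
    rw [← hec, ← Real.exp_nat_mul]
    congr 1
    push_cast
    ring
  have hi1 := integrableOn_exp_mul_Iic hd0 c
  have hi2 := integrableOn_exp_mul_Iic (a := 2 * d) (by positivity) c
  have h1 : ∫ τ in Set.Iic c, (ε * Real.exp (d * τ) - Real.exp (2 * d * τ)) = ε ^ 2 / (2 * d) := by
    rw [integral_sub (hi1.const_mul ε) hi2, integral_const_mul, integral_exp_mul_Iic hd0,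
      integral_exp_mul_Iic (by positivity), hec, hec2]
    field_simp
    ring
  have h2 : ∫ τ in Set.Iic c, (ε * Real.exp (d * τ) - Real.exp (2 * d * τ)) ≤
      ∫ τ in Set.Iic c, fth B pl l τ * Real.exp (2 * d * τ) := by
    refine integral_mono ((hi1.const_mul ε).sub hi2) hint'.integrableOn fun τ => ?_
    have h3 := ThetaAux.fth_fe hB pl l hl τ
    rw [← hd, ← hε] at h3
    have hG := fth_nonneg (B⁻¹).transpose pl (-l) (-τ)
    have h4 : ε * Real.exp (-(d * τ)) - 1 ≤ fth B pl l τ := by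
      have : 0 ≤ ε * Real.exp (-(d * τ)) * fth (B⁻¹).transpose pl (-l) (-τ) := by positivity
      nlinarith
    have h5 : Real.exp (d * τ) = Real.exp (-(d * τ)) * Real.exp (2 * d * τ) := by
      rw [← Real.exp_add]
      congr 1
      ring
    beta_reduce
    rw [h5]
    have h6 := Real.exp_pos (2 * d * τ)
    nlinarith
  have h3 : ∫ τ in Set.Iic c, fth B pl l τ * Real.exp (2 * d * τ) ≤
      ∫ τ, fth B pl l τ * Real.exp (2 * d * τ) :=
    setIntegral_le_integral hint' (Eventually.of_forall fun τ =>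
      mul_nonneg (fth_nonneg B pl l τ) (Real.exp_pos _).le)
  have h4 : ε ^ 2 / (2 * d) ≤ ‖∫ τ, fth B pl l τ * Real.exp (2 * d * τ)‖ := by
    rw [← h1]
    exact h2.trans (h3.trans (le_abs_self _))
  rw [div_le_iff₀ (by positivity)] at h4
  linarith

end ThetaBd

open ThetaBd in
theorem theta_bd : PackStmt → ThetaStmt := by
  intro hP d hd
  obtain ⟨C, hC, hpack⟩ := hP d
  set m := 3 * d + 1 with hm
  have hf : (1 : ℝ) ≤ m.factorial := by exact_mod_cast m.factorial_pos
  have hC0 : 0 < C := by linarith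
  have hK0 : (1 : ℝ) ≤ C ^ (2 + d + m) * m.factorial :=
    one_le_mul_of_one_le_of_one_le (one_le_pow₀ hC) hf
  refine ⟨89 * (C ^ (2 + d + m) * m.factorial), d + (d + 1) * (d + m), by linarith, ?_⟩
  intro ι κ _ _ r B pl l μ hcard hB hl hμ hμ1 hdet hmin
  have : Nonempty ι := Fintype.card_pos_iff.1 (by omega)
  have hdR : (Fintype.card ι : ℝ) = d := by exact_mod_cast hcard
  have hd1 : (1 : ℝ) ≤ d := by exact_mod_cast hd
  set u : ℝ := μ⁻¹ with hu
  have hu1 : 1 ≤ u := by rw [hu]; exact (one_le_inv₀ hμ).2 hμ1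
  have hu0 : 0 < u := by linarith
  set ε : ℝ := 1 / |B.det| with hε
  have habs : 0 < |B.det| := abs_pos.2 hB
  have hε0 : 0 < ε := one_div_pos.2 habs
  have hsum : ∀ t : Fin r → ℝ, ∑ i, ∑ j, t j * l j (pl i) = 0 := by
    intro t
    rw [Finset.sum_comm]
    simp_rw [← Finset.mul_sum, hl]
    simp
  have hP1 := fun t : Fin r → ℝ =>
    hpack ι B (fun i => ∑ j, t j * l j (pl i)) μ hcard hB hμ hμ1 (hmin t)
  have hεle : ε ≤ C * u ^ d := by
    have h1 := ((hP1 0).2 (hsum 0) hdet).1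
    have h2 : ε ^ 2 ≤ C * u ^ d := by
      rw [hε, hu, div_pow, one_pow, sq_abs, inv_pow, ← div_eq_mul_inv,
        div_le_div_iff₀ (by positivity) (by positivity)]
      linarith
    have h3 : 1 ≤ C * u ^ d := one_le_mul_of_one_le_of_one_le hC (one_le_pow₀ hu1)
    nlinarith
  set ν : ℝ := μ ^ (d + 1) / C with hν
  have hν0 : 0 < ν := by positivity
  have hν1 : ν ≤ 1 := by
    rw [hν, div_le_one hC0]
    exact (pow_le_one₀ hμ.le hμ1).trans hC
  have hνinv : ν⁻¹ = C * u ^ (d + 1) := by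
    rw [hν, inv_div, hu, inv_pow, div_eq_mul_inv]
  have hP2 : ∀ (t : Fin r → ℝ) (τ : ℝ), 0 ≤ τ →
      ThetaAux.th (B⁻¹).transpose (fun i => ∑ j, t j * (-l) j (pl i) + τ) ≤
        C * ν⁻¹ ^ d * Real.exp (-(ν * Real.exp (2 * τ))) := by
    intro t
    refine (hpack ι (B⁻¹).transpose (fun i => ∑ j, t j * (-l) j (pl i)) ν hcard
      (ThetaAux.det_inv_ne hB) hν0 hν1 fun k hk => ?_).1
    have h1 := ((hP1 t).2 (hsum t) hdet).2 k hk
    rw [hν, div_le_iff₀ hC0, mul_comm]
    refine h1.trans (le_of_eq ?_)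
    congr 1
    refine Finset.sum_congr rfl fun i _ => ?_
    simp only [Pi.neg_apply, mul_neg, Finset.sum_neg_distrib]
  set K : ℝ := C ^ (2 + d + m) * m.factorial * u ^ (d + (d + 1) * (d + m)) with hK
  have hKu : 1 ≤ u ^ (d + (d + 1) * (d + m)) := one_le_pow₀ hu1
  have hK1 : 1 ≤ K := one_le_mul_of_one_le_of_one_le hK0 hKu
  have hCK : C ≤ C ^ (2 + d + m) := le_self_pow₀ hC (by omega)
  have hεK : ε ≤ K := by
    refine hεle.trans ?_
    rw [hK]
    have h1 : u ^ d ≤ u ^ (d + (d + 1) * (d + m)) := pow_le_pow_right₀ hu1 (by omega)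
    have h2 : C ≤ C ^ (2 + d + m) * m.factorial := by nlinarith
    gcongr
  have h1 : ∀ τ : ℝ, 0 ≤ τ →
      fth B pl l τ * Real.exp (5 * Fintype.card ι * τ) ≤ K * (1 + τ ^ 2)⁻¹ := by
    intro τ hτ
    have h2 := fth_le B pl l τ _ fun t => (hP1 t).1 τ hτ
    have h3 := decay d hμ hτ
    rw [← hm, ← hu] at h3
    rw [hdR]
    calc fth B pl l τ * Real.exp (5 * d * τ)
        ≤ C * u ^ d * Real.exp (-(μ * Real.exp (2 * τ))) * Real.exp (5 * d * τ) := by gcongr
      _ = C * u ^ d * (Real.exp (-(μ * Real.exp (2 * τ))) * Real.exp (5 * d * τ)) := by ring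
      _ ≤ C * u ^ d * (m.factorial * u ^ m * (1 + τ ^ 2)⁻¹) := by gcongr
      _ = C * m.factorial * u ^ (d + m) * (1 + τ ^ 2)⁻¹ := by ring
      _ ≤ K * (1 + τ ^ 2)⁻¹ := by
          rw [hK]
          have h4 : u ^ (d + m) ≤ u ^ (d + (d + 1) * (d + m)) :=
            pow_le_pow_right₀ hu1 (by nlinarith [Nat.zero_le d, Nat.zero_le m])
          gcongr
  have h2 : ∀ τ : ℝ, 0 ≤ τ → 1 / |B.det| * (fth (B⁻¹).transpose pl (-l) τ *
      Real.exp (5 * Fintype.card ι * τ)) ≤ K * (1 + τ ^ 2)⁻¹ := by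
    intro τ hτ
    have h2 := fth_le (B⁻¹).transpose pl (-l) τ _ fun t => hP2 t τ hτ
    have h3 := decay d hν0 hτ
    have h0 := fth_nonneg (B⁻¹).transpose pl (-l) τ
    rw [← hm] at h3
    rw [hdR, ← hε]
    calc ε * (fth (B⁻¹).transpose pl (-l) τ * Real.exp (5 * d * τ))
        ≤ (C * u ^ d) * (C * ν⁻¹ ^ d * Real.exp (-(ν * Real.exp (2 * τ))) *
            Real.exp (5 * d * τ)) := by gcongr
      _ = (C * u ^ d) * (C * ν⁻¹ ^ d *
            (Real.exp (-(ν * Real.exp (2 * τ))) * Real.exp (5 * d * τ))) := by ring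
      _ ≤ (C * u ^ d) * (C * ν⁻¹ ^ d * (m.factorial * ν⁻¹ ^ m * (1 + τ ^ 2)⁻¹)) := by gcongr
      _ = K * (1 + τ ^ 2)⁻¹ := by
          rw [hK, hνinv]
          ring
  set P := ThetaAux.pair hB pl l hl with hPdef
  set n : ℂ := (Fintype.card ι : ℂ) with hn
  have hnn : ‖n‖ = d := by rw [hn, Complex.norm_natCast, hdR]
  have hn0 : n ≠ 0 := by
    rw [hn]; exact_mod_cast Fintype.card_ne_zero
  refine ⟨⟨fun s => s * (s - 1) * P.Λ₀ (n * s) - (s - 1) / n + (ε : ℂ) * s / n, ?_, ?_, ?_⟩, ?_⟩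
  · have := P.differentiable_Λ₀
    fun_prop
  · intro s hs
    have hL := lam_le hB pl l hl K (by linarith) h1 h2 (n * s) (by
      rw [norm_mul, hnn, hdR, mul_comm]
      gcongr)
    rw [← hPdef] at hL
    have hs1 : ‖s - 1‖ ≤ 5 := by
      have := norm_sub_le s 1
      rw [norm_one] at this
      linarith
    have ha : ‖s * (s - 1) * P.Λ₀ (n * s)‖ ≤ 4 * 5 * (4 * K) := by
      rw [norm_mul, norm_mul]
      gcongr
    have hb : ‖(s - 1) / n‖ ≤ 5 := by
      rw [norm_div, hnn, div_le_iff₀ (by linarith)]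
      linarith
    have hc : ‖(ε : ℂ) * s / n‖ ≤ K * 4 := by
      rw [norm_div, hnn, div_le_iff₀ (by linarith), norm_mul, Complex.norm_real,
        Real.norm_of_nonneg hε0.le]
      calc ε * ‖s‖ ≤ K * 4 := by gcongr
        _ ≤ K * 4 * d := le_mul_of_one_le_right (by linarith) hd1
    have h3 := norm_add_le (s * (s - 1) * P.Λ₀ (n * s) - (s - 1) / n) ((ε : ℂ) * s / n)
    have h4 := norm_sub_le (s * (s - 1) * P.Λ₀ (n * s)) ((s - 1) / n)
    have h5 : 89 * (C ^ (2 + d + m) * m.factorial) * u ^ (d + (d + 1) * (d + m)) = 89 * K := by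
      rw [hK]; ring
    rw [h5]
    linarith
  · intro s hs
    have hk : (P.k : ℂ) = n := by
      rw [hn]; exact Complex.ofReal_natCast _
    have hs0 : s ≠ 0 := by
      rintro rfl
      simp at hs
      linarith
    have hs1 : 1 - s ≠ 0 := by
      intro h
      have : s = 1 := by linear_combination -h
      rw [this] at hs
      simp at hs
    have h0 : P.f₀ = 1 := rfl
    have h1 : P.g₀ = 1 := rfl
    have h2 : P.ε = (ε : ℂ) := rfl
    rw [(mellin_pair hB pl l hl s hs).2, ← hPdef, ← hn, WeakFEPair.Λ, hk, h0, h1, h2, smul_eq_mul,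
      smul_eq_mul, show n - n * s = n * (1 - s) by ring]
    field_simp
    ring
  · have h3 := lower hB pl l hl
    rw [hdR, ← hε] at h3
    refine le_trans ?_ h3
    have h4 : μ ≤ ε := by
      rw [hε, le_div_iff₀ habs]
      calc μ * |B.det| ≤ μ * u := by gcongr
        _ = 1 := mul_inv_cancel₀ hμ.ne'
    gcongr

end Pool.Agent.Lib.MP_9177b7_ag.B
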