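import Pool.Agent.Lib.MP_9177b7_ag.B.StA

/-!
The tower property of conditional measures and their behaviour under conjugation.
-/

open MeasureTheory ProbabilityTheory Filter Topology Set
open scoped ENNReal

noncomputable section

namespace Pool.Agent.Lib.MP_9177b7_ag.B

namespace Tower

section main

variable {G X : Type} [Group G] [MeasurableSpace G] [MeasurableMul₂ G] [MeasurableInv G]
  [MeasurableSpace X] [MulAction G X] [MeasurableSMul₂ G X]

omit [MeasurableMul₂ G] [MeasurableInv G] in
theorem meas_act : Measurable fun p : X × G => p.2 • p.1 := measurable_snd.smul measurable_fst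

omit [MeasurableInv G] in
/-- The composite of the two families is again a family of conditional measures along `U`. -/
theorem comp_cond {ν : Measure X} {U B : Subgroup G} (hU : MeasurableSet (U : Set G))
    (hBU : B ≤ U) {κ lam : Kernel X G} (hκ : IsCond U ν κ) (hl : IsCond B ν lam) :
    ∃ κ' : Kernel X G, IsCond U ν κ' ∧ ∀ (y : X) (f : G → ℝ≥0∞), Measurable f →
      ∫⁻ g, f g ∂κ' y = ∫⁻ c, ∫⁻ b, f (b * c) ∂lam (c • y) ∂κ y := by
  have := hκ.markov
  have := hl.markov
  have hmul : Measurable fun q : G × G => q.2 * q.1 := measurable_snd.mul measurable_fst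
  set κ' : Kernel X G :=
    (κ ⊗ₖ lam.comap (fun p : X × G => p.2 • p.1) meas_act).map
      fun q : G × G => q.2 * q.1 with hκ'
  have hint : ∀ (y : X) (f : G → ℝ≥0∞), Measurable f →
      ∫⁻ g, f g ∂κ' y = ∫⁻ c, ∫⁻ b, f (b * c) ∂lam (c • y) ∂κ y := fun y f hf => by
    rw [hκ', Kernel.lintegral_map _ hmul _ hf]
    exact Kernel.lintegral_compProd _ _ _ (hf.comp hmul)
  refine ⟨κ', ⟨Kernel.IsMarkovKernel.map _ hmul, fun y => ?_, fun u hu y => ?_, fun f hf => ?_⟩,
    hint⟩
  · rw [← lintegral_indicator_one hU.compl, hint y _ (measurable_one.indicator hU.compl)]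
    refine (lintegral_congr_ae ?_).trans lintegral_zero
    have h1 : ∀ᵐ c ∂κ y, c ∈ U := hκ.supp y
    filter_upwards [h1] with c hc
    refine (lintegral_congr_ae ?_).trans lintegral_zero
    have hs : ∀ᵐ d ∂lam (c • y), d ∈ B := hl.supp _
    filter_upwards [hs] with d hd
    exact indicator_of_notMem (not_not.2 (U.mul_mem (hBU hd) hc)) _
  · refine Measure.ext_of_lintegral _ fun f hf => ?_
    have hm : Measurable fun c : G => ∫⁻ d, f (d * c) ∂lam (c • u • y) :=
      Measurable.lintegral_kernel_prod_right'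
        (κ := lam.comap (fun c : G => c • u • y) (measurable_id.smul_const (u • y)))
        (f := fun q : G × G => f (q.2 * q.1)) (hf.comp hmul)
    rw [lintegral_map hf (measurable_mul_const _), hint _ f hf,
      hint y (fun g => f (g * u⁻¹)) (hf.comp (measurable_mul_const _)), hκ.equi u hu y,
      lintegral_map hm (measurable_mul_const _)]
    refine lintegral_congr fun c => ?_
    simp [mul_smul, mul_assoc]
  · have hF : Measurable fun q : X × G => f (q.2 • q.1) := hf.comp meas_act
    have hΦ : Measurable fun y : X => ∫⁻ d, f (d • y) ∂lam y := hF.lintegral_kernel_prod_right'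
    rw [← hl.dis f hf, ← hκ.dis _ hΦ]
    refine lintegral_congr fun x => ?_
    rw [hint x (fun c => f (c • x)) (hf.comp (measurable_id.smul_const x))]
    simp only [mul_smul]

omit [MeasurableInv G] in
/-- Along the fibre through `x`, the family `lam` gives conditional measures of `κ x`. -/
theorem fib_cond {ν : Measure X} {B : Subgroup G} {lam : Kernel X G} (hl : IsCond B ν lam)
    (hB : MeasurableSet (B : Set G)) (μ : Measure G) (x : X)
    (h : ∀ f : G → ℝ≥0∞, Measurable f →
      ∫⁻ c, ∫⁻ b, f (b * c) ∂lam (c • x) ∂μ = ∫⁻ c, f c ∂μ)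
    (b₀ : G) (hb₀ : b₀ ∈ B) (hμ : μ.map (b₀ * ·) = μ) :
    IsCond B μ ((lam.comap (fun c : G => c • x) (measurable_id.smul_const x)).map (b₀ * ·)) := by
  have := hl.markov
  have hm : Measurable fun g : G => b₀ * g := measurable_const_mul b₀
  refine ⟨Kernel.IsMarkovKernel.map _ hm, fun c => ?_, fun b hb c => ?_, fun f hf => ?_⟩
  · rw [Kernel.map_apply _ hm, Kernel.comap_apply, Measure.map_apply hm hB.compl]
    refine measure_mono_null (fun g hg => ?_) (hl.supp (c • x))
    exact fun hg' => hg (B.mul_mem hb₀ hg')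
  · rw [Kernel.map_apply _ hm, Kernel.map_apply _ hm, Kernel.comap_apply, Kernel.comap_apply,
      smul_eq_mul, mul_smul, hl.equi b hb, Measure.map_map hm (measurable_mul_const _),
      Measure.map_map (measurable_mul_const _) hm]
    congr 1
    funext g
    simp [mul_assoc]
  · have hf' : Measurable fun g : G => f (b₀ * g) := hf.comp hm
    calc ∫⁻ c, ∫⁻ b, f (b • c) ∂((lam.comap (fun c : G => c • x)
            (measurable_id.smul_const x)).map (b₀ * ·)) c ∂μ
        = ∫⁻ c, ∫⁻ b, f (b₀ * (b * c)) ∂lam (c • x) ∂μ := by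
          refine lintegral_congr fun c => ?_
          rw [Kernel.map_apply _ hm, Kernel.comap_apply,
            lintegral_map (f := fun b => f (b • c)) (hf.comp (measurable_mul_const c)) hm]
          simp [mul_assoc]
      _ = ∫⁻ c, f (b₀ * c) ∂μ := h _ hf'
      _ = ∫⁻ c, f c ∂μ := by
          conv_rhs => rw [← hμ]
          exact (lintegral_map hf hm).symm

omit [MeasurableInv G] in
/-- The conjugated family. -/
theorem conj_cond {ν : Measure X} {U B : Subgroup G} {κ : Kernel X G} (hκ : IsCond U ν κ)
    (hB : MeasurableSet (B : Set G)) (T : G) (hT : ν.map (T • ·) = ν)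
    (hBU : ∀ g, g ∈ B ↔ T⁻¹ * g * T ∈ U) :
    IsCond B ν ((κ.comap (fun y : X => T⁻¹ • y) (measurable_const_smul T⁻¹)).map
      fun g => T * g * T⁻¹) := by
  have := hκ.markov
  have hm : Measurable fun g : G => T * g * T⁻¹ := (measurable_const_mul T).mul_const _
  refine ⟨Kernel.IsMarkovKernel.map _ hm, fun y => ?_, fun b hb y => ?_, fun f hf => ?_⟩
  · rw [Kernel.map_apply _ hm, Kernel.comap_apply, Measure.map_apply hm hB.compl]
    refine measure_mono_null (fun g hg => ?_) (hκ.supp (T⁻¹ • y))
    refine fun hg' => hg ((hBU _).2 ?_)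
    simpa [mul_assoc] using hg'
  · have e : T⁻¹ • b • y = (T⁻¹ * b * T) • T⁻¹ • y := by simp [mul_smul]
    rw [Kernel.map_apply _ hm, Kernel.map_apply _ hm, Kernel.comap_apply, Kernel.comap_apply, e,
      hκ.equi _ ((hBU b).1 hb), Measure.map_map hm (measurable_mul_const _),
      Measure.map_map (measurable_mul_const _) hm]
    congr 1
    funext g
    simp [mul_assoc]
  · have hsT : Measurable fun x : X => T • x := measurable_const_smul T
    have hF : Measurable fun q : X × G => f (q.2 • q.1) := hf.comp meas_act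
    have hΦ : Measurable fun y : X => ∫⁻ c, f (c • y) ∂((κ.comap (fun y : X => T⁻¹ • y)
        (measurable_const_smul T⁻¹)).map fun g => T * g * T⁻¹) y := by
      have := Kernel.IsMarkovKernel.map
        (κ.comap (fun y : X => T⁻¹ • y) (measurable_const_smul T⁻¹)) hm
      exact hF.lintegral_kernel_prod_right'
    conv_lhs => rw [← hT]
    conv_rhs => rw [← hT]
    rw [lintegral_map hΦ hsT, lintegral_map hf hsT, ← hκ.dis (fun x => f (T • x)) (hf.comp hsT)]
    refine lintegral_congr fun x => ?_
    rw [Kernel.map_apply _ hm, Kernel.comap_apply, inv_smul_smul,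
      lintegral_map (f := fun c => f (c • T • x)) (hf.comp (measurable_id.smul_const _)) hm]
    refine lintegral_congr fun c => ?_
    simp [mul_smul]

end main

end Tower

theorem tower : CondStmt → TowerStmt := by
  intro hC G X _ _ _ _ _ _ _ _ _ _ _ _ ν _ U B κ lam hU hB hκ hl
  have hUm : MeasurableSet (U : Set G) := hU.isClosed.measurableSet
  have hBm : MeasurableSet (B : Set G) := hB.isClosed.measurableSet
  refine ⟨fun hBU => ?_, fun T hT hBU => ?_⟩
  · obtain ⟨κ', hκ', hint⟩ := Tower.comp_cond hUm hBU hκ hl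
    filter_upwards [(hC G X ν U hU).2 κ κ' hκ hκ'] with x hx
    have h1 : ∀ f : G → ℝ≥0∞, Measurable f →
        ∫⁻ c, ∫⁻ b, f (b * c) ∂lam (c • x) ∂κ x = ∫⁻ c, f c ∂κ x := fun f hf => by
      rw [← hint x f hf, ← hx]
    refine ⟨h1, fun b₀ hb₀ hinv => ?_⟩
    have := hκ.markov
    have c1 := Tower.fib_cond hl hBm (κ x) x h1 b₀ hb₀ hinv
    have c2 := Tower.fib_cond hl hBm (κ x) x h1 1 B.one_mem (by simp)
    filter_upwards [(hC G G (κ x) B hB).2 _ _ c1 c2] with c hc
    rw [Kernel.map_apply _ (measurable_const_mul b₀), Kernel.map_apply _ (measurable_const_mul 1),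
      Kernel.comap_apply] at hc
    simpa using hc
  · have c1 := Tower.conj_cond hκ hBm T hT hBU
    have h := (hC G X ν B hB).2 _ _ hl c1
    have hsT : Measurable fun x : X => T • x := measurable_const_smul T
    rw [← hT] at h
    filter_upwards [ae_of_ae_map hsT.aemeasurable h] with x hx
    rw [hx, Kernel.map_apply _ ((measurable_const_mul T).mul_const _), Kernel.comap_apply,
      inv_smul_smul]

end Pool.Agent.Lib.MP_9177b7_ag.B
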