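import Pool.Agent.Lib.MP_9177b7_ag.B.St

/-! Integral unitary matrices act transitively on hyperplanes modulo a split ideal. -/

open NumberField Matrix

namespace Pool.Agent.Lib.MP_9177b7_ag.B

namespace Trans

theorem euclid {ι : Type} [Fintype ι] [DecidableEq ι] (o : ι) (P : (ι → ℤ) → Prop)
    (h0 : ∀ l, (∀ k, k ≠ o → l k = 0) → P l)
    (step : ∀ l i j s, i ≠ j → P (Function.update l j (l j + l i * s)) → P l) (l : ι → ℤ) :
    P l := by
  induction hN : ∑ k, (l k).natAbs using Nat.strong_induction_on generalizing l with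
  | _ N ih =>
  by_cases h : ∃ i j, i ≠ j ∧ l i ≠ 0 ∧ (l i).natAbs ≤ (l j).natAbs
  · obtain ⟨i, j, hij, hi, hle⟩ := h
    obtain ⟨s, hs⟩ : ∃ s : ℤ, (l j + l i * s).natAbs < (l j).natAbs := by
      rcases (by omega : (l j + l i * 1).natAbs < (l j).natAbs ∨
        (l j + l i * (-1)).natAbs < (l j).natAbs) with e | e
      exacts [⟨_, e⟩, ⟨_, e⟩]
    refine step l i j s hij (ih _ ?_ _ rfl)
    rw [← hN]
    refine Finset.sum_lt_sum (fun k _ => ?_) ⟨j, Finset.mem_univ _, by simpa using hs⟩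
    by_cases e : k = j
    · subst e
      simpa using hs.le
    · rw [Function.update_of_ne e]
  · by_cases h1 : ∀ k, k ≠ o → l k = 0
    · exact h0 l h1
    push Not at h h1
    obtain ⟨k, hk, hl⟩ := h1
    have hz : ∀ j, j ≠ k → l j = 0 := fun j hj => by
      by_contra e
      have a := h j k hj e
      have b := h k j hj.symm hl
      omega
    refine step l k o 1 hk (step _ o k (-1) hk.symm (h0 _ fun j hj => ?_))
    by_cases e : j = k
    · subst e
      simp [Function.update_of_ne hj, hz o hk.symm]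
    · rw [Function.update_of_ne e, Function.update_of_ne hj, hz j e]

theorem move {ι R : Type} [Fintype ι] [DecidableEq ι] [CommRing R] (o : ι)
    (S : Submonoid (Matrix ι ι R)) (hS : ∀ i j s, i ≠ j → transvection i j s ∈ S) (l : ι → ℤ) :
    ∃ g ∈ S, ∀ k, k ≠ o → ((fun i => (l i : R)) ᵥ* g) k = 0 := by
  refine euclid o (fun l => ∃ g ∈ S, ∀ k, k ≠ o → ((fun i => (l i : R)) ᵥ* g) k = 0)
    (fun l hl => ⟨1, S.one_mem, fun k hk => by simp [hl k hk]⟩) ?_ l
  rintro l i j s hij ⟨g, hg, h⟩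
  refine ⟨transvection i j (s : R) * g, S.mul_mem (hS i j _ hij) hg, fun k hk => ?_⟩
  rw [← vecMul_vecMul, ← h k hk]
  congr 2
  funext a
  rw [transvection, vecMul_add, vecMul_one, Pi.add_apply]
  by_cases e : a = j
  · subst e
    simp [vecMul, dotProduct, single_apply]
  · simp [vecMul, dotProduct, Function.update_of_ne e, Ne.symm e]

theorem Jm_map {n : ℕ} {R R' : Type} [CommRing R] [CommRing R'] (f : R →+* R') :
    (Jm n R).map f = Jm n R' := by
  ext i j
  simp only [Jm, map_apply, of_apply]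
  split_ifs <;> simp

theorem Ei_map {n : ℕ} {R R' : Type} [CommRing R] [CommRing R'] (f : R →+* R')
    (a b k : Fin (n + 3)) (w w' z : R) :
    f.mapMatrix (Ei a b k w w' z) = Ei a b k (f w) (f w') (f z) := by
  simp only [Ei, map_add, map_sub, map_one, RingHom.mapMatrix_apply, map_single]

/-- The monoid of unitary matrices. -/
def U (n : ℕ) {R : Type} [CommRing R] (σ : R →+* R) :
    Submonoid (Matrix (Fin (n + 3)) (Fin (n + 3)) R) where
  carrier := {g | (g.map σ)ᵀ * Jm n R * g = Jm n R}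
  one_mem' := by simp
  mul_mem' {g h} hg hh := by
    change ((g * h).map σ)ᵀ * Jm n R * (g * h) = Jm n R
    calc _ = (h.map σ)ᵀ * ((g.map σ)ᵀ * Jm n R * g) * h := by
          simp only [Matrix.map_mul, transpose_mul, mul_assoc]
      _ = _ := by rw [hg, hh]

theorem ring (hE : EichStmt) (n : ℕ) {R : Type} [CommRing R] (σ : R →+* R)
    (hσ : ∀ x, σ (σ x) = x) (m : Ideal R) (l : Fin (n + 3) → R) (hc : Cyc m)
    (h1 : m ⊔ m.map σ = ⊤) (h2 : m ⊔ Ideal.span {2} = ⊤) :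
    ∃ γ ∈ U n σ, ∀ k, k ≠ 0 → ∑ i, l i * γ i k ∈ m := by
  obtain ⟨e1, he1, e2, he2, he⟩ := Submodule.mem_sup.1 ((Ideal.eq_top_iff_one _).1 h1)
  obtain ⟨u, hu, v, hv, huv⟩ := Submodule.mem_sup.1 ((Ideal.eq_top_iff_one _).1 h2)
  obtain ⟨h, rfl⟩ := Ideal.mem_span_singleton'.1 hv
  have hle : m.map σ ≤ m.comap σ :=
    Ideal.map_le_iff_le_comap.2 fun x hx => by simpa [Ideal.mem_comap, hσ] using hx
  have z1 : Ideal.Quotient.mk m (σ e2) = 0 := Ideal.Quotient.eq_zero_iff_mem.2 (hle he2)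
  have z2 : Ideal.Quotient.mk m e2 = 1 := by
    rw [← map_one (Ideal.Quotient.mk m), ← he, map_add, Ideal.Quotient.eq_zero_iff_mem.2 he1,
      zero_add]
  have z3 : Ideal.Quotient.mk m (h * 2) = 1 := by
    rw [← map_one (Ideal.Quotient.mk m), ← huv, map_add, Ideal.Quotient.eq_zero_iff_mem.2 hu,
      zero_add]
  have hS : ∀ i j s, i ≠ j →
      transvection i j s ∈ (U n σ).map (Ideal.Quotient.mk m).mapMatrix.toMonoidHom := by
    refine (hE n (R ⧸ m) (RingHom.id _) 0 1 ⟨2, by omega⟩ 0 0 ⟨Or.inl ⟨rfl, rfl⟩, ?_, ?_⟩).2.2 _ ?_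
    · exact fun e => absurd (congrArg Fin.val e) (by simp)
    · exact fun e => absurd (congrArg Fin.val e) (by simp)
    intro a b k s hp
    obtain ⟨t, rfl⟩ := Ideal.Quotient.mk_surjective s
    have a1 : Ideal.Quotient.mk m (2 * (t * h * e2)) = Ideal.Quotient.mk m t := by
      rw [show 2 * (t * h * e2) = t * (h * 2) * e2 by ring, map_mul, map_mul, z2, z3, mul_one,
        mul_one]
    have a2 : Ideal.Quotient.mk m (σ (2 * (t * h * e2))) = 0 := by
      simp only [map_mul, z1, mul_zero]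
    have a3 : Ideal.Quotient.mk m (-2 * (t * h * e2) * σ (t * h * e2)) = 0 := by
      simp only [map_mul, z1, mul_zero]
    refine ⟨⟨_, (hE n R σ a b k (2 * (t * h * e2)) (-2 * (t * h * e2) * σ (t * h * e2)) hp).2.1
      (hσ _) ?_, ?_⟩, ⟨_, (hE n R σ a b k (σ (2 * (t * h * e2)))
        (-2 * (t * h * e2) * σ (t * h * e2)) hp).2.1 (hσ _) ?_, ?_⟩⟩
    · simp only [map_mul, map_neg, map_ofNat, hσ]; ring
    · exact (Ei_map _ _ _ _ _ _ _).trans (by rw [a1, a2, a3])
    · simp only [map_mul, map_neg, map_ofNat, hσ]; ring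
    · exact (Ei_map _ _ _ _ _ _ _).trans (by rw [hσ, a1, a2, a3])
  choose z hz using fun i => hc (l i)
  obtain ⟨_, ⟨γ, hγ, rfl⟩, hg⟩ := move 0 _ hS z
  refine ⟨γ, hγ, fun k hk => Ideal.Quotient.eq_zero_iff_mem.1 ?_⟩
  rw [← hg k hk, map_sum]
  refine Finset.sum_congr rfl fun i _ => ?_
  rw [map_mul, Ideal.Quotient.eq.2 (hz i), map_intCast]
  rfl

end Trans

theorem trans : EichStmt → TransStmt := by
  intro hE n p _ c m l hc h1 h2
  have hσ : ∀ x : 𝓞 c.K, c.cjO (c.cjO x) = x := fun x => by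
    apply RingOfIntegers.ext
    apply Subtype.ext
    change ((c.cj (c.cj x) : c.K) : ℂ) = _
    rw [c.cj_coe, c.cj_coe, Complex.conj_conj]
  obtain ⟨γ, hγ, h⟩ := Trans.ring hE n (c.cjO : 𝓞 c.K →+* 𝓞 c.K) hσ m l hc h1 h2
  refine ⟨γ, ?_, h⟩
  have e := congrArg (fun A => A.map (algebraMap (𝓞 c.K) c.K))
    (show (γ.map (c.cjO : 𝓞 c.K →+* 𝓞 c.K))ᵀ * Jm n _ * γ = Jm n _ from hγ)
  simp only [Matrix.map_mul, Trans.Jm_map] at e
  exact e

end Pool.Agent.Lib.MP_9177b7_ag.B
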