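import Pool.Agent.Lib.MP_9177b7_ag.B.St

/-!
The groups `SL_N(ℚ_p)`, `SU(J)` and their product are unimodular.
-/

open Matrix MeasureTheory
open scoped ComplexConjugate NNReal

noncomputable section

namespace Pool.Agent.Lib.MP_9177b7_ag.B

namespace Unimod

/-- A group without positive characters is unimodular. -/
theorem right_inv {G : Type} [Group G] [TopologicalSpace G] [IsTopologicalGroup G] [PolishSpace G]
    [LocallyCompactSpace G] [MeasurableSpace G] [BorelSpace G] (h : ∀ χ : G →* ℝ≥0, ∀ g, χ g = 1)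
    (m : Measure G) [m.IsHaarMeasure] : m.IsMulRightInvariant := by
  refine ⟨fun g => ?_⟩
  rw [Measure.map_right_mul_eq_modularCharacterFun_smul m g]
  have : Measure.modularCharacterFun g = 1 := h Measure.modularCharacter g
  rw [this, one_smul]

theorem hom_prod {G H : Type} [Group G] [Group H] (hG : ∀ χ : G →* ℝ≥0, ∀ g, χ g = 1)
    (hH : ∀ χ : H →* ℝ≥0, ∀ g, χ g = 1) (χ : G × H →* ℝ≥0) (g : G × H) : χ g = 1 := by
  have h1 : χ (g.1, 1) = 1 := hG (χ.comp (MonoidHom.inl G H)) g.1
  have h2 : χ (1, g.2) = 1 := hH (χ.comp (MonoidHom.inr G H)) g.2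
  rw [← Prod.fst_mul_snd g, map_mul, h1, h2, one_mul]

section grp

variable {G : Type} [Group G] (χ : G →* ℝ≥0)

theorem chi_ne (g : G) : χ g ≠ 0 := fun h => by
  have e : χ g * χ g⁻¹ = 1 := by rw [← map_mul, mul_inv_cancel, map_one]
  rw [h, zero_mul] at e
  exact zero_ne_one e

theorem chi_conj {d g g' : G} (h : d * g = g' * d) : χ g = χ g' := by
  have e := congrArg χ h
  rw [map_mul, map_mul, mul_comm] at e
  exact mul_right_cancel₀ (chi_ne χ d) e

theorem chi_four {d g : G} (h : d * g = g * g * (g * g) * d) : χ g = 1 := by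
  have e := chi_conj χ h
  rw [map_mul, map_mul] at e
  have e3 : χ g ^ 3 = 1 := mul_left_cancel₀ (chi_ne χ g) (by
    calc χ g * χ g ^ 3 = χ g * χ g * (χ g * χ g) := by ring
      _ = χ g * 1 := by rw [← e, mul_one])
  exact (pow_eq_one_iff_of_nonneg zero_le (by norm_num)).1 e3

end grp

section mat

variable {ι F : Type} [Fintype ι] [DecidableEq ι] [Field F]

theorem diag_single (d : ι → F) (i j : ι) (s t : F) (h : d i * s = t * d j) :
    diagonal d * single i j s = single i j t * diagonal d := by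
  ext k l
  rw [diagonal_mul, mul_diagonal, single_apply, single_apply]
  split_ifs with e
  · rw [← e.1, ← e.2, h]
  · simp

/-- Positive characters of the special linear group are trivial. -/
theorem sl_triv (hg : GenStmt) {ι F : Type} [Fintype ι] [DecidableEq ι] [Field F] [CharZero F]
    (χ : SpecialLinearGroup ι F →* ℝ≥0) (g : SpecialLinearGroup ι F) : χ g = 1 := by
  have h := hg ι F χ.ker fun a b hab s => by
    refine chi_four χ (d := SpecialLinearGroup.diag2n hab 2 two_ne_zero) ?_
    rw [← SpecialLinearGroup.transvection_add, ← SpecialLinearGroup.transvection_add]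
    apply SpecialLinearGroup.coeMonoidHom_injective
    simp only [map_mul]
    simp only [SpecialLinearGroup.coeMonoidHom_apply, SpecialLinearGroup.transvection_coe,
      SpecialLinearGroup.diag2n_coe, mul_add, add_mul, mul_one, one_mul]
    rw [diag_single _ a b s (s + s + (s + s))]
    simp only [if_true, if_neg hab.symm]
    ring
  exact MonoidHom.mem_ker.1 (h ▸ Subgroup.mem_top g)

end mat

section su

variable {n : ℕ} {a b k : Fin (n + 3)}

theorem pos_ne (h : Pos a b k) : a ≠ b ∧ k ≠ a ∧ k ≠ b := by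
  obtain ⟨h | h, h0, h1⟩ := h
  · rw [h.1, h.2]
    exact ⟨zero_ne_one, h0, h1⟩
  · rw [h.1, h.2]
    exact ⟨one_ne_zero, h1, h0⟩

theorem ei_mul (h : Pos a b k) (w w' z v v' y : ℂ) :
    Ei a b k w w' z * Ei a b k v v' y = Ei a b k (w + v) (w' + v') (z + y - w' * v) := by
  obtain ⟨h1, h2, h3⟩ := pos_ne h
  simp only [Ei, mul_add, add_mul, mul_sub, sub_mul, mul_one, one_mul, single_mul_single_same,
    single_mul_single_of_ne _ _ _ _ h1.symm, single_mul_single_of_ne _ _ _ _ h2,
    single_mul_single_of_ne _ _ _ _ h3.symm, add_zero, sub_zero, sub_eq_add_neg (z + y),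
    single_add, ← single_neg]
  abel

/-- The real diagonal element. -/
def dd (h : Pos a b k) : SU n :=
  ⟨SpecialLinearGroup.diag2n (pos_ne h).1 2 two_ne_zero, by
    change (SpecialLinearGroup.diag2n (pos_ne h).1 (2 : ℂ) two_ne_zero).1ᴴ * Jm n ℂ *
      (SpecialLinearGroup.diag2n (pos_ne h).1 (2 : ℂ) two_ne_zero).1 = Jm n ℂ
    rw [SpecialLinearGroup.diag2n_coe, diagonal_conjTranspose]
    ext i j
    rw [mul_diagonal, diagonal_mul]
    simp only [Jm, of_apply, Pi.star_apply]
    by_cases e : j = Equiv.swap 0 1 i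
    · subst e
      rw [if_pos rfl]
      by_cases h0 : i = 0
      · subst h0
        obtain ⟨h | h, -⟩ := h <;> simp [h.1, h.2]
      · by_cases h1 : i = 1
        · subst h1
          obtain ⟨h | h, -⟩ := h <;> simp [h.1, h.2]
        · rw [Equiv.swap_apply_of_ne_of_ne h0 h1]
          obtain ⟨h | h, -⟩ := h <;> simp [h.1, h.2, h0, h1]
    · simp [e]⟩

theorem dd_mul (h : Pos a b k) (w w' z : ℂ) :
    (dd h).1.1 * Ei a b k w w' z = Ei a b k (2 * w) (2 * w') (4 * z) * (dd h).1.1 := by
  obtain ⟨h1, h2, h3⟩ := pos_ne h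
  simp only [dd, SpecialLinearGroup.diag2n_coe, Ei, mul_add, add_mul, mul_sub, sub_mul, mul_one,
    one_mul]
  rw [diag_single _ k b w (2 * w), diag_single _ a k w' (2 * w'), diag_single _ a b z (4 * z)]
  · simp only [if_true, if_neg h1.symm]
    ring
  · simp only [if_true, if_neg h2, if_neg h3]
    ring
  · simp only [if_true, if_neg h1.symm, if_neg h2, if_neg h3]
    ring

theorem ex_ei (he : EichStmt) (h : Pos a b k) (w z : ℂ) (hz : z + conj z + w * conj w = 0) :
    ∃ g : SU n, g.1.1 = Ei a b k w (conj w) z := by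
  obtain ⟨h1, h2, -⟩ := he n ℂ (starRingEnd ℂ) a b k w z h
  exact ⟨⟨⟨_, h1 (conj w)⟩, h2 (by simp) hz⟩, rfl⟩

theorem su_ext {g g' : SU n} (h : g.1.1 = g'.1.1) : g = g' := Subtype.ext (Subtype.ext h)

theorem su_mul (g g' : SU n) : (g * g').1.1 = g.1.1 * g'.1.1 := rfl

/-- Positive characters of `SU(J)` are trivial. -/
theorem su_triv (he : EichStmt) (hu : GenUStmt) (χ : SU n →* ℝ≥0) (g : SU n) : χ g = 1 := by
  have h := hu n χ.ker fun a b k w z g hp hz hg => by
    obtain ⟨g₁, h₁⟩ := ex_ei he hp (2 * w) (4 * z) (by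
      simp only [map_mul, map_ofNat]
      linear_combination 4 * hz)
    obtain ⟨g₂, h₂⟩ := ex_ei he hp 0 (conj z - z) (by simp)
    have e₂ : χ g₂ = 1 := chi_four χ (d := dd hp) (su_ext (by
      simp only [su_mul, h₂, dd_mul, ei_mul hp]
      congr 2 <;> simp
      ring))
    have e₁ : χ g = χ g₁ := chi_conj χ (d := dd hp) (su_ext (by
      simp only [su_mul, hg, h₁, dd_mul, map_mul, map_ofNat]))
    have e : g * g = g₁ * g₂ := su_ext (by
      simp only [su_mul, hg, h₁, h₂, ei_mul hp, map_mul, map_ofNat, map_zero]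
      congr 1
      · ring
      · ring
      · linear_combination -hz)
    have e' := congrArg χ e
    rw [map_mul, map_mul, e₂, ← e₁] at e'
    exact mul_left_cancel₀ (chi_ne χ g) e'
  exact MonoidHom.mem_ker.1 (h ▸ Subgroup.mem_top g)

end su

end Unimod

open Unimod

theorem unimod : EichStmt → GenStmt → GenUStmt → UnimodStmt := fun he hg hu _ _ _ =>
  ⟨fun m _ => right_inv (sl_triv hg) m, fun m _ => right_inv (su_triv he hu) m,
    fun m _ => right_inv (hom_prod (sl_triv hg) (su_triv he hu)) m⟩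

end Pool.Agent.Lib.MP_9177b7_ag.B
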