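import Pool.Agent.Lib.MP_9177b7_ag.B.StE
import Pool.Agent.Lib.MP_ca56d1_nt.Euler

/-!
At most one zero of the Dedekind zeta function is close to `1`.
-/

open NumberField Pool.Agent.Shared.PrimeZeta Pool.Agent.Stark Finset

noncomputable section

namespace Pool.Agent.Lib.MP_9177b7_ag.B

namespace ZeroAux

/-- The contribution of one zero. -/
def w (u : ℂ) (a b : ℝ) : ℝ := Real.log ‖u + b‖ - Real.log ‖u + a‖

theorem nsq (u : ℂ) (a : ℝ) : ‖u + a‖ ^ 2 = ‖u‖ ^ 2 + 2 * a * u.re + a ^ 2 := by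
  rw [Complex.sq_norm, Complex.sq_norm, Complex.normSq_apply, Complex.normSq_apply]
  simp only [Complex.add_re, Complex.ofReal_re, Complex.add_im, Complex.ofReal_im, add_zero]
  ring

variable {u : ℂ}

theorem mono (hu : 0 ≤ u.re) {a b : ℝ} (ha : 0 ≤ a) (hab : a ≤ b) : ‖u + a‖ ≤ ‖u + b‖ := by
  refine le_of_sq_le_sq ?_ (norm_nonneg _)
  rw [nsq, nsq]
  nlinarith

theorem pos (hu : 0 ≤ u.re) (h0 : u ≠ 0) {a : ℝ} (ha : 0 ≤ a) : 0 < ‖u + a‖ := by
  have h := mono hu le_rfl ha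
  rw [Complex.ofReal_zero, add_zero] at h
  exact (norm_pos_iff.2 h0).trans_le h

theorem ge (hu : 0 ≤ u.re) (a : ℝ) : a ≤ ‖u + a‖ := by
  have h := Complex.re_le_norm (u + a)
  rw [Complex.add_re, Complex.ofReal_re] at h
  linarith

theorem le {a : ℝ} (ha : 0 ≤ a) : ‖u + a‖ ≤ ‖u‖ + a := by
  have h := norm_add_le u a
  rwa [Complex.norm_real, Real.norm_of_nonneg ha] at h

theorem w_nonneg (hu : 0 ≤ u.re) (h0 : u ≠ 0) {a b : ℝ} (ha : 0 ≤ a) (hab : a ≤ b) :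
    0 ≤ w u a b :=
  sub_nonneg.2 (Real.log_le_log (pos hu h0 ha) (mono hu ha hab))

theorem w_le (hu : 0 ≤ u.re) (h0 : u ≠ 0) {a b r : ℝ} (ha : 0 ≤ a) (hab : a ≤ b) (hb : b ≤ r) :
    w u a b ≤ w u 0 r := by
  have h1 := Real.log_le_log (pos hu h0 le_rfl) (mono hu le_rfl ha)
  have h2 := Real.log_le_log (pos hu h0 (ha.trans hab)) (mono hu (ha.trans hab) hb)
  unfold w
  linarith

theorem two_w (hu : 0 ≤ u.re) (h0 : u ≠ 0) {a b : ℝ} (ha : 0 ≤ a) (hb : 0 ≤ b) :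
    2 * w u a b = Real.log (‖u + b‖ ^ 2 / ‖u + a‖ ^ 2) := by
  rw [Real.log_div (pow_pos (pos hu h0 hb) 2).ne' (pow_pos (pos hu h0 ha) 2).ne', Real.log_pow,
    Real.log_pow, w]
  push_cast
  ring

theorem far (hu : 0 ≤ u.re) {r : ℝ} (hr : 0 < r) (h : r ≤ ‖u‖) :
    w u 0 r ≤ 16 * w u r (2 * r) := by
  have hN : 0 < ‖u‖ := hr.trans_le h
  have h0 : u ≠ 0 := norm_pos_iff.1 hN
  have e1 := two_w hu h0 le_rfl hr.le
  have e2 := two_w hu h0 hr.le (show 0 ≤ 2 * r by linarith)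
  have p0 := pow_pos (pos hu h0 le_rfl) 2
  have p1 := pow_pos (pos hu h0 hr.le) 2
  have p2 := pow_pos (pos hu h0 (show 0 ≤ 2 * r by linarith)) 2
  have h1 := Real.log_le_sub_one_of_pos (div_pos p1 p0)
  have h2 := Real.one_sub_inv_le_log_of_pos (div_pos p2 p1)
  have h3 : ‖u + ((2 * r : ℝ) : ℂ)‖ ^ 2 ≤ 16 * ‖u‖ ^ 2 := by
    have h4 := le (u := u) (show 0 ≤ 2 * r by linarith)
    have h5 := norm_nonneg (u + ((2 * r : ℝ) : ℂ))
    nlinarith
  rw [inv_div, one_sub_div p2.ne'] at h2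
  rw [div_sub_one p0.ne'] at h1
  have h6 : (‖u + (r : ℂ)‖ ^ 2 - ‖u + ((0 : ℝ) : ℂ)‖ ^ 2) / ‖u + ((0 : ℝ) : ℂ)‖ ^ 2 ≤
      16 * ((‖u + ((2 * r : ℝ) : ℂ)‖ ^ 2 - ‖u + (r : ℂ)‖ ^ 2) / ‖u + ((2 * r : ℝ) : ℂ)‖ ^ 2) := by
    have h7 : ‖u + ((0 : ℝ) : ℂ)‖ ^ 2 = ‖u‖ ^ 2 := by simp
    have h8 : 0 ≤ ‖u + (r : ℂ)‖ ^ 2 - ‖u‖ ^ 2 := by
      rw [nsq]
      nlinarith
    have h9 : ‖u + (r : ℂ)‖ ^ 2 - ‖u‖ ^ 2 ≤ ‖u + ((2 * r : ℝ) : ℂ)‖ ^ 2 - ‖u + (r : ℂ)‖ ^ 2 := by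
      rw [nsq, nsq]
      nlinarith
    rw [h7, ← mul_div_assoc, div_le_div_iff₀ (pow_pos hN 2) p2]
    nlinarith [mul_le_mul h9 h3 p2.le (h8.trans h9)]
  linarith

theorem log_two : Real.log 2 ≤ 1 := by
  have := Real.log_le_sub_one_of_pos (show (0 : ℝ) < 2 by norm_num)
  linarith

theorem near (hu : 0 ≤ u.re) (h0 : u ≠ 0) {r : ℝ} (hr : 0 < r) (h : ‖u‖ ≤ r) :
    Real.log (20 / 11) ≤ w u (10 * r) (20 * r) := by
  have h1 := ge hu (20 * r)
  have h2 := le (u := u) (show 0 ≤ 10 * r by linarith)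
  have h3 := Real.log_le_log (show 0 < 20 * r by linarith) h1
  have h4 := Real.log_le_log (pos hu h0 (show 0 ≤ 10 * r by linarith))
    (show _ ≤ 11 * r by linarith)
  rw [Real.log_mul (by norm_num) hr.ne'] at h3 h4
  rw [Real.log_div (by norm_num) (by norm_num), w]
  linarith

theorem small (hu : 0 ≤ u.re) {a : ℝ} (ha : 0 < a) (h : ‖u‖ ≤ a) :
    Real.log a ≤ Real.log ‖u + a‖ ∧ Real.log ‖u + a‖ ≤ Real.log a + 1 := by
  have h1 := ge hu a
  have h2 := le (u := u) ha.le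
  have h3 := Real.log_le_log (ha.trans_le h1) (show _ ≤ 2 * a by linarith)
  rw [Real.log_mul (by norm_num) ha.ne'] at h3
  exact ⟨Real.log_le_log ha h1, by linarith [log_two]⟩

theorem big (hu : 0 ≤ u.re) (h0 : u ≠ 0) {b : ℝ} (hb : 0 ≤ b) (h : b ≤ ‖u‖) : w u 0 b ≤ 1 := by
  have h2 := le (u := u) hb
  have h3 := Real.log_le_log (pos hu h0 hb) (show _ ≤ 2 * ‖u‖ by linarith)
  rw [Real.log_mul (by norm_num) (norm_pos_iff.2 h0).ne'] at h3
  rw [w, Complex.ofReal_zero, add_zero]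
  linarith [log_two]

theorem core {K r : ℝ} (hK : 0 ≤ K) (hr : 0 < r) (hr1 : r ≤ 1 / 80) (hKr : K * r ≤ 1 / 40)
    {m : ℕ} (u : Fin m → ℂ) (hu : ∀ j, 0 ≤ (u j).re) (h0 : ∀ j, u j ≠ 0) (g : ℝ → ℝ)
    (hg : ∀ a b, 0 ≤ a → a ≤ b → b ≤ 1 / 4 → |g b - g a - ∑ j, w (u j) a b| ≤ K * (b - a))
    (hm : ∀ a b, 0 < a → a ≤ b → g b - g a ≤ Real.log (b / a)) :
    ∃ ρ : ℝ, 0 < ρ ∧ ∀ a b : ℝ, 0 < a → a ≤ b → b ≤ r →
      (ρ ≤ a → |g b - g a - Real.log (b / a)| ≤ 40) ∧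
      (b ≤ ρ → |g b - g a| ≤ 40 ∧ g b ≤ g 0 + 40) ∧ g 0 ≤ g b + 40 := by
  classical
  have h1 : ∀ a b, 0 < a → a ≤ b → b ≤ 1 / 4 →
      ∑ j, w (u j) a b ≤ Real.log (b / a) + K * (b - a) := fun a b ha hab hb => by
    have := (abs_le.1 (hg a b ha.le hab hb)).1
    linarith [hm a b ha hab]
  have h2 : ∀ i j, ‖u i‖ ≤ r → ‖u j‖ ≤ r → i = j := by
    intro i j hi hj
    by_contra hij
    have a1 := h1 (10 * r) (20 * r) (by linarith) (by linarith) (by linarith)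
    have a2 : ∑ l ∈ {i, j}, w (u l) (10 * r) (20 * r) ≤ ∑ l, w (u l) (10 * r) (20 * r) :=
      sum_le_sum_of_subset_of_nonneg (subset_univ _) fun l _ _ =>
        w_nonneg (hu l) (h0 l) (by linarith) (by linarith)
    rw [sum_pair hij] at a2
    have a3 := near (hu i) (h0 i) hr hi
    have a4 := near (hu j) (h0 j) hr hj
    have a5 : 20 * r / (10 * r) = 2 := by field_simp; norm_num
    have a6 : Real.log (200 / 121) = 2 * Real.log (20 / 11) - Real.log 2 := by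
      rw [← Nat.cast_ofNat (R := ℝ) (n := 2), ← Real.log_pow, Nat.cast_ofNat,
        ← Real.log_div (by norm_num) (by norm_num)]
      norm_num
    have a7 := Real.one_sub_inv_le_log_of_pos (show (0 : ℝ) < 200 / 121 by norm_num)
    rw [a5] at a1
    norm_num at a7
    nlinarith
  have h3 : ∀ (S : Finset (Fin m)), (∀ j ∈ S, r ≤ ‖u j‖) → ∀ a b, 0 ≤ a → a ≤ b → b ≤ r →
      0 ≤ ∑ j ∈ S, w (u j) a b ∧ ∑ j ∈ S, w (u j) a b ≤ 20 := by
    intro S hS a b ha hab hb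
    refine ⟨sum_nonneg fun j _ => w_nonneg (hu j) (h0 j) ha hab, ?_⟩
    have a1 := h1 r (2 * r) hr (by linarith) (by linarith)
    have a2 : ∑ l ∈ S, w (u l) r (2 * r) ≤ ∑ l, w (u l) r (2 * r) :=
      sum_le_sum_of_subset_of_nonneg (subset_univ _) fun l _ _ =>
        w_nonneg (hu l) (h0 l) hr.le (by linarith)
    have a3 : ∑ j ∈ S, w (u j) a b ≤ ∑ j ∈ S, 16 * w (u j) r (2 * r) :=
      sum_le_sum fun j hj => (w_le (hu j) (h0 j) ha hab hb).trans (far (hu j) hr (hS j hj))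
    have a5 : 2 * r / r = 2 := by field_simp
    rw [← mul_sum] at a3
    rw [a5] at a1
    nlinarith [log_two]
  have h4 : ∀ a b, 0 ≤ a → a ≤ b → b ≤ r → |g b - g a - ∑ j, w (u j) a b| ≤ 1 :=
    fun a b ha hab hb => (hg a b ha hab (by linarith)).trans (by nlinarith)
  have h5 : ∀ b, 0 ≤ b → b ≤ r → g 0 ≤ g b + 40 := fun b hb hbr => by
    have a1 := (abs_le.1 (h4 0 b le_rfl hb hbr)).1
    have a2 : 0 ≤ ∑ j, w (u j) 0 b := sum_nonneg fun j _ => w_nonneg (hu j) (h0 j) le_rfl hb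
    linarith
  by_cases hn : ∃ i, ‖u i‖ ≤ r
  · obtain ⟨i, hi⟩ := hn
    have h6 := h3 (univ.erase i) fun j hj => le_of_not_ge fun h => ne_of_mem_erase hj (h2 j i h hi)
    have h7 : ∀ a b, ∑ j, w (u j) a b = w (u i) a b + ∑ j ∈ univ.erase i, w (u j) a b :=
      fun a b => (add_sum_erase _ _ (mem_univ i)).symm
    refine ⟨‖u i‖, norm_pos_iff.2 (h0 i), fun a b ha hab hb =>
      ⟨fun h => ?_, fun h => ⟨?_, ?_⟩, h5 b (ha.le.trans hab) hb⟩⟩
    · obtain ⟨a1, a2⟩ := abs_le.1 (h4 a b ha.le hab hb)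
      obtain ⟨a3, a4⟩ := h6 a b ha.le hab hb
      obtain ⟨a5, a6⟩ := small (hu i) ha h
      obtain ⟨a7, a8⟩ := small (hu i) (ha.trans_le hab) (h.trans hab)
      rw [h7, w] at a1 a2
      rw [Real.log_div (ha.trans_le hab).ne' ha.ne', abs_le]
      constructor <;> linarith
    · obtain ⟨a1, a2⟩ := abs_le.1 (h4 a b ha.le hab hb)
      obtain ⟨a3, a4⟩ := h6 a b ha.le hab hb
      have a5 := w_nonneg (hu i) (h0 i) ha.le hab
      have a6 := (w_le (hu i) (h0 i) ha.le hab le_rfl).trans (big (hu i) (h0 i) (ha.le.trans hab) h)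
      rw [h7] at a1 a2
      rw [abs_le]
      constructor <;> linarith
    · obtain ⟨a1, a2⟩ := abs_le.1 (h4 0 b le_rfl (ha.le.trans hab) hb)
      obtain ⟨a3, a4⟩ := h6 0 b le_rfl (ha.le.trans hab) hb
      have a6 := big (hu i) (h0 i) (ha.le.trans hab) h
      rw [h7] at a1 a2
      linarith
  · have h6 := h3 univ fun j _ => le_of_not_ge fun h => hn ⟨j, h⟩
    refine ⟨1, one_pos, fun a b ha hab hb =>
      ⟨fun h => absurd h (by linarith), fun _ => ⟨?_, ?_⟩, h5 b (ha.le.trans hab) hb⟩⟩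
    · obtain ⟨a1, a2⟩ := abs_le.1 (h4 a b ha.le hab hb)
      obtain ⟨a3, a4⟩ := h6 a b ha.le hab hb
      rw [abs_le]
      constructor <;> linarith
    · obtain ⟨a1, a2⟩ := abs_le.1 (h4 0 b le_rfl (ha.le.trans hab) hb)
      obtain ⟨a3, a4⟩ := h6 0 b le_rfl (ha.le.trans hab) hb
      linarith

variable (M : Type) [Field M] [NumberField M]

/-- The zeta function at `1 + a`. -/
def Zt (a : ℝ) : ℝ := ∑' q : ℕ, (nI M q : ℝ) * (q : ℝ) ^ (-(1 + a))

theorem Zt_pos {a : ℝ} (ha : 0 < a) : 0 < Zt M a := by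
  refine (EulerAux.summable_nI (F := M) (show 1 < 1 + a by linarith)).tsum_pos
    (fun n => by positivity) 1 ?_
  have h : 0 < nI M 1 := by
    rw [← card_idl]
    exact card_pos.2 ⟨⊤, mem_idl.2 Ideal.absNorm_top⟩
  have h' : (0 : ℝ) < nI M 1 := by exact_mod_cast h
  rw [Nat.cast_one, Real.one_rpow, mul_one]
  exact h'

theorem Zt_anti {a b : ℝ} (ha : 0 < a) (hab : a ≤ b) : Zt M b ≤ Zt M a := by
  refine Summable.tsum_le_tsum (fun n => ?_) (EulerAux.summable_nI (by linarith))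
    (EulerAux.summable_nI (by linarith))
  refine mul_le_mul_of_nonneg_left ?_ (by positivity)
  rcases Nat.eq_zero_or_pos n with rfl | hn
  · rw [Nat.cast_zero, Real.zero_rpow (by linarith), Real.zero_rpow (by linarith)]
  · exact Real.rpow_le_rpow_of_exponent_le (by exact_mod_cast hn) (by linarith)

theorem log_Fz {a : ℝ} (ha : 0 < a) : Real.log (Fz M a) = Real.log a + Real.log (Zt M a) := by
  rw [Fz, if_neg ha.ne']
  exact Real.log_mul ha.ne' (Zt_pos M ha).ne'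

theorem log_Zt {d : ℕ} (hd : Module.finrank ℚ M ≤ d) {a : ℝ} (ha : 0 < a) :
    |Real.log (Zt M a) - Pz M a| ≤ 6 * d := by
  have h1 : 1 < 1 + a := by linarith
  have h2 := psum_le_log h1 (EulerAux.summable_nI (F := M) h1)
  have h3 := (Real.log_le_iff_le_exp (Zt_pos M ha)).2
    (le_exp_psum h1 (EulerAux.summable_nI (F := M) h1))
  have h4 : (Module.finrank ℤ (𝓞 M) : ℝ) ≤ d := by
    rw [RingOfIntegers.rank]
    exact_mod_cast hd
  have h5 : (0 : ℝ) ≤ d := by positivity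
  unfold Zt Pz at *
  rw [abs_le]
  constructor <;> linarith

theorem one_le_LL : 1 ≤ LL M := by
  have h : (1 : ℝ) ≤ |(discr M : ℝ)| := by
    exact_mod_cast Int.one_le_abs (discr_ne_zero M)
  have := Real.log_nonneg h
  unfold LL
  linarith

end ZeroAux

open ZeroAux in
theorem zero : FacStmt → ZeroStmt := by
  intro hF d
  obtain ⟨A, hA, hF⟩ := hF d
  refine ⟨min (1 / 80) (1 / (40 * A)), 40 + 12 * d, by positivity,
    (min_le_left _ _).trans (by norm_num), fun M _ _ hd L hL => ?_⟩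
  obtain ⟨m, z, hz, hf⟩ := hF M hd
  have hL1 : 1 ≤ L := (one_le_LL M).trans hL
  have hc : 0 < min (1 / 80 : ℝ) (1 / (40 * A)) := by positivity
  obtain ⟨ρ, hρ, h⟩ := core (K := A * L) (r := min (1 / 80) (1 / (40 * A)) / L) (by positivity)
    (by positivity) ((div_le_self hc.le hL1).trans (min_le_left _ _))
    (by
      have h1 : A * L * (min (1 / 80) (1 / (40 * A)) / L) = A * min (1 / 80) (1 / (40 * A)) := by
        field_simp
      have h2 : A * (1 / (40 * A)) = 1 / 40 := by field_simp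
      rw [h1, ← h2]
      exact mul_le_mul_of_nonneg_left (min_le_right _ _) hA.le)
    (fun j => 1 - z j) (fun j => by simpa using (hz j).1) (fun j => sub_ne_zero.2 (hz j).2.symm)
    (fun a => Real.log (Fz M a))
    (fun a b ha hab hb => by
      have h1 := hf a b ha hab hb
      simp only [add_sub_right_comm (1 : ℂ)] at h1
      exact h1.trans (mul_le_mul_of_nonneg_right (mul_le_mul_of_nonneg_left hL hA.le)
        (sub_nonneg.2 hab)))
    (fun a b ha hab => by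
      have h1 := Real.log_le_log (Zt_pos M (ha.trans_le hab)) (Zt_anti M ha hab)
      rw [log_Fz M ha, log_Fz M (ha.trans_le hab), Real.log_div (ha.trans_le hab).ne' ha.ne']
      linarith)
  refine ⟨ρ, hρ, fun a b ha hab hb => ?_⟩
  obtain ⟨h1, h2, h3⟩ := h a b ha hab hb
  have hb0 := ha.trans_le hab
  obtain ⟨a1, a2⟩ := abs_le.1 (log_Zt M hd ha)
  obtain ⟨a3, a4⟩ := abs_le.1 (log_Zt M hd hb0)
  have h0 : Fz M 0 = dedekindZeta_residue M := if_pos rfl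
  have hd0 : (0 : ℝ) ≤ d := by positivity
  simp only [log_Fz M ha, log_Fz M hb0, h0, Real.log_div hb0.ne' ha.ne', abs_le] at h1 h2 h3 ⊢
  refine ⟨fun h => ?_, fun h => ⟨?_, ?_⟩, by linarith⟩
  · obtain ⟨b1, b2⟩ := h1 h
    constructor <;> linarith
  · obtain ⟨⟨b1, b2⟩, -⟩ := h2 h
    constructor <;> linarith
  · linarith [(h2 h).2]

end Pool.Agent.Lib.MP_9177b7_ag.B
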