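import Pool.Agent.Lib.MP_9177b7_ag.B.StE
import Pool.Agent.Lib.MP_ca56d1_nt.ZetaZero

/-!
A polynomial bound for the Dedekind zeta function in a disc containing `1`.
-/

open NumberField Pool.Agent.Shared.PrimeZeta Pool.Agent.Stark

noncomputable section

namespace Pool.Agent.Lib.MP_9177b7_ag.B

namespace ZetaBd

open Complex NumberField.mixedEmbedding NumberField.InfinitePlace NumberField.Units
open Pool.Agent.Stark.ZetaZeroAux MeasureTheory
open scoped nonZeroDivisors Classical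

variable {K : Type} [Field K] [NumberField K]

theorem exists_basis' (b : (Ideal (𝓞 K))⁰) : ∃ γ : Module.Basis (index K) ℝ (mixedSpace K),
    |((stdBasis K).toMatrix γ).det| ≤ Ideal.absNorm b.1 * √|(discr K : ℝ)| ∧
    ∀ z, (∃ k : index K → ℤ, ∑ i, (k i : ℝ) • γ i = z) ↔
      ∃ x : 𝓞 K, x ∈ b.1 ∧ mixedEmbedding K x = z := by
  let e := (fractionalIdealLatticeBasis K (FractionalIdeal.mk0 K b)).indexEquiv (stdBasis K)
  refine ⟨(fractionalIdealLatticeBasis K (FractionalIdeal.mk0 K b)).reindex e, ?_, fun z => ?_⟩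
  · have h := ZSpan.measureReal_fundamentalDomain
      ((fractionalIdealLatticeBasis K (FractionalIdeal.mk0 K b)).reindex e) volume (stdBasis K)
    rw [ZSpan.fundamentalDomain_reindex, measureReal_def, measureReal_def,
      volume_fundamentalDomain_stdBasis, volume_fundamentalDomain_fractionalIdealLatticeBasis,
      volume_fundamentalDomain_latticeBasis, ENNReal.toReal_mul, ENNReal.toReal_mul,
      ENNReal.toReal_pow, ENNReal.toReal_inv, ENNReal.toReal_ofNat, ENNReal.coe_toReal,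
      Real.coe_sqrt, coe_nnnorm, Int.norm_eq_abs,
      ENNReal.toReal_ofReal (Rat.cast_nonneg.mpr (FractionalIdeal.absNorm_nonneg _)),
      ENNReal.toReal_one, mul_one, Module.Basis.det_apply] at h
    rw [← h, FractionalIdeal.coe_mk0, FractionalIdeal.coeIdeal_absNorm, Rat.cast_natCast]
    refine mul_le_mul_of_nonneg_left ?_ (Nat.cast_nonneg _)
    exact mul_le_of_le_one_left (Real.sqrt_nonneg _) (pow_le_one₀ (by norm_num) (by norm_num))
  · simp only [Int.cast_smul_eq_zsmul]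
    rw [← Submodule.mem_span_range_iff_exists_fun, Module.Basis.range_reindex,
      mem_span_fractionalIdealLatticeBasis]
    refine ⟨fun ⟨y, h1, h2⟩ => ?_,
      fun ⟨x, h1, h2⟩ => ⟨_, FractionalIdeal.mem_coeIdeal_of_mem _ h1, h2⟩⟩
    obtain ⟨x, h3, rfl⟩ := (FractionalIdeal.mem_coeIdeal _).1 h1
    exact ⟨x, h3, h2⟩

theorem exists_lattice' (b : (Ideal (𝓞 K))⁰) : ∃ (B : Matrix (index K) (index K) ℝ)
    (v : {x : 𝓞 K // x ∈ b.1 ∧ x ≠ 0} ≃ {k : index K → ℤ // k ≠ 0}), B.det ≠ 0 ∧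
      |B.det| ≤ Ideal.absNorm b.1 * √|(discr K : ℝ)| ∧
      ∀ x i, lpt B (v x).1 i = (stdBasis K).repr (mixedEmbedding K x.1) i := by
  obtain ⟨γ, hd, hγ⟩ := exists_basis' b
  choose v hv using fun x : {x : 𝓞 K // x ∈ b.1 ∧ x ≠ 0} => (hγ _).2 ⟨x.1, x.2.1, rfl⟩
  have inj : ∀ x y : 𝓞 K, mixedEmbedding K x = mixedEmbedding K y → x = y := fun x y h =>
    RingOfIntegers.coe_injective (mixedEmbedding_injective K h)
  have li : ∀ k k' : index K → ℤ, ∑ i, (k i : ℝ) • γ i = ∑ i, (k' i : ℝ) • γ i → k = k' :=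
    fun k k' h => funext fun i => by
      exact_mod_cast γ.linearIndependent.eq_coords_of_eq h i
  refine ⟨(stdBasis K).toMatrix γ, Equiv.ofBijective (fun x => ⟨v x, fun h => x.2.2 (inj _ _
    (by simpa [h] using (hv x).symm))⟩) ⟨fun x y h => Subtype.ext (inj _ _ ?_), fun k => ?_⟩,
    ((stdBasis K).isUnit_det _).ne_zero, hd, fun x i => ?_⟩
  · rw [← hv, ← hv, show v x = v y from congrArg Subtype.val h]
  · obtain ⟨x, h1, h2⟩ := (hγ _).1 ⟨k.1, rfl⟩
    exact ⟨⟨x, h1, fun h => k.2 (li _ _ (by simpa [h] using h2.symm))⟩,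
      Subtype.ext (li _ _ ((hv _).trans h2))⟩
  · rw [← hv]
    simp [lpt, Matrix.mulVec, dotProduct, Module.Basis.toMatrix_apply, mul_comm]

theorem one_le_sum (a : InfinitePlace K → ℝ) (ha : ∑ w, (mult w : ℝ) * a w = 0) (x : 𝓞 K)
    (hx : x ≠ 0) : 1 ≤ ∑ w : InfinitePlace K, Real.exp (2 * a w) * w x ^ 2 := by
  by_contra h
  push Not at h
  have h1 : ∀ w : InfinitePlace K, Real.exp (a w) * w x < 1 := fun w => by
    have h2 := Finset.single_le_sum (f := fun w : InfinitePlace K => Real.exp (2 * a w) * w x ^ 2)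
      (fun _ _ => by positivity) (Finset.mem_univ w)
    have h3 : (Real.exp (a w) * w x) ^ 2 < 1 := by
      rw [mul_pow, ← Real.exp_nat_mul]
      exact lt_of_le_of_lt h2 h
    exact (sq_lt_one_iff₀ (by positivity)).1 h3
  have hx' : ∀ w : InfinitePlace K, 0 < w x := fun w =>
    pos_iff.2 (RingOfIntegers.coe_ne_zero_iff.2 hx)
  have h2 : ∏ w : InfinitePlace K, (Real.exp (a w) * w x) ^ mult w < ∏ _w : InfinitePlace K, 1 :=
    Finset.prod_lt_prod_of_nonempty (fun w _ => pow_pos (mul_pos (Real.exp_pos _) (hx' w)) _)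
      (fun w _ => pow_lt_one₀ (by positivity) (h1 w) mult_ne_zero) Finset.univ_nonempty
  simp only [mul_pow, Finset.prod_mul_distrib, ← Real.exp_nat_mul, ← Real.exp_sum, ha,
    Real.exp_zero, one_mul, Finset.prod_const_one] at h2
  rw [prod_place (I := ⊤) (b := Ideal.span {x}) (by simp)] at h2
  have h3 : Ideal.absNorm (Ideal.span {x}) ≠ 0 := by
    rw [Ne, Ideal.absNorm_eq_zero_iff, Ideal.span_singleton_eq_bot]; exact hx
  have h4 : (1 : ℝ) ≤ Ideal.absNorm (Ideal.span {x}) := by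
    exact_mod_cast Nat.one_le_iff_ne_zero.2 h3
  simp only [Ideal.absNorm_top, Nat.cast_one, one_mul] at h2
  linarith

variable (K) in
theorem one_le_discr : (1 : ℝ) ≤ |(discr K : ℝ)| := by
  exact_mod_cast Int.one_le_abs (discr_ne_zero K)

theorem exists_small (c : ClassGroup (𝓞 K)) : ∃ b : (Ideal (𝓞 K))⁰, ClassGroup.mk0 b = c ∧
    (Ideal.absNorm b.1 : ℝ) ≤ 2 ^ Module.finrank ℚ K * √|(discr K : ℝ)| := by
  obtain ⟨b, h1, h2⟩ := exists_ideal_in_class_of_norm_le c
  refine ⟨b, h1, h2.trans ?_⟩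
  have hn : 0 < Module.finrank ℚ K := Module.finrank_pos
  have h3 : (4 / Real.pi) ^ nrComplexPlaces K ≤ 2 ^ Module.finrank ℚ K := by
    refine (pow_le_pow_left₀ (by positivity) (b := 2) ?_ _).trans
      (pow_le_pow_right₀ one_le_two ?_)
    · rw [div_le_iff₀ Real.pi_pos]; linarith [Real.pi_gt_three]
    · have := card_add_two_mul_card_eq_rank K
      omega
  have h4 : ((Module.finrank ℚ K).factorial : ℝ) / (Module.finrank ℚ K : ℝ) ^ Module.finrank ℚ K
      ≤ 1 := by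
    rw [div_le_one (by positivity)]
    exact_mod_cast Nat.factorial_le_pow _
  exact mul_le_mul h3 (mul_le_of_le_one_left (Real.sqrt_nonneg _) h4) (by positivity)
    (by positivity)

variable (K) in
theorem zeta_two_le : ∑' I : {I : Ideal (𝓞 K) // I ≠ ⊥}, ‖(Ideal.absNorm I.1 : ℂ) ^ (-2 : ℂ)‖ ≤
    Real.exp (8 * Module.finrank ℚ K) := by
  have h2 : (1 : ℝ) < (2 : ℂ).re := by simp
  have hs := EulerAux.summable_nI (F := K) (σ := 2) one_lt_two
  refine (summable_zI h2).tsum_le_of_sum_le fun T => ?_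
  have h3 := sum_le_tsum_idl (T.map (Function.Embedding.subtype _))
    (fun n => (n : ℝ) ^ (-2 : ℝ)) (fun _ => by positivity) hs
  rw [Finset.sum_map] at h3
  have h4 : ∀ I : {I : Ideal (𝓞 K) // I ≠ ⊥}, ‖(Ideal.absNorm I.1 : ℂ) ^ (-2 : ℂ)‖ =
      (Ideal.absNorm I.1 : ℝ) ^ (-2 : ℝ) := fun I => by
    rw [EulerAux.norm_cpow _ (by simp)]
    simp
  simp only [h4]
  refine h3.trans ((le_exp_psum one_lt_two hs).trans (Real.exp_le_exp.2 ?_))
  have h5 : psum (fun n => nI K n) 2 ≤ 2 * Module.finrank ℤ (𝓞 K) := by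
    refine (summable_psum abs_nI_le one_lt_two).tsum_le_of_sum_le fun S => ?_
    refine le_trans (Finset.sum_le_sum (g := fun n : ℕ =>
      1 / (n : ℝ) ^ 2 * Module.finrank ℤ (𝓞 K)) fun n _ => ?_) ?_
    · split_ifs with h
      · rw [mul_comm, Real.rpow_neg (Nat.cast_nonneg _), one_div, Real.rpow_two]
        exact mul_le_mul_of_nonneg_left (by exact_mod_cast nI_le h) (by positivity)
      · positivity
    · rw [← Finset.sum_mul]
      exact mul_le_mul_of_nonneg_right (sum_inv_sq_le S) (Nat.cast_nonneg _)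
  rw [RingOfIntegers.rank] at h5 ⊢
  linarith

theorem exists_gam : ∃ g : ℝ, 1 ≤ g ∧ (∀ z : ℂ, ‖z‖ ≤ 8 → ‖2 * (Gammaℝ z)⁻¹‖ ≤ g) ∧
    ‖Gammaℝ 2 / 2‖ ≤ g ∧ ‖Gammaℝ 4 / 2‖ ≤ g := by
  obtain ⟨g, hg⟩ := (isCompact_closedBall (0 : ℂ) 8).exists_bound_of_continuousOn
    (f := fun z => 2 * (Gammaℝ z)⁻¹)
    (continuous_const.mul differentiable_Gammaℝ_inv.continuous).continuousOn
  refine ⟨max (max 1 g) (max ‖Gammaℝ 2 / 2‖ ‖Gammaℝ 4 / 2‖), ?_, fun z hz => ?_, ?_, ?_⟩
  · exact (le_max_left _ _).trans (le_max_left _ _)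
  · exact (hg z (by simpa using hz)).trans ((le_max_right _ _).trans (le_max_left _ _))
  · exact (le_max_left _ _).trans (le_max_right _ _)
  · exact (le_max_right _ _).trans (le_max_right _ _)

theorem norm_prod_le {g : ℝ} (hg : 1 ≤ g) (F : InfinitePlace K → ℂ) (hF : ∀ w, ‖F w‖ ≤ g) :
    ‖∏ w, F w‖ ≤ g ^ Module.finrank ℚ K := by
  rw [norm_prod]
  refine (Finset.prod_le_prod (fun _ _ => norm_nonneg _) fun w _ => hF w).trans ?_
  rw [Finset.prod_const, ← sum_mult_eq, Finset.card_eq_sum_ones]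
  exact pow_le_pow_right₀ hg (Finset.sum_le_sum fun _ _ => mult_pos)

/-- The Mellin transform attached to an ideal class. -/
theorem class_int (e : Option (Fin (rank K)) ≃ InfinitePlace K) (J : ℝ)
    (hJ : J = |(Matrix.of fun i j : Option (Fin (rank K)) =>
      i.elim 1 fun i' => Real.log (e j (fundSystem K i'))).det|) (hJ0 : J ≠ 0)
    (c : ClassGroup (𝓞 K)) : ∃ (B : Matrix (index K) (index K) ℝ) (N : ℕ), N ≠ 0 ∧
      (N : ℝ) ≤ 2 ^ Module.finrank ℚ K * |(discr K : ℝ)| ∧ B.det ≠ 0 ∧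
      |B.det| ≤ 2 ^ Module.finrank ℚ K * |(discr K : ℝ)| ∧
      (∀ (t : Fin (rank K) → ℝ) (k : index K → ℤ), k ≠ 0 → 1 ≤ ∑ i, Real.exp (2 * ∑ j, t j *
        Real.log (pl K i (fundSystem K j))) * lpt B k i ^ 2) ∧
      ∀ s : ℂ, 1 < s.re →
        ∫ τ : ℝ, (fth B (pl K) (fun j w => Real.log (w (fundSystem K j))) τ : ℂ) *
          cexp ((Fintype.card (index K) : ℂ) * s * τ) =
        (∏ w : InfinitePlace K, Gammaℝ (mult w * s) / 2) / J *
          ((∑' I : {I // cls I = c}, (Ideal.absNorm I.1.1 : ℂ) ^ (-s))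
            * (torsionOrder K * (N : ℂ) ^ (-s))) := by
  obtain ⟨b, hb, hb2⟩ := exists_small c⁻¹
  obtain rfl : c = (ClassGroup.mk0 b)⁻¹ := by rw [hb, inv_inv]
  obtain ⟨B, v, hB, hB2, hv⟩ := exists_lattice' b
  obtain ⟨g, f, hg, hf⟩ := exists_orbits b
  have hD := one_le_discr K
  have hsq : √|(discr K : ℝ)| * √|(discr K : ℝ)| = |(discr K : ℝ)| :=
    Real.mul_self_sqrt (abs_nonneg _)
  have hsq1 : 1 ≤ √|(discr K : ℝ)| := Real.one_le_sqrt.2 hD
  refine ⟨B, Ideal.absNorm b.1, Ideal.absNorm_eq_zero_iff.not.2 (nonZeroDivisors.ne_zero b.2),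
    hb2.trans (mul_le_mul_of_nonneg_left (by nlinarith) (by positivity)), hB,
    hB2.trans ((mul_le_mul_of_nonneg_right hb2 (Real.sqrt_nonneg _)).trans
      (by rw [mul_assoc, hsq])), fun t k hk => ?_, fun s hs => ?_⟩
  · obtain ⟨x, hx⟩ := v.surjective ⟨k, hk⟩
    obtain rfl : k = (v x).1 := by rw [hx]
    simp only [hv]
    rw [sum_pl_sq K fun w => Real.exp (2 * ∑ j, t j * Real.log (w (fundSystem K j)))]
    refine one_le_sum _ ?_ x.1 x.2.2
    simp only [Finset.mul_sum]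
    rw [Finset.sum_comm]
    refine Finset.sum_eq_zero fun j _ => ?_
    simp only [mul_left_comm _ (t j), ← Finset.mul_sum, sum_mult_mul_log, mul_zero]
  have hx : ∀ I (w : InfinitePlace K), 0 < w (g I) := fun I w =>
    pos_iff.2 (RingOfIntegers.coe_ne_zero_iff.2 (hg I).1)
  have e1 : ∀ I, ((∏ w : InfinitePlace K, w (g I) ^ mult w : ℝ) : ℂ) ^ (-s)
      = (Ideal.absNorm I.1.1 : ℂ) ^ (-s) * (Ideal.absNorm b.1 : ℂ) ^ (-s) := fun I => by
    rw [prod_place (hg I).2, ← natCast_mul_natCast_cpow]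
    simp
  have s1 : Summable fun I : {I // cls I = (ClassGroup.mk0 b)⁻¹} =>
      ‖(Ideal.absNorm I.1.1 : ℂ) ^ (-s)‖ := (summable_zI hs).subtype _
  have s2 : Summable fun _ : torsion K => ‖(Ideal.absNorm b.1 : ℂ) ^ (-s)‖ := .of_finite
  rw [unfold_theta B (pl K) mult (fun _ => mult_pos) (by rw [sum_mult_eq, card_index])
    _ (fun j => sum_mult_mul_log _) e J hJ hJ0 (fun a w => w (g a.1)) (fun a => hx a.1) (f.trans v)
    (fun a k c => ?_) s (by linarith) ((s1.mul_norm s2).congr fun a => ?_)]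
  · simp_rw [e1]
    rw [← tsum_mul_tsum_of_summable_norm s1 s2, tsum_const, nsmul_eq_mul, torsionOrder]
  · simp only [Equiv.trans_apply, hv, sum_pl_sq, hf, place_unit]
  · rw [← e1, norm_cpow_eq_rpow_re_of_pos (Finset.prod_pos fun w _ => pow_pos (hx _ w) _), neg_re]

theorem ball_spec {s : ℂ} (hs : s ∈ Metric.ball (2 : ℂ) (8 / 5)) :
    ‖s‖ ≤ 4 ∧ 2 / 5 ≤ ‖s‖ ∧ 0 ≤ s.re ∧ s.re ≤ 4 := by
  rw [mem_ball_iff_norm] at hs
  have h1 := norm_sub_norm_le s 2
  have h2 := norm_sub_norm_le 2 s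
  have h3 := abs_le.1 (abs_re_le_norm (s - 2))
  rw [norm_sub_rev] at h2
  have h4 : ‖(2 : ℂ)‖ = 2 := by simp
  have h5 : (s - 2).re = s.re - 2 := by simp
  rw [h5] at h3
  refine ⟨by linarith, by linarith, by linarith [h3.1], by linarith [h3.2]⟩

theorem exact_deg (hT : ThetaStmt) (n : ℕ) (hn : 0 < n) : ∃ (C : ℝ) (A : ℕ), 1 ≤ C ∧
    ∀ (M : Type) [Field M] [NumberField M], Module.finrank ℚ M = n →
      ∃ f : ℂ → ℂ, DifferentiableOn ℂ f (Metric.ball 2 (8 / 5)) ∧
      (∀ s ∈ Metric.ball (2 : ℂ) (8 / 5), ‖f s‖ ≤ C * |(discr M : ℝ)| ^ A) ∧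
      ∀ s ∈ Metric.ball (2 : ℂ) (8 / 5), 1 < s.re → f s = (s - 1) * dedekindZeta M s := by
  obtain ⟨C, A, hC, hT⟩ := hT n hn
  obtain ⟨g, hg, hg1, hg2, hg4⟩ := exists_gam
  refine ⟨max 1 (5 * n * g ^ n * g ^ n * Real.exp (8 * n) * C * (2 ^ n) ^ (A + 6)), A + 6,
    le_max_left _ _, fun K _ _ hK => ?_⟩
  obtain ⟨e, he⟩ := exists_J K
  have hn' : (Module.finrank ℚ K : ℝ) ≠ 0 := Nat.cast_ne_zero.2 Module.finrank_pos.ne'
  have hw : (torsionOrder K : ℂ) ≠ 0 := Nat.cast_ne_zero.2 (torsionOrder_ne_zero K)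
  have hw' : (0 : ℝ) < torsionOrder K := Nat.cast_pos.2 (torsionOrder_pos K)
  have hJ0 : |(Matrix.of fun i j : Option (Fin (rank K)) =>
      i.elim 1 fun i' => Real.log (e j (fundSystem K i'))).det| ≠ 0 := fun h => by
    rw [h, zero_mul] at he
    exact mul_ne_zero hn' (regulator_ne_zero K) he.symm
  have hc := class_int e _ rfl hJ0
  have hJp := lt_of_le_of_ne (abs_nonneg _) hJ0.symm
  clear he hJ0
  generalize |(_ : ℝ)| = J at hJp hc
  have hJ : (J : ℂ) ≠ 0 := ofReal_ne_zero.2 hJp.ne'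
  choose B N hN hN2 hB hB2 hmin hint using hc
  have hD := one_le_discr K
  rw [hK] at hN2 hB2
  obtain ⟨X, hX⟩ : ∃ X : ℝ, X = 2 ^ n * |(discr K : ℝ)| := ⟨_, rfl⟩
  have hX1 : 1 ≤ X := by
    rw [hX]; exact one_le_mul_of_one_le_of_one_le (one_le_pow₀ one_le_two) hD
  have hX0 : 0 < X := by linarith
  rw [← hX] at hN2 hB2
  have hΦ := fun c => hT (index K) (InfinitePlace K) (rank K) (B c) (pl K)
    (fun j w => Real.log (w (fundSystem K j))) X⁻¹ (by rw [card_index, hK]) (hB c)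
    (fun j => (sum_pl K fun w => Real.log (w (fundSystem K j))).trans (sum_mult_mul_log _))
    (inv_pos.2 hX0) (inv_le_one_of_one_le₀ hX1) (by rw [inv_inv]; exact hB2 c)
    fun t k hk => (inv_le_one_of_one_le₀ hX1).trans (hmin c t k hk)
  choose Φ h1 h2 h3 using fun c => (hΦ c).1
  have h4 := fun c => (hΦ c).2
  clear hΦ
  simp only [inv_inv] at h2
  let P : ℂ → ℂ := fun s => ∏ w : InfinitePlace K, (2 * (Gammaℝ (mult w * s))⁻¹)
  have hP : Differentiable ℂ P := Differentiable.fun_finsetProd fun w _ =>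
    (differentiable_Gammaℝ_inv.comp (by fun_prop)).const_mul _
  have hm2 : ∀ w : InfinitePlace K, mult w = 1 ∨ mult w = 2 := fun w => by
    rw [mult]; split_ifs <;> simp
  have two : (1 : ℝ) < (2 : ℂ).re := by simp
  have hsum : ∑ _c : ClassGroup (𝓞 K), J / torsionOrder K ≤
      2 * n * g ^ n * X ^ 2 * Real.exp (8 * n) := by
    have hZ := zeta_two_le K
    rw [hK, ← ((summable_zI two).hasSum.tsum_fiberwise cls).tsum_eq, tsum_fintype] at hZ
    refine le_trans ?_ (mul_le_mul_of_nonneg_left hZ (by positivity))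
    rw [Finset.mul_sum]
    refine Finset.sum_le_sum fun c _ => ?_
    have a1 := h4 c
    rw [hint c 2 two, norm_mul, norm_mul, norm_mul, norm_div, norm_real, norm_natCast,
      Real.norm_of_nonneg hJp.le] at a1
    have a2 : ‖∏ w : InfinitePlace K, Gammaℝ (mult w * 2) / 2‖ ≤ g ^ n := by
      rw [← hK]
      refine norm_prod_le hg _ fun w => ?_
      rcases hm2 w with h | h <;> rw [h]
      · rwa [Nat.cast_one, one_mul]
      · rwa [show ((2 : ℕ) : ℂ) * 2 = 4 by norm_num]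
    have a3 : ‖(N c : ℂ) ^ (-2 : ℂ)‖ ≤ 1 := by
      rw [EulerAux.norm_cpow _ (by simp)]
      exact Real.rpow_le_one_of_one_le_of_nonpos
        (by exact_mod_cast Nat.one_le_iff_ne_zero.2 (hN c)) (by simp)
    have s1 : Summable fun I : {I // cls I = c} =>
      ‖(Ideal.absNorm I.1.1 : ℂ) ^ (-2 : ℂ)‖ := (summable_zI two).subtype _
    have a4 := norm_tsum_le_tsum_norm s1
    change _ ≤ _ * ∑' I : {I // cls I = c}, ‖(Ideal.absNorm I.1.1 : ℂ) ^ (-2 : ℂ)‖
    have a5 : X⁻¹ ^ 2 ≤ 2 * n * (g ^ n / J *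
        ((∑' I : {I // cls I = c}, ‖(Ideal.absNorm I.1.1 : ℂ) ^ (-2 : ℂ)‖) *
          (torsionOrder K * 1))) := by
      refine a1.trans ?_
      gcongr
    generalize ∑' I : {I // cls I = c}, ‖(Ideal.absNorm I.1.1 : ℂ) ^ (-2 : ℂ)‖ = Z at a5 ⊢
    have a6 := mul_le_mul_of_nonneg_right a5 (show 0 ≤ X ^ 2 * J / torsionOrder K by positivity)
    refine le_trans (le_of_eq ?_) (a6.trans (le_of_eq ?_)) <;> field_simp
  refine ⟨fun s => ∑ c, (J / torsionOrder K : ℂ) * ((N c : ℂ) ^ s * (P s * (Φ c s / s))),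
    DifferentiableOn.fun_sum fun c _ => DifferentiableOn.const_mul (DifferentiableOn.mul
      (differentiable_id.const_cpow (Or.inl (Nat.cast_ne_zero.2 (hN c)))).differentiableOn
      (hP.differentiableOn.mul ((h1 c).differentiableOn.div differentiableOn_id fun s hs h => ?_)))
      _, fun s hs => ?_, fun s hs hs1 => ?_⟩
  · have := (ball_spec hs).2.1
    rw [show s = 0 from h, norm_zero] at this
    norm_num at this
  · obtain ⟨b1, b2, b3, b4⟩ := ball_spec hs
    have a1 : ‖P s‖ ≤ g ^ n := by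
      rw [← hK]
      refine norm_prod_le hg _ fun w => hg1 _ ?_
      rw [norm_mul, norm_natCast]
      rcases hm2 w with h | h <;> rw [h] <;> push_cast <;> linarith
    have a2 : ∀ c, ‖(N c : ℂ) ^ s‖ ≤ X ^ 4 := fun c => by
      rw [norm_natCast_cpow_of_pos (Nat.pos_of_ne_zero (hN c))]
      refine (Real.rpow_le_rpow (Nat.cast_nonneg _) (hN2 c) b3).trans ?_
      rw [← Real.rpow_natCast]
      exact Real.rpow_le_rpow_of_exponent_le hX1 (by exact_mod_cast b4)
    have a3 : ∀ c, ‖Φ c s / s‖ ≤ C * X ^ A * (5 / 2) := fun c => by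
      rw [norm_div, div_le_iff₀ (by linarith)]
      refine (h2 c s b1).trans ?_
      have : 0 ≤ C * X ^ A := by positivity
      nlinarith
    refine (norm_sum_le _ _).trans (le_trans (Finset.sum_le_sum (g := fun _ =>
      J / torsionOrder K * (X ^ 4 * (g ^ n * (C * X ^ A * (5 / 2))))) fun c _ => ?_) ?_)
    · rw [norm_mul, norm_mul, norm_mul, norm_div, norm_real, norm_natCast,
        Real.norm_of_nonneg hJp.le]
      have := a2 c
      have := a3 c
      gcongr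
    · rw [← Finset.sum_mul]
      refine (mul_le_mul_of_nonneg_right hsum (by positivity)).trans ?_
      refine le_trans (le_of_eq ?_) (mul_le_mul_of_nonneg_right (le_max_right _ _)
        (by positivity))
      rw [mul_assoc _ ((2 ^ n : ℝ) ^ (A + 6)), ← mul_pow, ← hX]
      ring
  · have hs0 : s ≠ 0 := fun h => by rw [h, zero_re] at hs1; linarith
    rw [← zI_eq hs1, zI, ← ((summable_zI hs1).of_norm.hasSum.tsum_fiberwise cls).tsum_eq,
      tsum_fintype, Finset.mul_sum]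
    refine Finset.sum_congr rfl fun c _ => ?_
    have e1 : P s * (∏ w : InfinitePlace K, Gammaℝ (mult w * s) / 2) = 1 := by
      rw [← Finset.prod_mul_distrib]
      refine Finset.prod_eq_one fun w _ => ?_
      have g0 : Gammaℝ (mult w * s) ≠ 0 := Gammaℝ_ne_zero_of_re_pos (by
        have : (0 : ℝ) < mult w := Nat.cast_pos.2 mult_pos
        simp only [mul_re, natCast_re, natCast_im, zero_mul, sub_zero]
        positivity)
      field_simp
    have e2 : (N c : ℂ) ^ s * (N c : ℂ) ^ (-s) = 1 := by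
      rw [← cpow_add _ _ (Nat.cast_ne_zero.2 (hN c)), add_neg_cancel, cpow_zero]
    rw [h3 c s hs1, hint c s hs1]
    change _ = _ * ∑' I : {I // cls I = c}, (Ideal.absNorm I.1.1 : ℂ) ^ (-s)
    generalize ∑' I : {I // cls I = c}, (Ideal.absNorm I.1.1 : ℂ) ^ (-s) = Z
    generalize ∏ w : InfinitePlace K, Gammaℝ (mult w * s) / 2 = G at e1 ⊢
    generalize P s = Q at e1 ⊢
    generalize (N c : ℂ) ^ s = U at e2 ⊢
    generalize (N c : ℂ) ^ (-s) = V at e2 ⊢
    field_simp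
    linear_combination ((s - 1) * Z * (U * V)) * e1 + ((s - 1) * Z) * e2

end ZetaBd

theorem zetaBd : ThetaStmt → ZetaBdStmt := by
  intro hT d
  induction d with
  | zero =>
    refine ⟨1, 0, le_rfl, fun M _ _ h => ?_⟩
    exact absurd h (not_le.2 Module.finrank_pos)
  | succ d ih =>
    obtain ⟨C, A, hC, h⟩ := ih
    obtain ⟨C', A', -, h'⟩ := ZetaBd.exact_deg hT (d + 1) d.succ_pos
    refine ⟨max C C', max A A', hC.trans (le_max_left _ _), fun M _ _ hM => ?_⟩
    have hD := ZetaBd.one_le_discr M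
    have h0 : 0 ≤ max C C' := by linarith [le_max_left C C']
    rcases hM.lt_or_eq with h1 | h1
    · obtain ⟨f, f1, f2, f3⟩ := h M (Nat.lt_succ_iff.1 h1)
      exact ⟨f, f1, fun s hs => (f2 s hs).trans (mul_le_mul (le_max_left _ _)
        (pow_le_pow_right₀ hD (le_max_left _ _)) (by positivity) h0), f3⟩
    · obtain ⟨f, f1, f2, f3⟩ := h' M h1
      exact ⟨f, f1, fun s hs => (f2 s hs).trans (mul_le_mul (le_max_right _ _)
        (pow_le_pow_right₀ hD (le_max_right _ _)) (by positivity) h0), f3⟩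

end Pool.Agent.Lib.MP_9177b7_ag.B
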