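import Pool.Agent.Lib.MP_9177b7_ag.B.Amb
import Pool.Agent.Lib.MP_9177b7_ag.B.Bow
import Pool.Agent.Lib.MP_9177b7_ag.B.CNF
import Pool.Agent.Lib.MP_9177b7_ag.B.Cond
import Pool.Agent.Lib.MP_9177b7_ag.B.Count
import Pool.Agent.Lib.MP_9177b7_ag.B.Cov
import Pool.Agent.Lib.MP_9177b7_ag.B.Cyc
import Pool.Agent.Lib.MP_9177b7_ag.B.Den
import Pool.Agent.Lib.MP_9177b7_ag.B.DensP
import Pool.Agent.Lib.MP_9177b7_ag.B.DensR
import Pool.Agent.Lib.MP_9177b7_ag.B.Disc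
import Pool.Agent.Lib.MP_9177b7_ag.B.Dyn
import Pool.Agent.Lib.MP_9177b7_ag.B.EK
import Pool.Agent.Lib.MP_9177b7_ag.B.Eich
import Pool.Agent.Lib.MP_9177b7_ag.B.Fac
import Pool.Agent.Lib.MP_9177b7_ag.B.Fib
import Pool.Agent.Lib.MP_9177b7_ag.B.Fin
import Pool.Agent.Lib.MP_9177b7_ag.B.Frame
import Pool.Agent.Lib.MP_9177b7_ag.B.Frob
import Pool.Agent.Lib.MP_9177b7_ag.B.Gal
import Pool.Agent.Lib.MP_9177b7_ag.B.Gen
import Pool.Agent.Lib.MP_9177b7_ag.B.GenU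
import Pool.Agent.Lib.MP_9177b7_ag.B.Geo
import Pool.Agent.Lib.MP_9177b7_ag.B.Grp
import Pool.Agent.Lib.MP_9177b7_ag.B.Heis
import Pool.Agent.Lib.MP_9177b7_ag.B.Hopf
import Pool.Agent.Lib.MP_9177b7_ag.B.Idc
import Pool.Agent.Lib.MP_9177b7_ag.B.Iso
import Pool.Agent.Lib.MP_9177b7_ag.B.Lev
import Pool.Agent.Lib.MP_9177b7_ag.B.Lift
import Pool.Agent.Lib.MP_9177b7_ag.B.Lv
import Pool.Agent.Lib.MP_9177b7_ag.B.Mahler
import Pool.Agent.Lib.MP_9177b7_ag.B.Main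
import Pool.Agent.Lib.MP_9177b7_ag.B.Meas
import Pool.Agent.Lib.MP_9177b7_ag.B.Mert
import Pool.Agent.Lib.MP_9177b7_ag.B.Move
import Pool.Agent.Lib.MP_9177b7_ag.B.Nbr
import Pool.Agent.Lib.MP_9177b7_ag.B.Orb
import Pool.Agent.Lib.MP_9177b7_ag.B.PLv
import Pool.Agent.Lib.MP_9177b7_ag.B.Pack
import Pool.Agent.Lib.MP_9177b7_ag.B.Pad
import Pool.Agent.Lib.MP_9177b7_ag.B.Prod
import Pool.Agent.Lib.MP_9177b7_ag.B.Proj
import Pool.Agent.Lib.MP_9177b7_ag.B.Red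
import Pool.Agent.Lib.MP_9177b7_ag.B.Rep
import Pool.Agent.Lib.MP_9177b7_ag.B.Sec
import Pool.Agent.Lib.MP_9177b7_ag.B.ShiuN
import Pool.Agent.Lib.MP_9177b7_ag.B.SieveN
import Pool.Agent.Lib.MP_9177b7_ag.B.Slice
import Pool.Agent.Lib.MP_9177b7_ag.B.Theta
import Pool.Agent.Lib.MP_9177b7_ag.B.Tower
import Pool.Agent.Lib.MP_9177b7_ag.B.Trans
import Pool.Agent.Lib.MP_9177b7_ag.B.Tube
import Pool.Agent.Lib.MP_9177b7_ag.B.Unimod
import Pool.Agent.Lib.MP_9177b7_ag.B.ZAsm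
import Pool.Agent.Lib.MP_9177b7_ag.B.Zero
import Pool.Agent.Lib.MP_9177b7_ag.B.ZetaBd

/-!
All the steps together.
-/

namespace Pool.Agent.Lib.MP_9177b7_ag.B

theorem dyn_all : DynStmt :=
  have hT := tower cond
  have hP := prod_stmt hT hopf
  have hL := lev cond hT
  dyn cond hL (ek cond hT hP hL heis) (sec hP hL) (bow cov) gen

theorem z_all : ZStmt :=
  zAsm (zero (fac (zetaBd (theta_bd (pack red))))) frob grp mert frame (cnf frame) (gal red frame)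

theorem iso_all : IsoStmt := iso frame cyc (nbr frame (trans eich))

theorem count_all : CountStmt :=
  count frame (amb frame) iso_all (fib frame (amb frame)) (rep frame idc den) (cnf frame)
    (geo red frame) den (slice (shiuN sieveN) den (lv idc den) (plv pad den)) z_all

theorem final_all : FinalStmt :=
  have hD := disc pad
  have hP := densP eich gen hD
  have hπ := proj_stmt hD hP
  have hT := tube hD hP (mahler red hD)
  have hL := lift pad hD frame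
  fin (main hD (densR eich hD (genU eich)) (unimod eich gen (genU eich)) hπ hT
    (meas pad frame (amb frame) (orb frame (amb frame)) iso_all hL (move pad hD frame hL) hπ hT)
    count_all dyn_all)

end Pool.Agent.Lib.MP_9177b7_ag.B
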