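import Pool.Agent.Lib.MP_9177b7_ag.B.St

/-!
Classes of ideals that are fixed by complex conjugation.
-/

open NumberField FractionalIdeal
open scoped nonZeroDivisors

noncomputable section

namespace Pool.Agent.Lib.MP_9177b7_ag.B

namespace Amb

/-- The number of ideals that contain a given positive integer. -/
theorem card_div (L : Type) [Field L] [NumberField L] {m : ℕ} (hm : m ≠ 0) :
    Finite {d : (Ideal (𝓞 L))⁰ // (m : 𝓞 L) ∈ d.1} ∧
      Nat.card {d : (Ideal (𝓞 L))⁰ // (m : 𝓞 L) ∈ d.1} ≤ 2 ^ m ^ Module.finrank ℚ L := by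
  have hc : Nat.card (𝓞 L ⧸ Ideal.span {(m : 𝓞 L)}) = m ^ Module.finrank ℚ L := by
    rw [← RingOfIntegers.rank, ← Ideal.absNorm_span_natCast, Ideal.absNorm_apply,
      Submodule.cardQuot_apply]
  have : Finite (𝓞 L ⧸ Ideal.span {(m : 𝓞 L)}) :=
    Nat.finite_of_card_ne_zero (hc ▸ pow_ne_zero _ hm)
  have hi : Function.Injective fun d : {d : (Ideal (𝓞 L))⁰ // (m : 𝓞 L) ∈ d.1} =>
      ((d.1.1.map (Ideal.Quotient.mk (Ideal.span {(m : 𝓞 L)})) : Ideal _) :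
        Set (𝓞 L ⧸ Ideal.span {(m : 𝓞 L)})) := by
    intro d d' h
    have k := congrArg (Ideal.comap (Ideal.Quotient.mk (Ideal.span {(m : 𝓞 L)})))
      (SetLike.coe_injective h)
    rw [Ideal.comap_map_quotientMk, Ideal.comap_map_quotientMk,
      sup_eq_right.2 ((Ideal.span_singleton_le_iff_mem _).2 d.2),
      sup_eq_right.2 ((Ideal.span_singleton_le_iff_mem _).2 d'.2)] at k
    exact Subtype.ext (Subtype.ext k)
  refine ⟨Finite.of_injective _ hi, (Nat.card_le_card_of_injective _ hi).trans ?_⟩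
  have := Fintype.ofFinite (𝓞 L ⧸ Ideal.span {(m : 𝓞 L)})
  rw [Nat.card_eq_fintype_card, Fintype.card_set, ← Nat.card_eq_fintype_card, hc]

/-- An invariant ideal differs from an extended ideal by a divisor of `2 δ`. -/
theorem exists_ext {L : Type} [Field L] [NumberField L] [IsCMField L] {δ : 𝓞 L} (h0 : δ ≠ 0)
    (hδ : IsCMField.ringOfIntegersComplexConj L δ = -δ) (g : (Ideal (𝓞 L))⁰)
    (hg : g.1.map (IsCMField.ringOfIntegersComplexConj L) = g.1) :
    ∃ (y : ClassGroup (𝓞 (maximalRealSubfield L))) (d : (Ideal (𝓞 L))⁰), 2 * δ ∈ d.1 ∧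
      ClassGroup.mk0 g = ClassGroup.extendedHom _ (𝓞 L) y * (ClassGroup.mk0 d)⁻¹ := by
  have g0 : g.1 ≠ 0 := mem_nonZeroDivisors_iff_ne_zero.1 g.2
  set σ := IsCMField.ringOfIntegersComplexConj L with hσ
  have hs : ∀ x, σ (σ x) = x := fun x =>
    RingOfIntegers.ext (IsCMField.complexConj_apply_apply L (x : L))
  set E := (g.1.comap (algebraMap (𝓞 (maximalRealSubfield L)) (𝓞 L))).map
    (algebraMap (𝓞 (maximalRealSubfield L)) (𝓞 L)) with hE
  have h1 : ∀ x ∈ g.1, σ x = x → x ∈ E := by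
    intro x hx e
    obtain ⟨z, rfl⟩ := (IsCMField.ringOfIntegersComplexConj_eq_self_iff L x).1 e
    exact Ideal.mem_map_of_mem _ hx
  have h2 : g.1 * Ideal.span {2 * δ} ≤ E := by
    rw [Ideal.mul_le]
    intro x hx y hy
    obtain ⟨z, rfl⟩ := Ideal.mem_span_singleton'.1 hy
    have hx' : σ x ∈ g.1 := hg ▸ Ideal.mem_map_of_mem _ hx
    have a1 := h1 (x + σ x) (add_mem hx hx') (by rw [map_add, hs, add_comm])
    have a2 := h1 (δ * (x - σ x)) (Ideal.mul_mem_left _ _ (sub_mem hx hx'))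
      (by rw [map_mul, map_sub, hs, hδ]; ring)
    rw [show x * (z * (2 * δ)) = z * (δ * (x + σ x) + δ * (x - σ x)) by ring]
    exact Ideal.mul_mem_left _ _ (add_mem (Ideal.mul_mem_left _ _ a1) a2)
  obtain ⟨d, hd⟩ : g.1 ∣ E := Ideal.dvd_iff_le.2 Ideal.map_comap_le
  have h3 : 2 * δ ∈ d := by
    rw [hd, ← Ideal.dvd_iff_le, mul_dvd_mul_iff_left g0, Ideal.dvd_span_singleton] at h2
    exact h2
  have d0 : d ≠ 0 := by
    rintro rfl
    exact mul_ne_zero two_ne_zero h0 h3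
  have c0 : g.1.comap (algebraMap (𝓞 (maximalRealSubfield L)) (𝓞 L)) ≠ 0 := by
    intro e
    rw [hE, e] at hd
    exact mul_ne_zero g0 d0 (hd.symm.trans (Ideal.map_bot))
  refine ⟨ClassGroup.mk0 ⟨_, mem_nonZeroDivisors_iff_ne_zero.2 c0⟩,
    ⟨d, mem_nonZeroDivisors_iff_ne_zero.2 d0⟩, h3, ?_⟩
  rw [ClassGroup.extendedHom_mk0, eq_mul_inv_iff_mul_eq, ← map_mul]
  exact congrArg _ (Subtype.ext hd.symm)

variable {n p : ℕ} [Fact p.Prime] {c : Ctx p}

theorem count (hF : FrameStmt) (D : Dat n c) :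
    Nat.card D.Amb ≤ 2 ^ c.m0 ^ (2 * (n + 3)) * classNumber D.F := by
  obtain ⟨f1, -, -, -, -, -, -, -, f9, -⟩ := hF n p c D
  have hm : c.m0 ≠ 0 := by
    rw [Ctx.m0, Ne, Ideal.absNorm_eq_zero_iff, Ideal.span_singleton_eq_bot]
    exact mul_ne_zero two_ne_zero c.δ_ne
  obtain ⟨fin, hc⟩ := card_div D.L hm
  have h0 : algebraMap (𝓞 c.K) (𝓞 D.L) c.δ ≠ 0 :=
    (map_ne_zero_iff _ (FaithfulSMul.algebraMap_injective _ _)).2 c.δ_ne
  have hδ : IsCMField.ringOfIntegersComplexConj D.L (algebraMap (𝓞 c.K) (𝓞 D.L) c.δ) =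
      -algebraMap (𝓞 c.K) (𝓞 D.L) c.δ := by
    apply RingOfIntegers.ext
    have := f1 c.δ
    rw [c.δ_cj, map_neg] at this
    exact this
  have key : ∀ x : D.Amb, ∃ q : {d : (Ideal (𝓞 D.L))⁰ // (c.m0 : 𝓞 D.L) ∈ d.1} ×
      ClassGroup (𝓞 D.F),
      x.1 = ClassGroup.extendedHom _ (𝓞 D.L) q.2 * (ClassGroup.mk0 q.1.1)⁻¹ := by
    rintro ⟨_, g, rfl, hg⟩
    obtain ⟨y, d, hd, e⟩ := exists_ext h0 hδ g hg
    obtain ⟨z, hz⟩ := Ideal.mem_span_singleton'.1 (Ideal.absNorm_mem (Ideal.span {2 * c.δ}))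
    refine ⟨(⟨d, ?_⟩, y), e⟩
    have := congrArg (algebraMap (𝓞 c.K) (𝓞 D.L)) hz
    rw [map_natCast, map_mul, map_mul, map_ofNat] at this
    rw [Ctx.m0, ← this]
    exact Ideal.mul_mem_left _ _ hd
  choose q hq using key
  have hi : Function.Injective q := fun x y e => Subtype.ext (by rw [hq, hq, e])
  refine (Nat.card_le_card_of_injective q hi).trans ?_
  rw [Nat.card_prod, ← f9, classNumber, Nat.card_eq_fintype_card (α := ClassGroup _)]
  exact Nat.mul_le_mul_right _ hc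

theorem twist (hF : FrameStmt) (D : Dat n c) (b b' : (Ideal (𝓞 D.L))⁰) :
    (∃ u : D.L, u * D.bar u = 1 ∧ D.tw b' = spanSingleton _ u * D.tw b) ↔
      (ClassGroup.mk0 b)⁻¹ * ClassGroup.mk0 b' ∈ D.Amb := by
  obtain ⟨f1, -, -, -, -, -, -, -, -, -, -, f12, f13, -, -, -, -, -, f19⟩ := hF n p c D
  obtain ⟨e, he⟩ := D.sp.frame
  have a0 : D.a ≠ 0 := (f19 _ e he).1
  have n0 : ∀ b : (Ideal (𝓞 D.L))⁰, ((b.1 : Ideal (𝓞 D.L)) : D.FI) ≠ 0 := fun b =>
    coeIdeal_ne_zero.2 (mem_nonZeroDivisors_iff_ne_zero.1 b.2)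
  have c0 : ∀ a : D.FI, a ≠ 0 → D.cF a ≠ 0 := fun a h => (map_ne_zero_iff _ D.cF.injective).2 h
  have s0 : ∀ x : D.L, x ≠ 0 → (spanSingleton _ x : D.FI) ≠ 0 := fun x h =>
    spanSingleton_ne_zero_iff.2 h
  have b0 : ∀ x : D.L, x ≠ 0 → D.bar x ≠ 0 := fun x h =>
    (map_ne_zero_iff _ (IsCMField.complexConj D.L).injective).2 h
  clear f19 he hF
  have bb : ∀ x : D.L, D.bar (D.bar x) = x := IsCMField.complexConj_apply_apply D.L
  have hb := n0 b
  have hb' := n0 b'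
  have kb := c0 _ hb
  have kb' := c0 _ hb'
  simp only [Dat.tw, ← f12]
  constructor
  · rintro ⟨u, hu, h⟩
    obtain ⟨y, y0, hy⟩ : ∃ y : D.L, y ≠ 0 ∧ u * D.bar y = y := by
      by_cases e : 1 + u = 0
      · refine ⟨algebraMap c.K D.L c.δ,
          (_root_.map_ne_zero _).2 (RingOfIntegers.coe_ne_zero_iff.2 c.δ_ne), ?_⟩
        rw [f1, c.δ_cj, map_neg, eq_neg_of_add_eq_zero_right e]
        ring
      · refine ⟨1 + u, e, ?_⟩
        rw [Dat.bar, map_add, map_one, mul_add, hu]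
        ring
    have sy := s0 y y0
    have sy' := s0 _ (b0 y y0)
    have hs : (spanSingleton _ u : D.FI) = spanSingleton _ y * (spanSingleton _ (D.bar y))⁻¹ := by
      rw [eq_mul_inv_iff_mul_eq₀ sy', spanSingleton_mul_spanSingleton, hy]
    obtain ⟨t, I, t0, hI⟩ := exists_eq_spanSingleton_mul
      ((b'.1 : D.FI) * (spanSingleton _ y * (b.1 : D.FI))⁻¹)
    have t1 : (t : D.L) ≠ 0 := RingOfIntegers.coe_ne_zero_iff.2 t0
    have st := s0 _ t1
    have st' := s0 _ (b0 _ t1)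
    have hg : ((D.cI (Ideal.span {t}) * I : Ideal (𝓞 D.L)) : D.FI) =
        spanSingleton _ (D.bar t) * spanSingleton _ (t : D.L) *
          ((b'.1 : D.FI) * (spanSingleton _ y * (b.1 : D.FI))⁻¹) := by
      rw [hI, coeIdeal_mul, ← f12, coeIdeal_span_singleton, f13, mul_assoc,
        ← mul_assoc _ _ (I : D.FI), spanSingleton_mul_spanSingleton, mul_inv_cancel₀ t1,
        spanSingleton_one, one_mul]
    have g0 : D.cI (Ideal.span {t}) * I ≠ ⊥ := by
      rw [← coeIdeal_ne_zero (K := D.L), hg]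
      exact mul_ne_zero (mul_ne_zero st' st) (mul_ne_zero hb' (inv_ne_zero (mul_ne_zero sy hb)))
    refine ⟨⟨_, mem_nonZeroDivisors_iff_ne_zero.2 g0⟩, ?_, ?_⟩
    · rw [eq_inv_mul_iff_mul_eq, ← map_mul, ClassGroup.mk0_eq_mk0_iff_exists_fraction_ring D.L]
      refine ⟨y * (D.bar t * t)⁻¹, mul_ne_zero y0 (inv_ne_zero (mul_ne_zero (b0 _ t1) t1)), ?_⟩
      rw [Submonoid.coe_mul, coeIdeal_mul, hg, ← spanSingleton_mul_spanSingleton,
        ← spanSingleton_inv, ← spanSingleton_mul_spanSingleton]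
      field_simp
    · apply coeIdeal_injective (K := D.L)
      simp only
      rw [← f12, hg, map_mul, map_mul, map_mul, map_inv₀, map_mul, f13, f13, f13, bb]
      rw [hs] at h
      field_simp at h ⊢
      exact h.symm
  · rintro ⟨g, hg, hc⟩
    rw [eq_inv_mul_iff_mul_eq, ← map_mul,
      ClassGroup.mk0_eq_mk0_iff_exists_fraction_ring D.L] at hg
    obtain ⟨x, x0, hx⟩ := hg
    have hc' : D.cF (g.1 : D.FI) = g.1 := by rw [f12, hc]
    have sx := s0 x x0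
    have sx' := s0 _ (b0 x x0)
    have gx := n0 g
    refine ⟨x * (D.bar x)⁻¹, ?_, ?_⟩
    · have := b0 x x0
      have e1 : D.bar (x * (D.bar x)⁻¹) = D.bar x * (D.bar (D.bar x))⁻¹ :=
        (map_mul _ _ _).trans (congrArg _ (map_inv₀ _ _))
      rw [e1, bb]
      field_simp
    · rw [← hx, Submonoid.coe_mul, coeIdeal_mul, map_mul, map_mul, f13, hc',
        ← spanSingleton_mul_spanSingleton, ← spanSingleton_inv]
      field_simp

end Amb

theorem amb : FrameStmt → AmbStmt := fun hF n _ _ c =>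
  ⟨2 ^ c.m0 ^ (2 * (n + 3)), fun D => ⟨Amb.twist hF D, Amb.count hF D⟩⟩

end Pool.Agent.Lib.MP_9177b7_ag.B
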