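import Mathlib

/-!
Ball quotients attached to the unitary group of signature `(n + 2, 1)` over an imaginary quadratic
field `K`, their CM points, and the orbits given by the reciprocity law.
-/

open NumberField Matrix
open scoped nonZeroDivisors ComplexConjugate

noncomputable section

namespace Pool.Agent.Lib.MP_9177b7_ag.B

variable (n : ℕ)

/-- The Gram matrix of the hermitian form `x₀ ȳ₁ + x₁ ȳ₀ + x₂ ȳ₂ + ⋯ + x_{n+2} ȳ_{n+2}`. -/
def Jm (R : Type) [Zero R] [One R] : Matrix (Fin (n + 3)) (Fin (n + 3)) R :=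
  Matrix.of fun i j => if j = Equiv.swap 0 1 i then 1 else 0

/-- The ring of integers of `K`, inside `ℂ`. -/
def OK (K : IntermediateField ℚ ℂ) : Subring ℂ := K.toSubring ⊓ (integralClosure ℤ ℂ).toSubring

/-- The cone of negative vectors; its lines form the complex ball of dimension `n + 2`. -/
abbrev Cone : Type := {v : Fin (n + 3) → ℂ // (star v ⬝ᵥ Jm n ℂ *ᵥ v).re < 0}

/-- The ball quotient `U(J)(O_K) \ B`, with the quotient topology. -/
abbrev SS (K : IntermediateField ℚ ℂ) : Type :=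
  Quot fun v w : Cone n => ∃ (g : Matrix (Fin (n + 3)) (Fin (n + 3)) ℂ) (c : ℂ),
    gᴴ * Jm n ℂ * g = Jm n ℂ ∧ (∀ i j, g i j ∈ OK K) ∧ w.1 = c • g *ᵥ v.1

/-- The real group `SU(J) = SU(n + 2, 1)`. -/
def SU : Subgroup (SpecialLinearGroup (Fin (n + 3)) ℂ) where
  carrier := {g | g.1ᴴ * Jm n ℂ * g.1 = Jm n ℂ}
  one_mem' := by simp
  mul_mem' {g h} hg hh := by
    change (g.1 * h.1)ᴴ * Jm n ℂ * (g.1 * h.1) = Jm n ℂ
    calc _ = h.1ᴴ * (g.1ᴴ * Jm n ℂ * g.1) * h.1 := by simp only [conjTranspose_mul, mul_assoc]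
      _ = _ := by rw [hg, hh]
  inv_mem' {g} hg := by
    change g⁻¹.1ᴴ * Jm n ℂ * g⁻¹.1 = Jm n ℂ
    have e : g.1 * g⁻¹.1 = 1 := congrArg Subtype.val (mul_inv_cancel g)
    calc _ = g⁻¹.1ᴴ * (g.1ᴴ * Jm n ℂ * g.1) * g⁻¹.1 := by rw [hg]
      _ = (g.1 * g⁻¹.1)ᴴ * Jm n ℂ * (g.1 * g⁻¹.1) := by simp only [conjTranspose_mul, mul_assoc]
      _ = _ := by rw [e, conjTranspose_one, one_mul, mul_one]

/-- The arithmetic group `SU(J)(O_K)`. -/
def G1 (K : IntermediateField ℚ ℂ) : Subgroup (SU n) :=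
  (SpecialLinearGroup.map (OK K).subtype).range.subgroupOf (SU n)

/-- The homogeneous space `SU(J) / SU(J)(O_K)`. -/
abbrev YY (K : IntermediateField ℚ ℂ) : Type := SU n ⧸ G1 n K

/-- The base vector `e₀ - e₁`. -/
def v0 : Fin (n + 3) → ℂ := Pi.single 0 1 - Pi.single 1 1

theorem neg_smul_v0 (g : SU n) :
    (star (g.1.1 *ᵥ v0 n) ⬝ᵥ Jm n ℂ *ᵥ (g.1.1 *ᵥ v0 n)).re < 0 := by
  have h : g.1.1ᴴ * Jm n ℂ * g.1.1 = Jm n ℂ := g.2
  rw [star_mulVec, mulVec_mulVec, ← dotProduct_mulVec, mulVec_mulVec, ← mul_assoc, h]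
  have e : Jm n ℂ *ᵥ v0 n = -v0 n := by
    funext i
    simp only [Jm, v0, mulVec, dotProduct, of_apply, ite_mul, one_mul, zero_mul,
      Finset.sum_ite_eq', Finset.mem_univ, if_true, Pi.neg_apply, Pi.sub_apply, Pi.single_apply,
      Equiv.swap_apply_eq_iff, Equiv.swap_apply_left, Equiv.swap_apply_right]
    ring
  rw [e]
  simp [v0]

/-- The projection `g Γ ↦ [g⁻¹ v₀]` onto the ball quotient. -/
def proj (K : IntermediateField ℚ ℂ) (y : YY n K) : SS n K :=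
  Quot.mk _ ⟨y.out⁻¹.1.1 *ᵥ v0 n, neg_smul_v0 n _⟩

variable (K : IntermediateField ℚ ℂ) {L : Type} [Field L] [NumberField L] [IsCMField L]
  [Algebra K L]

/-- `e` is an `O_K`-basis of the fractional ideal `a` of `L` in which the hermitian form
`Tr_{L/K}(λ x ȳ)` has Gram matrix `J`. -/
def Frame (lam : L) (a : FractionalIdeal (𝓞 L)⁰ L) (e : Fin (n + 3) → L) : Prop :=
  (∀ i j, Algebra.trace K L (lam * e i * IsCMField.complexConj L (e j)) = Jm n K i j) ∧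
    ∀ x, x ∈ a ↔ ∃ c : Fin (n + 3) → 𝓞 K, x = ∑ i, algebraMap K L (c i) * e i

/-- A CM datum: `[L : K] = n + 3` with Galois group the full symmetric group, `p` splits completely
in `L`, the form `Tr(λ x ȳ)` is negative at `φ`, and `(a, Tr(λ x ȳ))` is isometric to `(O_K ^ N, J)`. -/
structure Special (p : ℕ) [Fact p.Prime] (φ : L →ₐ[K] ℂ) (lam : L)
    (a : FractionalIdeal (𝓞 L)⁰ L) : Prop where
  dim : Module.finrank K L = n + 3
  gal : ∀ π : Equiv.Perm (L →ₐ[K] ℂ), ∃ σ : ℂ ≃ₐ[K] ℂ, ∀ ψ x, π ψ x = σ (ψ x)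
  split : Nat.card (L →+* ℚ_[p]) = 2 * (n + 3)
  real : IsCMField.complexConj L lam = lam
  neg : (φ lam).re < 0
  frame : ∃ e, Frame n K lam a e

/-- The orbit given by the reciprocity law: the fixed points of the torus `U(1)_{L / L⁺}` in the
frames of the lattices `b b̄⁻¹ a`, for `b` a nonzero ideal of `O_L`. -/
def orbit (φ : L →ₐ[K] ℂ) (lam : L) (a : FractionalIdeal (𝓞 L)⁰ L) : Set (SS n K) :=
  {x | ∃ (b : Ideal (𝓞 L)) (e : Fin (n + 3) → L) (v : Cone n), b ≠ ⊥ ∧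
    Frame n K lam (b * ((b.map (IsCMField.ringOfIntegersComplexConj L) : Ideal (𝓞 L)) :
      FractionalIdeal (𝓞 L)⁰ L)⁻¹ * a) e ∧
    (∀ i, v.1 i = conj (φ (e (Equiv.swap 0 1 i)))) ∧ x = Quot.mk _ v}

/-- The mean of a function over a finite set. -/
def mean {X : Type} (O : Set X) (f : X → ℝ) : ℝ := (∑ᶠ x ∈ O, f x) / O.ncard

end Pool.Agent.Lib.MP_9177b7_ag.B
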