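import Pool.Agent.Lib.MP_9177b7_ag.B.St

/-!
Discreteness of the arithmetic groups and their integral points.
-/

open NumberField Matrix Topology
open scoped ComplexConjugate

noncomputable section

namespace Pool.Agent.Lib.MP_9177b7_ag.B

namespace Disc

/-- The range of the change of rings on special linear groups. -/
theorem mem_range {N R S : Type} [Fintype N] [DecidableEq N] [CommRing R] [CommRing S]
    (f : R →+* S) (hf : Function.Injective f) (g : SpecialLinearGroup N S)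
    (γ : Matrix N N R) (h : g.1 = γ.map f) :
    ∃ s : SpecialLinearGroup N R, s.1 = γ ∧ SpecialLinearGroup.map f s = g := by
  refine ⟨⟨γ, hf ?_⟩, rfl, Subtype.ext h.symm⟩
  rw [RingHom.map_det, map_one, RingHom.mapMatrix_apply, ← h, g.2]

variable {n p : ℕ} [Fact p.Prime]

theorem intg_iff (h : HP n p) :
    Intg h ↔ h ∈ (SpecialLinearGroup.map (PadicInt.Coe.ringHom (p := p))).range := by
  constructor
  · intro hh
    obtain ⟨s, -, e⟩ := mem_range (PadicInt.Coe.ringHom (p := p)) Subtype.val_injective h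
      (Matrix.of fun i j => ⟨h i j, hh i j⟩) rfl
    exact ⟨s, e⟩
  · rintro ⟨s, rfl⟩ i j
    exact (s i j).2

theorem Intg.one : Intg (1 : HP n p) := (intg_iff _).2 (one_mem _)

theorem Intg.mul {h h' : HP n p} (a : Intg h) (b : Intg h') : Intg (h * h') :=
  (intg_iff _).2 (mul_mem ((intg_iff _).1 a) ((intg_iff _).1 b))

theorem Intg.inv {h : HP n p} (a : Intg h) : Intg h⁻¹ :=
  (intg_iff _).2 (inv_mem ((intg_iff _).1 a))

theorem isOpen_intg : IsOpen {h : HP n p | Intg h} := by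
  have e : {h : HP n p | Intg h} =
      ⋂ i, ⋂ j, (fun h : HP n p => h.1 i j) ⁻¹' Metric.closedBall 0 1 := by
    ext h
    simp only [Set.mem_iInter, Set.mem_preimage, mem_closedBall_zero_iff]
    rfl
  rw [e]
  exact isOpen_iInter_of_finite fun i => isOpen_iInter_of_finite fun j =>
    (IsUltrametricDist.isOpen_closedBall 0 one_ne_zero).preimage
      (continuous_subtype_val.matrix_elem i j)

theorem isCompact_intg : IsCompact {h : HP n p | Intg h} := by
  have h1 : IsClosed {A : Matrix (Fin (n + 3)) (Fin (n + 3)) ℚ_[p] | A.det = 1} :=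
    isClosed_eq continuous_id.matrix_det continuous_const
  have h2 : IsCompact (Set.univ.pi fun _ : Fin (n + 3) =>
      Set.univ.pi fun _ : Fin (n + 3) => Metric.closedBall (0 : ℚ_[p]) 1) :=
    isCompact_univ_pi fun _ => isCompact_univ_pi fun _ => isCompact_closedBall 0 1
  have h3 : IsClosedEmbedding fun h : HP n p => h.1 := h1.isClosedEmbedding_subtypeVal
  refine (h3.isCompact_preimage h2).of_isClosed_subset ?_ fun h hh i _ j _ =>
    mem_closedBall_zero_iff.2 (hh i j)
  rw [show {h : HP n p | Intg h} = ⋂ i, ⋂ j, {h : HP n p | ‖h.1 i j‖ ≤ 1} by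
    ext h
    simp only [Set.mem_iInter]
    rfl]
  exact isClosed_iInter fun i => isClosed_iInter fun j =>
    isClosed_le (continuous_subtype_val.matrix_elem i j).norm continuous_const

theorem Jm_mul {R : Type} [CommRing R] (M : Matrix (Fin (n + 3)) (Fin (n + 3)) R) (i k) :
    (Jm n R * M) i k = M (Equiv.swap 0 1 i) k := by
  simp [Jm, mul_apply]

theorem mul_Jm {R : Type} [CommRing R] (M : Matrix (Fin (n + 3)) (Fin (n + 3)) R) (i k) :
    (M * Jm n R) i (Equiv.swap 0 1 k) = M i k := by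
  simp [Jm, mul_apply]

theorem Jm_map {R S : Type} [CommRing R] [CommRing S] (f : R →+* S) :
    (Jm n R).map f = Jm n S := by
  ext i j
  simp only [Jm, map_apply, of_apply]
  split_ifs <;> simp

variable (c : Ctx p)

theorem cj_ne {S : Type} [Field S] [CharZero S] (f : c.K →+* S) :
    Function.Injective ![f, f.comp c.cj.toRingHom] := by
  have h : f ≠ f.comp c.cj.toRingHom := fun h => by
    have e : f c.δ = f (c.cj c.δ) := DFunLike.congr_fun h _
    rw [c.δ_cj, map_neg, eq_neg_iff_add_eq_zero, add_self_eq_zero, map_eq_zero] at e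
    exact c.δ_ne (by exact_mod_cast e)
  intro a b e
  fin_cases a <;> fin_cases b
  · rfl
  · exact (h e).elim
  · exact (h e.symm).elim
  · rfl

theorem eq_zero {x : ℂ} (hx : x ∈ OK c.K) (h : ‖x‖ < 1) : x = 0 := by
  by_contra h0
  have hb : Function.Bijective ![algebraMap c.K ℂ, (algebraMap c.K ℂ).comp c.cj.toRingHom] :=
    (Fintype.bijective_iff_injective_and_card _).2
      ⟨cj_ne c _, by rw [Embeddings.card c.K ℂ, c.dim, Fintype.card_fin]⟩
  obtain ⟨m, hm, e⟩ := Embeddings.pow_eq_one_of_norm_le_one c.K ℂ (x := ⟨x, hx.1⟩)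
    (fun e => h0 (congrArg Subtype.val e))
    ((isIntegral_algebraMap_iff (algebraMap c.K ℂ).injective).1 hx.2) fun φ => by
      obtain ⟨a, rfl⟩ := hb.2 φ
      fin_cases a
      · exact h.le
      · show ‖((c.cj ⟨x, hx.1⟩ : c.K) : ℂ)‖ ≤ 1
        rw [c.cj_coe, Complex.norm_conj]
        exact h.le
  have e' : x ^ m = 1 := by simpa using congrArg Subtype.val e
  have := pow_lt_one₀ (norm_nonneg x) h hm.ne'
  rw [← norm_pow, e', norm_one] at this
  exact lt_irrefl _ this

theorem uni_iff (γ : Matrix (Fin (n + 3)) (Fin (n + 3)) c.K) :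
    c.Uni γ ↔ (γ.map (algebraMap c.K ℂ))ᴴ * Jm n ℂ * γ.map (algebraMap c.K ℂ) = Jm n ℂ := by
  have e : (γ.map (algebraMap c.K ℂ))ᴴ = ((γ.map c.cj)ᵀ).map (algebraMap c.K ℂ) := by
    ext i j
    exact (c.cj_coe _).symm
  rw [e, ← Jm_map (algebraMap c.K ℂ), ← Matrix.map_mul, ← Matrix.map_mul]
  exact ((Matrix.map_injective (algebraMap c.K ℂ).injective).eq_iff).symm

theorem mem_Gp (g : GG n p) : g ∈ c.Gp n ↔ ∃ γ : Matrix (Fin (n + 3)) (Fin (n + 3)) c.K,
    (∀ i j, γ i j ∈ c.RK) ∧ g.1.1 = γ.map c.j ∧ g.2.1.1 = γ.map (algebraMap c.K ℂ) := by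
  constructor
  · rintro ⟨s, e⟩
    exact ⟨s.1.map c.RK.subtype, fun i j => (s.1 i j).2,
      (congrArg (fun x => x.1.1) e).symm, (congrArg (fun x => x.2.1) e).symm⟩
  · rintro ⟨γ, h, e1, e2⟩
    obtain ⟨s, e, e3⟩ := mem_range (c.j.comp c.RK.subtype)
      (c.j.injective.comp Subtype.val_injective) g.1 (Matrix.of fun i j => ⟨γ i j, h i j⟩) e1
    refine ⟨s, Prod.ext e3 (Subtype.ext ?_)⟩
    show s.1.map _ = g.2.1.1
    rw [e, e2]
    rfl

theorem mem_G1 (K : IntermediateField ℚ ℂ) (g : SU n) : g ∈ G1 n K ↔ ∀ i j, g.1 i j ∈ OK K := by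
  constructor
  · rintro ⟨s, e⟩ i j
    rw [show g.1 = _ from e.symm]
    exact (s i j).2
  · intro h
    obtain ⟨s, -, e⟩ := mem_range (OK K).subtype Subtype.val_injective g.1
      (Matrix.of fun i j => ⟨g.1 i j, h i j⟩) rfl
    exact ⟨s, e⟩

theorem isOpen_near : IsOpen {g : SU n | ∀ i j, ‖g.1 i j - (1 : SU n).1 i j‖ < 1} := by
  rw [Set.ofPred_forall]
  refine isOpen_iInter_of_finite fun i => ?_
  rw [Set.ofPred_forall]
  refine isOpen_iInter_of_finite fun j => isOpen_lt ?_ continuous_const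
  have h : Continuous fun g : SU n => g.1.1 := continuous_subtype_val.comp continuous_subtype_val
  exact ((h.matrix_elem i j).sub continuous_const).norm

theorem eq_one {g : SU n} (hg : g ∈ G1 n c.K) (h : ∀ i j, ‖g.1 i j - (1 : SU n).1 i j‖ < 1) :
    g = 1 := by
  refine Subtype.ext (Subtype.ext (Matrix.ext fun i j => sub_eq_zero.1 (eq_zero c ?_ (h i j))))
  exact sub_mem ((mem_G1 _ _).1 hg i j) ((mem_G1 _ _).1 (one_mem _) i j)

end Disc

open Disc in
theorem disc (hP : PadStmt) : DiscStmt := by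
  intro n p _ c
  obtain ⟨p1, p2⟩ := hP c.K p
  have d1 : ∀ x ∈ c.RK, ‖c.j x‖ ≤ 1 → ‖c.j (c.cj x)‖ ≤ 1 → IsIntegral ℤ x := by
    rintro x ⟨k, hk⟩ h1 h2
    refine ((p2 (Fin 2) _ (cj_ne c c.j)).2.2 (by rw [c.dim, Fintype.card_fin])).2 x k hk fun i => ?_
    fin_cases i
    · exact h1
    · exact h2
  have d6 : ∀ g ∈ c.Gp n, Intg g.1 → g.2 ∈ G1 n c.K := by
    intro g hg hi
    obtain ⟨γ, h, e1, e2⟩ := (mem_Gp c g).1 hg
    have u : c.Uni γ := (uni_iff c γ).2 (e2 ▸ g.2.2)
    have u1 : ((γ.map c.cj)ᵀ).map c.j * Jm n ℚ_[p] = Jm n ℚ_[p] * g.1⁻¹.1 := by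
      have u2 := congrArg (fun A => A.map c.j * g.1⁻¹.1) u
      have u3 : g.1.1 * g.1⁻¹.1 = 1 := congrArg Subtype.val (mul_inv_cancel g.1)
      simp only [Matrix.map_mul, Jm_map] at u2
      rwa [← e1, mul_assoc, u3, mul_one] at u2
    refine (mem_G1 _ _).2 fun i k => ?_
    have e3 : g.2.1 i k = algebraMap c.K ℂ (γ i k) := congrFun (congrFun e2 i) k
    rw [e3]
    refine ⟨(γ i k).2, (d1 _ (h i k) ?_ ?_).algebraMap⟩
    · have := hi i k
      rwa [show g.1 i k = c.j (γ i k) from congrFun (congrFun e1 i) k] at this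
    · have u4 := congrFun (congrFun u1 k) (Equiv.swap 0 1 i)
      rw [mul_Jm, Jm_mul] at u4
      exact (congrArg norm u4).trans_le (Intg.inv hi _ _)
  refine ⟨d1, ?_, mem_Gp c, fun γ h u e => ?_, mem_G1 _, d6, fun g hg => ?_, ?_, ?_⟩
  · rintro x ⟨k, hk⟩
    refine ⟨k, ?_⟩
    have := hk.map c.cj.toRingHom.toIntAlgHom
    simpa using this
  · have e1 : (γ.map c.j).det = 1 := by
      rw [← RingHom.mapMatrix_apply, ← RingHom.map_det, e, map_one]
    have e2 : (γ.map (algebraMap c.K ℂ)).det = 1 := by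
      rw [← RingHom.mapMatrix_apply, ← RingHom.map_det, e, map_one]
    exact ⟨(⟨_, e1⟩, ⟨⟨_, e2⟩, (uni_iff c γ).1 u⟩), (mem_Gp c _).2 ⟨γ, h, rfl, rfl⟩, rfl, rfl⟩
  · have h := (mem_G1 _ _).1 hg
    obtain ⟨s, e, -⟩ := mem_range (algebraMap c.K ℂ) (algebraMap c.K ℂ).injective g.1
      (Matrix.of fun i j => ⟨g.1 i j, (h i j).1⟩) rfl
    have hi : ∀ i j, IsIntegral ℤ (s.1 i j) := fun i j => by
      rw [e]
      exact (isIntegral_algebraMap_iff (algebraMap c.K ℂ).injective).1 (h i j).2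
    refine ⟨SpecialLinearGroup.map c.j s, fun i j => (p1 c.j).1 ⟨_, hi i j⟩,
      (mem_Gp c _).2 ⟨s.1, fun i j => ⟨0, by simpa using hi i j⟩, rfl, ?_⟩⟩
    rw [e]
    rfl
  · refine discreteTopology_of_isOpen_singleton_one ?_
    convert (isOpen_intg.prod isOpen_near).preimage
      (continuous_subtype_val (p := fun g => g ∈ c.Gp n)) using 1
    ext g
    constructor
    · rintro rfl
      exact ⟨Intg.one, fun i j => by simp⟩
    · rintro ⟨h1, h2⟩
      have e := eq_one c (d6 _ g.2 h1) h2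
      obtain ⟨γ, -, e1, e2⟩ := (mem_Gp c g.1).1 g.2
      have e3 : γ = 1 := by
        refine Matrix.map_injective (algebraMap c.K ℂ).injective ?_
        show γ.map _ = Matrix.map 1 _
        rw [← e2, e, Matrix.map_one _ (map_zero _) (map_one _)]
        rfl
      refine Subtype.ext (Prod.ext (Subtype.ext ?_) e)
      rw [e1, e3, Matrix.map_one _ (map_zero _) (map_one _)]
      rfl
  · refine discreteTopology_of_isOpen_singleton_one ?_
    convert isOpen_near.preimage (continuous_subtype_val (p := fun g => g ∈ G1 n c.K)) using 1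
    ext g
    constructor
    · rintro rfl
      exact fun i j => by simp
    · exact fun h => Subtype.ext (eq_one c g.2 h)

end Pool.Agent.Lib.MP_9177b7_ag.B
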