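import Pool.Agent.Lib.MP_9177b7_ag.B.St

/-!
The involution `Pm`, integral matrices and the compact torus.
-/

open NumberField Matrix Topology
open scoped ComplexConjugate

noncomputable section

namespace Pool.Agent.Lib.MP_9177b7_ag.B.Lift

variable {n p : ℕ} [Fact p.Prime]

/-- The signs. -/
def sg (n : ℕ) (i : Fin (n + 3)) : ℂ := if i = 1 then -1 else 1

theorem rt : ((√2 : ℝ) : ℂ)⁻¹ * ((√2 : ℝ) : ℂ)⁻¹ = 2⁻¹ := by
  rw [← mul_inv, ← Complex.ofReal_mul, Real.mul_self_sqrt (by norm_num)]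
  norm_num

theorem fin_cases (i : Fin (n + 3)) : i = 0 ∨ i = 1 ∨ (i ≠ 0 ∧ i ≠ 1) := by tauto

theorem sum_split (f : Fin (n + 3) → ℂ) (h : ∀ k, k ≠ 0 → k ≠ 1 → f k = 0) :
    ∑ k, f k = f 0 + f 1 :=
  Fintype.sum_eq_add 0 1 (by simp) fun k hk => h k hk.1 hk.2

theorem Pm_mul (A : Matrix (Fin (n + 3)) (Fin (n + 3)) ℂ) (i j : Fin (n + 3)) :
    (Pm n * A) i j = if i = 0 then ((√2 : ℝ) : ℂ)⁻¹ * (A 0 j + A 1 j) else
      if i = 1 then ((√2 : ℝ) : ℂ)⁻¹ * (A 0 j - A 1 j) else A i j := by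
  rw [mul_apply]
  rcases fin_cases i with rfl | rfl | ⟨h0, h1⟩
  · rw [sum_split _ fun k k0 k1 => by simp [Pm, k0, k1]]
    simp [Pm, mul_add]
  · rw [sum_split _ fun k k0 k1 => by simp [Pm, k0, k1]]
    simp [Pm, sub_eq_add_neg, mul_add]
  · simp [Pm, h0, h1]

theorem Pm_sq : Pm n * Pm n = 1 := by
  ext i j
  have := rt
  rw [Pm_mul]
  rcases fin_cases i with rfl | rfl | ⟨h0, h1⟩ <;> rcases fin_cases j with rfl | rfl | ⟨k0, k1⟩ <;>
    simp [Pm, one_apply, *, eq_comm] <;> linear_combination (-2) * this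

theorem Pm_H : (Pm n)ᴴ = Pm n := by
  ext i j
  rcases fin_cases i with rfl | rfl | ⟨h0, h1⟩ <;> rcases fin_cases j with rfl | rfl | ⟨k0, k1⟩ <;>
    simp [Pm, *, eq_comm]

theorem Pm_sg : Pm n * Jm n ℂ = diagonal (sg n) * Pm n := by
  ext i j
  rw [Pm_mul, diagonal_mul]
  rcases fin_cases i with rfl | rfl | ⟨h0, h1⟩ <;> rcases fin_cases j with rfl | rfl | ⟨k0, k1⟩ <;>
    simp [Pm, Jm, sg, Equiv.swap_apply_def, *, eq_comm]

theorem Pm_J : Pm n * Jm n ℂ * Pm n = diagonal (sg n) := by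
  rw [Pm_sg, mul_assoc, Pm_sq, mul_one]

theorem Pm_one : Pm n *ᵥ Pi.single 1 1 = ((√2 : ℝ) : ℂ)⁻¹ • v0 n := by
  funext i
  rcases fin_cases i with rfl | rfl | ⟨h0, h1⟩ <;> simp [Pm, v0, *]

theorem Pm_norm (w : Fin (n + 3) → ℂ) : ∑ i, ‖(Pm n *ᵥ w) i‖ ^ 2 = ∑ i, ‖w i‖ ^ 2 := by
  have h : ∀ x : Fin (n + 3) → ℂ, ((∑ i, ‖x i‖ ^ 2 : ℝ) : ℂ) = star x ⬝ᵥ x := fun x => by
    simp [dotProduct, Complex.conj_mul']
  apply Complex.ofReal_injective
  rw [h, h, star_mulVec, ← dotProduct_mulVec, mulVec_mulVec, Pm_H, Pm_sq, one_mulVec]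

theorem Jm_mulVec {R : Type} [CommRing R] (w : Fin (n + 3) → R) :
    Jm n R *ᵥ w = fun i => w (Equiv.swap 0 1 i) := by
  funext i
  simp [Jm, mulVec, dotProduct]

theorem Jm_sq {R : Type} [CommRing R] : Jm n R * Jm n R = 1 := by
  ext i j
  rw [mul_apply, Finset.sum_eq_single (Equiv.swap 0 1 i) (fun k _ hk => by simp [Jm, hk])
    (by simp)]
  simp [Jm, one_apply, eq_comm]

/-- The form in the diagonal coordinates. -/
theorem form (d : Fin (n + 3) → ℂ) (A : Matrix (Fin (n + 3)) (Fin (n + 3)) ℂ) :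
    (Pm n * diagonal d * A)ᴴ * Jm n ℂ * (Pm n * diagonal d * A) =
      Aᴴ * diagonal (fun i => (‖d i‖ ^ 2 : ℝ) * sg n i) * A := by
  have e : diagonal (fun i => ((‖d i‖ ^ 2 : ℝ) : ℂ) * sg n i) =
      (diagonal d)ᴴ * diagonal (sg n) * diagonal d := by
    rw [diagonal_conjTranspose, diagonal_mul_diagonal, diagonal_mul_diagonal]
    congr 1
    funext i
    rw [Complex.ofReal_pow, ← Complex.conj_mul']
    simp only [Pi.star_apply, RCLike.star_def]
    ring
  rw [e, ← Pm_J]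
  simp only [conjTranspose_mul, Pm_H, mul_assoc]

/-! Integral matrices. -/

theorem det_le {A : Matrix (Fin (n + 3)) (Fin (n + 3)) ℚ_[p]} (h : ∀ i j, ‖A i j‖ ≤ 1) :
    ‖A.det‖ ≤ 1 := by
  rw [← PadicInt.mem_subring_iff, det_apply']
  exact sum_mem fun σ _ => mul_mem (intCast_mem _ _) (prod_mem fun i _ => h _ _)

theorem mulVec_le {A : Matrix (Fin (n + 3)) (Fin (n + 3)) ℚ_[p]} {w : Fin (n + 3) → ℚ_[p]}
    (h : ∀ i j, ‖A i j‖ ≤ 1) (hw : ∀ i, ‖w i‖ ≤ 1) (i : Fin (n + 3)) : ‖(A *ᵥ w) i‖ ≤ 1 :=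
  (PadicInt.mem_subring_iff p (x := ∑ k, A i k * w k)).1
    (sum_mem fun k _ => mul_mem (h i k) (hw k))

theorem intg_inv {g : HP n p} (h : Intg g) : Intg g⁻¹ := fun i j => by
  change ‖adjugate g.1 i j‖ ≤ 1
  rw [adjugate_apply]
  refine det_le fun k l => ?_
  rw [updateRow_apply]
  split_ifs
  · rw [Pi.single_apply]
    split_ifs <;> simp
  · exact h k l

theorem row_one {g : HP n p} (h : Intg g) (i : Fin (n + 3)) : ∃ k, ‖g i k‖ = 1 := by
  have e : ∑ k, g i k * g⁻¹ k i = 1 := by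
    have : g.1 * g⁻¹.1 = 1 := congrArg Subtype.val (mul_inv_cancel g)
    exact (congrFun (congrFun this i) i).trans (one_apply_eq i)
  obtain ⟨k, -, hk⟩ := IsUltrametricDist.exists_norm_finsetSum_le_of_nonempty
    Finset.univ_nonempty fun k => g i k * g⁻¹ k i
  rw [e, norm_one, norm_mul] at hk
  exact ⟨k, (h i k).antisymm
    (hk.trans (mul_le_of_le_one_right (norm_nonneg _) (intg_inv h k i)))⟩

/-! The torus. -/

theorem mem_M0 {m : GG n p} {s : Fin (n + 3) → ℚ_[p]} {d : Fin (n + 3) → ℂ}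
    (h1 : m.1.1 = diagonal s) (hs : ∀ i, ‖s i‖ ≤ 1) (h2 : m.2.1.1 = Pm n * diagonal d * Pm n) :
    m ∈ M0 n p := by
  refine ⟨fun i j => ?_, fun i j h => ?_, fun i j h => ?_⟩
  · rw [h1, diagonal_apply]
    split_ifs
    · exact hs i
    · simp
  · rw [h1, diagonal_apply_ne _ h]
  · rw [h2, ← mul_assoc, ← mul_assoc, Pm_sq, one_mul, mul_assoc, Pm_sq, mul_one,
      diagonal_apply_ne _ h]

theorem M0_rep {m : GG n p} (h : m ∈ M0 n p) :
    ∃ (s : Fin (n + 3) → ℚ_[p]) (d : Fin (n + 3) → ℂ), m.1.1 = diagonal s ∧ (∀ i, ‖s i‖ = 1) ∧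
      m.2.1.1 = Pm n * diagonal d * Pm n ∧ ∀ i, ‖d i‖ = 1 := by
  have h2 : m.2.1.1 = Pm n * diagonal (diag (Pm n * m.2.1.1 * Pm n)) * Pm n := by
    rw [IsDiag.diagonal_diag h.2.2, ← mul_assoc, ← mul_assoc, Pm_sq, one_mul, mul_assoc, Pm_sq,
      mul_one]
  refine ⟨diag m.1.1, _, (IsDiag.diagonal_diag h.2.1).symm, fun i => ?_, h2, fun i => ?_⟩
  · obtain ⟨k, hk⟩ := row_one h.1 i
    by_cases e : i = k
    · subst e
      exact hk
    · rw [h.2.1 i k e, norm_zero] at hk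
      exact absurd hk zero_ne_one
  · have u : m.2.1.1ᴴ * Jm n ℂ * m.2.1.1 = Jm n ℂ := m.2.2
    rw [h2, form, Pm_H] at u
    have u2 := congrArg (fun A => Pm n * A * Pm n) u
    simp only [Pm_J] at u2
    rw [← mul_assoc, ← mul_assoc, Pm_sq, one_mul, mul_assoc, Pm_sq, mul_one] at u2
    have u3 := congrFun (diagonal_injective u2) i
    have s0 : sg n i ≠ 0 := by unfold sg; split_ifs <;> simp
    rw [mul_eq_right₀ s0, Complex.ofReal_eq_one] at u3
    exact (pow_eq_one_iff_of_nonneg (norm_nonneg _) two_ne_zero).1 u3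

theorem compact_M0 : IsCompact (M0 n p) := by
  have hE : IsClosedEmbedding fun g : GG n p => (g.1.1, g.2.1.1) :=
    SpecialLinearGroup.isClosedEmbedding_val.prodMap
      (SpecialLinearGroup.isClosedEmbedding_val.comp (suClosed n).isClosedEmbedding_subtypeVal)
  have k1 : IsCompact ((fun s : Fin (n + 3) → ℚ_[p] => diagonal s) '' Metric.closedBall 0 1) :=
    (isCompact_closedBall _ _).image continuous_id.matrix_diagonal
  have k2 : IsCompact ((fun d : Fin (n + 3) → ℂ => Pm n * diagonal d * Pm n) ''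
      Metric.closedBall 0 1) :=
    (isCompact_closedBall _ _).image
      ((continuous_const.matrix_mul continuous_id.matrix_diagonal).matrix_mul continuous_const)
  convert hE.isCompact_preimage (k1.prod k2) using 1
  ext m
  simp only [Set.mem_preimage, Set.mem_prod, Set.mem_image, mem_closedBall_zero_iff,
    pi_norm_le_iff_of_nonneg zero_le_one]
  constructor
  · intro h
    obtain ⟨s, d, h1, hs, h2, hd⟩ := M0_rep h
    exact ⟨⟨s, fun i => (hs i).le, h1.symm⟩, d, fun i => (hd i).le, h2.symm⟩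
  · rintro ⟨⟨s, hs, h1⟩, d, -, h2⟩
    exact mem_M0 h1.symm hs h2.symm

/-- The torus as a subgroup. -/
def MM (n p : ℕ) [Fact p.Prime] : Subgroup (GG n p) where
  carrier := M0 n p
  one_mem' := mem_M0 (s := 1) (d := 1) diagonal_one.symm (fun i => by simp)
    (by rw [show diagonal (1 : Fin (n + 3) → ℂ) = 1 from diagonal_one, mul_one, Pm_sq]; rfl)
  mul_mem' {a b} ha hb := by
    obtain ⟨s, d, h1, hs, h2, -⟩ := M0_rep ha
    obtain ⟨s', d', h1', hs', h2', -⟩ := M0_rep hb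
    refine mem_M0 (s := fun i => s i * s' i) (d := fun i => d i * d' i) ?_ (fun i => ?_) ?_
    · change a.1.1 * b.1.1 = _
      rw [h1, h1', diagonal_mul_diagonal]
    · rw [norm_mul, hs, hs', one_mul]
    · change a.2.1.1 * b.2.1.1 = _
      rw [h2, h2', ← diagonal_mul_diagonal]
      simp only [mul_assoc]
      rw [← mul_assoc (Pm n) (Pm n), Pm_sq, one_mul]
  inv_mem' {a} ha := by
    obtain ⟨s, d, h1, hs, h2, hd⟩ := M0_rep ha
    refine mem_M0 (s := fun i => (s i)⁻¹) (d := fun i => (d i)⁻¹) ?_ (fun i => ?_) ?_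
    · refine left_inv_eq_right_inv (a := a.1.1) (congrArg Subtype.val (inv_mul_cancel a.1)) ?_
      rw [h1, diagonal_mul_diagonal, ← diagonal_one]
      congr 1
      funext i
      exact mul_inv_cancel₀ (norm_pos_iff.1 (by rw [hs]; exact one_pos))
    · rw [norm_inv, hs, inv_one]
    · refine left_inv_eq_right_inv (a := a.2.1.1)
        (congrArg (fun x : SU n => x.1.1) (inv_mul_cancel a.2)) ?_
      have e : diagonal d * diagonal (fun i => (d i)⁻¹) = 1 := by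
        rw [diagonal_mul_diagonal, ← diagonal_one]
        congr 1
        funext i
        exact mul_inv_cancel₀ (norm_pos_iff.1 (by rw [hd]; exact one_pos))
      rw [h2]
      simp only [mul_assoc]
      rw [← mul_assoc (Pm n) (Pm n), Pm_sq, one_mul, ← mul_assoc (diagonal d), e, one_mul, Pm_sq]

theorem torus : ∃ M : Subgroup (GG n p), (M : Set (GG n p)) = M0 n p ∧ IsCompact (M0 n p) ∧
    ∀ m ∈ M0 n p, ∀ k hk, m * (dgp p k hk, 1) = (dgp p k hk, 1) * m := by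
  refine ⟨MM n p, rfl, compact_M0, fun m hm k hk => ?_⟩
  obtain ⟨s, -, h1, -⟩ := M0_rep hm
  refine Prod.ext (Subtype.ext ?_) ((mul_one _).trans (one_mul _).symm)
  change m.1.1 * diagonal _ = diagonal _ * m.1.1
  rw [h1, diagonal_mul_diagonal, diagonal_mul_diagonal]
  simp only [mul_comm]

end Pool.Agent.Lib.MP_9177b7_ag.B.Lift
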