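import Pool.Agent.Lib.MP_9177b7_ag.B.St
import Pool.Agent.Lib.MP_9177b7_ag.J.Uniq
import Pool.Agent.Lib.MP_9177b7_ag.J.Pol

/-!
Assembly: tightness, small tubes for every limit, measure classification, uniqueness.
-/

open NumberField MeasureTheory Filter Topology Set
open scoped ENNReal BoundedContinuousFunction

noncomputable section

namespace Pool.Agent.Lib.MP_9177b7_ag.B

namespace Main

theorem lim_of_unique {X : Type} [TopologicalSpace X] [PolishSpace X] [MeasurableSpace X]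
    [BorelSpace X] (ν : ℕ → ProbabilityMeasure X) (P : ProbabilityMeasure X → Prop)
    (ht : ∀ ε : ℝ, 0 < ε → ∃ Q, IsCompact Q ∧
      ∀ᶠ m in atTop, (ν m : Measure X) Qᶜ ≤ ENNReal.ofReal ε)
    (hP : ∀ (ms : ℕ → ℕ) (μ : ProbabilityMeasure X), Tendsto ms atTop atTop →
      Tendsto (fun m => ν (ms m)) atTop (𝓝 μ) → P μ)
    (hu : ∀ μ μ', P μ → P μ' → μ = μ') : ∃ μ, P μ ∧ Tendsto ν atTop (𝓝 μ) := by
  have hT : IsTightMeasureSet {((ρ : ProbabilityMeasure X) : Measure X) | ρ ∈ range ν} := by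
    rw [isTightMeasureSet_iff_exists_isCompact_measure_compl_le]
    intro ε hε
    obtain ⟨e, -, he0, he⟩ := ENNReal.lt_iff_exists_real_btwn.1 hε
    obtain ⟨Q, hQ, h⟩ := ht e (ENNReal.ofReal_pos.1 he0)
    obtain ⟨m₀, hm₀⟩ := eventually_atTop.1 h
    have h1 : ∀ m, ∃ K, IsCompact K ∧ (ν m : Measure X) Kᶜ ≤ ε := fun m => by
      obtain ⟨K, hK, h⟩ := isTightMeasureSet_iff_exists_isCompact_measure_compl_le.1
        (isTightMeasureSet_singleton (μ := (ν m : Measure X))) ε hε
      exact ⟨K, hK, h _ rfl⟩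
    choose K hK hK' using h1
    refine ⟨Q ∪ ⋃ m ∈ Finset.range m₀, K m,
      hQ.union ((Finset.range m₀).isCompact_biUnion fun m _ => hK m), ?_⟩
    rintro _ ⟨_, ⟨m, rfl⟩, rfl⟩
    rcases lt_or_ge m m₀ with hm | hm
    · refine (measure_mono (compl_subset_compl.2 ?_)).trans (hK' m)
      exact (subset_biUnion_of_mem (u := K) (Finset.mem_coe.2 (Finset.mem_range.2 hm))).trans
        subset_union_right
    · exact ((measure_mono (compl_subset_compl.2 subset_union_left)).trans (hm₀ m hm)).trans he.le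
  have hK : IsCompact (closure (range ν)) := isCompact_closure_of_isTightMeasureSet hT
  have sub : ∀ ns : ℕ → ℕ, ∃ (μ : ProbabilityMeasure X) (ms : ℕ → ℕ), StrictMono ms ∧
      Tendsto (fun m => ν (ns (ms m))) atTop (𝓝 μ) := fun ns => by
    obtain ⟨μ, -, ms, h1, h2⟩ := hK.tendsto_subseq (x := fun m => ν (ns m))
      fun m => subset_closure (mem_range_self _)
    exact ⟨μ, ms, h1, h2⟩
  obtain ⟨μ, ms, h1, h2⟩ := sub id
  have hμ := hP ms μ h1.tendsto_atTop h2
  refine ⟨μ, hμ, tendsto_of_subseq_tendsto fun ns hns => ?_⟩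
  obtain ⟨μ', ms', h1', h2'⟩ := sub ns
  exact ⟨ms', hu _ _ (hP _ μ' (hns.comp h1'.tendsto_atTop) h2') hμ ▸ h2'⟩

theorem lim_inv {X : Type} [TopologicalSpace X] [PolishSpace X] [MeasurableSpace X]
    [BorelSpace X] {ν : ℕ → ProbabilityMeasure X} {μ : ProbabilityMeasure X}
    (h : Tendsto ν atTop (𝓝 μ)) {f : X → X} (hf : Continuous f)
    (e : ∀ m, (ν m : Measure X).map f = ν m) : (μ : Measure X).map f = μ := by
  have h1 := ProbabilityMeasure.tendsto_map_of_tendsto_of_continuous ν μ h hf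
  have h2 : (fun n => (ν n).map hf.measurable.aemeasurable) = ν :=
    funext fun n => Subtype.ext (e n)
  rw [h2] at h1
  exact congrArg (fun x : ProbabilityMeasure X => (x : Measure X)) (tendsto_nhds_unique h1 h)

theorem lim_open {X : Type} [TopologicalSpace X] [PolishSpace X] [MeasurableSpace X]
    [BorelSpace X] {ν : ℕ → ProbabilityMeasure X} {μ : ProbabilityMeasure X}
    (h : Tendsto ν atTop (𝓝 μ)) {W : Set X} (hW : IsOpen W) {b : ℝ≥0∞}
    (e : ∀ᶠ m in atTop, (ν m : Measure X) W ≤ b) : (μ : Measure X) W ≤ b :=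
  (ProbabilityMeasure.le_liminf_measure_open_of_tendsto h hW).trans
    (liminf_le_of_frequently_le e.frequently)

/-- The product with the trivial group. -/
def eU (G : Type) [Group G] [TopologicalSpace G] : G × Unit ≃ₜ* G where
  toFun := Prod.fst
  invFun g := (g, ())
  left_inv _ := rfl
  right_inv _ := rfl
  map_mul' _ _ := rfl
  continuous_toFun := continuous_fst
  continuous_invFun := by fun_prop

theorem sys {n p : ℕ} [Fact p.Prime] {c : Ctx p} (D : Dat n c) : Nonempty D.Sys := by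
  choose b hb e he using fun x : D.Cl => x.2
  exact ⟨⟨b, e, hb, he⟩⟩

theorem WW_mono {n p : ℕ} [Fact p.Prime] (c : Ctx p) (I : Finset (Fin (n + 3))) (c₀ : ℚ_[p])
    (k : ℕ) {R R' : ℝ} (h : R ≤ R') : c.WW I c₀ k R ⊆ c.WW I c₀ k R' :=
  image_mono fun _ ⟨v, h1, h2, h3, h4, h5, h6⟩ => ⟨v, h1, h2, h3, h4, h5.trans_le h, h6⟩

end Main

open Main in
theorem main (hD : DiscStmt) (hR : DensRStmt) (hU : UnimodStmt) (hP : ProjStmt) (hT : TubeStmt)
    (hM : MeasStmt) (hC : CountStmt) (hy : DynStmt) : MainStmt := by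
  intro n p _ c D hlim
  have hp : (1 : ℝ) < p := by exact_mod_cast (Fact.out : p.Prime).one_lt
  have hp0 : (0 : ℝ) < p := by linarith
  obtain ⟨-, -, -, -, -, -, -, d1, d2⟩ := hD n p c
  have : PolishSpace (c.XX n) := J.pol _ _
  have : PolishSpace (YY n c.K) := J.pol _ _
  obtain ⟨⟨π, hπ, hπ1, hπ2⟩, hpr, -⟩ := hP n p c
  obtain ⟨T1, ⟨R, O, hO, T2⟩, T3⟩ := hT n p c
  obtain ⟨U1, U2, U3⟩ := hU n p
  have S : ∀ m, (D m).Sys := fun m => (sys (D m)).some
  choose ν₀ hν₀ hA hfin hmean hW using fun m => hM n p c π hπ hπ1 (D m) (S m)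
  let ν : ℕ → ProbabilityMeasure (c.XX n) := fun m => ⟨ν₀ m, hν₀ m⟩
  have cnt : ∀ R : ℝ, ∃ C : ℝ, 0 < C ∧ ∀ s : ℝ, 0 < s → s ≤ R → ∀ k : ℕ, 2 ≤ k → ∀ᶠ m in atTop,
      ∀ (I : Finset (Fin (n + 3))) (c₀ : ℚ_[p]), I.Nonempty → I ≠ Finset.univ →
        (ν m : Measure (c.XX n)) (c.WW I c₀ k s) ≤
          ENNReal.ofReal (C * s * (p : ℝ) ^ (-(k : ℝ) / 2)) := fun R => by
    obtain ⟨C, hC0, h⟩ := hC n p c R
    refine ⟨C, hC0, fun s hs hsR k hk => ?_⟩
    obtain ⟨D₀, h⟩ := h s hs hsR k hk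
    filter_upwards [hlim.eventually_ge_atTop D₀] with m hm I c₀ h1 h2
    exact (hW m I c₀ k s).trans (ENNReal.ofReal_le_ofReal (h _ hm (S m) I c₀ h1 h2))
  have := U1 Measure.haar
  have := U2 Measure.haar
  have := U3 Measure.haar
  have uq := (J.uniq (GG n p) (HP n p) (SU n) (ContinuousMulEquiv.refl _) (c.Gp n) Measure.haar
    Measure.haar (hR n p c)).2
  have uq' := (J.uniq (SU n) (SU n) Unit (eU _) (G1 n c.K) Measure.haar Measure.haar
    (fun g => subset_closure ⟨g, 1, one_mem _, (mul_one g).symm⟩)).2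
  refine (lim_of_unique ν
    (fun μ => ∀ h : HP n p, (μ : Measure (c.XX n)).map (((h, 1) : GG n p) • ·) = μ) ?_ ?_ ?_).elim
      fun μ ⟨hμ, hlim'⟩ => ?_
  rotate_right
  · have hG := (uq μ μ inferInstance inferInstance hμ hμ).2
    have hπm : Measurable π := hπ.measurable
    have : IsProbabilityMeasure ((μ : Measure (c.XX n)).map π) :=
      Measure.isProbabilityMeasure_map hπm.aemeasurable
    have inv : ∀ g : SU n, ((μ : Measure (c.XX n)).map π).map (g • ·) =
        (μ : Measure (c.XX n)).map π := fun g => by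
      conv_rhs => rw [← hG (1, g)]
      rw [Measure.map_map (continuous_const_smul g).measurable hπm,
        Measure.map_map hπm (continuous_const_smul _).measurable]
      congr 1
      exact funext fun x => (hπ2 g x).symm
    refine ⟨hfin, ?_⟩
    rw [← BorelSpace.measurable_eq (α := YY n c.K)]
    refine ⟨(μ : Measure (c.XX n)).map π, fun lam => ⟨fun ⟨h1, h2⟩ => ?_, ?_⟩, fun f => ?_⟩
    · have : IsProbabilityMeasure lam := ⟨h1⟩
      rw [(uq' _ lam inferInstance inferInstance inv h2).1, h1, one_smul]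
    · rintro rfl
      exact ⟨measure_univ, inv⟩
    · rw [integral_map (f := fun y => f (proj n c.K y)) hπm.aemeasurable
        (f.continuous.comp hpr).aestronglyMeasurable]
      simp only [hmean]
      exact ProbabilityMeasure.tendsto_iff_forall_integral_tendsto.1 hlim'
        (f.compContinuous ⟨fun x => proj n c.K (π x), hpr.comp hπ⟩)
  · intro ε hε
    obtain ⟨C, hC0, h⟩ := cnt 1
    set s : ℝ := min 1 (ε / (C * p)) with hs
    have hs0 : 0 < s := lt_min one_pos (by positivity)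
    obtain ⟨Q, hQ, hQ'⟩ := T3 s hs0
    refine ⟨Q, hQ, ?_⟩
    filter_upwards [h s hs0 (min_le_left _ _) 2 le_rfl] with m hm
    have hne : ({0} : Finset (Fin (n + 3))) ≠ Finset.univ := fun e => by
      have : (1 : Fin (n + 3)) ∈ ({0} : Finset (Fin (n + 3))) := e ▸ Finset.mem_univ _
      simp at this
    calc (ν m : Measure (c.XX n)) Qᶜ
        ≤ (ν m : Measure (c.XX n)) (⋃ c₀ ∈ Finset.range (p ^ 2), c.WW {0} (c₀ : ℚ_[p]) 2 s) :=
          measure_mono fun x hx => by
            obtain ⟨c₀, h1, h2⟩ := (hQ' {0} x).resolve_left hx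
            exact mem_biUnion (Finset.mem_coe.2 h1) h2
      _ ≤ ∑ c₀ ∈ Finset.range (p ^ 2), (ν m : Measure (c.XX n)) (c.WW {0} (c₀ : ℚ_[p]) 2 s) :=
          measure_biUnion_finset_le _ _
      _ ≤ ∑ _c₀ ∈ Finset.range (p ^ 2), ENNReal.ofReal (C * s * (p : ℝ) ^ (-((2 : ℕ) : ℝ) / 2)) :=
          Finset.sum_le_sum fun c₀ _ => hm _ _ (Finset.singleton_nonempty _) hne
      _ ≤ _ := by
          rw [← ENNReal.ofReal_sum_of_nonneg fun _ _ => by positivity]
          refine ENNReal.ofReal_le_ofReal ?_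
          have e : (p : ℝ) ^ (-((2 : ℕ) : ℝ) / 2) = (p : ℝ)⁻¹ := by
            rw [← Real.rpow_neg_one]; norm_num
          have h2 : s * (C * p) ≤ ε := (le_div_iff₀ (by positivity)).1 (min_le_right _ _)
          rw [Finset.sum_const, Finset.card_range, nsmul_eq_mul, e]
          push_cast
          calc _ = s * (C * p) := by field_simp
            _ ≤ _ := h2
  · intro ms μ hms hμ
    obtain ⟨C, hC0, h⟩ := cnt (max R 1)
    have hs0 : 0 < max R 1 := lt_max_of_lt_right one_pos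
    refine @hy n p _ (c.sp n) (μ : Measure (c.XX n)) μ.2 (fun k hk => ?_)
      ⟨O, hO, C * max R 1 + p, 1 / 2, by norm_num, fun I h1 h2 k x => ?_⟩
    · exact lim_inv hμ (continuous_const_smul ((dgp p k hk, 1) : GG n p)) fun m => hA (ms m) k hk
    · rcases lt_or_ge k 2 with hk | hk
      · refine prob_le_one.trans (ENNReal.one_le_ofReal.2 ?_)
        have e : (p : ℝ) ^ (-1 : ℝ) ≤ (p : ℝ) ^ (-(1 / 2 * k) : ℝ) := by
          refine Real.rpow_le_rpow_of_exponent_le hp.le ?_
          have : (k : ℝ) ≤ 2 := by exact_mod_cast hk.le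
          linarith
        rw [Real.rpow_neg_one] at e
        calc (1 : ℝ) = p * (p : ℝ)⁻¹ := by field_simp
          _ ≤ _ := by gcongr; nlinarith [mul_pos hC0 hs0]
      · obtain ⟨c₀, hc₀⟩ := T2 I k x
        refine (measure_mono (hc₀.trans (WW_mono c I c₀ k (le_max_left R 1)))).trans
          ((lim_open hμ (T1 I c₀ k _).1 (hms.eventually
            ((h _ hs0 le_rfl k hk).mono fun m hm => hm I c₀ h1 h2))).trans
            (ENNReal.ofReal_le_ofReal ?_))
        rw [show (-(k : ℝ) / 2) = -(1 / 2 * k) by ring]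
        gcongr
        linarith
  · intro μ μ' h h'
    refine Subtype.ext ?_
    have := (uq μ' μ inferInstance inferInstance h' h).1
    rwa [measure_univ, one_smul] at this

end Pool.Agent.Lib.MP_9177b7_ag.B
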