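import Pool.Agent.Lib.MP_9177b7_ag.B.StS

/-!
Hermite reduction of positive definite forms.
-/

noncomputable section

namespace Pool.Agent.Lib.MP_9177b7_ag.B

open Matrix

namespace Red

variable {d : ℕ}

/-- The value of the form with matrix `A`. -/
def qf (A : Matrix (Fin d) (Fin d) ℝ) (x : Fin d → ℝ) : ℝ := x ⬝ᵥ A *ᵥ x

/-- The matrix of the form after an integral change of coordinates. -/
def cg (A : Matrix (Fin d) (Fin d) ℝ) (P : Matrix (Fin d) (Fin d) ℤ) : Matrix (Fin d) (Fin d) ℝ :=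
  (P.map (Int.cast : ℤ → ℝ))ᵀ * A * P.map (Int.cast : ℤ → ℝ)

theorem qf_eq (A : Matrix (Fin d) (Fin d) ℝ) (x : Fin d → ℝ) :
    qf A x = ∑ i, ∑ j, x i * A i j * x j := by
  simp only [qf, dotProduct, mulVec, Finset.mul_sum, mul_assoc]

theorem cg_diag (A : Matrix (Fin d) (Fin d) ℝ) (P : Matrix (Fin d) (Fin d) ℤ) (j : Fin d) :
    cg A P j j = qf A fun i => (P i j : ℝ) := by
  rw [qf_eq, Finset.sum_comm]
  simp only [cg, mul_apply, transpose_apply, map_apply, Finset.sum_mul]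

theorem cg_mul (A : Matrix (Fin d) (Fin d) ℝ) (P R : Matrix (Fin d) (Fin d) ℤ) :
    cg A (P * R) = cg (cg A P) R := by
  have : (P * R).map (Int.cast : ℤ → ℝ) = P.map Int.cast * R.map Int.cast :=
    Matrix.map_mul (f := Int.castRingHom ℝ)
  simp only [cg, this, transpose_mul, Matrix.mul_assoc]

theorem det_sq {P : Matrix (Fin d) (Fin d) ℤ} (hP : IsUnit P.det) :
    (P.map (Int.cast : ℤ → ℝ)).det * (P.map (Int.cast : ℤ → ℝ)).det = 1 := by
  have h : (P.map (Int.cast : ℤ → ℝ)).det = (P.det : ℝ) :=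
    ((Int.castRingHom ℝ).map_det P).symm
  rw [h]
  rcases Int.isUnit_iff.1 hP with h1 | h1 <;> simp [h1]

theorem cg_det (A : Matrix (Fin d) (Fin d) ℝ) {P : Matrix (Fin d) (Fin d) ℤ} (hP : IsUnit P.det) :
    (cg A P).det = A.det := by
  rw [cg, det_mul, det_mul, det_transpose, mul_right_comm, det_sq hP, one_mul]

theorem cg_pd {A : Matrix (Fin d) (Fin d) ℝ} (hA : A.PosDef) {P : Matrix (Fin d) (Fin d) ℤ}
    (hP : IsUnit P.det) : (cg A P).PosDef := by
  have h : IsUnit (P.map (Int.cast : ℤ → ℝ)) :=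
    (isUnit_iff_isUnit_det _).2 (IsUnit.of_mul_eq_one _ (det_sq hP))
  have := hA.conjTranspose_mul_mul_same (mulVec_injective_of_isUnit h)
  rwa [conjTranspose_eq_transpose_of_trivial] at this

theorem pd_symm {A : Matrix (Fin d) (Fin d) ℝ} (hA : A.PosDef) (i j : Fin d) : A i j = A j i := by
  simpa using hA.1.apply j i

theorem qf_nonneg {A : Matrix (Fin d) (Fin d) ℝ} (hA : A.PosDef) (x : Fin d → ℝ) : 0 ≤ qf A x := by
  simpa [qf] using hA.posSemidef.dotProduct_mulVec_nonneg x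

/-- A positive definite form has finitely many integral points of bounded value. -/
theorem finite_le {A : Matrix (Fin d) (Fin d) ℝ} (hA : A.PosDef) (T : ℝ) :
    {x : Fin d → ℤ | qf A (fun i => (x i : ℝ)) ≤ T}.Finite := by
  have hs : ∀ x y : Fin d → ℝ, y ⬝ᵥ A *ᵥ x = x ⬝ᵥ A *ᵥ y := fun x y => by
    simp only [dotProduct, mulVec, Finset.mul_sum]
    rw [Finset.sum_comm]
    refine Finset.sum_congr rfl fun i _ => Finset.sum_congr rfl fun j _ => ?_
    rw [pd_symm hA j i]
    ring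
  have hy : ∀ i, ∃ y : Fin d → ℝ, A *ᵥ y = Pi.single i 1 := fun i =>
    mulVec_surjective_iff_isUnit.2 hA.isUnit _
  choose y hy using hy
  refine (Set.Finite.pi' fun i => Set.finite_Icc (-⌈T + qf A (y i)⌉) ⌈T + qf A (y i)⌉).subset ?_
  intro x hx i
  have hx' : qf A (fun i => (x i : ℝ)) ≤ T := hx
  set z : Fin d → ℝ := fun i => (x i : ℝ) with hz
  have h0 : z ⬝ᵥ A *ᵥ y i = (x i : ℝ) := by rw [hy i, dotProduct_single, mul_one]
  have h1 := qf_nonneg hA (z - y i)
  have h2 := qf_nonneg hA (z + y i)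
  have h3 := qf_nonneg hA z
  have h4 := qf_nonneg hA (y i)
  simp only [qf, mulVec_sub, mulVec_add, sub_dotProduct, add_dotProduct, dotProduct_sub,
    dotProduct_add, hs z (y i), h0] at h1 h2 h3 h4 hx'
  have h5 := Int.le_ceil (T + qf A (y i))
  simp only [qf] at h5 ⊢
  constructor
  · rw [← Int.cast_le (R := ℝ)]
    push_cast
    linarith
  · rw [← Int.cast_le (R := ℝ)]
    linarith

/-- A basis whose first vector is shortest among all members of bases. -/
theorem exists_min {A : Matrix (Fin (d + 1)) (Fin (d + 1)) ℝ} (hA : A.PosDef) :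
    ∃ P : Matrix (Fin (d + 1)) (Fin (d + 1)) ℤ, IsUnit P.det ∧
      ∀ R : Matrix (Fin (d + 1)) (Fin (d + 1)) ℤ, IsUnit R.det → ∀ j, cg A P 0 0 ≤ cg A R j j := by
  set V : Set (Fin (d + 1) → ℤ) := {x | qf A (fun i => (x i : ℝ)) ≤ cg A 1 0 0 ∧
    ∃ R : Matrix (Fin (d + 1)) (Fin (d + 1)) ℤ, IsUnit R.det ∧ ∃ j, x = fun i => R i j} with hV
  have hfin : V.Finite := (finite_le hA _).subset fun x hx => hx.1
  have hne : V.Nonempty := ⟨fun i => (1 : Matrix (Fin (d + 1)) (Fin (d + 1)) ℤ) i 0,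
    (cg_diag A 1 0).ge, 1, by simp, 0, rfl⟩
  obtain ⟨x, ⟨hx, P, hP, k, rfl⟩, hmin⟩ :=
    Set.exists_min_image V (fun x => qf A fun i => (x i : ℝ)) hfin hne
  refine ⟨P.submatrix id (Equiv.swap 0 k), ?_, fun R hR j => ?_⟩
  · rw [det_permute']
    exact (Units.isUnit _).mul hP
  · rw [cg_diag, cg_diag]
    simp only [submatrix_apply, id, Equiv.swap_apply_left]
    by_cases h : qf A (fun i => (R i j : ℝ)) ≤ cg A 1 0 0
    · exact hmin (fun i => R i j) ⟨h, R, hR, j, rfl⟩
    · exact hx.trans (not_le.1 h).le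

/-- The form on the quotient by the first basis vector. -/
def sch (B : Matrix (Fin (d + 1)) (Fin (d + 1)) ℝ) : Matrix (Fin d) (Fin d) ℝ :=
  Matrix.of fun i j => B i.succ j.succ - B i.succ 0 * B 0 j.succ / B 0 0

theorem qf_cons {B : Matrix (Fin (d + 1)) (Fin (d + 1)) ℝ} (hB : B.PosDef) (t : ℝ)
    (x : Fin d → ℝ) : qf B (Fin.cons t x) =
      qf (sch B) x + B 0 0 * (t + (∑ j, B 0 j.succ * x j) / B 0 0) ^ 2 := by
  have ha : B 0 0 ≠ 0 := hB.diag_pos.ne'
  have h1 : qf (sch B) x = ∑ i, ∑ j, x i * B i.succ j.succ * x j -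
      (∑ j, B 0 j.succ * x j) * (∑ j, B 0 j.succ * x j) / B 0 0 := by
    rw [qf_eq, Finset.sum_mul_sum, Finset.sum_div, ← Finset.sum_sub_distrib]
    refine Finset.sum_congr rfl fun i _ => ?_
    rw [Finset.sum_div, ← Finset.sum_sub_distrib]
    refine Finset.sum_congr rfl fun j _ => ?_
    rw [sch, of_apply, pd_symm hB i.succ 0]
    ring
  have h2 : ∑ j, t * B 0 j.succ * x j = t * ∑ j, B 0 j.succ * x j := by
    simp only [Finset.mul_sum, mul_assoc]
  have h3 : ∑ i, x i * B i.succ 0 * t = t * ∑ j, B 0 j.succ * x j := by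
    rw [Finset.mul_sum]
    refine Finset.sum_congr rfl fun i _ => ?_
    rw [pd_symm hB i.succ 0]
    ring
  rw [h1, qf_eq]
  simp only [Fin.sum_univ_succ, Fin.cons_zero, Fin.cons_succ, Finset.sum_add_distrib, h2, h3]
  field_simp
  ring

theorem sch_pd {B : Matrix (Fin (d + 1)) (Fin (d + 1)) ℝ} (hB : B.PosDef) : (sch B).PosDef := by
  refine PosDef.of_dotProduct_mulVec_pos ?_ fun x hx => ?_
  · ext i j
    simp only [conjTranspose_apply, star_trivial, sch, of_apply]
    rw [pd_symm hB j.succ i.succ, pd_symm hB j.succ 0, pd_symm hB 0 i.succ, mul_comm]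
  · have h := qf_cons hB (-((∑ j, B 0 j.succ * x j) / B 0 0)) x
    have hne : (Fin.cons (-((∑ j, B 0 j.succ * x j) / B 0 0)) x : Fin (d + 1) → ℝ) ≠ 0 := by
      intro h0
      exact hx (funext fun i => by simpa using congrFun h0 i.succ)
    have h2 := hB.dotProduct_mulVec_pos hne
    rw [star_trivial] at h2 ⊢
    simp only [qf] at h
    rw [h] at h2
    simpa using h2

theorem sch_det {B : Matrix (Fin (d + 1)) (Fin (d + 1)) ℝ} (hB : B.PosDef) :
    B.det = B 0 0 * (sch B).det := by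
  have ha : B 0 0 ≠ 0 := hB.diag_pos.ne'
  set c : Fin (d + 1) → ℝ := Fin.cons 0 fun i => B i.succ 0 / B 0 0 with hc
  have h := det_eq_of_forall_row_eq_smul_add_const (A := B)
    (B := Matrix.of fun i j => B i j - c i * B 0 j) c 0 rfl (fun i j => by simp [hc])
  rw [h, det_succ_column_zero, Fin.sum_univ_succ, Finset.sum_eq_zero]
  · simp only [hc, Fin.val_zero, pow_zero, of_apply, Fin.cons_zero, zero_mul, sub_zero, one_mul,
      add_zero]
    congr 2
    ext i j
    simp only [submatrix_apply, Fin.succAbove_zero, of_apply, Fin.cons_succ, sch]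
    ring
  · intro i _
    simp [hc, ha]

theorem red_mat (d : ℕ) : ∃ C : ℝ, 0 < C ∧ ∀ A : Matrix (Fin d) (Fin d) ℝ, A.PosDef →
    ∃ P : Matrix (Fin d) (Fin d) ℤ, IsUnit P.det ∧ ∏ j, cg A P j j ≤ C * A.det := by
  induction d with
  | zero => exact ⟨1, one_pos, fun A _ => ⟨1, by simp, by simp⟩⟩
  | succ d ih =>
    obtain ⟨C, hC, ih⟩ := ih
    refine ⟨(4 / 3) ^ d * C, by positivity, fun A hA => ?_⟩
    obtain ⟨P, hP, hmin⟩ := exists_min hA
    have hB := cg_pd hA hP
    set B := cg A P with hBdef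
    obtain ⟨S, hS, hprod⟩ := ih (sch B) (sch_pd hB)
    set s : Fin d → ℝ := fun j => (∑ i, B 0 i.succ * (S i j : ℝ)) / B 0 0 with hs
    set R : Matrix (Fin (d + 1)) (Fin (d + 1)) ℤ :=
      Matrix.of (Fin.cons (Fin.cons 1 fun j => -round (s j)) fun i => Fin.cons 0 (S i)) with hR
    have hRdet : R.det = S.det := by
      rw [det_succ_column_zero, Fin.sum_univ_succ, Finset.sum_eq_zero]
      · simp only [hR, Fin.val_zero, pow_zero, of_apply, Fin.cons_zero, one_mul, add_zero]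
        congr 1
      · intro i _
        simp [hR]
    have hPR : IsUnit (P * R).det := by
      rw [det_mul, hRdet]
      exact hP.mul hS
    have ha : 0 < B 0 0 := hB.diag_pos
    have h0 : cg B R 0 0 = B 0 0 := by
      rw [cg_diag, qf_eq]
      simp [hR, Fin.sum_univ_succ]
    have h1 : ∀ j : Fin d, cg B R j.succ j.succ ≤ 4 / 3 * cg (sch B) S j j := fun j => by
      have h2 := hmin _ hPR j.succ
      rw [cg_mul, ← hBdef] at h2
      have h3 : (fun i => (R i j.succ : ℝ)) =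
          Fin.cons (-(round (s j) : ℝ)) fun i => (S i j : ℝ) := by
        funext i
        refine Fin.cases ?_ (fun i => ?_) i <;> simp [hR]
      have h4 : cg B R j.succ j.succ =
          cg (sch B) S j j + B 0 0 * (-(round (s j) : ℝ) + s j) ^ 2 := by
        rw [cg_diag, cg_diag, h3, qf_cons hB]
      have h5 : (-(round (s j) : ℝ) + s j) ^ 2 ≤ 1 / 4 := by
        have h6 := abs_le.1 (abs_sub_round (s j))
        nlinarith [h6.1, h6.2]
      have h7 := mul_le_mul_of_nonneg_left h5 ha.le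
      linarith
    refine ⟨P * R, hPR, ?_⟩
    rw [cg_mul, ← hBdef, Fin.prod_univ_succ, h0, ← cg_det A hP, ← hBdef, sch_det hB]
    have h8 : ∏ j : Fin d, cg B R j.succ j.succ ≤ (4 / 3) ^ d * (C * (sch B).det) := by
      calc ∏ j : Fin d, cg B R j.succ j.succ ≤ ∏ j : Fin d, 4 / 3 * cg (sch B) S j j :=
            Finset.prod_le_prod (fun j _ => by rw [cg_diag]; exact qf_nonneg hB _) fun j _ => h1 j
        _ = (4 / 3) ^ d * ∏ j : Fin d, cg (sch B) S j j := by
            rw [Finset.prod_mul_distrib, Finset.prod_const, Finset.card_univ, Fintype.card_fin]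
        _ ≤ (4 / 3) ^ d * (C * (sch B).det) := mul_le_mul_of_nonneg_left hprod (by positivity)
    calc B 0 0 * ∏ j : Fin d, cg B R j.succ j.succ ≤ B 0 0 * ((4 / 3) ^ d * (C * (sch B).det)) :=
          mul_le_mul_of_nonneg_left h8 ha.le
      _ = (4 / 3) ^ d * C * (B 0 0 * (sch B).det) := by ring

end Red

theorem red : RedStmt := by
  intro d
  obtain ⟨C, hC, h⟩ := Red.red_mat d
  refine ⟨C, hC, fun M _ b Q _ hQ => ?_⟩
  obtain ⟨P, hP, hprod⟩ := h _ hQ
  have hv : b.det (fun j => ∑ i, P i j • b i) = P.det := by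
    rw [Module.Basis.det_apply]
    congr 1
    ext i j
    simp [Module.Basis.toMatrix_apply, Finsupp.single_apply]
  obtain ⟨h1, h2⟩ := (b.is_basis_iff_det (v := fun j => ∑ i, P i j • b i)).2 (hv ▸ hP)
  refine ⟨Module.Basis.mk h1 h2.ge, le_of_eq_of_le ?_ hprod⟩
  refine Finset.prod_congr rfl fun j _ => ?_
  rw [Red.cg_diag, Red.qf_eq, Module.Basis.mk_apply]
  simp only [map_sum, map_smul, LinearMap.sum_apply, LinearMap.smul_apply, zsmul_eq_mul, of_apply]
  rw [Finset.sum_comm]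
  refine Finset.sum_congr rfl fun i _ => ?_
  rw [mul_comm, Finset.sum_mul]

end Pool.Agent.Lib.MP_9177b7_ag.B
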