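import Pool.Agent.Lib.MP_9177b7_ag.B.ShiuN1
import Pool.Agent.Lib.MP_9177b7_ag.J.Shiu

/-! Sums over patterns in a box of `ℤ ^ d`. -/

noncomputable section

namespace Pool.Agent.Lib.MP_9177b7_ag.B.ShiuN

open Finset
open J.Shiu (mert sum_rpow_le inter exp_le loc pat expo sum_range_le)

variable {d : ℕ}

open Classical in
/-- the local factor of a pattern -/
def bb (q : ℕ) (m : ℕ → ℕ) (h : ℕ → (Fin d → ℤ) → ℝ) (w : Prop) (Ω : (Fin d → ℤ) → Prop) (j : ℕ) : ℝ :=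
  if j = 0 then (if w then Real.exp (-denN q fun u => if Ω u then 1 else 0) else 1)
  else denN (q ^ m j) (h j)

open Classical in
lemma cover {κ δ C : ℝ} (hC : 0 < C) (hs : Sv d κ δ C) {y : ℝ} (hy : 1 ≤ y) (a : Fin d → ℤ) {A : Fin d → ℕ}
    (hA : ∀ i, y ≤ A i) {ι : Type} [Fintype ι] (p : ι → ℕ) (hi : Function.Injective p)
    (hp : ∀ i, (p i).Prime) (hz : ∀ i, (p i : ℝ) ≤ √y ^ δ) (m : ℕ → ℕ)
    (h : ι → ℕ → (Fin d → ℤ) → ℝ) (h0 : ∀ i j u, 0 ≤ h i j u) (hP : ∀ i j, Per (p i ^ m j) (h i j))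
    (w : ι → Prop) (Ω : ℕ → (Fin d → ℤ) → Prop) (hΩ : ∀ i u v, CgN (p i) u v → Ω (p i) u → Ω (p i) v)
    (hd : ∀ i, denN (p i) (fun u => if Ω (p i) u then 1 else 0) ≤ κ / p i)
    (V : Finset (Fin d → ℤ)) (hV : V ⊆ boxN a A) (f : (Fin d → ℤ) → ℝ) {K s : ℝ} (hK : 0 ≤ K) (hs0 : 0 ≤ s)
    (b : ι → ℕ → ℝ) (hb : ∀ i j, 0 ≤ b i j) (J : ℕ)
    (hf : ∀ u ∈ V, ∃ π : ι → ℕ, (∀ i, π i ≤ J) ∧
      ∏ i, (p i : ℝ) ^ (if π i = 0 then 0 else m (π i)) ≤ √y ∧
      ∏ i, bb (p i) m (h i) (w i) (Ω (p i)) (π i) ≤ s * ∏ i, b i (π i) ∧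
      f u ≤ K * ∏ i, (if π i = 0 then 1 else h i (π i) u) ∧ ∀ i, π i = 0 → w i → ¬ Ω (p i) u) :
    ∑ u ∈ V, f u ≤ K * (3 ^ d * C * (∏ i, (A i : ℝ))) * s * ∏ i, ∑ j ∈ range (J + 1), b i j := by
  let H : (ι → ℕ) → (Fin d → ℤ) → ℝ := fun π u => ∏ i, (if π i = 0 then 1 else h i (π i) u)
  have H0 : ∀ π u, 0 ≤ H π u := fun π u => prod_nonneg fun i _ => by
    split_ifs
    · norm_num
    · exact h0 _ _ _
  let W : (ι → ℕ) → Finset ℕ := fun π => (univ.filter fun i => π i = 0 ∧ w i).image p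
  let Φ : (ι → ℕ) → (Fin d → ℤ) → ℝ := fun π u => H π u * if ∀ q ∈ W π, ¬ Ω q u then 1 else 0
  have Φ0 : ∀ π u, 0 ≤ Φ π u := fun π u => mul_nonneg (H0 π u) (by split_ifs <;> norm_num)
  let Ad : Finset (ι → ℕ) := (Fintype.piFinset fun _ => range (J + 1)).filter fun π =>
    ∏ i, (p i : ℝ) ^ (if π i = 0 then 0 else m (π i)) ≤ √y ∧
      ∏ i, bb (p i) m (h i) (w i) (Ω (p i)) (π i) ≤ s * ∏ i, b i (π i)
  have one : ∀ π ∈ Ad, ∑ u ∈ boxN a A, Φ π u ≤ 3 ^ d * C * (∏ i, (A i : ℝ)) * s * ∏ i, b i (π i) := by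
    intro π hπ
    obtain ⟨-, h1, h2⟩ := mem_filter.1 hπ
    have hper : ∀ i, Per (p i ^ (if π i = 0 then 0 else m (π i)))
        fun u => if π i = 0 then 1 else h i (π i) u := fun i u v huv => by
      split_ifs at huv ⊢
      · rfl
      · exact hP _ _ u v huv
    have hW : ∀ q ∈ W π, ∃ i, π i = 0 ∧ p i = q := fun q hq => by
      obtain ⟨i, hi, rfl⟩ := mem_image.1 hq
      exact ⟨i, (mem_filter.1 hi).2.1, rfl⟩
    have := pb hC hs hy a hA (M := ∏ i, p i ^ (if π i = 0 then 0 else m (π i)))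
      (prod_pos fun i _ => pow_pos (hp i).pos _) (by push_cast; exact h1) (H0 π)
      (fun u v huv => prod_congr rfl fun i _ =>
        (hper i).of_dvd (dvd_prod_of_mem (fun i => p i ^ (if π i = 0 then 0 else m (π i)))
          (mem_univ i)) u v huv) (W π) Ω
      (fun q hq => by
        obtain ⟨i, h3, rfl⟩ := hW q hq
        refine ⟨hp i, hz i, Nat.Coprime.prod_left fun k _ => ?_⟩
        split_ifs with hk
        · simp
        · exact Nat.Coprime.pow_left _ ((Nat.coprime_primes (hp k) (hp i)).2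
            fun e => hk (hi e ▸ h3)))
      (fun q hq => by obtain ⟨i, -, rfl⟩ := hW q hq; exact hΩ i)
      (fun q hq => by obtain ⟨i, -, rfl⟩ := hW q hq; exact hd i)
    refine this.trans ?_
    rw [den_prod univ _ (fun i => pow_pos (hp i).pos _) (fun i j hij => Nat.Coprime.pow _ _
      ((Nat.coprime_primes (hp i) (hp j)).2 fun e => hij (hi e))) _ hper,
      sum_image hi.injOn, ← sum_neg_distrib, Real.exp_sum, prod_filter, mul_assoc, mul_assoc _ s,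
      ← prod_mul_distrib]
    refine mul_le_mul_of_nonneg_left ((le_of_eq (prod_congr rfl fun i _ => ?_)).trans h2)
      (by positivity)
    by_cases hk : π i = 0 <;> simp [bb, hk, den_one]
  calc ∑ u ∈ V, f u ≤ ∑ u ∈ V, K * ∑ π ∈ Ad, Φ π u := by
        refine sum_le_sum fun u hu => ?_
        obtain ⟨π, h1, h2, h3, h4, h5⟩ := hf u hu
        refine h4.trans (mul_le_mul_of_nonneg_left ?_ hK)
        refine le_trans (le_of_eq ?_) (single_le_sum (fun π _ => Φ0 π u) (a := π)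
          (mem_filter.2 ⟨Fintype.mem_piFinset.2 fun i => mem_range.2 (Nat.lt_succ_of_le (h1 i)),
            h2, h3⟩))
        simp only [Φ]
        rw [if_pos, mul_one]
        intro q hq
        obtain ⟨i, hi, rfl⟩ := mem_image.1 hq
        exact h5 i (mem_filter.1 hi).2.1 (mem_filter.1 hi).2.2
    _ ≤ ∑ u ∈ boxN a A, K * ∑ π ∈ Ad, Φ π u :=
        sum_le_sum_of_subset_of_nonneg hV fun u _ _ => mul_nonneg hK (sum_nonneg fun π _ => Φ0 π u)
    _ ≤ K * ∑ π ∈ Ad, 3 ^ d * C * (∏ i, (A i : ℝ)) * s * ∏ i, b i (π i) := by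
        rw [← mul_sum, sum_comm]
        exact mul_le_mul_of_nonneg_left (sum_le_sum one) hK
    _ ≤ _ := by
        rw [← mul_sum, prod_univ_sum, mul_assoc K, mul_assoc K]
        gcongr
        · exact fun π _ _ => prod_nonneg fun i _ => hb _ _
        · exact filter_subset _ _

end Pool.Agent.Lib.MP_9177b7_ag.B.ShiuN
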