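import Pool.Agent.Lib.MP_9177b7_ag.B.ShiuN2

/-! The points with a large powerful part. -/

noncomputable section

namespace Pool.Agent.Lib.MP_9177b7_ag.B.ShiuN

open Finset
open J.Shiu (mert sum_rpow_le inter exp_le loc pat expo sum_range_le)

variable {d : ℕ}

lemma le_sup2 {ι : Type} [Fintype ι] {V : Finset (Fin d → ℤ)} (lev : (Fin d → ℤ) → ι → ℕ) {u : Fin d → ℤ}
    (hu : u ∈ V) (i : ι) : lev u i ≤ V.sup fun u => univ.sup (lev u) :=
  (le_sup (f := lev u) (mem_univ i)).trans (le_sup (f := fun u => univ.sup (lev u)) hu)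

lemma bb_nonneg (q : ℕ) (m : ℕ → ℕ) {h : ℕ → (Fin d → ℤ) → ℝ} (w : Prop) (Ω : (Fin d → ℤ) → Prop) (j : ℕ)
    (h0 : ∀ j u, 0 ≤ h j u) : 0 ≤ bb q m h w Ω j := by
  unfold bb
  split_ifs
  · positivity
  · norm_num
  · exact den_nonneg _ (h0 j)

open Classical in
lemma bad {κ δ C θ : ℝ} (hκ : 0 ≤ κ) (hθ : 0 < θ) (hC : 0 < C) (hs : Sv d κ δ C) : ∃ K : ℝ, 0 ≤ K ∧
    ∀ {y : ℝ} (a : Fin d → ℤ) {A : Fin d → ℕ} {ι : Type} [Fintype ι] (p : ι → ℕ) (c : ℕ) (z Y : ℝ)
      (Lv : ι → ℕ → (Fin d → ℤ) → Prop) (lev : (Fin d → ℤ) → ι → ℕ) (V : Finset (Fin d → ℤ)),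
      1 ≤ y → (∀ i, y ≤ A i) → Function.Injective p → (∀ i, (p i).Prime) →
      (∀ i, (p i : ℝ) ≤ √y ^ δ) → (∀ i, (p i : ℝ) ≤ z) → 1 ≤ Y → (z ^ 2 * Y) ^ c ≤ √y →
      (∀ i j u v, CgN (p i ^ (c * j)) u v → Lv i j u → Lv i j v) →
      (∀ i j, 2 ≤ j → denN (p i ^ (c * j)) (fun u => if Lv i j u then 1 else 0) ≤
        κ * (p i : ℝ) ^ (-1 - θ * j)) → V ⊆ boxN a A →
      (∀ u ∈ V, ∀ i j, 2 ≤ j → j ≤ lev u i → Lv i j u) →
      (∀ u ∈ V, Y < ∏ i, (p i : ℝ) ^ (if 2 ≤ lev u i then lev u i else 0)) →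
      (V.card : ℝ) ≤ K * (∏ i, (A i : ℝ)) * Y ^ (-(θ / 2)) := by
  obtain ⟨K, hK⟩ := sum_rpow_le hθ
  set r : ℝ := 2 ^ (-(θ / 2)) with hr
  have r0 : 0 < r := by positivity
  have r1 : r < 1 := Real.rpow_lt_one_of_one_lt_of_neg one_lt_two (by linarith)
  have r2 : 0 < 1 - r := by linarith
  refine ⟨3 ^ d * C * Real.exp (κ * (r ^ 2)⁻¹ * (1 - r)⁻¹ * K), by positivity, ?_⟩
  intro y a A ι _ p c z Y Lv lev V hy hA hi hp hz hz' hY hM hP hd hV hL hbig
  have p2 : ∀ i, (2 : ℝ) ≤ p i := fun i => by exact_mod_cast (hp i).two_le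
  have p0 : ∀ i, (0 : ℝ) < p i := fun i => by linarith [p2 i]
  let b : ι → ℕ → ℝ := fun i j =>
    if j = 0 then 1 else if j = 1 then 0 else κ * (p i : ℝ) ^ (-1 - θ / 2 * j)
  have hb : ∀ i j, 0 ≤ b i j := fun i j => by
    simp only [b]
    split_ifs <;> positivity
  have := cover hC hs hy a hA p hi hp hz (fun j => c * j)
    (fun i j u => if Lv i j u then 1 else 0) (fun i j u => by split_ifs <;> norm_num)
    (fun i j => per_ind (hP i j)) (fun _ => False) (fun _ _ => False) (fun _ _ _ _ h => h)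
    (fun i => by simp only [denN, if_false, sum_const_zero, zero_div]; positivity) V hV
    (fun _ => 1) (K := 1) (s := Y ^ (-(θ / 2))) zero_le_one (by positivity) b hb
    (V.sup fun u => univ.sup (lev u)) ?_
  · rw [sum_const, nsmul_eq_mul, mul_one, one_mul] at this
    refine this.trans ?_
    have h1 : ∏ i, ∑ j ∈ range ((V.sup fun u => univ.sup (lev u)) + 1), b i j ≤
        Real.exp (κ * (r ^ 2)⁻¹ * (1 - r)⁻¹ * K) := by
      refine le_trans (prod_le_prod (fun i _ => sum_nonneg fun j _ => hb i j)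
        (g := fun i => Real.exp (κ * (r ^ 2)⁻¹ * (1 - r)⁻¹ * (p i : ℝ) ^ (-1 - θ)))
        fun i _ => ?_) ?_
      · refine le_trans ?_ (Real.add_one_le_exp _)
        have h2 : ∀ j, b i j ≤ κ * (r ^ 2)⁻¹ * (p i : ℝ) ^ (-1 - θ) * r ^ j +
            if j = 0 then 1 else 0 := fun j => by
          simp only [b]
          split_ifs with h0 h1
          · have : 0 ≤ κ * (r ^ 2)⁻¹ * (p i : ℝ) ^ (-1 - θ) * r ^ j := by positivity
            linarith
          · positivity
          · obtain ⟨k, rfl⟩ : ∃ k, j = k + 2 := ⟨j - 2, by omega⟩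
            have e1 : (p i : ℝ) ^ (-1 - θ / 2 * ((k + 2 : ℕ) : ℝ)) =
                (p i : ℝ) ^ (-1 - θ) * ((p i : ℝ) ^ (-(θ / 2))) ^ k := by
              rw [← Real.rpow_mul_natCast (p0 i).le, ← Real.rpow_add (p0 i)]
              congr 1
              push_cast
              ring
            have e2 : (p i : ℝ) ^ (-(θ / 2)) ≤ r :=
              Real.rpow_le_rpow_of_nonpos two_pos (p2 i) (by linarith)
            have e3 : κ * (r ^ 2)⁻¹ * (p i : ℝ) ^ (-1 - θ) * r ^ (k + 2) =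
                κ * ((p i : ℝ) ^ (-1 - θ) * r ^ k) := by field_simp; ring
            rw [e1, e3, add_zero]
            gcongr
        refine (sum_le_sum fun j _ => h2 j).trans ?_
        rw [sum_add_distrib, ← mul_sum, sum_ite_eq', if_pos (by simp)]
        have h3 := (summable_geometric_of_lt_one r0.le r1).sum_le_tsum
          (range ((V.sup fun u => univ.sup (lev u)) + 1)) fun j _ => by positivity
        rw [tsum_geometric_of_lt_one r0.le r1] at h3
        have := mul_le_mul_of_nonneg_left h3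
          (show 0 ≤ κ * (r ^ 2)⁻¹ * (p i : ℝ) ^ (-1 - θ) by positivity)
        linarith
      · rw [← Real.exp_sum, ← mul_sum]
        gcongr
        exact hK p hi
    calc _ ≤ 3 ^ d * C * (∏ i, (A i : ℝ)) * Y ^ (-(θ / 2)) * Real.exp (κ * (r ^ 2)⁻¹ * (1 - r)⁻¹ * K) := by gcongr
      _ = _ := by ring
  intro u hu
  obtain ⟨π, h1, h2, h3⟩ := inter (fun i j => (p i : ℝ) ^ j) (fun i j => by positivity)
    (fun i j => j = 0 ∨ 2 ≤ j ∧ j ≤ lev u i) (fun _ => 0) (Y := Y) (Z := z ^ 2) (by positivity)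
    (fun i j hj h0 => by
      have hj := hj.resolve_left h0
      have z1 : 1 ≤ z := by linarith [p2 i, hz' i]
      by_cases h2 : j = 2
      · subst h2
        exact ⟨0, two_pos, Or.inl rfl, by rw [pow_zero, mul_one]; gcongr; exact hz' i⟩
      · obtain ⟨k, rfl⟩ : ∃ k, j = k + 1 := ⟨j - 1, by omega⟩
        refine ⟨k, by omega, Or.inr ⟨by omega, by omega⟩, ?_⟩
        rw [pow_succ']
        gcongr
        nlinarith [hz' i])
    (by simpa using hY) (fun i => if 2 ≤ lev u i then lev u i else 0)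
    (fun i => by split_ifs <;> simp [*]) (hbig u hu)
  refine ⟨π, fun i => ?_, ?_, ?_, le_of_eq ?_, fun _ _ h => h.elim⟩
  · rcases h1 i with h | h
    · omega
    · exact h.2.trans (le_sup2 lev hu i)
  · refine le_trans (le_of_eq ?_) ((pow_le_pow_left₀ (by positivity) h3 c).trans hM)
    rw [← prod_pow]
    refine prod_congr rfl fun i _ => ?_
    rw [← pow_mul, mul_comm]
    split_ifs with h <;> simp [*]
  · calc _ ≤ ∏ i, ((p i : ℝ) ^ π i) ^ (-(θ / 2)) * b i (π i) := by
          refine prod_le_prod (fun i _ => ?_) fun i _ => ?_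
          · exact bb_nonneg _ _ _ _ _ fun j u => by split_ifs <;> norm_num
          · rcases h1 i with h | h
            · simp [bb, b, h]
            · simp only [bb, b]
              rw [if_neg (by omega), if_neg (by omega), if_neg (by omega)]
              refine (hd i _ h.1).trans (le_of_eq ?_)
              rw [← Real.rpow_natCast_mul (p0 i).le, mul_left_comm, ← Real.rpow_add (p0 i)]
              congr 2
              ring
      _ ≤ _ := by
          rw [prod_mul_distrib, Real.finsetProd_rpow _ _ fun i _ => by positivity]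
          exact mul_le_mul_of_nonneg_right (Real.rpow_le_rpow_of_nonpos (by linarith) h2.le
            (by linarith)) (prod_nonneg fun i _ => hb _ _)
  · rw [one_mul]
    refine (prod_eq_one fun i _ => ?_).symm
    rcases h1 i with h | h
    · rw [if_pos h]
    · rw [if_pos (hL u hu i _ h.1 h.2), ite_self]

end Pool.Agent.Lib.MP_9177b7_ag.B.ShiuN
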