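import Mathlib
import Pool.Agent.Lib.MP_9177b7_ag.B.ZAsm1

/-!
No zero of the zeta function close to `1`: the argument in the normal closure.
-/

open NumberField Pool.Agent.Shared.PrimeZeta Pool.Agent.Shared.FrobeniusDensity

noncomputable section

namespace Pool.Agent.Lib.MP_9177b7_ag.B.ZAsm

theorem Pz_congr {M M' : Type} [Field M] [NumberField M] [Field M'] [NumberField M']
    (e : ∀ q, nI M' q = nI M q) (a : ℝ) : Pz M a = Pz M' a := by
  simp only [Pz, e]

theorem one_le_LL (M : Type) [Field M] [NumberField M] : 1 ≤ LL M := by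
  have h : (1 : ℝ) ≤ |(discr M : ℝ)| := by
    rw [← Int.cast_abs]
    exact_mod_cast Int.one_le_abs (discr_ne_zero M)
  have := Real.log_nonneg h
  rw [LL]
  linarith

theorem card_subgroup_le (G : Type) [Group G] [Finite G] : Nat.card (Subgroup G) ≤ 2 ^ Nat.card G := by
  classical
  have := Fintype.ofFinite G
  rw [Nat.card_eq_fintype_card (α := G), ← Fintype.card_set, ← Nat.card_eq_fintype_card]
  exact Nat.card_le_card_of_injective (fun H : Subgroup G => (H : Set G)) SetLike.coe_injective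

open Classical in
theorem ms_bound {G : Type} [Group G] (s : Multiset (Subgroup G)) (f : Subgroup G → Prop)
    (D : Subgroup G → ℝ) {τ B : ℝ} {d : ℕ} (hd : ∀ H : Subgroup G, Nat.card H ≤ d)
    (h1 : ∀ H, f H → |D H - τ| ≤ B) (h2 : ∀ H, ¬ f H → |D H| ≤ B) :
    |(s.map fun H : Subgroup G => (Nat.card H : ℝ) * D H).sum -
      ((s.map fun H : Subgroup G => if f H then Nat.card H else 0).sum : ℕ) * τ| ≤
        s.card * (d * B) := by
  induction s using Multiset.induction_on with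
  | empty => simp
  | cons H s ih =>
    simp only [Multiset.map_cons, Multiset.sum_cons, Multiset.card_cons]
    have hH : (Nat.card H : ℝ) ≤ d := Nat.cast_le.2 (hd H)
    have h0 : (0 : ℝ) ≤ Nat.card H := Nat.cast_nonneg _
    have key : |(Nat.card H : ℝ) * D H - ((if f H then Nat.card H else 0 : ℕ) : ℝ) * τ| ≤ d * B := by
      split_ifs with h
      · rw [← mul_sub, abs_mul, abs_of_nonneg h0]
        exact mul_le_mul hH (h1 H h) (abs_nonneg _) (by positivity)
      · rw [Nat.cast_zero, zero_mul, sub_zero, abs_mul, abs_of_nonneg h0]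
        exact mul_le_mul hH (h2 H h) (abs_nonneg _) (by positivity)
    rw [Nat.cast_add, Nat.cast_add, Nat.cast_one]
    rw [abs_le] at *
    constructor <;> nlinarith [ih.1, ih.2, key.1, key.2]

theorem core (hZ : ZeroStmt) (hF : FrobStmt) (hG : GrpStmt) (K : Type) [Field K] [NumberField K]
    (d : ℕ) (hK : Module.finrank ℚ K ≤ d) : ∃ c C : ℝ, 0 < c ∧
    ∀ (E : Type) [Field E] [NumberField E] [IsGalois ℚ E] (X : Type) [Fintype X]
      (G₀ H₀ : Subgroup (E ≃ₐ[ℚ] E)) (ρ : G₀ ≃* Equiv.Perm X) (x₀ : X) (Θ : 𝓞 E) (R Lg : ℝ)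
      (L F : Type) [Field L] [NumberField L] [Field F] [NumberField F],
      Module.finrank ℚ E ≤ d → Module.finrank ℚ L ≤ d → Module.finrank ℚ F ≤ d →
      3 ≤ Fintype.card X → (∀ g, g ∈ H₀ ↔ ∃ h : g ∈ G₀, ρ ⟨g, h⟩ x₀ = x₀) →
      (∀ q, nI (IntermediateField.fixedField G₀) q = nI K q) →
      (∀ q, nI (IntermediateField.fixedField H₀) q = nI L q) → 1 ≤ R →
      (∀ σ : E ≃ₐ[ℚ] E, σ Θ = Θ → σ = 1) → (∀ φ : E →+* ℂ, ‖φ Θ‖ ≤ R) →
      LL F ≤ Lg → LL L ≤ Lg → d ^ 2 * Real.log (2 * R) + 1 ≤ Lg →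
      ∃ b : ℝ, c / Lg ≤ b ∧ b ≤ 1 / Lg ∧
        Real.log (dedekindZeta_residue F) + Pz L b ≤
          Real.log (dedekindZeta_residue L) + Pz F b + C := by
  classical
  obtain ⟨c₀, B, hc₀, hc₁, hz⟩ := hZ d
  obtain ⟨ρK, hρK, hzK⟩ := hz K hK (LL K) le_rfl
  have hLK := one_le_LL K
  set r₀ : ℝ := min (c₀ / LL K) ρK with hr₀
  have hr₀p : 0 < r₀ := lt_min (by positivity) hρK
  have hr₀c : r₀ ≤ c₀ := (min_le_left _ _).trans (div_le_self hc₀.le hLK)
  have hB : 0 ≤ B := (abs_nonneg _).trans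
    ((hzK r₀ r₀ hr₀p le_rfl (min_le_left _ _)).2.1 (min_le_right _ _)).1
  set τ : ℝ := 4 * d * (d * B) + 4 * d * d ^ 2 + 2 * B + 1 with hτ
  have hτ0 : 0 < τ := by positivity
  have hτB : 2 * B < τ := by
    have : (0 : ℝ) ≤ 4 * d * (d * B) + 4 * d * d ^ 2 := by positivity
    linarith
  set T : ℝ := Real.exp τ with hT
  have hT1 : 1 ≤ T := Real.one_le_exp hτ0.le
  refine ⟨r₀ / T ^ (2 ^ d + 1), 2 * B, by positivity, ?_⟩
  intro E _ _ _ X _ G₀ H₀ ρ x₀ Θ R Lg L F _ _ _ _ hE hL hFd hX hH₀ eK eL hR hΘ hΘR hLF hLL hLg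
  have hLg1 : 1 ≤ Lg := (one_le_LL F).trans hLF
  obtain ⟨Δ, hΔ0, hΔR, hΔE, hfr⟩ := hF E Θ R hR hΘ hΘR
  have hlogΔ : Real.log Δ ≤ d ^ 2 * Real.log (2 * R) := by
    have h1 : (0 : ℝ) < Δ := by exact_mod_cast Nat.pos_of_ne_zero hΔ0
    refine (Real.log_le_log h1 hΔR).trans ?_
    rw [Real.log_pow]
    have h2 : 0 ≤ Real.log (2 * R) := Real.log_nonneg (by linarith)
    have h3 : ((Module.finrank ℚ E ^ 2 : ℕ) : ℝ) ≤ d ^ 2 := by
      exact_mod_cast Nat.pow_le_pow_left hE 2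
    gcongr
  have hLH : ∀ H : Subgroup (E ≃ₐ[ℚ] E), LL (IntermediateField.fixedField H) ≤ Lg := by
    intro H
    have h1 : (discr (IntermediateField.fixedField H)).natAbs ≤ Δ :=
      (Nat.le_of_dvd (Int.natAbs_pos.2 (discr_ne_zero E))
        (Int.natAbs_dvd_natAbs.2 (discr_dvd_discr _ E))).trans hΔE
    have h2 : |(discr (IntermediateField.fixedField H) : ℝ)| ≤ Δ := by
      rw [← Int.cast_abs, ← Int.natCast_natAbs, Int.cast_natCast]
      exact Nat.cast_le.2 h1
    have h3 : 0 < |(discr (IntermediateField.fixedField H) : ℝ)| :=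
      abs_pos.2 (Int.cast_ne_zero.2 (discr_ne_zero _))
    have := Real.log_le_log h3 h2
    rw [LL]
    linarith
  choose ρH hρH hzH using fun H : Subgroup (E ≃ₐ[ℚ] E) =>
    hz (IntermediateField.fixedField H) ((rank_le_rank _).trans hE) Lg (hLH H)
  obtain ⟨ρL, -, hzL⟩ := hz L hL Lg hLL
  obtain ⟨ρF, -, hzF⟩ := hz F hFd Lg hLF
  have : Fintype (Subgroup (E ≃ₐ[ℚ] E)) := Fintype.ofFinite _
  have hcG : Nat.card (E ≃ₐ[ℚ] E) ≤ d := by rwa [IsGalois.card_aut_eq_finrank]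
  obtain ⟨i, hi, hp⟩ := pigeon (fun o : Option (Subgroup (E ≃ₐ[ℚ] E)) => o.elim ρL ρH)
    (r := r₀ / Lg) (by positivity) hT1
  have hi' : i ≤ 2 ^ d + 1 := by
    rw [Fintype.card_option, ← Nat.card_eq_fintype_card] at hi
    have := (card_subgroup_le (E ≃ₐ[ℚ] E)).trans (Nat.pow_le_pow_right two_pos hcG)
    omega
  set b : ℝ := r₀ / Lg / T ^ i with hb
  set a : ℝ := r₀ / Lg / T ^ (i + 1) with ha
  have ha0 : 0 < a := by positivity
  have hTi : 1 ≤ T ^ i := one_le_pow₀ hT1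
  have hab : a ≤ b := div_le_div_of_nonneg_left (by positivity) (by positivity)
    (pow_le_pow_right₀ hT1 (Nat.le_succ i))
  have hb0 : 0 < b := by positivity
  have hb1 : b ≤ r₀ / Lg := div_le_self (by positivity) hTi
  have hb2 : b ≤ c₀ / Lg := hb1.trans (by gcongr)
  have hb3 : b ≤ r₀ := hb1.trans (div_le_self hr₀p.le hLg1)
  have hb4 : b ≤ 1 / Lg := hb2.trans (by gcongr)
  have hlog : Real.log (b / a) = τ := by
    have : b / a = T := by
      rw [hb, ha, pow_succ]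
      field_simp
    rw [this, hT, Real.log_exp]
  have h1 : ∀ H, b ≤ ρH H → |dP a b H - τ| ≤ B := fun H h => by
    rw [← hlog]; exact ((hzH H a b ha0 hab hb2).2.1 h).1
  have h2 : ∀ H, ¬ b ≤ ρH H → |dP a b H| ≤ B := fun H h =>
    (hzH H a b ha0 hab hb2).1 ((hp (some H)).resolve_right h)
  have hf0 : b ≤ ρH G₀ := by
    by_contra h
    have h3 := h2 G₀ h
    have h4 := ((hzK a b ha0 hab (hb3.trans (min_le_left _ _))).2.1
      (hb3.trans (min_le_right _ _))).1
    rw [dP, ← Pz_congr eK, ← Pz_congr eK] at h3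
    rw [hlog] at h4
    rw [abs_le] at h3 h4
    linarith [h3.2, h4.1]
  have hf1 : b ≤ ρH H₀ := by
    refine hG _ X G₀ H₀ ρ x₀ (fun H => b ≤ ρH H) hX hH₀ (fun s t hst hle => ?_) hf0
    have e1 := ms_bound s (fun H => b ≤ ρH H) (dP a b) (fun H => (card_le_rank H).trans hE) h1 h2
    have e2 := ms_bound t (fun H => b ≤ ρH H) (dP a b) (fun H => (card_le_rank H).trans hE) h1 h2
    have e3 := ineqP hE hΔ0 hfr ha0 hab s t hle
    have e4 : (s.card : ℝ) + t.card ≤ 4 * d := by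
      have : s.card + t.card ≤ 4 * d := hst.trans (by gcongr)
      exact_mod_cast this
    have e5 : b * Real.log Δ ≤ 1 := by
      have : Real.log Δ ≤ Lg := by linarith
      calc b * Real.log Δ ≤ 1 / Lg * Lg := by
            exact mul_le_mul hb4 this (Real.log_natCast_nonneg _) (by positivity)
        _ = 1 := by field_simp
    have e6 : (s.card : ℝ) * d ^ 2 * (b * Real.log Δ) ≤ 4 * d * d ^ 2 := by
      have h5 : (s.card : ℝ) ≤ 4 * d := by
        have : (0 : ℝ) ≤ t.card := Nat.cast_nonneg _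
        linarith
      calc (s.card : ℝ) * d ^ 2 * (b * Real.log Δ) ≤ 4 * d * d ^ 2 * 1 :=
            mul_le_mul (by gcongr) e5 (mul_nonneg hb0.le (Real.log_natCast_nonneg _))
              (by positivity)
        _ = _ := mul_one _
    by_contra hcon
    rw [not_le, ← Nat.succ_le_iff, ← Nat.cast_le (α := ℝ), Nat.cast_succ] at hcon
    have e7 := mul_le_mul_of_nonneg_right hcon hτ0.le
    have e8 := mul_le_mul_of_nonneg_right e4 (show (0 : ℝ) ≤ d * B by positivity)
    rw [abs_le] at e1 e2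
    have := e1.1
    have := e2.2
    nlinarith
  have hbL : b ≤ ρL := by
    by_contra h
    have h3 := (hzL a b ha0 hab hb2).1 ((hp none).resolve_right h)
    have h4 := h1 H₀ hf1
    rw [dP, ← Pz_congr eL, ← Pz_congr eL] at h4
    rw [abs_le] at h3 h4
    linarith [h3.2, h4.1]
  refine ⟨b, ?_, hb4, ?_⟩
  · rw [hb, div_right_comm]
    exact div_le_div_of_nonneg_left (by positivity) (by positivity) (pow_le_pow_right₀ hT1 hi')
  · have h3 := ((hzL a b ha0 hab hb2).2.1 hbL).2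
    have h4 := (hzF a b ha0 hab hb2).2.2
    linarith

end Pool.Agent.Lib.MP_9177b7_ag.B.ZAsm
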